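import Pool.Agent.Lib.MP_35c604_gt.Q60

/-! TASK ADET: the matrix `Amat` is invertible; its reduced norm. -/

namespace MP35

open Matrix

/-- The coefficient function of a dense list. -/
def adet_cf (l : List ℤ) : Q → ℤ
  | .a i => l.getD i.val 0
  | .xa i => l.getD (30 + i.val) 0

theorem adet_coeff_el (g h : Q) : (el ℤ g).coeff h = if g = h then 1 else 0 :=
  Finsupp.single_apply

theorem adet_sum_ite (f : ℕ → ℤ) (j : ZMod (2 * 15)) :
    ∑ i ∈ Finset.range 30, f i * (if (i : ZMod (2 * 15)) = j then 1 else 0) = f j.val := by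
  rw [Finset.sum_eq_single j.val]
  · rw [ZMod.natCast_zmod_val, if_pos rfl, mul_one]
  · intro i hi hij
    rw [if_neg, mul_zero]
    rintro rfl
    exact hij (ZMod.val_cast_of_lt (Finset.mem_range.1 hi)).symm
  · intro hj
    exact absurd (Finset.mem_range.2 (ZMod.val_lt j)) hj

theorem adet_coeff_ofL (l : List ℤ) (g : Q) : (ofL l).coeff g = adet_cf l g := by
  unfold ofL
  rw [MonoidAlgebra.coeff_sum, Finsupp.finsetSum_apply]
  simp only [MonoidAlgebra.coeff_add, Finsupp.add_apply, MonoidAlgebra.coeff_smul_apply,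
    adet_coeff_el, smul_eq_mul]
  rcases g with j | j
  · simp only [QuaternionGroup.a.injEq, reduceCtorEq, if_false, mul_zero, add_zero]
    exact adet_sum_ite (fun i => l.getD i 0) j
  · simp only [QuaternionGroup.xa.injEq, reduceCtorEq, if_false, mul_zero, zero_add]
    exact adet_sum_ite (fun i => l.getD (30 + i) 0) j

theorem adet_coeff_mul (x y : ZQ) (g : Q) :
    (x * y).coeff g = ∑ h : Q, x.coeff h * y.coeff (h⁻¹ * g) := by
  rw [MonoidAlgebra.coeff_mul_apply_left, Finsupp.sum_fintype]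
  intro h
  exact zero_mul _

theorem adet_coeff_one (g : Q) : (1 : ZQ).coeff g = if 1 = g then 1 else 0 :=
  Finsupp.single_apply

theorem adet_coeff_zero (g : Q) : (0 : ZQ).coeff g = 0 := rfl

theorem adet_coeff_two (g : Q) : (2 : ZQ).coeff g = if 1 = g then 2 else 0 :=
  Finsupp.single_apply

theorem adet_ext {x y : ZQ} (h : ∀ g, x.coeff g = y.coeff g) : x = y :=
  MonoidAlgebra.ext (Finsupp.ext h)

def adet_A00 : List ℤ :=
  [0, 1, 0, 1, 1, 0, 0, -1, 0, 0, 0, -2, 1, 0, 1, -2, 1, 1, 1, -1, 0, 2, 1, -2, -2, 1, -1, 0, -1,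
    1, 0, 0, -1, -1, 1, -1, 0, -1, 2, 0, 1, 0, 1, 0, -1, 0, -1, 0, -2, 0, 0, 0, 0, 1, 2, 0, 0, 0,
    0, 0]

def adet_A01 : List ℤ :=
  [-2, -3, -2, -2, -1, 0, 0, 2, 2, 2, 2, 2, 0, -1, -1, -1, -3, -3, -2, 0, -1, 0, 1, 5, 2, 1, 0,
    0, -2, -3, 3, 1, 2, 1, 1, 0, -1, -1, -2, -1, -1, 0, 1, 3, 3, 3, 2, 2, 1, -1, -2, -1, -3, -5,
    -3, 1, 1, 0, 1, 2]

def adet_A10 : List ℤ :=
  [-1, -1, -1, 2, -2, 1, 0, 1, 1, -1, 1, 1, -1, -1, 0, 0, 0, -2, 1, -1, 2, -1, 0, 1, 2, -1, 0,
    -1, 0, 1, 1, -1, 2, -1, 1, 0, 1, 1, -1, 0, -1, 0, -1, 0, -1, 1, 1, -1, 1, 0, 0, 0, 1, 1, -1,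
    -1, 0, 0, -1, -1]

def adet_A11 : List ℤ :=
  [0, 3, 0, -2, 0, -2, -2, -3, -1, 1, 0, 1, 2, 2, 0, 1, 2, 1, -1, -1, -2, -1, -2, -3, -1, 2, 1,
    2, 0, 2, -2, -1, -2, -1, -3, -1, 0, 0, 2, 2, 2, 2, 0, 1, 0, -2, -2, 0, -1, -1, -1, -2, 0, 2,
    3, 1, 2, 1, 2, -1]

def adet_B00 : List ℤ :=
  [-5, 1, 1, -3, 4, 0, -1, 0, -4, 1, -1, 3, 2, 2, 3, -5, 1, -3, -3, 1, -1, 1, 0, -3, 4, -2, 4, 1,
    0, 3, -3, 0, 0, -2, 2, -2, -1, 1, -4, 2, -1, 2, 2, 1, 4, -4, 1, 0, -2, 3, -1, -1, 1, -6, 1,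
    0, 1, 2, 0, 4]

def adet_B01 : List ℤ :=
  [0, 3, 0, -4, -2, -5, -3, -1, 1, 4, 2, 3, -1, 0, -1, -1, 1, 0, -3, 0, -2, 1, 0, 1, 1, -1, 0,
    -2, 0, 1, 1, 3, 3, 0, 1, -3, -1, 1, 2, 5, 3, 3, 0, 2, 1, 0, 2, 0, -3, -1, -4, -2, -2, -3, 1,
    -1, -1, -2, 0, 2]

def adet_B10 : List ℤ :=
  [-5, 2, 0, -2, 2, 1, -2, 4, -3, -2, 3, -4, 4, -3, 4, -3, 3, -2, 0, 1, -1, -1, 2, -3, 1, 1, -2,
    4, -4, 5, -2, 0, 2, -3, 4, -3, 1, -1, 0, 1, -2, 4, -2, 2, -1, -2, 0, 1, -2, 3, -1, 1, -2, 0,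
    1, -2, 4, -3, 2, 0]

def adet_B11 : List ℤ :=
  [-1, 2, 1, 0, 0, 0, -3, 3, -5, 3, -1, 2, -1, 1, -1, 0, 0, 0, 0, 0, 0, -2, 3, -3, 3, -2, 2, -2,
    1, -1, -2, 2, -1, -1, 0, -2, 1, 0, 4, -1, 1, -1, -1, -1, 1, -2, 2, -1, -1, 1, -1, 1, -2, 2,
    -2, 1, -1, 1, 0, 3]

theorem adet_Amat00 : Amat 0 0 = ofL adet_A00 := by
  refine adet_ext ?_
  simp only [Amat, Ap, cvec, u0, Matrix.of_apply, Matrix.cons_val', Matrix.cons_val_zero,
    Matrix.cons_val_one, Matrix.cons_val_fin_one, MonoidAlgebra.coeff_add,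
    MonoidAlgebra.coeff_sub, Finsupp.add_apply, Finsupp.sub_apply, adet_coeff_mul, adet_coeff_ofL,
    adet_coeff_el, adet_coeff_one]
  decide +kernel

theorem adet_Amat01 : Amat 0 1 = ofL adet_A01 := by
  refine adet_ext ?_
  simp only [Amat, Ap, cvec, u0, Matrix.of_apply, Matrix.cons_val', Matrix.cons_val_zero,
    Matrix.cons_val_one, Matrix.cons_val_fin_one, MonoidAlgebra.coeff_add,
    MonoidAlgebra.coeff_sub, Finsupp.add_apply, Finsupp.sub_apply, adet_coeff_mul, adet_coeff_ofL,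
    adet_coeff_el]
  decide +kernel

theorem adet_Amat10 : Amat 1 0 = ofL adet_A10 := by
  refine adet_ext ?_
  simp only [Amat, Ap, cvec, u0, Matrix.of_apply, Matrix.cons_val', Matrix.cons_val_zero,
    Matrix.cons_val_one, Matrix.cons_val_fin_one, MonoidAlgebra.coeff_add,
    MonoidAlgebra.coeff_sub, Finsupp.add_apply, Finsupp.sub_apply, adet_coeff_mul, adet_coeff_ofL,
    adet_coeff_el, adet_coeff_one, adet_coeff_zero]
  decide +kernel

theorem adet_Amat11 : Amat 1 1 = ofL adet_A11 := by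
  refine adet_ext ?_
  simp only [Amat, Ap, cvec, u0, Matrix.of_apply, Matrix.cons_val', Matrix.cons_val_zero,
    Matrix.cons_val_one, Matrix.cons_val_fin_one, MonoidAlgebra.coeff_add,
    MonoidAlgebra.coeff_sub, Finsupp.add_apply, Finsupp.sub_apply, adet_coeff_mul, adet_coeff_ofL,
    adet_coeff_el, adet_coeff_two]
  decide +kernel

theorem adet_Amat : Amat = !![ofL adet_A00, ofL adet_A01; ofL adet_A10, ofL adet_A11] := by
  rw [← adet_Amat00, ← adet_Amat01, ← adet_Amat10, ← adet_Amat11]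
  exact Matrix.eta_fin_two Amat

/-- The coefficients of `a b + c d`. -/
def adet_cv (a b c d : List ℤ) (g : Q) : ℤ :=
  ∑ h : Q, adet_cf a h * adet_cf b (h⁻¹ * g) + ∑ h : Q, adet_cf c h * adet_cf d (h⁻¹ * g)

theorem adet_cv_one {a b c d : List ℤ} (h : ∀ g, adet_cv a b c d g = if 1 = g then 1 else 0) :
    ofL a * ofL b + ofL c * ofL d = 1 := by
  refine adet_ext fun g => ?_
  simp only [MonoidAlgebra.coeff_add, Finsupp.add_apply, adet_coeff_mul, adet_coeff_ofL,
    adet_coeff_one]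
  exact h g

theorem adet_cv_zero {a b c d : List ℤ} (h : ∀ g, adet_cv a b c d g = 0) :
    ofL a * ofL b + ofL c * ofL d = 0 := by
  refine adet_ext fun g => ?_
  simp only [MonoidAlgebra.coeff_add, Finsupp.add_apply, adet_coeff_mul, adet_coeff_ofL,
    adet_coeff_zero]
  exact h g

theorem adet_AB00 :
    ofL adet_A00 * ofL adet_B00 + ofL adet_A01 * ofL adet_B10 = 1 :=
  adet_cv_one (by decide +kernel)

theorem adet_AB01 :
    ofL adet_A00 * ofL adet_B01 + ofL adet_A01 * ofL adet_B11 = 0 :=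
  adet_cv_zero (by decide +kernel)

theorem adet_AB10 :
    ofL adet_A10 * ofL adet_B00 + ofL adet_A11 * ofL adet_B10 = 0 :=
  adet_cv_zero (by decide +kernel)

theorem adet_AB11 :
    ofL adet_A10 * ofL adet_B01 + ofL adet_A11 * ofL adet_B11 = 1 :=
  adet_cv_one (by decide +kernel)

theorem adet_BA00 :
    ofL adet_B00 * ofL adet_A00 + ofL adet_B01 * ofL adet_A10 = 1 :=
  adet_cv_one (by decide +kernel)

theorem adet_BA01 :
    ofL adet_B00 * ofL adet_A01 + ofL adet_B01 * ofL adet_A11 = 0 :=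
  adet_cv_zero (by decide +kernel)

theorem adet_BA10 :
    ofL adet_B10 * ofL adet_A00 + ofL adet_B11 * ofL adet_A10 = 0 :=
  adet_cv_zero (by decide +kernel)

theorem adet_BA11 :
    ofL adet_B10 * ofL adet_A01 + ofL adet_B11 * ofL adet_A11 = 1 :=
  adet_cv_one (by decide +kernel)

theorem Amat_inv : ∃ B : Matrix (Fin 2) (Fin 2) ZQ, Amat * B = 1 ∧ B * Amat = 1 := by
  refine ⟨!![ofL adet_B00, ofL adet_B01; ofL adet_B10, ofL adet_B11], ?_, ?_⟩
  · rw [adet_Amat, Matrix.mul_fin_two, Matrix.one_fin_two, adet_AB00, adet_AB01, adet_AB10,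
      adet_AB11]
  · rw [adet_Amat, Matrix.mul_fin_two, Matrix.one_fin_two, adet_BA00, adet_BA01, adet_BA10,
      adet_BA11]

/-! Dense integer polynomials. -/

def adet_ev {T : Type} [CommRing T] (x : T) : List ℤ → T
  | [] => 0
  | a :: l => (a : T) + x * adet_ev x l

def adet_add : List ℤ → List ℤ → List ℤ
  | [], m => m
  | a :: l, [] => a :: l
  | a :: l, b :: m => (a + b) :: adet_add l m

def adet_smul (c : ℤ) (l : List ℤ) : List ℤ := l.map fun a => c * a

def adet_mul : List ℤ → List ℤ → List ℤ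
  | [], _ => []
  | a :: l, m => adet_add (adet_smul a m) (0 :: adet_mul l m)

def adet_sub (l m : List ℤ) : List ℤ := adet_add l (adet_smul (-1) m)

def adet_tab : ℕ → (ℕ → ℤ) → List ℤ
  | 0, _ => []
  | n + 1, f => f 0 :: adet_tab n fun i => f (i + 1)

section
variable {T : Type} [CommRing T]

theorem adet_ev_add (x : T) : ∀ l m, adet_ev x (adet_add l m) = adet_ev x l + adet_ev x m
  | [], m => by simp [adet_add, adet_ev]
  | a :: l, [] => by simp [adet_add, adet_ev]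
  | a :: l, b :: m => by
    simp only [adet_add, adet_ev, adet_ev_add x l m, Int.cast_add]; ring

theorem adet_ev_smul (x : T) (c : ℤ) : ∀ l, adet_ev x (adet_smul c l) = c * adet_ev x l
  | [] => by simp [adet_smul, adet_ev]
  | a :: l => by
    have := adet_ev_smul x c l
    simp only [adet_smul, List.map_cons, adet_ev, Int.cast_mul] at this ⊢
    rw [this]; ring

theorem adet_ev_mul (x : T) : ∀ l m, adet_ev x (adet_mul l m) = adet_ev x l * adet_ev x m
  | [], m => by simp [adet_mul, adet_ev]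
  | a :: l, m => by
    simp only [adet_mul, adet_ev, adet_ev_add, adet_ev_smul, adet_ev_mul x l m, Int.cast_zero]
    ring

theorem adet_ev_sub (x : T) (l m : List ℤ) :
    adet_ev x (adet_sub l m) = adet_ev x l - adet_ev x m := by
  simp only [adet_sub, adet_ev_add, adet_ev_smul, Int.cast_neg, Int.cast_one]; ring

theorem adet_ev_zero (x : T) : ∀ l : List ℤ, (l.all fun a => a == 0) = true → adet_ev x l = 0
  | [], _ => rfl
  | a :: l, h => by
    rw [List.all_cons, Bool.and_eq_true, beq_iff_eq] at h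
    simp [adet_ev, adet_ev_zero x l h.2, h.1]

theorem adet_ev_tab (x : T) : ∀ (n : ℕ) (f : ℕ → ℤ),
    adet_ev x (adet_tab n f) = ∑ i ∈ Finset.range n, (f i : T) * x ^ i
  | 0, _ => rfl
  | n + 1, f => by
    rw [adet_tab, adet_ev, adet_ev_tab x n, Finset.sum_range_succ', Finset.mul_sum, add_comm,
      pow_zero, mul_one]
    congr 1
    exact Finset.sum_congr rfl fun i _ => by ring

theorem adet_pw (ξ : Tˣ) {i : ℕ} (hi : i < 30) :
    (pw ξ (i : ZMod (2 * 15)) : T) = (ξ : T) ^ i := by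
  rw [pw, ZMod.val_cast_of_lt hi, Units.val_pow_eq_pow_val]

theorem adet_pw_inv {ξ : Tˣ} (h : (ξ : T) ^ 15 = -1) {i : ℕ} (hi : i < 30) :
    (((pw ξ (i : ZMod (2 * 15)))⁻¹ : Tˣ) : T) = (ξ : T) ^ ((30 - i) % 30) := by
  rw [← pw_neg h, pw, ZMod.neg_val', ZMod.val_cast_of_lt hi, Units.val_pow_eq_pow_val]

theorem adet_sum_rev (x : T) (f : ℕ → ℤ) :
    ∑ i ∈ Finset.range 30, (f i : T) * x ^ ((30 - i) % 30) =
      adet_ev x (adet_tab 30 fun i => f ((30 - i) % 30)) := by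
  rw [adet_ev_tab]
  refine Finset.sum_nbij' (fun i => (30 - i) % 30) (fun i => (30 - i) % 30) ?_ ?_ ?_ ?_ ?_
  · intro i _; exact Finset.mem_range.2 (by omega)
  · intro i _; exact Finset.mem_range.2 (by omega)
  · intro i hi; have := Finset.mem_range.1 hi; omega
  · intro i hi; have := Finset.mem_range.1 hi; omega
  · intro i hi
    have := Finset.mem_range.1 hi
    rw [show (30 - (30 - i) % 30) % 30 = i by omega]

def adet_P (l : List ℤ) (s : ℕ) : List ℤ := adet_tab 30 fun i => l.getD (s + i) 0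

def adet_R (l : List ℤ) (s : ℕ) : List ℤ := adet_tab 30 fun i => l.getD (s + (30 - i) % 30) 0

theorem adet_lin_ofL (ξ : Tˣ) (h : (ξ : T) ^ 15 = -1) (l : List ℤ) :
    lin (rho ξ h) (ofL l) = !![adet_ev (ξ : T) (adet_P l 0), adet_ev (ξ : T) (adet_R l 30);
      -adet_ev (ξ : T) (adet_P l 30), adet_ev (ξ : T) (adet_R l 0)] := by
  have h1 : ∀ g, lin (rho ξ h) (el ℤ g) = rhoF ξ g := fun g => by
    rw [el, lin_single, one_smul]; rfl
  unfold ofL adet_P adet_R
  rw [← adet_sum_rev (ξ : T) fun i => l.getD (30 + i) 0,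
    ← adet_sum_rev (ξ : T) fun i => l.getD (0 + i) 0, adet_ev_tab, adet_ev_tab, map_sum]
  simp only [map_add, map_zsmul, h1, zero_add]
  ext i j
  rw [Matrix.sum_apply]
  fin_cases i <;> fin_cases j <;>
    simp only [Fin.zero_eta, Fin.mk_one, Matrix.of_apply, Matrix.cons_val', Matrix.cons_val_zero,
      Matrix.cons_val_one, Matrix.cons_val_fin_one]
  · exact Finset.sum_congr rfl fun i hi => by
      simp [rhoF, adet_pw ξ (Finset.mem_range.1 hi)]
  · exact Finset.sum_congr rfl fun i hi => by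
      simp [rhoF, adet_pw_inv h (Finset.mem_range.1 hi)]
  · refine Eq.trans ?_ (Finset.sum_neg_distrib _)
    exact Finset.sum_congr rfl fun i hi => by
      simp [rhoF, adet_pw ξ (Finset.mem_range.1 hi)]
  · exact Finset.sum_congr rfl fun i hi => by
      simp [rhoF, adet_pw_inv h (Finset.mem_range.1 hi)]

def adet_e : Fin 4 ≃ Fin 2 × Fin 2 where
  toFun := ![(0, 0), (0, 1), (1, 0), (1, 1)]
  invFun x := ![![0, 1], ![2, 3]] x.1 x.2
  left_inv := by decide
  right_inv := by decide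

theorem adet_det4 (a b c d e f g h i j k l m n o p : T) :
    det !![a, b, c, d; e, f, g, h; i, j, k, l; m, n, o, p] =
      (a * f - b * e) * (k * p - l * o) - (a * g - c * e) * (j * p - l * n) +
      (a * h - d * e) * (j * o - k * n) + (b * g - c * f) * (i * p - l * m) -
      (b * h - d * f) * (i * o - k * m) + (c * h - d * g) * (i * n - j * m) := by
  simp [Matrix.det_succ_row_zero, Fin.sum_univ_succ, Fin.succAbove]
  ring

end

def adet_m (a f b e : List ℤ) : List ℤ := adet_sub (adet_mul a f) (adet_mul b e)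

def adet_D (a b c d e f g h i j k l m n o p : List ℤ) : List ℤ :=
  adet_add (adet_sub (adet_add (adet_add (adet_sub
    (adet_mul (adet_m a f b e) (adet_m k p l o)) (adet_mul (adet_m a g c e) (adet_m j p l n)))
    (adet_mul (adet_m a h d e) (adet_m j o k n))) (adet_mul (adet_m b g c f) (adet_m i p l m)))
    (adet_mul (adet_m b h d f) (adet_m i o k m))) (adet_mul (adet_m c h d g) (adet_m i n j m))

def adet_q : List ℤ :=
  [23, -3, 38, -67, 49, 5, 39, -42, -8, 143, -108, -38, -200, 99, -246, -176, -33, 143, 112, -95,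
    290, 145, 60, -34, -61, 297, -351, 192, -277, 336, -305, 144, -142, 398, -23, -207, -191,
    -203, -412, -671, -320, 356, 200, 516, 848, 1381, 348, 51, -206, -85, -971, -928, -414, -313,
    -277, -489, 580, 125, 433, 74, 778, 239, 235, -266, 34, -36, -149, -70, 163, 192, 255, -314,
    70, -458, -309, -783, -47, -41, 193, 189, 475, 481, 111, 101, 35, -13, -219, -210, -13, -137,
    -80, -81, 17, 13, -49, 52, 12, 57, 3, 47, -14, 7]

def adet_N (l : List ℤ) : List ℤ := adet_smul (-1) (adet_P l 30)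

theorem adet_check : ((adet_sub (adet_D
    (adet_P adet_A00 0) (adet_R adet_A00 30) (adet_P adet_A01 0) (adet_R adet_A01 30)
    (adet_N adet_A00) (adet_R adet_A00 0) (adet_N adet_A01) (adet_R adet_A01 0)
    (adet_P adet_A10 0) (adet_R adet_A10 30) (adet_P adet_A11 0) (adet_R adet_A11 30)
    (adet_N adet_A10) (adet_R adet_A10 0) (adet_N adet_A11) (adet_R adet_A11 0))
    (adet_add [3, -1, -1, 0, 1, 0, -1, 1, -1, 1, 0, -1, 0, 1, 1]
      (adet_mul adet_q [1, 0, 0, 0, 0, 0, 0, 0, 0, 0, 0, 0, 0, 0, 0, 1]))).all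
      fun a => a == 0) = true := by decide +kernel

theorem Amat_det {T : Type} [CommRing T] (ξ : Tˣ) (h : (ξ : T) ^ 15 = -1) :
    (flat (lin (rho ξ h)) Amat).det = delta (ξ : T) := by
  have hN : ∀ l, -adet_ev (ξ : T) (adet_P l 30) = adet_ev (ξ : T) (adet_N l) := fun l => by
    rw [adet_N, adet_ev_smul]; simp
  have hM : (flat (lin (rho ξ h)) Amat).submatrix adet_e adet_e =
      !![adet_ev (ξ : T) (adet_P adet_A00 0), adet_ev (ξ : T) (adet_R adet_A00 30),
          adet_ev (ξ : T) (adet_P adet_A01 0), adet_ev (ξ : T) (adet_R adet_A01 30);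
        adet_ev (ξ : T) (adet_N adet_A00), adet_ev (ξ : T) (adet_R adet_A00 0),
          adet_ev (ξ : T) (adet_N adet_A01), adet_ev (ξ : T) (adet_R adet_A01 0);
        adet_ev (ξ : T) (adet_P adet_A10 0), adet_ev (ξ : T) (adet_R adet_A10 30),
          adet_ev (ξ : T) (adet_P adet_A11 0), adet_ev (ξ : T) (adet_R adet_A11 30);
        adet_ev (ξ : T) (adet_N adet_A10), adet_ev (ξ : T) (adet_R adet_A10 0),
          adet_ev (ξ : T) (adet_N adet_A11), adet_ev (ξ : T) (adet_R adet_A11 0)] := by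
    have h00 := adet_lin_ofL ξ h adet_A00
    have h01 := adet_lin_ofL ξ h adet_A01
    have h10 := adet_lin_ofL ξ h adet_A10
    have h11 := adet_lin_ofL ξ h adet_A11
    rw [hN] at h00 h01 h10 h11
    rw [adet_Amat]
    ext i j
    fin_cases i <;> fin_cases j <;>
      first
        | exact congrFun (congrFun h00 _) _
        | exact congrFun (congrFun h01 _) _
        | exact congrFun (congrFun h10 _) _
        | exact congrFun (congrFun h11 _) _
  rw [← Matrix.det_submatrix_equiv_self adet_e, hM, adet_det4]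
  have hc := adet_ev_zero (ξ : T) _ adet_check
  simp only [adet_D, adet_m, adet_ev_sub, adet_ev_add, adet_ev_mul] at hc
  have h1 : adet_ev (ξ : T) [1, 0, 0, 0, 0, 0, 0, 0, 0, 0, 0, 0, 0, 0, 0, 1] = 0 := by
    simp only [adet_ev, Int.cast_zero, Int.cast_one]
    linear_combination h
  have h2 : adet_ev (ξ : T) [3, -1, -1, 0, 1, 0, -1, 1, -1, 1, 0, -1, 0, 1, 1] = delta (ξ : T) := by
    simp only [adet_ev, Int.cast_zero, Int.cast_one, Int.cast_neg, Int.cast_ofNat, delta]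
    ring
  rw [h1, h2, mul_zero, add_zero] at hc
  exact sub_eq_zero.1 hc

end MP35
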