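import Pool.Agent.Lib.MP_35c604_gt.Defs

/-! Auxiliary combinatorial definitions (no statements to prove here). -/

namespace MP35
namespace SC

variable {V W : Type} [DecidableEq V] [DecidableEq W]

omit [DecidableEq V] in
theorem ext' {K K' : SC V} (h : K.faces = K'.faces) : K = K' := by
  cases K; cases K'; cases h; rfl

theorem mem_link {K : SC V} {v : V} {s : Finset V} :
    s ∈ (K.link v).faces ↔ s ∈ K.faces ∧ v ∉ s ∧ insert v s ∈ K.faces := Finset.mem_filter

theorem mem_bdry {K : SC V} {n : ℕ} {s : Finset V} :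
    s ∈ (K.bdry n).faces ↔ s ∈ K.faces ∧ ∃ f ∈ K.faces, f.card = n ∧ K.deg f = 1 ∧ s ⊆ f :=
  Finset.mem_filter

omit [DecidableEq V] in
theorem mem_map {f : V → W} {K : SC V} {s : Finset W} :
    s ∈ (K.map f).faces ↔ ∃ t ∈ K.faces, t.image f = s := Finset.mem_image

omit [DecidableEq V] in
theorem mem_verts {K : SC V} {v : V} : v ∈ K.verts ↔ {v} ∈ K.faces := Iff.rfl

omit [DecidableEq V] in
theorem mem_verts_of_mem {K : SC V} {s : Finset V} {v : V} (hs : s ∈ K.faces) (hv : v ∈ s) :
    v ∈ K.verts :=
  K.down s hs _ (Finset.singleton_subset_iff.2 hv) (Finset.singleton_nonempty v)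

/-- Remove all faces containing `t` (for a vertex: the antistar; for a top face: that face). -/
def del (K : SC V) (t : Finset V) : SC V where
  faces := K.faces.filter fun s => ¬ t ⊆ s
  ne := fun s hs => K.ne s (Finset.mem_filter.1 hs).1
  down := fun s hs u hus hu => by
    obtain ⟨h1, h2⟩ := Finset.mem_filter.1 hs
    exact Finset.mem_filter.2 ⟨K.down s h1 u hus hu, fun h => h2 (h.trans hus)⟩

theorem mem_del {K : SC V} {t s : Finset V} : s ∈ (K.del t).faces ↔ s ∈ K.faces ∧ ¬ t ⊆ s :=
  Finset.mem_filter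

/-- `K'` collapses to `K` by elementary collapses. -/
def Collapse (K' K : SC V) : Prop := Relation.ReflTransGen (fun A B => Expand B A) K' K

/-- An acyclic perfect matching `m` on a family `S` of faces, with a rank function `r`. -/
def Matching (S : Finset (Finset V)) (m : Finset V → Finset V) (r : Finset V → ℕ) : Prop :=
  (∀ s ∈ S, m s ∈ S ∧ m (m s) = s ∧ r (m s) = r s ∧
    ((m s ⊆ s ∧ s.card = (m s).card + 1) ∨ (s ⊆ m s ∧ (m s).card = s.card + 1))) ∧
  ∀ s ∈ S, ∀ t ∈ S, t ⊆ s → s.card = t.card + 1 → t ≠ m s → r t < r s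

/-- Dimension at most three, and every face lies in a tetrahedron. -/
def Pure3 (X : SC V) : Prop :=
  X.DimLE 3 ∧ ∀ s ∈ X.faces, ∃ t ∈ X.faces, s ⊆ t ∧ t.card = 4

/-- One step between tetrahedra through a triangle containing `s`. -/
def Adj (X : SC V) (s t t' : Finset V) : Prop :=
  t' ∈ X.faces ∧ t'.card = 4 ∧ s ⊆ t ∩ t' ∧ 3 ≤ (t ∩ t').card

/-- The star of `s` is strongly connected. -/
def SCat (X : SC V) (s : Finset V) : Prop :=
  ∀ t ∈ X.faces, ∀ t' ∈ X.faces, t.card = 4 → t'.card = 4 → s ⊆ t → s ⊆ t' →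
    Relation.ReflTransGen (X.Adj s) t t'

/-- Every triangle lies in exactly two tetrahedra. -/
def Thin (X : SC V) : Prop := ∀ f ∈ X.faces, f.card = 3 → X.deg f = 2

/-- Local manifold hypotheses near the vertex set `U`. -/
structure Loc (M : SC V) (U : V → Prop) : Prop where
  pure : M.Pure3
  thin : ∀ f ∈ M.faces, f.card = 3 → (∃ v ∈ f, U v) → M.deg f = 2
  scE : ∀ e ∈ M.faces, e.card = 2 → (∃ v ∈ e, U v) → M.SCat e
  scV : ∀ v, U v → M.SCat {v}

/-- Closed 3-dimensional pseudomanifold with strongly connected vertex stars. -/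
structure Closed (X : SC V) : Prop where
  pure : X.Pure3
  thin : X.Thin
  sc : ∀ v, X.SCat {v}

/-- Tetrahedra around any vertex are linked through vertices of the set `I`. -/
def HS (Y : SC V) (I : V → Prop) : Prop :=
  ∀ v, ∀ t ∈ Y.faces, ∀ t' ∈ Y.faces, t.card = 4 → t'.card = 4 → v ∈ t → v ∈ t' →
    Relation.ReflTransGen
      (fun a b => b ∈ Y.faces ∧ b.card = 4 ∧ v ∈ b ∧ ∃ w ∈ a ∩ b, I w) t t'

/-- The local Euler count of the open star of `s`. -/
def ec (M : SC V) (s : Finset V) : ℤ := ∑ t ∈ M.faces.filter (s ⊆ ·), (-1) ^ t.card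

/-- `K` is the full subcomplex of `M` on the vertex set `U`. -/
def Full (M : SC V) (U : V → Prop) (K : SC V) : Prop :=
  ∀ s, s ∈ K.faces ↔ s ∈ M.faces ∧ ∀ v ∈ s, U v

open Classical in
/-- The alternating count of the faces of `M` meeting `U`. -/
noncomputable def meetSum (M : SC V) (U : V → Prop) : ℤ :=
  ∑ t ∈ M.faces.filter (fun t => ∃ v ∈ t, U v), (-1) ^ t.card

/-- The defining condition of the faces of `XC M U`: chains of faces of `M` meeting `U`, possibly
together with the cone point `none`, which lies below the faces that also meet the complement. -/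
def XP (M : SC V) (U : V → Prop) (s : Finset (Option (Finset V))) : Prop :=
  s.Nonempty ∧ (∀ τ, some τ ∈ s → τ ∈ M.faces ∧ ∃ v ∈ τ, U v) ∧
    (∀ τ τ', some τ ∈ s → some τ' ∈ s → τ ⊆ τ' ∨ τ' ⊆ τ) ∧
    (none ∈ s → (∃ τ ∈ M.faces, (∃ v ∈ τ, U v) ∧ ∃ v ∈ τ, ¬ U v) ∧
      ∀ τ, some τ ∈ s → ∃ v ∈ τ, ¬ U v)

open Classical in
/-- The derived neighbourhood of `U` in `M` with its frontier coned off. -/
noncomputable def XC (M : SC V) (U : V → Prop) : SC (Option (Finset V)) where
  faces := (insert none (M.faces.image some)).powerset.filter (XP M U)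
  ne := fun s hs => (Finset.mem_filter.1 hs).2.1
  down := fun s hs t hts ht => by
    obtain ⟨h0, -, h2, h3, h4⟩ := Finset.mem_filter.1 hs
    refine Finset.mem_filter.2 ⟨Finset.mem_powerset.2 (hts.trans (Finset.mem_powerset.1 h0)), ht,
      fun τ h => h2 τ (hts h), fun τ τ' h h' => h3 τ τ' (hts h) (hts h'),
      fun h => ⟨(h4 (hts h)).1, fun τ h' => (h4 (hts h)).2 τ (hts h')⟩⟩

theorem mem_XC {M : SC V} {U : V → Prop} {s : Finset (Option (Finset V))} :
    s ∈ (XC M U).faces ↔ XP M U s := by
  classical
  unfold XC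
  simp only [Finset.mem_filter, Finset.mem_powerset, and_iff_right_iff_imp]
  intro h a ha
  cases a with
  | none => exact Finset.mem_insert_self _ _
  | some τ => exact Finset.mem_insert_of_mem (Finset.mem_image_of_mem _ (h.2.1 τ ha).1)

/-- The derived neighbourhood of `U` in `M`. -/
noncomputable def NC (M : SC V) (U : V → Prop) : SC (Option (Finset V)) := (XC M U).del {none}

/-- `M` with its boundary coned off. -/
def hat (M : SC V) : SC (Option V) where
  faces := M.faces.image (Finset.image some) ∪
    ((M.bdry 3).faces.biUnion fun b => {insert none (b.image some), {none}})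
  ne := fun s hs => by
    rcases Finset.mem_union.1 hs with h | h
    · obtain ⟨t, ht, rfl⟩ := Finset.mem_image.1 h
      exact (M.ne t ht).image _
    · obtain ⟨b, -, hb⟩ := Finset.mem_biUnion.1 h
      rcases Finset.mem_insert.1 hb with rfl | hb
      · exact Finset.insert_nonempty _ _
      · rw [Finset.mem_singleton.1 hb]; exact Finset.singleton_nonempty _
  down := fun s hs t hts ht => by
    rcases Finset.mem_union.1 hs with h | h
    · exact Finset.mem_union_left _ ((M.map some).down s h t hts ht)
    · obtain ⟨b, hb, hs'⟩ := Finset.mem_biUnion.1 h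
      have hsub : t ⊆ insert none (b.image some) := by
        rcases Finset.mem_insert.1 hs' with rfl | hb'
        · exact hts
        · rw [Finset.mem_singleton.1 hb'] at hts
          exact hts.trans (Finset.singleton_subset_iff.2 (Finset.mem_insert_self _ _))
      obtain ⟨w, hw, hwt⟩ := Finset.subset_image_iff.1
        (Finset.subset_insert_iff.1 hsub)
      by_cases hn : none ∈ t
      · refine Finset.mem_union_right _ ?_
        rcases w.eq_empty_or_nonempty with rfl | hne
        · refine Finset.mem_biUnion.2 ⟨b, hb, Finset.mem_insert_of_mem (Finset.mem_singleton.2 ?_)⟩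
          rw [← Finset.insert_erase hn, ← hwt]; rfl
        · refine Finset.mem_biUnion.2 ⟨w, (M.bdry 3).down b hb w hw hne, ?_⟩
          rw [hwt, Finset.insert_erase hn]; exact Finset.mem_insert_self _ _
      · rw [Finset.erase_eq_of_notMem hn] at hwt
        subst hwt
        exact Finset.mem_union_left _ (Finset.mem_image_of_mem _
          (M.down b (mem_bdry.1 hb).1 w hw (Finset.image_nonempty.1 ht)))

theorem mem_hat {M : SC V} {s : Finset (Option V)} :
    s ∈ M.hat.faces ↔ (∃ t ∈ M.faces, t.image some = s) ∨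
      ∃ b ∈ (M.bdry 3).faces, s = insert none (b.image some) ∨ s = {none} := by
  unfold hat
  simp only [Finset.mem_union, Finset.mem_image, Finset.mem_biUnion, Finset.mem_insert,
    Finset.mem_singleton]

/-- `K` together with some more faces of the form needed for attaching triangles whose edges are
already present. -/
def addTop (K : SC V) (T : Finset (Finset V))
    (h : ∀ t ∈ T, t.Nonempty ∧ ∀ s ⊆ t, s.Nonempty → s ≠ t → s ∈ K.faces) : SC V where
  faces := K.faces ∪ T
  ne := fun s hs => by
    rcases Finset.mem_union.1 hs with h' | h'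
    · exact K.ne s h'
    · exact (h s h').1
  down := fun s hs t hts ht => by
    rcases Finset.mem_union.1 hs with h' | h'
    · exact Finset.mem_union_left _ (K.down s h' t hts ht)
    · by_cases e : t = s
      · exact e ▸ hs
      · exact Finset.mem_union_left _ ((h s h').2 t hts ht e)

/-- A cocycle on the edges of `K` with values in a group. -/
def IsCoc {G : Type} [Group G] (K : SC V) (e : V → V → G) : Prop :=
  ∀ u v w, ({u, v, w} : Finset V) ∈ K.faces → e u v * e v w = e u w

/-- A local system on the face poset of `K`. -/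
def IsLoc {G : Type} [Group G] (K : SC V) (h : Finset V → Finset V → G) : Prop :=
  ∀ s ∈ K.faces, ∀ t ∈ K.faces, ∀ u ∈ K.faces, t ⊆ s → u ⊆ t → h s t * h t u = h s u

/-- The covering of `K` defined by the local system `h` is connected. -/
def Conn {G : Type} [Group G] (K : SC V) (h : Finset V → Finset V → G) : Prop :=
  ∀ U : V → G → Prop,
    (∀ e ∈ K.faces, ∀ u ∈ e, ∀ v ∈ e, ∀ g, U u (g * h e {u}) → U v (g * h e {v})) →
    ∀ u ∈ K.verts, ∀ v ∈ K.verts, ∀ g g', U u g → U v g'

end SC
end MP35
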