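import Pool.Agent.Lib.MP_35c604_gt.Cov

/-! TASK BDY: the frontier of the neighbourhood is strongly connected. -/

namespace MP35

open Matrix SC

variable {V : Type} [DecidableEq V]

/-- The faces with `n` vertices. -/
abbrev bdyC (S : SC V) (n : ℕ) := {s : Finset V // s ∈ S.faces.filter fun s => s.card = n}

omit [DecidableEq V] in
theorem bdy_mem {S : SC V} {n : ℕ} (s : bdyC S n) : s.1 ∈ S.faces := (Finset.mem_filter.1 s.2).1

omit [DecidableEq V] in
theorem bdy_card {S : SC V} {n : ℕ} (s : bdyC S n) : s.1.card = n := (Finset.mem_filter.1 s.2).2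

theorem bdy_link_deg (X : SC V) (c : V) {e : Finset V} (hc : c ∉ e) (hne : e.Nonempty) :
    (X.link c).deg e = X.deg (insert c e) := by
  unfold deg
  refine Finset.card_bij (fun f _ => insert c f) ?_ ?_ ?_
  · intro f hf
    obtain ⟨h1, h2, h3⟩ := Finset.mem_filter.1 hf
    obtain ⟨-, h4, h5⟩ := mem_link.1 h1
    refine Finset.mem_filter.2 ⟨h5, Finset.insert_subset_insert _ h2, ?_⟩
    rw [Finset.card_insert_of_notMem h4, Finset.card_insert_of_notMem hc, h3]
  · intro f hf f' hf' e'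
    have h4 := (mem_link.1 (Finset.mem_filter.1 hf).1).2.1
    have h5 := (mem_link.1 (Finset.mem_filter.1 hf').1).2.1
    rw [← Finset.erase_insert h4, ← Finset.erase_insert h5, e']
  · intro t ht
    obtain ⟨h1, h2, h3⟩ := Finset.mem_filter.1 ht
    have hct : c ∈ t := h2 (Finset.mem_insert_self _ _)
    have hs : e ⊆ t.erase c := fun v hv =>
      Finset.mem_erase.2 ⟨fun h => hc (h ▸ hv), h2 (Finset.mem_insert_of_mem hv)⟩
    refine ⟨t.erase c, Finset.mem_filter.2 ⟨mem_link.2 ⟨X.down t h1 _ (Finset.erase_subset _ _)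
      (hne.mono hs), Finset.notMem_erase _ _, by rwa [Finset.insert_erase hct]⟩, hs, ?_⟩,
      Finset.insert_erase hct⟩
    rw [Finset.card_erase_of_mem hct, h3, Finset.card_insert_of_notMem hc]
    rfl

theorem bdy_del_deg (X : SC V) (c : V) {f : Finset V} (hc : c ∉ f) :
    (X.del {c}).deg f + (if insert c f ∈ X.faces then 1 else 0) = X.deg f := by
  unfold deg
  rw [← Finset.card_filter_add_card_filter_not
    (s := X.faces.filter fun t => f ⊆ t ∧ t.card = f.card + 1) (fun t => c ∉ t)]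
  congr 1
  · congr 1
    ext t
    simp only [Finset.mem_filter, mem_del, Finset.singleton_subset_iff]
    tauto
  · have key : ∀ t : Finset V, f ⊆ t → t.card = f.card + 1 → c ∈ t → t = insert c f :=
      fun t h1 h2 h3 => (Finset.eq_of_subset_of_card_le (Finset.insert_subset h3 h1)
        (by rw [Finset.card_insert_of_notMem hc, h2])).symm
    split_ifs with h
    · symm
      rw [Finset.card_eq_one]
      refine ⟨insert c f, Finset.eq_singleton_iff_unique_mem.2 ⟨?_, fun t ht => ?_⟩⟩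
      · simp [h, Finset.card_insert_of_notMem hc]
      · simp only [Finset.mem_filter, not_not] at ht
        exact key t ht.1.2.1 ht.1.2.2 ht.2
    · symm
      rw [Finset.card_eq_zero, Finset.eq_empty_iff_forall_notMem]
      intro t ht
      simp only [Finset.mem_filter, not_not] at ht
      exact h (key t ht.1.2.1 ht.1.2.2 ht.2 ▸ ht.1.1)

theorem bdy_pure {X : SC V} (c : V) (hp : X.Pure3) (ht : X.Thin) : (X.del {c}).Pure3 := by
  refine ⟨fun s hs => hp.1 s (mem_del.1 hs).1, fun s hs => ?_⟩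
  obtain ⟨h1, h2⟩ := mem_del.1 hs
  rw [Finset.singleton_subset_iff] at h2
  obtain ⟨t, t1, t2, t3⟩ := hp.2 s h1
  by_cases hc : c ∈ t
  · have hs' : s ⊆ t.erase c := fun v hv => Finset.mem_erase.2 ⟨fun h => h2 (h ▸ hv), t2 hv⟩
    have c3 : (t.erase c).card = 3 := by rw [Finset.card_erase_of_mem hc, t3]
    have e1 := bdy_del_deg X c (Finset.notMem_erase c t)
    rw [ht _ (X.down t t1 _ (Finset.erase_subset _ _) ((X.ne s h1).mono hs')) c3,
      Finset.insert_erase hc, if_pos t1] at e1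
    obtain ⟨u, hu⟩ := Finset.card_pos.1 (show 0 < (X.del {c}).deg (t.erase c) by omega)
    obtain ⟨u1, u2, u3⟩ := Finset.mem_filter.1 hu
    exact ⟨u, u1, hs'.trans u2, by rw [u3, c3]⟩
  · exact ⟨t, mem_del.2 ⟨t1, fun h => hc (Finset.singleton_subset_iff.1 h)⟩, t2, t3⟩

theorem bdy_inc2 (o : V → ℕ) (s t : Finset V) :
    (inc o s t : ZMod 2) = if t ⊆ s ∧ s.card = t.card + 1 then 1 else 0 := by
  split_ifs with h
  · rcases inc_eq_or (o := o) h.1 h.2 with e | e <;> rw [e] <;> rfl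
  · rw [not_not.1 fun h' => h (inc_ne_zero_iff.1 h')]
    rfl

theorem bdy_two (o : V → ℕ) {S : SC V} {e : Finset V} {n : ℕ} (hn : e.card + 1 = n)
    (hd : S.deg e = 2) : ∃ f₁ f₂ : bdyC S n, e ⊆ f₁.1 ∧ e ⊆ f₂.1 ∧
      (∀ f : bdyC S n, e ⊆ f.1 → f = f₁ ∨ f = f₂) ∧
      ∀ φ : bdyC S n → ZMod 2, ∑ f, φ f * (inc o f.1 e : ZMod 2) = φ f₁ + φ f₂ := by
  obtain ⟨a, b, hab, h⟩ := Finset.card_eq_two.1 hd
  have ha : a ∈ S.faces.filter fun t => e ⊆ t ∧ t.card = e.card + 1 := by rw [h]; simp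
  have hb : b ∈ S.faces.filter fun t => e ⊆ t ∧ t.card = e.card + 1 := by rw [h]; simp
  obtain ⟨a1, a2, a3⟩ := Finset.mem_filter.1 ha
  obtain ⟨b1, b2, b3⟩ := Finset.mem_filter.1 hb
  have key : ∀ f : bdyC S n, e ⊆ f.1 → f.1 = a ∨ f.1 = b := fun f hf => by
    have : f.1 ∈ S.faces.filter fun t => e ⊆ t ∧ t.card = e.card + 1 :=
      Finset.mem_filter.2 ⟨bdy_mem f, hf, by rw [bdy_card f, hn]⟩
    rw [h] at this
    simpa using this
  refine ⟨⟨a, Finset.mem_filter.2 ⟨a1, a3.trans hn⟩⟩, ⟨b, Finset.mem_filter.2 ⟨b1, b3.trans hn⟩⟩,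
    a2, b2, fun f hf => (key f hf).imp Subtype.ext Subtype.ext, fun φ => ?_⟩
  rw [Fintype.sum_eq_add ⟨a, Finset.mem_filter.2 ⟨a1, a3.trans hn⟩⟩
    ⟨b, Finset.mem_filter.2 ⟨b1, b3.trans hn⟩⟩ (fun h => hab (congrArg Subtype.val h))]
  · rw [bdy_inc2, bdy_inc2, if_pos ⟨a2, a3⟩, if_pos ⟨b2, b3⟩, mul_one, mul_one]
  · intro f hf
    rw [bdy_inc2, if_neg, mul_zero]
    intro h'
    rcases key f h'.1 with e' | e'
    · exact hf.1 (Subtype.ext e')
    · exact hf.2 (Subtype.ext e')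

theorem bdy_ker_le {ι P : Type} [Fintype ι] (R : P → P → Prop) [Fintype (Quot R)]
    (K : Submodule (ZMod 2) (ι → ZMod 2)) (Φ : (ι → ZMod 2) →ₗ[ZMod 2] (P → ZMod 2))
    (h1 : ∀ y ∈ K, ∀ a b, R a b → Φ y a = Φ y b) (h2 : ∀ y ∈ K, Φ y = 0 → y = 0) :
    Module.finrank (ZMod 2) K ≤ Fintype.card (Quot R) := by
  let L : K →ₗ[ZMod 2] (Quot R → ZMod 2) :=
    { toFun := fun y => Quot.lift (Φ y.1) (h1 y.1 y.2)
      map_add' := fun y z => by
        funext q
        induction q using Quot.ind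
        simp
      map_smul' := fun a y => by
        funext q
        induction q using Quot.ind
        simp }
  rw [← Module.finrank_fintype_fun_eq_card (ZMod 2)]
  refine LinearMap.finrank_le_finrank_of_injective (f := L) ?_
  rw [injective_iff_map_eq_zero]
  intro y hy
  exact Subtype.ext (h2 y.1 y.2 (funext fun a => congrFun hy (Quot.mk R a)))

/-- The boundary matrix of the covering, modulo two. -/
def bdyM (S : SC V) (o : V → ℕ) (h : Finset V → Finset V → Q) (n m : ℕ) :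
    Matrix (bdyC S n × Q) (bdyC S m × Q) (ZMod 2) :=
  fun x y => if x.2 * h x.1.1 y.1.1 = y.2 then (inc o x.1.1 y.1.1 : ZMod 2) else 0

theorem bdyM_mulVec (S : SC V) (o : V → ℕ) (h : Finset V → Finset V → Q) (n m : ℕ)
    (y : bdyC S m × Q → ZMod 2) (s : bdyC S n) (g : Q) :
    (bdyM S o h n m *ᵥ y) (s, g) = ∑ t, (inc o s.1 t.1 : ZMod 2) * y (t, g * h s.1 t.1) := by
  simp only [mulVec, dotProduct, Fintype.sum_prod_type, bdyM, ite_mul, zero_mul,
    Finset.sum_ite_eq, Finset.mem_univ, if_true]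

theorem bdyM_vecMul (S : SC V) (o : V → ℕ) (h : Finset V → Finset V → Q) (n m : ℕ)
    (y : bdyC S n × Q → ZMod 2) (t : bdyC S m) (g : Q) :
    ((bdyM S o h n m)ᵀ *ᵥ y) (t, g) =
      ∑ s, y (s, g * (h s.1 t.1)⁻¹) * (inc o s.1 t.1 : ZMod 2) := by
  simp only [mulVec, dotProduct, Fintype.sum_prod_type, bdyM, transpose_apply,
    ← eq_mul_inv_iff_mul_eq, ite_mul, zero_mul, Finset.sum_ite_eq', Finset.mem_univ, if_true,
    mul_comm]

theorem bdyM_sq {S : SC V} {o : V → ℕ} {h : Finset V → Finset V → Q} (ho : Set.InjOn o S.verts)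
    (hh : S.IsLoc h) : bdyM S o h 3 2 * bdyM S o h 2 1 = 0 := by
  ext ⟨f, g⟩ ⟨v, g'⟩
  have e0 : (bdyM S o h 3 2 * bdyM S o h 2 1) (f, g) (v, g') =
      (bdyM S o h 3 2 *ᵥ fun y => bdyM S o h 2 1 y (v, g')) (f, g) := rfl
  have e1 : ∑ e : bdyC S 2, (inc o f.1 e.1 : ZMod 2) * (inc o e.1 v.1 : ZMod 2) = 0 := by
    have := congrArg (Int.cast : ℤ → ZMod 2) (inc_sq S ho (bdy_mem f) (S.ne _ (bdy_mem v)))
    rw [Int.cast_sum, Int.cast_zero] at this
    rw [← this, Finset.sum_coe_sort (S.faces.filter fun s => s.card = 2)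
      fun e => (inc o f.1 e : ZMod 2) * (inc o e v.1 : ZMod 2)]
    simp only [Int.cast_mul]
    refine Finset.sum_filter_of_ne fun e _ he => ?_
    rw [bdy_inc2 o f.1 e] at he
    by_contra h2
    rw [if_neg, zero_mul] at he
    · exact he rfl
    · intro h3
      have := bdy_card f
      omega
  rw [e0, bdyM_mulVec, Matrix.zero_apply]
  by_cases hg : g * h f.1 v.1 = g'
  · rw [← e1]
    refine Finset.sum_congr rfl fun e _ => ?_
    unfold bdyM
    rw [bdy_inc2 o f.1, bdy_inc2 o e.1]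
    by_cases h1 : e.1 ⊆ f.1 ∧ f.1.card = e.1.card + 1
    · by_cases h2 : v.1 ⊆ e.1 ∧ e.1.card = v.1.card + 1
      · rw [if_pos (c := _ = _)]
        rw [mul_assoc, hh _ (bdy_mem f) _ (bdy_mem e) _ (bdy_mem v) h1.1 h2.1, hg]
      · simp [h2]
    · simp [h1]
  · refine Finset.sum_eq_zero fun e _ => ?_
    unfold bdyM
    rw [bdy_inc2 o f.1, bdy_inc2 o e.1]
    by_cases h1 : e.1 ⊆ f.1 ∧ f.1.card = e.1.card + 1
    · by_cases h2 : v.1 ⊆ e.1 ∧ e.1.card = v.1.card + 1
      · rw [if_neg (c := _ = _), mul_zero]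
        rwa [mul_assoc, hh _ (bdy_mem f) _ (bdy_mem e) _ (bdy_mem v) h1.1 h2.1]
      · simp [h2]
    · simp [h1]

/-- Two triangles of the covering share an edge. -/
def bdyR (S : SC V) (h : Finset V → Finset V → Q) (x y : bdyC S 3 × Q) : Prop :=
  ∃ e ∈ S.faces, e.card = 2 ∧ e ⊆ x.1.1 ∧ e ⊆ y.1.1 ∧ x.2 * h x.1.1 e = y.2 * h y.1.1 e

omit [DecidableEq V] in
theorem bdy_chi {S : SC V} (hd : ∀ s ∈ S.faces, s.card ≤ 3) :
    S.chi = (Fintype.card (bdyC S 1) : ℤ) - Fintype.card (bdyC S 2) + Fintype.card (bdyC S 3) := by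
  simp only [Fintype.card_coe, Finset.card_filter, Nat.cast_sum, ← Finset.sum_sub_distrib,
    ← Finset.sum_add_distrib]
  refine Finset.sum_congr rfl fun s hs => ?_
  have h1 := hd s hs
  have h2 := Finset.card_pos.2 (S.ne s hs)
  generalize s.card = n at h1 h2
  interval_cases n <;> simp

theorem bdy_z2 (a b : ZMod 2) (h : a + b = 0) : a = b := by
  revert a b
  decide

theorem bdy_count {S : SC V} {o : V → ℕ} {h : Finset V → Finset V → Q} (ho : Set.InjOn o S.verts)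
    (hh : S.IsLoc h) (hd : ∀ s ∈ S.faces, s.card ≤ 3)
    (hdeg : ∀ e ∈ S.faces, e.card = 2 → S.deg e = 2)
    (hp : ∀ s ∈ S.faces, ∃ f ∈ S.faces, s ⊆ f ∧ f.card = 3) (hchi : S.chi = 2)
    [Fintype (Quot (bdyR S h))] : 60 ≤ Fintype.card (Quot (bdyR S h)) := by
  have r0 := rank_add_rank_le_card_of_mul_eq_zero (bdyM_sq ho hh)
  have r1 := LinearMap.finrank_range_add_finrank_ker (bdyM S o h 3 2)ᵀ.mulVecLin
  have r2 := LinearMap.finrank_range_add_finrank_ker (bdyM S o h 2 1).mulVecLin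
  rw [← rank_transpose (bdyM S o h 3 2)] at r0
  have k1 := bdy_ker_le (bdyR S h) (LinearMap.ker (bdyM S o h 3 2)ᵀ.mulVecLin) LinearMap.id
    (fun y hy => by
      rintro ⟨f, g⟩ ⟨f', g'⟩ ⟨e, e1, e2, e3, e4, e5⟩
      obtain ⟨f₁, f₂, -, -, a3, a4⟩ := bdy_two o (n := 3) (by rw [e2]) (hdeg e e1 e2)
      have b := congrFun (LinearMap.mem_ker.1 hy) (⟨e, Finset.mem_filter.2 ⟨e1, e2⟩⟩, g * h f.1 e)
      rw [mulVecLin_apply, bdyM_vecMul, a4] at b
      have b' := bdy_z2 _ _ b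
      have c1 : y (f, g) = y (f, g * h f.1 e * (h f.1 e)⁻¹) := by simp
      have c2 : y (f', g') = y (f', g * h f.1 e * (h f'.1 e)⁻¹) := by
        rw [show g * h f.1 e = g' * h f'.1 e from e5]; simp
      change y (f, g) = y (f', g')
      rw [c1, c2]
      generalize g * h f.1 e = k at b'
      rcases a3 f e3 with rfl | rfl <;> rcases a3 f' e4 with rfl | rfl
      · rfl
      · exact b'
      · exact b'.symm
      · rfl) (fun y _ hy => hy)
  have hv : ∀ f : bdyC S 3, ∃ v : bdyC S 1, v.1 ⊆ f.1 := fun f => by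
    obtain ⟨v, hv⟩ := S.ne _ (bdy_mem f)
    exact ⟨⟨{v}, Finset.mem_filter.2 ⟨mem_verts_of_mem (bdy_mem f) hv, Finset.card_singleton v⟩⟩,
      Finset.singleton_subset_iff.2 hv⟩
  choose vf hvf using hv
  have key : ∀ y ∈ LinearMap.ker (bdyM S o h 2 1).mulVecLin, ∀ (f : bdyC S 3) (g : Q)
      (v : bdyC S 1), v.1 ⊆ f.1 → y (vf f, g * h f.1 (vf f).1) = y (v, g * h f.1 v.1) := by
    intro y hy f g v hv
    by_cases e0 : vf f = v
    · rw [e0]
    obtain ⟨a, ha⟩ := Finset.card_eq_one.1 (bdy_card (vf f))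
    obtain ⟨b, hb⟩ := Finset.card_eq_one.1 (bdy_card v)
    have hab : a ≠ b := fun e => e0 (Subtype.ext (by rw [ha, hb, e]))
    have s1 : ({a, b} : Finset V) ⊆ f.1 := Finset.insert_subset
      (Finset.singleton_subset_iff.1 (ha ▸ hvf f)) (hb ▸ hv)
    have s2 := S.down _ (bdy_mem f) _ s1 (Finset.insert_nonempty _ _)
    have s3 : (vf f).1 ⊆ {a, b} := by rw [ha]; simp
    have s4 : v.1 ⊆ {a, b} := by rw [hb]; simp
    have b := congrFun (LinearMap.mem_ker.1 hy)
      (⟨{a, b}, Finset.mem_filter.2 ⟨s2, Finset.card_pair hab⟩⟩, g * h f.1 {a, b})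
    rw [mulVecLin_apply, bdyM_mulVec, Fintype.sum_eq_add (vf f) v e0] at b
    · rw [bdy_inc2, bdy_inc2, if_pos ⟨s3, by rw [Finset.card_pair hab, bdy_card]⟩,
        if_pos ⟨s4, by rw [Finset.card_pair hab, bdy_card]⟩, one_mul, one_mul, mul_assoc, mul_assoc,
        hh _ (bdy_mem f) _ s2 _ (bdy_mem _) s1 s3, hh _ (bdy_mem f) _ s2 _ (bdy_mem _) s1 s4] at b
      exact bdy_z2 _ _ b
    · intro w hw
      rw [bdy_inc2, if_neg, zero_mul]
      intro h'
      obtain ⟨u, hu⟩ := Finset.card_eq_one.1 (bdy_card w)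
      have := h'.1
      rw [hu, Finset.singleton_subset_iff, Finset.mem_insert, Finset.mem_singleton] at this
      rcases this with rfl | rfl
      · exact hw.1 (Subtype.ext (hu.trans ha.symm))
      · exact hw.2 (Subtype.ext (hu.trans hb.symm))
  have k2 := bdy_ker_le (bdyR S h) (LinearMap.ker (bdyM S o h 2 1).mulVecLin)
    (LinearMap.funLeft (ZMod 2) (ZMod 2) fun x : bdyC S 3 × Q => (vf x.1, x.2 * h x.1.1 (vf x.1).1))
    (fun y hy => by
      rintro ⟨f, g⟩ ⟨f', g'⟩ ⟨e, e1, e2, e3, e4, e5⟩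
      obtain ⟨v, hv⟩ := S.ne _ e1
      have v1 : {v} ∈ S.faces := mem_verts_of_mem e1 hv
      have v2 := Finset.singleton_subset_iff.2 hv
      simp only [LinearMap.funLeft_apply]
      rw [key y hy f g ⟨{v}, Finset.mem_filter.2 ⟨v1, Finset.card_singleton v⟩⟩ (v2.trans e3),
        key y hy f' g' ⟨{v}, Finset.mem_filter.2 ⟨v1, Finset.card_singleton v⟩⟩ (v2.trans e4),
        ← hh _ (bdy_mem f) _ e1 _ v1 e3 v2, ← hh _ (bdy_mem f') _ e1 _ v1 e4 v2, ← mul_assoc,
        ← mul_assoc, show g * h f.1 e = g' * h f'.1 e from e5])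
    (fun y hy h0 => by
      funext ⟨v, g⟩
      obtain ⟨f, f1, f2, f3⟩ := hp _ (bdy_mem v)
      have b := congrFun h0 (⟨f, Finset.mem_filter.2 ⟨f1, f3⟩⟩, g * (h f v.1)⁻¹)
      simp only [LinearMap.funLeft_apply] at b
      rw [key y hy _ _ v f2] at b
      simpa using b)
  rw [Module.finrank_fintype_fun_eq_card, Fintype.card_prod, card_Q] at r1 r2
  rw [Fintype.card_prod, card_Q] at r0
  rw [bdy_chi hd] at hchi
  unfold Matrix.rank at r0
  omega

instance bdyAct (S : SC V) (h : Finset V → Finset V → Q) : MulAction Q (Quot (bdyR S h)) where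
  smul g := Quot.map (fun x => (x.1, g * x.2)) fun _ _ ⟨e, e1, e2, e3, e4, e5⟩ =>
    ⟨e, e1, e2, e3, e4, by rw [mul_assoc, mul_assoc, e5]⟩
  one_smul q := by
    induction q using Quot.ind with
    | mk x => exact congrArg (Quot.mk _) (Prod.ext rfl (one_mul x.2))
  mul_smul g g' q := by
    induction q using Quot.ind with
    | mk x => exact congrArg (Quot.mk _) (Prod.ext rfl (mul_assoc g g' x.2))

omit [DecidableEq V] in
theorem bdy_smul (S : SC V) (h : Finset V → Finset V → Q) (g g' : Q) (f : bdyC S 3) :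
    g • Quot.mk (bdyR S h) (f, g') = Quot.mk (bdyR S h) (f, g * g') := rfl

/-- The 2-chain on the triangles of `S` given by a function on the components. -/
noncomputable def bdyCh (S Y : SC V) (h : Finset V → Finset V → Q) :
    (Quot (bdyR S h) → ZMod 2) →ₗ[ZMod 2] (Y.faces → KQ (ZMod 2)) where
  toFun x s := if hs : s.1 ∈ S.faces.filter fun s => s.card = 3 then
    .ofCoeff (Finsupp.equivFunOnFinite.symm fun g => x (Quot.mk _ (⟨s.1, hs⟩, g))) else 0
  map_add' x y := by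
    funext s
    ext g
    by_cases hs : s.1 ∈ S.faces.filter fun s => s.card = 3
    · simp only [Pi.add_apply, dif_pos hs]; rfl
    · simp only [Pi.add_apply, dif_neg hs, add_zero]
  map_smul' a x := by
    funext s
    ext g
    by_cases hs : s.1 ∈ S.faces.filter fun s => s.card = 3
    · simp only [Pi.smul_apply, dif_pos hs]; rfl
    · simp only [Pi.smul_apply, dif_neg hs, smul_zero]

theorem bdyCh_pos (S Y : SC V) (h : Finset V → Finset V → Q) (x : Quot (bdyR S h) → ZMod 2)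
    (s : Y.faces) (hs : s.1 ∈ S.faces.filter fun s => s.card = 3) (g : Q) :
    (bdyCh S Y h x s).coeff g = x (Quot.mk _ (⟨s.1, hs⟩, g)) := by
  simp only [bdyCh, LinearMap.coe_mk, AddHom.coe_mk, dif_pos hs]; rfl

theorem bdyCh_neg (S Y : SC V) (h : Finset V → Finset V → Q) (x : Quot (bdyR S h) → ZMod 2)
    (s : Y.faces) (hs : s.1 ∉ S.faces.filter fun s => s.card = 3) : bdyCh S Y h x s = 0 := by
  simp only [bdyCh, LinearMap.coe_mk, AddHom.coe_mk, dif_neg hs]

theorem bdy_coeff {Y : SC V} (o : V → ℕ) (h : Finset V → Finset V → Q)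
    (z : Y.faces → KQ (ZMod 2)) (t : Y.faces) (g : Q) : ((z ᵥ* bd (ZMod 2) Y o h) t).coeff g =
      ∑ s, (z s).coeff (g * (h s.1 t.1)⁻¹) * (inc o s.1 t.1 : ZMod 2) := by
  simp only [vecMul, dotProduct, bd, MonoidAlgebra.coeff_sum, Finsupp.finsetSum_apply,
    MonoidAlgebra.coeff_mul_single_apply]

theorem bdyCh_cyc {S Y : SC V} (o : V → ℕ) (h : Finset V → Finset V → Q) (hS : S.faces ⊆ Y.faces)
    (hdeg : ∀ e ∈ S.faces, e.card = 2 → S.deg e = 2) (x : Quot (bdyR S h) → ZMod 2) :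
    bdyCh S Y h x ᵥ* bd (ZMod 2) Y o h = 0 := by
  funext t
  ext g
  rw [bdy_coeff, ← Fintype.sum_of_injective (fun f : bdyC S 3 => (⟨f.1, hS (bdy_mem f)⟩ : Y.faces))
    (fun a b e => Subtype.ext (Subtype.mk.inj e))
    (fun f => x (Quot.mk _ (f, g * (h f.1 t.1)⁻¹)) * (inc o f.1 t.1 : ZMod 2))]
  · change _ = (0 : ZMod 2)
    by_cases H : ∃ f : bdyC S 3, t.1 ⊆ f.1 ∧ f.1.card = t.1.card + 1
    · obtain ⟨f, f1, f2⟩ := H
      have t1 := S.down _ (bdy_mem f) _ f1 (Y.ne _ t.2)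
      have t2 : t.1.card = 2 := by have := bdy_card f; omega
      obtain ⟨f₁, f₂, a1, a2, -, a4⟩ := bdy_two o (n := 3) (by rw [t2]) (hdeg _ t1 t2)
      rw [a4, Quot.sound (r := bdyR S h) (b := (f₂, g * (h f₂.1 t.1)⁻¹))
        ⟨t.1, t1, t2, a1, a2, by simp⟩]
      exact CharTwo.add_self_eq_zero _
    · refine Finset.sum_eq_zero fun f _ => ?_
      rw [bdy_inc2, if_neg fun h' => H ⟨f, h'⟩, mul_zero]
  · intro s hs
    rw [bdyCh_neg S Y h x s fun h' => hs ⟨⟨s.1, h'⟩, rfl⟩]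
    simp
  · intro f
    rw [bdyCh_pos S Y h x _ f.2]

theorem bdy_z0 {Y : SC V} (o : V → ℕ) (h : Finset V → Finset V → Q) (f : Y.faces)
    (h3 : f.1.card = 3) (g : Q) :
    (((fun s : Y.faces => if s.1.card = 4 then NN (ZMod 2) else 0) ᵥ* bd (ZMod 2) Y o h) f).coeff g
      = (Y.deg f.1 : ZMod 2) := by
  rw [bdy_coeff, deg, Finset.card_filter, Nat.cast_sum, ← Finset.sum_coe_sort Y.faces]
  refine Finset.sum_congr rfl fun s _ => ?_
  rw [bdy_inc2, h3]
  by_cases h4 : s.1.card = 4 <;> simp [h4, coeff_NN]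

theorem scat_cone {X : SC V} (c : V) (I : V → Prop) (hp : X.Pure3) (ht : X.Thin)
    (hI : ∀ w, I w → X.SCat {w}) (hIc : ∀ w, I w → ∀ s ∈ X.faces, w ∈ s → c ∉ s)
    (hHS : (X.del {c}).HS I) (hchi : (X.link c).chi = 2) {o h r} (H : Dat (X.del {c}) o h r) :
    X.SCat {c} := by
  classical
  have hS : (X.link c).faces ⊆ (X.del {c}).faces := fun s hs =>
    mem_del.2 ⟨(mem_link.1 hs).1, fun h' => (mem_link.1 hs).2.1 (Finset.singleton_subset_iff.1 h')⟩
  have hc : ∀ s ∈ (X.del {c}).faces, c ∉ s := fun s hs h' =>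
    (mem_del.1 hs).2 (Finset.singleton_subset_iff.2 h')
  have hdeg : ∀ e ∈ (X.link c).faces, e.card = 2 → (X.link c).deg e = 2 := fun e he h2 => by
    obtain ⟨e1, e2, e3⟩ := mem_link.1 he
    rw [bdy_link_deg X c e2 (X.ne e e1)]
    exact ht _ e3 (by rw [Finset.card_insert_of_notMem e2, h2])
  have tet : ∀ t ∈ X.faces, t.card = 4 → c ∈ t →
      t.erase c ∈ (X.link c).faces.filter fun s => s.card = 3 := fun t t1 t2 t3 => by
    have c3 : (t.erase c).card = 3 := by rw [Finset.card_erase_of_mem t3, t2]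
    exact Finset.mem_filter.2 ⟨mem_link.2 ⟨X.down t t1 _ (Finset.erase_subset _ _)
      (Finset.card_pos.1 (by omega)), Finset.notMem_erase _ _, by rwa [Finset.insert_erase t3]⟩, c3⟩
  have pY := bdy_pure c hp ht
  have nI : ∀ f ∈ (X.del {c}).faces, (∃ w ∈ f, I w) → insert c f ∉ X.faces :=
    fun f _ ⟨w, w1, w2⟩ h' => hIc w w2 _ h' (Finset.mem_insert_of_mem w1) (Finset.mem_insert_self _ _)
  have dY : ∀ f ∈ (X.del {c}).faces, f.card = 3 → (∃ w ∈ f, I w) → (X.del {c}).deg f = 2 :=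
    fun f hf h3 hw => by
      have := bdy_del_deg X c (hc f hf)
      rwa [if_neg (nI f hf hw), ht f (mem_del.1 hf).1 h3] at this
  have sY : ∀ w, I w → (X.del {c}).SCat {w} := fun w hw t t1 t' t1' a b a' b' =>
    Relation.ReflTransGen.mono (r := X.Adj {w}) (p := (X.del {c}).Adj {w})
      (fun _ v ⟨v1, v2, v3, v4⟩ => ⟨mem_del.2 ⟨v1, fun h' =>
      hIc w hw v v1 (Finset.mem_inter.1 (Finset.singleton_subset_iff.1 v3)).2
        (Finset.singleton_subset_iff.1 h')⟩, v2, v3, v4⟩) _ _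
      (hI w hw t (mem_del.1 t1).1 t' (mem_del.1 t1').1 a b a' b')
  let _ : Fintype (Quot (bdyR (X.link c) h)) := Fintype.ofFinite _
  have hcard := bdy_count (S := X.link c) (o := o) (h := h) (H.inj.mono fun v hv => hS hv)
    (fun s hs t ht u hu => H.loc s (hS hs) t (hS ht) u (hS hu))
    (fun s hs => by
      obtain ⟨-, e2, e3⟩ := mem_link.1 hs
      have := hp.1 _ e3
      rw [Finset.card_insert_of_notMem e2] at this
      omega) hdeg
    (fun s hs => by
      obtain ⟨-, e2, e3⟩ := mem_link.1 hs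
      obtain ⟨t, t1, t2, t3⟩ := hp.2 _ e3
      obtain ⟨u1, u2⟩ := Finset.mem_filter.1 (tet t t1 t3 (t2 (Finset.mem_insert_self _ _)))
      exact ⟨_, u1, fun v hv => Finset.mem_erase.2
        ⟨fun e => e2 (e ▸ hv), t2 (Finset.mem_insert_of_mem hv)⟩, u2⟩) hchi
  have cyc := bdyCh_cyc o h hS hdeg
  let F : (Quot (bdyR (X.link c) h) → ZMod 2) →ₗ[ZMod 2] WK (ZMod 2) :=
    { toFun := fun x => ⟨toW (ZMod 2) r (bdyCh _ _ h x), toW_mem _ H _ (cyc x)⟩
      map_add' := fun x y => Subtype.ext (funext fun j => by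
        simp only [toW, map_add, Matrix.add_vecMul, Pi.add_apply, Submodule.coe_add])
      map_smul' := fun a x => Subtype.ext (funext fun j => by
        simp only [toW, map_smul, Matrix.smul_vecMul, Pi.smul_apply, Submodule.coe_smul,
          RingHom.id_apply]) }
  intro t t1 t' t1' t4 t4' ct ct'
  rw [Finset.singleton_subset_iff] at ct ct'
  obtain ⟨g, hg⟩ := orb_trans F (fun g x j => by
      change toW _ r (bdyCh _ _ h _) j = _ * toW _ r (bdyCh _ _ h x) j
      simp only [toW, vecMul, dotProduct, Finset.mul_sum, ← mul_assoc]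
      refine Finset.sum_congr rfl fun s _ => congrArg (· * _) ?_
      by_cases hs : s.1 ∈ (X.link c).faces.filter fun s => s.card = 3
      · ext g'
        rw [el, MonoidAlgebra.coeff_single_mul_apply, bdyCh_pos _ _ _ _ _ hs, bdyCh_pos _ _ _ _ _ hs,
          one_mul, bdy_smul]
      · rw [bdyCh_neg _ _ _ _ _ hs, bdyCh_neg _ _ _ _ _ hs, mul_zero])
    (fun x hx => by
      obtain ⟨z, z1, z2⟩ := toW_eq_zero _ H (bdyCh _ _ h x) (fun s hs =>
        bdyCh_neg _ _ _ _ _ fun h' => hs (Finset.mem_filter.1 h').2) (cyc x)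
        (congrArg Subtype.val hx)
      obtain ⟨u, u1, -, u3⟩ := pY.2 _ (hS (Finset.mem_filter.1 (tet t t1 t4 ct)).1)
      refine ⟨(z ⟨u, u1⟩).coeff 1, fun q => ?_⟩
      have z3 := rel_cycle (ZMod 2) (o := o) H.loc H.conn I pY dY sY hHS
        (z - (z ⟨u, u1⟩).coeff 1 • fun s => if s.1.card = 4 then NN (ZMod 2) else 0)
        (fun s hs => by simp [z1 s hs, hs])
        (fun f h3 hw => by
          ext g
          rw [Matrix.sub_vecMul, Matrix.smul_vecMul, z2, Pi.sub_apply, bdyCh_neg _ _ _ _ _ fun h' =>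
            nI _ f.2 hw (mem_link.1 (Finset.mem_filter.1 h').1).2.2, Pi.smul_apply, zero_sub,
            MonoidAlgebra.coeff_neg, Finsupp.neg_apply, MonoidAlgebra.coeff_smul_apply,
            bdy_z0 o h f h3, dY _ f.2 h3 hw]
          change -(_ * (0 : ZMod 2)) = (0 : ZMod 2)
          simp)
        ⟨u, u1⟩ u3 1 (by simp [u3, coeff_NN])
      induction q using Quot.ind with
      | mk a =>
        obtain ⟨f, g⟩ := a
        have f1 := hS (bdy_mem f)
        have e1 := bdy_del_deg X c (hc _ f1)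
        rw [if_pos (mem_link.1 (bdy_mem f)).2.2, ht _ (mem_del.1 f1).1 (bdy_card f)] at e1
        have e2 := bdyCh_pos _ _ h x ⟨f.1, f1⟩ f.2 g
        rw [← z2, sub_eq_zero.1 z3, Matrix.smul_vecMul, Pi.smul_apply,
          MonoidAlgebra.coeff_smul_apply, bdy_z0 o h _ (bdy_card f),
          show (X.del {c}).deg f.1 = 1 by omega] at e2
        rw [← e2]
        simp) hcard
    (Quot.mk _ (⟨_, tet t t1 t4 ct⟩, 1)) (Quot.mk _ (⟨_, tet t' t1' t4' ct'⟩, 1))
  have step : ∀ a b, bdyR (X.link c) h a b → X.Adj {c} (insert c a.1.1) (insert c b.1.1) := by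
    rintro a b ⟨e, e1, e2, e3, e4, -⟩
    obtain ⟨-, b2, b3⟩ := mem_link.1 (bdy_mem b.1)
    refine ⟨b3, by rw [Finset.card_insert_of_notMem b2, bdy_card], by simp, ?_⟩
    have := Finset.card_le_card (Finset.subset_inter (Finset.insert_subset_insert c e3)
      (Finset.insert_subset_insert c e4))
    rwa [Finset.card_insert_of_notMem (mem_link.1 e1).2.1, e2] at this
  have main : ∀ a b, Relation.EqvGen (bdyR (X.link c) h) a b →
      Relation.ReflTransGen (X.Adj {c}) (insert c a.1.1) (insert c b.1.1) ∧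
      Relation.ReflTransGen (X.Adj {c}) (insert c b.1.1) (insert c a.1.1) := by
    intro a b hab
    induction hab with
    | rel a b hab =>
      obtain ⟨e, e1, e2, e3, e4, e5⟩ := hab
      exact ⟨.single (step a b ⟨e, e1, e2, e3, e4, e5⟩), .single (step b a ⟨e, e1, e2, e4, e3, e5.symm⟩)⟩
    | refl a => exact ⟨.refl, .refl⟩
    | symm a b _ ih => exact ih.symm
    | trans a b d _ _ ih ih' => exact ⟨ih.1.trans ih'.1, ih'.2.trans ih.2⟩
  have := (main _ _ (Quot.eqvGen_exact ((bdy_smul _ h g 1 _).symm.trans hg))).1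
  rwa [Finset.insert_erase ct, Finset.insert_erase ct'] at this

end MP35
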