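import Pool.Agent.Lib.MP_35c604_gt.Q60

/-! TASK GRP: both presentations present the quaternion group of order 60. -/

namespace MP35

theorem grp_qq_fx : qq fx = gx := by simp [qq, fx, gen]

theorem grp_qq_fy : qq fy = gy := by simp [qq, fy, gen]

theorem grp_a_eq (i : ZMod (2 * 15)) : (QuaternionGroup.a i : Q) = gx ^ i.val := by
  rw [gx, QuaternionGroup.a_one_pow, ZMod.natCast_zmod_val]

theorem qq_surj : Function.Surjective qq := by
  rintro (i | i)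
  · exact ⟨fx ^ i.val, by rw [map_pow, grp_qq_fx, grp_a_eq]⟩
  · refine ⟨fy * fx ^ i.val, ?_⟩
    rw [map_mul, map_pow, grp_qq_fx, grp_qq_fy, ← grp_a_eq, gy, QuaternionGroup.xa_mul_a, zero_add]

theorem grp_qq_relK (j : Fin 2) : qq (relK j) = 1 := by
  fin_cases j
  · change qq (fy⁻¹ ^ 2 * fx ^ 15) = 1
    rw [map_mul, map_pow, map_pow, map_inv, grp_qq_fx, grp_qq_fy]
    decide +kernel
  · change qq (fy⁻¹ * fx * fy * fx) = 1
    simp only [map_mul, map_inv, grp_qq_fx, grp_qq_fy]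
    decide +kernel

theorem grp_exists_hom {G : Type} [Group G] (x y : G) (h1 : y⁻¹ ^ 2 * x ^ 15 = 1)
    (h2 : y⁻¹ * x * y * x = 1) : ∃ φ : Q →* G, φ gx = x ∧ φ gy = y := by
  have hc : y⁻¹ * x * y = x⁻¹ := eq_inv_of_mul_eq_one_left h2
  have hk : ∀ k : ℕ, x ^ k * y = y * (x ^ k)⁻¹ := by
    intro k
    have h3 : (y⁻¹ * x * y⁻¹⁻¹) ^ k = y⁻¹ * x ^ k * y⁻¹⁻¹ := conj_pow
    rw [inv_inv, hc, inv_pow] at h3
    rw [h3]
    group
  have hy : y * y = x ^ 15 := by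
    have : y * y * (y⁻¹ ^ 2 * x ^ 15) = x ^ 15 := by group
    rw [← this, h1, mul_one]
  have h30 : x ^ (2 * 15) = 1 := by
    have h3 := hk 15
    have h4 : x ^ 15 * y = y * x ^ 15 := by rw [← hy, mul_assoc]
    rw [h4, mul_right_inj] at h3
    rw [two_mul, pow_add]
    nth_rewrite 1 [h3]
    exact inv_mul_cancel _
  let p : ZMod (2 * 15) → G := fun i => x ^ i.val
  have padd : ∀ i j, p (i + j) = p i * p j := by
    intro i j
    simp only [p]
    rw [ZMod.val_add, ← pow_eq_pow_mod _ h30, pow_add]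
  have p0 : p 0 = 1 := by simp [p]
  have pneg : ∀ i, p (-i) = (p i)⁻¹ := by
    intro i
    rw [eq_inv_iff_mul_eq_one, ← padd, neg_add_cancel, p0]
  have p15 : p ((15 : ℕ) : ZMod (2 * 15)) = y * y := by
    simp only [p]
    rw [show (((15 : ℕ) : ZMod (2 * 15))).val = 15 from by decide, hy]
  have py : ∀ i, p i * y = y * (p i)⁻¹ := fun i => hk _
  let f : Q → G := fun g => match g with
    | .a i => p i
    | .xa i => y * p i
  have fa : ∀ i, f (.a i) = p i := fun _ => rfl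
  have fxa : ∀ i, f (.xa i) = y * p i := fun _ => rfl
  refine ⟨MonoidHom.mk' f ?_, ?_, ?_⟩
  · rintro (i | i) (j | j)
    · rw [QuaternionGroup.a_mul_a, fa, fa, fa, padd]
    · rw [QuaternionGroup.a_mul_xa, fa, fxa, fxa, ← mul_assoc, py, sub_eq_neg_add, padd, pneg,
        mul_assoc]
    · rw [QuaternionGroup.xa_mul_a, fa, fxa, fxa, padd, mul_assoc]
    · rw [QuaternionGroup.xa_mul_xa, fa, fxa, fxa, add_sub_assoc, padd, p15, sub_eq_neg_add, padd,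
        pneg, mul_assoc y (p i), ← mul_assoc (p i), py]
      simp only [mul_assoc]
  · change p 1 = x
    simp only [p]
    rw [show ((1 : ZMod (2 * 15))).val = 1 from by decide, pow_one]
  · change y * p 0 = y
    rw [p0, mul_one]

theorem grp_mk_rel (R : Fin 2 → F2) (j : Fin 2) :
    QuotientGroup.mk' (Subgroup.normalClosure (Set.range R)) (R j) = 1 :=
  (QuotientGroup.eq_one_iff _).2 (Subgroup.subset_normalClosure ⟨j, rfl⟩)

theorem ker_qq : qq.ker = Subgroup.normalClosure (Set.range relK) := by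
  apply le_antisymm
  · let π := QuotientGroup.mk' (Subgroup.normalClosure (Set.range relK))
    have h1 : π (fy⁻¹ ^ 2 * fx ^ 15) = 1 := grp_mk_rel relK 0
    have h2 : π (fy⁻¹ * fx * fy * fx) = 1 := grp_mk_rel relK 1
    simp only [map_mul, map_pow, map_inv] at h1 h2
    obtain ⟨φ, hx, hy⟩ := grp_exists_hom (π fx) (π fy) h1 h2
    have h3 : φ.comp qq = π := by
      refine FreeGroup.ext_hom _ _ fun i => ?_
      fin_cases i
      · change φ (qq fx) = π fx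
        rw [grp_qq_fx, hx]
      · change φ (qq fy) = π fy
        rw [grp_qq_fy, hy]
    intro w hw
    have h4 : π w = 1 := by
      rw [← h3, MonoidHom.comp_apply, MonoidHom.mem_ker.1 hw, map_one]
    exact (QuotientGroup.eq_one_iff _).1 h4
  · refine Subgroup.normalClosure_le_normal ?_
    rintro _ ⟨j, rfl⟩
    exact grp_qq_relK j

theorem grp_collapse {G : Type} [Group G] (x y r : G) (hr : r = y⁻¹ * x * y * x)
    (hB : y⁻¹ ^ 2 * x ^ 7 * r⁻¹ * x ^ 3 * r * x ^ 3 * r⁻¹ * x ^ 2 = 1)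
    (hA : x * r * x⁻¹ * r⁻¹ * r⁻¹ = 1) : r = 1 := by
  have hA' : x * r * x⁻¹ = r ^ 2 := by
    have : x * r * x⁻¹ = x * r * x⁻¹ * r⁻¹ * r⁻¹ * r ^ 2 := by group
    rw [this, hA, one_mul]
  obtain ⟨ρ, hρ⟩ : ∃ ρ, ρ = (x ^ 15)⁻¹ * r * x ^ 15 := ⟨_, rfl⟩
  have h1 : x * ρ * x⁻¹ = ρ ^ 2 := by
    have e1 : x * ρ * x⁻¹ = (x ^ 15)⁻¹ * (x * r * x⁻¹) * x ^ 15 := by
      rw [hρ]
      group
    rw [e1, hA', hρ]
    simp only [pow_two, mul_assoc, mul_inv_cancel_left]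
  have h1z : ∀ m : ℤ, x * ρ ^ m * x⁻¹ = ρ ^ (2 * m) := by
    intro m
    rw [← conj_zpow, h1, zpow_mul, zpow_two, pow_two]
  have h2 : ∀ k : ℕ, x ^ k * ρ * (x ^ k)⁻¹ = ρ ^ ((2 : ℤ) ^ k) := by
    intro k
    induction k with
    | zero => simp
    | succ k ih =>
      have e1 : x ^ (k + 1) * ρ * (x ^ (k + 1))⁻¹ = x * (x ^ k * ρ * (x ^ k)⁻¹) * x⁻¹ := by group
      rw [e1, ih, h1z, pow_succ']
  have hr' : r = x ^ 15 * ρ * (x ^ 15)⁻¹ := by
    rw [hρ]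
    group
  have h3 : r = ρ ^ (32768 : ℤ) := by
    rw [hr', h2]
    norm_num
  have h4 : y * y = x ^ 15 * ρ ^ (-7296 : ℤ) := by
    have e1 : y * y = y * y *
        (y⁻¹ ^ 2 * x ^ 7 * r⁻¹ * x ^ 3 * r * x ^ 3 * r⁻¹ * x ^ 2) := by rw [hB, mul_one]
    have e2 : y * y * (y⁻¹ ^ 2 * x ^ 7 * r⁻¹ * x ^ 3 * r * x ^ 3 * r⁻¹ * x ^ 2) =
        x ^ 15 * ((x ^ 7 * ρ * (x ^ 7)⁻¹)⁻¹ * (x ^ 10 * ρ * (x ^ 10)⁻¹) *
          (x ^ 13 * ρ * (x ^ 13)⁻¹)⁻¹) := by
      rw [hr']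
      group
    rw [e1, e2, h2, h2, h2, ← zpow_neg, ← zpow_neg, ← zpow_add, ← zpow_add]
    norm_num
  have hcx : y⁻¹ * x * y = r * x⁻¹ := by
    rw [hr]
    group
  have hcr : y⁻¹ * r * y = ρ ^ (58240 : ℤ) := by
    have e1 : y⁻¹ * r * y = (y * y)⁻¹ * x * (y * y) * (y⁻¹ * x * y) := by
      rw [hr]
      group
    have e2 : (x ^ 15 * ρ ^ (-7296 : ℤ))⁻¹ * x * (x ^ 15 * ρ ^ (-7296 : ℤ)) * (r * x⁻¹) =
        (ρ ^ (-7296 : ℤ))⁻¹ * (x * ρ ^ (-7296 : ℤ) * x⁻¹) * (x * r * x⁻¹) := by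
      generalize ρ ^ (-7296 : ℤ) = σ
      group
    rw [e1, h4, hcx, e2, h1z, hA', h3, pow_two, ← zpow_neg, ← zpow_add, ← zpow_add, ← zpow_add]
    norm_num
  have h5 : ρ ^ (174720 : ℤ) = 1 := by
    have e1 : y⁻¹ * (x * r * x⁻¹) * y = (y⁻¹ * x * y) * (y⁻¹ * r * y) * (y⁻¹ * x * y)⁻¹ := by group
    have e2 : y⁻¹ * r ^ 2 * y = (y⁻¹ * r * y) * (y⁻¹ * r * y) := by
      simp only [pow_two, mul_assoc, mul_inv_cancel_left]
    rw [hA', e2, hcx, hcr] at e1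
    have e3 : ρ ^ (58240 : ℤ) =
        x * (r⁻¹ * (ρ ^ (58240 : ℤ) * ρ ^ (58240 : ℤ)) * r) * x⁻¹ := by
      rw [e1]
      generalize ρ ^ (58240 : ℤ) = σ
      group
    rw [h3, ← zpow_neg, ← zpow_add, ← zpow_add, ← zpow_add, h1z] at e3
    have e4 : ρ ^ (174720 : ℤ) = (ρ ^ (58240 : ℤ))⁻¹ *
        ρ ^ (2 * (-32768 + (58240 + 58240) + 32768) : ℤ) := by
      rw [← zpow_neg, ← zpow_add]
      norm_num
    rw [e4, ← e3, inv_mul_cancel]
  have h6 : r * r * r = 1 := by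
    have e1 : r * r * r = y * ((y⁻¹ * r * y) * (y⁻¹ * r * y) * (y⁻¹ * r * y)) * y⁻¹ := by group
    rw [e1, hcr, ← zpow_add, ← zpow_add,
      show (58240 + 58240 + 58240 : ℤ) = 174720 from by norm_num, h5]
    simp
  have h7 : ρ ^ (3 : ℤ) = 1 := by
    have e1 : ρ ^ (3 : ℤ) = (x ^ 15)⁻¹ * (r * r * r) * x ^ 15 := by
      rw [show (3 : ℤ) = 1 + 1 + 1 from rfl, zpow_add, zpow_add, zpow_one, hρ]
      simp only [mul_assoc, mul_inv_cancel_left]
    rw [e1, h6]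
    simp
  have h8 : y * y = x ^ 15 := by
    rw [h4, show (-7296 : ℤ) = 3 * (-2432) from by norm_num, zpow_mul, h7, one_zpow, mul_one]
  have h9 : (r * x⁻¹) ^ 15 = x ^ 15 := by
    have e1 : (y⁻¹ * x * y⁻¹⁻¹) ^ 15 = y⁻¹ * x ^ 15 * y⁻¹⁻¹ := conj_pow
    rw [inv_inv, hcx, ← h8] at e1
    rw [e1, ← h8]
    group
  have h10 : (r * x⁻¹) ^ 2 = (x ^ 2)⁻¹ := by
    have e1 : r ^ 2 = r⁻¹ := by
      rw [pow_two]
      exact eq_inv_of_mul_eq_one_left h6
    rw [e1] at hA'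
    have e2 : (r * x⁻¹) ^ 2 = r * x⁻¹ * (x * r * x⁻¹)⁻¹ * x⁻¹ := by
      rw [hA', inv_inv, pow_two]
      simp only [mul_assoc]
    rw [e2]
    group
  have h11 : r = x ^ 30 := by
    rw [show 15 = 2 * 7 + 1 from rfl, pow_succ, pow_mul, h10] at h9
    have e1 : r = x ^ 14 * ((x ^ 2)⁻¹ ^ 7 * (r * x⁻¹)) * x := by group
    rw [e1, h9]
    group
  have h12 : x * r * x⁻¹ = r := by
    rw [h11]
    group
  rw [h12, pow_two] at hA'
  exact (left_eq_mul.1 hA')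

theorem ncl_relL :
    Subgroup.normalClosure (Set.range relL) = Subgroup.normalClosure (Set.range relK) := by
  apply le_antisymm
  · refine Subgroup.normalClosure_le_normal ?_
    rintro _ ⟨j, rfl⟩
    let π := QuotientGroup.mk' (Subgroup.normalClosure (Set.range relK))
    have h1 : π (fy⁻¹ ^ 2 * fx ^ 15) = 1 := grp_mk_rel relK 0
    have h2 : π rr = 1 := grp_mk_rel relK 1
    have h3 : π (relL j) = 1 := by
      fin_cases j
      · change π (fy⁻¹ ^ 2 * fx ^ 7 * rr⁻¹ * fx ^ 3 * rr * fx ^ 3 * rr⁻¹ * fx ^ 2) = 1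
        simp only [map_mul, map_pow, map_inv, h2] at h1 ⊢
        refine Eq.trans ?_ h1
        group
      · change π (fx * rr * fx⁻¹ * rr⁻¹ * rr⁻¹) = 1
        simp only [map_mul, map_inv, h2]
        group
    exact (QuotientGroup.eq_one_iff _).1 h3
  · refine Subgroup.normalClosure_le_normal ?_
    rintro _ ⟨j, rfl⟩
    let π := QuotientGroup.mk' (Subgroup.normalClosure (Set.range relL))
    have h1 : π (fy⁻¹ ^ 2 * fx ^ 7 * rr⁻¹ * fx ^ 3 * rr * fx ^ 3 * rr⁻¹ * fx ^ 2) = 1 :=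
      grp_mk_rel relL 0
    have h2 : π (fx * rr * fx⁻¹ * rr⁻¹ * rr⁻¹) = 1 := grp_mk_rel relL 1
    simp only [map_mul, map_pow, map_inv] at h1 h2
    have h4 : π rr = 1 := grp_collapse (π fx) (π fy) (π rr) (by simp only [rr, map_mul, map_inv]) h1 h2
    have h3 : π (relK j) = 1 := by
      fin_cases j
      · change π (fy⁻¹ ^ 2 * fx ^ 15) = 1
        simp only [map_mul, map_pow, map_inv, h4] at h1 ⊢
        refine Eq.trans ?_ h1
        group
      · exact h4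
    exact (QuotientGroup.eq_one_iff _).1 h3

end MP35
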