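import Pool.Agent.Lib.MP_35c604_gt.DAlg
import Pool.Agent.Lib.MP_35c604_gt.Grp

/-! TASK FOXW: Fox derivatives and the lifts of the rows of `Amat`. -/

namespace MP35

open Matrix

/-- Pairs (group element, vector of derivatives). -/
@[ext] structure FoxG where
  g : Q
  v : Fin 2 → ZQ

noncomputable instance : Mul FoxG := ⟨fun a b => ⟨a.g * b.g, a.v + el ℤ a.g • b.v⟩⟩
noncomputable instance : One FoxG := ⟨⟨1, 0⟩⟩
noncomputable instance : Inv FoxG := ⟨fun a => ⟨a.g⁻¹, -(el ℤ a.g⁻¹ • a.v)⟩⟩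

theorem foxw_mul_g (a b : FoxG) : (a * b).g = a.g * b.g := rfl
theorem foxw_mul_v (a b : FoxG) : (a * b).v = a.v + el ℤ a.g • b.v := rfl
theorem foxw_one_g : (1 : FoxG).g = 1 := rfl
theorem foxw_one_v : (1 : FoxG).v = 0 := rfl
theorem foxw_inv_g (a : FoxG) : (a⁻¹).g = a.g⁻¹ := rfl
theorem foxw_inv_v (a : FoxG) : (a⁻¹).v = -(el ℤ a.g⁻¹ • a.v) := rfl

noncomputable instance : Group FoxG :=
  Group.ofLeftAxioms
    (fun a b c => FoxG.ext (by simp only [foxw_mul_g, mul_assoc])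
      (by simp only [foxw_mul_g, foxw_mul_v, el_mul, smul_add, mul_smul, add_assoc]))
    (fun a => FoxG.ext (by simp only [foxw_mul_g, foxw_one_g, one_mul])
      (by simp only [foxw_mul_v, foxw_one_g, foxw_one_v, el_one, one_smul, zero_add]))
    (fun a => FoxG.ext (by simp only [foxw_mul_g, foxw_one_g, foxw_inv_g, inv_mul_cancel])
      (by simp only [foxw_mul_v, foxw_inv_g, foxw_inv_v, foxw_one_v, neg_add_cancel]))

noncomputable def foxwPhi : F2 →* FoxG := FreeGroup.lift fun i => ⟨gen i, Pi.single i 1⟩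

noncomputable def foxwG : FoxG →* Q := MonoidHom.mk' FoxG.g foxw_mul_g

theorem foxw_phi_g (u : F2) : (foxwPhi u).g = qq u := by
  have : foxwG.comp foxwPhi = qq := by
    refine FreeGroup.ext_hom _ _ fun i => ?_
    simp [foxwG, foxwPhi, qq]
  exact DFunLike.congr_fun this u

/-- The vector of Fox derivatives. -/
noncomputable def foxw (u : F2) : Fin 2 → ZQ := (foxwPhi u).v

theorem foxw_mul (u v : F2) : foxw (u * v) = foxw u + el ℤ (qq u) • foxw v := by
  rw [foxw, map_mul, foxw_mul_v, foxw_phi_g]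
  rfl

theorem foxw_one : foxw 1 = 0 := by
  rw [foxw, map_one]
  rfl

theorem foxw_inv (u : F2) : foxw u⁻¹ = -(el ℤ (qq u)⁻¹ • foxw u) := by
  rw [foxw, map_inv, foxw_inv_v, foxw_phi_g]
  rfl

theorem foxw_of (i : Fin 2) : foxw (FreeGroup.of i) = Pi.single i 1 := by
  simp [foxw, foxwPhi]

theorem foxw_fund (u : F2) : ∑ l, foxw u l * (el ℤ (gen l) - 1) = el ℤ (qq u) - 1 := by
  induction u using FreeGroup.induction_on with
  | C1 => simp [foxw_one, el_one]
  | of i =>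
    change ∑ l, foxw (FreeGroup.of i) l * _ = el ℤ (qq (FreeGroup.of i)) - 1
    rw [foxw_of, Finset.sum_eq_single i]
    · simp [qq]
    · intro b _ hb
      simp [hb]
    · simp
  | inv_of i ih =>
    simp only [foxw_inv, Pi.neg_apply, Pi.smul_apply, smul_eq_mul, neg_mul, mul_assoc,
      Finset.sum_neg_distrib, ← Finset.mul_sum, ih, map_inv]
    rw [mul_sub, ← el_mul, inv_mul_cancel, el_one, mul_one, neg_sub]
  | mul u v ihu ihv =>
    simp only [foxw_mul, Pi.add_apply, Pi.smul_apply, smul_eq_mul, add_mul, mul_assoc,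
      Finset.sum_add_distrib, ← Finset.mul_sum, ihu, ihv, map_mul, el_mul]
    noncomm_ring

theorem foxw_pow (n : ℕ) :
    foxw (fx ^ n) = (∑ i ∈ Finset.range n, el ℤ (gx ^ i)) • Pi.single (0 : Fin 2) (1 : ZQ) := by
  induction n with
  | zero => simp [foxw_one]
  | succ n ih =>
    rw [pow_succ, foxw_mul, ih, map_pow, grp_qq_fx, Finset.sum_range_succ, add_smul, fx, foxw_of]

theorem foxw_relK (j : Fin 2) : foxw (relK j) = foxM ℤ j := by
  have hx : foxw fx = Pi.single 0 1 := foxw_of 0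
  have hy : foxw fy = Pi.single 1 1 := foxw_of 1
  fin_cases j
  · change foxw (fy⁻¹ ^ 2 * fx ^ 15) = foxM ℤ 0
    rw [foxw_mul, foxw_pow, map_pow, map_inv, grp_qq_fy, pow_two fy⁻¹, foxw_mul, foxw_inv, hy,
      map_inv, grp_qq_fy]
    funext l
    fin_cases l
    · simp [foxM]
    · simp [foxM, pow_two, el_mul, sub_eq_add_neg]
  · change foxw (fy⁻¹ * fx * fy * fx) = foxM ℤ 1
    have e : gy⁻¹ * gx * gy = gx⁻¹ := by decide +kernel
    simp only [foxw_mul, foxw_inv, hx, hy, map_mul, map_inv, grp_qq_fx, grp_qq_fy, e]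
    funext l
    fin_cases l
    · simp [foxM]
    · simp [foxM, sub_eq_neg_add]

theorem foxw_qq_cbd (W : FreeGroup (F2 × Fin 2)) : qq (cbd relK W) = 1 := by
  have : qq.comp (cbd relK) = 1 := by
    refine FreeGroup.ext_hom _ _ fun x => ?_
    simp [cbd, grp_qq_relK]
  exact DFunLike.congr_fun this W

theorem foxw_cab_of (u : F2) (j : Fin 2) :
    Multiplicative.toAdd (cab qq (FreeGroup.of (u, j))) = Pi.single j (el ℤ (qq u)) := by
  simp [cab, el]

theorem foxw_cbd_of (u : F2) (j : Fin 2) :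
    cbd relK (FreeGroup.of (u, j)) = u * relK j * u⁻¹ := by
  simp [cbd]

theorem foxw_cbd (W : FreeGroup (F2 × Fin 2)) :
    foxw (cbd relK W) = Multiplicative.toAdd (cab qq W) ᵥ* foxM ℤ := by
  induction W using FreeGroup.induction_on with
  | C1 => simp [foxw_one]
  | of x =>
    obtain ⟨u, j⟩ := x
    rw [foxw_cbd_of, foxw_cab_of, foxw_mul, foxw_mul, foxw_inv, map_mul, grp_qq_relK, mul_one,
      smul_neg, smul_smul, ← el_mul, mul_inv_cancel, el_one, one_smul, foxw_relK,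
      Matrix.single_vecMul, add_neg_cancel_comm]
    rfl
  | inv_of x ih =>
    rw [map_inv, map_inv, foxw_inv, foxw_qq_cbd, inv_one, el_one, one_smul, ih, toAdd_inv,
      Matrix.neg_vecMul]
  | mul u v ihu ihv =>
    rw [map_mul, map_mul, foxw_mul, foxw_qq_cbd, el_one, one_smul, ihu, ihv, toAdd_mul,
      Matrix.add_vecMul]

/-- Translation of a formal product. -/
def foxwTr (u : F2) : FreeGroup (F2 × Fin 2) →* FreeGroup (F2 × Fin 2) :=
  FreeGroup.map fun x => (u * x.1, x.2)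

theorem foxw_cbd_tr (u : F2) (W : FreeGroup (F2 × Fin 2)) :
    cbd relK (foxwTr u W) = u * cbd relK W * u⁻¹ := by
  have : (cbd relK).comp (foxwTr u) = (MulAut.conj u).toMonoidHom.comp (cbd relK) := by
    refine FreeGroup.ext_hom _ _ fun x => ?_
    simp [cbd, foxwTr, mul_assoc]
  exact DFunLike.congr_fun this W

theorem foxw_cab_tr (u : F2) (W : FreeGroup (F2 × Fin 2)) :
    Multiplicative.toAdd (cab qq (foxwTr u W)) = el ℤ (qq u) • Multiplicative.toAdd (cab qq W) := by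
  induction W using FreeGroup.induction_on with
  | C1 => simp
  | of x =>
    obtain ⟨v, j⟩ := x
    change Multiplicative.toAdd (cab qq (FreeGroup.of (u * v, j))) =
      el ℤ (qq u) • Multiplicative.toAdd (cab qq (FreeGroup.of (v, j)))
    rw [foxw_cab_of, foxw_cab_of, map_mul, el_mul, ← smul_eq_mul, Pi.single_smul']
  | inv_of x ih => simp only [map_inv, toAdd_inv, ih, smul_neg]
  | mul v w ihv ihw => simp only [map_mul, toAdd_mul, ihv, ihw, smul_add]

/-- The chains of the identities among the relators. -/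
noncomputable def foxwId : AddSubgroup (Fin 2 → ZQ) where
  carrier := {v | ∃ W, cbd relK W = 1 ∧ Multiplicative.toAdd (cab qq W) = v}
  add_mem' := by
    rintro _ _ ⟨W, hW, rfl⟩ ⟨W', hW', rfl⟩
    exact ⟨W * W', by rw [map_mul, hW, hW', one_mul], by rw [map_mul, toAdd_mul]⟩
  zero_mem' := ⟨1, map_one _, by rw [map_one, toAdd_one]⟩
  neg_mem' := by
    rintro _ ⟨W, hW, rfl⟩
    exact ⟨W⁻¹, by rw [map_inv, hW, inv_one], by rw [map_inv, toAdd_inv]⟩

theorem foxw_u0_mem : u0 ℤ ∈ foxwId := by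
  refine ⟨FreeGroup.of (fx, 0) * (FreeGroup.of (1, 0))⁻¹ * (FreeGroup.of (fx, 1))⁻¹ *
    FreeGroup.of (fx * fy⁻¹ * fx, 1), ?_, ?_⟩
  · simp only [map_mul, map_inv, foxw_cbd_of]
    have e0 : relK 0 = fy⁻¹ ^ 2 * fx ^ 15 := rfl
    have e1 : relK 1 = fy⁻¹ * fx * fy * fx := rfl
    rw [e0, e1]
    group
  · have e : gx * gy⁻¹ * gx = gy⁻¹ := by decide +kernel
    simp only [map_mul, map_inv, toAdd_mul, toAdd_inv, foxw_cab_of, map_one, el_one, grp_qq_fx,
      grp_qq_fy, e]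
    funext l
    fin_cases l
    · simp [u0, sub_eq_add_neg]
    · simp [u0, sub_eq_neg_add]

theorem foxw_smul_mem (c : ZQ) {v : Fin 2 → ZQ} (hv : v ∈ foxwId) : c • v ∈ foxwId := by
  induction c using MonoidAlgebra.induction_on with
  | of g =>
    obtain ⟨u, rfl⟩ := qq_surj g
    obtain ⟨W, hW, rfl⟩ := hv
    exact ⟨foxwTr u W, by rw [foxw_cbd_tr, hW, mul_one, mul_inv_cancel], foxw_cab_tr u W⟩
  | add a b ha hb =>
    rw [add_smul]
    exact add_mem ha hb
  | smul r a ha =>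
    rw [smul_assoc]
    exact zsmul_mem ha r

theorem foxw_exists_Ap (i : Fin 2) : ∃ W : FreeGroup (F2 × Fin 2),
    cbd relK W = relL i ∧ Multiplicative.toAdd (cab qq W) = Ap i := by
  have e0 : relK 0 = fy⁻¹ ^ 2 * fx ^ 15 := rfl
  have e1 : relK 1 = rr := rfl
  fin_cases i
  · refine ⟨FreeGroup.of (1, 0) * (FreeGroup.of ((fx ^ 8)⁻¹, 1))⁻¹ * FreeGroup.of ((fx ^ 5)⁻¹, 1) *
      (FreeGroup.of ((fx ^ 2)⁻¹, 1))⁻¹, ?_, ?_⟩
    · simp only [map_mul, map_inv, foxw_cbd_of, e0, e1]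
      change _ = fy⁻¹ ^ 2 * fx ^ 7 * rr⁻¹ * fx ^ 3 * rr * fx ^ 3 * rr⁻¹ * fx ^ 2
      group
    · have a8 : (gx ^ 8)⁻¹ = gx ^ 22 := by decide +kernel
      have a5 : (gx ^ 5)⁻¹ = gx ^ 25 := by decide +kernel
      have a2 : (gx ^ 2)⁻¹ = gx ^ 28 := by decide +kernel
      simp only [map_mul, map_inv, map_pow, toAdd_mul, toAdd_inv, foxw_cab_of, map_one, el_one,
        grp_qq_fx, a8, a5, a2]
      funext l
      fin_cases l
      · simp [Ap]
      · simp [Ap]
        abel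
  · refine ⟨FreeGroup.of (fx, 1) * (FreeGroup.of (1, 1))⁻¹ * (FreeGroup.of (1, 1))⁻¹, ?_, ?_⟩
    · simp only [map_mul, map_inv, foxw_cbd_of, e1]
      change _ = fx * rr * fx⁻¹ * rr⁻¹ * rr⁻¹
      group
    · simp only [map_mul, map_inv, toAdd_mul, toAdd_inv, foxw_cab_of, map_one, el_one, grp_qq_fx]
      funext l
      fin_cases l
      · simp [Ap]
      · simp [Ap]
        rw [← (one_add_one_eq_two : (1 : ZQ) + 1 = 2)]
        abel

theorem foxw_exists_W (i : Fin 2) : ∃ W : FreeGroup (F2 × Fin 2),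
    cbd relK W = relL i ∧ Multiplicative.toAdd (cab qq W) = Amat i := by
  obtain ⟨W, hW, hW'⟩ := foxw_exists_Ap i
  obtain ⟨V, hV, hV'⟩ := foxw_smul_mem (cvec i) foxw_u0_mem
  refine ⟨W * V, by rw [map_mul, hW, hV, mul_one], ?_⟩
  rw [map_mul, toAdd_mul, hW', hV']
  rfl

theorem exists_fox : ∃ fox : F2 → Fin 2 → ZQ,
    (∀ u v l, fox (u * v) l = fox u l + el ℤ (qq u) * fox v l) ∧
    (∀ i l, fox (FreeGroup.of i) l = if i = l then 1 else 0) ∧
    (∀ u, ∑ l, fox u l * (el ℤ (gen l) - 1) = el ℤ (qq u) - 1) ∧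
    ∀ i l, fox (relL i) l = (Amat * foxM ℤ) i l := by
  refine ⟨foxw, fun u v l => by rw [foxw_mul]; rfl, fun i l => ?_, foxw_fund, fun i l => ?_⟩
  · rw [foxw_of, Pi.single_apply]
    simp only [eq_comm]
  · obtain ⟨W, hW, hW'⟩ := foxw_exists_W i
    rw [← hW, foxw_cbd, hW']
    rfl

theorem qq_relL (i : Fin 2) : qq (relL i) = 1 := by
  obtain ⟨W, hW, -⟩ := foxw_exists_W i
  rw [← hW, foxw_qq_cbd]

theorem exists_W (i : Fin 2) : ∃ W : FreeGroup (F2 × Fin 2),
    cbd relK W = relL i ∧ Multiplicative.toAdd (cab qq W) = Amat i := foxw_exists_W i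

end MP35
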