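import Pool.Agent.Lib.MP_35c604_gt.TorA

/-! TASK TORB: triangular splittings, flattening, the algebraic matching lemma. -/

namespace MP35

open Matrix

/-- One of the two off-diagonal blocks of `d` for the decomposition `e` vanishes. -/
def Tri {A I I₁ I₂ : Type} [Zero A] (e : I₁ ⊕ I₂ ≃ I) (d : Matrix I I A) : Prop :=
  (∀ i j, d (e (Sum.inl i)) (e (Sum.inr j)) = 0) ∨ ∀ i j, d (e (Sum.inr i)) (e (Sum.inl j)) = 0

theorem torb_mul_one {T : Type} [CommRing T] (x : SqCl T) : x * 1 = x := mul_one x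

theorem torb_one_mul {T : Type} [CommRing T] (x : SqCl T) : 1 * x = x := one_mul x

section
variable {A : Type} [Ring A] {T : Type} [CommRing T] {n : Type} [Fintype n] [DecidableEq n]
  {I J I₁ I₂ : Type} [Fintype I] [DecidableEq I] [Fintype J] [DecidableEq J]
  [Fintype I₁] [DecidableEq I₁] [Fintype I₂] [DecidableEq I₂]

theorem torb_mul_odd {K : Type} {p : I → Bool} {q : J → Bool} {r : K → Bool} {a : Matrix I J A}
    {b : Matrix J K A} (ha : ∀ i j, p i = q j → a i j = 0) (hb : ∀ j k, q j = r k → b j k = 0)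
    (i : I) (k : K) (h : p i ≠ r k) : (a * b) i k = 0 := by
  rw [Matrix.mul_apply]
  refine Finset.sum_eq_zero fun j _ => ?_
  by_cases h1 : p i = q j
  · rw [ha i j h1, zero_mul]
  · rw [hb j k (by revert h h1; cases p i <;> cases q j <;> cases r k <;> simp), mul_zero]

theorem torb_even_one (p : I → Bool) : IsEven p (1 : Matrix I I A) :=
  fun _ _ h => Matrix.one_apply_ne fun e => h (congrArg p e)

theorem torb_even_mul {p : I → Bool} {a b : Matrix I I A} (ha : IsEven p a) (hb : IsEven p b) :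
    IsEven p (a * b) := by
  intro i k h
  rw [Matrix.mul_apply]
  refine Finset.sum_eq_zero fun j _ => ?_
  by_cases h1 : p i = p j
  · rw [hb j k (h1 ▸ h), mul_zero]
  · rw [ha i j h1, zero_mul]

theorem torb_even_pow {p : I → Bool} {a : Matrix I I A} (ha : IsEven p a) (k : ℕ) :
    IsEven p (a ^ k) := by
  induction k with
  | zero => rw [pow_zero]; exact torb_even_one p
  | succ k ih => rw [pow_succ]; exact torb_even_mul ih ha

theorem torb_blocks {p₁ : I₁ → Bool} {p₂ : I₂ → Bool} {a : Matrix I₁ I₁ A} {b : Matrix I₁ I₂ A}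
    {c : Matrix I₂ I₁ A} {f : Matrix I₂ I₂ A} (h : IsCx (Sum.elim p₁ p₂) (fromBlocks a b c f))
    (h0 : b = 0 ∨ c = 0) : IsCx p₁ a ∧ IsCx p₂ f := by
  have h1 := h.sq
  rw [fromBlocks_multiply, ← fromBlocks_zero, fromBlocks_inj] at h1
  refine ⟨⟨fun i j k => h.odd (Sum.inl i) (Sum.inl j) k, ?_⟩,
    fun i j k => h.odd (Sum.inr i) (Sum.inr j) k, ?_⟩
  · rcases h0 with rfl | rfl <;> simpa using h1.1
  · rcases h0 with rfl | rfl <;> simpa using h1.2.2.2

theorem torb_conj {p₁ : I₁ → Bool} {p₂ : I₂ → Bool} {a : Matrix I₁ I₁ A} {b : Matrix I₁ I₂ A}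
    {c : Matrix I₂ I₁ A} {f : Matrix I₂ I₂ A} (h : IsCx (Sum.elim p₁ p₂) (fromBlocks a b c f))
    (h0 : b = 0 ∨ c = 0) (h2 : Contr p₂ f) :
    ∃ (x : Matrix I₁ I₂ A) (y : Matrix I₂ I₁ A), (x = 0 ∨ y = 0) ∧
      (∀ i j, p₁ i ≠ p₂ j → x i j = 0) ∧ (∀ i j, p₂ i ≠ p₁ j → y i j = 0) ∧
      fromBlocks 1 x y 1 * fromBlocks a b c f * fromBlocks 1 (-x) (-y) 1 = fromBlocks a 0 0 f := by
  obtain ⟨γ, hγ, h3⟩ := h2
  have h1 := h.sq
  rw [fromBlocks_multiply, ← fromBlocks_zero, fromBlocks_inj] at h1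
  rcases h0 with rfl | rfl
  · refine ⟨0, γ * c, Or.inl rfl, fun _ _ _ => rfl,
      torb_mul_odd hγ fun i j k => h.odd (Sum.inr i) (Sum.inl j) k, ?_⟩
    have h4 : γ * c * a + c + -(f * (γ * c)) = 0 := by
      have h5 : c * a = -(f * c) := eq_neg_of_add_eq_zero_left h1.2.2.1
      have h6 := congrArg (· * c) h3
      simp only [Matrix.add_mul, Matrix.one_mul, Matrix.mul_assoc] at h6
      rw [Matrix.mul_assoc, h5, Matrix.mul_neg]
      nth_rewrite 2 [← h6]
      abel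
    simp [fromBlocks_multiply, h4]
  · refine ⟨-(b * γ), 0, Or.inr rfl, fun i j k => ?_, fun _ _ _ => rfl, ?_⟩
    · rw [Matrix.neg_apply,
        torb_mul_odd (a := b) (fun i j k => h.odd (Sum.inl i) (Sum.inr j) k) hγ i j k, neg_zero]
    have h4 : a * (b * γ) + (b + -(b * γ * f)) = 0 := by
      have h5 : a * b = -(b * f) := eq_neg_of_add_eq_zero_left h1.2.1
      have h6 := congrArg (b * ·) h3
      simp only [Matrix.mul_add, Matrix.mul_one, ← Matrix.mul_assoc] at h6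
      rw [← Matrix.mul_assoc, h5, Matrix.neg_mul]
      nth_rewrite 2 [← h6]
      abel
    simp [fromBlocks_multiply, h4]

theorem torb_even_blocks {p₁ : I₁ → Bool} {p₂ : I₂ → Bool} {x : Matrix I₁ I₂ A}
    {y : Matrix I₂ I₁ A} (hx : ∀ i j, p₁ i ≠ p₂ j → x i j = 0)
    (hy : ∀ i j, p₂ i ≠ p₁ j → y i j = 0) : IsEven (Sum.elim p₁ p₂) (fromBlocks 1 x y 1) := by
  rintro (i | i) (j | j) k
  exacts [torb_even_one p₁ i j k, hx i j k, hy i j k, torb_even_one p₂ i j k]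

theorem torb_inv {x : Matrix I₁ I₂ A} {y : Matrix I₂ I₁ A} (h : x = 0 ∨ y = 0) :
    fromBlocks 1 (-x) (-y) 1 * fromBlocks 1 x y 1 = 1 ∧
      fromBlocks 1 x y 1 * fromBlocks 1 (-x) (-y) 1 = 1 := by
  rcases h with rfl | rfl <;> simp [fromBlocks_multiply]

theorem torb_contr_sum {p₁ : I₁ → Bool} {p₂ : I₂ → Bool} {a : Matrix I₁ I₁ A}
    {f : Matrix I₂ I₂ A} (h2 : Contr p₂ f) :
    Contr (Sum.elim p₁ p₂) (fromBlocks a 0 0 f) ↔ Contr p₁ a := by
  constructor
  · rintro ⟨Γ, h1, h3⟩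
    rw [← fromBlocks_toBlocks Γ, fromBlocks_multiply, fromBlocks_multiply, fromBlocks_add,
      ← fromBlocks_one, fromBlocks_inj] at h3
    exact ⟨Γ.toBlocks₁₁, fun i j k => h1 (Sum.inl i) (Sum.inl j) k, by simpa using h3.1⟩
  · obtain ⟨γ, hγ, h3⟩ := h2
    rintro ⟨Γ, h1, h4⟩
    refine ⟨fromBlocks Γ 0 0 γ, ?_, ?_⟩
    · rintro (i | i) (j | j) k
      exacts [h1 i j k, rfl, rfl, hγ i j k]
    · simp [fromBlocks_multiply, fromBlocks_add, h3, h4]

theorem torb_contr {p₁ : I₁ → Bool} {p₂ : I₂ → Bool} {a : Matrix I₁ I₁ A} {b : Matrix I₁ I₂ A}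
    {c : Matrix I₂ I₁ A} {f : Matrix I₂ I₂ A} (h : IsCx (Sum.elim p₁ p₂) (fromBlocks a b c f))
    (h0 : b = 0 ∨ c = 0) (h2 : Contr p₂ f) :
    Contr (Sum.elim p₁ p₂) (fromBlocks a b c f) ↔ Contr p₁ a := by
  obtain ⟨x, y, h1, hx, hy, h3⟩ := torb_conj h h0 h2
  have e1 := torb_even_blocks hx hy
  have e2 := torb_even_blocks (x := -x) (y := -y) (fun i j k => by rw [Matrix.neg_apply, hx i j k, neg_zero])
    fun i j k => by rw [Matrix.neg_apply, hy i j k, neg_zero]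
  obtain ⟨i1, i2⟩ := torb_inv h1
  rw [← torb_contr_sum (a := a) h2, ← h3]
  refine ⟨fun k => k.conj e1 e2 i1 i2, fun k => ?_⟩
  have := k.conj e2 e1 i2 i1
  rwa [← Matrix.mul_assoc, ← Matrix.mul_assoc, i1, Matrix.one_mul, Matrix.mul_assoc, i1,
    Matrix.mul_one] at this

theorem torb_sub (e : I₁ ⊕ I₂ ≃ I) (d : Matrix I I A) : d.submatrix e e =
    fromBlocks (d.submatrix (e ∘ Sum.inl) (e ∘ Sum.inl)) (d.submatrix (e ∘ Sum.inl) (e ∘ Sum.inr))
      (d.submatrix (e ∘ Sum.inr) (e ∘ Sum.inl)) (d.submatrix (e ∘ Sum.inr) (e ∘ Sum.inr)) := by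
  ext (i | i) (j | j) <;> rfl

theorem torb_par (e : I₁ ⊕ I₂ ≃ I) (p : I → Bool) :
    p ∘ e = Sum.elim (p ∘ e ∘ Sum.inl) (p ∘ e ∘ Sum.inr) := by
  ext (i | i) <;> rfl

theorem torb_tri {e : I₁ ⊕ I₂ ≃ I} {d : Matrix I I A} (h0 : Tri e d) :
    d.submatrix (e ∘ Sum.inl) (e ∘ Sum.inr) = 0 ∨ d.submatrix (e ∘ Sum.inr) (e ∘ Sum.inl) = 0 :=
  h0.imp (fun h => Matrix.ext h) fun h => Matrix.ext h

theorem torb_cx (e : I₁ ⊕ I₂ ≃ I) {p : I → Bool} {d : Matrix I I A} (h : IsCx p d) :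
    IsCx (Sum.elim (p ∘ e ∘ Sum.inl) (p ∘ e ∘ Sum.inr))
      (fromBlocks (d.submatrix (e ∘ Sum.inl) (e ∘ Sum.inl))
        (d.submatrix (e ∘ Sum.inl) (e ∘ Sum.inr)) (d.submatrix (e ∘ Sum.inr) (e ∘ Sum.inl))
        (d.submatrix (e ∘ Sum.inr) (e ∘ Sum.inr))) := by
  rw [← torb_sub, ← torb_par]
  exact (isCx_reindex e p d).2 h

theorem IsCx.split (e : I₁ ⊕ I₂ ≃ I) {p : I → Bool} {d : Matrix I I A} (h : IsCx p d)
    (h0 : Tri e d) :
    IsCx (p ∘ e ∘ Sum.inl) (d.submatrix (e ∘ Sum.inl) (e ∘ Sum.inl)) ∧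
      IsCx (p ∘ e ∘ Sum.inr) (d.submatrix (e ∘ Sum.inr) (e ∘ Sum.inr)) :=
  torb_blocks (torb_cx e h) (torb_tri h0)

theorem splitA (e : I₁ ⊕ I₂ ≃ I) {p : I → Bool} {d : Matrix I I A} (h : IsCx p d)
    (h0 : Tri e d) (h2 : Contr (p ∘ e ∘ Sum.inr) (d.submatrix (e ∘ Sum.inr) (e ∘ Sum.inr))) :
    Contr p d ↔ Contr (p ∘ e ∘ Sum.inl) (d.submatrix (e ∘ Sum.inl) (e ∘ Sum.inl)) := by
  rw [← torb_contr (torb_cx e h) (torb_tri h0) h2, ← torb_sub, ← torb_par, contr_reindex]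

theorem splitT [Nice T] (e : I₁ ⊕ I₂ ≃ I) {p : I → Bool} {d : Matrix I I T} (h : IsCx p d)
    (h0 : Tri e d) (h1 : Contr p d)
    (h2 : Contr (p ∘ e ∘ Sum.inr) (d.submatrix (e ∘ Sum.inr) (e ∘ Sum.inr))) :
    tor p d = tor (p ∘ e ∘ Sum.inl) (d.submatrix (e ∘ Sum.inl) (e ∘ Sum.inl)) *
      tor (p ∘ e ∘ Sum.inr) (d.submatrix (e ∘ Sum.inr) (e ∘ Sum.inr)) := by
  obtain ⟨x, y, h3, hx, hy, h4⟩ := torb_conj (torb_cx e h) (torb_tri h0) h2
  have e1 := torb_even_blocks hx hy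
  have e2 := torb_even_blocks (x := -x) (y := -y) (fun i j k => by rw [Matrix.neg_apply, hx i j k, neg_zero])
    fun i j k => by rw [Matrix.neg_apply, hy i j k, neg_zero]
  have h5 : (fromBlocks 1 x y 1).det = 1 := by
    rcases h3 with rfl | rfl
    · rw [det_fromBlocks_zero₁₂]; simp
    · rw [det_fromBlocks_zero₂₁]; simp
  have h6 := tor_conj (torb_cx e h)
    ((torb_contr (torb_cx e h) (torb_tri h0) h2).2 ((splitA e h h0 h2).1 h1)) e1 e2 (torb_inv h3).1
  rw [h4, h5, cls_one, torb_mul_one, ← torb_sub, tor_sum (h.split e h0).1 (h.split e h0).2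
    ((splitA e h h0 h2).1 h1) h2, ← torb_par, tor_reindex e h h1] at h6
  exact h6.symm

theorem flat_mul (ρ : A →+* Matrix n n T) {K : Type} (a : Matrix I J A) (b : Matrix J K A) :
    flat ρ (a * b) = flat ρ a * flat ρ b := by
  ext x y
  simp only [flat_apply, Matrix.mul_apply, Fintype.sum_prod_type, map_sum, Matrix.sum_apply, map_mul]

theorem flat_one (ρ : A →+* Matrix n n T) : flat ρ (1 : Matrix I I A) = 1 := by
  ext ⟨i, k⟩ ⟨j, l⟩
  by_cases h : i = j
  · subst h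
    simp [flat_apply, Matrix.one_apply]
  · simp [flat_apply, h]

theorem torb_flat_add (ρ : A →+* Matrix n n T) (a b : Matrix I J A) :
    flat ρ (a + b) = flat ρ a + flat ρ b := by
  ext x y
  simp [flat_apply]

theorem torb_flat_zero (ρ : A →+* Matrix n n T) : flat ρ (0 : Matrix I J A) = 0 := by
  ext x y
  simp [flat_apply]

theorem torb_flat_odd (ρ : A →+* Matrix n n T) {p : I → Bool} {d : Matrix I I A} (h : IsOdd p d) :
    IsOdd (fp n p) (flat ρ d) := fun x y k => by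
  rw [flat_apply, h _ _ k, map_zero, Matrix.zero_apply]

theorem torb_flat_even (ρ : A →+* Matrix n n T) {p : I → Bool} {d : Matrix I I A}
    (h : IsEven p d) : IsEven (fp n p) (flat ρ d) := fun x y k => by
  rw [flat_apply, h _ _ k, map_zero, Matrix.zero_apply]

theorem IsCx.flat (ρ : A →+* Matrix n n T) {p : I → Bool} {d : Matrix I I A} (h : IsCx p d) :
    IsCx (fp n p) (flat ρ d) :=
  ⟨torb_flat_odd ρ h.odd, by rw [← flat_mul, h.sq, torb_flat_zero]⟩

theorem Contr.flat (ρ : A →+* Matrix n n T) {p : I → Bool} {d : Matrix I I A} (h : Contr p d) :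
    Contr (fp n p) (flat ρ d) := by
  obtain ⟨Γ, h1, h2⟩ := h
  exact ⟨MP35.flat ρ Γ, torb_flat_odd ρ h1, by
    rw [← flat_mul, ← flat_mul, ← torb_flat_add, h2, flat_one]⟩

theorem ftor_reindex [Nice T] (ρ : A →+* Matrix n n T) (e : J ≃ I) {p : I → Bool}
    {d : Matrix I I A} (h : IsCx p d) (hc : Contr (fp n p) (flat ρ d)) :
    ftor ρ (p ∘ e) (d.submatrix e e) = ftor ρ p d :=
  tor_reindex (e.prodCongr (Equiv.refl n)) (h.flat ρ) hc

theorem ftor_conj [Nice T] (ρ : A →+* Matrix n n T) {p : I → Bool} {d g g' : Matrix I I A}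
    (h : IsCx p d) (hc : Contr (fp n p) (flat ρ d)) (hg : IsEven p g) (hg' : IsEven p g')
    (h1 : g' * g = 1) : ftor ρ p (g * d * g') = ftor ρ p d * cls (flat ρ g).det := by
  rw [ftor, flat_mul, flat_mul]
  exact tor_conj (h.flat ρ) hc (torb_flat_even ρ hg) (torb_flat_even ρ hg')
    (by rw [← flat_mul, h1, flat_one])

theorem splitF [Nice T] (ρ : A →+* Matrix n n T) (e : I₁ ⊕ I₂ ≃ I) {p : I → Bool}
    {d : Matrix I I A} (h : IsCx p d) (h0 : Tri e d)
    (h2 : Contr (fp n (p ∘ e ∘ Sum.inr)) (flat ρ (d.submatrix (e ∘ Sum.inr) (e ∘ Sum.inr)))) :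
    (Contr (fp n p) (flat ρ d) ↔
      Contr (fp n (p ∘ e ∘ Sum.inl)) (flat ρ (d.submatrix (e ∘ Sum.inl) (e ∘ Sum.inl)))) ∧
    (Contr (fp n p) (flat ρ d) →
      ftor ρ p d = ftor ρ (p ∘ e ∘ Sum.inl) (d.submatrix (e ∘ Sum.inl) (e ∘ Sum.inl)) *
        ftor ρ (p ∘ e ∘ Sum.inr) (d.submatrix (e ∘ Sum.inr) (e ∘ Sum.inr))) := by
  let E : (I₁ × n) ⊕ (I₂ × n) ≃ I × n :=
    (Equiv.sumProdDistrib I₁ I₂ n).symm.trans (e.prodCongr (Equiv.refl n))
  have h1 : Tri E (flat ρ d) :=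
    h0.imp (fun k x y => (congrArg (fun z => ρ z x.2 y.2) (k x.1 y.1)).trans (by simp))
      fun k x y => (congrArg (fun z => ρ z x.2 y.2) (k x.1 y.1)).trans (by simp)
  exact ⟨splitA E (h.flat ρ) h1 h2, fun k => splitT E (h.flat ρ) h1 k h2⟩

/-- A matrix which is triangular for a rank function has the product of its diagonal entries as
determinant. -/
theorem det_of_rank (g : Matrix I I T) (rk : I → ℕ)
    (h : ∀ i j, g i j ≠ 0 → i = j ∨ rk j < rk i) : g.det = ∏ i, g i i := by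
  rw [det_apply, Finset.sum_eq_single 1]
  · simp
  · intro σ _ hσ
    obtain ⟨i, hi⟩ : ∃ i, g (σ i) i = 0 := by
      by_contra k
      have k1 : ∀ i, σ i = i ∨ rk i < rk (σ i) := fun i => h _ _ fun e => k ⟨i, e⟩
      obtain ⟨i, hi⟩ : ∃ i, σ i ≠ i := by
        by_contra k2
        exact hσ (Equiv.ext fun i => not_not.1 fun e => k2 ⟨i, e⟩)
      have k3 : ∑ i, rk i < ∑ i, rk (σ i) :=
        Finset.sum_lt_sum (fun i _ => (k1 i).elim (fun e => by rw [e]) le_of_lt)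
          ⟨i, Finset.mem_univ i, (k1 i).resolve_left hi⟩
      rw [Equiv.sum_comp σ rk] at k3
      exact lt_irrefl _ k3
    rw [Finset.prod_eq_zero (f := fun i => g (σ i) i) (Finset.mem_univ i) hi, smul_zero]
  · simp

theorem torb_pow_rank {N : Matrix I I A} {rk : I → ℕ} (h : ∀ i j, N i j ≠ 0 → rk j < rk i)
    (k : ℕ) : ∀ i j, (N ^ k) i j ≠ 0 → rk j + k ≤ rk i := by
  induction k with
  | zero =>
    intro i j h1
    by_cases e : i = j
    · simp [e]
    · exact absurd (by rw [pow_zero, Matrix.one_apply_ne e]) h1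
  | succ k ih =>
    intro i j h1
    rw [pow_succ, Matrix.mul_apply] at h1
    obtain ⟨l, -, h2⟩ := Finset.exists_ne_zero_of_sum_ne_zero h1
    have h3 := ih i l (left_ne_zero_of_mul h2)
    have h4 := h l j (right_ne_zero_of_mul h2)
    omega

theorem torb_unip {p : I → Bool} {N : Matrix I I A} {rk : I → ℕ} (hN : IsEven p N)
    (h : ∀ i j, N i j ≠ 0 → rk j < rk i) :
    ∃ g' : Matrix I I A, IsEven p g' ∧ g' * (1 + N) = 1 ∧ (1 + N) * g' = 1 := by
  have h1 : (-N) ^ (Finset.univ.sup rk + 1) = 0 := by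
    ext i j
    by_contra k
    have h2 := torb_pow_rank (N := -N) (rk := rk) (fun i j e => h i j (neg_ne_zero.1 e)) _ i j k
    have h3 : rk i ≤ Finset.univ.sup rk := Finset.le_sup (Finset.mem_univ i)
    omega
  refine ⟨∑ k ∈ Finset.range (Finset.univ.sup rk + 1), (-N) ^ k, fun i j e => ?_, ?_, ?_⟩
  · rw [Matrix.sum_apply]
    exact Finset.sum_eq_zero fun k _ =>
      torb_even_pow (a := -N) (fun i j e => by rw [Matrix.neg_apply, hN i j e, neg_zero]) k i j e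
  · rw [← sub_neg_eq_add, geom_sum_mul_neg, h1, sub_zero]
  · rw [← sub_neg_eq_add, mul_neg_geom_sum, h1, sub_zero]

theorem torb_det_unip (ρ : A →+* Matrix n n T) {N : Matrix I I A} {rk : I → ℕ}
    (h : ∀ i j, N i j ≠ 0 → rk j < rk i) : (flat ρ (1 + N)).det = 1 := by
  have h1 : ∀ x y : I × n, ¬ rk y.1 < rk x.1 → flat ρ N x y = 0 := fun x y k => by
    rw [flat_apply, not_not.1 (mt (h _ _) k), map_zero, Matrix.zero_apply]
  rw [torb_flat_add, flat_one, det_of_rank _ (fun x => rk x.1) fun x y k => ?_]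
  · exact Finset.prod_eq_one fun x _ => by rw [Matrix.add_apply, h1 x x (lt_irrefl _), Matrix.one_apply_eq, add_zero]
  · by_contra k2
    rw [not_or] at k2
    exact k (by rw [Matrix.add_apply, h1 x y k2.2, Matrix.one_apply_ne k2.1, add_zero])

theorem torb_cls_unit (ρ : A →+* Matrix n n T) (u : Aˣ) : IsUnit (ρ u).det :=
  (isUnit_iff_isUnit_det _).1 (u.isUnit.map ρ)

theorem torb_cls_inv (ρ : A →+* Matrix n n T) (u : Aˣ) (h : cls (ρ u).det = 1) :
    cls (ρ (u⁻¹ : Aˣ)).det = 1 := by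
  have := cls_mul (torb_cls_unit ρ u) (torb_cls_unit ρ u⁻¹)
  rw [← det_mul, ← map_mul, Units.mul_inv, map_one, det_one, cls_one, h, torb_one_mul] at this
  exact this.symm

theorem torb_match [Nice T] (ρ : A →+* Matrix n n T) {p : I → Bool} {d Γ : Matrix I I A}
    (h : IsCx p d) (hΓ : IsOdd p Γ) (h1 : d * Γ + Γ * d = 1) (h2 : Γ * Γ = 0) (m : I → I)
    (hm : ∀ i, m (m i) = i) (hp : ∀ i, p (m i) = !p i) (v : I → Aˣ)
    (hv : ∀ i, cls (ρ (v i)).det = 1)
    (h3 : ∀ i j, (d + Γ) i (m j) = if i = j then (v i : A) else 0) : ftor ρ p d = 1 := by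
  let e : {x : I × n // fp n p x = true} ≃ {x : I × n // fp n p x = false} :=
    { toFun := fun x => ⟨(m x.1.1, x.1.2), by
        have := x.2
        simp only [fp] at this ⊢
        rw [hp, this]; rfl⟩
      invFun := fun x => ⟨(m x.1.1, x.1.2), by
        have := x.2
        simp only [fp] at this ⊢
        rw [hp, this]; rfl⟩
      left_inv := fun x => Subtype.ext (Prod.ext (hm _) rfl)
      right_inv := fun x => Subtype.ext (Prod.ext (hm _) rfl) }
  let E : n × {i // p i = true} ≃ {x : I × n // fp n p x = true} :=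
    { toFun := fun x => ⟨(x.2.1, x.1), x.2.2⟩
      invFun := fun x => (x.1.2, ⟨x.1.1, x.2⟩)
      left_inv := fun _ => rfl
      right_inv := fun _ => rfl }
  have h4 := (tor_eq (h.flat ρ) (torb_flat_odd ρ hΓ)
    (by rw [← flat_mul, ← flat_mul, ← torb_flat_add, h1, flat_one])
    (by rw [← flat_mul, h2, torb_flat_zero]) e).2
  have h5 : (torMat (fp n p) (flat ρ d + flat ρ Γ) e).submatrix E E =
      blockDiagonal fun i : {i // p i = true} => ρ (v i.1) := by
    ext ⟨k, i⟩ ⟨l, j⟩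
    rw [← torb_flat_add, blockDiagonal_apply]
    change ρ ((d + Γ) i.1 (m j.1)) k l = if i = j then ρ (v i.1) k l else 0
    rw [h3]
    by_cases hij : i = j
    · rw [if_pos hij, if_pos (congrArg Subtype.val hij)]
    · rw [if_neg hij, if_neg fun e => hij (Subtype.ext e), map_zero, Matrix.zero_apply]
  rw [ftor, h4, ← det_submatrix_equiv_self E, h5, det_blockDiagonal,
    cls_prod _ _ fun i _ => torb_cls_unit ρ _]
  exact Finset.prod_eq_one fun i _ => hv _

/-- Algebraic matching lemma. -/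
theorem aml [Nice T] (ρ : A →+* Matrix n n T) {p : I → Bool} {d : Matrix I I A} (h : IsCx p d)
    (m : I → I) (rk : I → ℕ) (up : I → Prop) (hm : ∀ i, m (m i) = i)
    (hup : ∀ i, up (m i) ↔ ¬ up i) (hp : ∀ i, p (m i) = !p i) (hrk : ∀ i, rk (m i) = rk i)
    (hu : ∀ i, up i → ∃ u : Aˣ, d i (m i) = u ∧ cls (ρ u).det = 1)
    (hlow : ∀ i j, d i j ≠ 0 → (up i ∧ j = m i) ∨ rk j < rk i) : Triv ρ p d := by
  classical
  have hu' : ∀ i, ∃ u : Aˣ, (up i → d i (m i) = u) ∧ cls (ρ u).det = 1 := fun i => by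
    by_cases k : up i
    · obtain ⟨u, h1, h2⟩ := hu i k
      exact ⟨u, fun _ => h1, h2⟩
    · exact ⟨1, fun k' => absurd k' k, by rw [Units.val_one, map_one, det_one, cls_one]⟩
  choose u hu1 hu2 using hu'
  have minj : ∀ i j, m i = m j ↔ i = j := fun i j =>
    ⟨fun e => by rw [← hm i, e, hm], congrArg m⟩
  have hpm : ∀ i, p i ≠ p (m i) := fun i => by rw [hp]; cases p i <;> simp
  let d0 : Matrix I I A := of fun i j => if up i ∧ j = m i then (u i : A) else 0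
  let Γ : Matrix I I A := of fun j i => if up i ∧ j = m i then ((u i)⁻¹ : Aˣ) else 0
  have hd0 : ∀ i j, d0 i j = if up i ∧ j = m i then (u i : A) else 0 := fun _ _ => rfl
  have hΓ : ∀ j i, Γ j i = if up i ∧ j = m i then (((u i)⁻¹ : Aˣ) : A) else 0 := fun _ _ => rfl
  have ml : ∀ (b : Matrix I I A) i k, (d0 * b) i k = d0 i (m i) * b (m i) k := fun b i k => by
    rw [Matrix.mul_apply, Finset.sum_eq_single (m i) (fun j _ e => by rw [hd0, if_neg fun k => e k.2, zero_mul])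
      fun e => absurd (Finset.mem_univ _) e]
  have mr : ∀ (b : Matrix I I A) i k, (b * Γ) i k = b i (m k) * Γ (m k) k := fun b i k => by
    rw [Matrix.mul_apply, Finset.sum_eq_single (m k) (fun j _ e => by rw [hΓ, if_neg fun k => e k.2, mul_zero])
      fun e => absurd (Finset.mem_univ _) e]
  have c0 : IsCx p d0 := by
    refine ⟨fun i j e => ?_, Matrix.ext fun i k => ?_⟩
    · rw [hd0, if_neg fun k : up i ∧ j = m i => hpm i (k.2 ▸ e)]
    · rw [ml, hd0, hd0]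
      by_cases k : up i <;> simp [k, hup]
  have oΓ : IsOdd p Γ := fun j i e => by 
    rw [hΓ, if_neg fun k : up i ∧ j = m i => hpm i (k.2 ▸ e).symm]
  have sΓ : Γ * Γ = 0 := by
    ext i k
    rw [mr, hΓ, hΓ]
    by_cases e : up k <;> simp [e, hup]
  have h1 : d0 * Γ + Γ * d0 = 1 := by
    ext i k
    rw [Matrix.add_apply, ml, Matrix.mul_apply, Finset.sum_eq_single (m i) (fun j _ e => by
      rw [hΓ, if_neg fun k : up j ∧ i = m j => e (by rw [k.2, hm]), zero_mul]) fun e => absurd (Finset.mem_univ _) e,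
      hd0, hd0, hΓ, hΓ, Matrix.one_apply]
    by_cases e : i = k
    · subst e
      by_cases e' : up i <;> simp [e', hup, hm]
    · simp [e, Ne.symm e, minj, hm]
  have hlow' : ∀ i j, (d - d0) i j ≠ 0 → rk j < rk i := fun i j e => by
    rw [Matrix.sub_apply, hd0] at e
    by_cases k : up i ∧ j = m i
    · rw [if_pos k, k.2, hu1 i k.1, sub_self] at e
      exact absurd rfl e
    · rw [if_neg k, sub_zero] at e
      exact (hlow i j e).resolve_left k
  have hN : ∀ i j, ((d - d0) * Γ) i j ≠ 0 → rk j < rk i := fun i j e => by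
    rw [mr] at e
    exact hrk j ▸ hlow' _ _ (left_ne_zero_of_mul e)
  have eN : IsEven p ((d - d0) * Γ) :=
    torb_mul_odd (fun i j e => by rw [Matrix.sub_apply, h.odd i j e, c0.odd i j e, sub_zero]) oΓ
  obtain ⟨g', e1, i1, i2⟩ := torb_unip eN hN
  have e2 : IsEven p (1 + (d - d0) * Γ) := fun i j e => by
    rw [Matrix.add_apply, torb_even_one p i j e, eN i j e, add_zero]
  have h2 : (1 + (d - d0) * Γ) * d0 = d * (1 + (d - d0) * Γ) := by
    have h3 : Γ * d0 = 1 - d0 * Γ := eq_sub_of_add_eq' h1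
    have h4 : d * (d * Γ) = 0 := by rw [← mul_assoc, h.sq, zero_mul]
    have h5 : d0 * (d0 * Γ) = 0 := by rw [← mul_assoc, c0.sq, zero_mul]
    simp only [add_mul, mul_add, sub_mul, mul_sub, mul_assoc, h3, h4, h5, mul_one, one_mul]
    abel
  have h3 : (1 + (d - d0) * Γ) * d0 * g' = d := by rw [h2, mul_assoc, i2, mul_one]
  have k0 : Contr p d0 := ⟨Γ, oΓ, h1⟩
  refine ⟨h, h3 ▸ k0.conj e2 e1 i1 i2, ?_⟩
  have h4 := ftor_conj ρ c0 (k0.flat ρ) e2 e1 i1
  rw [h3, torb_det_unip ρ hN, cls_one, torb_mul_one] at h4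
  rw [h4]
  refine torb_match ρ c0 oΓ h1 sΓ m hm hp (fun i => if up i then u i else (u (m i))⁻¹)
    (fun i => ?_) fun i j => ?_
  · by_cases k : up i
    · simp only [if_pos k, hu2]
    · simp only [if_neg k, torb_cls_inv ρ _ (hu2 _)]
  · rw [Matrix.add_apply, hd0, hΓ]
    by_cases e : i = j
    · subst e
      by_cases e' : up i <;> simp [e', hup, hm]
    · simp [e, Ne.symm e, minj, hm]

theorem amlT [Nice T] {p : I → Bool} {d : Matrix I I T} (h : IsCx p d)
    (m : I → I) (rk : I → ℕ) (up : I → Prop) (hm : ∀ i, m (m i) = i)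
    (hup : ∀ i, up (m i) ↔ ¬ up i) (hp : ∀ i, p (m i) = !p i) (hrk : ∀ i, rk (m i) = rk i)
    (hu : ∀ i, up i → IsUnit (d i (m i)) ∧ cls (d i (m i)) = 1)
    (hlow : ∀ i j, d i j ≠ 0 → (up i ∧ j = m i) ∨ rk j < rk i) : TrivT p d := by
  have h1 := aml (Matrix.scalar Unit) h m rk up hm hup hp hrk (fun i k =>
    ⟨(hu i k).1.unit, (hu i k).1.unit_spec.symm, by simpa using (hu i k).2⟩) hlow
  refine ⟨h, h1.con, ?_⟩
  have h2 : flat (Matrix.scalar Unit) d = d.submatrix (Equiv.prodPUnit I) (Equiv.prodPUnit I) := by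
    ext x y
    simp [flat_apply]
  rw [← tor_reindex (Equiv.prodPUnit I) h h1.con, ← h2]
  exact h1.tor

end

end MP35
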