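import Pool.Agent.Lib.MP_35c604_gt.IncL
import Pool.Agent.Lib.MP_35c604_gt.TorB
import Pool.Agent.Lib.MP_35c604_gt.FoxW
import Pool.Agent.Lib.MP_35c604_gt.ADet

/-! TASK BUILD: complexes built by stages. -/

namespace MP35

open Matrix SC

variable {V : Type} [DecidableEq V]

theorem build_card3 {x y z : V} (h1 : x ≠ y) (h2 : x ≠ z) (h3 : y ≠ z) :
    ({x, y, z} : Finset V).card = 3 :=
  Finset.card_eq_three.2 ⟨x, y, z, h1, h2, h3, rfl⟩

theorem build_pair_eq {x y u v : V} (h : ({x, y} : Finset V) = {u, v}) :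
    (x = u ∧ y = v) ∨ (x = v ∧ y = u) := by
  have := congrArg (fun s : Finset V => (s : Set V)) h
  simp only [Finset.coe_insert, Finset.coe_singleton] at this
  exact Set.pair_eq_pair_iff.1 this

theorem build_pair_single {x y v : V} (h : ({x, y} : Finset V) = {v}) : x = v ∧ y = v := by
  have hx : x ∈ ({v} : Finset V) := h ▸ by simp
  have hy : y ∈ ({v} : Finset V) := h ▸ by simp
  exact ⟨Finset.mem_singleton.1 hx, Finset.mem_singleton.1 hy⟩

theorem build_coc_self {G : Type} [Group G] {K : SC V} {e : V → V → G} (he : K.IsCoc e) {u : V}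
    (hu : ({u} : Finset V) ∈ K.faces) : e u u = 1 := by
  have := he u u u (by simpa using hu)
  simpa using this

theorem build_coc_inv {G : Type} [Group G] {K : SC V} {e : V → V → G} (he : K.IsCoc e) {u v : V}
    (huv : ({u, v} : Finset V) ∈ K.faces) : e v u = (e u v)⁻¹ := by
  have h1 := he u v u (by
    have : ({u, v, u} : Finset V) = {u, v} := by ext x; simp only [Finset.mem_insert, Finset.mem_singleton]; tauto
    rw [this]; exact huv)
  rw [build_coc_self he (K.down _ huv _ (by simp) (by simp))] at h1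
  exact eq_inv_of_mul_eq_one_right h1

theorem build_inv {b : V} {ψ : V → V → F2} {S : Finset (Finset V)} {J : Finset (Fin 2)}
    (hS : Stage b ψ S J) : ({b} : Finset V) ∈ S ∧ (∀ s ∈ S, s.card ≤ 3) ∧
      ∀ s ∈ S, ∀ v ∈ s, ({v} : Finset V) ∈ S := by
  induction hS with
  | base =>
    refine ⟨by simp, ?_, ?_⟩
    · intro s hs; rw [Finset.mem_singleton.1 hs]; simp
    · intro s hs v hv
      rw [Finset.mem_singleton.1 hs] at hv
      rw [Finset.mem_singleton.1 hv]; simp
  | v S J a v _ ha hv hav h1 ih =>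
    obtain ⟨i1, i2, i3⟩ := ih
    refine ⟨by simp [i1], ?_, ?_⟩
    · intro s hs
      simp only [Finset.mem_insert] at hs
      rcases hs with rfl | rfl | hs
      · exact Finset.card_le_two.trans (by norm_num)
      · simp
      · exact i2 s hs
    · intro s hs w hw
      simp only [Finset.mem_insert] at hs
      rcases hs with rfl | rfl | hs
      · simp only [Finset.mem_insert, Finset.mem_singleton] at hw
        rcases hw with rfl | rfl
        · simp [ha]
        · simp
      · rw [Finset.mem_singleton.1 hw]; simp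
      · simp [i3 s hs w hw]
  | g S J i u v _ hu hv huv hn hi h1 ih =>
    obtain ⟨i1, i2, i3⟩ := ih
    refine ⟨by simp [i1], ?_, ?_⟩
    · intro s hs
      simp only [Finset.mem_insert] at hs
      rcases hs with rfl | hs
      · exact Finset.card_le_two.trans (by norm_num)
      · exact i2 s hs
    · intro s hs w hw
      simp only [Finset.mem_insert] at hs
      rcases hs with rfl | hs
      · simp only [Finset.mem_insert, Finset.mem_singleton] at hw
        rcases hw with rfl | rfl
        · simp [hu]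
        · simp [hv]
      · simp [i3 s hs w hw]
  | e S u a v _ hua hav h1 h2 h3 hn hn' ih =>
    obtain ⟨i1, i2, i3⟩ := ih
    have hu := i3 _ hua u (by simp)
    have ha := i3 _ hua a (by simp)
    have hv := i3 _ hav v (by simp)
    refine ⟨by simp [i1], ?_, ?_⟩
    · intro s hs
      simp only [Finset.mem_insert] at hs
      rcases hs with rfl | rfl | hs
      · exact Finset.card_le_three
      · exact Finset.card_le_two.trans (by norm_num)
      · exact i2 s hs
    · intro s hs w hw
      simp only [Finset.mem_insert] at hs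
      rcases hs with rfl | rfl | hs
      · simp only [Finset.mem_insert, Finset.mem_singleton] at hw
        rcases hw with rfl | rfl | rfl
        · simp [hu]
        · simp [ha]
        · simp [hv]
      · simp only [Finset.mem_insert, Finset.mem_singleton] at hw
        rcases hw with rfl | rfl
        · simp [hu]
        · simp [hv]
      · simp [i3 s hs w hw]

theorem build_theta {B : SC V} {b : V} {ψ : V → V → F2} (hψ : B.IsCoc ψ) {P : Type} [Group P]
    {e : V → V → P} (he : B.IsCoc e) {S : Finset (Finset V)} {J : Finset (Fin 2)}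
    (hS : Stage b ψ S J) : S ⊆ B.faces → ∃ (g : V → P) (y : Fin 2 → P), g b = 1 ∧
      ∀ y' : Fin 2 → P, (∀ i ∈ J, y' i = y i) → ∀ u v, ({u, v} : Finset V) ∈ S →
        FreeGroup.lift y' (ψ u v) = g u * e u v * (g v)⁻¹ := by
  have symm : ∀ (g : V → P) (y' : Fin 2 → P) (u v : V), ({u, v} : Finset V) ∈ B.faces →
      FreeGroup.lift y' (ψ u v) = g u * e u v * (g v)⁻¹ →
      FreeGroup.lift y' (ψ v u) = g v * e v u * (g u)⁻¹ := by
    intro g y' u v huv h
    rw [build_coc_inv hψ huv, build_coc_inv he huv, map_inv, h]; group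
  have diag : ∀ (g : V → P) (y' : Fin 2 → P) (u : V), ({u} : Finset V) ∈ B.faces →
      FreeGroup.lift y' (ψ u u) = g u * e u u * (g u)⁻¹ := by
    intro g y' u hu
    rw [build_coc_self hψ hu, build_coc_self he hu, map_one]; group
  induction hS with
  | base =>
    intro hB
    refine ⟨fun _ => 1, fun _ => 1, rfl, fun y' _ u v huv => ?_⟩
    obtain ⟨rfl, rfl⟩ := build_pair_single (Finset.mem_singleton.1 huv)
    exact diag (fun _ => 1) y' _ (hB (by simp))
  | v S J a v hS ha hv hav h1 ih =>
    intro hB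
    obtain ⟨g, y, hg, ih⟩ := ih (fun s hs => hB (by simp [hs]))
    obtain ⟨i1, -, i3⟩ := build_inv hS
    have hne : ∀ w, ({w} : Finset V) ∈ S → w ≠ v := fun w hw h => hv (h ▸ hw)
    refine ⟨Function.update g v (g a * e a v), y, by rw [Function.update_of_ne (hne b i1), hg],
      fun y' hy x z hxz => ?_⟩
    have key : FreeGroup.lift y' (ψ a v) = Function.update g v (g a * e a v) a * e a v *
        (Function.update g v (g a * e a v) v)⁻¹ := by
      rw [Function.update_of_ne (hne a ha), Function.update_self, h1, map_one]; group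
    simp only [Finset.mem_insert] at hxz
    rcases hxz with h | h | h
    · rcases build_pair_eq h with ⟨rfl, rfl⟩ | ⟨rfl, rfl⟩
      · exact key
      · exact symm _ y' _ _ (hB (by simp)) key
    · obtain ⟨rfl, rfl⟩ := build_pair_single h
      exact diag _ y' _ (hB (by simp))
    · rw [Function.update_of_ne (hne x (i3 _ h x (by simp))),
        Function.update_of_ne (hne z (i3 _ h z (by simp)))]
      exact ih y' hy x z h
  | g S J i u v hS hu hv huv hn hi h1 ih =>
    intro hB
    obtain ⟨g, y, hg, ih⟩ := ih (fun s hs => hB (by simp [hs]))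
    refine ⟨g, Function.update y i (g u * e u v * (g v)⁻¹), hg, fun y' hy x z hxz => ?_⟩
    have key : FreeGroup.lift y' (ψ u v) = g u * e u v * (g v)⁻¹ := by
      rw [h1, FreeGroup.lift_apply_of, hy i (by simp), Function.update_self]
    simp only [Finset.mem_insert] at hxz
    rcases hxz with h | h
    · rcases build_pair_eq h with ⟨rfl, rfl⟩ | ⟨rfl, rfl⟩
      · exact key
      · exact symm _ y' _ _ (hB (by simp)) key
    · refine ih y' (fun j hj => ?_) x z h
      rw [hy j (by simp [hj]), Function.update_of_ne (fun h : j = i => hi (h ▸ hj))]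
  | e S u a v hS hua hav h1 h2 h3 hn hn' ih =>
    intro hB
    obtain ⟨g, y, hg, ih⟩ := ih (fun s hs => hB (by simp [hs]))
    refine ⟨g, y, hg, fun y' hy x z hxz => ?_⟩
    have key : FreeGroup.lift y' (ψ u v) = g u * e u v * (g v)⁻¹ := by
      rw [← hψ u a v (hB (by simp)), ← he u a v (hB (by simp)), map_mul, ih y' hy u a hua,
        ih y' hy a v hav]
      group
    simp only [Finset.mem_insert] at hxz
    rcases hxz with h | h | h
    · have := build_card3 h2 h1 h3
      rw [← h] at this
      have h' : ({x, z} : Finset V).card ≤ 2 := Finset.card_le_two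
      omega
    · rcases build_pair_eq h with ⟨rfl, rfl⟩ | ⟨rfl, rfl⟩
      · exact key
      · exact symm _ y' _ _ (hB (by simp)) key
    · exact ih y' hy x z h

theorem Stage.theta {B : SC V} {b : V} {ψ : V → V → F2} (hS : Stage b ψ B.faces Finset.univ)
    (hψ : B.IsCoc ψ) (P : Type) [Group P] (e : V → V → P) (he : B.IsCoc e) :
    ∃ θ : F2 →* P, ∀ a c, ({b, a} : Finset V) ∈ B.faces → ({a, c} : Finset V) ∈ B.faces →
      ({b, c} : Finset V) ∈ B.faces → θ (ψ b a * ψ a c * ψ c b) = e b a * e a c * e c b := by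
  obtain ⟨g, y, hg, h⟩ := build_theta hψ he hS (fun _ h => h)
  refine ⟨FreeGroup.lift y, fun a c h1 h2 h3 => ?_⟩
  rw [map_mul, map_mul, h y (fun _ _ => rfl) b a h1, h y (fun _ _ => rfl) a c h2,
    h y (fun _ _ => rfl) c b (by rwa [Finset.pair_comm]), hg]
  group

theorem build_mono {S S' : Finset (Finset V)} (h : S ⊆ S') {u v : V}
    (huv : Relation.ReflTransGen (fun x y => ({x, y} : Finset V) ∈ S) u v) :
    Relation.ReflTransGen (fun x y => ({x, y} : Finset V) ∈ S') u v := by
  induction huv with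
  | refl => exact Relation.ReflTransGen.refl
  | tail _ h' ih => exact ih.tail (h h')

theorem build_path {b : V} {ψ : V → V → F2} {S : Finset (Finset V)} {J : Finset (Fin 2)}
    (hS : Stage b ψ S J) : ∀ v, ({v} : Finset V) ∈ S →
      Relation.ReflTransGen (fun x y => ({x, y} : Finset V) ∈ S) b v := by
  induction hS with
  | base =>
    intro v hv
    rw [Finset.singleton_injective (Finset.mem_singleton.1 hv)]
  | v S J a v _ ha hv hav h1 ih =>
    intro w hw
    have mono : ∀ w, ({w} : Finset V) ∈ S → Relation.ReflTransGen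
        (fun x y => ({x, y} : Finset V) ∈ insert {a, v} (insert {v} S)) b w :=
      fun w hw => build_mono (fun s h => by simp [h]) (ih w hw)
    have hv' := (mono a ha).tail (show ({a, v} : Finset V) ∈ insert {a, v} (insert {v} S) by simp)
    simp only [Finset.mem_insert] at hw
    rcases hw with h | h | h
    · rw [← (build_pair_single h.symm).2]; exact hv'
    · rw [Finset.singleton_injective h]; exact hv'
    · exact mono w h
  | g S J i u v _ hu hv huv hn hi h1 ih =>
    intro w hw
    simp only [Finset.mem_insert] at hw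
    rcases hw with h | h
    · obtain ⟨h1, h2⟩ := build_pair_single h.symm
      exact absurd (h1.trans h2.symm) huv
    · exact build_mono (fun s h => by simp [h]) (ih w h)
  | e S u a v _ hua hav h1 h2 h3 hn hn' ih =>
    intro w hw
    simp only [Finset.mem_insert] at hw
    rcases hw with h | h | h
    · have := build_card3 h2 h1 h3
      rw [← h] at this
      simp at this
    · obtain ⟨h4, h5⟩ := build_pair_single h.symm
      exact absurd (h4.trans h5.symm) h1
    · exact build_mono (fun s h => by simp [h]) (ih w h)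

theorem Stage.connected {B : SC V} {b : V} {ψ : V → V → F2}
    (hS : Stage b ψ B.faces Finset.univ) : B.Connected ∧ B.DimLE 2 ∧ b ∈ B.verts := by
  obtain ⟨i1, i2, -⟩ := build_inv hS
  refine ⟨⟨⟨_, i1⟩, fun u hu v hv => ?_⟩, i2, i1⟩
  have hsym : ∀ x y, Relation.ReflTransGen (fun x y => ({x, y} : Finset V) ∈ B.faces) x y →
      Relation.ReflTransGen (fun x y => ({x, y} : Finset V) ∈ B.faces) y x := by
    intro x y h
    induction h with
    | refl => exact Relation.ReflTransGen.refl
    | tail _ h ih => exact Relation.ReflTransGen.head (by rwa [Finset.pair_comm]) ih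
  exact (hsym _ _ (build_path hS u hu)).trans (build_path hS v hv)

theorem build_mem_plus {B Z : SC V} {b : V} {a c : Fin 2 → V} (hZ : IsPlus B Z b a c)
    {s : Finset V} : s ∈ Z.faces ↔ (∃ k, s = {b, a k, c k}) ∨ s ∈ B.faces := by
  rw [hZ, Finset.mem_insert, Finset.mem_insert, Fin.exists_fin_two, or_assoc]

theorem build_mem_small {B Z : SC V} {b : V} {a c : Fin 2 → V} (hT : TwoTri B b a c)
    (hZ : IsPlus B Z b a c) {s : Finset V} (hs : s ∈ Z.faces) (h : s.card ≤ 2) : s ∈ B.faces := by
  rcases (build_mem_plus hZ).1 hs with ⟨k, rfl⟩ | h'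
  · rw [build_card3 (hT.ba k) (hT.bc k) (hT.ac k)] at h; omega
  · exact h'

theorem plus_two {B Z : SC V} {b : V} {a c : Fin 2 → V} (hB : B.Connected ∧ B.DimLE 2)
    (hT : TwoTri B b a c) (hZ : IsPlus B Z b a c) : Z.Connected ∧ Z.DimLE 2 := by
  refine ⟨⟨⟨_, (build_mem_plus hZ).2 (Or.inl ⟨0, rfl⟩)⟩, fun u hu v hv => ?_⟩, fun s hs => ?_⟩
  · exact build_mono (fun s h => (build_mem_plus hZ).2 (Or.inr h))
      (hB.1.2 u (build_mem_small hT hZ hu (by simp)) v (build_mem_small hT hZ hv (by simp)))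
  · rcases (build_mem_plus hZ).1 hs with ⟨k, rfl⟩ | h'
    · exact Finset.card_le_three
    · exact hB.2 s h'

section matching
variable {A : Type} [Ring A] {T : Type} [CommRing T] {n : Type} [Fintype n] [DecidableEq n]
  {I : Type} [Fintype I] [DecidableEq I]

/-- A unit whose reduced norm is a square. -/
def build_U (ρ : A →+* Matrix n n T) (x : A) : Prop := ∃ u : Aˣ, x = u ∧ cls (ρ u).det = 1

/-- An acyclic matching on the part `S` of the basis. -/
def build_Good (ρ : A →+* Matrix n n T) (d : Matrix I I A) (S : I → Prop) : Prop :=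
  ∃ (m : I → I) (rk : I → ℕ) (up : I → Prop) (N : ℕ), ∀ x, S x →
    S (m x) ∧ m (m x) = x ∧ (up (m x) ↔ ¬ up x) ∧ rk (m x) = rk x ∧ rk x < N ∧
    (up x → build_U ρ (d x (m x))) ∧ ∀ y, d x y ≠ 0 → S y ∧ ((up x ∧ y = m x) ∨ rk y < rk x)

omit [Fintype I] [DecidableEq I] in
theorem build_good_empty (ρ : A →+* Matrix n n T) (d : Matrix I I A) :
    build_Good ρ d fun _ => False :=
  ⟨id, fun _ => 0, fun _ => True, 0, fun _ h => h.elim⟩

omit [Fintype I] in
theorem build_good_ext {ρ : A →+* Matrix n n T} {d : Matrix I I A} {S S' : I → Prop}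
    (h : build_Good ρ d S) (x0 y0 : I) (hx : ¬ S x0) (hy : ¬ S y0) (hxy : x0 ≠ y0)
    (hU : build_U ρ (d x0 y0)) (h1 : ∀ y, d x0 y ≠ 0 → y = y0 ∨ S y) (h2 : ∀ y, d y0 y ≠ 0 → S y)
    (hS : ∀ x, S' x ↔ x = x0 ∨ x = y0 ∨ S x) : build_Good ρ d S' := by
  obtain ⟨m, rk, up, N, h⟩ := h
  have nx : ∀ x, S x → x ≠ x0 := fun x h' e => hx (e ▸ h')
  have ny : ∀ x, S x → x ≠ y0 := fun x h' e => hy (e ▸ h')
  refine ⟨fun x => if x = x0 then y0 else if x = y0 then x0 else m x,
    fun x => if x = x0 ∨ x = y0 then N else rk x,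
    fun x => x = x0 ∨ (x ≠ y0 ∧ up x), N + 1, fun x hx' => ?_⟩
  rcases (hS x).1 hx' with rfl | rfl | hs
  · refine ⟨by simp [hS], by simp [hxy.symm], by simp [hxy.symm], by simp, by simp,
      fun _ => by simpa using hU, fun y hy' => ?_⟩
    rcases h1 y hy' with rfl | hs
    · simp [hS]
    · simp [hS, hs, nx y hs, ny y hs, (h y hs).2.2.2.2.1]
  · refine ⟨by simp [hS, hxy.symm], by simp [hxy.symm], by simp [hxy.symm], by simp [hxy.symm],
      by simp, fun h' => by simp [hxy.symm] at h', fun y hy' => ?_⟩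
    have hs := h2 y hy'
    simp [hS, hs, nx y hs, ny y hs, (h y hs).2.2.2.2.1]
  · obtain ⟨a1, a2, a3, a4, a5, a6, a7⟩ := h x hs
    refine ⟨by simp [hS, nx x hs, ny x hs, a1], by simp [nx x hs, ny x hs, nx _ a1, ny _ a1, a2],
      by simp [nx x hs, ny x hs, nx _ a1, ny _ a1, a3],
      by simp [nx x hs, ny x hs, nx _ a1, ny _ a1, a4], by simp [nx x hs, ny x hs]; omega,
      fun h' => ?_, fun y hy' => ?_⟩
    · simp only [nx x hs, ny x hs, if_false, false_or] at h' ⊢
      exact a6 h'.2
    · obtain ⟨b1, b2⟩ := a7 y hy'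
      simpa [hS, b1, nx x hs, ny x hs, nx y b1, ny y b1] using b2

theorem build_triv [Nice T] [Nontrivial A] {ρ : A →+* Matrix n n T} {p : I → Bool}
    {d : Matrix I I A} (hd : IsCx p d) (h : build_Good ρ d fun _ => True) : Triv ρ p d := by
  obtain ⟨m, rk, up, N, h⟩ := h
  have hp : ∀ i, up i → p (m i) = !p i := by
    intro i hi
    obtain ⟨u, hu, -⟩ := (h i trivial).2.2.2.2.2.1 hi
    have : p i ≠ p (m i) := fun e => u.ne_zero (hu ▸ hd.odd i (m i) e)
    revert this
    cases p i <;> cases p (m i) <;> simp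
  refine aml ρ hd m rk up (fun i => (h i trivial).2.1) (fun i => (h i trivial).2.2.1)
    (fun i => ?_) (fun i => (h i trivial).2.2.2.1) (fun i => (h i trivial).2.2.2.2.2.1)
    (fun i j hij => ((h i trivial).2.2.2.2.2.2 j hij).2)
  by_cases hi : up i
  · exact hp i hi
  · have := hp (m i) ((h i trivial).2.2.1.2 hi)
    rw [(h i trivial).2.1] at this
    rw [this, Bool.not_not]

end matching

/-- The shape of the rows of the mapping cone. -/
structure build_Rows {T : Type} [CommRing T] (ρ : ZQ →+* Matrix (Fin 2) (Fin 2) T) (B Z : SC V)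
    (ψ : V → V → F2) (t : Fin 2 → Finset V) (d : Matrix (Z.faces ⊕ DI) (Z.faces ⊕ DI) ZQ) :
    Prop where
  ff : ∀ s u, d (.inl s) (.inl u) ≠ 0 → u.1 ⊆ s.1 ∧ s.1.card = u.1.card + 1
  ffu : ∀ s u : Z.faces, u.1 ⊆ s.1 → s.1.card = u.1.card + 1 → build_U ρ (d (.inl s) (.inl u))
  fd : ∀ s i, d (.inl s) (.inr i) ≠ 0 → s.1.card = i.deg + 1
  fpu : ∀ s : Z.faces, s.1.card = 1 → build_U ρ (d (.inl s) (.inr .pt))
  fg1 : ∀ (s : Z.faces) u v l, s.1 = {u, v} → u ≠ v → ψ u v = 1 → d (.inl s) (.inr (.gen l)) = 0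
  fg2 : ∀ (s : Z.faces) u v i l, s.1 = {u, v} → u ≠ v → ψ u v = FreeGroup.of i → l ≠ i →
    d (.inl s) (.inr (.gen l)) = 0
  fgu : ∀ (s : Z.faces) u v i, s.1 = {u, v} → u ≠ v → ψ u v = FreeGroup.of i →
    build_U ρ (d (.inl s) (.inr (.gen i)))
  fr : ∀ s j, d (.inl s) (.inr (.rel j)) ≠ 0 → s.1 = t j
  fru : ∀ (s : Z.faces) j, s.1 = t j → build_U ρ (d (.inl s) (.inr (.rel j)))
  df : ∀ i s, d (.inr i) (.inl s) = 0
  dd : ∀ i j, d (.inr i) (.inr j) ≠ 0 → i.deg = j.deg + 1

/-- The cells present at a stage. -/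
def build_mem (Z : SC V) (S : Finset (Finset V)) (J R : Finset (Fin 2)) : Z.faces ⊕ DI → Prop
  | .inl s => s.1 ∈ S
  | .inr .pt => True
  | .inr (.gen i) => i ∈ J
  | .inr (.rel j) => j ∈ R

theorem build_sub2 {x y : V} {u : Finset V} (h : u ⊆ {x, y}) (hc : u.card = 1) :
    u = {x} ∨ u = {y} := by
  obtain ⟨w, rfl⟩ := Finset.card_eq_one.1 hc
  have := h (Finset.mem_singleton_self w)
  simp only [Finset.mem_insert, Finset.mem_singleton] at this
  rcases this with rfl | rfl <;> simp

theorem build_sub3 {x y z : V} {u : Finset V} (h : u ⊆ {x, y, z}) (hc : u.card = 2) :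
    u = {x, y} ∨ u = {y, z} ∨ u = {x, z} := by
  obtain ⟨p, q, hpq, rfl⟩ := Finset.card_eq_two.1 hc
  have hp := h (Finset.mem_insert_self p _)
  have hq := h (show q ∈ ({p, q} : Finset V) by simp)
  simp only [Finset.mem_insert, Finset.mem_singleton] at hp hq
  rcases hp with rfl | rfl | rfl <;> rcases hq with rfl | rfl | rfl <;>
    first | exact absurd rfl hpq | simp [Finset.pair_comm]

theorem build_good_stage {T : Type} [CommRing T] {ρ : ZQ →+* Matrix (Fin 2) (Fin 2) T}
    {B Z : SC V} {ψ : V → V → F2} {t : Fin 2 → Finset V}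
    {d : Matrix (Z.faces ⊕ DI) (Z.faces ⊕ DI) ZQ} (H : build_Rows ρ B Z ψ t d)
    (ht : ∀ j, t j ∉ B.faces) (hBZ : B.faces ⊆ Z.faces) {b : V} {S : Finset (Finset V)}
    {J : Finset (Fin 2)} (hS : Stage b ψ S J) :
    S ⊆ B.faces → build_Good ρ d (build_mem Z S J ∅) := by
  have vert : ∀ (s : Z.faces) y, s.1.card = 1 → d (.inl s) y ≠ 0 → y = .inr .pt := by
    rintro s (u | i) hs h
    · have h1 := (H.ff s u h).2
      have h2 := (Z.ne _ u.2).card_pos
      omega
    · have h1 := H.fd s i h
      cases i with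
      | pt => rfl
      | gen i => simp [DI.deg, hs] at h1
      | rel i => simp [DI.deg, hs] at h1
  have edge : ∀ (s : Z.faces) x z y, s.1 = {x, z} → x ≠ z → d (.inl s) y ≠ 0 →
      (∃ u, y = .inl u ∧ (u.1 = {x} ∨ u.1 = {z})) ∨ ∃ l, y = .inr (.gen l) := by
    rintro s x z (u | i) hs hxz h
    · obtain ⟨h1, h2⟩ := H.ff s u h
      rw [hs] at h1 h2
      rw [Finset.card_pair hxz] at h2
      exact Or.inl ⟨u, rfl, build_sub2 h1 (by omega)⟩
    · have h1 := H.fd s i h
      rw [hs, Finset.card_pair hxz] at h1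
      cases i with
      | pt => simp [DI.deg] at h1
      | gen i => exact Or.inr ⟨i, rfl⟩
      | rel i => simp [DI.deg] at h1
  induction hS with
  | base =>
    intro hB
    have hb : ({b} : Finset V) ∈ Z.faces := hBZ (hB (by simp))
    refine build_good_ext (build_good_empty ρ d) (.inl ⟨_, hb⟩) (.inr .pt) id id (by simp)
      (H.fpu _ (by simp)) (fun y hy => Or.inl (vert _ y (by simp) hy)) ?_ ?_
    · rintro (s | i) h
      · exact h (H.df _ _)
      · have := H.dd _ _ h
        simp [DI.deg] at this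
    · rintro (s | (j | i | _)) <;> simp [build_mem, Subtype.ext_iff]
  | v S J a v hS ha hv hav h1 ih =>
    intro hB
    have hne : a ≠ v := fun e => hv (e ▸ ha)
    have h2 : ({a, v} : Finset V) ∈ Z.faces := hBZ (hB (by simp))
    have h3 : ({v} : Finset V) ∈ Z.faces := hBZ (hB (by simp))
    refine build_good_ext (ih fun s hs => hB (by simp [hs])) (.inl ⟨_, h2⟩) (.inl ⟨_, h3⟩) hav hv
      ?_ (H.ffu _ _ (by simp) (by simp [Finset.card_pair hne])) (fun y hy => ?_) (fun y hy => ?_) ?_
    · intro e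
      exact hne (by
        have := build_pair_single (congrArg Subtype.val (Sum.inl.inj e))
        exact this.1)
    · rcases edge _ a v y rfl hne hy with ⟨u, rfl, h | h⟩ | ⟨l, rfl⟩
      · exact Or.inr (show u.1 ∈ S from h ▸ ha)
      · exact Or.inl (congrArg _ (Subtype.ext h))
      · exact absurd (H.fg1 _ a v l rfl hne h1) hy
    · rw [vert _ y (by simp) hy]; trivial
    · rintro (s | (j | i | _)) <;> simp [build_mem, Subtype.ext_iff]
  | g S J i u v hS hu hv huv hn hi h1 ih =>
    intro hB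
    have h2 : ({u, v} : Finset V) ∈ Z.faces := hBZ (hB (by simp))
    refine build_good_ext (ih fun s hs => hB (by simp [hs])) (.inl ⟨_, h2⟩) (.inr (.gen i)) hn hi
      (by simp) (H.fgu _ u v i rfl huv h1) (fun y hy => ?_) ?_ ?_
    · rcases edge _ u v y rfl huv hy with ⟨w, rfl, h | h⟩ | ⟨l, rfl⟩
      · exact Or.inr (show w.1 ∈ S from h ▸ hu)
      · exact Or.inr (show w.1 ∈ S from h ▸ hv)
      · by_cases e : l = i
        · exact Or.inl (by rw [e])
        · exact absurd (H.fg2 _ u v i l rfl huv h1 e) hy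
    · rintro (s | j) h
      · exact absurd (H.df _ _) h
      · have := H.dd _ _ h
        cases j with
        | pt => trivial
        | gen i => simp [DI.deg] at this
        | rel i => simp [DI.deg] at this
    · rintro (s | (j | i | _)) <;> simp [build_mem, Subtype.ext_iff]
  | e S u a v hS hua hav h1 h2 h3 hn hn' ih =>
    intro hB
    obtain ⟨-, -, i3⟩ := build_inv hS
    have h4 : ({u, a, v} : Finset V) ∈ Z.faces := hBZ (hB (by simp))
    have h5 : ({u, v} : Finset V) ∈ Z.faces := hBZ (hB (by simp))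
    have h6 := build_card3 h2 h1 h3
    refine build_good_ext (ih fun s hs => hB (by simp [hs])) (.inl ⟨_, h4⟩) (.inl ⟨_, h5⟩) hn' hn
      ?_ (H.ffu _ _ (by intro x; simp only [Finset.mem_insert, Finset.mem_singleton]; tauto)
        (by simp only [h6, Finset.card_pair h1])) ?_ (fun y hy => ?_) ?_
    · intro e
      have := congrArg (fun s : Z.faces => s.1.card) (Sum.inl.inj e)
      simp only [h6, Finset.card_pair h1] at this
      omega
    · rintro (s | j) h
      · obtain ⟨h7, h8⟩ := H.ff _ _ h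
        simp only [h6] at h7 h8
        rcases build_sub3 h7 (by omega) with h | h | h
        · exact Or.inr (show s.1 ∈ S from h ▸ hua)
        · exact Or.inr (show s.1 ∈ S from h ▸ hav)
        · exact Or.inl (congrArg _ (Subtype.ext h))
      · have := H.fd _ _ h
        simp only [h6] at this
        cases j with
        | pt => simp [DI.deg] at this
        | gen i => simp [DI.deg] at this
        | rel i => exact absurd (H.fr _ _ h ▸ hB (by simp)) (ht i)
    · rcases edge _ u v y rfl h1 hy with ⟨w, rfl, h | h⟩ | ⟨l, rfl⟩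
      · exact show w.1 ∈ S from h ▸ i3 _ hua u (by simp)
      · exact show w.1 ∈ S from h ▸ i3 _ hav v (by simp)
      · exact Finset.mem_univ l
    · rintro (s | (j | i | _)) <;> simp [build_mem, Subtype.ext_iff]

theorem build_good_all {T : Type} [CommRing T] {ρ : ZQ →+* Matrix (Fin 2) (Fin 2) T}
    {B Z : SC V} {b : V} {ψ : V → V → F2} {a c : Fin 2 → V}
    {d : Matrix (Z.faces ⊕ DI) (Z.faces ⊕ DI) ZQ}
    (H : build_Rows ρ B Z ψ (fun k => {b, a k, c k}) d) (hS : Stage b ψ B.faces Finset.univ)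
    (hT : TwoTri B b a c) (hZ : IsPlus B Z b a c) : build_Good ρ d fun _ => True := by
  have hBZ : B.faces ⊆ Z.faces := fun s h => (build_mem_plus hZ).2 (Or.inr h)
  have hk : ∀ k, ({b, a k, c k} : Finset V) ∈ Z.faces :=
    fun k => (build_mem_plus hZ).2 (Or.inl ⟨k, rfl⟩)
  have step : ∀ (S : Finset (Finset V)) (R : Finset (Fin 2)) k, B.faces ⊆ S →
      ({b, a k, c k} : Finset V) ∉ S → k ∉ R → build_Good ρ d (build_mem Z S Finset.univ R) →
      build_Good ρ d (build_mem Z (insert {b, a k, c k} S) Finset.univ (insert k R)) := by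
    intro S R k h1 h2 h3 h
    have h6 := build_card3 (hT.ba k) (hT.bc k) (hT.ac k)
    refine build_good_ext h (.inl ⟨_, hk k⟩) (.inr (.rel k)) h2 h3 (by simp) (H.fru _ k rfl)
      ?_ ?_ ?_
    · rintro (s | j) h
      · have h8 := (H.ff _ _ h).2
        simp only [h6] at h8
        exact Or.inr (h1 (build_mem_small hT hZ s.2 (by omega)))
      · have := H.fd _ _ h
        simp only [h6] at this
        cases j with
        | pt => simp [DI.deg] at this
        | gen i => simp [DI.deg] at this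
        | rel i =>
          have h9 : ({b, a k, c k} : Finset V) = {b, a i, c i} := H.fr _ _ h
          refine Or.inl ?_
          fin_cases k <;> fin_cases i
          · rfl
          · exact absurd h9 hT.ne
          · exact absurd h9.symm hT.ne
          · rfl
    · rintro (s | j) h
      · exact absurd (H.df _ _) h
      · have := H.dd _ _ h
        cases j with
        | pt => trivial
        | gen i => exact Finset.mem_univ i
        | rel i => simp [DI.deg] at this
    · rintro (s | (j | i | _)) <;> simp [build_mem, Subtype.ext_iff]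
  have h0 := build_good_stage H hT.new hBZ hS fun _ h => h
  have h1 := step _ _ 1 (fun _ h => h) (hT.new 1) (by simp) h0
  have h2 := step _ _ 0 (Finset.subset_insert _ _)
    (by rw [Finset.mem_insert, not_or]; exact ⟨hT.ne, hT.new 0⟩) (by simp) h1
  have : build_mem Z (insert {b, a 0, c 0} (insert {b, a 1, c 1} B.faces)) Finset.univ
      (insert 0 (insert 1 ∅)) = fun _ => True := by
    funext x
    rw [eq_iff_iff, iff_true]
    rcases x with s | (j | i | _)
    · exact hZ ▸ s.2
    · fin_cases j <;> simp [build_mem]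
    · exact Finset.mem_univ i
    · trivial
  exact this ▸ h2

theorem build_single (g : Q) (c : ℤ) : (MonoidAlgebra.single g c : ZQ) = c • el ℤ g := by
  simp [el]

theorem build_U_el {T : Type} [CommRing T] {ρ : Q →* Matrix (Fin 2) (Fin 2) T}
    (hρ : ∀ g, (ρ g).det = 1) {η : ℤ} (hη : η = 1 ∨ η = -1) (q : Q) :
    build_U (lin ρ) (η • el ℤ q) := by
  have h1 : ∀ q : Q, (η • el ℤ q) * (η • el ℤ q⁻¹) = 1 := by
    intro q
    rw [smul_mul_smul_comm, ← el_mul, mul_inv_cancel, el_one]
    rcases hη with rfl | rfl <;> simp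
  refine ⟨⟨η • el ℤ q, η • el ℤ q⁻¹, h1 q, by simpa using h1 q⁻¹⟩, rfl, ?_⟩
  show cls (lin ρ (η • el ℤ q)).det = 1
  rw [← build_single, lin_single]
  rcases hη with rfl | rfl
  · rw [one_smul, hρ, cls_one]
  · rw [neg_one_smul, Matrix.det_neg, hρ]
    simpa using cls_one

theorem build_sum_edge {M : Type} [AddCommGroup M] {o : V → ℕ} {K : SC V}
    (ho : Set.InjOn o K.verts) {x y : V} (hxy : x ≠ y) (he : ({x, y} : Finset V) ∈ K.faces)
    (f : Finset V → M) :
    ∑ t ∈ K.faces, inc o {x, y} t • f t = inc o {x, y} {y} • (f {y} - f {x}) := by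
  have e1 : ({x, y} : Finset V).erase x = {y} := by
    rw [Finset.erase_insert (by simpa using hxy)]
  have e2 : ({x, y} : Finset V).erase y = {x} := by
    rw [Finset.pair_comm, Finset.erase_insert (by simpa using hxy.symm)]
  have e3 := inc_erase o (show x ∈ ({x, y} : Finset V) by simp)
  rw [e1] at e3
  rw [sum_inc o K he (by rw [Finset.card_pair hxy]), Finset.sum_pair hxy, e1, e2, e3]
  have hne : o x ≠ o y := fun h => hxy (ho (mem_verts_of_mem he (by simp))
    (mem_verts_of_mem he (by simp)) h)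
  rcases lt_or_gt_of_ne hne with h | h
  · simp [pos, Finset.filter_insert, Finset.filter_singleton, h, h.not_gt, sub_eq_add_neg]
  · simp [pos, Finset.filter_insert, Finset.filter_singleton, h, h.not_gt, sub_eq_add_neg, add_comm]

/-- A base vertex in every face. -/
noncomputable def build_bs (b : V) (s : Finset V) : V :=
  if b ∈ s then b else if h : s.Nonempty then h.choose else b

theorem build_bs_mem (b : V) {s : Finset V} (h : s.Nonempty) : build_bs b s ∈ s := by
  unfold build_bs
  split_ifs with h1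
  · exact h1
  · exact h.choose_spec

theorem build_bs_of_mem {b : V} {s : Finset V} (h : b ∈ s) : build_bs b s = b := if_pos h

theorem build_bs_single (b w : V) : build_bs b {w} = w :=
  Finset.mem_singleton.1 (build_bs_mem b (Finset.singleton_nonempty w))

/-- The chain map to the Fox complex. -/
noncomputable def build_r (fox : F2 → Fin 2 → ZQ) (Z : SC V) (o : V → ℕ) (b : V) (ψ : V → V → F2)
    (t : Fin 2 → Finset V) (ε : Fin 2 → ℤ) (A : Matrix (Fin 2) (Fin 2) ZQ) (s : Finset V) :
    DI → ZQ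
  | .pt => if s.card = 1 then 1 else 0
  | .gen l => if s.card = 2 then
      -∑ u ∈ Z.faces, inc o s u • fox (ψ (build_bs b s) (build_bs b u)) l else 0
  | .rel j => ∑ k, if s = t k then ε k • A k j else 0

section fox
variable {fox : F2 → Fin 2 → ZQ}
  (f1 : ∀ u v l, fox (u * v) l = fox u l + el ℤ (qq u) * fox v l)
include f1

theorem build_fox_one (l : Fin 2) : fox 1 l = 0 := by
  have := f1 1 1 l
  rw [mul_one, map_one, el_one, one_mul] at this
  simpa using this

theorem build_fox_inv (u : F2) (l : Fin 2) : fox u⁻¹ l = -(el ℤ (qq u⁻¹) * fox u l) := by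
  have := f1 u⁻¹ u l
  rw [inv_mul_cancel, build_fox_one f1] at this
  exact eq_neg_of_add_eq_zero_left this.symm

theorem build_r_edge {B Z : SC V} {o : V → ℕ} (ho : Set.InjOn o Z.verts) {ψ : V → V → F2}
    (hψ : B.IsCoc ψ) (b : V) (t : Fin 2 → Finset V) (ε : Fin 2 → ℤ)
    (A : Matrix (Fin 2) (Fin 2) ZQ) {x y : V} (hxy : x ≠ y)
    (hB : ({x, y} : Finset V) ∈ B.faces) (hZ : ({x, y} : Finset V) ∈ Z.faces) :
    ∃ (η : ℤ) (q : Q), (η = 1 ∨ η = -1) ∧
      ∀ l, build_r fox Z o b ψ t ε A {x, y} (.gen l) = (η • el ℤ q) * fox (ψ x y) l := by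
  have hη : -inc o {x, y} {y} = 1 ∨ -inc o {x, y} {y} = -1 := by
    rcases inc_eq_or (o := o) (show ({y} : Finset V) ⊆ {x, y} by simp)
      (by rw [Finset.card_pair hxy]; rfl) with h | h <;> simp [h]
  have key : ∀ l, build_r fox Z o b ψ t ε A {x, y} (.gen l) = -inc o {x, y} {y} •
      (fox (ψ (build_bs b {x, y}) y) l - fox (ψ (build_bs b {x, y}) x) l) := by
    intro l
    rw [build_r, if_pos (Finset.card_pair hxy), build_sum_edge ho hxy hZ, build_bs_single,
      build_bs_single, neg_smul]
  have := build_bs_mem b (show ({x, y} : Finset V).Nonempty by simp)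
  simp only [Finset.mem_insert, Finset.mem_singleton] at this
  rcases this with h | h
  · refine ⟨_, 1, hη, fun l => ?_⟩
    rw [key, h, build_coc_self hψ (B.down _ hB _ (by simp) (by simp)), build_fox_one f1, el_one,
      sub_zero, smul_mul_assoc, one_mul]
  · refine ⟨_, qq (ψ x y)⁻¹, hη, fun l => ?_⟩
    rw [key, h, build_coc_self hψ (B.down _ hB _ (by simp) (by simp)), build_fox_one f1,
      build_coc_inv hψ hB, build_fox_inv f1, zero_sub, neg_neg, smul_mul_assoc]

theorem build_tri {Z : SC V} {o : V → ℕ} (ho : Set.InjOn o Z.verts) (ψ : V → V → F2)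
    (b : V) (t : Fin 2 → Finset V) (ε : Fin 2 → ℤ) (A : Matrix (Fin 2) (Fin 2) ZQ) {s : Finset V}
    (hs : s ∈ Z.faces) (h3 : s.card = 3) (l : Fin 2) :
    ∑ e ∈ Z.faces, inc o s e • (el ℤ (qq (ψ (build_bs b s) (build_bs b e))) *
      build_r fox Z o b ψ t ε A e (.gen l)) =
    -∑ e ∈ Z.faces, inc o s e • ∑ u ∈ Z.faces, inc o e u •
      (fox (ψ (build_bs b s) (build_bs b e) * ψ (build_bs b e) (build_bs b u)) l -
        fox (ψ (build_bs b s) (build_bs b u)) l) := by
  have h0 : ∑ e ∈ Z.faces, inc o s e • ∑ u ∈ Z.faces, inc o e u •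
      fox (ψ (build_bs b s) (build_bs b u)) l = 0 := by
    simp only [Finset.smul_sum, smul_smul]
    rw [Finset.sum_comm]
    refine Finset.sum_eq_zero fun u hu => ?_
    rw [← Finset.sum_smul, inc_sq Z ho hs (Z.ne u hu), zero_smul]
  simp only [smul_sub, Finset.sum_sub_distrib]
  rw [h0, sub_zero, ← Finset.sum_neg_distrib]
  refine Finset.sum_congr rfl fun e he => ?_
  by_cases hi : inc o s e = 0
  · simp [hi]
  have h2 : e.card = 2 := by have := (inc_ne_zero_iff.1 hi).2; omega
  rw [← smul_neg, build_r, if_pos h2]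
  congr 1
  obtain ⟨x, y, hxy, rfl⟩ := Finset.card_eq_two.1 h2
  rw [build_sum_edge ho hxy he, build_sum_edge ho hxy he, f1, f1, mul_neg, mul_smul_comm]
  congr 2
  noncomm_ring

end fox

theorem build_rel {B : SC V} {b : V} {ψ : V → V → F2} (hψ : B.IsCoc ψ) {a c : V} {R : F2}
    (e2 : ({a, c} : Finset V) ∈ B.faces)
    (e3 : ({b, c} : Finset V) ∈ B.faces) (hw : ψ b a * ψ a c * ψ c b = R) :
    ψ b a * ψ a c = R * ψ b c ∧ ψ b c * ψ c a = R⁻¹ * ψ b a := by
  rw [← hw, build_coc_inv hψ e3, build_coc_inv hψ e2]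
  constructor <;> group

theorem build_coc_edge {G : Type} [Group G] {K : SC V} {e : V → V → G} (he : K.IsCoc e)
    {s : Finset V} (hs : s ∈ K.faces) {u v w : V} (hu : u ∈ s) (hv : v ∈ s) (hw : w ∈ s) :
    e u v * e v w = e u w := by
  refine he u v w (K.down s hs _ ?_ (by simp))
  intro x hx
  simp only [Finset.mem_insert, Finset.mem_singleton] at hx
  rcases hx with rfl | rfl | rfl <;> assumption

theorem build_coc_plus {B Z : SC V} {b : V} {ψ : V → V → F2} (hψ : B.IsCoc ψ) {a c : Fin 2 → V}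
    (hT : TwoTri B b a c) (hZ : IsPlus B Z b a c)
    (hw : ∀ i, ψ b (a i) * ψ (a i) (c i) * ψ (c i) b = relL i) :
    Z.IsCoc fun u v => qq (ψ u v) := by
  intro u v w h
  rcases (build_mem_plus hZ).1 h with ⟨k, hk⟩ | h'
  · have key : ∀ x ∈ ({b, a k, c k} : Finset V), ∀ y ∈ ({b, a k, c k} : Finset V),
        qq (ψ x y) = (qq (ψ b x))⁻¹ * qq (ψ b y) := by
      intro x hx y hy
      rw [eq_inv_mul_iff_mul_eq, ← map_mul]
      obtain ⟨r1, r2⟩ := build_rel hψ (hT.e2 k) (hT.e3 k) (hw k)
      simp only [Finset.mem_insert, Finset.mem_singleton] at hx hy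
      rcases hx with rfl | rfl | rfl <;> rcases hy with rfl | rfl | rfl
      · rw [build_coc_edge hψ (hT.e1 k) (by simp) (by simp) (by simp)]
      · rw [build_coc_edge hψ (hT.e1 k) (by simp) (by simp) (by simp)]
      · rw [build_coc_edge hψ (hT.e3 k) (by simp) (by simp) (by simp)]
      · rw [build_coc_edge hψ (hT.e1 k) (by simp) (by simp) (by simp)]
      · rw [build_coc_edge hψ (hT.e1 k) (by simp) (by simp) (by simp)]
      · rw [r1, map_mul, qq_relL, one_mul]
      · rw [build_coc_edge hψ (hT.e3 k) (by simp) (by simp) (by simp)]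
      · rw [r2, map_mul, map_inv, qq_relL, inv_one, one_mul]
      · rw [build_coc_edge hψ (hT.e3 k) (by simp) (by simp) (by simp)]
    have hu : u ∈ ({b, a k, c k} : Finset V) := hk ▸ by simp
    have hv : v ∈ ({b, a k, c k} : Finset V) := hk ▸ by simp
    have hw' : w ∈ ({b, a k, c k} : Finset V) := hk ▸ by simp
    show qq (ψ u v) * qq (ψ v w) = qq (ψ u w)
    rw [key u hu v hv, key v hv w hw', key u hu w hw']
    group
  · show qq (ψ u v) * qq (ψ v w) = qq (ψ u w)
    rw [← map_mul, hψ u v w h']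

/-- The signs of the two new triangles. -/
def build_eps (o : V → ℕ) (b : V) (a c : Fin 2 → V) (k : Fin 2) : ℤ :=
  inc o {b, a k, c k} {a k, c k} * inc o {a k, c k} {c k}

theorem build_eps_or {B : SC V} {b : V} {a c : Fin 2 → V} (hT : TwoTri B b a c) (o : V → ℕ)
    (k : Fin 2) : build_eps o b a c k = 1 ∨ build_eps o b a c k = -1 := by
  unfold build_eps
  rcases inc_eq_or (o := o) (show ({a k, c k} : Finset V) ⊆ {b, a k, c k} by simp)
      (by rw [Finset.card_pair (hT.ac k), build_card3 (hT.ba k) (hT.bc k) (hT.ac k)]) with h | h <;>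
    rcases inc_eq_or (o := o) (show ({c k} : Finset V) ⊆ {a k, c k} by simp)
      (by rw [Finset.card_pair (hT.ac k)]; rfl) with h' | h' <;> simp [h, h']

theorem build_r_rel {B : SC V} {b : V} {a c : Fin 2 → V} (hT : TwoTri B b a c)
    (fox : F2 → Fin 2 → ZQ) (Z : SC V) (o : V → ℕ) (ψ : V → V → F2) (ε : Fin 2 → ℤ)
    (A : Matrix (Fin 2) (Fin 2) ZQ) (k j : Fin 2) :
    build_r fox Z o b ψ (fun k => {b, a k, c k}) ε A {b, a k, c k} (.rel j) = ε k • A k j := by
  rw [build_r, Finset.sum_eq_single k, if_pos rfl]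
  · intro i _ hi
    refine if_neg fun h => hi ?_
    fin_cases k <;> fin_cases i
    · rfl
    · exact absurd h hT.ne
    · exact absurd h.symm hT.ne
    · rfl
  · simp

theorem build_r_rel0 (fox : F2 → Fin 2 → ZQ) (Z : SC V) (o : V → ℕ) (b : V) (ψ : V → V → F2)
    {t : Fin 2 → Finset V} (ε : Fin 2 → ℤ) (A : Matrix (Fin 2) (Fin 2) ZQ) {s : Finset V}
    (hs : ∀ k, s ≠ t k) (j : Fin 2) : build_r fox Z o b ψ t ε A s (.rel j) = 0 := by
  rw [build_r]
  exact Finset.sum_eq_zero fun k _ => if_neg (hs k)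

theorem build_r_gr {B : SC V} {b : V} {a c : Fin 2 → V} (hT : TwoTri B b a c)
    {fox : F2 → Fin 2 → ZQ} {Z : SC V} {o : V → ℕ} {ψ : V → V → F2} {ε : Fin 2 → ℤ}
    {A : Matrix (Fin 2) (Fin 2) ZQ} {s : Finset V} {i : DI}
    (h : build_r fox Z o b ψ (fun k => {b, a k, c k}) ε A s i ≠ 0) : s.card = i.deg + 1 := by
  by_contra hn
  apply h
  cases i with
  | pt => exact if_neg hn
  | gen l => exact if_neg hn
  | rel j =>
    refine build_r_rel0 _ _ _ _ _ _ _ (fun k e => hn ?_) j
    rw [e, build_card3 (hT.ba k) (hT.bc k) (hT.ac k)]; rfl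

theorem build_defect {fox : F2 → Fin 2 → ZQ}
    (f1 : ∀ u v l, fox (u * v) l = fox u l + el ℤ (qq u) * fox v l)
    {B Z : SC V} {b : V} {ψ : V → V → F2} (hψ : B.IsCoc ψ) {a c : Fin 2 → V}
    (hT : TwoTri B b a c) (hZ : IsPlus B Z b a c)
    (hw : ∀ i, ψ b (a i) * ψ (a i) (c i) * ψ (c i) b = relL i) {o : V → ℕ}
    (ho : Set.InjOn o Z.verts) (k l : Fin 2) :
    ∑ e ∈ Z.faces, inc o {b, a k, c k} e • ∑ u ∈ Z.faces, inc o e u •
      (fox (ψ b (build_bs b e) * ψ (build_bs b e) (build_bs b u)) l -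
        fox (ψ b (build_bs b u)) l) = build_eps o b a c k • fox (relL k) l := by
  have h2 : ({a k, c k} : Finset V) ∈ Z.faces := (build_mem_plus hZ).2 (Or.inr (hT.e2 k))
  obtain ⟨r1, r2⟩ := build_rel hψ (hT.e2 k) (hT.e3 k) (hw k)
  rw [Finset.sum_eq_single {a k, c k}]
  · rw [build_sum_edge ho (hT.ac k) h2, build_bs_single, build_bs_single, smul_smul, build_eps]
    congr 1
    have := build_bs_mem b (show ({a k, c k} : Finset V).Nonempty by simp)
    simp only [Finset.mem_insert, Finset.mem_singleton] at this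
    rcases this with h | h
    · rw [h, r1, build_coc_edge hψ (hT.e1 k) (by simp) (by simp) (by simp), f1, qq_relL, el_one]
      noncomm_ring
    · rw [h, r2, build_coc_edge hψ (hT.e3 k) (by simp) (by simp) (by simp), f1, build_fox_inv f1,
        map_inv, qq_relL, inv_one, el_one]
      noncomm_ring
  · intro e he hne
    by_cases hi : inc o {b, a k, c k} e = 0
    · rw [hi, zero_smul]
    obtain ⟨h3, h4⟩ := inc_ne_zero_iff.1 hi
    rw [build_card3 (hT.ba k) (hT.bc k) (hT.ac k)] at h4
    have hb : b ∈ e := by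
      rcases build_sub3 h3 (by omega) with h | h | h
      · simp [h]
      · exact absurd h hne
      · simp [h]
    rw [build_bs_of_mem hb, build_coc_self hψ (B.down _ (hT.e1 k) _ (by simp) (by simp))]
    simp
  · exact fun h => absurd h2 h

theorem build_cx {fox : F2 → Fin 2 → ZQ}
    (f1 : ∀ u v l, fox (u * v) l = fox u l + el ℤ (qq u) * fox v l)
    (f3 : ∀ u, ∑ l, fox u l * (el ℤ (gen l) - 1) = el ℤ (qq u) - 1)
    (f4 : ∀ i l, fox (relL i) l = (Amat * foxM ℤ) i l)
    {B Z : SC V} {b : V} {ψ : V → V → F2} (hψ : B.IsCoc ψ) {a c : Fin 2 → V}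
    (hT : TwoTri B b a c) (hZ : IsPlus B Z b a c) (hd : Z.DimLE 2)
    (hw : ∀ i, ψ b (a i) * ψ (a i) (c i) * ψ (c i) b = relL i) {o : V → ℕ}
    (ho : Set.InjOn o Z.verts) {s : Finset V} (hs : s ∈ Z.faces) (i : DI) :
    ∑ e ∈ Z.faces, inc o s e • (el ℤ (qq (ψ (build_bs b s) (build_bs b e))) *
      build_r fox Z o b ψ (fun k => {b, a k, c k}) (build_eps o b a c) Amat e i) +
    ∑ j, build_r fox Z o b ψ (fun k => {b, a k, c k}) (build_eps o b a c) Amat s j * dD ℤ j i
      = 0 := by
  have z1 : s.card ≠ i.deg + 2 → ∑ e ∈ Z.faces, inc o s e •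
      (el ℤ (qq (ψ (build_bs b s) (build_bs b e))) *
      build_r fox Z o b ψ (fun k => {b, a k, c k}) (build_eps o b a c) Amat e i) = 0 := by
    intro hn
    refine Finset.sum_eq_zero fun e _ => ?_
    by_cases hi : inc o s e = 0
    · rw [hi, zero_smul]
    by_cases hr : build_r fox Z o b ψ (fun k => {b, a k, c k}) (build_eps o b a c) Amat e i = 0
    · rw [hr, mul_zero, smul_zero]
    have h1 := (inc_ne_zero_iff.1 hi).2
    have h2 := build_r_gr hT hr
    omega
  cases i with
  | rel j =>
    have := hd s hs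
    rw [z1 (by simp only [DI.deg]; omega), DI.sum_univ]
    simp [dD]
  | pt =>
    by_cases h2 : s.card = 2
    · have e1 : ∑ j, build_r fox Z o b ψ (fun k => {b, a k, c k}) (build_eps o b a c) Amat s j *
          dD ℤ j .pt = -∑ e ∈ Z.faces, inc o s e •
            (el ℤ (qq (ψ (build_bs b s) (build_bs b e))) - 1) := by
        simp only [← f3, Finset.smul_sum]
        rw [Finset.sum_comm, DI.sum_univ, Fin.sum_univ_two]
        simp only [dD, build_r, if_pos h2, mul_zero, zero_add, add_zero, neg_mul, Finset.sum_mul,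
          smul_mul_assoc, neg_add]
      rw [e1]
      obtain ⟨x, y, hxy, rfl⟩ := Finset.card_eq_two.1 h2
      rw [build_sum_edge ho hxy hs, build_sum_edge ho hxy hs]
      simp [build_r]
    · rw [z1 h2, DI.sum_univ]
      simp [dD, build_r, h2]
  | gen l =>
    have e1 : ∑ j, build_r fox Z o b ψ (fun k => {b, a k, c k}) (build_eps o b a c) Amat s j *
        dD ℤ j (.gen l) = ∑ j, build_r fox Z o b ψ (fun k => {b, a k, c k}) (build_eps o b a c)
          Amat s (.rel j) * foxM ℤ j l := by
      rw [DI.sum_univ, Fin.sum_univ_two]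
      simp [dD]
    rw [e1]
    rcases (build_mem_plus hZ).1 hs with ⟨k, rfl⟩ | hB
    · rw [build_tri f1 ho _ _ _ _ _ hs (build_card3 (hT.ba k) (hT.bc k) (hT.ac k)),
        build_bs_of_mem (by simp), build_defect f1 hψ hT hZ hw ho, f4, Matrix.mul_apply]
      simp only [build_r_rel hT, smul_mul_assoc, ← Finset.smul_sum, neg_add_cancel]
    · have e2 : ∀ j, build_r fox Z o b ψ (fun k => {b, a k, c k}) (build_eps o b a c)
          Amat s (.rel j) = 0 :=
        build_r_rel0 _ _ _ _ _ _ _ fun k e => hT.new k (e ▸ hB)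
      simp only [e2, zero_mul, Finset.sum_const_zero, add_zero]
      by_cases h3 : s.card = 3
      · rw [build_tri f1 ho _ _ _ _ _ hs h3, neg_eq_zero]
        refine Finset.sum_eq_zero fun e he => ?_
        by_cases hi : inc o s e = 0
        · rw [hi, zero_smul]
        rw [Finset.sum_eq_zero, smul_zero]
        intro u hu
        by_cases hj : inc o e u = 0
        · rw [hj, zero_smul]
        have h4 := (inc_ne_zero_iff.1 hi).1
        have h5 := (inc_ne_zero_iff.1 hj).1
        rw [build_coc_edge hψ hB (build_bs_mem b (Z.ne s hs)) (h4 (build_bs_mem b (Z.ne e he)))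
          (h4 (h5 (build_bs_mem b (Z.ne u hu)))), sub_self, smul_zero]
      · exact z1 h3

/-- The cells of the presentation complex, relators first. -/
def build_e : DI ≃ Fin 2 ⊕ Option (Fin 2) where
  toFun
    | .rel j => .inl j
    | .gen i => .inr (some i)
    | .pt => .inr none
  invFun
    | .inl j => .rel j
    | .inr (some i) => .gen i
    | .inr none => .pt
  left_inv := by rintro (j | i | _) <;> rfl
  right_inv := by rintro (j | _ | i) <;> rfl

/-- A change of basis of the relators. -/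
noncomputable def build_G (A : Matrix (Fin 2) (Fin 2) ZQ) : Matrix DI DI ZQ :=
  (fromBlocks A 0 0 (1 : Matrix (Option (Fin 2)) (Option (Fin 2)) ZQ)).submatrix build_e build_e

theorem build_G_mul {A A' : Matrix (Fin 2) (Fin 2) ZQ} (h : A * A' = 1) :
    build_G A * build_G A' = 1 := by
  rw [build_G, build_G, submatrix_mul_equiv, fromBlocks_multiply]
  simp [h]

theorem build_G_deg {A : Matrix (Fin 2) (Fin 2) ZQ} {i j : DI} (h : build_G A i j ≠ 0) :
    i.deg = j.deg := by
  rcases i with i | i | _ <;> rcases j with j | j | _ <;>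
    first | rfl | exact absurd (by simp [build_G, build_e]) h

theorem build_mul_G {I : Type} (r : Matrix I DI ZQ) (A : Matrix (Fin 2) (Fin 2) ZQ) (s : I) :
    (r * build_G A) s .pt = r s .pt ∧ (∀ l, (r * build_G A) s (.gen l) = r s (.gen l)) ∧
      ∀ j, (r * build_G A) s (.rel j) = ∑ k, r s (.rel k) * A k j := by
  refine ⟨?_, fun l => ?_, fun j => ?_⟩
  · rw [Matrix.mul_apply, DI.sum_univ]
    simp [build_G, build_e]
  · rw [Matrix.mul_apply, DI.sum_univ]
    fin_cases l <;> simp [build_G, build_e]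
  · rw [Matrix.mul_apply, DI.sum_univ, Fin.sum_univ_two]
    simp [build_G, build_e]

theorem build_par {i j : DI} (h : i.deg = j.deg) : parD i = parD j := by
  rcases i with i | i | _ <;> rcases j with j | j | _ <;> first | rfl | simp [DI.deg] at h

theorem build_par2 : ∀ i : DI, decide (Even (i.deg + 1)) ≠ parD i := by decide

theorem build_dD_deg {i j : DI} (h : dD ℤ i j ≠ 0) : i.deg = j.deg + 1 := by
  rcases i with i | i | _ <;> rcases j with j | j | _ <;> first | rfl | exact absurd rfl h

theorem build_mul_ne {I J K : Type} [Fintype J] {a : Matrix I J ZQ} {b : Matrix J K ZQ} {i : I}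
    {k : K} (h : (a * b) i k ≠ 0) : ∃ j, a i j ≠ 0 ∧ b j k ≠ 0 := by
  rw [Matrix.mul_apply] at h
  obtain ⟨j, -, hj⟩ := Finset.exists_ne_zero_of_sum_ne_zero h
  exact ⟨j, left_ne_zero_of_mul hj, right_ne_zero_of_mul hj⟩

section
variable {A : Type} [Ring A] {T : Type} [CommRing T] {n : Type} [Fintype n] [DecidableEq n]
  {I J : Type} [Fintype I] [DecidableEq I] [Fintype J] [DecidableEq J]

theorem build_det_blocks (ρ : A →+* Matrix n n T) (a : Matrix I I A) (c : Matrix J J A) :
    (flat ρ (fromBlocks a 0 0 c)).det = (flat ρ a).det * (flat ρ c).det := by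
  rw [← det_fromBlocks_zero₂₁ (flat ρ a) 0 (flat ρ c),
    ← det_submatrix_equiv_self (Equiv.sumProdDistrib I J n)]
  congr 1
  ext ⟨i | i, x⟩ ⟨j | j, y⟩ <;> simp [flat_apply]

theorem build_det_sub (ρ : A →+* Matrix n n T) (a : Matrix I I A) (e : J ≃ I) :
    (flat ρ (a.submatrix e e)).det = (flat ρ a).det := by
  rw [← det_submatrix_equiv_self (Equiv.prodCongr e (Equiv.refl n)) (flat ρ a)]
  rfl

end

theorem build_even (Z : SC V) (A : Matrix (Fin 2) (Fin 2) ZQ) :
    IsEven (cpar Z) (fromBlocks (1 : Matrix Z.faces Z.faces ZQ) 0 0 (build_G A)) := by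
  rintro (s | i) (u | j) h
  · exact Matrix.one_apply_ne fun e => h (by rw [e])
  · rfl
  · rfl
  · by_contra h'
    exact h (build_par (build_G_deg h'))

theorem PP_of_stage {T : Type} [CommRing T] [Nice T] {ρ : Q →* Matrix (Fin 2) (Fin 2) T}
    (hρ : ∀ g, (ρ g).det = 1) (hA : ¬ IsSquare (flat (lin ρ) Amat).det)
    {B Z : SC V} {b : V} {ψ : V → V → F2} (hS : Stage b ψ B.faces Finset.univ)
    (hψ : B.IsCoc ψ) {a c : Fin 2 → V} (hT : TwoTri B b a c) (hZ : IsPlus B Z b a c)
    (hw : ∀ i, ψ b (a i) * ψ (a i) (c i) * ψ (c i) b = relL i) : PP ρ Z := by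
  obtain ⟨fox, f1, f2, f3, f4⟩ := exists_fox
  obtain ⟨A', hA1, hA2⟩ := Amat_inv
  have hd : Z.DimLE 2 := (plus_two ⟨hS.connected.1, hS.connected.2.1⟩ hT hZ).2
  obtain ⟨o, ho⟩ : ∃ o : V → ℕ, Set.InjOn o Z.verts := by
    refine Set.countable_iff_exists_injOn.1 (Set.Finite.countable ?_)
    refine (Z.faces.biUnion id).finite_toSet.subset fun v hv => ?_
    exact Finset.mem_coe.2 (Finset.mem_biUnion.2 ⟨{v}, hv, by simp⟩)
  set h : Finset V → Finset V → Q := fun s t => qq (ψ (build_bs b s) (build_bs b t)) with hh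
  set r : Matrix Z.faces DI ZQ := fun s =>
    build_r fox Z o b ψ (fun k => {b, a k, c k}) (build_eps o b a c) Amat s.1 with hr
  have hloc : Z.IsLoc h := fun s hs t ht u hu h1 h2 =>
    build_coc_edge (build_coc_plus hψ hT hZ hw) hs (build_bs_mem b (Z.ne s hs))
      (h1 (build_bs_mem b (Z.ne t ht))) (h1 (h2 (build_bs_mem b (Z.ne u hu))))
  have hgr : ∀ s i, r s i ≠ 0 → s.1.card = i.deg + 1 := fun s i h' => build_r_gr hT h'
  have hbd : ∀ s t, bd ℤ Z o h s t = inc o s.1 t.1 • el ℤ (h s.1 t.1) :=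
    fun s t => build_single _ _
  have hcx : IsCx (cpar Z) (cone Z o h r) := by
    constructor
    · rintro (s | i) (u | j) e
      · exact (bd_cx ℤ ho hloc).odd s u e
      · by_contra h'
        have h1 := hgr s j h'
        have h2 : decide (Even s.1.card) = parD j := e
        rw [h1] at h2
        exact build_par2 j h2
      · rfl
      · exact (dD_cx ℤ).odd i j e
    · have h0 : bd ℤ Z o h * r + r * dD ℤ = 0 := by
        ext1 s i
        rw [Matrix.add_apply, Matrix.mul_apply, Matrix.mul_apply, Matrix.zero_apply,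
          ← build_cx f1 f3 f4 hψ hT hZ hd hw ho s.2 i, ← Finset.sum_coe_sort Z.faces]
        simp only [hbd, smul_mul_assoc]
        rfl
      rw [cone, fromBlocks_multiply, (bd_cx ℤ ho hloc).sq, (dD_cx ℤ).sq, h0]
      simp
  set g := fromBlocks (1 : Matrix Z.faces Z.faces ZQ) 0 0 (build_G Amat) with hg
  set g' := fromBlocks (1 : Matrix Z.faces Z.faces ZQ) 0 0 (build_G A') with hg'
  have g1 : g' * g = 1 := by
    rw [hg, hg', fromBlocks_multiply, build_G_mul hA2]; simp
  have g2 : g * g' = 1 := by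
    rw [hg, hg', fromBlocks_multiply, build_G_mul hA1]; simp
  have hconj : g * cone Z o h r * g' = fromBlocks (bd ℤ Z o h) (r * build_G A') 0
      (build_G Amat * dD ℤ * build_G A') := by
    rw [hg, hg', cone, fromBlocks_multiply, fromBlocks_multiply]; simp
  have hedge : ∀ (s : Z.faces) u v, s.1 = {u, v} → u ≠ v → ∃ (η : ℤ) (q : Q), (η = 1 ∨ η = -1) ∧
      ∀ l, (r * build_G A') s (.gen l) = (η • el ℤ q) * fox (ψ u v) l := by
    intro s u v e huv
    have h1 : ({u, v} : Finset V) ∈ Z.faces := e ▸ s.2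
    obtain ⟨η, q, h2, h3⟩ := build_r_edge f1 ho hψ b (fun k => {b, a k, c k})
      (build_eps o b a c) Amat huv (build_mem_small hT hZ h1 Finset.card_le_two) h1
    refine ⟨η, q, h2, fun l => ?_⟩
    rw [(build_mul_G r A' s).2.1, ← h3, ← e]
  have hrel : ∀ (s : Z.faces) k j, s.1 = {b, a k, c k} →
      (r * build_G A') s (.rel j) = build_eps o b a c k • (1 : Matrix (Fin 2) (Fin 2) ZQ) k j := by
    intro s k j e
    rw [(build_mul_G r A' s).2.2, ← hA1, Matrix.mul_apply, Finset.smul_sum]
    simp only [hr, e, build_r_rel hT, smul_mul_assoc]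
  have H : build_Rows (lin ρ) B Z ψ (fun k => {b, a k, c k}) (g * cone Z o h r * g') := by
    rw [hconj]
    refine ⟨fun s u h' => (inc_ne_zero_iff (o := o)).1 fun e => h' ?_, fun s u h1 h2 => ?_,
      fun s i h' => ?_,
      fun s h1 => ?_, fun s u v l e huv h1 => ?_, fun s u v i l e huv h1 h2 => ?_,
      fun s u v i e huv h1 => ?_, fun s j h' => ?_, fun s j e => ?_, fun i s => rfl,
      fun i j h' => ?_⟩
    · rw [fromBlocks_apply₁₁, hbd, e, zero_smul]
    · rw [fromBlocks_apply₁₁, hbd]
      exact build_U_el hρ (inc_eq_or h1 h2) _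
    · obtain ⟨j, h1, h2⟩ := build_mul_ne (show (r * build_G A') s i ≠ 0 from h')
      rw [hgr s j h1, build_G_deg h2]
    · rw [fromBlocks_apply₁₂, (build_mul_G r A' s).1]
      have := build_U_el hρ (Or.inl rfl) 1
      rw [el_one, one_smul] at this
      simpa only [hr, build_r, if_pos h1] using this
    · obtain ⟨η, q, -, h3⟩ := hedge s u v e huv
      rw [fromBlocks_apply₁₂, h3, h1, build_fox_one f1, mul_zero]
    · obtain ⟨η, q, -, h3⟩ := hedge s u v e huv
      rw [fromBlocks_apply₁₂, h3, h1, f2, if_neg h2.symm, mul_zero]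
    · obtain ⟨η, q, h2, h3⟩ := hedge s u v e huv
      rw [fromBlocks_apply₁₂, h3, h1, f2, if_pos rfl, mul_one]
      exact build_U_el hρ h2 q
    · rw [fromBlocks_apply₁₂] at h'
      by_cases hk : ∃ k, s.1 = {b, a k, c k}
      · obtain ⟨k, e⟩ := hk
        by_cases hkj : k = j
        · exact hkj ▸ e
        · rw [hrel s k j e, Matrix.one_apply_ne hkj, smul_zero] at h'
          exact absurd rfl h'
      · refine absurd ?_ h'
        rw [(build_mul_G r A' s).2.2]
        refine Finset.sum_eq_zero fun k _ => ?_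
        rw [show r s (.rel k) = 0 from build_r_rel0 _ _ _ _ _ _ _ (not_exists.1 hk) k, zero_mul]
    · rw [fromBlocks_apply₁₂, hrel s j j e, Matrix.one_apply_eq, ← el_one]
      exact build_U_el hρ (build_eps_or hT o j) 1
    · obtain ⟨k, h1, h2⟩ := build_mul_ne
        (show (build_G Amat * dD ℤ * build_G A') i j ≠ 0 from h')
      obtain ⟨l, h3, h4⟩ := build_mul_ne h1
      rw [build_G_deg h3, build_dD_deg h4, build_G_deg h2]
  have hT' := build_triv (hcx.conj (build_even Z _) (build_even Z _) g1)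
    (build_good_all H hS hT hZ)
  have hcon : Contr (cpar Z) (cone Z o h r) := by
    have := hT'.con.conj (build_even Z A') (build_even Z Amat) g2 g1
    rwa [← hg, ← hg', ← Matrix.mul_assoc, ← Matrix.mul_assoc, g1, Matrix.one_mul, Matrix.mul_assoc,
      g1, Matrix.mul_one] at this
  refine ⟨o, h, r, ⟨ho, hloc, hgr, hcx, hcon⟩, fun e => hA ?_⟩
  have h1 := ftor_conj (lin ρ) hcx (hcon.flat _) (build_even Z Amat) (build_even Z A') g1
  rw [hT'.tor, e, build_det_blocks, build_G, build_det_sub, build_det_blocks, flat_one,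
    flat_one, det_one, det_one, mul_one, one_mul (flat (lin ρ) Amat).det] at h1
  refine (cls_eq_one_iff ?_).1 (h1.trans (one_mul (cls (flat (lin ρ) Amat).det))).symm
  refine IsUnit.of_mul_eq_one (flat (lin ρ) A').det ?_
  rw [← det_mul, ← flat_mul, hA1, flat_one, det_one]

end MP35
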