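import Pool.Agent.Lib.MP_35c604_gt.TorDefs

/-! The quaternion group of order 60, its Fox complex, the representation, crossed modules
(definitions only). -/

namespace MP35

open Matrix

abbrev Q := QuaternionGroup 15

def gx : Q := QuaternionGroup.a 1
def gy : Q := QuaternionGroup.xa 0
def gen : Fin 2 → Q := ![gx, gy]

abbrev KQ (k : Type) [CommRing k] := MonoidAlgebra k Q
abbrev ZQ := MonoidAlgebra ℤ Q

section
variable (k : Type) [CommRing k]

noncomputable def el (g : Q) : KQ k := MonoidAlgebra.single g 1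

noncomputable def NN : KQ k := ∑ g : Q, el k g

noncomputable def red : ZQ →+* KQ k := MonoidAlgebra.mapRingHom Q (Int.castRingHom k)

/-- Fox derivatives of the relators `y⁻² x¹⁵` and `y⁻¹ x y x`. -/
noncomputable def foxM : Matrix (Fin 2) (Fin 2) (KQ k) :=
  !![el k (gy⁻¹ ^ 2) * ∑ i ∈ Finset.range 15, el k (gx ^ i), -el k gy⁻¹ - el k (gy⁻¹ ^ 2);
    el k gy⁻¹ + el k gx⁻¹, el k (gy⁻¹ * gx) - el k gy⁻¹]

/-- The generator of the identities among the relators. -/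
noncomputable def u0 : Fin 2 → KQ k := ![el k gx - 1, el k gy⁻¹ - el k gx]

/-- The 2-cycles of the Fox complex. -/
noncomputable def WK : Submodule k (Fin 2 → KQ k) where
  carrier := {w | w ᵥ* foxM k = 0}
  add_mem' := fun {a b} ha hb => by
    simp only [Set.mem_ofPred_eq] at ha hb ⊢
    rw [Matrix.add_vecMul, ha, hb, add_zero]
  zero_mem' := Matrix.zero_vecMul _
  smul_mem' := fun c a ha => by
    simp only [Set.mem_ofPred_eq] at ha ⊢
    rw [Matrix.smul_vecMul, ha, smul_zero]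

end

/-- The cells of the presentation complex. -/
inductive DI : Type
  | rel (j : Fin 2)
  | gen (i : Fin 2)
  | pt
  deriving DecidableEq, Fintype

def DI.deg : DI → ℕ
  | .rel _ => 2
  | .gen _ => 1
  | .pt => 0

def parD : DI → Bool
  | .rel _ => true
  | .gen _ => false
  | .pt => true

theorem DI.sum_univ {M : Type} [AddCommMonoid M] (f : DI → M) :
    ∑ i, f i = f (.rel 0) + f (.rel 1) + f (.gen 0) + f (.gen 1) + f .pt := by
  have : (Finset.univ : Finset DI) = {.rel 0, .rel 1, .gen 0, .gen 1, .pt} := by decide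
  rw [this, Finset.sum_insert (by decide), Finset.sum_insert (by decide),
    Finset.sum_insert (by decide), Finset.sum_insert (by decide), Finset.sum_singleton]
  simp only [add_assoc]

noncomputable def dD (k : Type) [CommRing k] : Matrix DI DI (KQ k) := fun i j =>
  match i, j with
  | .rel j, .gen i => foxM k j i
  | .gen i, .pt => el k (gen i) - 1
  | _, _ => 0

/-- The Fox complex with one 3-cell attached along `w`. -/
noncomputable def dDp (w : Fin 2 → ZQ) : Matrix (Option DI) (Option DI) ZQ := fun i j =>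
  match i, j with
  | none, some (.rel j) => w j
  | some i, some j => dD ℤ i j
  | _, _ => 0

def parDp : Option DI → Bool
  | none => false
  | some i => parD i

/-- Element of the group ring from 60 coefficients: first `a 0 .. a 29`, then `xa 0 .. xa 29`. -/
noncomputable def ofL (l : List ℤ) : ZQ :=
  ∑ i ∈ Finset.range 30, (l.getD i 0 • el ℤ (QuaternionGroup.a (i : ZMod (2 * 15))) +
    l.getD (30 + i) 0 • el ℤ (QuaternionGroup.xa (i : ZMod (2 * 15))))

noncomputable def cvec : Fin 2 → ZQ :=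
  ![ofL [2, 1, 1, 0, -1, -1, -1, 0, 0, 0, 0, 2, 1, 1, 0, 2, 1, 0, -1, 0, 0, -2, -3, -1, 1, 0, 1, 1,
      2, 1, -1, -1, 0, 1, 0, 1, 1, 2, 0, 0, -1, -1, -2, -2, -1, -1, 0, 0, 2, 2, 2, 2, 2, 1, -1, -1,
      -1, -1, -1, -1],
    ofL [0, 1, 2, 0, 2, 1, 1, 0, -1, 0, -1, -2, -1, 0, 0, 0, 0, 2, 1, 2, 0, 1, 1, 0, -2, -1, -1, 0,
      0, -1, 1, 2, 0, 1, 0, 0, -1, -2, -1, -1, 0, 0, 1, 1, 2, 1, 0, 1, 0, 0, 0, 0, -1, -2, -1, 0, 0,
      0, 1, 2]]

noncomputable def Ap : Matrix (Fin 2) (Fin 2) ZQ :=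
  !![1, el ℤ (gx ^ 25) - el ℤ (gx ^ 22) - el ℤ (gx ^ 28); 0, el ℤ gx - 2]

noncomputable def Amat : Matrix (Fin 2) (Fin 2) ZQ :=
  Matrix.of fun i j => Ap i j + cvec i * u0 ℤ j

/-- The linear extension of a representation. -/
noncomputable def lin {G T n : Type} [Group G] [CommRing T] [Fintype n] [DecidableEq n]
    (ρ : G →* Matrix n n T) : MonoidAlgebra ℤ G →+* Matrix n n T :=
  (MonoidAlgebra.lift ℤ (Matrix n n T) G ρ).toRingHom

theorem lin_single {G T n : Type} [Group G] [CommRing T] [Fintype n] [DecidableEq n]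
    (ρ : G →* Matrix n n T) (g : G) (c : ℤ) : lin ρ (MonoidAlgebra.single g c) = c • ρ g :=
  MonoidAlgebra.lift_single ρ g c

section
variable {T : Type} [CommRing T]

def pw (ξ : Tˣ) (i : ZMod (2 * 15)) : Tˣ := ξ ^ i.val

theorem pw_add {ξ : Tˣ} (h : (ξ : T) ^ 15 = -1) (i j : ZMod (2 * 15)) :
    pw ξ (i + j) = pw ξ i * pw ξ j := by
  have h30 : ξ ^ (2 * 15) = 1 := by
    apply Units.ext
    rw [Units.val_pow_eq_pow_val, mul_comm, pow_mul, h]; simp
  unfold pw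
  rw [ZMod.val_add, ← pow_eq_pow_mod _ h30, pow_add]

theorem pw_zero (ξ : Tˣ) : pw ξ 0 = 1 := by unfold pw; simp

theorem pw_neg {ξ : Tˣ} (h : (ξ : T) ^ 15 = -1) (i : ZMod (2 * 15)) : pw ξ (-i) = (pw ξ i)⁻¹ := by
  rw [eq_inv_iff_mul_eq_one, ← pw_add h, neg_add_cancel, pw_zero]

theorem pw_half {ξ : Tˣ} (h : (ξ : T) ^ 15 = -1) : pw ξ ((15 : ℕ) : ZMod (2 * 15)) = -1 := by
  apply Units.ext
  unfold pw
  rw [show (((15 : ℕ) : ZMod (2 * 15))).val = 15 from by decide, Units.val_pow_eq_pow_val, h]; simp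

def rhoF (ξ : Tˣ) : Q → Matrix (Fin 2) (Fin 2) T
  | .a i => !![(pw ξ i : T), 0; 0, ((pw ξ i)⁻¹ : Tˣ)]
  | .xa i => !![0, ((pw ξ i)⁻¹ : Tˣ); -(pw ξ i : T), 0]

/-- The two-dimensional representation `x ↦ diag (ξ, ξ⁻¹)`, `y ↦ [[0,1],[-1,0]]`. -/
def rho (ξ : Tˣ) (h : (ξ : T) ^ 15 = -1) : Q →* Matrix (Fin 2) (Fin 2) T where
  toFun := rhoF ξ
  map_one' := by
    rw [QuaternionGroup.one_def]
    simp [rhoF, pw_zero, Matrix.one_fin_two]
  map_mul' := by
    rintro (i | i) (j | j)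
    · simp [rhoF, pw_add h, mul_comm]
    · simp [rhoF, sub_eq_add_neg, pw_add h, pw_neg h, mul_comm]
    · simp [rhoF, pw_add h, mul_comm]
    · rw [QuaternionGroup.xa_mul_xa]
      simp only [rhoF, sub_eq_add_neg, pw_add h, pw_neg h, pw_half h]
      simp [mul_comm]

def delta (ξ : T) : T :=
  3 - ξ - ξ ^ 2 + ξ ^ 4 - ξ ^ 6 + ξ ^ 7 - ξ ^ 8 + ξ ^ 9 - ξ ^ 11 + ξ ^ 13 + ξ ^ 14

def om (a b : Fin 2 → T) : T := a 0 * b 1 - a 1 * b 0

/-- Existence of a decoration all of whose Ptolemy coordinates have good square roots. -/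
structure Iface {G : Type} [Group G] (ρ : G →* Matrix (Fin 2) (Fin 2) T) : Prop where
  det : ∀ g, (ρ g).det = 1
  ex : ∃ (M : Subgroup Tˣ) (sv : ℕ → Fin 2 → T), (∀ m ∈ M, ∃ u : Tˣ, m = u ^ 2) ∧
    (∀ a ∈ M, ∀ b ∈ M, (a : T) ^ 2 + (b : T) ^ 2 = 1 → ∃ u : Tˣ, 1 - (a : T) = (u : T) ^ 2) ∧
    (∀ i, sv i 0 = 1) ∧
    ∀ i j, i ≠ j → ∀ g, ∃ γ ∈ M, om (sv i) (ρ g *ᵥ sv j) = (γ : T) ^ 2

end

abbrev F2 := FreeGroup (Fin 2)

def fx : F2 := FreeGroup.of 0
def fy : F2 := FreeGroup.of 1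
def qq : F2 →* Q := FreeGroup.lift gen
def rr : F2 := fy⁻¹ * fx * fy * fx
def relK : Fin 2 → F2 := ![fy⁻¹ ^ 2 * fx ^ 15, rr]
def relL : Fin 2 → F2 :=
  ![fy⁻¹ ^ 2 * fx ^ 7 * rr⁻¹ * fx ^ 3 * rr * fx ^ 3 * rr⁻¹ * fx ^ 2, fx * rr * fx⁻¹ * rr⁻¹ * rr⁻¹]

section crossed
variable {F G ι ι' : Type} [Group F] [Group G]

/-- Boundary of a formal product of conjugates of relators. -/
def cbd (R : ι → F) : FreeGroup (F × ι) →* F := FreeGroup.lift fun x => x.1 * R x.2 * x.1⁻¹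

/-- The 2-chain of a formal product of conjugates of relators. -/
noncomputable def cab [DecidableEq ι] (q : F →* G) :
    FreeGroup (F × ι) →* Multiplicative (ι → MonoidAlgebra ℤ G) :=
  FreeGroup.lift fun x => Multiplicative.ofAdd (Pi.single x.2 (MonoidAlgebra.single (q x.1) 1))

structure Cat1 (H P : Type) [Group H] [Group P] where
  s : H →* P
  t : H →* P
  i : P →* H
  si : ∀ x, s (i x) = x
  ti : ∀ x, t (i x) = x
  comm : ∀ a b, s a = 1 → t b = 1 → a * b = b * a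

def cev {H P : Type} [Group H] [Group P] (i : P →* H) (θ : F →* P) (l : ι → H) :
    FreeGroup (F × ι) →* H :=
  FreeGroup.lift fun x => i (θ x.1) * l x.2 * (i (θ x.1))⁻¹

def HalfEq (R : ι → F) (w : ι' → F) (W : ι' → FreeGroup (F × ι)) (W' : ι → FreeGroup (F × ι')) :
    Prop :=
  ∀ (H P : Type) [Group H] [Group P] (C : Cat1 H P) (θ : F →* P) (l : ι' → H),
    (∀ i, C.t (l i) = 1) → (∀ i, C.s (l i) = θ (w i)) →
    (∀ j, C.s (cev C.i θ l (W' j)) = θ (R j)) ∧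
      ∀ i, cev C.i θ (fun j => cev C.i θ l (W' j)) (W i) = l i

/-- The free crossed modules on `R` and on `w` are isomorphic over `F`. -/
def CrossedEq (R : ι → F) (w : ι' → F) : Prop :=
  ∃ (W : ι' → FreeGroup (F × ι)) (W' : ι → FreeGroup (F × ι')), HalfEq R w W W' ∧ HalfEq w R W' W

end crossed

end MP35
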