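import Pool.Agent.Lib.MP_35c604_gt.Basic
import Pool.Agent.Lib.MP_35c604_gt.Q60

/-! Simplicial chains with local coefficients and the invariant `PP` (definitions only). -/

namespace MP35

open Matrix

variable {V : Type} [DecidableEq V]

/-- Position of `v` in `s` for the order given by `o`. -/
def pos (o : V → ℕ) (s : Finset V) (v : V) : ℕ := (s.filter fun w => o w < o v).card

/-- Incidence number of the face `t` in `s`. -/
def inc (o : V → ℕ) (s t : Finset V) : ℤ :=
  ∑ v ∈ s, if t = s.erase v then (-1) ^ pos o s v else 0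

/-- The boundary matrix (row `s` is the boundary of `s`). -/
noncomputable def bd (k : Type) [CommRing k] {G : Type} [Group G] (K : SC V) (o : V → ℕ)
    (h : Finset V → Finset V → G) : Matrix K.faces K.faces (MonoidAlgebra k G) :=
  fun s t => MonoidAlgebra.single (h s.1 t.1) (inc o s.1 t.1 : k)

/-- Vertices and triangles are even, edges and tetrahedra are odd. -/
def par (s : Finset V) : Bool := decide (Even s.card)

def fpar (K : SC V) : K.faces → Bool := fun s => par s.1

def cpar (K : SC V) : K.faces ⊕ DI → Bool := Sum.elim (fpar K) parD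

/-- The mapping cone of `r` from the chains of `K` to the Fox complex. -/
noncomputable def cone (K : SC V) (o : V → ℕ) (h : Finset V → Finset V → Q)
    (r : Matrix K.faces DI ZQ) : Matrix (K.faces ⊕ DI) (K.faces ⊕ DI) ZQ :=
  fromBlocks (bd ℤ K o h) r 0 (dD ℤ)

structure Dat (K : SC V) (o : V → ℕ) (h : Finset V → Finset V → Q) (r : Matrix K.faces DI ZQ) :
    Prop where
  inj : Set.InjOn o K.verts
  loc : K.IsLoc h
  gr : ∀ s i, r s i ≠ 0 → s.1.card = i.deg + 1
  cx : IsCx (cpar K) (cone K o h r)
  con : Contr (cpar K) (cone K o h r)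

/-- The invariant: a chain equivalence to the Fox complex whose torsion is not a square. -/
def PP {T : Type} [CommRing T] (ρ : Q →* Matrix (Fin 2) (Fin 2) T) (K : SC V) : Prop :=
  ∃ o h r, Dat K o h r ∧ ftor (lin ρ) (cpar K) (cone K o h r) ≠ 1

/-- Steps which build a 2-complex from a point: a new vertex with an edge (`v`), a generator edge
(`g`), a new edge with a triangle (`e`). `J` is the set of generators already used. -/
inductive Stage (b : V) (ψ : V → V → F2) : Finset (Finset V) → Finset (Fin 2) → Prop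
  | base : Stage b ψ {{b}} ∅
  | v (S J a v) : Stage b ψ S J → {a} ∈ S → {v} ∉ S → {a, v} ∉ S → ψ a v = 1 →
      Stage b ψ (insert {a, v} (insert {v} S)) J
  | g (S J i u v) : Stage b ψ S J → {u} ∈ S → {v} ∈ S → u ≠ v → {u, v} ∉ S → i ∉ J →
      ψ u v = FreeGroup.of i → Stage b ψ (insert {u, v} S) (insert i J)
  | e (S u a v) : Stage b ψ S Finset.univ → {u, a} ∈ S → {a, v} ∈ S → u ≠ v → u ≠ a → a ≠ v →
      {u, v} ∉ S → {u, a, v} ∉ S → Stage b ψ (insert {u, a, v} (insert {u, v} S)) Finset.univ

/-- Two different triangles `{b, a i, c i}` which are not in `B` but whose edges are. -/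
structure TwoTri (B : SC V) (b : V) (a c : Fin 2 → V) : Prop where
  ba : ∀ i, b ≠ a i
  bc : ∀ i, b ≠ c i
  ac : ∀ i, a i ≠ c i
  e1 : ∀ i, ({b, a i} : Finset V) ∈ B.faces
  e2 : ∀ i, ({a i, c i} : Finset V) ∈ B.faces
  e3 : ∀ i, ({b, c i} : Finset V) ∈ B.faces
  new : ∀ i, ({b, a i, c i} : Finset V) ∉ B.faces
  ne : ({b, a 0, c 0} : Finset V) ≠ {b, a 1, c 1}

/-- `Z` is `B` with the two triangles added. -/
def IsPlus (B Z : SC V) (b : V) (a c : Fin 2 → V) : Prop :=
  Z.faces = insert {b, a 0, c 0} (insert {b, a 1, c 1} B.faces)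

end MP35
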