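import Pool.Agent.Lib.MP_35c604_gt.XT2

/-! TASK CHI: Euler characteristic counts. -/

namespace MP35
namespace SC

variable {V : Type} [DecidableEq V]

/-- The faces above `s` with `k` vertices. -/
def chi_ab (M : SC V) (s : Finset V) (k : ℕ) : Finset (Finset V) :=
  M.faces.filter fun t => s ⊆ t ∧ t.card = k

theorem chi_mem_ab {M : SC V} {s t : Finset V} {k : ℕ} :
    t ∈ chi_ab M s k ↔ t ∈ M.faces ∧ s ⊆ t ∧ t.card = k := Finset.mem_filter

theorem chi_ec {M : SC V} (h : M.DimLE 3) (s : Finset V) : M.ec s =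
    ∑ k ∈ Finset.range 5, (-1) ^ k * ((chi_ab M s k).card : ℤ) := by
  rw [ec, ← Finset.sum_fiberwise_of_maps_to (g := Finset.card) (t := Finset.range 5)
    fun t ht => Finset.mem_range.2 (Nat.lt_succ_of_le (h t (Finset.mem_filter.1 ht).1))]
  refine Finset.sum_congr rfl fun k _ => ?_
  rw [Finset.filter_filter, Finset.sum_congr rfl (g := fun _ => (-1 : ℤ) ^ k)
    fun t ht => by rw [(Finset.mem_filter.1 ht).2.2], Finset.sum_const, nsmul_eq_mul, mul_comm]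
  rfl

theorem chi_ab_lt {M : SC V} {s : Finset V} {k : ℕ} (h : k < s.card) : (chi_ab M s k).card = 0 := by
  rw [Finset.card_eq_zero, Finset.eq_empty_iff_forall_notMem]
  intro t ht
  obtain ⟨-, h1, h2⟩ := chi_mem_ab.1 ht
  have := Finset.card_le_card h1
  omega

theorem chi_ab_self {M : SC V} {s : Finset V} (hs : s ∈ M.faces) {k : ℕ} (h : s.card = k) :
    (chi_ab M s k).card = 1 := by
  refine Finset.card_eq_one.2 ⟨s, Finset.eq_singleton_iff_unique_mem.2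
    ⟨chi_mem_ab.2 ⟨hs, subset_rfl, h⟩, fun t ht => ?_⟩⟩
  obtain ⟨-, h1, h2⟩ := chi_mem_ab.1 ht
  exact (Finset.eq_of_subset_of_card_le h1 (by omega)).symm

theorem chi_edge {M : SC V} {U : V → Prop} (h : Loc M U) {s : Finset V} (h2 : s.card = 2)
    (hU : ∃ v ∈ s, U v) : (chi_ab M s 3).card = (chi_ab M s 4).card := by
  refine Nat.eq_of_mul_eq_mul_right two_pos (Finset.card_mul_eq_card_mul (· ⊆ ·) ?_ ?_)
  · intro f hf
    obtain ⟨f1, f2, f3⟩ := chi_mem_ab.1 hf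
    obtain ⟨v, hv, hU⟩ := hU
    rw [← h.thin f f1 f3 ⟨v, f2 hv, hU⟩, deg]
    congr 1
    ext t
    simp only [Finset.mem_bipartiteAbove, chi_mem_ab, Finset.mem_filter, f3]
    exact ⟨fun ⟨⟨a, _, b⟩, c⟩ => ⟨a, c, b⟩, fun ⟨a, c, b⟩ => ⟨⟨a, f2.trans c, b⟩, c⟩⟩
  · intro t ht
    obtain ⟨t1, t2, t3⟩ := chi_mem_ab.1 ht
    have e : (t \ s).card = 2 := by rw [Finset.card_sdiff_of_subset t2, t3, h2]
    rw [← e]
    symm
    refine Finset.card_bij (fun v _ => insert v s) (fun v hv => ?_) (fun v hv w hw e => ?_)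
      fun f hf => ?_
    · obtain ⟨v1, v2⟩ := Finset.mem_sdiff.1 hv
      have := Finset.insert_subset v1 t2
      exact Finset.mem_bipartiteBelow _ |>.2 ⟨chi_mem_ab.2 ⟨M.down t t1 _ this
        (Finset.insert_nonempty _ _), Finset.subset_insert _ _,
        by rw [Finset.card_insert_of_notMem v2, h2]⟩, this⟩
    · exact (Finset.insert_inj (Finset.mem_sdiff.1 hv).2).1 e
    · obtain ⟨f0, f4⟩ := (Finset.mem_bipartiteBelow _).1 hf
      obtain ⟨-, f2, f3⟩ := chi_mem_ab.1 f0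
      obtain ⟨v, v1, v2⟩ := Finset.exists_eq_insert_iff.2 ⟨f2, by omega⟩
      exact ⟨v, Finset.mem_sdiff.2 ⟨f4 (v2 ▸ Finset.mem_insert_self _ _), v1⟩, v2⟩

theorem ec_eq_one {M : SC V} {U : V → Prop} (h : Loc M U) (s : Finset V) (hs : s ∈ M.faces)
    (h2 : 2 ≤ s.card) (hU : ∃ v ∈ s, U v) : M.ec s = 1 := by
  have h4 := h.pure.1 s hs
  rw [chi_ec h.pure.1]
  simp only [Finset.sum_range_succ, Finset.range_zero, Finset.sum_empty]
  rw [chi_ab_lt (k := 0) (by omega), chi_ab_lt (k := 1) (by omega)]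
  obtain e | e | e : s.card = 2 ∨ s.card = 3 ∨ s.card = 4 := by omega
  · rw [chi_ab_self hs e, chi_edge h e hU]
    push_cast
    ring
  · have := h.thin s hs e hU
    rw [deg, e] at this
    rw [chi_ab_lt (k := 2) (by omega), chi_ab_self hs e, chi_ab, this]
    norm_num
  · rw [chi_ab_lt (k := 2) (by omega), chi_ab_lt (k := 3) (by omega), chi_ab_self hs e]
    norm_num

open Classical in
/-- The chains, possibly empty, in a family of finite sets. -/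
noncomputable def chi_ch (P : Finset (Finset V)) : Finset (Finset (Option (Finset V))) :=
  (P.image some).powerset.filter fun s => ∀ τ τ', some τ ∈ s → some τ' ∈ s → τ ⊆ τ' ∨ τ' ⊆ τ

theorem chi_mem_ch {P : Finset (Finset V)} {s : Finset (Option (Finset V))} : s ∈ chi_ch P ↔
    none ∉ s ∧ (∀ τ, some τ ∈ s → τ ∈ P) ∧ ∀ τ τ', some τ ∈ s → some τ' ∈ s → τ ⊆ τ' ∨ τ' ⊆ τ := by
  classical
  rw [chi_ch, Finset.mem_filter, Finset.mem_powerset, ← and_assoc]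
  refine and_congr_left' ⟨fun h => ⟨fun hn => by simpa using h hn, fun τ hτ => by
    simpa using h hτ⟩, fun h => ?_⟩
  rintro (_ | τ) ha
  · exact (h.1 ha).elim
  · exact Finset.mem_image_of_mem _ (h.2 τ ha)

theorem chi_ch_rec {P : Finset (Finset V)} {σ : Finset V} (hσ : σ ∈ P)
    (hm : ∀ τ ∈ P, τ ⊆ σ → τ = σ) : ∑ s ∈ chi_ch P, (-1 : ℤ) ^ s.card =
      ∑ s ∈ chi_ch (P.erase σ), (-1) ^ s.card -
        ∑ s ∈ chi_ch ((P.erase σ).filter (σ ⊆ ·)), (-1) ^ s.card := by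
  rw [← Finset.sum_filter_not_add_sum_filter _ (some σ ∈ ·), sub_eq_add_neg,
    ← Finset.sum_neg_distrib]
  congr 1
  · congr 1
    ext s
    simp only [Finset.mem_filter, chi_mem_ch, Finset.mem_erase]
    exact ⟨fun ⟨⟨a, b, c⟩, d⟩ => ⟨a, fun τ h => ⟨fun e => d (e ▸ h), b τ h⟩, c⟩,
      fun ⟨a, b, c⟩ => ⟨⟨a, fun τ h => (b τ h).2, c⟩, fun h => (b σ h).1 rfl⟩⟩
  · refine Finset.sum_nbij' (·.erase (some σ)) (insert (some σ)) (fun s hs => ?_) (fun s hs => ?_)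
      (fun s hs => ?_) (fun s hs => ?_) fun s hs => ?_
    · obtain ⟨h0, d⟩ := Finset.mem_filter.1 hs
      obtain ⟨a, b, c⟩ := chi_mem_ch.1 h0
      refine chi_mem_ch.2 ⟨fun h => a (Finset.mem_of_mem_erase h), fun τ h => ?_,
        fun τ τ' h h' => c τ τ' (Finset.mem_of_mem_erase h) (Finset.mem_of_mem_erase h')⟩
      obtain ⟨h1, h2⟩ := Finset.mem_erase.1 h
      have h3 : τ ≠ σ := fun e => h1 (e ▸ rfl)
      exact Finset.mem_filter.2 ⟨Finset.mem_erase.2 ⟨h3, b τ h2⟩,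
        (c σ τ d h2).resolve_right fun h4 => h3 (hm τ (b τ h2) h4)⟩
    · obtain ⟨a, b, c⟩ := chi_mem_ch.1 hs
      refine Finset.mem_filter.2 ⟨chi_mem_ch.2 ⟨by simpa using a, fun τ h => ?_,
        fun τ τ' h h' => ?_⟩, Finset.mem_insert_self _ _⟩
      · rcases Finset.mem_insert.1 h with h | h
        · cases h
          exact hσ
        · exact Finset.mem_of_mem_erase (Finset.mem_filter.1 (b τ h)).1
      · rcases Finset.mem_insert.1 h with h | h <;> rcases Finset.mem_insert.1 h' with h' | h'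
        · cases h
          cases h'
          exact Or.inl subset_rfl
        · cases h
          exact Or.inl (Finset.mem_filter.1 (b τ' h')).2
        · cases h'
          exact Or.inr (Finset.mem_filter.1 (b τ h)).2
        · exact c τ τ' h h'
    · exact Finset.insert_erase (Finset.mem_filter.1 hs).2
    · exact Finset.erase_insert fun h =>
        (Finset.mem_erase.1 (Finset.mem_filter.1 ((chi_mem_ch.1 hs).2.1 σ h)).1).1 rfl
    · rw [← Finset.card_erase_add_one (Finset.mem_filter.1 hs).2, pow_succ, mul_neg_one]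

theorem chi_ch_sum {M : SC V} (P : Finset (Finset V)) (h1 : P ⊆ M.faces)
    (h2 : ∀ σ ∈ P, ∀ τ ∈ M.faces, σ ⊆ τ → τ ∈ P) (h3 : ∀ σ ∈ P, M.ec σ = 1) :
    ∑ s ∈ chi_ch P, (-1 : ℤ) ^ s.card = 1 - ∑ σ ∈ P, (-1) ^ σ.card := by
  induction P using Finset.strongInduction with
  | H P ih =>
    rcases P.eq_empty_or_nonempty with rfl | hne
    · have : chi_ch (∅ : Finset (Finset V)) = {∅} := by
        ext s
        rw [chi_mem_ch, Finset.mem_singleton]
        refine ⟨fun h => Finset.eq_empty_of_forall_notMem ?_, by rintro rfl; simp⟩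
        rintro (_ | τ) ha
        · exact h.1 ha
        · simpa using h.2.1 τ ha
      simp [this]
    obtain ⟨σ, hσ, hm⟩ := Finset.exists_min_image P Finset.card hne
    have hm' : ∀ τ ∈ P, τ ⊆ σ → τ = σ := fun τ h h' => Finset.eq_of_subset_of_card_le h' (hm τ h)
    have up : ∀ a ∈ P.erase σ, ∀ τ ∈ M.faces, a ⊆ τ → τ ∈ P.erase σ := fun a ha τ hτ h => by
      obtain ⟨a1, a2⟩ := Finset.mem_erase.1 ha
      exact Finset.mem_erase.2 ⟨fun e => a1 (hm' a a2 (e ▸ h)), h2 a a2 τ hτ h⟩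
    have s1 := Finset.erase_subset σ P
    have s2 := Finset.filter_subset (σ ⊆ ·) (P.erase σ)
    have e : (P.erase σ).filter (σ ⊆ ·) = (M.faces.filter (σ ⊆ ·)).erase σ := by
      ext τ
      simp only [Finset.mem_filter, Finset.mem_erase]
      exact ⟨fun ⟨⟨a, b⟩, c⟩ => ⟨a, h1 b, c⟩, fun ⟨a, b, c⟩ => ⟨⟨a, h2 σ hσ τ b c⟩, c⟩⟩
    rw [chi_ch_rec hσ hm', ih _ (Finset.erase_ssubset hσ) (s1.trans h1) up fun a ha => h3 a (s1 ha),
      ih _ (s2.trans_ssubset (Finset.erase_ssubset hσ)) ((s2.trans s1).trans h1)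
        (fun a ha τ hτ h => Finset.mem_filter.2 ⟨up a (s2 ha) τ hτ h,
          (Finset.mem_filter.1 ha).2.trans h⟩) fun a ha => h3 a (s1 (s2 ha)), e,
      Finset.sum_erase_eq_sub hσ, Finset.sum_erase_eq_sub (Finset.mem_filter.2 ⟨h1 hσ, subset_rfl⟩)]
    have := h3 σ hσ
    rw [ec] at this
    rw [this]
    ring

omit [DecidableEq V] in
theorem chi_neg (K : SC V) : K.chi = -∑ s ∈ K.faces, (-1) ^ s.card := by
  simp only [chi, pow_succ, mul_neg_one, Finset.sum_neg_distrib]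

theorem stageB_chi {M K : SC V} {U : V → Prop} (h : Loc M U) (hK : K.faces ⊆ M.faces)
    (hU : ∀ v ∈ K.verts, U v) (he : ∀ v ∈ K.verts, M.ec {v} = 1) :
    (XC M U).meetSum (Bar K) = K.chi := by
  classical
  obtain ⟨P, hP⟩ : ∃ P : Finset (Finset V), ∀ τ, τ ∈ P ↔ τ ∈ M.faces ∧ ∃ v ∈ τ, v ∈ K.verts :=
    ⟨M.faces.filter _, fun _ => Finset.mem_filter⟩
  have p1 : P ⊆ M.faces := fun τ h => ((hP τ).1 h).1
  have p2 : ∀ σ ∈ P, ∀ τ ∈ M.faces, σ ⊆ τ → τ ∈ P := fun σ a τ b c => by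
    obtain ⟨-, v, d, e⟩ := (hP σ).1 a
    exact (hP τ).2 ⟨b, v, c d, e⟩
  have p3 : ∀ σ ∈ P, M.ec σ = 1 := fun σ a => by
    obtain ⟨b, v, d, e⟩ := (hP σ).1 a
    by_cases h2 : 2 ≤ σ.card
    · exact ec_eq_one h σ b h2 ⟨v, d, hU v e⟩
    · rw [Finset.eq_singleton_iff_unique_mem.2
        ⟨d, fun w hw => Finset.card_le_one.1 (by omega) w hw v d⟩]
      exact he v e
  have p4 : K.faces ⊆ P := fun σ a => by
    obtain ⟨v, hv⟩ := K.ne σ a
    exact (hP σ).2 ⟨hK a, v, hv, mem_verts_of_mem a hv⟩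
  have q1 := chi_ch_sum P p1 p2 p3
  have q2 := chi_ch_sum (M := M) (P \ K.faces) (Finset.sdiff_subset.trans p1) (fun σ a τ b c => by
    obtain ⟨a1, a2⟩ := Finset.mem_sdiff.1 a
    exact Finset.mem_sdiff.2 ⟨p2 σ a1 τ b c, fun d => a2 (K.down τ d σ c (M.ne σ (p1 a1)))⟩)
    fun σ a => p3 σ (Finset.mem_sdiff.1 a).1
  have q3 : chi_ch (P \ K.faces) ⊆ chi_ch P := fun s hs => by
    obtain ⟨a, b, c⟩ := chi_mem_ch.1 hs
    exact chi_mem_ch.2 ⟨a, fun τ h => (Finset.mem_sdiff.1 (b τ h)).1, c⟩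
  rw [meetSum, chi_neg, Finset.sum_congr (s₂ := chi_ch P \ chi_ch (P \ K.faces)) ?_ fun _ _ => rfl,
    Finset.sum_sdiff_eq_sub q3, q1, q2, Finset.sum_sdiff_eq_sub p4]
  · ring
  ext s
  rw [Finset.mem_filter, Finset.mem_sdiff, chi_mem_ch, chi_mem_ch]
  constructor
  · rintro ⟨hs, _, hv, σ, hσ, rfl⟩
    have hn := xt2_none hs hv fun v hv => hU v (mem_verts_of_mem hσ hv)
    obtain ⟨-, a, b, -⟩ := mem_XC.1 hs
    refine ⟨⟨hn, fun τ h => ?_, b⟩, fun h => (Finset.mem_sdiff.1 (h.2.1 σ hv)).2 hσ⟩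
    rcases b σ τ hv h with c | c
    · exact p2 σ (p4 hσ) τ (a τ h).1 c
    · exact p4 (K.down σ hσ τ c (M.ne τ (a τ h).1))
  · rintro ⟨⟨a, b, c⟩, d⟩
    obtain ⟨σ, h1, h2⟩ : ∃ σ, some σ ∈ s ∧ σ ∈ K.faces := by
      by_contra hc
      exact d ⟨a, fun τ h => Finset.mem_sdiff.2 ⟨b τ h, fun h' => hc ⟨τ, h, h'⟩⟩, c⟩
    refine ⟨mem_XC.2 ⟨⟨_, h1⟩, fun τ h => ?_, c, fun h => (a h).elim⟩, _, h1, σ, h2, rfl⟩
    obtain ⟨e, v, f, g⟩ := (hP τ).1 (b τ h)
    exact ⟨e, v, f, hU v g⟩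

theorem stageC_chi {M K : SC V} {U : V → Prop} (h : Loc M U) (hK : Full M U K) :
    ((XC M U).link none).chi = M.meetSum U + K.chi := by
  classical
  obtain ⟨P, hP⟩ : ∃ P : Finset (Finset V), ∀ τ, τ ∈ P ↔
      τ ∈ M.faces ∧ (∃ v ∈ τ, U v) ∧ ∃ v ∈ τ, ¬ U v :=
    ⟨M.faces.filter _, fun _ => Finset.mem_filter⟩
  have q1 := chi_ch_sum (M := M) P (fun τ h => ((hP τ).1 h).1) (fun σ a τ b c => by
    obtain ⟨-, ⟨v, d, e⟩, w, f, g⟩ := (hP σ).1 a
    exact (hP τ).2 ⟨b, ⟨v, c d, e⟩, w, c f, g⟩) fun σ a => by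
    obtain ⟨b, ⟨v, d, e⟩, w, f, g⟩ := (hP σ).1 a
    exact ec_eq_one h σ b (Finset.one_lt_card.2 ⟨v, d, w, f, fun e' => g (e' ▸ e)⟩) ⟨v, d, e⟩
  have e1 : ((XC M U).link none).faces = (chi_ch P).erase ∅ := by
    ext s
    rw [mem_link, mem_XC, mem_XC, Finset.mem_erase, chi_mem_ch]
    constructor
    · rintro ⟨⟨a, b, c, -⟩, d, -, -, -, e⟩
      exact ⟨a.ne_empty, d, fun τ h => (hP τ).2 ⟨(b τ h).1, (b τ h).2,
        (e (Finset.mem_insert_self _ _)).2 τ (Finset.mem_insert_of_mem h)⟩, c⟩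
    · rintro ⟨a, b, c, d⟩
      have a' := Finset.nonempty_iff_ne_empty.2 a
      have k : ∀ τ, some τ ∈ insert none s → some τ ∈ s := fun τ h => by simpa using h
      have c1 := fun τ h => (hP τ).1 (c τ h)
      refine ⟨⟨a', fun τ h => ⟨(c1 τ h).1, (c1 τ h).2.1⟩, d, fun h => (b h).elim⟩, b,
        Finset.insert_nonempty _ _, fun τ h => ⟨(c1 τ (k τ h)).1, (c1 τ (k τ h)).2.1⟩,
        fun τ τ' h h' => d τ τ' (k τ h) (k τ' h'), fun _ => ⟨?_, fun τ h => (c1 τ (k τ h)).2.2⟩⟩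
      obtain ⟨_ | τ, h⟩ := a'
      · exact (b h).elim
      · exact ⟨τ, c1 τ h⟩
  have e2 : K.faces ⊆ M.faces.filter fun t => ∃ v ∈ t, U v := fun σ a => by
    obtain ⟨v, hv⟩ := K.ne σ a
    exact Finset.mem_filter.2 ⟨((hK σ).1 a).1, v, hv, ((hK σ).1 a).2 v hv⟩
  have e3 : P = (M.faces.filter fun t => ∃ v ∈ t, U v) \ K.faces := by
    ext τ
    rw [hP, Finset.mem_sdiff, Finset.mem_filter, hK τ]
    constructor
    · rintro ⟨a, b, v, c, d⟩
      exact ⟨⟨a, b⟩, fun e => d (e.2 v c)⟩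
    · rintro ⟨⟨a, b⟩, c⟩
      refine ⟨a, b, ?_⟩
      by_contra hc
      push Not at hc
      exact c ⟨a, hc⟩
  rw [chi_neg, e1, Finset.sum_erase_eq_sub (chi_mem_ch.2 (by simp)), q1, e3,
    Finset.sum_sdiff_eq_sub e2, chi_neg, meetSum]
  simp [sub_eq_add_neg]

end SC
end MP35
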