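import Pool.Agent.Lib.MP_35c604_gt.Basic

/-! TASK CHKM: a Boolean test for closed combinatorial 3-manifolds. -/

namespace MP35

open SC

def tetSet (t : ℕ × ℕ × ℕ × ℕ) : Finset ℕ := {t.1, t.2.1, t.2.2.1, t.2.2.2}

/-- The complex generated by a list of tetrahedra. -/
def ofTets (T : List (ℕ × ℕ × ℕ × ℕ)) : SC ℕ where
  faces := (T.map tetSet).toFinset.biUnion fun t => t.powerset.filter Finset.Nonempty
  ne := fun s hs => by
    obtain ⟨t, -, h⟩ := Finset.mem_biUnion.1 hs
    exact (Finset.mem_filter.1 h).2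
  down := fun s hs u hus hu => by
    obtain ⟨t, ht, h⟩ := Finset.mem_biUnion.1 hs
    exact Finset.mem_biUnion.2 ⟨t, ht, Finset.mem_filter.2
      ⟨Finset.mem_powerset.2 (hus.trans (Finset.mem_powerset.1 (Finset.mem_filter.1 h).1)), hu⟩⟩

theorem mem_ofTets {T : List (ℕ × ℕ × ℕ × ℕ)} {s : Finset ℕ} :
    s ∈ (ofTets T).faces ↔ s.Nonempty ∧ ∃ t ∈ T, s ⊆ tetSet t := by
  simp only [ofTets, Finset.mem_biUnion, List.mem_toFinset, List.mem_map, Finset.mem_filter,
    Finset.mem_powerset]
  constructor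
  · rintro ⟨_, ⟨t, ht, rfl⟩, h1, h2⟩
    exact ⟨h2, t, ht, h1⟩
  · rintro ⟨h2, t, ht, h1⟩
    exact ⟨_, ⟨t, ht, rfl⟩, h1, h2⟩

/-- The complex generated by a list of lists. -/
def chkmGen (S : List (List ℕ)) : SC ℕ where
  faces := (S.map List.toFinset).toFinset.biUnion fun t => t.powerset.filter Finset.Nonempty
  ne := fun s hs => by
    obtain ⟨t, -, h⟩ := Finset.mem_biUnion.1 hs
    exact (Finset.mem_filter.1 h).2
  down := fun s hs u hus hu => by
    obtain ⟨t, ht, h⟩ := Finset.mem_biUnion.1 hs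
    exact Finset.mem_biUnion.2 ⟨t, ht, Finset.mem_filter.2
      ⟨Finset.mem_powerset.2 (hus.trans (Finset.mem_powerset.1 (Finset.mem_filter.1 h).1)), hu⟩⟩

theorem chkm_mem {S : List (List ℕ)} {s : Finset ℕ} :
    s ∈ (chkmGen S).faces ↔ s.Nonempty ∧ ∃ l ∈ S, ∀ a ∈ s, a ∈ l := by
  simp only [chkmGen, Finset.mem_biUnion, List.mem_toFinset, List.mem_map, Finset.mem_filter,
    Finset.mem_powerset]
  constructor
  · rintro ⟨_, ⟨t, ht, rfl⟩, h1, h2⟩
    exact ⟨h2, t, ht, fun a ha => List.mem_toFinset.1 (h1 ha)⟩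
  · rintro ⟨h2, t, ht, h1⟩
    exact ⟨_, ⟨t, ht, rfl⟩, fun a ha => List.mem_toFinset.2 (h1 a ha), h2⟩

theorem chkm_verts {S : List (List ℕ)} {v : ℕ} : v ∈ (chkmGen S).verts ↔ ∃ l ∈ S, v ∈ l := by
  simp [mem_verts, chkm_mem]

/-- evaluation of a number, a list, a list of lists before they are passed on -/
noncomputable def chkmF0 (a : ℕ) (k : ℕ → Bool) : Bool :=
  @Nat.rec (fun _ => Bool) (k 0) (fun n _ => k n.succ) a

noncomputable def chkmF1 (l : List ℕ) : (List ℕ → Bool) → Bool :=
  @List.rec ℕ (fun _ => (List ℕ → Bool) → Bool) (fun k => k [])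
    (fun a _ r k => r fun l' => k (a :: l')) l

noncomputable def chkmF2 (l : List (List ℕ)) : (List (List ℕ) → Bool) → Bool :=
  @List.rec (List ℕ) (fun _ => (List (List ℕ) → Bool) → Bool) (fun k => k [])
    (fun a _ r k => chkmF1 a fun a' => r fun l' => k (a' :: l')) l

theorem chkm_f0 (a : ℕ) (k : ℕ → Bool) : chkmF0 a k = k a := by cases a <;> rfl

theorem chkm_f1 (l : List ℕ) (k : List ℕ → Bool) : chkmF1 l k = k l := by
  induction l generalizing k with
  | nil => rfl
  | cons a l ih => exact ih _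

theorem chkm_f2 (l : List (List ℕ)) (k : List (List ℕ) → Bool) : chkmF2 l k = k l := by
  induction l generalizing k with
  | nil => rfl
  | cons a l ih => exact (chkm_f1 _ _).trans (ih _)

noncomputable def chkmEl (a : ℕ) (l : List ℕ) : Bool :=
  @List.rec ℕ (fun _ => Bool) false
    (fun b _ r => @Bool.rec (fun _ => Bool) r true (Nat.beq a b)) l

theorem chkmEl_nil (a : ℕ) : chkmEl a [] = false := rfl

theorem chkmEl_cons (a b : ℕ) (l : List ℕ) :
    chkmEl a (b :: l) = cond (Nat.beq a b) true (chkmEl a l) := by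
  change @Bool.rec (fun _ => Bool) _ _ (Nat.beq a b) = _
  cases Nat.beq a b <;> rfl

theorem chkm_el {a : ℕ} {l : List ℕ} : chkmEl a l = true ↔ a ∈ l := by
  induction l with
  | nil => simp [chkmEl_nil]
  | cons b l ih =>
    cases h : Nat.beq a b
    · have := Nat.ne_of_beq_eq_false h
      simp [chkmEl_cons, h, ih, this]
    · have := Nat.eq_of_beq_eq_true h
      simp [chkmEl_cons, h, this]

noncomputable def chkmDel (a : ℕ) (l : List ℕ) : List ℕ :=
  @List.rec ℕ (fun _ => List ℕ) []
    (fun b _ r => @Bool.rec (fun _ => List ℕ) (b :: r) r (Nat.beq a b)) l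

theorem chkmDel_cons (a b : ℕ) (l : List ℕ) :
    chkmDel a (b :: l) = cond (Nat.beq a b) (chkmDel a l) (b :: chkmDel a l) := by
  change @Bool.rec (fun _ => List ℕ) _ _ (Nat.beq a b) = _
  cases Nat.beq a b <;> rfl

theorem chkm_del (a : ℕ) (l : List ℕ) : chkmDel a l = l.filter (· ≠ a) := by
  induction l with
  | nil => rfl
  | cons b l ih =>
    cases h : Nat.beq a b
    · have := Nat.ne_of_beq_eq_false h
      simp [chkmDel_cons, h, ih, Ne.symm this]
    · have := Nat.eq_of_beq_eq_true h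
      subst this
      simp [chkmDel_cons, ih]

noncomputable def chkmSel (f : List ℕ → List ℕ) (v : ℕ) (S : List (List ℕ)) : List (List ℕ) :=
  @List.rec (List ℕ) (fun _ => List (List ℕ)) []
    (fun l _ r => @Bool.rec (fun _ => List (List ℕ)) r (f l :: r) (chkmEl v l)) S

theorem chkm_sel {f : List ℕ → List ℕ} {v : ℕ} {S : List (List ℕ)} {m : List ℕ} :
    m ∈ chkmSel f v S ↔ ∃ l ∈ S, v ∈ l ∧ m = f l := by
  induction S with
  | nil => simp [chkmSel]
  | cons l S ih =>
    have e : chkmSel f v (l :: S) = cond (chkmEl v l) (f l :: chkmSel f v S) (chkmSel f v S) := by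
      change @Bool.rec (fun _ => List (List ℕ)) _ _ (chkmEl v l) = _
      cases chkmEl v l <;> rfl
    cases h : chkmEl v l
    · have : v ∉ l := fun k => by simp [chkm_el.2 k] at h
      simp [e, h, ih, this]
    · have := chkm_el.1 h
      simp [e, h, ih, this]

noncomputable def chkmLk (v : ℕ) (S : List (List ℕ)) : List (List ℕ) := chkmSel (chkmDel v) v S

theorem chkm_lk {v : ℕ} {S : List (List ℕ)} {m : List ℕ} :
    m ∈ chkmLk v S ↔ ∃ l ∈ S, v ∈ l ∧ m = l.filter (· ≠ v) := by
  simp only [chkmLk, chkm_sel, chkm_del]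

theorem chkm_link (v : ℕ) (S : List (List ℕ)) : (chkmGen S).link v = chkmGen (chkmLk v S) := by
  refine ext' (Finset.ext fun s => ?_)
  simp only [mem_link, chkm_mem, chkm_lk]
  constructor
  · rintro ⟨⟨h1, -⟩, h2, -, l, hl, h3⟩
    refine ⟨h1, _, ⟨l, hl, h3 v (by simp), rfl⟩, fun a ha => ?_⟩
    simp only [List.mem_filter, decide_eq_true_eq]
    exact ⟨h3 a (by simp [ha]), fun k => h2 (k ▸ ha)⟩
  · rintro ⟨h1, _, ⟨l, hl, hv, rfl⟩, h3⟩
    simp only [List.mem_filter, decide_eq_true_eq] at h3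
    refine ⟨⟨h1, l, hl, fun a ha => (h3 a ha).1⟩, fun k => (h3 v k).2 rfl, by simp, l, hl, ?_⟩
    intro a ha
    rcases Finset.mem_insert.1 ha with rfl | ha
    exacts [hv, (h3 a ha).1]

/-- union of a list with a list -/
noncomputable def chkmUn : List ℕ → List ℕ → List ℕ
  | [], R => R
  | a :: l, R => cond (chkmEl a R) (chkmUn l R) (chkmUn l (a :: R))

theorem chkm_un {l R : List ℕ} {x : ℕ} : x ∈ chkmUn l R ↔ x ∈ l ∨ x ∈ R := by
  induction l generalizing R with
  | nil => simp [chkmUn]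
  | cons a l ih =>
    cases h : chkmEl a R
    · simp only [chkmUn, h, cond_false, ih, List.mem_cons]; tauto
    · have := chkm_el.1 h
      simp only [chkmUn, h, cond_true, ih, List.mem_cons]
      constructor
      · tauto
      · rintro ((rfl | k) | k) <;> tauto

noncomputable def chkmVs : List (List ℕ) → List ℕ
  | [] => []
  | l :: S => chkmUn l (chkmVs S)

theorem chkm_vs {S : List (List ℕ)} {v : ℕ} : v ∈ chkmVs S ↔ ∃ l ∈ S, v ∈ l := by
  induction S with
  | nil => simp [chkmVs]
  | cons l S ih => simp [chkmVs, chkm_un, ih]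

noncomputable def chkmMeet : List ℕ → List ℕ → Bool
  | [], _ => false
  | a :: l, R => cond (chkmEl a R) true (chkmMeet l R)

theorem chkm_meet {l R : List ℕ} (h : chkmMeet l R = true) : ∃ a ∈ l, a ∈ R := by
  induction l with
  | nil => simp [chkmMeet] at h
  | cons a l ih =>
    cases k : chkmEl a R
    · obtain ⟨b, h1, h2⟩ := ih (by simpa [chkmMeet, k] using h)
      exact ⟨b, by simp [h1], h2⟩
    · exact ⟨a, by simp, chkm_el.1 k⟩

/-- one pass: absorb the lists that meet `R`, and keep the other ones in `W` -/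
noncomputable def chkmPass : List (List ℕ) → List ℕ → List (List ℕ) → (List ℕ → List (List ℕ) → Bool) → Bool
  | [], R, W, k => k R W
  | l :: S, R, W, k => cond (chkmMeet l R) (chkmF1 (chkmUn l R) fun R' => chkmPass S R' W k)
      (chkmPass S R (l :: W) k)

noncomputable def chkmGrow : ℕ → List ℕ → List (List ℕ) → Bool
  | 0, _, _ => false
  | _ + 1, _, [] => true
  | n + 1, R, l :: S => chkmPass (l :: S) R [] (chkmGrow n)

theorem chkm_pass {P : ℕ → Prop} {G : List ℕ → Prop}
    (hG : ∀ l, G l → ∀ a ∈ l, P a → ∀ b ∈ l, P b) {k : List ℕ → List (List ℕ) → Bool}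
    (hk : ∀ R W, k R W = true → (∀ a ∈ R, P a) → (∀ l ∈ W, G l) → ∀ l ∈ W, ∀ a ∈ l, P a)
    {S : List (List ℕ)} {R : List ℕ} {W : List (List ℕ)} (h : chkmPass S R W k = true)
    (hR : ∀ a ∈ R, P a) (hS : ∀ l ∈ S, G l) (hW : ∀ l ∈ W, G l) :
    (∀ l ∈ S, ∀ a ∈ l, P a) ∧ ∀ l ∈ W, ∀ a ∈ l, P a := by
  induction S generalizing R W with
  | nil => exact ⟨by simp, hk R W h hR hW⟩
  | cons l S ih =>
    have hl := hS l (by simp)
    have hS' : ∀ l ∈ S, G l := fun m hm => hS m (by simp [hm])
    cases c : chkmMeet l R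
    · obtain ⟨h1, h2⟩ := ih (R := R) (W := l :: W) (by simpa [chkmPass, c] using h) hR hS'
        (by simpa [hl] using hW)
      simp only [List.forall_mem_cons] at h2 ⊢
      exact ⟨⟨h2.1, h1⟩, h2.2⟩
    · obtain ⟨a, a1, a2⟩ := chkm_meet c
      have hl' := hG l hl a a1 (hR a a2)
      obtain ⟨h1, h2⟩ := ih (R := chkmUn l R) (W := W) (by simpa [chkmPass, c, chkm_f1] using h)
        (fun x hx => (chkm_un.1 hx).elim (hl' x) (hR x)) hS' hW
      simp only [List.forall_mem_cons]
      exact ⟨⟨hl', h1⟩, h2⟩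

theorem chkm_grow {P : ℕ → Prop} {G : List ℕ → Prop}
    (hG : ∀ l, G l → ∀ a ∈ l, P a → ∀ b ∈ l, P b) (n : ℕ) : ∀ R W, chkmGrow n R W = true →
      (∀ a ∈ R, P a) → (∀ l ∈ W, G l) → ∀ l ∈ W, ∀ a ∈ l, P a := by
  induction n with
  | zero => intro R W h; simp [chkmGrow] at h
  | succ n ih =>
    intro R W h hR hW
    cases W with
    | nil => simp
    | cons l S => exact (chkm_pass hG ih (W := []) h hR hW (by simp)).1

noncomputable def chkmConn : List (List ℕ) → Bool
  | (a :: l) :: S => chkmGrow (S.length + 2) [a] ((a :: l) :: S)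
  | _ => false

theorem chkm_conn {S : List (List ℕ)} (h : chkmConn S = true) : (chkmGen S).Connected := by
  match S, h with
  | (a :: l) :: S, h =>
    set T := (a :: l) :: S
    let r : ℕ → ℕ → Prop := fun x y => {x, y} ∈ (chkmGen T).faces
    have key := chkm_grow (P := fun x => Relation.ReflTransGen r a x) (G := (· ∈ T))
      (fun m hm x hx p y hy => p.tail (chkm_mem.2 ⟨by simp, m, hm, by simp [hx, hy]⟩)) _ _ _ h
      (by simp [Relation.ReflTransGen.refl]) fun _ h => h
    have sy : ∀ x, Relation.ReflTransGen r a x → Relation.ReflTransGen r x a := fun x hx => by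
      induction hx with
      | refl => exact .refl
      | tail _ h ih => exact .head (by simpa only [r, Finset.pair_comm] using h) ih
    refine ⟨⟨{a}, chkm_verts.2 ⟨a :: l, by simp [T], by simp⟩⟩, fun u hu v hv => ?_⟩
    obtain ⟨m, m1, m2⟩ := chkm_verts.1 hu
    obtain ⟨n, n1, n2⟩ := chkm_verts.1 hv
    exact (sy u (key m m1 u m2)).trans (key n n1 v n2)

def chkmAll {α : Type} (p : α → Bool) : List α → Bool
  | [] => true
  | a :: l => cond (p a) (chkmAll p l) false

theorem chkm_all {α : Type} {p : α → Bool} {l : List α} (h : chkmAll p l = true) :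
    ∀ a ∈ l, p a = true := by
  induction l with
  | nil => simp
  | cons b l ih =>
    cases c : p b
    · simp [chkmAll, c] at h
    · simpa [c] using ih (by simpa [chkmAll, c] using h)

def chkmTwo : List (List ℕ) → Bool
  | [[a], [b]] => !Nat.beq a b
  | _ => false

theorem chkm_two {S : List (List ℕ)} {v : ℕ} (h : chkmTwo (chkmLk v S) = true) :
    (chkmGen S).deg {v} = 2 ∧ ∀ s ∈ (chkmGen S).faces, v ∈ s → s.card ≤ 2 := by
  obtain ⟨a, b, e, hab⟩ : ∃ a b, chkmLk v S = [[a], [b]] ∧ a ≠ b := by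
    generalize chkmLk v S = X at h
    match X, h with
    | [[a], [b]], h => exact ⟨a, b, rfl, Nat.ne_of_beq_eq_false (by simpa [chkmTwo] using h)⟩
  have hl : ∀ s, s ∈ ((chkmGen S).link v).faces ↔ s = {a} ∨ s = {b} := fun s => by
    rw [chkm_link, e, chkm_mem]
    simp only [List.mem_cons, List.not_mem_nil, or_false, exists_eq_or_imp, exists_eq_left,
      Finset.eq_singleton_iff_nonempty_unique_mem]
    tauto
  have ha := mem_link.1 ((hl {a}).2 (Or.inl rfl))
  have hb := mem_link.1 ((hl {b}).2 (Or.inr rfl))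
  have key : ∀ s ∈ (chkmGen S).faces, v ∈ s → s = {v} ∨ s = {v, a} ∨ s = {v, b} := by
    intro s hs hv
    by_cases c : (s.erase v).Nonempty
    · have := (hl (s.erase v)).1 (mem_link.2 ⟨(chkmGen S).down s hs _ (Finset.erase_subset _ _) c,
        by simp, by rwa [Finset.insert_erase hv]⟩)
      rw [← Finset.insert_erase hv]
      rcases this with k | k <;> simp [k]
    · rw [← Finset.insert_erase hv, Finset.not_nonempty_iff_eq_empty.1 c]; simp
  have va : v ≠ a := by simpa using ha.2.1
  have vb : v ≠ b := by simpa using hb.2.1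
  constructor
  · rw [deg, Finset.card_eq_two]
    refine ⟨{v, a}, {v, b}, fun k => ?_, Finset.ext fun s => ?_⟩
    · have : a ∈ ({v, b} : Finset ℕ) := k ▸ by simp
      simp [va.symm, hab] at this
    · simp only [Finset.mem_filter, Finset.singleton_subset_iff, Finset.card_singleton,
        Finset.mem_insert, Finset.mem_singleton]
      constructor
      · rintro ⟨h1, h2, h3⟩
        rcases key s h1 h2 with k | k
        · simp [k] at h3
        · exact k
      · rintro (rfl | rfl)
        exacts [⟨ha.2.2, by simp, Finset.card_pair va⟩, ⟨hb.2.2, by simp, Finset.card_pair vb⟩]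
  · intro s hs hv
    rcases key s hs hv with rfl | rfl | rfl
    exacts [by simp, Finset.card_le_two, Finset.card_le_two]

noncomputable def chkmCircle (S : List (List ℕ)) : Bool :=
  cond (chkmConn S) (chkmAll (fun v => chkmTwo (chkmLk v S)) (chkmVs S)) false

theorem chkm_circle {S : List (List ℕ)} (h : chkmCircle S = true) : (chkmGen S).IsCircle := by
  cases c : chkmConn S
  · simp [chkmCircle, c] at h
  have k := chkm_all (p := fun v => chkmTwo (chkmLk v S)) (by simpa [chkmCircle, c] using h)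
  refine ⟨chkm_conn c, fun s hs => ?_, fun v hv => (chkm_two (k v (chkm_vs.2 (chkm_verts.1 hv)))).1⟩
  obtain ⟨v, hv⟩ := (chkmGen S).ne s hs
  exact (chkm_two (k v (chkm_vs.2 (chkm_verts.1 (mem_verts_of_mem hs hv))))).2 s hs hv

/-- the part of a list above `a` -/
def chkmUp (a : ℕ) : List ℕ → List ℕ
  | [] => []
  | b :: l => cond (Nat.ble b a) (chkmUp a l) (b :: chkmUp a l)

theorem chkm_up {a x : ℕ} {l : List ℕ} : x ∈ chkmUp a l ↔ x ∈ l ∧ a < x := by
  induction l with
  | nil => simp [chkmUp]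
  | cons b l ih =>
    cases h : Nat.ble b a
    · have : ¬b ≤ a := fun k => by simp [Nat.ble_eq_true_of_le k] at h
      simp only [chkmUp, h, cond_false, List.mem_cons, ih]
      constructor
      · rintro (rfl | k)
        exacts [⟨Or.inl rfl, by omega⟩, ⟨Or.inr k.1, k.2⟩]
      · tauto
    · have := Nat.le_of_ble_eq_true h
      simp only [chkmUp, h, cond_true, List.mem_cons, ih]
      constructor
      · tauto
      · rintro ⟨rfl | k, k'⟩
        exacts [by omega, ⟨k, k'⟩]

noncomputable def chkmLu (v : ℕ) (S : List (List ℕ)) : List (List ℕ) := chkmSel (chkmUp v) v S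

theorem chkm_lu {v : ℕ} {S : List (List ℕ)} {m : List ℕ} :
    m ∈ chkmLu v S ↔ ∃ l ∈ S, v ∈ l ∧ m = chkmUp v l := chkm_sel

theorem chkm_un_nodup {l R : List ℕ} (h : R.Nodup) : (chkmUn l R).Nodup := by
  induction l generalizing R with
  | nil => exact h
  | cons a l ih =>
    cases c : chkmEl a R
    · have : a ∉ R := fun k => by simp [chkm_el.2 k] at c
      simpa [chkmUn, c] using ih (List.nodup_cons.2 ⟨this, h⟩)
    · simpa [chkmUn, c] using ih h

theorem chkm_vs_nodup (S : List (List ℕ)) : (chkmVs S).Nodup := by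
  induction S with
  | nil => simp [chkmVs]
  | cons l S ih => exact chkm_un_nodup ih

/-- every face is counted at its smallest vertex -/
theorem chkm_chi_step (S : List (List ℕ)) :
    (chkmGen S).chi = ((chkmVs S).map fun v => 1 - (chkmGen (chkmLu v S)).chi).sum := by
  rw [← List.sum_toFinset _ (chkm_vs_nodup S), chi,
    ← Finset.sum_fiberwise_of_maps_to (s := (chkmGen S).faces) (t := (chkmVs S).toFinset)
      (g := fun s : Finset ℕ => sInf (s : Set ℕ))]
  swap
  · intro s hs
    exact List.mem_toFinset.2 (chkm_vs.2 (chkm_verts.1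
      (mem_verts_of_mem hs (Nat.sInf_mem ((chkmGen S).ne s hs)))))
  refine Finset.sum_congr rfl fun v hv => ?_
  have hv' := chkm_vs.1 (List.mem_toFinset.1 hv)
  have nv : ∀ s ∈ (chkmGen (chkmLu v S)).faces, ∀ a ∈ s, v < a := fun s hs a ha => by
    obtain ⟨-, m, hm, h⟩ := chkm_mem.1 hs
    obtain ⟨l, -, -, rfl⟩ := chkm_lu.1 hm
    exact (chkm_up.1 (h a ha)).2
  have e : (chkmGen S).faces.filter (fun s : Finset ℕ => sInf (s : Set ℕ) = v) =
      insert {v} ((chkmGen (chkmLu v S)).faces.image (insert v)) := by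
    ext s
    simp only [Finset.mem_filter, Finset.mem_insert, Finset.mem_image]
    constructor
    · rintro ⟨hs, h⟩
      have h0 : v ∈ s := h ▸ Nat.sInf_mem ((chkmGen S).ne s hs)
      by_cases c : (s.erase v).Nonempty
      · obtain ⟨-, l, hl, k⟩ := chkm_mem.1 hs
        refine Or.inr ⟨s.erase v, chkm_mem.2 ⟨c, _, chkm_lu.2 ⟨l, hl, k v h0, rfl⟩, fun a ha => ?_⟩,
          Finset.insert_erase h0⟩
        obtain ⟨a1, a2⟩ := Finset.mem_erase.1 ha
        have : sInf (s : Set ℕ) ≤ a := Nat.sInf_le a2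
        exact chkm_up.2 ⟨k a a2, by omega⟩
      · left
        rw [← Finset.insert_erase h0, Finset.not_nonempty_iff_eq_empty.1 c]; simp
    · rintro (rfl | ⟨t, ht, rfl⟩)
      · exact ⟨chkm_verts.2 hv', by simp⟩
      · have n := nv t ht
        obtain ⟨-, m, hm, h⟩ := chkm_mem.1 ht
        obtain ⟨l, hl, hvl, rfl⟩ := chkm_lu.1 hm
        refine ⟨chkm_mem.2 ⟨by simp, l, hl, fun a ha => ?_⟩, le_antisymm (Nat.sInf_le (by simp)) ?_⟩
        · rcases Finset.mem_insert.1 ha with rfl | ha
          exacts [hvl, (chkm_up.1 (h a ha)).1]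
        · refine le_csInf (by simp) fun a ha => ?_
          rcases Finset.mem_insert.1 ha with rfl | ha
          exacts [le_rfl, (n a ha).le]
  have nv' : ∀ s ∈ (chkmGen (chkmLu v S)).faces, v ∉ s := fun s hs k => (nv s hs v k).false
  have i1 : {v} ∉ (chkmGen (chkmLu v S)).faces.image (insert v) := fun h => by
    obtain ⟨t, ht, k⟩ := Finset.mem_image.1 h
    obtain ⟨a, ha⟩ := (chkmGen _).ne t ht
    have : a ∈ ({v} : Finset ℕ) := k ▸ Finset.mem_insert_of_mem ha
    exact nv' t ht (Finset.mem_singleton.1 this ▸ ha)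
  have i2 : Set.InjOn (insert v) ((chkmGen (chkmLu v S)).faces : Set (Finset ℕ)) :=
    fun s hs t ht h => by rw [← Finset.erase_insert (nv' s hs), h, Finset.erase_insert (nv' t ht)]
  rw [e, Finset.sum_insert i1, Finset.sum_image i2, chi, sub_eq_add_neg, ← Finset.sum_neg_distrib]
  refine congrArg₂ _ (by simp) (Finset.sum_congr rfl fun s hs => ?_)
  rw [Finset.card_insert_of_notMem (nv' s hs), pow_succ]; ring

/-- faces with an odd and with an even number of vertices are counted in `p` and `q` -/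
def chkmCnt (f : ℕ → ℕ → ℕ → (ℕ → ℕ → Bool) → Bool) :
    List ℕ → ℕ → ℕ → (ℕ → ℕ → Bool) → Bool
  | [], p, q, k => k p q
  | v :: l, p, q, k => f v q (p + 1) fun q' p' => chkmCnt f l p' q' k

noncomputable def chkmChi : ℕ → List (List ℕ) → ℕ → ℕ → (ℕ → ℕ → Bool) → Bool
  | 0, S, p, q, k => cond (chkmVs S).isEmpty (k p q) false
  | n + 1, S, p, q, k =>
    chkmCnt (fun v p q k => chkmF2 (chkmLu v S) fun S' => chkmChi n S' p q k) (chkmVs S) p q k

theorem chkm_chi (n : ℕ) : ∀ (S : List (List ℕ)) (p q : ℕ) (k : ℕ → ℕ → Bool),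
    chkmChi n S p q k = true → ∃ p' q', k p' q' = true ∧
      (p' : ℤ) - q' = p - q + (chkmGen S).chi := by
  induction n with
  | zero =>
    intro S p q k h
    cases c : (chkmVs S).isEmpty
    · simp [chkmChi, c] at h
    · refine ⟨p, q, by simpa [chkmChi, c] using h, ?_⟩
      rw [chkm_chi_step, List.isEmpty_iff.1 c]; simp
  | succ n ih =>
    intro S p q k h
    rw [chkm_chi_step]
    simp only [chkmChi, chkm_f2] at h
    generalize chkmVs S = l at h
    induction l generalizing p q with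
    | nil => exact ⟨p, q, h, by simp⟩
    | cons v l ih2 =>
      obtain ⟨q1, p1, h1, e1⟩ := ih _ _ _ _ h
      obtain ⟨p2, q2, h2, e2⟩ := ih2 _ _ h1
      refine ⟨p2, q2, h2, ?_⟩
      simp only [List.map_cons, List.sum_cons]
      push_cast at e1
      linarith

noncomputable def chkmSphere (S : List (List ℕ)) : Bool :=
  cond (chkmConn S) (cond (chkmAll (fun v => chkmF2 (chkmLk v S) chkmCircle) (chkmVs S))
    (chkmChi 3 S 0 2 Nat.beq) false) false

theorem chkm_sphere {S : List (List ℕ)} (h : chkmSphere S = true) : (chkmGen S).IsSphere := by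
  simp only [chkmSphere, chkm_f2] at h
  cases c : chkmConn S
  · simp [c] at h
  cases d : chkmAll (fun v => chkmCircle (chkmLk v S)) (chkmVs S)
  · simp [c, d] at h
  obtain ⟨p, q, h1, h2⟩ := chkm_chi 3 S 0 2 Nat.beq (by simpa [c, d] using h)
  refine ⟨chkm_conn c, fun v hv => ?_, ?_⟩
  · rw [chkm_link]
    exact chkm_circle (chkm_all d v (chkm_vs.2 (chkm_verts.1 hv)))
  · rw [Nat.eq_of_beq_eq_true h1] at h2
    push_cast at h2
    linarith

def chkmList : List (ℕ × ℕ × ℕ × ℕ) → List (List ℕ)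
  | [] => []
  | t :: T => [t.1, t.2.1, t.2.2.1, t.2.2.2] :: chkmList T

/-- the list of tetrahedra, evaluated -/
noncomputable def chkmF3 (T : List (ℕ × ℕ × ℕ × ℕ)) : (List (List ℕ) → Bool) → Bool :=
  @List.rec (ℕ × ℕ × ℕ × ℕ) (fun _ => (List (List ℕ) → Bool) → Bool) (fun k => k [])
    (fun t _ r k => chkmF0 t.1 fun a => chkmF0 t.2.1 fun b => chkmF0 t.2.2.1 fun c =>
      chkmF0 t.2.2.2 fun d => r fun l => k ([a, b, c, d] :: l)) T

theorem chkm_f3 (T : List (ℕ × ℕ × ℕ × ℕ)) (k : List (List ℕ) → Bool) :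
    chkmF3 T k = k (chkmList T) := by
  induction T generalizing k with
  | nil => rfl
  | cons t T ih =>
    refine Eq.trans ?_ (ih fun l => k ([t.1, t.2.1, t.2.2.1, t.2.2.2] :: l))
    simp only [chkmF3, chkm_f0]

theorem chkm_list (T : List (ℕ × ℕ × ℕ × ℕ)) : ofTets T = chkmGen (chkmList T) := by
  have : chkmList T = T.map fun t => [t.1, t.2.1, t.2.2.1, t.2.2.2] := by
    induction T with
    | nil => rfl
    | cons t T ih => simp [chkmList, ih]
  refine ext' (Finset.ext fun s => ?_)
  simp only [mem_ofTets, chkm_mem, this, List.mem_map, exists_exists_and_eq_and, tetSet,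
    Finset.subset_iff, Finset.mem_insert, Finset.mem_singleton, List.mem_cons, List.not_mem_nil,
    or_false]

/-- The test: every vertex link passes the test for 2-spheres. -/
noncomputable def chkMan (T : List (ℕ × ℕ × ℕ × ℕ)) : Bool :=
  chkmF3 T fun S => chkmAll (fun v => chkmF2 (chkmLk v S) chkmSphere) (chkmVs S)

theorem isManifold_of_chk {T : List (ℕ × ℕ × ℕ × ℕ)} (h : chkMan T = true) :
    (ofTets T).IsManifold := by
  simp only [chkMan, chkm_f2, chkm_f3] at h
  rw [chkm_list]
  intro v hv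
  rw [chkm_link]
  exact Or.inl (chkm_sphere (chkm_all h v (chkm_vs.2 (chkm_verts.1 hv))))

end MP35
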