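import Pool.Agent.Lib.MP_35c604_gt.Q60

/-! TASK DALG: homology of the Fox complex of the quaternion group of order 60. -/

namespace MP35

open Matrix

theorem card_Q : Fintype.card Q = 60 := QuaternionGroup.card

theorem sq_eq_one_Q (g : Q) (h : g ^ 2 = 1) : g = 1 ∨ g = gx ^ 15 := by
  revert g
  decide +kernel

theorem dalg_cases (g : Q) : ∃ i : Fin 30, g = gx ^ i.1 ∨ g = gy * gx ^ i.1 := by
  revert g
  decide +kernel

variable (k : Type) [CommRing k]

theorem el_mul (g h : Q) : el k (g * h) = el k g * el k h := by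
  simp [el, MonoidAlgebra.single_mul_single]

theorem el_one : el k 1 = 1 := rfl

theorem red_el (g : Q) : red k (el ℤ g) = el k g := by simp [red, el]

theorem dalg_el_pow (g : Q) (n : ℕ) : el k (g ^ n) = el k g ^ n := by simp [el]

/-- the sum `1 + x + ... + x ^ 14` -/
noncomputable def dalgS : KQ k := ∑ i ∈ Finset.range 15, el k (gx ^ i)

/-- the norm element of the cyclic subgroup -/
noncomputable def dalgN : KQ k := ∑ i ∈ Finset.range 30, el k (gx ^ i)

theorem dalg_SX : dalgS k * (el k gx - 1) = el k (gx ^ 15) - 1 := by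
  simp only [dalgS, dalg_el_pow, geom_sum_mul]

theorem dalg_XS : (el k gx - 1) * dalgS k = el k (gx ^ 15) - 1 := by
  simp only [dalgS, dalg_el_pow, mul_geom_sum]

theorem dalg_N : dalgN k = dalgS k + el k (gx ^ 15) * dalgS k := by
  rw [dalgN, show 30 = 15 + 15 from rfl, Finset.sum_range_add, dalgS, Finset.mul_sum]
  simp only [pow_add, el_mul]

theorem dalg_NX : dalgN k * el k gx = dalgN k := by
  have : dalgN k * (el k gx - 1) = el k (gx ^ 30) - 1 := by
    simp only [dalgN, dalg_el_pow, geom_sum_mul]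
  rw [show gx ^ 30 = 1 by decide +kernel, el_one, sub_self, mul_sub, mul_one] at this
  exact sub_eq_zero.1 this

theorem dalg_XN : el k gx * dalgN k = dalgN k := by
  have : (el k gx - 1) * dalgN k = el k (gx ^ 30) - 1 := by
    simp only [dalgN, dalg_el_pow, mul_geom_sum]
  rw [show gx ^ 30 = 1 by decide +kernel, el_one, sub_self, sub_mul, one_mul] at this
  exact sub_eq_zero.1 this

theorem dalg_pow_N (i : ℕ) : el k (gx ^ i) * dalgN k = dalgN k := by
  induction i with
  | zero => rw [pow_zero, el_one, one_mul]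
  | succ i ih => rw [pow_succ, el_mul, mul_assoc, dalg_XN, ih]

theorem dalg_SXY : dalgS k * (el k gx * el k gy) = el k gy * (el k (gx ^ 15) * dalgS k) := by
  have h : ∀ i < 15, gx ^ i * (gx * gy) = gy * (gx ^ 15 * gx ^ (15 - 1 - i)) := by decide +kernel
  rw [dalgS, Finset.sum_mul, Finset.mul_sum, Finset.mul_sum,
    ← Finset.sum_range_reflect fun i => el k gy * (el k (gx ^ 15) * el k (gx ^ i))]
  refine Finset.sum_congr rfl fun i hi => ?_
  simp only [← el_mul, h i (Finset.mem_range.1 hi)]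

theorem dalg_NY : dalgN k * el k gy = el k gy * dalgN k := by
  have h : ∀ i < 30, gx ^ i * (gx * gy) = gy * gx ^ (30 - 1 - i) := by decide +kernel
  rw [← dalg_NX, mul_assoc, dalg_NX, dalgN, Finset.sum_mul, Finset.mul_sum,
    ← Finset.sum_range_reflect fun i => el k gy * el k (gx ^ i)]
  refine Finset.sum_congr rfl fun i hi => ?_
  simp only [← el_mul, h i (Finset.mem_range.1 hi)]

theorem dalg_N_one : (dalgN k).coeff 1 = 1 := by
  have h : ∀ i < 30, i ≠ 0 → gx ^ i ≠ 1 := by decide +kernel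
  rw [dalgN, MonoidAlgebra.coeff_sum, Finsupp.finsetSum_apply, Finset.sum_eq_single 0
    (fun i hi h0 => by exact Finsupp.single_eq_of_ne' (h i (Finset.mem_range.1 hi) h0)) (by simp)]
  simp [el]

theorem dalg_N_y (g : Q) (hg : g = gy ∨ g = gy⁻¹) : (dalgN k).coeff g = 0 := by
  have h : ∀ i < 30, gx ^ i ≠ gy ∧ gx ^ i ≠ gy⁻¹ := by decide +kernel
  rw [dalgN, MonoidAlgebra.coeff_sum, Finsupp.finsetSum_apply]
  refine Finset.sum_eq_zero fun i hi => Finsupp.single_eq_of_ne' ?_
  rcases hg with rfl | rfl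
  exacts [(h i (Finset.mem_range.1 hi)).1, (h i (Finset.mem_range.1 hi)).2]

theorem dalg_coeff_mul (c : KQ k) (g h : Q) : (c * el k g).coeff (h * g) = c.coeff h := by
  simp [el]

theorem dalg_coeff_mul' (c : KQ k) (g h : Q) : (el k g * c).coeff (g * h) = c.coeff h := by
  simp [el]

theorem dalg_YN_one : (el k gy * dalgN k).coeff 1 = 0 := by
  rw [← mul_inv_cancel gy, dalg_coeff_mul', dalg_N_y k _ (Or.inr rfl)]

theorem dalg_YN_y : (el k gy * dalgN k).coeff gy = 1 := by
  have := dalg_coeff_mul' k (dalgN k) gy 1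
  rwa [mul_one, dalg_N_one] at this

theorem dalg_inv {c : KQ k} (h : c * el k gx = c) (g : Q) (i : ℕ) :
    c.coeff (g * gx ^ i) = c.coeff g := by
  induction i with
  | zero => rw [pow_zero, mul_one]
  | succ i ih => rw [pow_succ, ← mul_assoc, ← ih, ← dalg_coeff_mul k c gx (g * gx ^ i), h]

theorem dalg_ext {c : KQ k} (h : c * el k gx = c) (h1 : c.coeff 1 = 0) (h2 : c.coeff gy = 0) :
    c = 0 := by
  ext g
  obtain ⟨i, rfl | rfl⟩ := dalg_cases g
  · rw [← one_mul (gx ^ i.1), dalg_inv k h, h1]; rfl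
  · rw [dalg_inv k h, h2]; rfl

theorem dalg_ann {c : KQ k} (h : c * (el k gx - 1) = 0) :
    ∃ γ δ : k, c = γ • dalgN k + δ • (el k gy * dalgN k) := by
  refine ⟨c.coeff 1, c.coeff gy, sub_eq_zero.1 (dalg_ext k ?_ ?_ ?_)⟩
  · rw [mul_sub, mul_one, sub_eq_zero] at h
    rw [sub_mul, add_mul, smul_mul_assoc, smul_mul_assoc, mul_assoc, dalg_NX, h]
  · simp [dalg_N_one, dalg_YN_one]
  · simp [dalg_N_y k _ (Or.inl rfl), dalg_YN_y]

theorem dalg_red (a : KQ k) : ∃ (v : KQ k) (α β : k),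
    a = v * (el k gx - 1) + α • (1 : KQ k) + β • el k gy := by
  induction a using MonoidAlgebra.induction_on with
  | of g =>
    change ∃ (v : KQ k) (α β : k), el k g = _
    obtain ⟨i, rfl | rfl⟩ := dalg_cases g
    · exact ⟨∑ j ∈ Finset.range i, el k gx ^ j, 1, 0, by simp [geom_sum_mul, dalg_el_pow]⟩
    · refine ⟨el k gy * ∑ j ∈ Finset.range i, el k gx ^ j, 0, 1, ?_⟩
      rw [mul_assoc, geom_sum_mul, el_mul, dalg_el_pow]
      simp [mul_sub]
  | add x y hx hy =>
    obtain ⟨v, α, β, rfl⟩ := hx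
    obtain ⟨v', α', β', rfl⟩ := hy
    exact ⟨v + v', α + α', β + β', by rw [add_mul]; module⟩
  | smul r x hx =>
    obtain ⟨v, α, β, rfl⟩ := hx
    exact ⟨r • v, r * α, r * β, by rw [smul_mul_assoc]; module⟩

theorem dalg_fox00 : foxM k 0 0 = el k (gx ^ 15) * dalgS k := by
  rw [← show gy⁻¹ ^ 2 = gx ^ 15 by decide +kernel]; rfl
theorem dalg_fox01 : foxM k 0 1 = -el k gy⁻¹ - el k (gx ^ 15) := by
  rw [← show gy⁻¹ ^ 2 = gx ^ 15 by decide +kernel]; rfl
theorem dalg_fox10 : foxM k 1 0 = el k gy⁻¹ + el k gx⁻¹ := rfl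
theorem dalg_fox11 : foxM k 1 1 = el k (gy⁻¹ * gx) - el k gy⁻¹ := rfl
theorem dalg_u0 : u0 k 0 = el k gx - 1 := rfl
theorem dalg_u1 : u0 k 1 = el k gy⁻¹ - el k gx := rfl

theorem dalg_d0 : foxM k 0 0 * (el k gx - 1) + foxM k 0 1 * (el k gy - 1) = 0 := by
  rw [dalg_fox00, dalg_fox01, mul_assoc, dalg_SX]
  simp only [mul_sub, sub_mul, neg_mul, mul_one, ← el_mul, inv_mul_cancel,
    show gx ^ 15 * gx ^ 15 = 1 by decide +kernel, show gx ^ 15 * gy = gy⁻¹ by decide +kernel]
  abel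

theorem dalg_d1 : foxM k 1 0 * (el k gx - 1) + foxM k 1 1 * (el k gy - 1) = 0 := by
  rw [dalg_fox10, dalg_fox11]
  simp only [mul_sub, sub_mul, add_mul, mul_one, ← el_mul, inv_mul_cancel,
    show gy⁻¹ * gx * gy = gx⁻¹ by decide +kernel]
  abel

theorem dD_cx : IsCx parD (dD k) := by
  refine ⟨fun i j h => ?_, ?_⟩
  · cases i <;> cases j <;> first | rfl | exact absurd h (by simp [parD])
  · ext1 i j
    rw [Matrix.mul_apply, DI.sum_univ]
    rcases i with i | i | _ <;> rcases j with j | j | _ <;>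
      simp only [dD, mul_zero, zero_mul, add_zero, zero_add, Matrix.zero_apply]
    fin_cases i
    · exact dalg_d0 k
    · exact dalg_d1 k

theorem dalg_fox_map (i j : Fin 2) : red k (foxM ℤ i j) = foxM k i j := by
  fin_cases i <;> fin_cases j <;> simp [foxM, red_el]

theorem dD_map : (dD ℤ).map (red k) = dD k := by
  ext1 i j
  rw [Matrix.map_apply]
  rcases i with i | i | _ <;> rcases j with j | j | _ <;>
    simp only [dD, map_zero, map_sub, map_one, red_el, dalg_fox_map]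

theorem u0_map (j : Fin 2) : red k (u0 ℤ j) = u0 k j := by
  fin_cases j <;> simp [u0, red_el]

theorem dalg_vec (w : Fin 2 → KQ k) (j : Fin 2) :
    (w ᵥ* foxM k) j = w 0 * foxM k 0 j + w 1 * foxM k 1 j := by
  simp [Matrix.vecMul, dotProduct, Fin.sum_univ_two]

theorem dalg_f0 : (el k gx - 1) * foxM k 0 0 + (el k gy⁻¹ - el k gx) * foxM k 1 0 = 0 := by
  have : (el k gx - 1) * (el k (gx ^ 15) * dalgS k) =
      el k (gx ^ 15) * ((el k gx - 1) * dalgS k) := by
    simp only [sub_mul, mul_sub, one_mul, ← mul_assoc, ← el_mul, ← pow_succ, ← pow_succ']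
  rw [dalg_fox00, dalg_fox10, this, dalg_XS]
  simp only [mul_sub, sub_mul, mul_add, mul_one, ← el_mul, mul_inv_cancel,
    show gx ^ 15 * gx ^ 15 = 1 by decide +kernel, show gy⁻¹ * gy⁻¹ = gx ^ 15 by decide +kernel,
    show gy⁻¹ * gx⁻¹ = gx * gy⁻¹ by decide +kernel, el_one]
  abel

theorem dalg_f1 : (el k gx - 1) * foxM k 0 1 + (el k gy⁻¹ - el k gx) * foxM k 1 1 = 0 := by
  rw [dalg_fox01, dalg_fox11]
  simp only [mul_sub, sub_mul, mul_neg, one_mul, ← el_mul,
    show gy⁻¹ * (gy⁻¹ * gx) = gx * gx ^ 15 by decide +kernel,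
    show gy⁻¹ * gy⁻¹ = gx ^ 15 by decide +kernel,
    show gx * (gy⁻¹ * gx) = gy⁻¹ by decide +kernel]
  abel

theorem u0_fox : u0 k ᵥ* foxM k = 0 := by
  funext j
  rw [dalg_vec]
  fin_cases j
  · exact dalg_f0 k
  · exact dalg_f1 k

theorem dalg_comb {α β : k} (h : α • dalgN k + β • (el k gy * dalgN k) = 0) : α = 0 ∧ β = 0 := by
  have h1 := congrArg (fun c : KQ k => c.coeff 1) h
  have h2 := congrArg (fun c : KQ k => c.coeff gy) h
  simp only [MonoidAlgebra.coeff_add, MonoidAlgebra.coeff_smul, Finsupp.add_apply,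
    Finsupp.smul_apply, dalg_N_one, dalg_YN_one, dalg_N_y k _ (Or.inl rfl), dalg_YN_y, smul_eq_mul,
    mul_one, mul_zero, add_zero, zero_add, MonoidAlgebra.coeff_zero, Finsupp.zero_apply] at h1 h2
  exact ⟨h1, h2⟩

theorem dalg_ker {α β : k} {b : KQ k}
    (g0 : (α • (1 : KQ k) + β • el k gy) * foxM k 0 0 + b * foxM k 1 0 = 0)
    (g1 : (α • (1 : KQ k) + β • el k gy) * foxM k 0 1 + b * foxM k 1 1 = 0) :
    α = 0 ∧ β = 0 ∧ ∃ γ : k, b = γ • (dalgN k * (el k gy⁻¹ - el k gx)) := by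
  rw [dalg_fox00, dalg_fox10] at g0
  rw [dalg_fox01, dalg_fox11, el_mul] at g1
  have xN := dalg_XN k
  have Nx := dalg_NX k
  have zN := dalg_pow_N k 15
  have Ny := dalg_NY k
  have iN : el k gy⁻¹ * dalgN k = el k gy * dalgN k := by
    rw [show gy⁻¹ = gy * gx ^ 15 by decide +kernel, el_mul, mul_assoc, zN]
  have yi : el k gy * el k gy⁻¹ = 1 := by rw [← el_mul, mul_inv_cancel, el_one]
  have iy : el k gy⁻¹ * el k gy = 1 := by rw [← el_mul, inv_mul_cancel, el_one]
  have yz : el k gy * el k (gx ^ 15) = el k gy⁻¹ := by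
    rw [← el_mul, ← show gy⁻¹ = gy * gx ^ 15 by decide +kernel]
  have yyN : el k gy * (el k gy * dalgN k) = dalgN k := by
    rw [← mul_assoc, ← el_mul, show gy * gy = gx ^ 15 by decide +kernel, zN]
  have Ni : dalgN k * el k gy⁻¹ = el k gy * dalgN k := by
    rw [← mul_one (el k gy * dalgN k), ← yi, ← mul_assoc, mul_assoc (el k gy), Ny, yyN]
  have ix : el k gx⁻¹ = el k gy⁻¹ * (el k gx * el k gy) := by
    rw [← el_mul, ← el_mul, ← show gx⁻¹ = gy⁻¹ * (gx * gy) by decide +kernel]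
  have h1 := congrArg (· * dalgN k) g1
  simp only [add_mul, sub_mul, mul_sub, neg_mul, mul_neg, smul_mul_assoc, one_mul, mul_assoc, xN,
    zN, iN, yyN, sub_self, add_zero, zero_mul] at h1
  have h2 : α + β = 0 := (dalg_comb k (β := α + β) (by rw [← neg_eq_zero, ← h1]; module)).1
  obtain rfl : β = -α := by linear_combination h2
  obtain ⟨γ, δ, h3⟩ := dalg_ann k (c := b * el k gy⁻¹ - α • dalgS k) (by
    rw [sub_mul, smul_mul_assoc, dalg_SX, ← g1]
    simp only [add_mul, mul_sub, mul_neg, smul_mul_assoc, one_mul, mul_one, mul_assoc, yi, yz]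
    module)
  rw [sub_eq_iff_eq_add] at h3
  rw [ix, mul_add, ← mul_assoc b, h3] at g0
  simp only [add_mul, smul_mul_assoc, one_mul, mul_assoc, dalg_SXY] at g0
  rw [← mul_assoc (dalgN k), Nx, Ny, yyN] at g0
  obtain ⟨h4, h5⟩ := dalg_comb k (α := α + (γ + δ)) (β := γ + δ) (by
    rw [← g0, add_smul α, dalg_N k, ← dalg_N k, show α • dalgN k =
      α • (dalgS k + el k (gx ^ 15) * dalgS k) by rw [← dalg_N k]]
    module)
  obtain rfl : α = 0 := by linear_combination h4 - h5
  obtain rfl : δ = -γ := by linear_combination h5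
  refine ⟨rfl, neg_zero, γ, ?_⟩
  rw [← mul_one b, ← iy, ← mul_assoc, h3]
  simp only [add_mul, mul_sub, smul_mul_assoc, mul_assoc, Nx, Ny, Ni, yyN]
  module

theorem ker_fox (w : Fin 2 → KQ k) (h : w ᵥ* foxM k = 0) : ∃ v, ∀ j, w j = v * u0 k j := by
  obtain ⟨v, α, β, hv⟩ := dalg_red k (w 0)
  have e0 := congrFun h 0
  have e1 := congrFun h 1
  rw [dalg_vec, hv, Pi.zero_apply] at e0 e1
  obtain ⟨rfl, rfl, γ, hb⟩ := dalg_ker k (α := α) (β := β) (b := w 1 - v * (el k gy⁻¹ - el k gx))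
    (by linear_combination (norm := noncomm_ring) e0 - v * dalg_f0 k)
    (by linear_combination (norm := noncomm_ring) e1 - v * dalg_f1 k)
  refine ⟨v + γ • dalgN k, fun j => ?_⟩
  fin_cases j
  · change w 0 = _ * (el k gx - 1)
    rw [hv, add_mul, smul_mul_assoc, mul_sub (dalgN k), dalg_NX]
    simp
  · change w 1 = _ * (el k gy⁻¹ - el k gx)
    rw [add_mul, smul_mul_assoc, ← hb, add_sub_cancel]

theorem coeff_NN (g : Q) : (NN k).coeff g = 1 := by
  rw [NN, MonoidAlgebra.coeff_sum, Finsupp.finsetSum_apply, Finset.sum_eq_single g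
    (fun i _ h0 => by exact Finsupp.single_eq_of_ne' h0) (by simp)]
  simp [el]

theorem dalg_const {v : KQ k} (h : ∀ g, v.coeff g = v.coeff 1) : ∃ c : k, v = c • NN k :=
  ⟨v.coeff 1, by ext g; simp [coeff_NN, h g]⟩

theorem ann_u0 (v : KQ k) (h : ∀ j, v * u0 k j = 0) : ∃ c : k, v = c • NN k := by
  have h0 := h 0
  have h1 := h 1
  rw [dalg_u0, mul_sub, mul_one, sub_eq_zero] at h0
  rw [dalg_u1, mul_sub, h0, sub_eq_zero] at h1
  refine dalg_const k fun g => ?_
  obtain ⟨i, rfl | rfl⟩ := dalg_cases g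
  · rw [← one_mul (gx ^ i.1), dalg_inv k h0]
  · rw [dalg_inv k h0, ← dalg_coeff_mul k v gy⁻¹ gy, h1, mul_inv_cancel]

theorem NN_mul_el (g : Q) : NN k * el k g = NN k := by
  ext h
  rw [← inv_mul_cancel_right h g, dalg_coeff_mul, coeff_NN, coeff_NN]

theorem el_mul_NN (g : Q) : el k g * NN k = NN k := by
  ext h
  rw [← mul_inv_cancel_left g h, dalg_coeff_mul', coeff_NN, coeff_NN]

theorem inv_gen (a : KQ k) (h : ∀ i, (el k (gen i) - 1) * a = 0) : ∃ c : k, a = c • NN k := by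
  have h0 : ∀ i g, a.coeff (gen i * g) = a.coeff g := fun i g => by
    have := h i
    rw [sub_mul, one_mul, sub_eq_zero] at this
    rw [← dalg_coeff_mul' k a (gen i) g, this]
  have h1 : ∀ i : ℕ, a.coeff (gx ^ i) = a.coeff 1 := fun i => by
    induction i with
    | zero => rw [pow_zero]
    | succ i ih => rw [pow_succ', ← ih]; exact h0 0 _
  refine dalg_const k fun g => ?_
  obtain ⟨i, rfl | rfl⟩ := dalg_cases g
  · exact h1 i
  · exact (h0 1 _).trans (h1 i)

theorem z_u0 : ¬ ∀ j, el (ZMod 2) (gx ^ 15) * u0 (ZMod 2) j = u0 (ZMod 2) j := by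
  intro h
  have := congrArg (fun c : KQ (ZMod 2) => c.coeff 1) (h 0)
  rw [dalg_u0, mul_sub, mul_one, ← el_mul, ← el_one] at this
  simp [el, Finsupp.single_eq_of_ne' (show gx ^ 15 * gx ≠ 1 by decide +kernel),
    Finsupp.single_eq_of_ne' (show gx ^ 15 ≠ 1 by decide +kernel),
    Finsupp.single_eq_of_ne' (show gx ≠ 1 by decide +kernel)] at this

theorem finrank_WK (k : Type) [Field k] : Module.finrank k (WK k) = 59 := by
  let φ : KQ k →ₗ[k] (Fin 2 → KQ k) := LinearMap.pi fun j => LinearMap.mulRight k (u0 k j)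
  have h1 : LinearMap.range φ = WK k := by
    ext w
    refine ⟨?_, fun h => ?_⟩
    · rintro ⟨v, rfl⟩
      change (v • u0 k) ᵥ* foxM k = 0
      rw [Matrix.smul_vecMul, u0_fox, smul_zero]
    · obtain ⟨v, hv⟩ := ker_fox k w h
      exact ⟨v, funext fun j => (hv j).symm⟩
  have h2 : LinearMap.ker φ = Submodule.span k {NN k} := by
    ext v
    rw [Submodule.mem_span_singleton]
    refine ⟨fun h => ?_, ?_⟩
    · obtain ⟨c, hc⟩ := ann_u0 k v fun j => congrFun h j
      exact ⟨c, hc.symm⟩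
    · rintro ⟨c, rfl⟩
      refine Submodule.smul_mem _ _ (funext fun j => ?_)
      change NN k * u0 k j = 0
      fin_cases j <;> simp [u0, mul_sub, NN_mul_el]
  have h3 : NN k ≠ 0 := fun h => by simpa [h] using coeff_NN k 1
  have h4 := φ.finrank_range_add_finrank_ker
  rw [h1, h2, finrank_span_singleton h3, (MonoidAlgebra.coeffLinearEquiv k).finrank_eq,
    Module.finrank_finsupp_self, card_Q] at h4
  omega

theorem dDp_cx (w : Fin 2 → ZQ) (h : w ᵥ* foxM ℤ = 0) : IsCx parDp (dDp w) := by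
  refine ⟨fun i j h => ?_, ?_⟩
  · rcases i with _ | i <;> rcases j with _ | j
    · rfl
    · cases j <;> first | rfl | exact absurd h (by simp [parDp, parD])
    · cases i <;> rfl
    · exact (dD_cx ℤ).odd i j h
  · have hn : ∀ i, dDp w i none = 0 := fun i => by
      rcases i with _ | i
      · rfl
      · cases i <;> rfl
    have hs : ∀ i j, dDp w (some i) (some j) = dD ℤ i j := fun i j => by cases j <;> rfl
    ext1 i j
    rw [Matrix.mul_apply, Fintype.sum_option, hn, zero_mul, zero_add, Matrix.zero_apply]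
    rcases j with _ | j
    · simp only [hn, mul_zero, Finset.sum_const_zero]
    rcases i with _ | i
    · simp only [hs]
      rw [DI.sum_univ]
      rcases j with j | j | _ <;> simp only [dD, dDp, mul_zero, zero_mul, add_zero]
      rw [← dalg_vec, h, Pi.zero_apply]
    · simp only [hs]
      exact congrFun (congrFun (dD_cx ℤ).sq i) j

theorem dalg_mul_NN (b : KQ k) : ∃ e : k, b * NN k = e • NN k := by
  induction b using MonoidAlgebra.induction_on with
  | of g => exact ⟨1, (el_mul_NN k g).trans (one_smul _ _).symm⟩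
  | add x y hx hy =>
    obtain ⟨e, he⟩ := hx
    obtain ⟨e', he'⟩ := hy
    exact ⟨e + e', by rw [add_mul, he, he', add_smul]⟩
  | smul r x hx =>
    obtain ⟨e, he⟩ := hx
    exact ⟨r * e, by rw [smul_mul_assoc, he, mul_smul]⟩

theorem dalg_coeff_red (z : ZQ) (g : Q) : (red k z).coeff g = (z.coeff g : k) :=
  MonoidAlgebra.coeff_mapRingHom _ _ _

theorem dalg_red_NN : red k (NN ℤ) = NN k := by simp [NN, red_el]

theorem dalg_sum (z : KQ k) : z = ∑ g, z.coeff g • el k g := by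
  ext h
  simp [el]

/-- An element which is invertible modulo the norm element and modulo every prime is invertible
modulo the norm element. -/
theorem unit_mod_NN (v : ZQ)
    (h : ∀ (p : ℕ) [Fact p.Prime], ∃ (a : KQ (ZMod p)) (c : ZMod p),
      a * red (ZMod p) v - 1 = c • NN (ZMod p)) :
    ∃ (a : ZQ) (c : ℤ), a * v - 1 = c • NN ℤ := by
  let S : Submodule ℤ ZQ := LinearMap.range (LinearMap.mulRight ℤ v) ⊔ Submodule.span ℤ {NN ℤ}
  rcases eq_top_or_exists_le_coatom S with hS | ⟨T, hT, hST⟩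
  · obtain ⟨_, ⟨a, rfl⟩, y, hy, e⟩ := Submodule.mem_sup.1 (hS ▸ Submodule.mem_top : (1 : ZQ) ∈ S)
    obtain ⟨c, rfl⟩ := Submodule.mem_span_singleton.1 hy
    exact ⟨a, -c, by rw [← e, neg_smul]; simp⟩
  exfalso
  have := isSimpleModule_iff_isCoatom.2 hT
  have hm := IsSimpleModule.annihilator_isMaximal (R := ℤ) (M := ZQ ⧸ T)
  obtain ⟨p, hp, e⟩ := (Ideal.isPrime_int_iff.1 hm.isPrime).resolve_left
    (Ring.ne_bot_of_isMaximal_of_not_isField hm Int.not_isField)
  have := Fact.mk hp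
  have h1 : ∀ y : ZQ, (p : ℤ) • y ∈ T := fun y => by
    rw [← Submodule.Quotient.mk_eq_zero, Submodule.Quotient.mk_smul]
    exact Module.mem_annihilator.1 (e ▸ Ideal.mem_span_singleton_self _) _
  have h2 : ∀ z : ZQ, red (ZMod p) z = 0 → z ∈ T := fun z hz => by
    rw [dalg_sum ℤ z]
    refine T.sum_mem fun g _ => ?_
    have := dalg_coeff_red (ZMod p) z g
    rw [hz] at this
    obtain ⟨m, hm⟩ := (ZMod.intCast_zmod_eq_zero_iff_dvd _ _).1 this.symm
    rw [hm, mul_smul]
    exact h1 _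
  obtain ⟨a, c, hc⟩ := h p
  obtain ⟨c', rfl⟩ := ZMod.intCast_surjective c
  obtain ⟨a', rfl⟩ : ∃ a', red (ZMod p) a' = a := by
    choose f hf using fun g => ZMod.intCast_surjective (a.coeff g)
    refine ⟨∑ g, f g • el ℤ g, ?_⟩
    rw [dalg_sum _ a]
    simp only [map_sum, map_zsmul, red_el, ← hf, Int.cast_smul_eq_zsmul]
  refine hT.1 (eq_top_iff.2 fun b _ => ?_)
  obtain ⟨ε, hε⟩ := dalg_mul_NN ℤ b
  have h3 := h2 (b * (a' * v - 1 - c' • NN ℤ)) (by
    rw [map_mul, map_sub, map_sub, map_mul, map_one, hc, map_zsmul, dalg_red_NN,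
      Int.cast_smul_eq_zsmul, sub_self, mul_zero])
  have h4 : b * a' * v - c' • ε • NN ℤ ∈ T := hST (S.sub_mem (Submodule.mem_sup_left ⟨_, rfl⟩)
    (Submodule.mem_sup_right (Submodule.smul_mem _ _ (Submodule.smul_mem _ _
      (Submodule.mem_span_singleton_self _)))))
  convert T.sub_mem h4 h3 using 1
  rw [mul_sub, mul_sub, mul_smul_comm, hε, mul_one, mul_assoc]
  abel

end MP35
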