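import Pool.Agent.Lib.MP_35c604_gt.TorDefs

/-! TASK TORA: independence of the contraction, conjugation, reindexing. -/

namespace MP35

open Matrix

section
variable {T : Type} [CommRing T]

theorem tora_one_mul (x : SqCl T) : 1 * x = x := one_mul x

theorem tora_mul_one (x : SqCl T) : x * 1 = x := mul_one x

theorem tora_mul_comm (x y : SqCl T) : x * y = y * x := mul_comm x y

theorem tora_cls_unit (u : Tˣ) : cls (u : T) = QuotientGroup.mk u := by
  rw [cls, dif_pos u.isUnit, IsUnit.unit_of_val_units]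

theorem cls_one : cls (1 : T) = 1 := tora_cls_unit 1

theorem cls_mul {a b : T} (ha : IsUnit a) (hb : IsUnit b) : cls (a * b) = cls a * cls b := by
  obtain ⟨u, rfl⟩ := ha
  obtain ⟨v, rfl⟩ := hb
  rw [← Units.val_mul, tora_cls_unit, tora_cls_unit, tora_cls_unit, QuotientGroup.mk_mul]

theorem cls_sq (u : Tˣ) : cls ((u : T) ^ 2) = 1 := by
  rw [← Units.val_pow_eq_pow_val, tora_cls_unit, QuotientGroup.eq_one_iff]
  exact ⟨u, rfl⟩

theorem cls_mul_self (x : SqCl T) : x * x = 1 := by
  induction x using QuotientGroup.induction_on with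
  | H u =>
    rw [← QuotientGroup.mk_mul, QuotientGroup.eq_one_iff]
    exact ⟨u, sq u⟩

theorem tora_eq_of_mul {x y : SqCl T} (h : x * y = 1) : x = y := by
  rw [← tora_mul_one x, ← cls_mul_self y, ← mul_assoc, h, tora_one_mul]

theorem cls_neg [Nice T] (a : T) : cls (-a) = cls a := by
  by_cases ha : IsUnit a
  · obtain ⟨u, hu⟩ := Nice.neg (T := T)
    rw [← neg_one_mul, cls_mul isUnit_one.neg ha, hu, cls_sq, tora_one_mul]
  · rw [cls, cls, dif_neg ha, dif_neg (by rwa [IsUnit.neg_iff])]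

theorem cls_eq_one_iff {a : T} (ha : IsUnit a) : cls a = 1 ↔ IsSquare a := by
  obtain ⟨u, rfl⟩ := ha
  constructor
  · rw [tora_cls_unit, QuotientGroup.eq_one_iff]
    rintro ⟨v, rfl⟩
    exact ⟨v, by simp [sq]⟩
  · rintro ⟨r, hr⟩
    obtain ⟨v, rfl⟩ := isUnit_of_mul_isUnit_left (hr ▸ u.isUnit : IsUnit (r * r))
    rw [hr, ← sq, cls_sq]

theorem cls_prod {ι : Type} (s : Finset ι) (f : ι → T) (h : ∀ i ∈ s, IsUnit (f i)) :
    cls (∏ i ∈ s, f i) = ∏ i ∈ s, cls (f i) := by
  classical
  induction s using Finset.induction_on with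
  | empty => simpa using cls_one
  | insert a s ha ih =>
    have hs : ∀ i ∈ s, IsUnit (f i) := fun i hi => h i (Finset.mem_insert_of_mem hi)
    rw [Finset.prod_insert ha, Finset.prod_insert ha,
      cls_mul (h a (Finset.mem_insert_self _ _)) (IsUnit.prod_iff.2 hs), ih hs]

end

section
variable {A : Type} [Ring A] {I J : Type} [Fintype I] [DecidableEq I] [Fintype J] [DecidableEq J]

theorem tora_bool {a b c : Bool} (h : a ≠ c) (h' : a ≠ b) : b = c := by
  cases a <;> cases b <;> cases c <;> simp_all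

omit [DecidableEq I] in
theorem tora_oo {p : I → Bool} {m m' : Matrix I I A} (h : IsOdd p m) (h' : IsOdd p m') :
    IsEven p (m * m') := fun i j hij => by
  rw [mul_apply]
  refine Finset.sum_eq_zero fun k _ => ?_
  by_cases e : p i = p k
  · rw [h i k e, zero_mul]
  · rw [h' k j (tora_bool hij e), mul_zero]

omit [DecidableEq I] in
theorem tora_eo {p : I → Bool} {m m' : Matrix I I A} (h : IsEven p m) (h' : IsOdd p m') :
    IsOdd p (m * m') := fun i j hij => by
  rw [mul_apply]
  refine Finset.sum_eq_zero fun k _ => ?_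
  by_cases e : p i = p k
  · rw [h' k j (e.symm.trans hij), mul_zero]
  · rw [h i k e, zero_mul]

omit [DecidableEq I] in
theorem tora_oe {p : I → Bool} {m m' : Matrix I I A} (h : IsOdd p m) (h' : IsEven p m') :
    IsOdd p (m * m') := fun i j hij => by
  rw [mul_apply]
  refine Finset.sum_eq_zero fun k _ => ?_
  by_cases e : p i = p k
  · rw [h i k e, zero_mul]
  · rw [h' k j (fun e' => e (hij.trans e'.symm)), mul_zero]

omit [Fintype I] [DecidableEq I] in
theorem tora_add {p : I → Bool} {m m' : Matrix I I A} (h : IsOdd p m) (h' : IsOdd p m') :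
    IsOdd p (m + m') := fun i j hij => by rw [Matrix.add_apply, h i j hij, h' i j hij, add_zero]

theorem tora_dgd {R : Type} [Ring R] {d Γ : R} (h : d * d = 0) (h1 : d * Γ + Γ * d = 1) :
    d * Γ * d = d := by
  have := congrArg (· * d) h1
  simpa only [add_mul, mul_assoc Γ, h, mul_zero, add_zero, one_mul] using this

theorem tora_norm {R : Type} [Ring R] {d Γ : R} (h : d * d = 0) (h1 : d * Γ + Γ * d = 1) :
    d * (Γ * d * Γ) + Γ * d * Γ * d = 1 ∧ Γ * d * Γ * (Γ * d * Γ) = 0 := by
  have e := tora_dgd h h1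
  refine ⟨by rw [← mul_assoc, ← mul_assoc, e, mul_assoc Γ, mul_assoc Γ, e, h1], ?_⟩
  have e1 : Γ * d = 1 - d * Γ := eq_sub_of_add_eq' h1
  have e3 : d * Γ * (Γ * d) = 0 := by
    rw [e1, mul_sub, mul_one, ← mul_assoc, e, sub_self]
  calc Γ * d * Γ * (Γ * d * Γ) = Γ * (d * Γ * (Γ * d)) * Γ := by simp only [mul_assoc]
    _ = 0 := by rw [e3, mul_zero, zero_mul]

theorem Contr.normalize {p : I → Bool} {d : Matrix I I A} (h : IsCx p d) (hc : Contr p d) :
    ∃ Γ : Matrix I I A, IsOdd p Γ ∧ d * Γ + Γ * d = 1 ∧ Γ * Γ = 0 := by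
  obtain ⟨Γ, h0, h1⟩ := hc
  exact ⟨Γ * d * Γ, tora_eo (tora_oo h0 h.odd) h0, tora_norm h.sq h1⟩

theorem IsCx.conj {p : I → Bool} {d g g' : Matrix I I A} (h : IsCx p d) (hg : IsEven p g)
    (hg' : IsEven p g') (h1 : g' * g = 1) : IsCx p (g * d * g') :=
  ⟨tora_oe (tora_eo hg h.odd) hg', by
    calc g * d * g' * (g * d * g') = g * (d * (g' * g) * d) * g' := by simp only [mul_assoc]
      _ = 0 := by rw [h1, mul_one, h.sq, mul_zero, zero_mul]⟩

theorem tora_conj_mul {R : Type} [Ring R] {g g' : R} (h1 : g' * g = 1) (x y : R) :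
    g * x * g' * (g * y * g') = g * (x * y) * g' := by
  calc g * x * g' * (g * y * g') = g * (x * (g' * g) * y) * g' := by simp only [mul_assoc]
    _ = _ := by rw [h1, mul_one]

theorem Contr.conj {p : I → Bool} {d g g' : Matrix I I A} (h : Contr p d) (hg : IsEven p g)
    (hg' : IsEven p g') (h1 : g' * g = 1) (h2 : g * g' = 1) : Contr p (g * d * g') := by
  obtain ⟨Γ, h0, h⟩ := h
  exact ⟨g * Γ * g', tora_oe (tora_eo hg h0) hg', by
    rw [tora_conj_mul h1, tora_conj_mul h1, ← add_mul, ← mul_add, h, mul_one, h2]⟩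

omit [Fintype I] [DecidableEq I] [Fintype J] [DecidableEq J] in
theorem tora_odd_sub (e : J → I) {p : I → Bool} {m : Matrix I I A} (h : IsOdd p m) :
    IsOdd (p ∘ e) (m.submatrix e e) := fun _ _ hij => h _ _ hij

omit [DecidableEq I] [DecidableEq J] in
theorem tora_cx_sub (e : J ≃ I) {p : I → Bool} {d : Matrix I I A} (h : IsCx p d) :
    IsCx (p ∘ e) (d.submatrix e e) :=
  ⟨tora_odd_sub e h.odd, by rw [submatrix_mul_equiv, h.sq, submatrix_zero]; rfl⟩

theorem tora_eq_sub (e : J ≃ I) {d Γ : Matrix I I A} (h : d * Γ + Γ * d = 1) :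
    d.submatrix e e * Γ.submatrix e e + Γ.submatrix e e * d.submatrix e e = 1 := by
  rw [submatrix_mul_equiv, submatrix_mul_equiv, ← submatrix_one_equiv e, ← h]
  rfl

theorem tora_con_sub (e : J ≃ I) {p : I → Bool} {d : Matrix I I A} (h : Contr p d) :
    Contr (p ∘ e) (d.submatrix e e) :=
  let ⟨Γ, h0, h1⟩ := h
  ⟨Γ.submatrix e e, tora_odd_sub e h0, tora_eq_sub e h1⟩

theorem isCx_reindex (e : J ≃ I) (p : I → Bool) (d : Matrix I I A) :
    IsCx (p ∘ e) (d.submatrix e e) ↔ IsCx p d :=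
  ⟨fun h => by simpa [Function.comp_assoc] using tora_cx_sub e.symm h, tora_cx_sub e⟩

theorem contr_reindex (e : J ≃ I) (p : I → Bool) (d : Matrix I I A) :
    Contr (p ∘ e) (d.submatrix e e) ↔ Contr p d :=
  ⟨fun h => by simpa [Function.comp_assoc] using tora_con_sub e.symm h, tora_con_sub e⟩

theorem IsCx.map {B : Type} [Ring B] (f : A →+* B) {p : I → Bool} {d : Matrix I I A}
    (h : IsCx p d) : IsCx p (d.map f) :=
  ⟨fun i j hij => by rw [map_apply, h.odd i j hij, map_zero],
    by rw [← Matrix.map_mul, h.sq, Matrix.map_zero _ (map_zero f)]⟩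

theorem Contr.map {B : Type} [Ring B] (f : A →+* B) {p : I → Bool} {d : Matrix I I A}
    (h : Contr p d) : Contr p (d.map f) := by
  obtain ⟨Γ, h0, h1⟩ := h
  refine ⟨Γ.map f, fun i j hij => by rw [map_apply, h0 i j hij, map_zero], ?_⟩
  simpa only [map_add, map_mul, map_one, RingHom.mapMatrix_apply] using
    congrArg f.mapMatrix h1

end

section
variable {T : Type} [CommRing T] {I J : Type} [Fintype I] [DecidableEq I] [Fintype J]
  [DecidableEq J]

/-- the block with row parity `a` and column parity `b` -/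
def toraBlk (p : I → Bool) (a b : Bool) (m : Matrix I I T) :
    Matrix {i // p i = a} {i // p i = b} T := m.submatrix Subtype.val Subtype.val

omit [DecidableEq I] in
theorem tora_blk_mul {p : I → Bool} {a b : Bool} (c : Bool) {m m' : Matrix I I T}
    (h : ∀ i k j, p i = a → p k ≠ c → p j = b → m i k * m' k j = 0) :
    toraBlk p a b (m * m') = toraBlk p a c m * toraBlk p c b m' := by
  ext i j
  simp only [toraBlk, submatrix_apply, mul_apply]
  rw [← Fintype.sum_subtype_add_sum_subtype (fun k => p k = c),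
    Finset.sum_eq_zero (s := Finset.univ) fun (k : {k // ¬ p k = c}) _ => h _ _ _ i.2 k.2 j.2,
    add_zero]

omit [DecidableEq I] in
theorem tora_blk_even {p : I → Bool} (a b : Bool) {m : Matrix I I T} (h : IsEven p m)
    (m' : Matrix I I T) : toraBlk p a b (m * m') = toraBlk p a a m * toraBlk p a b m' :=
  tora_blk_mul a fun i k j hi hk _ => by rw [h i k (by grind), zero_mul]

omit [DecidableEq I] in
theorem tora_blk_even' {p : I → Bool} (a b : Bool) (m : Matrix I I T) {m' : Matrix I I T}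
    (h : IsEven p m') : toraBlk p a b (m * m') = toraBlk p a b m * toraBlk p b b m' :=
  tora_blk_mul b fun i k j _ hk hj => by rw [h k j (by grind), mul_zero]

omit [Fintype I] in
theorem tora_blk_one (p : I → Bool) (a : Bool) : toraBlk p a a (1 : Matrix I I T) = 1 :=
  submatrix_one _ Subtype.val_injective

theorem tora_blk_inv {p : I → Bool} {a b : Bool} (hab : a ≠ b) {m : Matrix I I T} (h : IsOdd p m)
    (h1 : m * m = 1) : toraBlk p a b m * toraBlk p b a m = 1 := by
  rw [← tora_blk_mul b fun i k j hi hk _ => by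
    rw [h i k (hi.trans (tora_bool hk.symm hab.symm)), zero_mul], h1, tora_blk_one]

theorem tora_sq_one {R : Type} [Ring R] {d Γ : R} (h : d * d = 0) (h1 : d * Γ + Γ * d = 1)
    (h2 : Γ * Γ = 0) : (d + Γ) * (d + Γ) = 1 := by
  rw [add_mul, mul_add, mul_add, h, h2, zero_add, add_zero, h1]

theorem tora_det_conj {p : I → Bool} {g g' : Matrix I I T} (hg : IsEven p g) (hg' : IsEven p g')
    (m : Matrix I I T) (e : {i // p i = true} ≃ {i // p i = false}) :
    (torMat p (g * m * g') e).det =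
      (toraBlk p true true g).det * (torMat p m e).det * (toraBlk p false false g').det := by
  have e1 : ∀ m : Matrix I I T, torMat p m e = (toraBlk p true false m).submatrix id e :=
    fun _ => rfl
  rw [e1, e1, tora_blk_even' _ _ _ hg', tora_blk_even _ _ hg, ← det_submatrix_equiv_self e,
    ← det_mul, ← det_mul, ← submatrix_mul_equiv _ _ id e e]
  rfl

theorem tora_det_even {p : I → Bool} {g : Matrix I I T} (hg : IsEven p g) :
    g.det = (toraBlk p true true g).det * (toraBlk p false false g).det := by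
  rw [twoBlockTriangular_det g (fun i => p i = true) fun i hi j hj => hg i j (by grind),
    equiv_block_det g (p := fun i => ¬ p i = true) (q := fun i => p i = false) (by simp)]
  rfl

theorem tora_unip [Nice T] {N : Matrix I I T} (h : N * N = 0) :
    IsUnit (1 + N).det ∧ cls (1 + N).det = 1 := by
  have hu : IsUnit (1 + N).det := isUnit_det_of_right_inverse (B := 1 - N) (by
    rw [add_mul, mul_sub, mul_sub, h]; simp)
  obtain ⟨u, hu2⟩ := Nice.two (T := T)
  refine ⟨hu, (cls_eq_one_iff hu).2 ⟨(1 + ((u⁻¹ : Tˣ) : T) ^ 2 • N).det, ?_⟩⟩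
  have : ((u⁻¹ : Tˣ) : T) ^ 2 + ((u⁻¹ : Tˣ) : T) ^ 2 = 1 := by
    rw [← two_mul, hu2, ← mul_pow, Units.mul_inv, one_pow]
  rw [← det_mul, add_mul, mul_add, mul_add, Matrix.smul_mul, Matrix.smul_mul]
  simp only [Matrix.mul_smul, h, mul_one, one_mul, smul_zero, add_zero, add_assoc, ← add_smul, this, one_smul]

theorem tora_unip_blk [Nice T] {p : I → Bool} {d Γ Γ' : Matrix I I T} (h : IsCx p d)
    (hΓ : IsOdd p Γ) (h1 : d * Γ + Γ * d = 1) (hΓ' : IsOdd p Γ') (h1' : d * Γ' + Γ' * d = 1)
    (a : Bool) : IsEven p (Γ' * d + d * Γ) ∧ IsUnit (toraBlk p a a (Γ' * d + d * Γ)).det ∧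
      cls (toraBlk p a a (Γ' * d + d * Γ)).det = 1 := by
  have e : Γ' * d + d * Γ = 1 + (Γ' * d - Γ * d) := by rw [← h1]; abel
  have ev : IsEven p (Γ' * d - Γ * d) := fun i j hij => by
    rw [Matrix.sub_apply, tora_oo hΓ' h.odd i j hij, tora_oo hΓ h.odd i j hij, sub_zero]
  have n2 : (Γ' * d - Γ * d) * (Γ' * d - Γ * d) = 0 := by
    have e1 := tora_dgd h.sq h1
    have e2 := tora_dgd h.sq h1'
    rw [mul_assoc] at e1 e2
    simp only [sub_mul, mul_sub, mul_assoc, e1, e2, sub_self]
  refine ⟨fun i j hij => by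
    rw [Matrix.add_apply, tora_oo hΓ' h.odd i j hij, tora_oo h.odd hΓ i j hij, add_zero], ?_⟩
  have e' : toraBlk p a a (1 + (Γ' * d - Γ * d)) = 1 + toraBlk p a a (Γ' * d - Γ * d) := by
    rw [← tora_blk_one p a]; rfl
  rw [e, e']
  exact tora_unip (by rw [← tora_blk_even _ _ ev, n2]; rfl)

theorem tora_unit {p : I → Bool} {m : Matrix I I T} (h : IsOdd p m) (h1 : m * m = 1)
    (e : {i // p i = true} ≃ {i // p i = false}) : IsUnit (torMat p m e).det :=
  isUnit_det_of_right_inverse (B := (toraBlk p false true m).submatrix e id) (by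
    rw [show torMat p m e = (toraBlk p true false m).submatrix id e from rfl, submatrix_mul_equiv,
      tora_blk_inv (by simp) h h1, submatrix_id_id])

theorem tora_equiv [Nice T] (p : I → Bool) (m : Matrix I I T)
    (e e' : {i // p i = true} ≃ {i // p i = false}) :
    cls (torMat p m e').det = cls (torMat p m e).det := by
  have : torMat p m e' = (torMat p m e).submatrix id (e'.trans e.symm) := by
    ext i j; simp [torMat]
  rw [this, det_permute']
  rcases Int.units_eq_one_or (Equiv.Perm.sign (e'.trans e.symm)) with h | h <;> rw [h]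
  · simp
  · simp [cls_neg]

theorem tora_conj_eq {R : Type} [Ring R] {d Γ Γ' : R} (h : d * d = 0) (h1 : d * Γ + Γ * d = 1)
    (h2 : Γ * Γ = 0) (h1' : d * Γ' + Γ' * d = 1) (h2' : Γ' * Γ' = 0) :
    d + Γ' = (Γ' * d + d * Γ) * (d + Γ) * (Γ * d + d * Γ') := by
  have e1 := tora_dgd h h1
  have e2 := tora_dgd h h1'
  have k : ∀ {x y : R}, x * y = 0 → ∀ z, x * (y * z) = 0 := fun h z => by
    rw [← mul_assoc, h, zero_mul]
  have k1 : ∀ z, d * (Γ * (d * z)) = d * z := fun z => by rw [← mul_assoc, ← mul_assoc, e1]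
  have a1 : (Γ' * d + d * Γ) * (d + Γ) = (d + Γ') * (Γ' * d + d * Γ) := by
    rw [mul_assoc] at e1 e2
    simp only [add_mul, mul_add, mul_assoc, h, h2, k h, k h2', e1, e2, mul_zero, add_zero, zero_add]
  have a2 : (Γ' * d + d * Γ) * (Γ * d + d * Γ') = 1 := by
    rw [mul_assoc] at e1
    simp only [add_mul, mul_add, mul_assoc, k h, k h2, e1, k1, mul_zero, add_zero, zero_add]
    rw [add_comm, h1']
  rw [a1, mul_assoc, a2, mul_one]

theorem Contr.card_eq [Nontrivial T] {p : I → Bool} {d : Matrix I I T} (h : IsCx p d)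
    (hc : Contr p d) : Fintype.card {i // p i = true} = Fintype.card {i // p i = false} := by
  obtain ⟨Γ, h0, h1, h2⟩ := hc.normalize h
  have o := tora_add h.odd h0
  have s := tora_sq_one h.sq h1 h2
  exact square_of_invertible _ _ (tora_blk_inv (by simp) o s) (tora_blk_inv (by simp) o s)

theorem tor_eq [Nice T] {p : I → Bool} {d Γ : Matrix I I T} (h : IsCx p d) (hΓ : IsOdd p Γ)
    (h1 : d * Γ + Γ * d = 1) (h2 : Γ * Γ = 0) (e : {i // p i = true} ≃ {i // p i = false}) :
    IsUnit (torMat p (d + Γ) e).det ∧ tor p d = cls (torMat p (d + Γ) e).det := by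
  have u := tora_unit (tora_add h.odd hΓ) (tora_sq_one h.sq h1 h2) e
  have ex : ∃ x : Matrix I I T × ({i // p i = true} ≃ {i // p i = false}),
      IsOdd p x.1 ∧ d * x.1 + x.1 * d = 1 ∧ x.1 * x.1 = 0 := ⟨(Γ, e), hΓ, h1, h2⟩
  refine ⟨u, ?_⟩
  obtain ⟨k0, k1, k2⟩ := ex.choose_spec
  obtain ⟨a1, a2, a3⟩ := tora_unip_blk h hΓ h1 k0 k1 true
  obtain ⟨b1, b2, b3⟩ := tora_unip_blk h k0 k1 hΓ h1 false
  rw [tor, dif_pos ex, tora_equiv _ _ e, tora_conj_eq h.sq h1 h2 k1 k2, tora_det_conj a1 b1,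
    cls_mul (a2.mul u) b2, cls_mul a2 u, a3, b3, tora_one_mul, tora_mul_one]

theorem tor_conj [Nice T] {p : I → Bool} {d g g' : Matrix I I T} (h : IsCx p d) (hc : Contr p d)
    (hg : IsEven p g) (hg' : IsEven p g') (h1 : g' * g = 1) :
    tor p (g * d * g') = tor p d * cls g.det := by
  obtain ⟨Γ, h0, h2, h3⟩ := hc.normalize h
  have e := Fintype.equivOfCardEq (hc.card_eq h)
  have h1' : g * g' = 1 := mul_eq_one_comm.1 h1
  obtain ⟨u, hu⟩ := tor_eq h h0 h2 h3 e
  have b : ∀ a, (toraBlk p a a g').det * (toraBlk p a a g).det = 1 := fun a => by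
    rw [← det_mul, ← tora_blk_even _ _ hg', h1, tora_blk_one, det_one]
  have u1 : ∀ a, IsUnit (toraBlk p a a g).det := fun a => IsUnit.of_mul_eq_one_right _ (b a)
  have u2 : ∀ a, IsUnit (toraBlk p a a g').det := fun a => IsUnit.of_mul_eq_one _ (b a)
  have c : cls (toraBlk p false false g').det = cls (toraBlk p false false g).det :=
    tora_eq_of_mul (by rw [← cls_mul (u2 _) (u1 _), b, cls_one])
  rw [(tor_eq (h.conj hg hg' h1) (tora_oe (tora_eo hg h0) hg') (by
      rw [tora_conj_mul h1, tora_conj_mul h1, ← add_mul, ← mul_add, h2, mul_one, h1'])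
      (by rw [tora_conj_mul h1, h3, mul_zero, zero_mul]) e).2, ← add_mul, ← mul_add,
    tora_det_conj hg hg', cls_mul ((u1 _).mul u) (u2 _), cls_mul (u1 _) u, c, hu,
    tora_det_even hg, cls_mul (u1 _) (u1 _), tora_mul_comm (cls (toraBlk p true true g).det),
    mul_assoc]

theorem tor_reindex [Nice T] (e : J ≃ I) {p : I → Bool} {d : Matrix I I T} (h : IsCx p d)
    (hc : Contr p d) : tor (p ∘ e) (d.submatrix e e) = tor p d := by
  obtain ⟨Γ, h0, h2, h3⟩ := hc.normalize h
  have e0 := Fintype.equivOfCardEq (hc.card_eq h)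
  let E : ∀ a, {j // (p ∘ e) j = a} ≃ {i // p i = a} := fun a => e.subtypeEquiv fun _ => Iff.rfl
  rw [(tor_eq h h0 h2 h3 e0).2, (tor_eq (tora_cx_sub e h) (tora_odd_sub e h0) (tora_eq_sub e h2)
    (by rw [submatrix_mul_equiv, h3, submatrix_zero]; rfl)
    ((E true).trans (e0.trans (E false).symm))).2, ← det_submatrix_equiv_self (E true)]
  congr 2
  ext i j
  simp [torMat, E]

theorem IsEven.inv [Nice T] {p : I → Bool} {g : Matrix I I T} (hg : IsEven p g) :
    IsEven p g⁻¹ := by
  by_cases hu : IsUnit g.det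
  · have : (of fun i j => if p i = p j then g⁻¹ i j else 0) * g = 1 := by
      ext i j
      by_cases e : p i = p j
      · rw [← nonsing_inv_mul g hu, mul_apply, mul_apply]
        refine Finset.sum_congr rfl fun k _ => ?_
        rw [of_apply]
        split_ifs with c
        · rfl
        · rw [hg k j (by grind), mul_zero, mul_zero]
      · rw [one_apply_ne fun c => e (congrArg p c), mul_apply]
        refine Finset.sum_eq_zero fun k _ => ?_
        rw [of_apply]
        split_ifs with c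
        · rw [hg k j (by grind), mul_zero]
        · rw [zero_mul]
    intro i j hij
    rw [inv_eq_left_inv this, of_apply, if_neg hij]
  · rw [nonsing_inv_apply_not_isUnit g hu]
    exact fun _ _ _ => rfl

omit [Fintype I] [DecidableEq I] [Fintype J] [DecidableEq J] in
theorem tora_odd_sum {p : I → Bool} {q : J → Bool} {a : Matrix I I T} {c : Matrix J J T}
    (ha : IsOdd p a) (hc : IsOdd q c) : IsOdd (Sum.elim p q) (fromBlocks a 0 0 c) := by
  rintro (i | i) (j | j) h
  exacts [ha i j h, rfl, rfl, hc i j h]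

/-- direct sum -/
theorem tor_sum [Nice T] {p : I → Bool} {q : J → Bool} {a : Matrix I I T} {c : Matrix J J T}
    (ha : IsCx p a) (hc : IsCx q c) (ha' : Contr p a) (hc' : Contr q c) :
    tor (Sum.elim p q) (fromBlocks a 0 0 c) = tor p a * tor q c := by
  obtain ⟨Γ, h0, h2, h3⟩ := ha'.normalize ha
  obtain ⟨Δ, k0, k2, k3⟩ := hc'.normalize hc
  have e1 := Fintype.equivOfCardEq (ha'.card_eq ha)
  have e2 := Fintype.equivOfCardEq (hc'.card_eq hc)
  obtain ⟨u1, t1⟩ := tor_eq ha h0 h2 h3 e1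
  obtain ⟨u2, t2⟩ := tor_eq hc k0 k2 k3 e2
  let E : ∀ b, {i // Sum.elim p q i = b} ≃ {i // p i = b} ⊕ {j // q j = b} := fun b =>
    Equiv.subtypeSum
  rw [(tor_eq (Γ := fromBlocks Γ 0 0 Δ) ⟨tora_odd_sum ha.odd hc.odd, by
      simp [fromBlocks_multiply, ha.sq, hc.sq]⟩ (tora_odd_sum h0 k0)
    (by simp [fromBlocks_multiply, fromBlocks_add, h2, k2]) (by simp [fromBlocks_multiply, h3, k3])
    ((E true).trans ((e1.sumCongr e2).trans (E false).symm))).2, t1, t2, ← cls_mul u1 u2,
    ← det_fromBlocks_zero₂₁ _ 0, ← det_submatrix_equiv_self (E true)]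
  congr 2
  ext ⟨i | i, hi⟩ ⟨j | j, hj⟩ <;> simp [torMat, E, Equiv.subtypeSum]

end

end MP35
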