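import Pool.Agent.Lib.MP_35c604_gt.IncL
import Pool.Agent.Lib.MP_35c604_gt.DAlg
import Pool.Agent.Lib.MP_35c604_gt.TorA

/-! TASK COV: the covering is connected; relative 3-cycles; 2-cycles; orbits. -/

namespace MP35

open Matrix SC

variable {V : Type} [DecidableEq V]

theorem cov_bd_zero (k : Type) [CommRing k] {G : Type} [Group G] (K : SC V) (o : V → ℕ)
    (h : Finset V → Finset V → G) (s t : K.faces) (hn : ¬ (t.1 ⊆ s.1 ∧ s.1.card = t.1.card + 1)) :
    bd k K o h s t = 0 := by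
  have : inc o s.1 t.1 = 0 := by_contra fun e => hn (inc_ne_zero_iff.1 e)
  simp [bd, this]

theorem cov_mul_NN (a : ZQ) : ∃ e : ℤ, a * NN ℤ = e • NN ℤ := by
  induction a using MonoidAlgebra.induction_linear with
  | zero => exact ⟨0, by simp⟩
  | add a b ha hb =>
    obtain ⟨e, he⟩ := ha
    obtain ⟨e', he'⟩ := hb
    exact ⟨e + e', by rw [add_mul, he, he', add_smul]⟩
  | single g n =>
    refine ⟨n, ?_⟩
    have : (MonoidAlgebra.single g n : ZQ) = n • el ℤ g := by simp [el]
    rw [this, smul_mul_assoc, el_mul_NN]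

open Classical in
theorem cov_key {K : SC V} {o h r} (H : Dat K o h r) (U : V → Q → Prop)
    (hU : ∀ e ∈ K.faces, ∀ u ∈ e, ∀ v ∈ e, ∀ g, U u (g * h e {u}) → U v (g * h e {v})) :
    ∃ c : ℤ, ∀ v (hv : {v} ∈ K.faces) (e : ℤ), r ⟨{v}, hv⟩ DI.pt * NN ℤ = e • NN ℤ →
      ∀ g, (if U v g then 1 else 0 : ℤ) = c * e := by
  let φ : Finset V → Q → ℤ := fun s g => if ∃ v, s = {v} ∧ U v g then 1 else 0
  have φ1 : ∀ v g, φ {v} g = if U v g then 1 else 0 := fun v g => by simp [φ]
  let x : K.faces → ZQ := fun s =>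
    MonoidAlgebra.ofCoeff (Finsupp.equivFunOnFinite.symm fun g => φ s.1 g⁻¹)
  have xc : ∀ s g, (x s).coeff g = φ s.1 g⁻¹ := fun s g => rfl
  have h1 : bd ℤ K o h *ᵥ x = 0 := by
    funext s
    ext g
    simp only [mulVec, dotProduct, MonoidAlgebra.coeff_sum, Finsupp.finsetSum_apply, bd,
      MonoidAlgebra.coeff_single_mul_apply, xc, Int.cast_id, _root_.mul_inv_rev, inv_inv]
    rw [Finset.sum_coe_sort K.faces fun t => inc o s.1 t * φ t (g⁻¹ * h s.1 t)]
    show _ = 0
    by_cases h2 : s.1.card = 2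
    · have := sum_inc o K s.2 h2.ge fun t => φ t (g⁻¹ * h s.1 t)
      simp only [smul_eq_mul] at this
      rw [this]
      obtain ⟨a, b, ab, e⟩ := exists_sorted2 (H.inj.mono fun v hv => mem_verts_of_mem s.2 hv) h2
      have ne : a ≠ b := by rintro rfl; exact lt_irrefl _ ab
      have ha : a ∈ s.1 := by simp [e]
      have hb : b ∈ s.1 := by simp [e]
      have e1 : s.1.erase a = {b} := by rw [e]; ext; simp; grind
      have e2 : s.1.erase b = {a} := by rw [e]; ext; simp; grind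
      have p1 : pos o s.1 a = 0 := by
        rw [pos, e, Finset.card_eq_zero]; ext; simp; grind
      have p2 : pos o s.1 b = 1 := by
        rw [pos, e, Finset.card_eq_one]; refine ⟨a, ?_⟩; ext; simp; grind
      have : ∀ F : V → ℤ, ∑ v ∈ s.1, F v = F a + F b := fun F => by rw [e, Finset.sum_pair ne]
      rw [this, e1, e2, p1, p2, φ1, φ1,
        propext (Iff.intro (hU _ s.2 a ha b hb g⁻¹) (hU _ s.2 b hb a ha g⁻¹))]
      ring
    · refine Finset.sum_eq_zero fun t _ => ?_
      by_cases e : inc o s.1 t = 0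
      · simp [e]
      · rw [show φ t _ = 0 from if_neg ?_, mul_zero]
        rintro ⟨v, rfl, -⟩
        exact h2 (by simpa using (inc_ne_zero_iff.1 e).2)
  obtain ⟨Γ, -, hΓ⟩ := H.con
  have h2 : cone K o h r *ᵥ Sum.elim x 0 = 0 := by
    rw [cone, fromBlocks_mulVec]
    ext1 i
    cases i <;> simp [h1]
  have h3 : cone K o h r *ᵥ (Γ *ᵥ Sum.elim x 0) = Sum.elim x 0 := by
    have := congrArg (· *ᵥ Sum.elim x 0) hΓ
    simpa only [add_mulVec, ← mulVec_mulVec, h2, mulVec_zero, add_zero, one_mulVec] using this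
  generalize Γ *ᵥ Sum.elim x 0 = y at h3
  rw [cone, fromBlocks_mulVec] at h3
  obtain ⟨c, hc⟩ := inv_gen ℤ (y (.inr .pt)) fun i => by
    have := congrFun h3 (.inr (.gen i))
    simpa [mulVec, dotProduct, DI.sum_univ, dD] using this
  refine ⟨c, fun v hv e he g => ?_⟩
  have := congrFun h3 (.inl ⟨{v}, hv⟩)
  have z : ∀ i : DI, i ≠ .pt → r ⟨{v}, hv⟩ i = 0 := fun i hi => by_contra fun k => by
    have := H.gr _ _ k
    cases i <;> simp [DI.deg] at this hi
  have z' : ∀ t, bd ℤ K o h ⟨{v}, hv⟩ t = 0 := fun t => cov_bd_zero _ _ _ _ _ _ fun k => by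
    have := (K.ne _ t.2).card_pos
    have := k.2
    simp at this
    simp [this] at *
  simp only [Sum.elim_inl, Pi.add_apply, mulVec, dotProduct, DI.sum_univ, z', zero_mul,
    Finset.sum_const_zero, zero_add, Function.comp] at this
  rw [z _ (by simp), z _ (by simp), z _ (by simp), z _ (by simp), hc, mul_smul_comm, he] at this
  have := congrArg (fun a : ZQ => a.coeff g⁻¹) this
  simp only [xc, inv_inv, φ1, zero_mul, zero_add, MonoidAlgebra.coeff_smul_apply, coeff_NN,
    smul_eq_mul, mul_one] at this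
  exact this.symm

theorem Dat.conn {K : SC V} {o h r} (H : Dat K o h r) : K.Conn h := by
  intro U hU u hu v hv g g' k
  obtain ⟨c, hc⟩ := cov_key H U hU
  obtain ⟨c0, hc0⟩ := cov_key H (fun _ _ => True) fun _ _ _ _ _ _ _ _ => trivial
  obtain ⟨e, he⟩ := cov_mul_NN (r ⟨{u}, hu⟩ DI.pt)
  obtain ⟨e', he'⟩ := cov_mul_NN (r ⟨{v}, hv⟩ DI.pt)
  have a1 := hc u hu e he g
  have a2 := hc v hv e' he' g'
  have b1 := hc0 u hu e he g
  have b2 := hc0 v hv e' he' g
  rw [if_pos k] at a1
  rw [if_pos trivial] at b1 b2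
  by_contra n
  rw [if_neg n] at a2
  have : c * e * (c0 * e') = c * e' * (c0 * e) := by ring
  rw [← a1, ← a2, ← b2] at this
  simp at this

/-- A 3-chain of the covering whose boundary vanishes on the interior triangles and which vanishes
at one tetrahedron of the covering is zero. -/
theorem rel_cycle (k : Type) [CommRing k] {G : Type} [Group G] {Y : SC V} {o : V → ℕ}
    {h : Finset V → Finset V → G} (hh : Y.IsLoc h) (hc : Y.Conn h) (I : V → Prop) (hp : Y.Pure3)
    (ht : ∀ f ∈ Y.faces, f.card = 3 → (∃ w ∈ f, I w) → Y.deg f = 2)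
    (hs : ∀ w, I w → Y.SCat {w}) (hHS : Y.HS I) (z : Y.faces → MonoidAlgebra k G)
    (hz : ∀ s : Y.faces, s.1.card ≠ 4 → z s = 0)
    (hb : ∀ f : Y.faces, f.1.card = 3 → (∃ w ∈ f.1, I w) → (z ᵥ* bd k Y o h) f = 0)
    (t : Y.faces) (h4 : t.1.card = 4) (g : G) (h0 : (z t).coeff g = 0) : z = 0 := by
  let P : Finset V → V → G → Prop := fun t v g =>
    ∀ ht : t ∈ Y.faces, (z ⟨t, ht⟩).coeff (g * (h t {v})⁻¹) = 0
  have mv : ∀ t ∈ Y.faces, ∀ e ⊆ t, ∀ v ∈ e, ∀ γ,
      γ * h e {v} * (h t {v})⁻¹ = γ * (h t e)⁻¹ := fun t ht e he v hv γ => by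
    rw [← hh t ht e (Y.down t ht e he ⟨v, hv⟩) {v} (mem_verts_of_mem ht (he hv)) he
      (Finset.singleton_subset_iff.2 hv)]
    group
  have sw : ∀ t ∈ Y.faces, ∀ e ⊆ t, ∀ v ∈ e, ∀ w ∈ e, ∀ γ,
      P t v (γ * h e {v}) → P t w (γ * h e {w}) := fun t ht e he v hv w hw γ k _ => by
    rw [mv t ht e he w hw, ← mv t ht e he v hv]
    exact k ht
  have s1 : ∀ w, I w → ∀ a ∈ Y.faces, a.card = 4 → ∀ b, Y.Adj {w} a b → ∀ g, P a w g → P b w g := by
    rintro w hw a ha a4 b ⟨hb', b4, wf, c3⟩ g kk -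
    by_cases ab : a = b
    · subst ab; exact kk ha
    have wf' : w ∈ a ∩ b := Finset.singleton_subset_iff.1 wf
    have fY : a ∩ b ∈ Y.faces := Y.down a ha _ Finset.inter_subset_left ⟨w, wf'⟩
    have f3 : (a ∩ b).card = 3 := by
      by_contra n
      have e1 : a ∩ b = a := Finset.eq_of_subset_of_card_le Finset.inter_subset_left (by omega)
      have e2 : a ∩ b = b := Finset.eq_of_subset_of_card_le Finset.inter_subset_right (by omega)
      exact ab (e1.symm.trans e2)
    have dg := ht _ fY f3 ⟨w, wf', hw⟩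
    have two : (Y.faces.filter fun t => a ∩ b ⊆ t ∧ t.card = (a ∩ b).card + 1) = {a, b} := by
      refine (Finset.eq_of_subset_of_card_le ?_ ?_).symm
      · intro t ht
        simp only [Finset.mem_insert, Finset.mem_singleton] at ht
        rcases ht with rfl | rfl <;> simp [*]
      · rw [Finset.card_pair ab]; exact dg.le
    have e := hb ⟨_, fY⟩ f3 ⟨w, wf', hw⟩
    rw [vecMul, dotProduct, Finset.sum_eq_add ⟨a, ha⟩ ⟨b, hb'⟩ (by simpa using ab) ?_ (by simp)
      (by simp)] at e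
    · have e := congrArg (fun x : MonoidAlgebra k G => x.coeff (g * (h (a ∩ b) {w})⁻¹)) e
      have m1 := mv a ha _ Finset.inter_subset_left w wf' (g * (h (a ∩ b) {w})⁻¹)
      have m2 := mv b hb' _ Finset.inter_subset_right w wf' (g * (h (a ∩ b) {w})⁻¹)
      rw [inv_mul_cancel_right] at m1 m2
      simp only [bd, MonoidAlgebra.coeff_add, Finsupp.add_apply,
        MonoidAlgebra.coeff_mul_single_apply, ← m1, ← m2, kk ha, zero_mul, zero_add] at e
      rcases inc_eq_or (o := o) (s := b) (t := a ∩ b) Finset.inter_subset_right (by omega)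
        with i | i <;> simpa [i] using e
    · intro c _ hc
      rw [cov_bd_zero, mul_zero]
      intro k
      have : c.1 ∈ ({a, b} : Finset (Finset V)) := two ▸ Finset.mem_filter.2 ⟨c.2, k⟩
      simp only [Finset.mem_insert, Finset.mem_singleton] at this
      exact this.elim (fun e => hc.1 (Subtype.ext e)) fun e => hc.2 (Subtype.ext e)
  have s2 : ∀ w, I w → ∀ a ∈ Y.faces, ∀ b ∈ Y.faces, a.card = 4 → b.card = 4 → w ∈ a → w ∈ b →
      ∀ g, P a w g → P b w g := by
    intro w hw a ha b hb a4 b4 wa wb g k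
    have := hs w hw a ha b hb a4 b4 (Finset.singleton_subset_iff.2 wa)
      (Finset.singleton_subset_iff.2 wb)
    clear hb b4 wb
    suffices b ∈ Y.faces ∧ b.card = 4 ∧ P b w g from this.2.2
    induction this with
    | refl => exact ⟨ha, a4, k⟩
    | tail _ s ih => exact ⟨s.1, s.2.1, s1 w hw _ ih.1 ih.2.1 _ s g ih.2.2⟩
  have s3 : ∀ v, ∀ a ∈ Y.faces, ∀ b ∈ Y.faces, a.card = 4 → b.card = 4 → v ∈ a → v ∈ b →
      ∀ g, P a v g → P b v g := by
    intro v a ha b hb a4 b4 va vb g k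
    have := hHS v a ha b hb a4 b4 va vb
    clear hb b4 vb
    suffices b ∈ Y.faces ∧ b.card = 4 ∧ v ∈ b ∧ P b v g from this.2.2.2
    induction this with
    | refl => exact ⟨ha, a4, va, k⟩
    | @tail c d _ s ih =>
      obtain ⟨d1, d2, d3, w, hw, iw⟩ := s
      obtain ⟨c1, c2, c3, c4⟩ := ih
      rw [Finset.mem_inter] at hw
      refine ⟨d1, d2, d3, ?_⟩
      rw [← inv_mul_cancel_right g (h {v, w} {v})] at c4 ⊢
      exact sw d d1 {v, w} (by simp [Finset.insert_subset_iff, d3, hw.2]) w (by simp) v (by simp) _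
        (s2 w iw c c1 d d1 c2 d2 hw.1 hw.2 _
          (sw c c1 {v, w} (by simp [Finset.insert_subset_iff, c3, hw.1]) v (by simp) w (by simp) _ c4))
  have all := hc (fun v g => ∀ b ∈ Y.faces, b.card = 4 → v ∈ b → P b v g) (by
    intro e he u hu v hv γ k b hb b4 vb
    obtain ⟨a, ha, ea, a4⟩ := hp.2 e he
    exact s3 v a ha b hb a4 b4 (ea hv) vb _ (sw a ha e ea u hu v hv γ (k a ha a4 (ea hu))))
  obtain ⟨u, hu⟩ := Y.ne _ t.2
  funext s
  by_cases s4 : s.1.card = 4
  · obtain ⟨v, hv⟩ := Y.ne _ s.2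
    ext γ
    have := all u (mem_verts_of_mem t.2 hu) v (mem_verts_of_mem s.2 hv) (g * h t.1 {u})
      (γ * h s.1 {v}) (fun b hb b4 ub => s3 u _ t.2 b hb h4 b4 hu ub _ fun _ => by simpa using h0)
      s.1 s.2 s4 hv s.2
    simpa using this
  · exact hz s s4

/-- The image in the Fox complex of a 2-chain. -/
noncomputable def toW (k : Type) [CommRing k] {K : SC V} (r : Matrix K.faces DI ZQ)
    (c : K.faces → KQ k) : Fin 2 → KQ k :=
  fun j => (c ᵥ* r.map (red k)) (DI.rel j)

theorem cov_cone_map (k : Type) [CommRing k] (K : SC V) (o h r) :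
    (cone K o h r).map (red k) = fromBlocks (bd k K o h) (r.map (red k)) 0 (dD k) := by
  rw [cone, fromBlocks_map, bd_map, dD_map, Matrix.map_zero _ (map_zero _)]

theorem toW_mem (k : Type) [CommRing k] {K : SC V} {o h r} (H : Dat K o h r) (c : K.faces → KQ k)
    (hc : c ᵥ* bd k K o h = 0) : toW k r c ∈ WK k := by
  have h1 := (H.cx.map (red k)).sq
  rw [cov_cone_map, fromBlocks_multiply, ← fromBlocks_zero, fromBlocks_inj] at h1
  have h2 := congrArg (c ᵥ* ·) h1.2.1
  simp only [vecMul_add, ← vecMul_vecMul, hc, zero_vecMul, zero_add, vecMul_zero] at h2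
  show toW k r c ᵥ* foxM k = 0
  funext i
  have := congrFun h2 (.gen i)
  rw [vecMul, dotProduct, DI.sum_univ] at this
  simpa [vecMul, dotProduct, dD, toW] using this

theorem toW_eq_zero (k : Type) [CommRing k] {K : SC V} {o h r} (H : Dat K o h r)
    (c : K.faces → KQ k) (h3 : ∀ s : K.faces, s.1.card ≠ 3 → c s = 0)
    (hc : c ᵥ* bd k K o h = 0) (h0 : toW k r c = 0) :
    ∃ z : K.faces → KQ k, (∀ s : K.faces, s.1.card ≠ 4 → z s = 0) ∧ z ᵥ* bd k K o h = c := by
  obtain ⟨Γ, -, hΓ⟩ := H.con.map (red k)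
  rw [cov_cone_map] at hΓ
  have h1 : c ᵥ* r.map (red k) = 0 := by
    funext i
    have z : i.deg ≠ 2 → (c ᵥ* r.map (red k)) i = 0 := fun hi => by
      refine Finset.sum_eq_zero fun s _ => ?_
      by_cases e : r s i = 0
      · simp [e]
      · rw [h3 s (by rw [H.gr s i e]; omega), zero_mul]
    cases i with
    | rel j => exact congrFun h0 j
    | gen j => exact z (by simp [DI.deg])
    | pt => exact z (by simp [DI.deg])
  have h2 : Sum.elim c 0 ᵥ* fromBlocks (bd k K o h) (r.map (red k)) 0 (dD k) = 0 := by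
    rw [vecMul_fromBlocks]
    ext1 i
    cases i <;> simp [hc, h1]
  have h4 := congrArg (Sum.elim c 0 ᵥ* ·) hΓ
  simp only [vecMul_add, ← vecMul_vecMul, h2, zero_vecMul, zero_add, vecMul_one] at h4
  generalize Sum.elim c 0 ᵥ* Γ = y at h4
  rw [vecMul_fromBlocks] at h4
  refine ⟨fun s => if s.1.card = 4 then y (.inl s) else 0, fun s hs => if_neg hs, ?_⟩
  funext t
  have := congrFun h4 (.inl t)
  simp only [Sum.elim_inl, vecMul_zero, add_zero] at this
  by_cases t3 : t.1.card = 3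
  · rw [← this]
    refine Finset.sum_congr rfl fun s _ => ?_
    by_cases s4 : s.1.card = 4
    · simp [s4]
    · simp only [cov_bd_zero k K o h s t fun k => s4 (by omega), mul_zero]
  · rw [h3 t t3]
    refine Finset.sum_eq_zero fun s _ => ?_
    by_cases s4 : s.1.card = 4
    · simp only [cov_bd_zero k K o h s t fun k => t3 (by omega), mul_zero]
    · simp [s4]

theorem cov_three : ∀ e1 c1 e2 c2 e3 c3 s1 s2 s3 t1 t2 t3 : ZMod 2,
    1 = e1 * s1 + c1 * t1 → 0 = e1 * s2 + c1 * t2 → 0 = e1 * s3 + c1 * t3 →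
    0 = e2 * s1 + c2 * t1 → 1 = e2 * s2 + c2 * t2 → 0 = e2 * s3 + c2 * t3 →
    0 = e3 * s1 + c3 * t1 → 0 = e3 * s2 + c3 * t2 → 1 = e3 * s3 + c3 * t3 → False := by
  intro e1 c1 e2 c2 e3 c3 s1 s2 s3 t1 t2 t3 a1 a2 a3 b1 b2 b3 d1 d2 d3
  have : (e1 * s1 + c1 * t1) * ((e2 * s2 + c2 * t2) * (e3 * s3 + c3 * t3)
      - (e2 * s3 + c2 * t3) * (e3 * s2 + c3 * t2))
      - (e1 * s2 + c1 * t2) * ((e2 * s1 + c2 * t1) * (e3 * s3 + c3 * t3)
      - (e2 * s3 + c2 * t3) * (e3 * s1 + c3 * t1))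
      + (e1 * s3 + c1 * t3) * ((e2 * s1 + c2 * t1) * (e3 * s2 + c3 * t2)
      - (e2 * s2 + c2 * t2) * (e3 * s1 + c3 * t1)) = 0 := by ring
  rw [← a1, ← a2, ← a3, ← b1, ← b2, ← b3, ← d1, ← d2, ← d3] at this
  simp at this

/-- A permutation module which is an extension of the cyclic module `WK` by at most the sum of
all points is transitive. -/
theorem orb_trans {Ω : Type} [Fintype Ω] [MulAction Q Ω] (f : (Ω → ZMod 2) →ₗ[ZMod 2] WK (ZMod 2))
    (hf : ∀ (g : Q) (x : Ω → ZMod 2) (j : Fin 2),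
      (f fun ω => x (g⁻¹ • ω)).1 j = el (ZMod 2) g * (f x).1 j)
    (hk : ∀ x, f x = 0 → ∃ c : ZMod 2, ∀ ω, x ω = c) (hcard : 60 ≤ Fintype.card Ω) (ω ω' : Ω) :
    ∃ g : Q, g • ω = ω' := by
  classical
  have k1 : Module.finrank (ZMod 2) (LinearMap.ker f) ≤ 1 := by
    refine le_trans (Submodule.finrank_mono (t := Submodule.span (ZMod 2) {(1 : Ω → ZMod 2)})
      fun x hx => ?_) (by simpa using finrank_span_le_card ({1} : Set (Ω → ZMod 2)))
    obtain ⟨c, hc⟩ := hk x hx
    exact Submodule.mem_span_singleton.2 ⟨c, funext fun ω => by simp [hc]⟩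
  have k2 := f.finrank_range_add_finrank_ker
  have k3 := (LinearMap.range f).finrank_le
  rw [Module.finrank_fintype_fun_eq_card] at k2
  have k4 := finrank_WK (ZMod 2)
  have top : LinearMap.range f = ⊤ := Submodule.eq_top_of_finrank_eq (by omega)
  obtain ⟨x0, hx0⟩ := LinearMap.range_eq_top.1 top ⟨u0 (ZMod 2), u0_fox _⟩
  let l : Ω → (Ω → ZMod 2) → ZMod 2 := fun a x => ∑ b, if b ∈ MulAction.orbit Q a then x b else 0
  have gen : ∀ x, ∃ e c : ZMod 2, ∀ a, l a x = e * l a x0 + c * l a 1 := by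
    intro x
    obtain ⟨v, hv⟩ := ker_fox _ (f x).1 (f x).2
    let y : Ω → ZMod 2 := ∑ g : Q, v.coeff g • fun b => x0 (g⁻¹ • b)
    have hy : f (x - y) = 0 := by
      rw [map_sub, sub_eq_zero]
      ext1
      funext j
      simp only [y, map_sum, map_smul, Submodule.coe_sum, Submodule.coe_smul, Finset.sum_apply,
        Pi.smul_apply, hf, hx0, hv, ← smul_mul_assoc, ← Finset.sum_mul]
      congr 1
      ext g
      simp [el]
    obtain ⟨c, hc⟩ := hk _ hy
    refine ⟨∑ g : Q, v.coeff g, c, fun a => ?_⟩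
    have e1 : ∀ g : Q, (∑ b, if b ∈ MulAction.orbit Q a then x0 (g⁻¹ • b) else 0) = l a x0 :=
      fun g => Fintype.sum_equiv (MulAction.toPerm g⁻¹) _ _ fun b => by
        simp only [MulAction.toPerm_apply]
        refine if_congr ⟨fun k => MulAction.mapsTo_smul_orbit _ _ k, fun k => ?_⟩ rfl rfl
        simpa using MulAction.mapsTo_smul_orbit g _ k
    have e2 : ∀ b, x b = ∑ g : Q, v.coeff g * x0 (g⁻¹ • b) + c := fun b => by
      rw [← hc b]; simp [y]
    rw [Finset.sum_mul, Finset.sum_congr rfl fun g _ => by rw [← e1 g, Finset.mul_sum],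
      Finset.sum_comm]
    simp only [l, Finset.mul_sum, ← Finset.sum_add_distrib]
    refine Finset.sum_congr rfl fun b _ => ?_
    split_ifs <;> simp [e2 b]
  have ls : ∀ a b, l a (Pi.single b 1) = if b ∈ MulAction.orbit Q a then 1 else 0 := fun a b => by
    simp only [l]
    rw [Finset.sum_eq_single b (fun c _ hc => by simp [hc]) (by simp)]
    simp
  have sy : ∀ a b : Ω, a ∉ MulAction.orbit Q b → b ∉ MulAction.orbit Q a := fun a b k k' =>
    k (MulAction.mem_orbit_symm.1 k')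
  have three : ∀ a b c : Ω, b ∉ MulAction.orbit Q a → c ∉ MulAction.orbit Q a →
      c ∈ MulAction.orbit Q b := by
    intro a b c h1 h2
    by_contra h3
    obtain ⟨e1, c1, p1⟩ := gen (Pi.single a 1)
    obtain ⟨e2, c2, p2⟩ := gen (Pi.single b 1)
    obtain ⟨e3, c3, p3⟩ := gen (Pi.single c 1)
    have a1 := p1 a; have a2 := p1 b; have a3 := p1 c
    have b1 := p2 a; have b2 := p2 b; have b3 := p2 c
    have d1 := p3 a; have d2 := p3 b; have d3 := p3 c
    simp only [ls, MulAction.mem_orbit_self, h1, h2, h3, sy _ _ h1, sy _ _ h2, sy _ _ h3, if_true,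
      if_false] at a1 a2 a3 b1 b2 b3 d1 d2 d3
    exact cov_three _ _ _ _ _ _ _ _ _ _ _ _ a1 a2 a3 b1 b2 b3 d1 d2 d3
  by_contra n
  have n' : ω' ∉ MulAction.orbit Q ω := n
  have fix : ∀ a : Ω, gx ^ 15 • a = a := by
    intro a
    obtain ⟨b, hb⟩ : ∃ b, b ∉ MulAction.orbit Q a := by
      by_contra k
      push Not at k
      exact n' (MulAction.mem_orbit_symm.1 ((MulAction.orbit_eq_iff.2 (k ω')).symm ▸ k ω))
    have os : ∀ a : Ω, Nat.card (MulAction.stabilizer Q a) * (MulAction.orbit Q a).ncard = 60 :=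
      fun a => by
        rw [← MulAction.index_stabilizer, Subgroup.card_mul_index, Nat.card_eq_fintype_card, card_Q]
    have un : (MulAction.orbit Q a).ncard + (MulAction.orbit Q b).ncard = 60 := by
      have : MulAction.orbit Q b = (MulAction.orbit Q a)ᶜ := by
        ext c
        refine ⟨fun k k' => hb ?_, three a b c hb⟩
        rw [← MulAction.orbit_eq_iff.2 k']
        exact MulAction.mem_orbit_symm.1 k
      rw [this, Set.ncard_add_ncard_compl, Nat.card_eq_fintype_card]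
      omega
    have o1 := os a
    have o2 := os b
    have c2 : Nat.card (MulAction.stabilizer Q a) = 2 := by
      generalize Nat.card (MulAction.stabilizer Q a) = s, Nat.card (MulAction.stabilizer Q b) = s',
        (MulAction.orbit Q a).ncard = m, (MulAction.orbit Q b).ncard = m' at *
      have : m ≤ 60 := by omega
      obtain rfl : m' = 60 - m := by omega
      interval_cases m <;> omega
    obtain ⟨g, hg, -⟩ := (Nat.card_eq_two_iff' (1 : MulAction.stabilizer Q a)).1 c2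
    have g2 : g ^ 2 = 1 := by rw [← c2]; exact pow_card_eq_one'
    rcases sq_eq_one_Q g.1 (by exact_mod_cast congrArg Subtype.val g2) with e | e
    · exact absurd (Subtype.ext e) hg
    · exact e ▸ g.2
  refine z_u0 fun j => ?_
  have := hf (gx ^ 15) x0 j
  rw [show (fun ω => x0 ((gx ^ 15)⁻¹ • ω)) = x0 from funext fun a => by
    rw [inv_smul_eq_iff.2 (fix a).symm], hx0] at this
  exact this.symm

end MP35
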