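import Pool.Agent.Lib.MP_35c604_gt.Q60

/-! TASK CROSS: an invertible matrix gives an isomorphism of free crossed modules. -/

namespace MP35

open Matrix

section aux

variable {F G ι ι' : Type} [Group F] [Group G]

/-- The action of `F` on formal products. -/
def cross_act (u : F) : FreeGroup (F × ι) →* FreeGroup (F × ι) :=
  FreeGroup.map fun x => (u * x.1, x.2)

/-- The Peiffer elements. -/
def cross_Pf (R : ι → F) : Subgroup (FreeGroup (F × ι)) :=
  Subgroup.normalClosure {z | ∃ x y : F × ι, z = FreeGroup.of x * FreeGroup.of y *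
    (FreeGroup.of x)⁻¹ * (FreeGroup.of (x.1 * R x.2 * x.1⁻¹ * y.1, y.2))⁻¹}

instance cross_normal (R : ι → F) : (cross_Pf R).Normal := Subgroup.normalClosure_normal

/-- The projection to the free crossed module. -/
def cross_mk (R : ι → F) : FreeGroup (F × ι) →* FreeGroup (F × ι) ⧸ cross_Pf R :=
  QuotientGroup.mk' _

/-- Substitution. -/
def cross_sub (W : ι' → FreeGroup (F × ι)) : FreeGroup (F × ι') →* FreeGroup (F × ι) :=
  FreeGroup.lift fun x => cross_act x.1 (W x.2)

theorem cross_act_of (u : F) (x : F × ι) :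
    cross_act u (FreeGroup.of x) = FreeGroup.of (u * x.1, x.2) := FreeGroup.map.of

theorem cross_act_mul (u v : F) (c : FreeGroup (F × ι)) :
    cross_act (u * v) c = cross_act u (cross_act v c) :=
  DFunLike.congr_fun (show cross_act (u * v) = (cross_act u).comp (cross_act v) from
    FreeGroup.ext_hom _ _ fun x => by simp [cross_act_of, mul_assoc]) c

theorem cross_act_one (c : FreeGroup (F × ι)) : cross_act (1 : F) c = c :=
  DFunLike.congr_fun (show cross_act (ι := ι) (1 : F) = MonoidHom.id _ from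
    FreeGroup.ext_hom _ _ fun x => by simp [cross_act_of]) c

theorem cross_sub_of (W : ι' → FreeGroup (F × ι)) (x : F × ι') :
    cross_sub W (FreeGroup.of x) = cross_act x.1 (W x.2) := FreeGroup.lift_apply_of

theorem cross_cbd_of (R : ι → F) (x : F × ι) :
    cbd R (FreeGroup.of x) = x.1 * R x.2 * x.1⁻¹ := FreeGroup.lift_apply_of

theorem cross_cbd_act (R : ι → F) (u : F) (c : FreeGroup (F × ι)) :
    cbd R (cross_act u c) = u * cbd R c * u⁻¹ :=
  DFunLike.congr_fun (show (cbd R).comp (cross_act u) = (MulAut.conj u).toMonoidHom.comp (cbd R)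
    from FreeGroup.ext_hom _ _ fun x => by simp [cross_act_of, cross_cbd_of, mul_assoc]) c

theorem cross_cbd_sub {R : ι → F} {w : ι' → F} {W : ι' → FreeGroup (F × ι)}
    (h : ∀ i, cbd R (W i) = w i) (d : FreeGroup (F × ι')) : cbd R (cross_sub W d) = cbd w d :=
  DFunLike.congr_fun (show (cbd R).comp (cross_sub W) = cbd w from
    FreeGroup.ext_hom _ _ fun x => by simp [cross_sub_of, cross_cbd_act, cross_cbd_of, h]) d

theorem cross_sub_act (W : ι' → FreeGroup (F × ι)) (u : F) (d : FreeGroup (F × ι')) :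
    cross_sub W (cross_act u d) = cross_act u (cross_sub W d) :=
  DFunLike.congr_fun (show (cross_sub W).comp (cross_act u) = (cross_act u).comp (cross_sub W) from
    FreeGroup.ext_hom _ _ fun x => by simp [cross_sub_of, cross_act_of, cross_act_mul]) d

theorem cross_kill {K : Type} [Group K] {R : ι → F} (φ : FreeGroup (F × ι) →* K)
    (h : ∀ x y : F × ι, φ (FreeGroup.of x) * φ (FreeGroup.of y) * (φ (FreeGroup.of x))⁻¹ =
      φ (FreeGroup.of (x.1 * R x.2 * x.1⁻¹ * y.1, y.2))) {c d : FreeGroup (F × ι)}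
    (e : cross_mk R c = cross_mk R d) : φ c = φ d := by
  have h1 : cross_Pf R ≤ φ.ker := Subgroup.normalClosure_le_normal (by
    rintro _ ⟨x, y, rfl⟩
    simp only [SetLike.mem_coe, MonoidHom.mem_ker, map_mul, map_inv, h, mul_inv_cancel])
  have h2 := h1 (QuotientGroup.eq.1 e)
  rwa [MonoidHom.mem_ker, map_mul, map_inv, inv_mul_eq_one] at h2

theorem cross_gen (R : ι → F) (x y : F × ι) : cross_mk R (FreeGroup.of x) *
    cross_mk R (FreeGroup.of y) * (cross_mk R (FreeGroup.of x))⁻¹ =
      cross_mk R (FreeGroup.of (x.1 * R x.2 * x.1⁻¹ * y.1, y.2)) := by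
  rw [← mul_inv_eq_one, ← map_inv, ← map_inv, ← map_mul, ← map_mul, ← map_mul]
  exact (QuotientGroup.eq_one_iff _).2 (Subgroup.subset_normalClosure ⟨x, y, rfl⟩)

theorem cross_peiffer (R : ι → F) (c g : FreeGroup (F × ι)) :
    cross_mk R c * cross_mk R g * (cross_mk R c)⁻¹ = cross_mk R (cross_act (cbd R c) g) := by
  induction c using FreeGroup.induction_on generalizing g with
  | C1 => simp [cross_act_one]
  | of x =>
    exact DFunLike.congr_fun (show (MulAut.conj (cross_mk R (FreeGroup.of x))).toMonoidHom.comp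
      (cross_mk R) = (cross_mk R).comp (cross_act (cbd R (FreeGroup.of x))) from
      FreeGroup.ext_hom _ _ fun y => by
        simpa [cross_act_of, cross_cbd_of] using cross_gen R x y) g
  | inv_of x ih =>
    have := ih (cross_act (cbd R (FreeGroup.of x))⁻¹ g)
    rw [← cross_act_mul, mul_inv_cancel, cross_act_one] at this
    rw [map_inv, map_inv, ← this]
    group
  | mul a b iha ihb =>
    rw [map_mul, map_mul, cross_act_mul, ← iha, ← ihb]
    group

theorem cross_act_congr {R : ι → F} (u : F) {c d : FreeGroup (F × ι)}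
    (e : cross_mk R c = cross_mk R d) : cross_mk R (cross_act u c) = cross_mk R (cross_act u d) :=
  cross_kill ((cross_mk R).comp (cross_act u)) (fun x y => by
    simpa [cross_act_of, mul_assoc] using cross_gen R (u * x.1, x.2) (u * y.1, y.2)) e

theorem cross_cbd_congr {R : ι → F} {c d : FreeGroup (F × ι)}
    (e : cross_mk R c = cross_mk R d) : cbd R c = cbd R d :=
  cross_kill (cbd R) (fun x y => by simp [cross_cbd_of, mul_assoc]) e

theorem cross_sub_congr {R : ι → F} {w : ι' → F} {W : ι' → FreeGroup (F × ι)}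
    (h : ∀ i, cbd R (W i) = w i) {c d : FreeGroup (F × ι')}
    (e : cross_mk w c = cross_mk w d) : cross_mk R (cross_sub W c) = cross_mk R (cross_sub W d) :=
  cross_kill ((cross_mk R).comp (cross_sub W)) (fun x y => by
    simp only [MonoidHom.comp_apply, cross_sub_of, cross_peiffer, cross_cbd_act, h,
      cross_act_mul]) e

theorem cross_half {R : ι → F} {w : ι' → F} {W : ι' → FreeGroup (F × ι)}
    {W' : ι → FreeGroup (F × ι')} (h1 : ∀ j, cbd w (W' j) = R j)
    (h2 : ∀ i, cross_mk w (cross_sub W' (W i)) = cross_mk w (FreeGroup.of (1, i))) :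
    HalfEq R w W W' := by
  intro H P _ _ C θ l ht hs
  have e0 : ∀ (l : ι' → H) x, cev C.i θ l (FreeGroup.of x) =
    C.i (θ x.1) * l x.2 * (C.i (θ x.1))⁻¹ := fun _ _ => FreeGroup.lift_apply_of
  have e1 : C.s.comp (cev C.i θ l) = θ.comp (cbd w) :=
    FreeGroup.ext_hom _ _ fun x => by simp [e0, cross_cbd_of, C.si, hs]
  have e2 : ∀ u, (cev C.i θ l).comp (cross_act u) =
      (MulAut.conj (C.i (θ u))).toMonoidHom.comp (cev C.i θ l) := fun u =>
    FreeGroup.ext_hom _ _ fun x => by simp [e0, cross_act_of, mul_assoc]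
  have e3 : cev C.i θ (fun j => cev C.i θ l (W' j)) = (cev C.i θ l).comp (cross_sub W') :=
    FreeGroup.ext_hom _ _ fun x => by
      rw [MonoidHom.comp_apply, cross_sub_of]
      exact FreeGroup.lift_apply_of.trans (DFunLike.congr_fun (e2 x.1) _).symm
  refine ⟨fun j => (DFunLike.congr_fun e1 _).trans (congrArg θ (h1 j)), fun i => ?_⟩
  rw [e3, MonoidHom.comp_apply, cross_kill (cev C.i θ l) (fun x y => ?_) (h2 i), e0]
  · simp
  have e4 : ∀ a b : H, C.t b = 1 → a * b * a⁻¹ = C.i (C.s a) * b * (C.i (C.s a))⁻¹ := by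
    intro a b hb
    have := C.comm ((C.i (C.s a))⁻¹ * a) b (by simp [C.si]) hb
    calc a * b * a⁻¹ = C.i (C.s a) * ((C.i (C.s a))⁻¹ * a * b) * a⁻¹ := by group
      _ = _ := by rw [this]; group
  rw [e4 _ _ (by simp [e0, ht]), ← MonoidHom.comp_apply C.s, e1]
  simp [e0, cross_cbd_of, mul_assoc]

theorem cross_range {q : F →* G} {R : ι → F}
    (hR : q.ker = Subgroup.normalClosure (Set.range R)) : (cbd R).range = q.ker := by
  apply le_antisymm
  · rintro _ ⟨c, rfl⟩
    have : q.comp (cbd R) = 1 := FreeGroup.ext_hom _ _ fun x => by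
      have : q (R x.2) = 1 := by
        rw [← MonoidHom.mem_ker, hR]
        exact Subgroup.subset_normalClosure ⟨_, rfl⟩
      simp [cross_cbd_of, this]
    exact DFunLike.congr_fun this c
  · have : (cbd R).range.Normal := ⟨by
      rintro _ ⟨c, rfl⟩ u
      exact ⟨_, cross_cbd_act R u c⟩⟩
    rw [hR]
    refine Subgroup.normalClosure_le_normal ?_
    rintro _ ⟨i, rfl⟩
    exact ⟨FreeGroup.of (1, i), by simp [cross_cbd_of]⟩

variable [Fintype ι] [DecidableEq ι] [Fintype ι'] [DecidableEq ι']

omit [Fintype ι] in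
theorem cross_cab_of (q : F →* G) (x : F × ι) : cab q (FreeGroup.of x) =
    Multiplicative.ofAdd (Pi.single x.2 (MonoidAlgebra.single (q x.1) 1)) :=
  FreeGroup.lift_apply_of

omit [Fintype ι] in
theorem cross_cab_act (q : F →* G) (u : F) (c : FreeGroup (F × ι)) :
    (cab q (cross_act u c)).toAdd =
      (MonoidAlgebra.single (q u) 1 : MonoidAlgebra ℤ G) • (cab q c).toAdd := by
  induction c using FreeGroup.induction_on with
  | C1 => simp
  | of x => simp [cross_act_of, cross_cab_of, ← Pi.single_smul, MonoidAlgebra.single_mul_single]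
  | inv_of x ih => simp only [map_inv, toAdd_inv, ih, smul_neg]
  | mul a b iha ihb => simp only [map_mul, toAdd_mul, iha, ihb, smul_add]

omit [Fintype ι] in
theorem cross_cab_sub {q : F →* G} {W : ι' → FreeGroup (F × ι)}
    {A : Matrix ι' ι (MonoidAlgebra ℤ G)} (h : ∀ i, (cab q (W i)).toAdd = A i)
    (d : FreeGroup (F × ι')) : (cab q (cross_sub W d)).toAdd = (cab q d).toAdd ᵥ* A := by
  induction d using FreeGroup.induction_on with
  | C1 => simp
  | of x =>
    rw [cross_sub_of, cross_cab_act, h, cross_cab_of, toAdd_ofAdd, single_vecMul]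
    rfl
  | inv_of x ih => simp only [map_inv, toAdd_inv, ih, neg_vecMul]
  | mul a b iha ihb => simp only [map_mul, toAdd_mul, iha, ihb, add_vecMul]

theorem cross_cab_surj {q : F →* G} (hq : Function.Surjective q) (z : ι → MonoidAlgebra ℤ G) :
    ∃ c : FreeGroup (F × ι), (cab q c).toAdd = z := by
  have h : ∀ (j : ι) (a : MonoidAlgebra ℤ G),
      Multiplicative.ofAdd (Pi.single j a : ι → MonoidAlgebra ℤ G) ∈ (cab q).range := by
    intro j a
    induction a using MonoidAlgebra.induction_linear with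
    | zero => simp
    | add a b ha hb =>
      rw [Pi.single_add, ofAdd_add]
      exact mul_mem ha hb
    | single g n =>
      obtain ⟨u, rfl⟩ := hq g
      refine ⟨FreeGroup.of (u, j) ^ n, ?_⟩
      rw [map_zpow, cross_cab_of, ← ofAdd_zsmul, ← Pi.single_smul]
      simp
  obtain ⟨c, hc⟩ := (cab q).range.prod_mem (t := Finset.univ) fun j _ => h j (z j)
  exact ⟨c, by rw [hc, ← ofAdd_sum, toAdd_ofAdd, Finset.univ_sum_single]⟩

theorem cross_ker {q : F →* G} (hq : Function.Surjective q) {R : ι → F}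
    (hR : q.ker = Subgroup.normalClosure (Set.range R)) {c : FreeGroup (F × ι)}
    (hc : cab q c = 1) : cross_mk R c ∈ commutator _ := by
  let e : ι → G → Additive (Abelianization (FreeGroup (F × ι) ⧸ cross_Pf R)) := fun j g =>
    Additive.ofMul (Abelianization.of (cross_mk R (FreeGroup.of (Function.surjInv hq g, j))))
  let ψ : (ι → MonoidAlgebra ℤ G) →+ Additive (Abelianization (FreeGroup (F × ι) ⧸ cross_Pf R)) :=
    ∑ j, ((Finsupp.liftAddHom fun g => zmultiplesHom _ (e j g)).comp
      MonoidAlgebra.coeffAddEquiv.toAddMonoidHom).comp (Pi.evalAddMonoidHom _ j)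
  have h1 : (AddMonoidHom.toMultiplicativeLeft ψ).comp (cab q) =
      Abelianization.of.comp (cross_mk R) := FreeGroup.ext_hom _ _ fun x => by
    have h2 : ψ (Pi.single x.2 (MonoidAlgebra.single (q x.1) 1)) = e x.2 (q x.1) := by
      simp only [ψ, AddMonoidHom.finsetSum_apply]
      rw [Finset.sum_eq_single x.2 (fun j _ hj => by simp [Pi.single_eq_of_ne hj]) (by simp)]
      simp
    obtain ⟨d, hd⟩ : x.1 * (Function.surjInv hq (q x.1))⁻¹ ∈ (cbd R).range := by
      rw [cross_range hR, MonoidHom.mem_ker, map_mul, map_inv, Function.surjInv_eq hq,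
        mul_inv_cancel]
    have h3 := cross_peiffer R d (FreeGroup.of (Function.surjInv hq (q x.1), x.2))
    rw [hd, cross_act_of, inv_mul_cancel_right] at h3
    change Additive.toMul (ψ (cab q (FreeGroup.of x)).toAdd) =
      Abelianization.of (cross_mk R (FreeGroup.of (x.1, x.2)))
    rw [cross_cab_of, toAdd_ofAdd, h2, ← h3, map_mul, map_mul, map_inv, mul_inv_cancel_comm]
    rfl
  have h2 := DFunLike.congr_fun h1 c
  rw [MonoidHom.comp_apply, hc, map_one] at h2
  rw [← Abelianization.ker_of]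
  exact h2.symm

theorem cross_surj {q : F →* G} (hq : Function.Surjective q) {R : ι → F} {w : ι' → F}
    (hR : q.ker = Subgroup.normalClosure (Set.range R))
    (hw : q.ker = Subgroup.normalClosure (Set.range w)) {W : ι' → FreeGroup (F × ι)}
    {A : Matrix ι' ι (MonoidAlgebra ℤ G)} {B : Matrix ι ι' (MonoidAlgebra ℤ G)} (hBA : B * A = 1)
    (h1 : ∀ i, cbd R (W i) = w i) (h2 : ∀ i, (cab q (W i)).toAdd = A i) (c : FreeGroup (F × ι)) :
    ∃ d, cross_mk R (cross_sub W d) = cross_mk R c := by
  have a1 : ∀ x : FreeGroup (F × ι) ⧸ cross_Pf R, ∃ h ∈ ((cross_mk R).comp (cross_sub W)).range,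
      ∃ z, (∀ g, z * g = g * z) ∧ x = h * z := by
    intro x
    obtain ⟨c, rfl⟩ := QuotientGroup.mk'_surjective _ x
    obtain ⟨d, hd⟩ : cbd R c ∈ (cbd w).range := by
      rw [cross_range hw, ← cross_range hR]
      exact ⟨c, rfl⟩
    refine ⟨_, ⟨d, rfl⟩, cross_mk R ((cross_sub W d)⁻¹ * c), fun g => ?_, by simp [cross_mk]⟩
    obtain ⟨g, rfl⟩ := QuotientGroup.mk'_surjective _ g
    have := cross_peiffer R ((cross_sub W d)⁻¹ * c) g
    rw [map_mul (cbd R), map_inv, cross_cbd_sub h1, hd, inv_mul_cancel, cross_act_one,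
      mul_inv_eq_iff_eq_mul] at this
    exact this
  have a2 : commutator _ ≤ ((cross_mk R).comp (cross_sub W)).range := by
    rw [commutator_def, Subgroup.commutator_le]
    rintro x - y -
    obtain ⟨h, hh, z, hz, rfl⟩ := a1 x
    obtain ⟨k, hk, t, ht, rfl⟩ := a1 y
    have : h * z * (k * t) * (h * z)⁻¹ * (k * t)⁻¹ = h * k * h⁻¹ * k⁻¹ := by
      calc h * z * (k * t) * (h * z)⁻¹ * (k * t)⁻¹
          = h * (z * (k * t)) * z⁻¹ * h⁻¹ * t⁻¹ * k⁻¹ := by group
        _ = h * k * (t * h⁻¹) * t⁻¹ * k⁻¹ := by rw [hz]; group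
        _ = _ := by rw [ht]; group
    rw [commutatorElement_def, this]
    exact mul_mem (mul_mem (mul_mem hh hk) (inv_mem hh)) (inv_mem hk)
  obtain ⟨d, hd⟩ := cross_cab_surj (F := F) hq ((cab q c).toAdd ᵥ* B)
  have a3 : cab q (cross_sub W d) = cab q c := Multiplicative.toAdd.injective (by
    rw [cross_cab_sub h2, hd, vecMul_vecMul, hBA, vecMul_one])
  obtain ⟨d', hd'⟩ := a2 (cross_ker hq hR (c := c * (cross_sub W d)⁻¹)
    (by rw [map_mul, map_inv, a3, mul_inv_cancel]))
  rw [MonoidHom.comp_apply] at hd'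
  exact ⟨d' * d, by rw [map_mul, map_mul, hd', map_mul, map_inv, inv_mul_cancel_right]⟩

end aux

theorem crossedEq_of {F G ι : Type} [Group F] [Group G] [Fintype ι] [DecidableEq ι] (q : F →* G)
    (hq : Function.Surjective q) (R w : ι → F)
    (hR : q.ker = Subgroup.normalClosure (Set.range R))
    (hw : q.ker = Subgroup.normalClosure (Set.range w))
    (A B : Matrix ι ι (MonoidAlgebra ℤ G)) (hAB : A * B = 1) (hBA : B * A = 1)
    (W : ι → FreeGroup (F × ι)) (h1 : ∀ i, cbd R (W i) = w i)
    (h2 : ∀ i, Multiplicative.toAdd (cab q (W i)) = A i) : CrossedEq R w := by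
  choose W' hW' using fun j => cross_surj hq hR hw hBA h1 h2 (FreeGroup.of (1, j))
  have e1 : ∀ j, cbd w (W' j) = R j := fun j => by
    rw [← cross_cbd_sub h1, cross_cbd_congr (hW' j), cross_cbd_of]
    simp
  have e2 : ∀ j, (cab q (W' j)).toAdd = B j := fun j => by
    have hq1 : ∀ i, q (R i) = 1 := fun i => by
      rw [← MonoidHom.mem_ker, hR]
      exact Subgroup.subset_normalClosure ⟨_, rfl⟩
    have h3 := cross_kill (cab q) (fun x y => by
      rw [mul_inv_cancel_comm]
      simp [cross_cab_of, hq1]) (hW' j)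
    have h4 := cross_cab_sub h2 (W' j)
    rw [h3, cross_cab_of, toAdd_ofAdd, map_one] at h4
    rw [← vecMul_one (cab q (W' j)).toAdd, ← hAB, ← vecMul_vecMul, ← h4]
    exact single_one_vecMul j B
  have e3 : ∀ c, cross_mk R (cross_sub W (cross_sub W' c)) = cross_mk R c := fun c =>
    DFunLike.congr_fun (show ((cross_mk R).comp (cross_sub W)).comp (cross_sub W') = cross_mk R
      from FreeGroup.ext_hom _ _ fun x => by
        simp only [MonoidHom.comp_apply, cross_sub_of, cross_sub_act]
        rw [cross_act_congr _ (hW' _), cross_act_of, mul_one]) c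
  refine ⟨W, W', cross_half e1 fun i => ?_, cross_half h1 hW'⟩
  obtain ⟨c, hc⟩ := cross_surj hq hw hR hAB e1 e2 (FreeGroup.of (1, i))
  have e4 := cross_sub_congr h1 hc
  rw [e3, cross_sub_of, cross_act_one] at e4
  rw [← cross_sub_congr e1 e4, hc]

end MP35
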