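import Pool.Agent.Lib.MP_35c604_gt.DAlg
import Pool.Agent.Lib.MP_35c604_gt.TorB

/-! TASK DPLUS: reduced norms of units modulo the norm element are squares. -/

namespace MP35

open Matrix

variable {T : Type} [CommRing T]

theorem rho_det (ξ : Tˣ) (h : (ξ : T) ^ 15 = -1) (g : Q) : (rho ξ h g).det = 1 := by
  rcases g with i | i
  · change (rhoF ξ (.a i)).det = 1
    simp [rhoF, Matrix.det_fin_two]
  · change (rhoF ξ (.xa i)).det = 1
    simp [rhoF, Matrix.det_fin_two]

abbrev dplusG := Multiplicative (ZMod 15)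

abbrev dplusR := MonoidAlgebra ℤ dplusG

theorem dplus_pow_card (g : dplusG) : g ^ 15 = 1 := by
  have := pow_card_eq_one (x := g)
  rwa [Fintype.card_multiplicative, ZMod.card] at this

/-- The universal root of `-1`. -/
noncomputable def dplusXi : dplusRˣ :=
  -Units.map (MonoidAlgebra.of ℤ dplusG) (toUnits (Multiplicative.ofAdd 1))

theorem dplusXi_val :
    (dplusXi : dplusR) = -MonoidAlgebra.single (Multiplicative.ofAdd (1 : ZMod 15)) 1 := rfl

theorem dplusXi_pow : (dplusXi : dplusR) ^ 15 = -1 := by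
  rw [dplusXi_val, Odd.neg_pow (by decide), MonoidAlgebra.single_pow, dplus_pow_card, one_pow,
    ← MonoidAlgebra.one_def]

/-- The involution of the group ring. -/
noncomputable def dplusConj : dplusR →+* dplusR :=
  (MonoidAlgebra.lift ℤ dplusR dplusG ((MonoidAlgebra.of ℤ dplusG).comp invMonoidHom)).toRingHom

theorem dplusConj_single (g : dplusG) (c : ℤ) :
    dplusConj (MonoidAlgebra.single g c) = MonoidAlgebra.single g⁻¹ c := by
  refine (MonoidAlgebra.lift_single _ g c).trans ?_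
  simp

theorem dplusConj_conj (x : dplusR) : dplusConj (dplusConj x) = x := by
  induction x using MonoidAlgebra.induction_linear with
  | zero => simp
  | add x y hx hy => rw [map_add, map_add, hx, hy]
  | single g c => rw [dplusConj_single, dplusConj_single, inv_inv]

theorem dplusConj_coeff (x : dplusR) (g : dplusG) : (dplusConj x).coeff g⁻¹ = x.coeff g := by
  induction x using MonoidAlgebra.induction_linear with
  | zero => simp
  | add x y hx hy => simp only [map_add, MonoidAlgebra.coeff_add, Finsupp.add_apply, hx, hy]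
  | single k c =>
    rw [dplusConj_single, MonoidAlgebra.coeff_single, MonoidAlgebra.coeff_single,
      Finsupp.single_apply, Finsupp.single_apply]
    simp only [_root_.inv_inj]

theorem dplus_norm (x : dplusR) : (x * dplusConj x).coeff 1 = ∑ g, x.coeff g ^ 2 := by
  rw [MonoidAlgebra.coeff_mul_apply_left, Finsupp.sum_fintype _ _ (by simp)]
  exact Finset.sum_congr rfl fun g _ => by rw [mul_one, dplusConj_coeff, sq]

theorem dplus_single {x : dplusR} (h : ∑ g, x.coeff g ^ 2 = 1) :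
    ∃ g, x = MonoidAlgebra.single g 1 ∨ x = -MonoidAlgebra.single g 1 := by
  obtain ⟨k, -, hk⟩ := Finset.exists_ne_zero_of_sum_ne_zero (h.trans_ne one_ne_zero)
  rw [← Finset.add_sum_erase _ _ (Finset.mem_univ k)] at h
  have h1 : 0 ≤ ∑ g ∈ Finset.univ.erase k, x.coeff g ^ 2 :=
    Finset.sum_nonneg fun g _ => sq_nonneg _
  have h2 : 0 < x.coeff k ^ 2 := lt_of_le_of_ne (sq_nonneg _) hk.symm
  have h3 : ∑ g ∈ Finset.univ.erase k, x.coeff g ^ 2 = 0 := by omega
  have h4 : x = MonoidAlgebra.single k (x.coeff k) := by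
    ext g
    rw [MonoidAlgebra.coeff_single, Finsupp.single_apply]
    split_ifs with h5
    · rw [h5]
    · exact pow_eq_zero_iff two_ne_zero |>.1 ((Finset.sum_eq_zero_iff_of_nonneg
        fun g _ => sq_nonneg _).1 h3 g (Finset.mem_erase.2 ⟨Ne.symm h5, Finset.mem_univ _⟩))
  refine ⟨k, ?_⟩
  rcases sq_eq_one_iff.1 (by omega : x.coeff k ^ 2 = 1) with h5 | h5
  · left; rw [h4, h5]
  · right; rw [h4, h5, MonoidAlgebra.single_neg]

theorem dplusConj_xi : Units.map (dplusConj : dplusR →* dplusR) dplusXi = dplusXi⁻¹ := by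
  rw [eq_inv_iff_mul_eq_one]
  apply Units.ext
  change dplusConj (dplusXi : dplusR) * (dplusXi : dplusR) = 1
  rw [dplusXi_val, map_neg, dplusConj_single, neg_mul_neg, MonoidAlgebra.single_mul_single,
    inv_mul_cancel, one_mul, ← MonoidAlgebra.one_def]

theorem dplus_map_pw {T' : Type} [CommRing T'] (f : T →+* T') (ξ : Tˣ) (i : ZMod (2 * 15)) :
    f (pw ξ i : T) = (pw (Units.map (f : T →* T') ξ) i : T') ∧
      f ((pw ξ i)⁻¹ : Tˣ) = ((pw (Units.map (f : T →* T') ξ) i)⁻¹ : T'ˣ) := by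
  have e : pw (Units.map (f : T →* T') ξ) i = Units.map (f : T →* T') (pw ξ i) :=
    (map_pow _ _ _).symm
  rw [e, ← map_inv]
  exact ⟨rfl, rfl⟩

theorem dplus_shape (v : ZQ) :
    lin (rho dplusXi dplusXi_pow) v 1 1 = dplusConj (lin (rho dplusXi dplusXi_pow) v 0 0) ∧
    lin (rho dplusXi dplusXi_pow) v 1 0 = -dplusConj (lin (rho dplusXi dplusXi_pow) v 0 1) := by
  induction v using MonoidAlgebra.induction_linear with
  | zero => simp
  | add x y hx hy =>
    simp only [map_add, Matrix.add_apply, hx.1, hx.2, hy.1, hy.2, neg_add, and_self]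
  | single g c =>
    have e : ∀ i, pw dplusXi⁻¹ i = (pw dplusXi i)⁻¹ := fun i => inv_pow _ _
    rw [lin_single]
    simp only [Matrix.smul_apply, map_zsmul, ← smul_neg]
    rcases g with i | i
    · have := (dplus_map_pw dplusConj dplusXi i).1
      rw [dplusConj_xi, e] at this
      constructor
      · exact congrArg _ this.symm
      · change c • (0 : dplusR) = c • -dplusConj 0
        simp
    · have := (dplus_map_pw dplusConj dplusXi i).2
      rw [dplusConj_xi, e, inv_inv] at this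
      constructor
      · change c • (0 : dplusR) = c • dplusConj 0
        simp
      · exact congrArg (fun z => c • -z) this.symm

theorem dplus_lin_el (ξ : Tˣ) (h : (ξ : T) ^ 15 = -1) (g : Q) :
    lin (rho ξ h) (el ℤ g) = rho ξ h g := by
  rw [el, lin_single, one_smul]

theorem dplus_lin_NN : lin (rho dplusXi dplusXi_pow) (NN ℤ) = 0 := by
  have h1 := congrArg (lin (rho dplusXi dplusXi_pow))
    (el_mul_NN ℤ (QuaternionGroup.a ((15 : ℕ) : ZMod (2 * 15))))
  have h2 : rho dplusXi dplusXi_pow (QuaternionGroup.a ((15 : ℕ) : ZMod (2 * 15))) = -1 := by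
    change rhoF dplusXi (QuaternionGroup.a ((15 : ℕ) : ZMod (2 * 15))) = _
    rw [rhoF, pw_half dplusXi_pow]
    ext i j
    fin_cases i <;> fin_cases j <;> simp
  rw [map_mul, dplus_lin_el, h2, neg_one_mul] at h1
  ext i j g
  have h3 := congrArg (fun M : Matrix (Fin 2) (Fin 2) dplusR => (M i j).coeff g) h1
  simp only [Matrix.neg_apply, MonoidAlgebra.coeff_neg, Finsupp.neg_apply] at h3
  simp only [Matrix.zero_apply, MonoidAlgebra.coeff_zero, Finsupp.zero_apply]
  omega

theorem dplus_det (v : ZQ) : (lin (rho dplusXi dplusXi_pow) v).det =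
    lin (rho dplusXi dplusXi_pow) v 0 0 * dplusConj (lin (rho dplusXi dplusXi_pow) v 0 0) +
    lin (rho dplusXi dplusXi_pow) v 0 1 * dplusConj (lin (rho dplusXi dplusXi_pow) v 0 1) := by
  rw [Matrix.det_fin_two, (dplus_shape v).1, (dplus_shape v).2]
  ring

theorem dplus_univ (v a : ZQ) (c : ℤ) (hv : a * v - 1 = c • NN ℤ) :
    ∃ (m α : dplusR) (g : dplusG), m * (lin (rho dplusXi dplusXi_pow) v).det = 1 ∧
      (α ^ 2 * m = MonoidAlgebra.single g 1 ∨ α ^ 2 * m = -MonoidAlgebra.single g 1) := by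
  have h1 := congrArg (lin (rho dplusXi dplusXi_pow)) hv
  rw [map_zsmul, dplus_lin_NN, smul_zero, map_sub, map_one, sub_eq_zero, map_mul] at h1
  have h2 := congrArg Matrix.det h1
  rw [Matrix.det_mul, Matrix.det_one] at h2
  have h3 : dplusConj (lin (rho dplusXi dplusXi_pow) a).det
      = (lin (rho dplusXi dplusXi_pow) a).det := by
    rw [dplus_det, map_add, map_mul, map_mul, dplusConj_conj, dplusConj_conj]
    ring
  have h4 := dplus_det v
  generalize (lin (rho dplusXi dplusXi_pow) a).det = m at h2 h3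
  generalize lin (rho dplusXi dplusXi_pow) v 0 0 = α at h4
  generalize lin (rho dplusXi dplusXi_pow) v 0 1 = β at h4
  have h5 : α ^ 2 * m * dplusConj (α ^ 2 * m) + (α * β * m * dplusConj (α * β * m) +
      α * β * m * dplusConj (α * β * m)) + β ^ 2 * m * dplusConj (β ^ 2 * m) = 1 := by
    simp only [map_mul, map_pow, h3]
    rw [h4] at h2
    linear_combination (m * (α * dplusConj α + β * dplusConj β) + 1) * h2
  have h6 := congrArg (fun x : dplusR => x.coeff 1) h5
  simp only [MonoidAlgebra.coeff_add, Finsupp.add_apply, dplus_norm,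
    MonoidAlgebra.coeff_one_one] at h6
  have n1 : 0 ≤ ∑ g, (α ^ 2 * m).coeff g ^ 2 := Finset.sum_nonneg fun g _ => sq_nonneg _
  have n2 : 0 ≤ ∑ g, (α * β * m).coeff g ^ 2 := Finset.sum_nonneg fun g _ => sq_nonneg _
  have n3 : 0 ≤ ∑ g, (β ^ 2 * m).coeff g ^ 2 := Finset.sum_nonneg fun g _ => sq_nonneg _
  rcases (by omega : ∑ g, (α ^ 2 * m).coeff g ^ 2 = 1 ∨ ∑ g, (β ^ 2 * m).coeff g ^ 2 = 1) with
    h7 | h7
  · obtain ⟨g, hg⟩ := dplus_single h7
    exact ⟨m, α, g, h2, hg⟩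
  · obtain ⟨g, hg⟩ := dplus_single h7
    exact ⟨m, β, g, h2, hg⟩

/-- The character of the cyclic group of order 15 given by `-ξ`. -/
def dplusChar (ξ : Tˣ) (h : (ξ : T) ^ 15 = -1) : dplusG →* T where
  toFun g := (-(ξ : T)) ^ g.toAdd.val
  map_one' := by simp
  map_mul' g k := by
    have h15 : (-(ξ : T)) ^ 15 = 1 := by rw [Odd.neg_pow (by decide), h, neg_neg]
    rw [toAdd_mul, ZMod.val_add, ← pow_eq_pow_mod _ h15, pow_add]

/-- The specialisation map. -/
noncomputable def dplusPhi (ξ : Tˣ) (h : (ξ : T) ^ 15 = -1) : dplusR →+* T :=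
  (MonoidAlgebra.lift ℤ T dplusG (dplusChar ξ h)).toRingHom

theorem dplusPhi_single (ξ : Tˣ) (h : (ξ : T) ^ 15 = -1) (g : dplusG) :
    dplusPhi ξ h (MonoidAlgebra.single g 1) = (-(ξ : T)) ^ g.toAdd.val :=
  (MonoidAlgebra.lift_single _ g 1).trans (one_smul _ _)

theorem dplusPhi_xi (ξ : Tˣ) (h : (ξ : T) ^ 15 = -1) :
    Units.map (dplusPhi ξ h : dplusR →* T) dplusXi = ξ := by
  apply Units.ext
  change dplusPhi ξ h (dplusXi : dplusR) = ξ
  rw [dplusXi_val, map_neg, dplusPhi_single, toAdd_ofAdd,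
    show (1 : ZMod 15).val = 1 from by decide, pow_one, neg_neg]

theorem dplusPhi_lin (ξ : Tˣ) (h : (ξ : T) ^ 15 = -1) (v : ZQ) :
    (dplusPhi ξ h).mapMatrix (lin (rho dplusXi dplusXi_pow) v) = lin (rho ξ h) v := by
  induction v using MonoidAlgebra.induction_linear with
  | zero => simp
  | add x y hx hy => rw [map_add, map_add, map_add, hx, hy]
  | single g c =>
    rw [lin_single, lin_single, map_zsmul]
    congr 1
    rcases g with i | i
    · obtain ⟨h1, h2⟩ := dplus_map_pw (dplusPhi ξ h) dplusXi i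
      rw [dplusPhi_xi] at h1 h2
      change (rhoF dplusXi (.a i)).map _ = rhoF ξ (.a i)
      ext k l
      fin_cases k <;> fin_cases l <;> simp [rhoF, h1, ← h2]
    · obtain ⟨h1, h2⟩ := dplus_map_pw (dplusPhi ξ h) dplusXi i
      rw [dplusPhi_xi] at h1 h2
      change (rhoF dplusXi (.xa i)).map _ = rhoF ξ (.xa i)
      ext k l
      fin_cases k <;> fin_cases l <;> simp [rhoF, h1, ← h2]

theorem dplus_sq {x m n : T} (w : Tˣ) (h1 : m * n = 1) (h2 : x ^ 2 * m = (w : T) ^ 2) :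
    ∃ u : Tˣ, n = (u : T) ^ 2 := by
  have h3 : (w : T) * (w⁻¹ : Tˣ) = 1 := w.mul_inv
  refine ⟨⟨x * (w⁻¹ : Tˣ), x * m * (w⁻¹ : Tˣ), ?_, ?_⟩, ?_⟩
  · linear_combination ((w⁻¹ : Tˣ) : T) ^ 2 * h2 + ((w : T) * (w⁻¹ : Tˣ) + 1) * h3
  · linear_combination ((w⁻¹ : Tˣ) : T) ^ 2 * h2 + ((w : T) * (w⁻¹ : Tˣ) + 1) * h3
  · change n = (x * (w⁻¹ : Tˣ)) ^ 2
    linear_combination (x * (w⁻¹ : Tˣ)) ^ 2 * h1 - n * ((w⁻¹ : Tˣ) : T) ^ 2 * h2
      - n * ((w : T) * (w⁻¹ : Tˣ) + 1) * h3

theorem nr_unit_sq (ξ s : Tˣ) (h : (ξ : T) ^ 15 = -1) (hs : ξ = s ^ 2) (v a : ZQ) (c : ℤ)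
    (hv : a * v - 1 = c • NN ℤ) : ∃ u : Tˣ, (lin (rho ξ h) v).det = (u : T) ^ 2 := by
  obtain ⟨m, α, g, h1, h2⟩ := dplus_univ v a c hv
  have h3 := congrArg (dplusPhi ξ h) h1
  rw [map_mul, map_one, RingHom.map_det, dplusPhi_lin] at h3
  have e1 : (ξ : T) = (s : T) ^ 2 := by rw [hs, Units.val_pow_eq_pow_val]
  have e2 : (-1 : T) = ((s : T) ^ 15) ^ 2 := by rw [← h, e1]; ring
  have e3 : (-(ξ : T)) ^ g.toAdd.val = (((s : T) ^ 16) ^ g.toAdd.val) ^ 2 := by
    rw [neg_eq_neg_one_mul, e2, e1]; ring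
  rcases h2 with h2 | h2
  · have h4 := congrArg (dplusPhi ξ h) h2
    rw [map_mul, map_pow, dplusPhi_single, e3] at h4
    exact dplus_sq ((s ^ 16) ^ g.toAdd.val) h3 (by simpa using h4)
  · have h4 := congrArg (dplusPhi ξ h) h2
    rw [map_mul, map_pow, map_neg, dplusPhi_single, e3, neg_eq_neg_one_mul, e2, ← mul_pow] at h4
    exact dplus_sq (s ^ 15 * (s ^ 16) ^ g.toAdd.val) h3 (by simpa using h4)

theorem dplus_unit {M : Matrix (Fin 2) (Fin 2) T} (u : Tˣ) (h : M.det = (u : T) ^ 2) :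
    ∃ U : (Matrix (Fin 2) (Fin 2) T)ˣ, M = U ∧
      cls (RingHom.id (Matrix (Fin 2) (Fin 2) T) U).det = 1 := by
  obtain ⟨U, rfl⟩ := (Matrix.isUnit_iff_isUnit_det M).2 (h ▸ u.isUnit.pow 2)
  exact ⟨U, rfl, by rw [RingHom.id_apply, h, cls_sq]⟩

theorem dplus_x [Nice T] (ξ s : Tˣ) (h : (ξ : T) ^ 15 = -1) (hs : ξ = s ^ 2) :
    ∃ u : Tˣ, (lin (rho ξ h) (el ℤ gx - 1)).det = (u : T) ^ 2 := by
  obtain ⟨w, hw⟩ := Nice.two (T := T)
  have h1 : IsUnit ((ξ : T) - 1) := by
    refine isUnit_of_mul_isUnit_right (x := ∑ i ∈ Finset.range 15, (ξ : T) ^ i) ?_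
    rw [geom_sum_mul, h, show (-1 - 1 : T) = -2 by ring, hw]
    exact (w.isUnit.pow 2).neg
  obtain ⟨z, hz⟩ := h1
  have e0 : pw ξ 1 = ξ := by
    rw [pw, show (1 : ZMod (2 * 15)).val = 1 from by decide, pow_one]
  have e1 : (ξ : T) = (s : T) ^ 2 := by rw [hs, Units.val_pow_eq_pow_val]
  have e2 : ((ξ⁻¹ : Tˣ) : T) = -(s : T) ^ 28 := by
    have h3 : (ξ : T) * (ξ⁻¹ : Tˣ) = 1 := ξ.mul_inv
    rw [show (s : T) ^ 28 = ((s : T) ^ 2) ^ 14 by ring, ← e1]
    linear_combination ((ξ⁻¹ : Tˣ) : T) * h - (ξ : T) ^ 14 * h3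
  refine ⟨s ^ 14 * z, ?_⟩
  rw [map_sub, map_one, dplus_lin_el]
  change (rhoF ξ (.a 1) - 1).det = _
  rw [rhoF, e0, Matrix.det_fin_two, Units.val_mul, Units.val_pow_eq_pow_val, hz]
  simp only [Matrix.sub_apply, Matrix.of_apply, Matrix.cons_val', Matrix.cons_val_zero,
    Matrix.cons_val_one, Matrix.cons_val_fin_one, Matrix.one_apply_eq, ne_eq, zero_ne_one,
    not_false_eq_true, Matrix.one_apply_ne, one_ne_zero, e2]
  rw [e1] at h ⊢
  linear_combination (1 - (s : T) ^ 2) * h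

/-- The matching on the cells. -/
def dplusM : Option DI → Option DI
  | none => some (.rel 0)
  | some (.rel 0) => none
  | some (.rel 1) => some (.gen 1)
  | some (.gen 1) => some (.rel 1)
  | some (.gen 0) => some .pt
  | some .pt => some (.gen 0)

/-- The rank of the cells. -/
def dplusRk : Option DI → ℕ
  | none => 2
  | some (.rel 0) => 2
  | some (.rel 1) => 1
  | some (.gen 1) => 1
  | some (.gen 0) => 0
  | some .pt => 0

/-- The upper cells. -/
def dplusUp : Option DI → Bool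
  | none => true
  | some (.rel 1) => true
  | some (.gen 0) => true
  | _ => false

theorem dplus_triv [Nice T] (ξ s : Tˣ) (h : (ξ : T) ^ 15 = -1) (hs : ξ = s ^ 2) (v a : ZQ) (c : ℤ)
    (hv : a * v - 1 = c • NN ℤ) :
    TrivT (fp (Fin 2) parDp) (flat (lin (rho ξ h)) (dDp fun j => v * u0 ℤ j)) := by
  have hcx : IsCx parDp (dDp fun j => v * u0 ℤ j) := by
    refine dDp_cx _ ?_
    rw [show (fun j => v * u0 ℤ j) = v • u0 ℤ from rfl, Matrix.smul_vecMul, u0_fox, smul_zero]
  obtain ⟨u, hu⟩ := nr_unit_sq ξ s h hs v a c hv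
  obtain ⟨z, hz⟩ := dplus_x ξ s h hs
  have key := aml (RingHom.id (Matrix (Fin 2) (Fin 2) T)) (hcx.map (lin (rho ξ h))) dplusM dplusRk
    (fun i => dplusUp i = true) (by decide) (by decide) (by decide) (by decide) ?_ ?_
  · exact ⟨hcx.flat _, key.con.flat (RingHom.id (Matrix (Fin 2) (Fin 2) T)), key.tor⟩
  · have e : ∀ i, dplusUp i = true → i = none ∨ i = some (.rel 1) ∨ i = some (.gen 0) := by
      decide
    intro i hi
    rcases e i hi with rfl | rfl | rfl
    · refine dplus_unit (u * z) ?_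
      change (lin (rho ξ h) (v * (el ℤ gx - 1))).det = _
      rw [map_mul, Matrix.det_mul, hu, hz, Units.val_mul, mul_pow]
    · refine dplus_unit z ?_
      change (lin (rho ξ h) (el ℤ (gy⁻¹ * gx) - el ℤ gy⁻¹)).det = _
      rw [el_mul, ← mul_sub_one, map_mul, Matrix.det_mul, hz, dplus_lin_el, rho_det, one_mul]
    · exact dplus_unit z hz
  · have e : ∀ i j, (dplusUp i = true ∧ j = dplusM i) ∨ dplusRk j < dplusRk i ∨
        (dplusRk i ≤ dplusRk j ∧ ¬(dplusUp i = true ∧ j = dplusM i)) := by decide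
    intro i j hij
    rcases e i j with h1 | h1 | h1
    · exact Or.inl h1
    · exact Or.inr h1
    · refine absurd ?_ hij
      rw [Matrix.map_apply]
      suffices h2 : dDp (fun j => v * u0 ℤ j) i j = 0 by rw [h2, map_zero]
      clear hij
      rcases i with _ | i | i | _ <;> rcases j with _ | j | j | _ <;>
        first
        | rfl
        | exact absurd h1 (by decide +revert)

end MP35
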