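import Pool.Agent.Lib.MP_35c604_gt.DataTab
import Pool.Agent.Lib.MP_35c604_gt.ChkM

/-! The explicit complexes. -/

namespace MP35

open SC

def inTet (T : List (ℕ × ℕ × ℕ × ℕ)) (l : List ℕ) : Bool :=
  T.any fun t => l.all fun v => Nat.beq v t.1 || Nat.beq v t.2.1 || Nat.beq v t.2.2.1 ||
    Nat.beq v t.2.2.2

theorem inTet_sound (T) (l : List ℕ) (hl : l ≠ []) (h : inTet T l = true) :
    l.toFinset ∈ (ofTets T).faces := by
  simp only [inTet, List.any_eq_true, List.all_eq_true, Bool.or_eq_true, Nat.beq_eq] at h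
  obtain ⟨t, ht, h⟩ := h
  refine mem_ofTets.2 ⟨by simpa [List.toFinset_nonempty_iff] using hl, t, ht, fun v hv => ?_⟩
  have := h v (List.mem_toFinset.1 hv)
  simp only [tetSet, Finset.mem_insert, Finset.mem_singleton]
  tauto

theorem topS_ne (x : Step) : topS x ≠ [] := by
  rcases step_cases x with ⟨a, v, w, rfl⟩ | ⟨i, u, v, rfl⟩ | ⟨n, u, a, v, rfl⟩ <;> simp [topS]

theorem d_chkA : chkS tab stA [2 ^ 0] ∅ = true := by decide +kernel

theorem d_JA : runJ stA ∅ = Finset.univ := by decide +kernel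

theorem d_chkB : chkS tab stB (runL stA [2 ^ 0]) Finset.univ = true := by decide +kernel

theorem d_JB : runJ stB Finset.univ = Finset.univ := by decide +kernel

theorem d_TA : okT (runL stA [2 ^ 0]) 12 15 41 2 = true := by decide +kernel

theorem d_TB : okT (runL stB (runL stA [2 ^ 0])) 12 15 41 2 = true := by decide +kernel

theorem d_TL : okT (runL stB (runL stA [2 ^ 0])) 55 84 85 97 = true := by decide +kernel

theorem d_X : chkX stB ((2 ^ 0 + (2 ^ 12 + 2 ^ 15)) :: (2 ^ 0 + (2 ^ 41 + 2 ^ 2)) ::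
    runL stA [2 ^ 0]) = true := by decide +kernel

theorem d_sub : (stA.all fun x => inTet tets (topS x)) = true := by decide +kernel

theorem d_s0 : inTet tets [0] = true := by decide +kernel

theorem d_s1 : inTet tets [0, 12, 15] = true := by decide +kernel

theorem d_s2 : inTet tets [0, 41, 2] = true := by decide +kernel

theorem d_wK0 : psi tab 0 12 * psi tab 12 15 * psi tab 15 0 = relK 0 := by decide +kernel

theorem d_wK1 : psi tab 0 41 * psi tab 41 2 * psi tab 2 0 = relK 1 := by decide +kernel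

theorem d_wL0 : psi tab 0 55 * psi tab 55 84 * psi tab 84 0 = relL 0 := by decide +kernel

theorem d_wL1 : psi tab 0 85 * psi tab 85 97 * psi tab 97 0 = relL 1 := by decide +kernel

theorem d_man : chkMan tets = true := by decide +kernel

theorem exists_man (T : List (ℕ × ℕ × ℕ × ℕ)) (h : chkMan T = true) : ∃ M : SC ℕ, M.IsManifold ∧
    ∀ l : List ℕ, l ≠ [] → inTet T l = true → l.toFinset ∈ M.faces :=
  ⟨ofTets T, isManifold_of_chk h, inTet_sound T⟩

theorem exists_data : ∃ (B Kp Lp K1 M : SC ℕ) (ψ : ℕ → ℕ → F2) (a c a' c' : Fin 2 → ℕ),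
    Stage 0 ψ B.faces Finset.univ ∧ B.IsCoc ψ ∧
    TwoTri B 0 a c ∧ IsPlus B Lp 0 a c ∧ (∀ i, ψ 0 (a i) * ψ (a i) (c i) * ψ (c i) 0 = relL i) ∧
    TwoTri B 0 a' c' ∧ IsPlus B Kp 0 a' c' ∧
    (∀ i, ψ 0 (a' i) * ψ (a' i) (c' i) * ψ (c' i) 0 = relK i) ∧
    Collapse Kp K1 ∧ K1.faces ⊆ M.faces ∧ M.IsManifold := by
  let P : SC ℕ := ⟨{{0}}, by simp, fun s hs t hts ht => by
    rw [Finset.mem_singleton] at hs ⊢
    exact (Finset.Nonempty.subset_singleton_iff ht).1 (hs ▸ hts)⟩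
  have hP : Rep P.faces [2 ^ 0] := fun s => by
    rw [List.mem_singleton, ← code1 0, code_inj.eq_iff]
    exact Finset.mem_singleton
  have cP : P.IsCoc (psi tab) := fun x y z h =>
    coc_pair tab (p := 0) (q := 0) (by simpa [P] using h)
  obtain ⟨B0, a1, a2, a3, a4⟩ := chkS_sound tab stA P _ ∅ hP Stage.base cP d_chkA
  rw [d_JA] at a3
  obtain ⟨B, b1, b2, b3, b4⟩ := chkS_sound tab stB B0 _ _ a2 a3 a4 d_chkB
  rw [d_JB] at b3
  obtain ⟨-, K1, k1, k2⟩ := okT_sound a2 d_TA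
  obtain ⟨Kp, p1, p2⟩ := chkX_sound stB K1 _ k2 d_X
  obtain ⟨l1, Lp, l2, -⟩ := okT_sound b2 d_TL
  obtain ⟨M, hM, hT⟩ := exists_man tets d_man
  refine ⟨B, Kp, Lp, K1, M, psi tab, _, _, _, _, b3, b4, l1, l2,
    Fin.forall_fin_two.2 ⟨d_wL0, d_wL1⟩, (okT_sound b2 d_TB).1, ?_,
    Fin.forall_fin_two.2 ⟨d_wK0, d_wK1⟩, p2, ?_, hM⟩
  · unfold IsPlus at k1 ⊢
    rw [p1, k1, runS_insert, runS_insert, b1]
  · unfold IsPlus at k1
    rw [k1, a1, Finset.insert_subset_iff, Finset.insert_subset_iff]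
    have t1 := hT [0, 12, 15] (List.cons_ne_nil _ _) d_s1
    have t2 := hT [0, 41, 2] (List.cons_ne_nil _ _) d_s2
    have t0 := hT [0] (List.cons_ne_nil _ _) d_s0
    rw [show List.toFinset [0, 12, 15] = {0, 12, 15} by decide] at t1
    rw [show List.toFinset [0, 41, 2] = {0, 41, 2} by decide] at t2
    rw [show List.toFinset [0] = {0} by decide] at t0
    refine ⟨t1, t2, runS_subset _ _
      (fun x hx => hT _ (topS_ne x) (List.all_eq_true.1 d_sub x hx)) _ ?_⟩
    exact Finset.singleton_subset_iff.2 t0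

end MP35
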