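import Pool.Agent.Lib.MP_35c604_gt.ChainDefs

/-! A Boolean test for complexes built by stages. -/

namespace MP35

open SC

abbrev Wd := List (Fin 2 × Bool)
abbrev Step := ℕ × ℕ × ℕ × ℕ

def code (s : Finset ℕ) : ℕ := ∑ v ∈ s, 2 ^ v

theorem code_inj : Function.Injective code := Finset.geomSum_injective le_rfl

theorem code1 (a : ℕ) : code {a} = 2 ^ a := Finset.sum_singleton _ _

theorem code2 {a b : ℕ} (h : a ≠ b) : code {a, b} = 2 ^ a + 2 ^ b := Finset.sum_pair h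

theorem code3 {a b c : ℕ} (h1 : a ≠ b) (h2 : a ≠ c) (h3 : b ≠ c) :
    code {a, b, c} = 2 ^ a + (2 ^ b + 2 ^ c) := by
  unfold code
  rw [Finset.sum_insert (by simp [h1, h2]), Finset.sum_pair h3]

def Rep (S : Finset (Finset ℕ)) (L : List ℕ) : Prop := ∀ s, s ∈ S ↔ code s ∈ L

theorem Rep.cons {S L} (h : Rep S L) (s : Finset ℕ) {n : ℕ} (hn : code s = n) :
    Rep (insert s S) (n :: L) := fun t => by
  rw [Finset.mem_insert, List.mem_cons, h t, ← hn, code_inj.eq_iff]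

def has (L : List ℕ) (n : ℕ) : Bool := L.any (Nat.beq n)

theorem has_iff {L : List ℕ} {n : ℕ} : has L n = true ↔ n ∈ L := by
  simp [has]

def lookup (tab : List (ℕ × ℕ × Wd)) (u v : ℕ) : Wd :=
  match tab with
  | [] => []
  | x :: r => bif Nat.beq x.1 u && Nat.beq x.2.1 v then x.2.2 else lookup r u v

def wd (tab : List (ℕ × ℕ × Wd)) (u v : ℕ) : Wd :=
  if u < v then lookup tab u v else if v < u then FreeGroup.invRev (lookup tab v u) else []

def psi (tab : List (ℕ × ℕ × Wd)) (u v : ℕ) : F2 := FreeGroup.mk (wd tab u v)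

theorem psi_self (tab) (u : ℕ) : psi tab u u = 1 := by
  simp [psi, wd, FreeGroup.one_eq_mk]

theorem psi_symm (tab) (u v : ℕ) : psi tab v u = (psi tab u v)⁻¹ := by
  unfold psi wd
  rw [FreeGroup.inv_mk]
  rcases lt_trichotomy u v with h | h | h
  · simp [h, h.not_gt]
  · simp [h]
  · simp [h, h.not_gt]

def weq (a b : Wd) : Bool := decide (FreeGroup.reduce a = FreeGroup.reduce b)

theorem weq_sound {a b : Wd} (h : weq a b = true) : FreeGroup.mk a = FreeGroup.mk b :=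
  FreeGroup.reduce.exact (of_decide_eq_true h)

/-- Faces added by a step. -/
def addS (x : Step) (S : Finset (Finset ℕ)) : Finset (Finset ℕ) :=
  match x with
  | (0, a, v, _) => insert {a, v} (insert {v} S)
  | (1, _, u, v) => insert {u, v} S
  | (_, u, a, v) => insert {u, a, v} (insert {u, v} S)

def addL (x : Step) (L : List ℕ) : List ℕ :=
  match x with
  | (0, a, v, _) => (2 ^ a + 2 ^ v) :: 2 ^ v :: L
  | (1, _, u, v) => (2 ^ u + 2 ^ v) :: L
  | (_, u, a, v) => (2 ^ u + (2 ^ a + 2 ^ v)) :: (2 ^ u + 2 ^ v) :: L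

def okX (x : Step) (L : List ℕ) : Bool :=
  match x with
  | (0, a, v, _) => has L (2 ^ a) && !has L (2 ^ v)
  | (1, _, u, v) => has L (2 ^ u) && has L (2 ^ v) && !Nat.beq u v && !has L (2 ^ u + 2 ^ v)
  | (_, u, a, v) => !Nat.beq u v && !Nat.beq u a && !Nat.beq a v && has L (2 ^ u + 2 ^ a) &&
      has L (2 ^ a + 2 ^ v) && !has L (2 ^ u + 2 ^ v)

def fin2 (i : ℕ) : Fin 2 := if i = 0 then 0 else 1

def addJ (x : Step) (J : Finset (Fin 2)) : Finset (Fin 2) :=
  match x with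
  | (0, _, _, _) => J
  | (1, i, _, _) => insert (fin2 i) J
  | (_, _, _, _) => J

def okW (tab : List (ℕ × ℕ × Wd)) (x : Step) (J : Finset (Fin 2)) : Bool :=
  match x with
  | (0, a, v, _) => weq (wd tab a v) []
  | (1, i, u, v) => decide (fin2 i ∉ J) && weq (wd tab u v) [(fin2 i, true)]
  | (_, u, a, v) => decide (J = Finset.univ) && weq (wd tab u a ++ wd tab a v) (wd tab u v)

theorem ex_v (K : SC ℕ) {a v : ℕ} (ha : {a} ∈ K.faces) (hv : {v} ∉ K.faces) :
    a ≠ v ∧ ({a, v} : Finset ℕ) ∉ K.faces ∧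
      ∃ K' : SC ℕ, K'.faces = insert {a, v} (insert {v} K.faces) ∧ Expand K K' := by
  have hav : a ≠ v := fun h => hv (h ▸ ha)
  have hn : ({a, v} : Finset ℕ) ∉ K.faces := fun h => hv (mem_verts_of_mem h (by simp))
  refine ⟨hav, hn, ⟨insert {a, v} (insert {v} K.faces), ?_, ?_⟩, rfl,
    {v}, {a, v}, by simp, by simp [hav], hv, hn, rfl⟩
  · intro s hs
    simp only [Finset.mem_insert] at hs
    rcases hs with rfl | rfl | hs
    · simp
    · simp
    · exact K.ne s hs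
  · intro s hs t hts ht
    simp only [Finset.mem_insert] at hs ⊢
    rcases hs with rfl | rfl | hs
    · by_cases h1 : a ∈ t <;> by_cases h2 : v ∈ t
      · exact Or.inl (by ext x; have := @hts x; simp at this ⊢; grind)
      · refine Or.inr (Or.inr ?_)
        rwa [show t = {a} by ext x; have := @hts x; simp at this ⊢; grind]
      · exact Or.inr (Or.inl (by ext x; have := @hts x; simp at this ⊢; grind))
      · obtain ⟨x, hx⟩ := ht
        have := hts hx
        simp at this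
        grind
    · exact Or.inr (Or.inl ((Finset.Nonempty.subset_singleton_iff ht).1 hts))
    · exact Or.inr (Or.inr (K.down s hs t hts ht))

theorem ex_g (K : SC ℕ) {u v : ℕ} (hu : {u} ∈ K.faces) (hv : {v} ∈ K.faces) :
    ∃ K' : SC ℕ, K'.faces = insert {u, v} K.faces := by
  refine ⟨⟨insert {u, v} K.faces, ?_, ?_⟩, rfl⟩
  · intro s hs
    simp only [Finset.mem_insert] at hs
    rcases hs with rfl | hs
    · simp
    · exact K.ne s hs
  · intro s hs t hts ht
    simp only [Finset.mem_insert] at hs ⊢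
    rcases hs with rfl | hs
    · by_cases h1 : u ∈ t <;> by_cases h2 : v ∈ t
      · exact Or.inl (by ext x; have := @hts x; simp at this ⊢; grind)
      · refine Or.inr ?_
        rwa [show t = {u} by ext x; have := @hts x; simp at this ⊢; grind]
      · refine Or.inr ?_
        rwa [show t = {v} by ext x; have := @hts x; simp at this ⊢; grind]
      · obtain ⟨x, hx⟩ := ht
        have := hts hx
        simp at this
        grind
    · exact Or.inr (K.down s hs t hts ht)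

theorem ex_tri (K : SC ℕ) {u a v : ℕ} (h1 : ({u, a} : Finset ℕ) ∈ K.faces)
    (h2 : ({a, v} : Finset ℕ) ∈ K.faces) (h3 : ({u, v} : Finset ℕ) ∈ K.faces) :
    ∃ K' : SC ℕ, K'.faces = insert {u, a, v} K.faces := by
  refine ⟨⟨insert {u, a, v} K.faces, ?_, ?_⟩, rfl⟩
  · intro s hs
    simp only [Finset.mem_insert] at hs
    rcases hs with rfl | hs
    · simp
    · exact K.ne s hs
  · intro s hs t hts ht
    simp only [Finset.mem_insert] at hs ⊢
    rcases hs with rfl | hs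
    · by_cases g1 : v ∈ t
      · by_cases g2 : u ∈ t
        · by_cases g3 : a ∈ t
          · exact Or.inl (by ext x; have := @hts x; simp at this ⊢; grind)
          · exact Or.inr (K.down _ h3 t (fun x hx => by have := hts hx; simp at this ⊢; grind) ht)
        · exact Or.inr (K.down _ h2 t (fun x hx => by have := hts hx; simp at this ⊢; grind) ht)
      · exact Or.inr (K.down _ h1 t (fun x hx => by have := hts hx; simp at this ⊢; grind) ht)
    · exact Or.inr (K.down s hs t hts ht)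

theorem ex_e (K : SC ℕ) {u a v : ℕ} (h1 : ({u, a} : Finset ℕ) ∈ K.faces)
    (h2 : ({a, v} : Finset ℕ) ∈ K.faces) (huv : u ≠ v) (hua : u ≠ a) (hav : a ≠ v)
    (hn : ({u, v} : Finset ℕ) ∉ K.faces) :
    ({u, a, v} : Finset ℕ) ∉ K.faces ∧
      ∃ K' : SC ℕ, K'.faces = insert {u, a, v} (insert {u, v} K.faces) ∧ Expand K K' := by
  have hn3 : ({u, a, v} : Finset ℕ) ∉ K.faces := fun h =>
    hn (K.down _ h _ (fun x hx => by simp at hx ⊢; grind) (by simp))
  obtain ⟨K1, hK1⟩ := ex_g K (u := u) (v := v) (mem_verts_of_mem h1 (by simp))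
    (mem_verts_of_mem h2 (by simp))
  obtain ⟨K2, hK2⟩ := ex_tri K1 (u := u) (a := a) (v := v) (by simp [hK1, h1]) (by simp [hK1, h2])
    (by simp [hK1])
  rw [hK1] at hK2
  refine ⟨hn3, K2, hK2, {u, v}, {u, a, v}, fun x hx => by simp at hx ⊢; grind, ?_, hn, hn3, hK2⟩
  rw [Finset.card_pair huv, Finset.card_insert_of_notMem (by simp [hua, huv]), Finset.card_pair hav]

theorem coc_pair (tab) {x y z p q : ℕ} (h : ({x, y, z} : Finset ℕ) = {p, q}) :
    psi tab x y * psi tab y z = psi tab x z := by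
  have hx : x ∈ ({p, q} : Finset ℕ) := h ▸ by simp
  have hy : y ∈ ({p, q} : Finset ℕ) := h ▸ by simp
  have hz : z ∈ ({p, q} : Finset ℕ) := h ▸ by simp
  simp only [Finset.mem_insert, Finset.mem_singleton] at hx hy hz
  rcases hx with rfl | rfl <;> rcases hy with h2 | h2 <;> rcases hz with h3 | h3 <;>
    simp [h2, h3, psi_self, psi_symm tab x]

theorem coc_tri (tab) {x y z u a v : ℕ} (h : ({x, y, z} : Finset ℕ) = {u, a, v})
    (e : psi tab u a * psi tab a v = psi tab u v) :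
    psi tab x y * psi tab y z = psi tab x z := by
  have hx : x ∈ ({u, a, v} : Finset ℕ) := h ▸ by simp
  have hy : y ∈ ({u, a, v} : Finset ℕ) := h ▸ by simp
  have hz : z ∈ ({u, a, v} : Finset ℕ) := h ▸ by simp
  simp only [Finset.mem_insert, Finset.mem_singleton] at hx hy hz
  have e1 := psi_symm tab u a
  have e2 := psi_symm tab a v
  have e3 := psi_symm tab u v
  rcases hx with h1 | h1 | h1 <;> rcases hy with h2 | h2 | h2 <;> rcases hz with h3 | h3 | h3 <;>
    rw [h1, h2, h3] <;> simp only [psi_self, e1, e2, e3, ← e] <;> group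

theorem step_cases (x : Step) : (∃ a v w, x = (0, a, v, w)) ∨ (∃ i u v, x = (1, i, u, v)) ∨
    ∃ n u a v, x = (n + 2, u, a, v) := by
  obtain ⟨n, a, b, c⟩ := x
  rcases n with _ | _ | n
  · exact Or.inl ⟨a, b, c, rfl⟩
  · exact Or.inr (Or.inl ⟨a, b, c, rfl⟩)
  · exact Or.inr (Or.inr ⟨n, a, b, c, rfl⟩)

theorem step_X {K : SC ℕ} {L : List ℕ} (hr : Rep K.faces L) (x : Step) (h : okX x L = true) :
    ∃ K' : SC ℕ, K'.faces = addS x K.faces ∧ Rep K'.faces (addL x L) ∧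
      (x.1 ≠ 1 → Expand K K') := by
  rcases step_cases x with ⟨a, v, w, rfl⟩ | ⟨i, u, v, rfl⟩ | ⟨n, u, a, v, rfl⟩
  · simp only [okX, Bool.and_eq_true, Bool.not_eq_true', ← Bool.not_eq_true, has_iff] at h
    obtain ⟨h1, -, K', h2, h3⟩ := ex_v K ((hr _).2 (code1 a ▸ h.1)) (fun g => h.2 (code1 v ▸ (hr _).1 g))
    exact ⟨K', h2, h2 ▸ (hr.cons _ (code1 v)).cons _ (code2 h1), fun _ => h3⟩
  · simp only [okX, Bool.and_eq_true, Bool.not_eq_true', ← Bool.not_eq_true, has_iff,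
      Nat.beq_eq] at h
    obtain ⟨K', h2⟩ := ex_g K ((hr _).2 (code1 u ▸ h.1.1.1)) ((hr _).2 (code1 v ▸ h.1.1.2))
    exact ⟨K', h2, h2 ▸ hr.cons _ (code2 h.1.2), fun g => absurd rfl g⟩
  · simp only [okX, Bool.and_eq_true, Bool.not_eq_true', ← Bool.not_eq_true, has_iff,
      Nat.beq_eq] at h
    obtain ⟨⟨⟨⟨⟨g1, g2⟩, g3⟩, g4⟩, g5⟩, g6⟩ := h
    obtain ⟨-, K', h2, h3⟩ := ex_e K ((hr _).2 (code2 g2 ▸ g4)) ((hr _).2 (code2 g3 ▸ g5)) g1 g2 g3
      (fun g => g6 (code2 g1 ▸ (hr _).1 g))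
    exact ⟨K', h2, h2 ▸ (hr.cons _ (code2 g1)).cons _ (code3 g2 g1 g3), fun _ => h3⟩

theorem step_S (tab) {K : SC ℕ} {L : List ℕ} {J} (hr : Rep K.faces L) (x : Step)
    (h : okX x L = true) (hw : okW tab x J = true) (hs : Stage 0 (psi tab) K.faces J)
    (hc : K.IsCoc (psi tab)) {K' : SC ℕ} (hK : K'.faces = addS x K.faces) :
    Stage 0 (psi tab) K'.faces (addJ x J) ∧ K'.IsCoc (psi tab) := by
  rcases step_cases x with ⟨a, v, w, rfl⟩ | ⟨i, u, v, rfl⟩ | ⟨n, u, a, v, rfl⟩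
  · simp only [okX, Bool.and_eq_true, Bool.not_eq_true', ← Bool.not_eq_true, has_iff] at h
    have ha := (hr _).2 (code1 a ▸ h.1)
    have hv : {v} ∉ K.faces := fun g => h.2 (code1 v ▸ (hr _).1 g)
    refine ⟨hK ▸ Stage.v _ _ a v hs ha hv (ex_v K ha hv).2.1 (weq_sound hw), fun x y z hxyz => ?_⟩
    rw [hK] at hxyz
    simp only [addS, Finset.mem_insert] at hxyz
    rcases hxyz with g | g | g
    · exact coc_pair tab g
    · exact coc_pair tab (p := v) (q := v) (by simpa using g)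
    · exact hc x y z g
  · simp only [okX, Bool.and_eq_true, Bool.not_eq_true', ← Bool.not_eq_true, has_iff,
      Nat.beq_eq] at h
    simp only [okW, Bool.and_eq_true, decide_eq_true_eq] at hw
    refine ⟨hK ▸ Stage.g _ _ (fin2 i) u v hs ((hr _).2 (code1 u ▸ h.1.1.1))
      ((hr _).2 (code1 v ▸ h.1.1.2)) h.1.2 (fun g => h.2 (code2 h.1.2 ▸ (hr _).1 g)) hw.1
      (weq_sound hw.2), fun x y z hxyz => ?_⟩
    rw [hK] at hxyz
    simp only [addS, Finset.mem_insert] at hxyz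
    rcases hxyz with g | g
    · exact coc_pair tab g
    · exact hc x y z g
  · simp only [okX, Bool.and_eq_true, Bool.not_eq_true', ← Bool.not_eq_true, has_iff,
      Nat.beq_eq] at h
    simp only [okW, Bool.and_eq_true, decide_eq_true_eq] at hw
    obtain ⟨⟨⟨⟨⟨g1, g2⟩, g3⟩, g4⟩, g5⟩, g6⟩ := h
    obtain ⟨rfl, hw⟩ := hw
    have h1 := (hr _).2 (code2 g2 ▸ g4)
    have h2 := (hr _).2 (code2 g3 ▸ g5)
    have hn : ({u, v} : Finset ℕ) ∉ K.faces := fun g => g6 (code2 g1 ▸ (hr _).1 g)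
    refine ⟨hK ▸ Stage.e _ u a v hs h1 h2 g1 g2 g3 hn (ex_e K h1 h2 g1 g2 g3 hn).1,
      fun x y z hxyz => ?_⟩
    rw [hK] at hxyz
    simp only [addS, Finset.mem_insert] at hxyz
    rcases hxyz with g | g | g
    · exact coc_tri tab g (weq_sound hw)
    · exact coc_pair tab g
    · exact hc x y z g

def runS (l : List Step) (S : Finset (Finset ℕ)) : Finset (Finset ℕ) :=
  l.foldl (fun S x => addS x S) S

def runL (l : List Step) (L : List ℕ) : List ℕ := l.foldl (fun L x => addL x L) L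

def runJ (l : List Step) (J : Finset (Fin 2)) : Finset (Fin 2) := l.foldl (fun J x => addJ x J) J

def chkS (tab : List (ℕ × ℕ × Wd)) : List Step → List ℕ → Finset (Fin 2) → Bool
  | [], _, _ => true
  | x :: r, L, J => okX x L && okW tab x J && chkS tab r (addL x L) (addJ x J)

def chkX : List Step → List ℕ → Bool
  | [], _ => true
  | x :: r, L => okX x L && !Nat.beq x.1 1 && chkX r (addL x L)

theorem chkS_sound (tab) (l : List Step) : ∀ (K : SC ℕ) (L : List ℕ) (J : Finset (Fin 2)),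
    Rep K.faces L → Stage 0 (psi tab) K.faces J → K.IsCoc (psi tab) → chkS tab l L J = true →
    ∃ K' : SC ℕ, K'.faces = runS l K.faces ∧ Rep K'.faces (runL l L) ∧
      Stage 0 (psi tab) K'.faces (runJ l J) ∧ K'.IsCoc (psi tab) := by
  induction l with
  | nil => exact fun K L J h1 h2 h3 _ => ⟨K, rfl, h1, h2, h3⟩
  | cons x r ih =>
    intro K L J h1 h2 h3 h
    simp only [chkS, Bool.and_eq_true] at h
    obtain ⟨K1, g1, g2, -⟩ := step_X h1 x h.1.1
    obtain ⟨g3, g4⟩ := step_S tab h1 x h.1.1 h.1.2 h2 h3 g1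
    obtain ⟨K2, k1, k2⟩ := ih K1 _ _ g2 g3 g4 h.2
    exact ⟨K2, by rw [k1, g1]; rfl, k2⟩

theorem chkX_sound (l : List Step) : ∀ (K : SC ℕ) (L : List ℕ), Rep K.faces L →
    chkX l L = true → ∃ K' : SC ℕ, K'.faces = runS l K.faces ∧ Collapse K' K := by
  induction l with
  | nil => exact fun K L _ _ => ⟨K, rfl, Relation.ReflTransGen.refl⟩
  | cons x r ih =>
    intro K L h1 h
    simp only [chkX, Bool.and_eq_true, Bool.not_eq_true', ← Bool.not_eq_true, Nat.beq_eq] at h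
    obtain ⟨K1, g1, g2, g3⟩ := step_X h1 x h.1.1
    obtain ⟨K2, k1, k2⟩ := ih K1 _ g2 h.2
    exact ⟨K2, by rw [k1, g1]; rfl, k2.tail (g3 h.1.2)⟩

theorem addS_insert (x : Step) (t : Finset ℕ) (S : Finset (Finset ℕ)) :
    addS x (insert t S) = insert t (addS x S) := by
  rcases step_cases x with ⟨a, v, w, rfl⟩ | ⟨i, u, v, rfl⟩ | ⟨n, u, a, v, rfl⟩ <;>
    simp only [addS] <;> ext s <;> simp only [Finset.mem_insert] <;> tauto

theorem runS_insert (l : List Step) (t : Finset ℕ) :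
    ∀ S : Finset (Finset ℕ), runS l (insert t S) = insert t (runS l S) := by
  induction l with
  | nil => exact fun _ => rfl
  | cons x r ih =>
    intro S
    have := ih (addS x S)
    unfold runS at this ⊢
    rw [List.foldl_cons, List.foldl_cons, addS_insert, this]

/-- The largest face added by a step. -/
def topS (x : Step) : List ℕ :=
  match x with
  | (0, a, v, _) => [a, v]
  | (1, _, u, v) => [u, v]
  | (_, u, a, v) => [u, a, v]

theorem runS_subset (M : SC ℕ) (l : List Step) (h : ∀ x ∈ l, (topS x).toFinset ∈ M.faces) :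
    ∀ S : Finset (Finset ℕ), S ⊆ M.faces → runS l S ⊆ M.faces := by
  induction l with
  | nil => exact fun _ h => h
  | cons x r ih =>
    intro S hS
    refine ih (fun y hy => h y (List.mem_cons_of_mem _ hy)) (addS x S) ?_
    have hx := h x List.mem_cons_self
    rcases step_cases x with ⟨a, v, w, rfl⟩ | ⟨i, u, v, rfl⟩ | ⟨n, u, a, v, rfl⟩ <;>
      simp only [topS, List.toFinset_cons, List.toFinset_nil, insert_empty_eq] at hx <;>
      simp only [addS, Finset.insert_subset_iff]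
    · exact ⟨hx, M.down _ hx _ (by simp) (by simp), hS⟩
    · exact ⟨hx, hS⟩
    · exact ⟨hx, M.down _ hx _ (fun y hy => by simp at hy ⊢; grind) (by simp), hS⟩

def okT (L : List ℕ) (a0 c0 a1 c1 : ℕ) : Bool :=
  !Nat.beq 0 a0 && !Nat.beq 0 c0 && !Nat.beq a0 c0 && !Nat.beq 0 a1 && !Nat.beq 0 c1 &&
    !Nat.beq a1 c1 && has L (2 ^ 0 + 2 ^ a0) && has L (2 ^ a0 + 2 ^ c0) && has L (2 ^ 0 + 2 ^ c0) &&
    has L (2 ^ 0 + 2 ^ a1) && has L (2 ^ a1 + 2 ^ c1) && has L (2 ^ 0 + 2 ^ c1) &&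
    !has L (2 ^ 0 + (2 ^ a0 + 2 ^ c0)) && !has L (2 ^ 0 + (2 ^ a1 + 2 ^ c1)) &&
    !Nat.beq (2 ^ 0 + (2 ^ a0 + 2 ^ c0)) (2 ^ 0 + (2 ^ a1 + 2 ^ c1))

theorem okT_sound {B : SC ℕ} {L : List ℕ} (hr : Rep B.faces L) {a0 c0 a1 c1 : ℕ}
    (h : okT L a0 c0 a1 c1 = true) : TwoTri B 0 ![a0, a1] ![c0, c1] ∧
      ∃ Z : SC ℕ, IsPlus B Z 0 ![a0, a1] ![c0, c1] ∧
        Rep Z.faces ((2 ^ 0 + (2 ^ a0 + 2 ^ c0)) :: (2 ^ 0 + (2 ^ a1 + 2 ^ c1)) :: L) := by
  simp only [okT, Bool.and_eq_true, Bool.not_eq_true', ← Bool.not_eq_true, has_iff,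
    Nat.beq_eq] at h
  obtain ⟨⟨⟨⟨⟨⟨⟨⟨⟨⟨⟨⟨⟨⟨g1, g2⟩, g3⟩, g4⟩, g5⟩, g6⟩, g7⟩, g8⟩, g9⟩, g10⟩, g11⟩, g12⟩, g13⟩, g14⟩,
    g15⟩ := h
  have e1 := (hr _).2 (code2 g1 ▸ g7)
  have e2 := (hr _).2 (code2 g3 ▸ g8)
  have e3 := (hr _).2 (code2 g2 ▸ g9)
  have e4 := (hr _).2 (code2 g4 ▸ g10)
  have e5 := (hr _).2 (code2 g6 ▸ g11)
  have e6 := (hr _).2 (code2 g5 ▸ g12)
  refine ⟨⟨Fin.forall_fin_two.2 ⟨g1, g4⟩, Fin.forall_fin_two.2 ⟨g2, g5⟩,
    Fin.forall_fin_two.2 ⟨g3, g6⟩, Fin.forall_fin_two.2 ⟨e1, e4⟩, Fin.forall_fin_two.2 ⟨e2, e5⟩,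
    Fin.forall_fin_two.2 ⟨e3, e6⟩, Fin.forall_fin_two.2
      ⟨fun g => g13 (code3 g1 g2 g3 ▸ (hr _).1 g), fun g => g14 (code3 g4 g5 g6 ▸ (hr _).1 g)⟩,
    fun g => g15 ?_⟩, ?_⟩
  · rw [← code3 g1 g2 g3, ← code3 g4 g5 g6]
    exact congrArg code g
  · obtain ⟨K1, h1⟩ := ex_tri B e4 e5 e6
    obtain ⟨K2, h2⟩ := ex_tri K1 (u := 0) (a := a0) (v := c0) (by simp [h1, e1]) (by simp [h1, e2])
      (by simp [h1, e3])
    rw [h1] at h2
    exact ⟨K2, h2, h2 ▸ (hr.cons _ (code3 g4 g5 g6)).cons _ (code3 g1 g2 g3)⟩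

end MP35
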