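import Pool.Agent.Lib.MP_35c604_gt.DataChk

/-! The explicit data. -/

namespace MP35

def tets : List (ℕ × ℕ × ℕ × ℕ) :=
  [(0,1,4,13), (0,1,4,45), (0,1,7,8), (0,1,7,48), (0,1,8,45), (0,1,11,21), (0,1,11,46),
   (0,1,13,28), (0,1,16,17), (0,1,16,48), (0,1,17,49), (0,1,18,19), (0,1,18,49), (0,1,19,20),
   (0,1,20,43), (0,1,21,43), (0,1,22,23), (0,1,22,46), (0,1,23,24), (0,1,24,25), (0,1,25,50),
   (0,1,26,27), (0,1,26,50), (0,1,27,51), (0,1,28,51), (0,2,3,5), (0,2,3,7), (0,2,5,41),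
   (0,2,7,48), (0,2,10,35), (0,2,10,47), (0,2,11,34), (0,2,11,47), (0,2,15,40), (0,2,15,41),
   (0,2,17,30), (0,2,17,52), (0,2,26,27), (0,2,26,50), (0,2,27,39), (0,2,28,40), (0,2,28,54),
   (0,2,29,48), (0,2,29,52), (0,2,30,31), (0,2,31,42), (0,2,32,33), (0,2,32,42), (0,2,33,34),
   (0,2,35,36), (0,2,36,53), (0,2,37,38), (0,2,37,53), (0,2,38,50), (0,2,39,54), (0,3,5,45),
   (0,3,7,8), (0,3,8,45), (0,4,6,14), (0,4,6,45), (0,4,12,14), (0,4,12,44), (0,4,13,28),
   (0,4,28,44), (0,5,6,41), (0,5,6,45), (0,6,14,41), (0,9,10,46), (0,9,10,47), (0,9,11,46),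
   (0,9,11,47), (0,10,22,35), (0,10,22,46), (0,11,21,34), (0,12,14,15), (0,12,15,40),
   (0,12,40,44), (0,14,15,41), (0,16,17,52), (0,16,29,48), (0,16,29,52), (0,17,30,49),
   (0,18,19,42), (0,18,30,31), (0,18,30,49), (0,18,31,42), (0,19,20,32), (0,19,32,42),
   (0,20,32,43), (0,21,33,34), (0,21,33,43), (0,22,23,35), (0,23,24,53), (0,23,35,36),
   (0,23,36,53), (0,24,25,37), (0,24,37,53), (0,25,37,38), (0,25,38,50), (0,27,39,51),
   (0,28,40,44), (0,28,51,54), (0,32,33,43), (0,39,51,54), (1,2,8,14), (1,2,8,29), (1,2,10,35),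
   (1,2,10,47), (1,2,14,45), (1,2,15,40), (1,2,15,41), (1,2,18,19), (1,2,18,32), (1,2,19,33),
   (1,2,22,36), (1,2,22,37), (1,2,24,25), (1,2,24,38), (1,2,25,39), (1,2,29,52), (1,2,30,31),
   (1,2,30,52), (1,2,31,42), (1,2,32,42), (1,2,33,34), (1,2,34,43), (1,2,35,36), (1,2,37,38),
   (1,2,39,54), (1,2,40,54), (1,2,41,45), (1,2,43,47), (1,4,13,41), (1,4,41,45), (1,7,8,29),
   (1,7,29,44), (1,7,44,48), (1,8,14,45), (1,9,15,28), (1,9,15,41), (1,9,28,41), (1,10,21,35),
   (1,10,21,47), (1,11,21,35), (1,11,35,46), (1,13,28,41), (1,15,28,51), (1,15,40,51),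
   (1,16,17,31), (1,16,30,31), (1,16,30,48), (1,17,31,42), (1,17,42,49), (1,18,32,49),
   (1,19,20,34), (1,19,33,34), (1,20,34,43), (1,21,43,47), (1,22,23,37), (1,22,36,46),
   (1,23,24,38), (1,23,37,38), (1,25,39,50), (1,26,27,54), (1,26,39,50), (1,26,39,54),
   (1,27,40,51), (1,27,40,54), (1,29,44,52), (1,30,48,52), (1,32,42,49), (1,35,36,46),
   (1,44,48,52), (2,3,4,7), (2,3,4,13), (2,3,5,41), (2,3,13,49), (2,3,41,49), (2,4,7,48),
   (2,4,8,13), (2,4,8,29), (2,4,29,48), (2,8,13,14), (2,9,25,26), (2,9,25,44), (2,9,26,44),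
   (2,11,34,43), (2,11,43,47), (2,13,14,49), (2,14,45,49), (2,17,30,52), (2,18,19,33),
   (2,18,32,33), (2,22,36,53), (2,22,37,53), (2,24,25,26), (2,24,26,50), (2,24,38,50),
   (2,25,27,39), (2,25,27,44), (2,26,27,44), (2,28,40,54), (2,41,45,49), (3,4,6,7), (3,4,6,14),
   (3,4,12,13), (3,4,12,14), (3,5,9,12), (3,5,9,49), (3,5,12,14), (3,5,14,45), (3,5,41,49),
   (3,6,7,8), (3,6,8,14), (3,8,14,45), (3,9,12,49), (3,12,13,49), (4,5,8,13), (4,5,8,51),
   (4,5,13,41), (4,5,15,49), (4,5,15,51), (4,5,41,49), (4,6,7,48), (4,6,45,48), (4,8,9,29),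
   (4,8,9,52), (4,8,48,51), (4,8,48,52), (4,9,16,29), (4,9,16,48), (4,9,48,52), (4,12,13,28),
   (4,12,28,44), (4,15,49,51), (4,16,29,48), (4,41,45,49), (4,45,48,49), (4,48,49,51), (5,6,8,38),
   (5,6,8,41), (5,6,9,38), (5,6,9,45), (5,8,13,41), (5,8,38,51), (5,9,12,45), (5,9,15,49),
   (5,9,15,51), (5,9,38,51), (5,12,14,45), (6,7,8,9), (6,7,9,44), (6,7,44,48), (6,8,9,38),
   (6,8,13,14), (6,8,13,41), (6,9,44,45), (6,13,14,41), (6,44,45,52), (6,44,48,52), (6,45,48,52),
   (7,8,9,29), (7,9,29,44), (8,9,38,52), (8,21,38,49), (8,21,38,52), (8,21,49,52), (8,38,49,51),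
   (8,48,49,51), (8,48,49,52), (9,10,21,34), (9,10,21,47), (9,10,33,43), (9,10,33,46),
   (9,10,34,43), (9,11,22,35), (9,11,22,36), (9,11,35,46), (9,11,36,47), (9,12,13,15),
   (9,12,13,49), (9,12,15,45), (9,13,15,49), (9,15,28,54), (9,15,41,44), (9,15,44,45),
   (9,15,51,54), (9,16,29,44), (9,16,30,44), (9,16,30,48), (9,17,18,31), (9,17,18,32),
   (9,17,30,44), (9,17,30,52), (9,17,31,52), (9,17,32,46), (9,17,44,46), (9,18,31,52),
   (9,18,32,52), (9,19,32,42), (9,19,32,46), (9,19,33,42), (9,19,33,46), (9,20,21,34),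
   (9,20,21,42), (9,20,34,43), (9,20,42,43), (9,21,32,42), (9,21,32,52), (9,21,38,47),
   (9,21,38,52), (9,22,35,53), (9,22,36,53), (9,23,25,44), (9,23,25,50), (9,23,36,37),
   (9,23,36,44), (9,23,37,50), (9,24,37,47), (9,24,37,50), (9,24,38,47), (9,24,38,50),
   (9,25,26,38), (9,25,38,50), (9,26,38,39), (9,26,39,44), (9,27,38,39), (9,27,38,40),
   (9,27,39,40), (9,28,40,44), (9,28,40,54), (9,28,41,44), (9,30,48,52), (9,33,42,43),
   (9,35,46,53), (9,36,37,47), (9,36,44,53), (9,38,40,54), (9,38,51,54), (9,39,40,44),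
   (9,44,46,53), (10,21,22,34), (10,21,22,35), (10,22,34,36), (10,22,36,46), (10,33,36,43),
   (10,33,36,46), (10,34,36,43), (11,21,22,34), (11,21,22,35), (11,22,34,36), (11,34,36,43),
   (11,36,43,47), (12,13,15,40), (12,13,28,41), (12,13,40,44), (12,13,41,44), (12,14,15,46),
   (12,14,45,46), (12,15,45,46), (12,28,41,44), (13,14,41,46), (13,14,46,49), (13,15,40,49),
   (13,40,44,49), (13,41,44,46), (13,44,46,49), (14,15,41,46), (14,45,46,49), (15,27,39,40),
   (15,27,39,51), (15,27,40,51), (15,28,51,54), (15,39,40,49), (15,39,49,51), (15,41,44,46),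
   (15,44,45,46), (16,17,31,52), (16,29,44,45), (16,29,45,52), (16,30,31,46), (16,30,44,45),
   (16,30,45,46), (16,31,46,49), (16,31,49,52), (16,45,46,49), (16,45,49,52), (17,18,31,42),
   (17,18,32,46), (17,18,42,47), (17,18,46,47), (17,23,38,46), (17,23,38,47), (17,23,46,53),
   (17,23,47,53), (17,30,38,42), (17,30,38,46), (17,30,42,49), (17,30,44,46), (17,38,42,47),
   (17,46,47,53), (18,19,33,42), (18,20,32,43), (18,20,32,46), (18,20,42,43), (18,20,42,46),
   (18,30,31,49), (18,31,49,52), (18,32,33,43), (18,32,49,52), (18,33,42,43), (18,42,46,47),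
   (19,20,21,34), (19,20,21,46), (19,20,32,46), (19,21,33,34), (19,21,33,46), (20,21,42,46),
   (21,32,42,49), (21,32,49,52), (21,33,43,47), (21,33,46,47), (21,38,42,47), (21,38,42,49),
   (21,42,46,47), (22,23,35,37), (22,35,37,53), (23,24,38,47), (23,24,47,53), (23,25,44,50),
   (23,35,36,37), (23,36,44,53), (23,37,38,46), (23,37,46,50), (23,44,50,53), (23,46,50,53),
   (24,25,26,37), (24,26,37,50), (24,37,47,53), (25,26,37,46), (25,26,38,46), (25,27,39,50),
   (25,27,44,50), (25,37,38,46), (26,27,44,49), (26,27,49,54), (26,37,46,50), (26,38,39,46),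
   (26,39,44,49), (26,39,46,50), (26,39,49,51), (26,39,51,54), (26,49,51,54), (27,38,39,46),
   (27,38,40,54), (27,38,46,49), (27,38,49,54), (27,39,46,50), (27,44,46,49), (27,44,46,50),
   (29,44,45,52), (30,31,38,46), (30,31,38,49), (30,38,42,49), (30,44,45,46), (31,38,46,49),
   (33,36,43,46), (33,43,46,47), (35,36,37,47), (35,36,43,46), (35,36,43,47), (35,37,47,53),
   (35,43,46,47), (35,46,47,53), (38,49,51,54), (39,40,44,49), (44,46,50,53), (45,48,49,52)]

def stA : List Step :=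
  [(0,0,1,0), (0,1,2,0), (0,0,3,0), (0,3,4,0), (1,0,2,0), (1,1,4,0), (2,2,0,3), (0,1,19,0),
   (2,0,1,19), (0,3,12,0), (2,4,3,12), (2,0,4,12), (0,1,39,0), (2,2,1,39), (2,0,2,39), (0,3,14,0),
   (2,4,3,14), (2,0,4,14), (0,1,20,0), (2,0,1,20), (0,0,41,0), (2,14,0,41), (0,14,13,0),
   (2,13,14,41), (0,0,34,0), (2,2,0,34), (2,1,2,34), (2,20,1,34), (0,34,9,0), (2,9,34,20),
   (0,1,37,0), (2,2,1,37), (2,0,2,37), (0,2,25,0), (2,1,2,25), (2,0,1,25), (0,9,35,0), (0,1,29,0),
   (2,2,1,29), (2,0,2,29), (0,2,32,0), (2,0,2,32), (2,1,2,32), (0,2,8,0), (2,1,2,8), (2,0,1,8),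
   (2,3,0,8), (2,8,3,14), (2,8,14,13), (2,2,8,13), (2,3,2,13), (2,4,3,13), (2,0,4,13), (2,1,0,13),
   (2,1,13,41), (2,2,1,41), (0,9,5,0), (0,1,44,0), (2,29,1,44), (0,2,26,0), (2,0,2,26),
   (2,1,0,26), (2,26,1,39), (0,0,24,0), (2,1,0,24), (2,24,0,37), (0,37,23,0), (2,1,37,23),
   (2,0,1,23), (0,0,42,0), (2,19,0,42), (2,32,0,42), (0,9,10,0), (0,9,43,0), (2,20,9,43),
   (2,0,20,43), (0,34,21,0), (2,0,34,21), (2,9,34,21), (2,1,0,21), (2,10,9,21), (2,1,21,10),
   (2,2,1,10), (2,0,2,10), (2,0,10,9), (0,1,30,0), (2,2,1,30), (2,0,2,30), (0,1,31,0), (2,2,1,31),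
   (2,0,2,31), (0,2,40,0), (2,0,2,40), (2,1,2,40), (0,9,16,0), (0,0,22,0), (2,1,0,22), (0,3,6,0),
   (2,4,3,6), (2,0,4,6), (0,1,38,0), (2,2,1,38), (2,24,1,38), (2,0,2,38), (2,25,0,38), (0,1,33,0),
   (2,2,1,33), (2,19,1,33), (2,0,2,33), (2,33,0,43), (2,9,43,33), (2,9,33,19), (2,9,19,42),
   (2,9,42,32), (0,1,36,0), (2,2,1,36), (2,22,1,36), (2,0,2,36), (2,23,0,36), (0,1,15,0),
   (2,2,1,15), (2,0,2,15), (0,40,28,0), (2,0,40,28), (2,1,0,28), (0,1,27,0), (2,0,1,27),
   (2,27,0,39), (2,27,1,40), (0,1,18,0), (2,0,1,18), (2,18,0,31), (2,18,1,32), (2,9,32,18),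
   (2,9,18,31), (0,1,17,0), (2,0,1,17), (2,17,0,30), (2,17,1,31), (2,9,31,17), (2,9,17,30),
   (2,16,9,30), (2,1,30,16), (2,0,1,16), (2,16,0,29), (2,9,16,29), (2,9,29,44), (0,9,11,0),
   (2,0,9,11), (2,11,9,35), (2,1,0,11), (2,1,11,35), (2,2,1,35), (2,0,2,35), (2,22,0,35),
   (2,9,35,22), (2,9,22,36), (2,9,36,23), (2,9,23,37), (2,9,37,24), (2,9,24,38), (2,9,38,25),
   (2,2,25,9), (2,9,2,26), (2,9,26,39), (2,9,39,27), (2,9,27,40), (2,9,40,28), (2,1,28,9),
   (2,9,1,15), (0,44,7,0), (2,1,44,7), (2,7,44,9), (2,0,1,7), (2,3,0,7), (2,6,3,7), (2,6,7,9),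
   (2,5,9,6), (2,0,6,5), (2,3,0,5), (2,3,5,9), (2,9,3,12), (2,12,9,15)]

def stB : List Step :=
  [(0,0,55,0), (2,55,0,4), (2,55,4,3), (0,3,56,0), (2,55,3,56), (2,56,3,0), (2,56,0,4),
   (0,4,57,0), (2,56,4,57), (2,57,4,3), (2,57,3,0), (2,57,0,1), (2,57,1,2), (0,2,58,0),
   (2,57,2,58), (2,58,2,0), (2,58,0,1), (0,1,59,0), (2,58,1,59), (2,59,1,2), (2,59,2,0),
   (0,0,60,0), (2,59,0,60), (2,60,0,1), (2,60,1,2), (0,2,61,0), (2,60,2,61), (2,61,2,0),
   (2,61,0,1), (0,1,62,0), (2,61,1,62), (2,62,1,2), (2,62,2,0), (0,0,63,0), (2,62,0,63),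
   (2,63,0,1), (2,63,1,2), (0,2,64,0), (2,63,2,64), (2,64,2,0), (2,64,0,1), (0,1,65,0),
   (2,64,1,65), (2,65,1,2), (2,65,2,0), (2,65,0,4), (2,65,4,3), (0,3,66,0), (2,65,3,66),
   (2,66,3,0), (2,66,0,2), (2,66,2,1), (0,1,67,0), (2,66,1,67), (2,67,1,0), (2,67,0,3),
   (2,67,3,4), (0,4,68,0), (2,67,4,68), (2,68,4,0), (2,68,0,1), (2,68,1,2), (0,2,69,0),
   (2,68,2,69), (2,69,2,0), (2,69,0,1), (0,1,70,0), (2,69,1,70), (2,70,1,2), (2,70,2,0),
   (0,0,71,0), (2,70,0,71), (2,71,0,1), (2,71,1,2), (0,2,72,0), (2,71,2,72), (2,72,2,0),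
   (2,72,0,4), (2,72,4,3), (0,3,73,0), (2,72,3,73), (2,73,3,0), (2,73,0,1), (2,73,1,2),
   (0,2,74,0), (2,73,2,74), (2,74,2,0), (2,74,0,3), (2,74,3,4), (0,4,75,0), (2,74,4,75),
   (2,75,4,0), (2,75,0,1), (2,75,1,2), (0,2,76,0), (2,75,2,76), (2,76,2,0), (2,76,0,1),
   (0,1,77,0), (2,76,1,77), (2,77,1,2), (2,77,2,0), (0,0,78,0), (2,77,0,78), (2,78,0,1),
   (2,78,1,2), (0,2,79,0), (2,78,2,79), (2,79,2,0), (2,79,0,4), (2,79,4,3), (0,3,80,0),
   (2,79,3,80), (2,80,3,0), (2,80,0,2), (2,80,2,1), (0,1,81,0), (2,80,1,81), (2,81,1,0),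
   (2,81,0,3), (2,81,3,4), (0,4,82,0), (2,81,4,82), (2,82,4,0), (2,82,0,1), (2,82,1,2),
   (0,2,83,0), (2,82,2,83), (2,83,2,0), (2,83,0,1), (0,1,84,0), (2,83,1,84), (2,84,1,2),
   (2,84,2,0), (2,55,56,57), (2,55,57,58), (2,55,58,59), (2,55,59,60), (2,55,60,61), (2,55,61,62),
   (2,55,62,63), (2,55,63,64), (2,55,64,65), (2,55,65,66), (2,55,66,67), (2,55,67,68),
   (2,55,68,69), (2,55,69,70), (2,55,70,71), (2,55,71,72), (2,55,72,73), (2,55,73,74),
   (2,55,74,75), (2,55,75,76), (2,55,76,77), (2,55,77,78), (2,55,78,79), (2,55,79,80),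
   (2,55,80,81), (2,55,81,82), (2,55,82,83), (2,55,83,84), (0,0,85,0), (2,85,0,1), (2,85,1,2),
   (0,2,86,0), (2,85,2,86), (2,86,2,0), (2,86,0,4), (2,86,4,3), (0,3,87,0), (2,86,3,87),
   (2,87,3,0), (2,87,0,1), (2,87,1,2), (0,2,88,0), (2,87,2,88), (2,88,2,0), (2,88,0,3),
   (2,88,3,4), (0,4,89,0), (2,88,4,89), (2,89,4,0), (2,89,0,2), (2,89,2,1), (0,1,90,0),
   (2,89,1,90), (2,90,1,0), (2,90,0,4), (2,90,4,3), (0,3,91,0), (2,90,3,91), (2,91,3,0),
   (2,91,0,2), (2,91,2,1), (0,1,92,0), (2,91,1,92), (2,92,1,0), (2,92,0,3), (2,92,3,4),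
   (0,4,93,0), (2,92,4,93), (2,93,4,0), (2,93,0,2), (2,93,2,1), (0,1,94,0), (2,93,1,94),
   (2,94,1,0), (2,94,0,4), (2,94,4,3), (0,3,95,0), (2,94,3,95), (2,95,3,0), (2,95,0,2),
   (2,95,2,1), (0,1,96,0), (2,95,1,96), (2,96,1,0), (2,96,0,3), (2,96,3,4), (0,4,97,0),
   (2,96,4,97), (2,97,4,0), (2,85,86,87), (2,85,87,88), (2,85,88,89), (2,85,89,90), (2,85,90,91),
   (2,85,91,92), (2,85,92,93), (2,85,93,94), (2,85,94,95), (2,85,95,96), (2,85,96,97)]

def tab : List (ℕ × ℕ × Wd) :=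
  [(0,2,[(0,false)]), (0,4,[(1,false)]), (0,5,[(1,false), (0,true), (0,true), (0,true), (0,true),
   (0,true), (0,true)]), (0,6,[(1,false)]), (0,9,[(0,false)]), (0,10,[(0,false)]),
   (0,11,[(0,false)]), (0,12,[(1,false)]), (0,13,[(1,false), (0,false)]), (0,14,[(1,false)]),
   (0,15,[(0,false)]), (0,16,[(0,true), (0,true), (0,true), (0,true), (0,true)]),
   (0,26,[(0,false)]), (0,28,[(0,false)]), (0,29,[(0,false)]), (0,30,[(0,false)]),
   (0,31,[(0,false)]), (0,32,[(0,false)]), (0,33,[(0,false)]), (0,35,[(0,false), (0,false)]),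
   (0,36,[(0,false)]), (0,37,[(0,false)]), (0,38,[(0,false)]), (0,39,[(0,false)]),
   (0,40,[(0,false)]), (0,43,[(0,true)]), (0,58,[(0,false)]), (0,59,[(0,false)]),
   (0,61,[(0,false)]), (0,62,[(0,false)]), (0,64,[(0,false)]), (0,65,[(0,false)]),
   (0,68,[(1,false)]), (0,69,[(0,false)]), (0,70,[(0,false)]), (0,72,[(0,false)]),
   (0,74,[(0,false)]), (0,75,[(1,false)]), (0,76,[(0,false)]), (0,77,[(0,false)]),
   (0,79,[(0,false)]), (0,82,[(1,false)]), (0,83,[(0,false)]), (0,84,[(0,false)]),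
   (0,86,[(0,false)]), (0,88,[(0,false)]), (0,89,[(1,false)]), (0,93,[(1,false)]),
   (0,97,[(1,false)]), (1,9,[(0,false), (0,false), (0,false), (0,false), (0,false), (0,false),
   (0,false), (0,false)]), (1,11,[(0,false)]), (1,13,[(1,false), (0,false)]), (1,16,[(0,true),
   (0,true), (0,true), (0,true), (0,true)]), (1,26,[(0,false)]), (1,28,[(0,false)]),
   (1,34,[(0,true)]), (1,35,[(0,false)]), (1,41,[(1,false), (0,false), (1,true)]),
   (1,58,[(0,false)]), (1,61,[(0,false)]), (1,64,[(0,false)]), (1,66,[(0,true)]),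
   (1,68,[(1,false)]), (1,69,[(0,false)]), (1,75,[(1,false)]), (1,76,[(0,false)]),
   (1,80,[(0,true)]), (1,82,[(1,false)]), (1,83,[(0,false)]), (1,89,[(0,true), (1,false)]),
   (1,91,[(0,true)]), (1,93,[(0,true), (1,false)]), (1,95,[(0,true)]), (2,3,[(0,true)]),
   (2,9,[(0,false), (0,false), (0,false), (0,false), (0,false)]), (2,34,[(0,true)]),
   (2,35,[(0,false)]), (2,41,[(1,false), (0,false), (1,true)]), (2,66,[(0,true)]),
   (2,68,[(1,false)]), (2,75,[(1,false)]), (2,80,[(0,true)]), (2,82,[(1,false)]), (2,89,[(0,true),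
   (1,false)]), (2,91,[(0,true)]), (2,93,[(0,true), (1,false)]), (2,95,[(0,true)]),
   (3,5,[(1,false), (0,true), (0,true), (0,true), (0,true), (0,true), (0,true)]), (3,9,[(1,false),
   (0,true), (0,true), (0,true), (0,true), (0,true), (0,true)]), (3,13,[(0,false)]),
   (3,55,[(1,true)]), (3,65,[(1,true), (0,false)]), (3,72,[(1,true), (0,false)]),
   (3,74,[(0,false)]), (3,79,[(1,true), (0,false)]), (3,86,[(1,true), (0,false)]),
   (3,88,[(0,false)]), (3,90,[(1,true)]), (3,94,[(1,true)]), (4,13,[(0,false)]),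
   (4,55,[(1,true)]), (4,56,[(1,true)]), (4,65,[(1,true), (0,false)]), (4,72,[(1,true),
   (0,false)]), (4,74,[(0,false)]), (4,79,[(1,true), (0,false)]), (4,86,[(1,true), (0,false)]),
   (4,88,[(0,false)]), (4,90,[(1,true)]), (4,94,[(1,true)]), (5,6,[(0,false), (0,false),
   (0,false), (0,false), (0,false), (0,false)]), (6,9,[(0,true), (0,true), (0,true), (0,true),
   (0,true), (0,true)]), (7,9,[(0,true), (0,true), (0,true), (0,true), (0,true), (0,true)]),
   (9,12,[(0,false), (0,false), (0,false), (0,false), (0,false), (0,false), (1,true)]),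
   (9,15,[(0,true), (0,true), (0,true), (0,true), (0,true), (0,true), (0,true), (0,true)]),
   (9,17,[(0,false), (0,false), (0,false), (0,false)]), (9,18,[(0,false), (0,false), (0,false)]),
   (9,19,[(0,false), (0,false)]), (9,20,[(0,false)]), (9,22,[(0,true), (0,true)]),
   (9,23,[(0,true), (0,true), (0,true)]), (9,24,[(0,true), (0,true), (0,true), (0,true)]),
   (9,25,[(0,true), (0,true), (0,true), (0,true), (0,true)]), (9,26,[(0,true), (0,true), (0,true),
   (0,true), (0,true)]), (9,27,[(0,true), (0,true), (0,true), (0,true), (0,true), (0,true),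
   (0,true)]), (9,28,[(0,true), (0,true), (0,true), (0,true), (0,true), (0,true), (0,true)]),
   (9,29,[(0,false), (0,false), (0,false), (0,false), (0,false), (0,false)]), (9,30,[(0,false),
   (0,false), (0,false), (0,false), (0,false)]), (9,31,[(0,false), (0,false), (0,false),
   (0,false)]), (9,32,[(0,false), (0,false), (0,false)]), (9,33,[(0,false), (0,false)]),
   (9,36,[(0,true), (0,true)]), (9,37,[(0,true), (0,true), (0,true)]), (9,38,[(0,true), (0,true),
   (0,true), (0,true)]), (9,39,[(0,true), (0,true), (0,true), (0,true), (0,true), (0,true)]),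
   (9,40,[(0,true), (0,true), (0,true), (0,true), (0,true), (0,true), (0,true)]),
   (9,42,[(0,false), (0,false)]), (9,44,[(0,false), (0,false), (0,false), (0,false), (0,false),
   (0,false)]), (12,15,[(1,false), (0,true), (0,true), (0,true), (0,true), (0,true), (0,true),
   (0,true), (0,true), (0,true), (0,true), (0,true), (0,true), (0,true), (0,true)]),
   (13,41,[(1,true)]), (14,41,[(1,true)]), (16,29,[(0,false), (0,false), (0,false), (0,false),
   (0,false), (0,false)]), (16,30,[(0,false), (0,false), (0,false), (0,false), (0,false)]),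
   (17,30,[(0,false)]), (18,31,[(0,false)]), (20,34,[(0,true)]), (20,43,[(0,true)]),
   (22,35,[(0,false), (0,false)]), (23,36,[(0,false)]), (24,37,[(0,false)]), (25,38,[(0,false)]),
   (26,39,[(0,true)]), (27,39,[(0,false)]), (32,42,[(0,true)]), (33,43,[(0,true), (0,true)]),
   (55,56,[(1,false)]), (55,57,[(1,false), (1,false)]), (55,58,[(1,false), (1,false)]),
   (55,59,[(1,false), (1,false), (0,true)]), (55,60,[(1,false), (1,false), (0,true), (0,true)]),
   (55,61,[(1,false), (1,false), (0,true), (0,true)]), (55,62,[(1,false), (1,false), (0,true),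
   (0,true), (0,true)]), (55,63,[(1,false), (1,false), (0,true), (0,true), (0,true), (0,true)]),
   (55,64,[(1,false), (1,false), (0,true), (0,true), (0,true), (0,true)]), (55,65,[(1,false),
   (1,false), (0,true), (0,true), (0,true), (0,true), (0,true)]), (55,66,[(1,false), (1,false),
   (0,true), (0,true), (0,true), (0,true), (0,true), (0,true), (1,false)]), (55,67,[(1,false),
   (1,false), (0,true), (0,true), (0,true), (0,true), (0,true), (0,true), (1,false), (0,false)]),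
   (55,68,[(1,false), (1,false), (0,true), (0,true), (0,true), (0,true), (0,true), (0,true),
   (1,false), (0,false)]), (55,69,[(1,false), (1,false), (0,true), (0,true), (0,true), (0,true),
   (0,true), (0,true), (1,false), (0,false), (1,true)]), (55,70,[(1,false), (1,false), (0,true),
   (0,true), (0,true), (0,true), (0,true), (0,true), (1,false), (0,false), (1,true), (0,true)]),
   (55,71,[(1,false), (1,false), (0,true), (0,true), (0,true), (0,true), (0,true), (0,true),
   (1,false), (0,false), (1,true), (0,true), (0,true)]), (55,72,[(1,false), (1,false), (0,true),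
   (0,true), (0,true), (0,true), (0,true), (0,true), (1,false), (0,false), (1,true), (0,true),
   (0,true)]), (55,73,[(1,false), (1,false), (0,true), (0,true), (0,true), (0,true), (0,true),
   (0,true), (1,false), (0,false), (1,true), (0,true), (0,true), (0,true), (1,false)]),
   (55,74,[(1,false), (1,false), (0,true), (0,true), (0,true), (0,true), (0,true), (0,true),
   (1,false), (0,false), (1,true), (0,true), (0,true), (0,true), (1,false)]), (55,75,[(1,false),
   (1,false), (0,true), (0,true), (0,true), (0,true), (0,true), (0,true), (1,false), (0,false),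
   (1,true), (0,true), (0,true), (0,true), (1,false), (0,true)]), (55,76,[(1,false), (1,false),
   (0,true), (0,true), (0,true), (0,true), (0,true), (0,true), (1,false), (0,false), (1,true),
   (0,true), (0,true), (0,true), (1,false), (0,true), (1,true)]), (55,77,[(1,false), (1,false),
   (0,true), (0,true), (0,true), (0,true), (0,true), (0,true), (1,false), (0,false), (1,true),
   (0,true), (0,true), (0,true), (1,false), (0,true), (1,true), (0,true)]), (55,78,[(1,false),
   (1,false), (0,true), (0,true), (0,true), (0,true), (0,true), (0,true), (1,false), (0,false),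
   (1,true), (0,true), (0,true), (0,true), (1,false), (0,true), (1,true), (0,true), (0,true)]),
   (55,79,[(1,false), (1,false), (0,true), (0,true), (0,true), (0,true), (0,true), (0,true),
   (1,false), (0,false), (1,true), (0,true), (0,true), (0,true), (1,false), (0,true), (1,true),
   (0,true), (0,true)]), (55,80,[(1,false), (1,false), (0,true), (0,true), (0,true), (0,true),
   (0,true), (0,true), (1,false), (0,false), (1,true), (0,true), (0,true), (0,true), (1,false),
   (0,true), (1,true), (0,true), (0,true), (0,true), (1,false)]), (55,81,[(1,false), (1,false),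
   (0,true), (0,true), (0,true), (0,true), (0,true), (0,true), (1,false), (0,false), (1,true),
   (0,true), (0,true), (0,true), (1,false), (0,true), (1,true), (0,true), (0,true), (0,true),
   (1,false), (0,false)]), (55,82,[(1,false), (1,false), (0,true), (0,true), (0,true), (0,true),
   (0,true), (0,true), (1,false), (0,false), (1,true), (0,true), (0,true), (0,true), (1,false),
   (0,true), (1,true), (0,true), (0,true), (0,true), (1,false), (0,false)]), (55,83,[(1,false),
   (1,false), (0,true), (0,true), (0,true), (0,true), (0,true), (0,true), (1,false), (0,false),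
   (1,true), (0,true), (0,true), (0,true), (1,false), (0,true), (1,true), (0,true), (0,true),
   (0,true), (1,false), (0,false), (1,true)]), (55,84,[(1,false), (1,false), (0,true), (0,true),
   (0,true), (0,true), (0,true), (0,true), (1,false), (0,false), (1,true), (0,true), (0,true),
   (0,true), (1,false), (0,true), (1,true), (0,true), (0,true), (0,true), (1,false), (0,false),
   (1,true), (0,true)]), (56,57,[(1,false)]), (58,59,[(0,true)]), (59,60,[(0,true)]),
   (61,62,[(0,true)]), (62,63,[(0,true)]), (64,65,[(0,true)]), (65,66,[(0,true), (1,false)]),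
   (66,67,[(0,false)]), (68,69,[(1,true)]), (69,70,[(0,true)]), (70,71,[(0,true)]),
   (72,73,[(0,true), (1,false)]), (74,75,[(0,true)]), (75,76,[(1,true)]), (76,77,[(0,true)]),
   (77,78,[(0,true)]), (79,80,[(0,true), (1,false)]), (80,81,[(0,false)]), (82,83,[(1,true)]),
   (83,84,[(0,true)]), (85,87,[(0,true), (1,false)]), (85,88,[(0,true), (1,false)]),
   (85,89,[(0,true), (1,false), (0,true)]), (85,90,[(0,true), (1,false), (0,true), (1,true),
   (0,false)]), (85,91,[(0,true), (1,false), (0,true), (1,true), (0,false), (1,false)]),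
   (85,92,[(0,true), (1,false), (0,true), (1,true), (0,false), (1,false), (0,false)]),
   (85,93,[(0,true), (1,false), (0,true), (1,true), (0,false), (1,false), (0,false)]),
   (85,94,[(0,true), (1,false), (0,true), (1,true), (0,false), (1,false), (0,false), (1,true),
   (0,false)]), (85,95,[(0,true), (1,false), (0,true), (1,true), (0,false), (1,false), (0,false),
   (1,true), (0,false), (1,false)]), (85,96,[(0,true), (1,false), (0,true), (1,true), (0,false),
   (1,false), (0,false), (1,true), (0,false), (1,false), (0,false)]), (85,97,[(0,true), (1,false),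
   (0,true), (1,true), (0,false), (1,false), (0,false), (1,true), (0,false), (1,false),
   (0,false)]), (86,87,[(0,true), (1,false)]), (88,89,[(0,true)]), (89,90,[(1,true), (0,false)]),
   (90,91,[(1,false)]), (91,92,[(0,false)]), (93,94,[(1,true), (0,false)]), (94,95,[(1,false)]),
   (95,96,[(0,false)])]

end MP35
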