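import Mathlib

/-!
Finite simplicial complexes, their polyhedra, Whitehead's elementary expansions and simple
homotopy equivalence, and combinatorial 3-manifolds with boundary.
-/

namespace MP35

/-- A finite abstract simplicial complex with vertices in `V`. -/
structure SC (V : Type) where
  faces : Finset (Finset V)
  ne : ∀ s ∈ faces, s.Nonempty
  down : ∀ s ∈ faces, ∀ t ⊆ s, t.Nonempty → t ∈ faces

namespace SC

variable {V W : Type} [DecidableEq V] [DecidableEq W]

/-- The vertices of `K`. -/
def verts (K : SC V) : Set V := {v | {v} ∈ K.faces}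

/-- `K` has dimension at most `n`. -/
def DimLE (K : SC V) (n : ℕ) : Prop := ∀ s ∈ K.faces, s.card ≤ n + 1

/-- `K` is nonempty and any two vertices are joined by an edge path. -/
def Connected (K : SC V) : Prop :=
  K.faces.Nonempty ∧
    ∀ u ∈ K.verts, ∀ v ∈ K.verts, Relation.ReflTransGen (fun a b => {a, b} ∈ K.faces) u v

/-- The Euler characteristic. -/
def chi (K : SC V) : ℤ := ∑ s ∈ K.faces, (-1) ^ (s.card + 1)

/-- The number of simplices of `K` having `s` as a face of codimension one. -/
def deg (K : SC V) (s : Finset V) : ℕ :=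
  (K.faces.filter fun t => s ⊆ t ∧ t.card = s.card + 1).card

/-- The link of the vertex `v`. -/
def link (K : SC V) (v : V) : SC V where
  faces := K.faces.filter fun s => v ∉ s ∧ insert v s ∈ K.faces
  ne := fun s hs => K.ne s (Finset.mem_filter.1 hs).1
  down := fun s hs t hts ht => by
    obtain ⟨h1, h2, h3⟩ := Finset.mem_filter.1 hs
    exact Finset.mem_filter.2 ⟨K.down s h1 t hts ht, fun h => h2 (hts h),
      K.down _ h3 _ (Finset.insert_subset_insert v hts) (Finset.insert_nonempty v t)⟩

/-- The boundary of an `n`-dimensional complex: the subcomplex generated by the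
`(n-1)`-simplices (those with `n` vertices) which lie in exactly one `n`-simplex. -/
def bdry (K : SC V) (n : ℕ) : SC V where
  faces := K.faces.filter fun s => ∃ f ∈ K.faces, f.card = n ∧ K.deg f = 1 ∧ s ⊆ f
  ne := fun s hs => K.ne s (Finset.mem_filter.1 hs).1
  down := fun s hs t hts ht => by
    obtain ⟨h1, f, hf, h2, h3, h4⟩ := Finset.mem_filter.1 hs
    exact Finset.mem_filter.2 ⟨K.down s h1 t hts ht, f, hf, h2, h3, hts.trans h4⟩

/-- A triangulated circle: a connected graph all of whose vertices have degree two. -/
def IsCircle (L : SC V) : Prop := L.Connected ∧ L.DimLE 1 ∧ ∀ v ∈ L.verts, L.deg {v} = 2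

/-- A triangulated arc: a connected graph with all degrees one or two, and some degree one. -/
def IsArc (L : SC V) : Prop :=
  L.Connected ∧ L.DimLE 1 ∧ (∀ v ∈ L.verts, L.deg {v} = 1 ∨ L.deg {v} = 2) ∧
    ∃ v ∈ L.verts, L.deg {v} = 1

/-- A triangulated 2-sphere: a connected closed surface of Euler characteristic two. -/
def IsSphere (L : SC V) : Prop :=
  L.Connected ∧ (∀ v ∈ L.verts, (L.link v).IsCircle) ∧ L.chi = 2

/-- A triangulated 2-ball: a connected surface of Euler characteristic one whose boundary is one
circle. -/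
def IsBall (L : SC V) : Prop :=
  L.Connected ∧ (∀ v ∈ L.verts, (L.link v).IsCircle ∨ (L.link v).IsArc) ∧ L.chi = 1 ∧
    (L.bdry 2).IsCircle

/-- A combinatorial 3-manifold, possibly with boundary: every vertex link is a 2-sphere or a
2-ball. -/
def IsManifold (M : SC V) : Prop := ∀ v ∈ M.verts, (M.link v).IsSphere ∨ (M.link v).IsBall

/-- The image of `K` under a map of the vertices. -/
def map (f : V → W) (K : SC V) : SC W where
  faces := K.faces.image (Finset.image f)
  ne := fun s hs => by
    obtain ⟨t, ht, rfl⟩ := Finset.mem_image.1 hs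
    exact (K.ne t ht).image f
  down := fun s hs t hts ht => by
    obtain ⟨u, hu, rfl⟩ := Finset.mem_image.1 hs
    obtain ⟨w, hw, rfl⟩ := Finset.subset_image_iff.1 hts
    exact Finset.mem_image.2 ⟨w, K.down u hu w hw (Finset.image_nonempty.1 ht), rfl⟩

/-- `K'` is an isomorphic copy of `K` (the vertices are renamed injectively). -/
def Iso (K K' : SC V) : Prop := ∃ f : V → V, Set.InjOn f K.verts ∧ K' = K.map f

/-- Elementary expansion: `K'` is `K` together with a new simplex `τ` and a new face `σ` of
codimension one of `τ`. The inverse operation is an elementary collapse. -/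
def Expand (K K' : SC V) : Prop :=
  ∃ σ τ : Finset V, σ ⊆ τ ∧ τ.card = σ.card + 1 ∧ σ ∉ K.faces ∧ τ ∉ K.faces ∧
    K'.faces = insert τ (insert σ K.faces)

/-- Simple homotopy equivalence (Whitehead): a finite sequence of elementary expansions, elementary
collapses and isomorphisms, through complexes of any dimension. -/
def SimpleEquiv : SC V → SC V → Prop :=
  Relation.EqvGen fun K K' => Expand K K' ∨ Iso K K'

/-- `K` is isomorphic to a subcomplex of a combinatorial 3-manifold. -/
def Embeds (K : SC V) : Prop :=
  ∃ (M : SC V) (f : V → V), M.IsManifold ∧ Set.InjOn f K.verts ∧ (K.map f).faces ⊆ M.faces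

/-- The simple homotopy type of `K` contains a 2-complex which embeds in a 3-manifold. -/
def TypeEmbeds (K : SC V) : Prop := ∃ K' : SC V, SimpleEquiv K K' ∧ K'.DimLE 2 ∧ K'.Embeds

/-- The polyhedron of `K`, in barycentric coordinates, as a subspace of `V → ℝ`. -/
def real (K : SC V) : Set (V → ℝ) :=
  {x | (∀ v, 0 ≤ x v) ∧ ∃ s ∈ K.faces, (∀ v, v ∉ s → x v = 0) ∧ ∑ v ∈ s, x v = 1}

end SC

end MP35
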