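import Pool.Agent.Lib.MP_35c604_gt.Basic

/-! TASK MATCH: matchings and collapses; the derived neighbourhood is simple equivalent to `K`. -/

namespace MP35
namespace SC

open Finset

variable {V W : Type} [DecidableEq V] [DecidableEq W]

theorem match_expand_subset {K K' : SC V} (h : Expand K K') : K.faces ⊆ K'.faces := by
  obtain ⟨σ, τ, -, -, -, -, e⟩ := h
  rw [e]
  exact (subset_insert _ _).trans (subset_insert _ _)

theorem Collapse.subset {K' K : SC V} (h : Collapse K' K) : K.faces ⊆ K'.faces := by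
  induction h with
  | refl => exact Subset.rfl
  | tail _ s ih => exact (match_expand_subset s).trans ih

theorem match_expand_chi {K K' : SC V} (h : Expand K K') : K'.chi = K.chi := by
  obtain ⟨σ, τ, -, hc, h1, h2, e⟩ := h
  have ne : τ ≠ σ := fun k => by rw [k] at hc; omega
  unfold chi
  rw [e, sum_insert (by simp [ne, h2]), sum_insert h1, hc]
  ring

theorem Collapse.chi_eq {K' K : SC V} (h : Collapse K' K) : K'.chi = K.chi := by
  induction h with
  | refl => rfl
  | tail _ s ih => exact ih.trans (match_expand_chi s)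

theorem Collapse.simpleEquiv {K' K : SC V} (h : Collapse K' K) : SimpleEquiv K' K := by
  induction h with
  | refl => exact Relation.EqvGen.refl _
  | tail _ s ih =>
    exact Relation.EqvGen.trans _ _ _ ih
      (Relation.EqvGen.symm _ _ (Relation.EqvGen.rel _ _ (Or.inl s)))

theorem match_free {K' K : SC V} {m : Finset V → Finset V} {r : Finset V → ℕ}
    (h : Matching (K'.faces \ K.faces) m r) {σ : Finset V} (hσ : σ ∈ K'.faces \ K.faces)
    (hmax : ∀ s ∈ K'.faces \ K.faces, r s ≤ r σ) {s : Finset V} (hs : s ∈ K'.faces)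
    (h1 : σ ⊆ s) (h2 : s ≠ σ) (h3 : s ≠ m σ) : False := by
  obtain ⟨σ1, σ2⟩ := mem_sdiff.1 hσ
  obtain ⟨a, a1, a2, a3⟩ : ∃ a ∈ s, a ∉ σ ∧ insert a σ ≠ m σ := by
    obtain ⟨a, a1, a2⟩ := exists_of_ssubset (h1.ssubset_of_ne h2.symm)
    by_cases e : insert a σ = m σ
    · have : m σ ⊆ s := e ▸ insert_subset a1 h1
      obtain ⟨b, b1, b2⟩ := exists_of_ssubset (this.ssubset_of_ne h3.symm)
      exact ⟨b, b1, fun k => b2 (e ▸ mem_insert_of_mem k), fun k => b2 (k ▸ mem_insert_self _ _)⟩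
    · exact ⟨a, a1, a2, e⟩
  have hρ : insert a σ ∈ K'.faces \ K.faces :=
    mem_sdiff.2 ⟨K'.down s hs _ (insert_subset a1 h1) (insert_nonempty _ _),
      fun k => σ2 (K.down _ k σ (subset_insert _ _) (K'.ne σ σ1))⟩
  refine absurd (h.2 _ hρ σ hσ (subset_insert _ _) (card_insert_of_notMem a2) fun k => a3 ?_)
    (not_lt.2 (hmax _ hρ))
  rw [k, (h.1 _ hρ).2.1, ← k]

theorem collapse_of_matching {K' K : SC V} (hs : K.faces ⊆ K'.faces) {m : Finset V → Finset V}
    {r : Finset V → ℕ} (h : Matching (K'.faces \ K.faces) m r) : Collapse K' K := by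
  induction hn : (K'.faces \ K.faces).card using Nat.strong_induction_on generalizing K' with
  | _ n ih =>
  rcases (K'.faces \ K.faces).eq_empty_or_nonempty with e | ne
  · rw [ext' (K := K') (K' := K) (Subset.antisymm (sdiff_eq_empty_iff_subset.1 e) hs)]
    exact Relation.ReflTransGen.refl
  obtain ⟨σ, hσ, hmax, c1, c2⟩ : ∃ σ ∈ K'.faces \ K.faces, (∀ s ∈ K'.faces \ K.faces, r s ≤ r σ) ∧
      σ ⊆ m σ ∧ (m σ).card = σ.card + 1 := by
    obtain ⟨s, s1, s2⟩ := exists_max_image _ r ne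
    obtain ⟨a1, a2, a3, a4 | a4⟩ := h.1 s s1
    · exact ⟨m s, a1, a3 ▸ s2, by rw [a2]; exact a4⟩
    · exact ⟨s, s1, s2, a4⟩
  obtain ⟨τ1, τ2, -, -⟩ := h.1 σ hσ
  have ne' : σ ≠ m σ := fun k => by rw [← k] at c2; omega
  let K'' : SC V :=
    { faces := (K'.faces.erase (m σ)).erase σ
      ne := fun s hs => K'.ne s (mem_of_mem_erase (mem_of_mem_erase hs))
      down := fun s hs t hts ht => by
        simp only [mem_erase] at hs ⊢
        refine ⟨fun k => ?_, fun k => ?_, K'.down s hs.2.2 t hts ht⟩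
        · exact match_free h hσ hmax hs.2.2 (k ▸ hts) hs.1 hs.2.1
        · exact match_free h hσ hmax hs.2.2 (c1.trans (k ▸ hts)) hs.1 hs.2.1 }
  have mem : ∀ s, s ∈ K''.faces \ K.faces ↔ s ≠ σ ∧ s ≠ m σ ∧ s ∈ K'.faces \ K.faces := fun s => by
    simp only [K'', mem_sdiff, mem_erase, and_assoc]
  refine Relation.ReflTransGen.head (b := K'') ⟨σ, m σ, c1, c2, notMem_erase _ _,
    fun k => notMem_erase _ _ (mem_of_mem_erase k), ?_⟩ (ih _ ?_ ?_ ?_ rfl)
  · rw [insert_erase (mem_erase.2 ⟨ne', (mem_sdiff.1 hσ).1⟩), insert_erase (mem_sdiff.1 τ1).1]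
  · rw [← hn]
    exact card_lt_card ⟨fun s k => ((mem s).1 k).2.2, fun k => ((mem σ).1 (k hσ)).1 rfl⟩
  · exact fun s k => mem_erase.2 ⟨fun e => (mem_sdiff.1 hσ).2 (e ▸ k),
      mem_erase.2 ⟨fun e => (mem_sdiff.1 τ1).2 (e ▸ k), hs k⟩⟩
  · refine ⟨fun s k => ?_, fun s k t k' => h.2 s ((mem s).1 k).2.2 t ((mem t).1 k').2.2⟩
    obtain ⟨k1, k2, k3⟩ := (mem s).1 k
    obtain ⟨a1, a2, a3⟩ := h.1 s k3
    refine ⟨(mem _).2 ⟨fun e => k2 ?_, fun e => k1 ?_, a1⟩, a2, a3⟩
    · rw [← e, a2]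
    · rw [← a2, e, τ2]

theorem Collapse.matching {K' K : SC V} (h : Collapse K' K) :
    ∃ m r, Matching (K'.faces \ K.faces) m r := by
  induction h using Relation.ReflTransGen.head_induction_on with
  | refl => exact ⟨id, fun _ => 0, by simp [Matching]⟩
  | @head A B st h' ih =>
  obtain ⟨m, r, h1, h2⟩ := ih
  obtain ⟨σ, τ, c1, c2, n1, n2, e⟩ := st
  have sub := Collapse.subset h'
  have ne : τ ≠ σ := fun k => by rw [k] at c2; omega
  have mem : ∀ s, s ∈ A.faces \ K.faces ↔ s = τ ∨ s = σ ∨ s ∈ B.faces \ K.faces := fun s => by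
    simp only [e, mem_sdiff, mem_insert]
    constructor
    · tauto
    · rintro (rfl | rfl | k)
      exacts [⟨Or.inl rfl, fun k => n2 (sub k)⟩, ⟨Or.inr (Or.inl rfl), fun k => n1 (sub k)⟩,
        ⟨Or.inr (Or.inr k.1), k.2⟩]
  have old : ∀ s ∈ B.faces \ K.faces, s ≠ τ ∧ s ≠ σ := fun s k =>
    ⟨fun e => n2 (e ▸ (mem_sdiff.1 k).1), fun e => n1 (e ▸ (mem_sdiff.1 k).1)⟩
  have lt : ∀ s ∈ B.faces \ K.faces, r s < B.faces.sup r + 1 := fun s k =>
    Nat.lt_succ_of_le (le_sup (f := r) (mem_sdiff.1 k).1)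
  refine ⟨fun s => if s = τ then σ else if s = σ then τ else m s,
    fun s => if s = τ ∨ s = σ then B.faces.sup r + 1 else r s, fun s k => ?_,
    fun s k t k' a1 a2 a3 => ?_⟩
  · rcases (mem s).1 k with rfl | rfl | k
    · simp [mem, ne.symm, c1, c2]
    · simp [mem, ne.symm, c1, c2]
    · obtain ⟨b1, b2, b3⟩ := h1 s k
      simp only [old s k, old _ b1, if_false, or_self, b2]
      exact ⟨(mem _).2 (Or.inr (Or.inr b1)), trivial, b3⟩
  · rcases (mem s).1 k with rfl | rfl | k
    · rcases (mem t).1 k' with rfl | rfl | k'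
      · omega
      · simp at a3
      · simp only [old t k', true_or, if_true, or_self, if_false]
        exact lt t k'
    · rcases (mem t).1 k' with rfl | rfl | k'
      · omega
      · omega
      · simp only [old t k', or_true, if_true, or_self, if_false]
        exact lt t k'
    · have kt : t ∈ B.faces \ K.faces := mem_sdiff.2
        ⟨B.down s (mem_sdiff.1 k).1 t a1 (A.ne t (mem_sdiff.1 k').1), (mem_sdiff.1 k').2⟩
      simp only [old s k, old t kt, if_false, or_self] at a3 ⊢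
      exact h2 s k t kt a1 a2 a3

theorem chi_map {f : V → W} {K : SC V} (hf : Set.InjOn f K.verts) : (K.map f).chi = K.chi := by
  have sub : ∀ s ∈ K.faces, (s : Set V) ⊆ K.verts := fun s hs v hv => mem_verts_of_mem hs hv
  unfold chi map
  rw [sum_image fun s hs t ht e => ?_]
  · exact sum_congr rfl fun s hs => by rw [card_image_of_injOn (hf.mono (sub s hs))]
  · have := congrArg (fun u : Finset W => (u : Set W)) e
    simp only [coe_image] at this
    exact coe_injective ((hf.image_eq_image_iff (sub s hs) (sub t ht)).1 this)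

theorem DimLE.map {f : V → W} {K : SC V} {n : ℕ} (h : K.DimLE n) : (K.map f).DimLE n := by
  intro s hs
  obtain ⟨t, ht, rfl⟩ := mem_map.1 hs
  exact card_image_le.trans (h t ht)

/-- Matchings given by toggling one vertex. -/
theorem match_toggle (S : Finset (Finset V)) (c : Finset V → V) (lev : Finset V → ℕ)
    (ha : ∀ s ∈ S, ∀ t, t.erase (c s) = s.erase (c s) → t ∈ S ∧ c t = c s ∧ lev t = lev s)
    (hb : ∀ s ∈ S, ∀ t ∈ S, t ⊆ s → (c t = c s ∧ lev t = lev s) ∨ lev t < lev s) :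
    ∃ m r, Matching S m r := by
  refine ⟨fun s => if c s ∈ s then s.erase (c s) else insert (c s) s,
    fun s => lev s * (S.sup card + 1) + (s.erase (c s)).card, fun s hs => ?_,
    fun s hs t ht a1 a2 a3 => ?_⟩
  · by_cases k : c s ∈ s
    · obtain ⟨b1, b2, b3⟩ := ha s hs (s.erase (c s)) (erase_idem)
      simp only [if_pos k, b2, b3, notMem_erase, if_false, insert_erase k, erase_idem]
      exact ⟨b1, trivial, trivial, Or.inl ⟨erase_subset _ _, (card_erase_add_one k).symm⟩⟩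
    · obtain ⟨b1, b2, b3⟩ := ha s hs (insert (c s) s) (erase_insert_eq_erase _ _)
      simp only [if_neg k, b2, b3, mem_insert_self, if_true, erase_insert k, erase_eq_of_notMem k]
      exact ⟨b1, trivial, trivial, Or.inr ⟨subset_insert _ _, card_insert_of_notMem k⟩⟩
  · rcases hb s hs t ht a1 with ⟨b1, b2⟩ | b
    · simp only [b1, b2, add_lt_add_iff_left]
      refine card_lt_card ((erase_subset_erase _ a1).ssubset_of_ne fun e => ?_)
      by_cases k : c s ∈ s
      · simp only [if_pos k] at a3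
        by_cases k' : c s ∈ t
        · have := card_erase_add_one k'
          rw [e, card_erase_add_one k] at this
          omega
        · exact a3 (by rw [← e, erase_eq_of_notMem k'])
      · rw [erase_eq_of_notMem k, erase_eq_of_notMem fun k' => k (a1 k')] at e
        rw [e] at a2
        omega
    · have : (t.erase (c t)).card ≤ S.sup card := card_erase_le.trans (le_sup (f := card) ht)
      have := Nat.mul_le_mul_right (S.sup card + 1) (Nat.succ_le_of_lt b)
      rw [Nat.succ_mul] at this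
      simp only
      omega

/-- The faces of the mapping cylinder. -/
def matchP (M K : SC V) (U : V → Prop) (s : Finset (V ⊕ Option (Finset V))) : Prop :=
  s.Nonempty ∧ (s.toLeft = ∅ ∨ s.toLeft ∈ K.faces) ∧ none ∉ s.toRight ∧
    (∀ τ, some τ ∈ s.toRight → τ ∈ M.faces ∧ (∃ v ∈ τ, U v) ∧ s.toLeft ⊆ τ) ∧
    ∀ τ τ', some τ ∈ s.toRight → some τ' ∈ s.toRight → τ ⊆ τ' ∨ τ' ⊆ τ

omit [DecidableEq V] in
theorem matchP_down {M K : SC V} {U : V → Prop} {s t : Finset (V ⊕ Option (Finset V))}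
    (h : matchP M K U s) (hts : t ⊆ s) (ht : t.Nonempty) : matchP M K U t := by
  obtain ⟨-, h2, h3, h4, h5⟩ := h
  have l := toLeft_subset_toLeft hts
  have r := toRight_subset_toRight hts
  refine ⟨ht, ?_, fun k => h3 (r k), fun τ k => ?_, fun τ τ' k k' => h5 τ τ' (r k) (r k')⟩
  · rcases t.toLeft.eq_empty_or_nonempty with e | e
    · exact Or.inl e
    · rcases h2 with h2 | h2
      · exact Or.inl (subset_empty.1 (h2 ▸ l))
      · exact Or.inr (K.down _ h2 _ l e)
  · exact ⟨(h4 τ (r k)).1, (h4 τ (r k)).2.1, l.trans (h4 τ (r k)).2.2⟩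

theorem match_exists_W (M K : SC V) (U : V → Prop) :
    ∃ W : SC (V ⊕ Option (Finset V)), ∀ s, s ∈ W.faces ↔ matchP M K U s := by
  classical
  have mem : ∀ s, s ∈ ((K.faces.biUnion id).disjSum (M.faces.image some)).powerset.filter
      (matchP M K U) ↔ matchP M K U s := fun s => by
    rw [mem_filter, and_iff_right_iff_imp, mem_powerset, subset_disjSum]
    rintro ⟨-, h2, h3, h4, -⟩
    refine ⟨?_, fun a ha => ?_⟩
    · rcases h2 with h2 | h2
      · exact h2 ▸ empty_subset _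
      · exact subset_biUnion_of_mem id h2
    · cases a with
      | none => exact absurd ha h3
      | some τ => exact mem_image_of_mem _ (h4 τ ha).1
  exact ⟨⟨_, fun s hs => ((mem s).1 hs).1,
    fun s hs t hts ht => (mem t).2 (matchP_down ((mem s).1 hs) hts ht)⟩, mem⟩

theorem match_mem_inl {α β : Type} [DecidableEq α] [DecidableEq β] {K : SC α}
    {s : Finset (α ⊕ β)} : s ∈ (K.map Sum.inl).faces ↔ s.toLeft ∈ K.faces ∧ s.toRight = ∅ := by
  rw [mem_map]
  constructor
  · rintro ⟨t, ht, rfl⟩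
    refine ⟨?_, by ext; simp⟩
    rwa [show (t.image (Sum.inl : α → α ⊕ β)).toLeft = t by ext; simp]
  · refine fun h => ⟨_, h.1, ?_⟩
    ext (a | b)
    · simp
    · simpa using fun k => notMem_empty b (h.2 ▸ mem_toRight.2 k)

theorem match_mem_inr {α β : Type} [DecidableEq α] [DecidableEq β] {K : SC β}
    {s : Finset (α ⊕ β)} : s ∈ (K.map Sum.inr).faces ↔ s.toRight ∈ K.faces ∧ s.toLeft = ∅ := by
  rw [mem_map]
  constructor
  · rintro ⟨t, ht, rfl⟩
    refine ⟨?_, by ext; simp⟩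
    rwa [show (t.image (Sum.inr : β → α ⊕ β)).toRight = t by ext; simp]
  · refine fun h => ⟨_, h.1, ?_⟩
    ext (a | b)
    · simpa using fun k => notMem_empty a (h.2 ▸ mem_toLeft.2 k)
    · simp

theorem match_mem_NC {M : SC V} {U : V → Prop} {θ : Finset (Option (Finset V))} :
    θ ∈ (NC M U).faces ↔ θ.Nonempty ∧ none ∉ θ ∧ (∀ τ, some τ ∈ θ → τ ∈ M.faces ∧ ∃ v ∈ τ, U v) ∧
      ∀ τ τ', some τ ∈ θ → some τ' ∈ θ → τ ⊆ τ' ∨ τ' ⊆ τ := by
  unfold NC
  rw [mem_del, mem_XC, singleton_subset_iff]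
  exact ⟨fun h => ⟨h.1.1, h.2, h.1.2.1, h.1.2.2.1⟩,
    fun h => ⟨⟨h.1, h.2.2.1, h.2.2.2, fun k => absurd k h.2.1⟩, h.2.1⟩⟩

theorem match_ne {α β : Type} {s : Finset (α ⊕ β)} :
    s.Nonempty ↔ s.toLeft.Nonempty ∨ s.toRight.Nonempty := by
  constructor
  · rintro ⟨a | b, h⟩
    exacts [Or.inl ⟨a, mem_toLeft.2 h⟩, Or.inr ⟨b, mem_toRight.2 h⟩]
  · rintro (⟨a, h⟩ | ⟨b, h⟩)
    exacts [⟨_, mem_toLeft.1 h⟩, ⟨_, mem_toRight.1 h⟩]

theorem match_left {M K : SC V} {U : V → Prop} (h : Full M U K) {W : SC (V ⊕ Option (Finset V))}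
    (hW : ∀ s, s ∈ W.faces ↔ matchP M K U s) : Collapse W (K.map Sum.inl) := by
  have mem : ∀ s, s ∈ W.faces \ (K.map Sum.inl).faces ↔
      matchP M K U s ∧ s.toRight.Nonempty := fun s => by
    rw [mem_sdiff, hW, match_mem_inl, and_congr_right_iff, nonempty_iff_ne_empty]
    refine fun k => ⟨fun a e => a ⟨?_, e⟩, fun a b => a b.2⟩
    rcases k.2.1 with c | c
    · have := match_ne.1 k.1
      simp [c, e] at this
    · exact c
  have hlow : ∀ θ : Finset (Option (Finset V)), ∃ τ : Finset V, θ.Nonempty → none ∉ θ →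
      (∀ τ τ', some τ ∈ θ → some τ' ∈ θ → τ ⊆ τ' ∨ τ' ⊆ τ) →
      some τ ∈ θ ∧ ∀ τ', some τ' ∈ θ → τ ⊆ τ' := by
    intro θ
    rcases θ.eq_empty_or_nonempty with e | e
    · exact ⟨∅, fun k => absurd e k.ne_empty⟩
    obtain ⟨x, x1, x2⟩ := exists_min_image θ (fun x => (x.getD ∅).card) e
    cases x with
    | none => exact ⟨∅, fun _ k => absurd x1 k⟩
    | some τ =>
      refine ⟨τ, fun _ _ k => ⟨x1, fun τ' k' => ?_⟩⟩
      rcases k τ τ' x1 k' with c | c
      exacts [c, (eq_of_subset_of_card_le c (x2 _ k')).ge]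
  choose low hlow using hlow
  have hpick : ∀ τ : Finset V, ∃ x : V ⊕ Option (Finset V),
      (∃ v ∈ τ, U v) → ∃ a ∈ τ, U a ∧ x = Sum.inl a := by
    intro τ
    by_cases k : ∃ v ∈ τ, U v
    · obtain ⟨a, a1, a2⟩ := k
      exact ⟨_, fun _ => ⟨a, a1, a2, rfl⟩⟩
    · exact ⟨Sum.inr none, fun k' => absurd k' k⟩
  choose pick hpick using hpick
  refine Exists.elim (match_toggle (W.faces \ (K.map Sum.inl).faces)
    (fun s => pick (low s.toRight)) (fun s => M.faces.sup card - (low s.toRight).card)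
    (fun s hs t e => ?_) fun s hs t ht a => ?_) fun m ⟨r, hm⟩ => ?_
  rotate_right
  · refine collapse_of_matching (fun s k => (hW s).2 ?_) hm
    obtain ⟨k1, k2⟩ := match_mem_inl.1 k
    exact ⟨(K.map Sum.inl).ne s k, Or.inr k1, by simp [k2], by simp [k2], by simp [k2]⟩
  · obtain ⟨⟨-, h2, h3, h4, h5⟩, h6⟩ := (mem s).1 hs
    obtain ⟨l1, l2⟩ := hlow _ h6 h3 h5
    obtain ⟨a, a1, a2, a3⟩ := hpick _ (h4 _ l1).2.1
    simp only [a3] at e
    have eR : t.toRight = s.toRight := by
      ext b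
      simpa using Finset.ext_iff.1 e (Sum.inr b)
    have eL : t.toLeft ⊆ insert a s.toLeft := by
      intro v hv
      have := Finset.ext_iff.1 e (Sum.inl v)
      simp only [mem_erase, ne_eq, Sum.inl.injEq, mem_toLeft.1 hv, and_true] at this
      rw [mem_insert, mem_toLeft]
      tauto
    have sub : ∀ τ, some τ ∈ s.toRight → t.toLeft ⊆ τ := fun τ k =>
      eL.trans (insert_subset (l2 τ k a1) (h4 τ k).2.2)
    simp only [eR, and_true]
    refine (mem t).2 ⟨⟨match_ne.2 (Or.inr (eR ▸ h6)), ?_, eR ▸ h3, ?_, eR ▸ h5⟩, eR ▸ h6⟩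
    · rcases t.toLeft.eq_empty_or_nonempty with c | c
      · exact Or.inl c
      refine Or.inr ((h _).2 ⟨M.down _ (h4 _ l1).1 _ (sub _ l1) c, fun v hv => ?_⟩)
      rcases mem_insert.1 (eL hv) with rfl | k
      · exact a2
      rcases h2 with h2 | h2
      · exact absurd (h2 ▸ k) (notMem_empty _)
      · exact ((h _).1 h2).2 v k
    · rw [eR]
      exact fun τ k => ⟨(h4 τ k).1, (h4 τ k).2.1, sub τ k⟩
  · obtain ⟨⟨-, -, h3, -, h5⟩, h6⟩ := (mem s).1 hs
    obtain ⟨⟨-, -, k3, k4, k5⟩, k6⟩ := (mem t).1 ht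
    have l1 := (hlow _ k6 k3 k5).1
    have l2 := (hlow _ h6 h3 h5).2 _ (toRight_subset_toRight a l1)
    rcases l2.eq_or_ssubset with e | e
    · exact Or.inl (by simp only [e, and_self])
    · have := card_lt_card e
      have : (low t.toRight).card ≤ M.faces.sup card := le_sup (f := card) (k4 _ l1).1
      exact Or.inr (by omega)

theorem match_right {M K : SC V} {U : V → Prop} (h : Full M U K) {W : SC (V ⊕ Option (Finset V))}
    (hW : ∀ s, s ∈ W.faces ↔ matchP M K U s) : Collapse W ((NC M U).map Sum.inr) := by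
  have mem : ∀ s, s ∈ W.faces \ ((NC M U).map Sum.inr).faces ↔
      matchP M K U s ∧ s.toLeft.Nonempty := fun s => by
    rw [mem_sdiff, hW, match_mem_inr, and_congr_right_iff, nonempty_iff_ne_empty]
    refine fun k => ⟨fun a e => a ⟨match_mem_NC.2 ⟨?_, k.2.2.1, fun τ c =>
      ⟨(k.2.2.2.1 τ c).1, (k.2.2.2.1 τ c).2.1⟩, k.2.2.2.2⟩, e⟩, fun a b => a b.2⟩
    simpa [e] using match_ne.1 k.1
  refine Exists.elim (match_toggle (W.faces \ ((NC M U).map Sum.inr).faces)
    (fun s => Sum.inr (some s.toLeft)) (fun s => s.toLeft.card)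
    (fun s hs t e => ?_) fun s hs t ht a => ?_) fun m ⟨r, hm⟩ => ?_
  rotate_right
  · refine collapse_of_matching (fun s k => (hW s).2 ?_) hm
    obtain ⟨k1, k2⟩ := match_mem_inr.1 k
    obtain ⟨c1, c2, c3, c4⟩ := match_mem_NC.1 k1
    exact ⟨match_ne.2 (Or.inr c1), Or.inl k2, c2,
      fun τ c => ⟨(c3 τ c).1, (c3 τ c).2, k2 ▸ empty_subset _⟩, c4⟩
  · obtain ⟨⟨-, h2, h3, h4, h5⟩, h6⟩ := (mem s).1 hs
    have hK := (h _).1 (h2.resolve_left h6.ne_empty)
    have eL : t.toLeft = s.toLeft := by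
      ext b
      simpa using Finset.ext_iff.1 e (Sum.inl b)
    have eR : ∀ x ∈ t.toRight, x = some s.toLeft ∨ x ∈ s.toRight := by
      intro v hv
      have := Finset.ext_iff.1 e (Sum.inr v)
      simp only [mem_erase, ne_eq, Sum.inr.injEq, mem_toRight.1 hv, and_true] at this
      rw [mem_toRight]
      tauto
    simp only [eL, and_true]
    refine (mem t).2 ⟨⟨match_ne.2 (Or.inl (eL ▸ h6)), eL ▸ h2, fun k => ?_, fun τ k => ?_,
      fun τ τ' k k' => ?_⟩, eL ▸ h6⟩
    · rcases eR _ k with c | c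
      · cases c
      · exact h3 c
    · rw [eL]
      rcases eR _ k with c | c
      · cases c
        exact ⟨hK.1, ⟨_, h6.choose_spec, hK.2 _ h6.choose_spec⟩, Subset.rfl⟩
      · exact h4 τ c
    · rcases eR _ k with c | c
      · cases c
        rcases eR _ k' with c' | c'
        · cases c'
          exact Or.inl Subset.rfl
        · exact Or.inl (h4 _ c').2.2
      · rcases eR _ k' with c' | c'
        · cases c'
          exact Or.inr (h4 _ c).2.2
        · exact h5 _ _ c c'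
  · rcases (toLeft_subset_toLeft a).eq_or_ssubset with e | e
    · exact Or.inl (by simp only [e, and_self])
    · exact Or.inr (card_lt_card e)

theorem exists_cyl {M K : SC V} {U : V → Prop} (h : Full M U K) :
    ∃ W : SC (V ⊕ Option (Finset V)),
      Collapse W (K.map Sum.inl) ∧ Collapse W ((NC M U).map Sum.inr) := by
  obtain ⟨W, hW⟩ := match_exists_W M K U
  exact ⟨W, match_left h hW, match_right h hW⟩

end SC
end MP35
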