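import Pool.Agent.Lib.MP_35c604_gt.PtolA
import Pool.Agent.Lib.MP_35c604_gt.Basic

/-! TASK PT3: the big complex has trivial torsion. -/

namespace MP35

open Matrix SC

variable {V : Type} [DecidableEq V] {T : Type} [CommRing T] {G : Type} [Group G]

theorem ptolc_blk {Tt F : Type} [DecidableEq Tt] [DecidableEq F] (β : Tt × Fin 2 ≃ F)
    (R : Tt → Matrix (Fin 2) (Fin 2) T) (x : Tt × Fin 2) (f : F) :
    blk β R x f = ∑ k, if f = β (x.1, k) then R x.1 x.2 k else 0 := by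
  obtain ⟨⟨t, k⟩, rfl⟩ := β.surjective f
  simp only [blk, Equiv.symm_apply_apply, EmbeddingLike.apply_eq_iff_eq, Prod.mk.injEq]
  by_cases h : t = x.1
  · simp [h]
  · simp [h]

theorem ptolc_cls [Nice T] {a : ℤ} (h : a = 1 ∨ a = -1) : IsUnit (a : T) ∧ cls (a : T) = 1 := by
  rcases h with rfl | rfl
  · simpa using cls_one
  · refine ⟨by simp, ?_⟩
    rw [Int.cast_neg, Int.cast_one, cls_neg, cls_one]

/-- Position of the vertex omitted by the `k`-th positive face. -/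
def ptolc_ix (z : Finset V → ℤ) (t : Finset V) (k : Fin 2) : ℕ :=
  2 * k.1 + if z t = 1 then 0 else 1

omit [DecidableEq V] in
theorem ptolc_ix_lt (z : Finset V → ℤ) (t : Finset V) (k : Fin 2) : ptolc_ix z t k < 4 := by
  have := k.2
  unfold ptolc_ix
  split_ifs <;> omega

theorem ptolc_two {X : SC V} (ht : X.Thin) (o : V → ℕ) (z : Finset V → ℤ) {f : Finset V}
    (hf : f ∈ X.faces) (h3 : f.card = 3) (hz2 : ∑ t ∈ X.faces, z t * inc o t f = 0) :
    ∃ t₁ t₂, t₁ ≠ t₂ ∧ z t₁ * inc o t₁ f + z t₂ * inc o t₂ f = 0 ∧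
      ∀ t, (t ∈ X.faces ∧ f ⊆ t ∧ t.card = 4) ↔ (t = t₁ ∨ t = t₂) := by
  obtain ⟨t₁, t₂, hne, hS⟩ := Finset.card_eq_two.1 (ht f hf h3)
  refine ⟨t₁, t₂, hne, ?_, fun t => ?_⟩
  · rw [← Finset.sum_pair (f := fun t => z t * inc o t f) hne, ← hS, Finset.sum_filter_of_ne, hz2]
    intro t _ h
    exact inc_ne_zero_iff.1 (right_ne_zero_of_mul h)
  · have := Finset.ext_iff.1 hS t
    simpa [h3] using this

namespace PD

variable {ρ : G →* Matrix (Fin 2) (Fin 2) T} {X : SC V} (D : PD ρ X)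

theorem ptolc_n_inj (s : X.faces) {i j : ℕ} (hi : i < s.1.card) (hj : j < s.1.card)
    (h : s.1.erase (D.n s i) = s.1.erase (D.n s j)) : i = j := by
  rw [Finset.erase_inj _ (D.n_mem s i)] at h
  rw [← D.pos_n s hi, h, D.pos_n s hj]

theorem ptolc_inc (s : X.faces) {i : ℕ} (hi : i < s.1.card) :
    inc D.o s.1 (s.1.erase (D.n s i)) = (-1) ^ i := by
  rw [inc_erase _ (D.n_mem s i), D.pos_n s hi]

/-- The positive faces of a tetrahedron. -/
noncomputable def ptolc_b (z : Finset V → ℤ) (x : Tx X × Fin 2) : Fx X :=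
  ⟨⟨x.1.1.1.erase (D.n x.1.1 (ptolc_ix z x.1.1.1 x.2)),
    X.down _ x.1.1.2 _ (Finset.erase_subset _ _) (by
      rw [← Finset.card_pos, Finset.card_erase_of_mem (D.n_mem _ _), x.1.2]; norm_num)⟩,
    by rw [Finset.card_erase_of_mem (D.n_mem _ _), x.1.2]⟩

theorem ptolc_b_sign {z : Finset V → ℤ} (hz1 : ∀ t ∈ X.faces, t.card = 4 → z t = 1 ∨ z t = -1)
    (x : Tx X × Fin 2) : z x.1.1.1 * inc D.o x.1.1.1 (D.ptolc_b z x).1.1 = 1 := by
  change z _ * inc D.o _ (x.1.1.1.erase _) = 1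
  rw [D.ptolc_inc _ (by rw [x.1.2]; exact ptolc_ix_lt _ _ _), ptolc_ix]
  rcases hz1 _ x.1.1.2 x.1.2 with h | h <;> simp [h, pow_add, pow_mul]

theorem ptolc_b_bij (ht : X.Thin) {z : Finset V → ℤ}
    (hz1 : ∀ t ∈ X.faces, t.card = 4 → z t = 1 ∨ z t = -1)
    (hz2 : ∀ f ∈ X.faces, f.card = 3 → ∑ t ∈ X.faces, z t * inc D.o t f = 0) :
    Function.Bijective (D.ptolc_b z) := by
  constructor
  · rintro ⟨t, k⟩ ⟨t', k'⟩ h
    have s1 := D.ptolc_b_sign hz1 (t, k)
    have s2 := D.ptolc_b_sign hz1 (t', k')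
    have u1 : (D.ptolc_b z (t, k)).1.1 ⊆ t.1.1 := Finset.erase_subset _ _
    have u2 : (D.ptolc_b z (t', k')).1.1 ⊆ t'.1.1 := Finset.erase_subset _ _
    rw [← h] at s2 u2
    obtain ⟨t₁, t₂, hne, hs, hc⟩ := ptolc_two ht D.o z (D.ptolc_b z (t, k)).1.2
      (D.ptolc_b z (t, k)).2 (hz2 _ (D.ptolc_b z (t, k)).1.2 (D.ptolc_b z (t, k)).2)
    have c1 := (hc t.1.1).1 ⟨t.1.2, u1, t.2⟩
    have c2 := (hc t'.1.1).1 ⟨t'.1.2, u2, t'.2⟩
    have e : t = t' := by
      apply Subtype.ext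
      apply Subtype.ext
      simp only at s1 s2
      rcases c1 with c1 | c1 <;> rcases c2 with c2 | c2
      · rw [c1, c2]
      · rw [c1] at s1; rw [c2] at s2; omega
      · rw [c1] at s1; rw [c2] at s2; omega
      · rw [c1, c2]
    subst e
    have h' := congrArg (fun f : Fx X => f.1.1) h
    have := D.ptolc_n_inj t.1 (by rw [t.2]; exact ptolc_ix_lt _ _ _)
      (by rw [t.2]; exact ptolc_ix_lt _ _ _) h'
    simp only [ptolc_ix] at this
    exact Prod.ext rfl (Fin.ext (by simp only; omega))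
  · intro f
    obtain ⟨t₁, t₂, hne, hs, hc⟩ := ptolc_two ht D.o z f.1.2 f.2 (hz2 _ f.1.2 f.2)
    have key : ∃ t, (t ∈ X.faces ∧ f.1.1 ⊆ t ∧ t.card = 4) ∧ z t * inc D.o t f.1.1 = 1 := by
      obtain ⟨a1, a2, a3⟩ := (hc t₁).2 (Or.inl rfl)
      rcases hz1 _ a1 a3 with h | h <;>
        rcases inc_eq_or (o := D.o) a2 (by rw [a3, f.2]) with h' | h'
      · exact ⟨t₁, ⟨a1, a2, a3⟩, by rw [h, h']; rfl⟩
      · exact ⟨t₂, (hc t₂).2 (Or.inr rfl), by rw [h, h'] at hs; omega⟩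
      · exact ⟨t₂, (hc t₂).2 (Or.inr rfl), by rw [h, h'] at hs; omega⟩
      · exact ⟨t₁, ⟨a1, a2, a3⟩, by rw [h, h']; rfl⟩
    obtain ⟨t, ⟨a1, a2, a3⟩, h1⟩ := key
    obtain ⟨w, hw, hf⟩ := inc_ne_zero (right_ne_zero_of_mul (h1.trans_ne one_ne_zero))
    have p1 := D.pos_lt t hw
    have p2 := D.n_pos ⟨t, a1⟩ hw
    rw [hf, inc_erase _ hw] at h1
    rw [a3] at p1
    refine ⟨(⟨⟨t, a1⟩, a3⟩, ⟨pos D.o t w / 2, by omega⟩), Subtype.ext (Subtype.ext ?_)⟩
    rw [hf]
    change t.erase (D.n ⟨t, a1⟩ (ptolc_ix z t _)) = _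
    have : ptolc_ix z t ⟨pos D.o t w / 2, by omega⟩ = pos D.o t w := by
      simp only [ptolc_ix]
      generalize pos D.o t w = j at *
      rcases hz1 _ a1 a3 with h | h <;> rw [h] at h1 ⊢ <;> interval_cases j <;> simp at h1 ⊢
    rw [this]
    exact congrArg _ p2

theorem ptolc_B {z : Finset V → ℤ} (hz1 : ∀ t ∈ X.faces, t.card = 4 → z t = 1 ∨ z t = -1)
    (t : Tx X) (i : Fin 2) (f : Fx X) :
    (z t.1.1 : T) * (inc D.o t.1.1 f.1.1 * D.co t.1 f.1.1 i) =
      (∑ k, if f = D.ptolc_b z (t, k) then (if z t.1.1 = 1 then 1 else D.rotM t.1) i k else 0) -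
      ∑ k, if f = D.ptolc_b (-z) (t, k) then (if z t.1.1 = 1 then D.rotM t.1 else 1) i k
        else 0 := by
  have e : ∀ z' k, f = D.ptolc_b z' (t, k) ↔
      f.1.1 = t.1.1.erase (D.n t.1 (ptolc_ix z' t.1.1 k)) := fun z' k =>
    ⟨fun h => congrArg (fun f : Fx X => f.1.1) h, fun h => Subtype.ext (Subtype.ext h)⟩
  simp only [e]
  have inj : ∀ i j, i < 4 → j < 4 →
      (t.1.1.erase (D.n t.1 i) = t.1.1.erase (D.n t.1 j) ↔ i = j) := fun i j hi hj =>
    ⟨D.ptolc_n_inj t.1 (by rwa [t.2]) (by rwa [t.2]), fun h => by rw [h]⟩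
  by_cases h : ∃ j < 4, f.1.1 = t.1.1.erase (D.n t.1 j)
  · obtain ⟨j, hj, hf⟩ := h
    rw [hf, D.ptolc_inc _ (by rwa [t.2])]
    simp only [inj j _ hj (ptolc_ix_lt _ _ _)]
    have c0 := D.co_0 t.1
    have c1 := D.co_1 t.1 t.2
    have c2 := D.co_2 t.1 t.2
    have c3 := D.co_3 t.1 t.2
    have hi : i = 0 ∨ i = 1 := by omega
    rcases hz1 _ t.1.2 t.2 with h | h <;> interval_cases j <;> rcases hi with rfl | rfl <;>
      simp [ptolc_ix, h, c0, c1, c2, c3, Fin.sum_univ_two]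
  · have h0 : inc D.o t.1.1 f.1.1 = 0 := by
      by_contra h0
      obtain ⟨w, hw, hf⟩ := inc_ne_zero h0
      refine h ⟨pos D.o t.1.1 w, (D.pos_lt _ hw).trans_eq t.2, ?_⟩
      rw [D.n_pos t.1 hw, hf]
    have h1 : ∀ z' k, ¬ f.1.1 = t.1.1.erase (D.n t.1 (ptolc_ix z' t.1.1 k)) := fun z' k h' =>
      h ⟨_, ptolc_ix_lt _ _ _, h'⟩
    simp [h0, h1]

theorem ptolc_eta {z : Finset V → ℤ} (t : Tx X) (i : Fin 2) (v : V) :
    ∑ k, D.a (D.ptolc_b z (t, k)).1.1 v * (if z t.1.1 = 1 then 1 else D.rotM t.1) i k =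
      D.a (D.bf t.1 i) v := by
  change ∑ k, D.a (t.1.1.erase (D.n t.1 (ptolc_ix z t.1.1 k))) v * _ = _
  by_cases h : z t.1.1 = 1
  · have hi : i = 0 ∨ i = 1 := by omega
    rcases hi with rfl | rfl <;> simp [ptolc_ix, h, bf, Fin.sum_univ_two]
  · have c1 := D.co_spec t.1 t.2 (D.n_mem t.1 1) v
    have c3 := D.co_spec t.1 t.2 (D.n_mem t.1 3) v
    rw [D.co_1 t.1 t.2] at c1
    rw [D.co_3 t.1 t.2] at c3
    have s := D.cs_sq_add t.1 t.2
    simp only [ptolc_ix, h, if_false, Fin.sum_univ_two, Fin.val_zero, Fin.val_one, mul_zero,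
      zero_add, mul_one] at c1 c3 ⊢
    rw [c1, c3]
    fin_cases i
    · simp [rotM]
      linear_combination D.a (D.bf t.1 0) v * s
    · simp [rotM]
      linear_combination D.a (D.bf t.1 1) v * s

/-- The vertex of a vertex face. -/
noncomputable def ptolc_v (x : Vx X) : V := D.n x.1 0

theorem ptolc_v_eq (x : Vx X) : x.1.1 = {D.ptolc_v x} := by
  obtain ⟨a, ha⟩ := Finset.card_eq_one.1 x.2
  have := D.n_mem x.1 0
  rw [ha, Finset.mem_singleton] at this
  rw [ha, ptolc_v, this]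

theorem ptolc_v_mem (x : Vx X) : D.ptolc_v x ∈ X.verts := by
  rw [mem_verts, ← D.ptolc_v_eq]; exact x.1.2

theorem ptolc_av (f : Finset V) (x : Vx X) : D.av f x.1.1 = D.a f (D.ptolc_v x) := by
  rw [av, D.ptolc_v_eq, Finset.sum_singleton]

theorem ptolc_Ycol (hd : X.DimLE 3) (i : YI X) (s : Fl X) (h4 : s.1.1.1.card = 4) :
    D.Y i (.inr (.inr s)) = 0 := by
  rcases i with (x | f) | t | s'
  · rfl
  · rfl
  · rfl
  · change (if s'.1.2 = s.1.2 then ((inc D.o s'.1.1.1 s.1.1.1 : ℤ) : T) else 0) = 0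
    have : inc D.o s'.1.1.1 s.1.1.1 = 0 := by
      by_contra h
      have h1 := (inc_ne_zero_iff.1 h).2
      have h2 := hd _ s'.1.1.2
      omega
    simp [this]

end PD

/-- The change of basis on flags. -/
def ptolc_gF (T : Type) [CommRing T] (X : SC V) (z : Finset V → ℤ) (tv : V → Finset V) :
    Matrix (Fl X) (Fl X) T := fun s s' =>
  if s.1.1.1 = tv s.1.2 then (if s'.1.2 = s.1.2 ∧ s'.1.1.1.card = 4 then (z s'.1.1.1 : T) else 0)
  else if s = s' then 1 else 0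

/-- The change of basis. -/
def ptolc_g (T : Type) [CommRing T] (X : SC V) (z : Finset V → ℤ) (tv : V → Finset V) :
    Matrix (YI X) (YI X) T :=
  fromBlocks 1 0 0 (fromBlocks (diagonal fun t => (z t.1.1.1 : T)) 0 0 (ptolc_gF T X z tv))

/-- The signs. -/
def ptolc_d (T : Type) [CommRing T] (X : SC V) (z : Finset V → ℤ) : YI X → T :=
  Sum.elim (fun _ => 1) (Sum.elim (fun t => (z t.1.1.1 : T)) fun _ => 1)

theorem ptolc_g_even {X : SC V} (z : Finset V → ℤ) {tv : V → Finset V}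
    (h4 : ∀ v ∈ X.verts, (tv v).card = 4) : IsEven (ypar X) (ptolc_g T X z tv) := by
  rintro (a | t | s) (b | t' | s') h
  · exact one_apply_ne (fun e => h (by rw [e]))
  · rfl
  · rfl
  · rfl
  · exact absurd rfl h
  · rfl
  · rfl
  · rfl
  · change ptolc_gF T X z tv s s' = 0
    change par s.1.1.1 ≠ par s'.1.1.1 at h
    unfold ptolc_gF
    split_ifs with h1 h2 h3
    · exfalso
      apply h
      have := h4 _ (mem_verts_of_mem s.1.1.2 s.2)
      rw [← h1] at this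
      simp [par, this, h2.2]
    · rfl
    · exact absurd (by rw [h3]) h
    · rfl

theorem ptolc_g_det [Nice T] {X : SC V} {z : Finset V → ℤ}
    (hz1 : ∀ t ∈ X.faces, t.card = 4 → z t = 1 ∨ z t = -1) {tv : V → Finset V}
    (h4 : ∀ v ∈ X.verts, (tv v).card = 4) :
    IsUnit (ptolc_g T X z tv).det ∧ cls (ptolc_g T X z tv).det = 1 := by
  rw [det_of_rank _ (Sum.elim (fun _ => 0) (Sum.elim (fun _ => 0)
    fun s => if s.1.1.1 = tv s.1.2 then 1 else 0))]
  · have key : ∀ i, IsUnit (ptolc_g T X z tv i i) ∧ cls (ptolc_g T X z tv i i) = 1 := by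
      rintro (a | t | s)
      · have : ptolc_g T X z tv (.inl a) (.inl a) = 1 := one_apply_eq a
        rw [this]
        exact ⟨isUnit_one, cls_one⟩
      · have : ptolc_g T X z tv (.inr (.inl t)) (.inr (.inl t)) = (z t.1.1.1 : T) := by
          simp [ptolc_g]
        rw [this]
        exact ptolc_cls (hz1 _ t.1.1.2 t.1.2)
      · change IsUnit (ptolc_gF T X z tv s s) ∧ cls (ptolc_gF T X z tv s s) = 1
        unfold ptolc_gF
        by_cases h1 : s.1.1.1 = tv s.1.2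
        · have := h4 _ (mem_verts_of_mem s.1.1.2 s.2)
          rw [← h1] at this
          rw [if_pos h1, if_pos ⟨rfl, this⟩]
          exact ptolc_cls (hz1 _ s.1.1.2 this)
        · rw [if_neg h1, if_pos rfl]
          exact ⟨isUnit_one, cls_one⟩
    refine ⟨IsUnit.prod_univ_iff.2 fun i => (key i).1, ?_⟩
    rw [cls_prod _ _ fun i _ => (key i).1]
    exact Finset.prod_eq_one fun i _ => (key i).2
  · rintro (a | t | s) (b | t' | s') h
    · left
      by_contra e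
      exact h (one_apply_ne fun e' => e (by rw [e']))
    · exact absurd rfl h
    · exact absurd rfl h
    · exact absurd rfl h
    · left
      by_contra e
      have e' : t ≠ t' := fun e' => e (by rw [e'])
      exact h (by simp [ptolc_g, e'])
    · exact absurd rfl h
    · exact absurd rfl h
    · exact absurd rfl h
    · change ptolc_gF T X z tv s s' ≠ 0 at h
      unfold ptolc_gF at h
      by_cases e : s = s'
      · left; rw [e]
      · right
        simp only [Sum.elim_inr]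
        by_cases h1 : s.1.1.1 = tv s.1.2
        · rw [if_pos h1] at h ⊢
          have h2 : s'.1.2 = s.1.2 := by
            by_contra h2
            exact h (if_neg fun h3 => h2 h3.1)
          rw [if_neg]
          · exact Nat.zero_lt_one
          · intro h3
            exact e (Subtype.ext (Prod.ext (Subtype.ext (by rw [h1, h3, h2])) h2.symm))
        · rw [if_neg h1, if_neg e] at h
          exact absurd rfl h

namespace PD

variable {ρ : G →* Matrix (Fin 2) (Fin 2) T} {X : SC V} (D : PD ρ X)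

theorem ptolc_conj (hd : X.DimLE 3) {z : Finset V → ℤ}
    (hz1 : ∀ t ∈ X.faces, t.card = 4 → z t = 1 ∨ z t = -1) {tv : V → Finset V}
    (h4 : ∀ v ∈ X.verts, (tv v).card = 4) :
    D.Y * (diagonal (ptolc_d T X z) * ptolc_g T X z tv) = D.Y := by
  ext i j
  conv_rhs => rw [← Matrix.mul_one D.Y]
  rw [mul_apply, mul_apply]
  refine Finset.sum_congr rfl fun k _ => ?_
  rw [diagonal_mul]
  rcases k with a | t | s
  · congr 1
    rcases j with b | t' | s' <;> simp [ptolc_d, ptolc_g, one_apply]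
  · congr 1
    have hz : (z t.1.1.1 : T) * z t.1.1.1 = 1 := by
      rcases hz1 _ t.1.1.2 t.1.2 with h | h <;> simp [h]
    rcases j with b | t' | s'
    · simp [ptolc_d, ptolc_g]
    · by_cases e : t = t'
      · subst e
        simp [ptolc_d, ptolc_g, hz]
      · simp [ptolc_d, ptolc_g, e]
    · simp [ptolc_d, ptolc_g]
  · by_cases h1 : s.1.1.1 = tv s.1.2
    · have := h4 _ (mem_verts_of_mem s.1.1.2 s.2)
      rw [← h1] at this
      rw [D.ptolc_Ycol hd i s this, zero_mul, zero_mul]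
    · congr 1
      rcases j with b | t' | s' <;> simp [ptolc_d, ptolc_g, ptolc_gF, h1, one_apply]

/-- The conjugated complex. -/
noncomputable def ptolc_Y (z : Finset V → ℤ) (tv : V → Finset V) : Matrix (YI X) (YI X) T :=
  ptolc_g T X z tv * D.Y * diagonal (ptolc_d T X z)

theorem ptolc_Y_inl (z : Finset V → ℤ) (tv : V → Finset V) (a : Vx X ⊕ Fx X) (j : YI X) :
    D.ptolc_Y z tv (.inl a) j = D.Y (.inl a) j * ptolc_d T X z j := by
  rw [ptolc_Y, mul_diagonal, mul_apply]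
  simp [ptolc_g, Fintype.sum_sum_type, one_apply]

theorem ptolc_Y_t (z : Finset V → ℤ) (tv : V → Finset V) (t : Tx X × Fin 2) (j : YI X) :
    D.ptolc_Y z tv (.inr (.inl t)) j = z t.1.1.1 * D.Y (.inr (.inl t)) j * ptolc_d T X z j := by
  rw [ptolc_Y, mul_diagonal, mul_apply]
  simp [ptolc_g, Fintype.sum_sum_type, diagonal_apply]

theorem ptolc_Y_fl (z : Finset V → ℤ) (tv : V → Finset V) (s : Fl X) (j : YI X) :
    D.ptolc_Y z tv (.inr (.inr s)) j =
      (∑ s', ptolc_gF T X z tv s s' * D.Y (.inr (.inr s')) j) * ptolc_d T X z j := by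
  rw [ptolc_Y, mul_diagonal, mul_apply]
  simp [ptolc_g, Fintype.sum_sum_type]

theorem ptolc_Y_nc (z : Finset V → ℤ) (tv : V → Finset V) (s : Fl X) (h : s.1.1.1 ≠ tv s.1.2)
    (j : YI X) :
    D.ptolc_Y z tv (.inr (.inr s)) j = D.Y (.inr (.inr s)) j * ptolc_d T X z j := by
  rw [ptolc_Y_fl]
  simp [ptolc_gF, h]

theorem ptolc_Y_c1 (z : Finset V → ℤ) (tv : V → Finset V) (s : Fl X) (h : s.1.1.1 = tv s.1.2)
    (a : Vx X ⊕ Fx X) : D.ptolc_Y z tv (.inr (.inr s)) (.inl a) = 0 := by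
  rw [ptolc_Y_fl, Finset.sum_eq_zero, zero_mul]
  intro s' _
  rw [ptolc_gF, if_pos h]
  split_ifs with h1
  · rcases a with x | f
    · change _ * ((inc D.o s'.1.1.1 x.1.1 : ℤ) * _ : T) = 0
      have : inc D.o s'.1.1.1 x.1.1 = 0 := by
        by_contra h2
        have h3 := (inc_ne_zero_iff.1 h2).2
        rw [h1.2, x.2] at h3
        omega
      simp [this]
    · change _ * (if s'.1.1 = f.1 then _ else 0 : T) = 0
      rw [if_neg, mul_zero]
      intro h2
      have h3 := h1.2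
      rw [h2, f.2] at h3
      omega
  · exact zero_mul _

theorem ptolc_Y_c2 {z : Finset V → ℤ} (hz1 : ∀ t ∈ X.faces, t.card = 4 → z t = 1 ∨ z t = -1)
    (tv : V → Finset V) (s : Fl X) (h : s.1.1.1 = tv s.1.2) (t : Tx X × Fin 2) :
    D.ptolc_Y z tv (.inr (.inr s)) (.inr (.inl t)) = D.a (D.bf t.1.1 t.2) s.1.2 := by
  rw [ptolc_Y_fl]
  have e : ∀ s' : Fl X, ptolc_gF T X z tv s s' * D.Y (.inr (.inr s')) (.inr (.inl t)) =
      (fun (u : X.faces) (v : V) => if u = t.1.1 then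
        (if v = s.1.2 then (z t.1.1.1 : T) * D.a (D.bf t.1.1 t.2) s.1.2 else 0) else 0)
        s'.1.1 s'.1.2 := by
    intro s'
    change _ * (if s'.1.1 = t.1.1 then D.a (D.bf t.1.1 t.2) s'.1.2 else 0) = _
    rw [ptolc_gF, if_pos h]
    by_cases h1 : s'.1.1 = t.1.1
    · by_cases h2 : s'.1.2 = s.1.2
      · simp [h1, h2, t.1.2]
      · simp [h2]
    · simp [h1]
  simp only [e]
  rw [sum_Fl (fun (u : X.faces) (v : V) => if u = t.1.1 then
    (if v = s.1.2 then (z t.1.1.1 : T) * D.a (D.bf t.1.1 t.2) s.1.2 else 0) else 0),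
    Finset.sum_eq_single t.1.1 (fun u _ hu => by simp [hu]) (by simp)]
  have hz : (z t.1.1.1 : T) * z t.1.1.1 = 1 := by
    rcases hz1 _ t.1.1.2 t.1.2 with h | h <;> simp [h]
  simp only [if_true, Finset.sum_ite_eq', ptolc_d, Sum.elim_inr, Sum.elim_inl]
  split_ifs with h1
  · linear_combination D.a (D.bf t.1.1 t.2) s.1.2 * hz
  · have h2 : s.1.2 ∉ D.bf t.1.1 t.2 := fun h2 => h1 (Finset.mem_of_mem_erase h2)
    rw [a, if_neg h2, zero_mul]

theorem ptolc_Y_c3 {z : Finset V → ℤ}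
    (hz2 : ∀ f ∈ X.faces, f.card = 3 → ∑ t ∈ X.faces, z t * inc D.o t f = 0)
    (tv : V → Finset V) (s : Fl X) (h : s.1.1.1 = tv s.1.2) (s₀ : Fl X) :
    D.ptolc_Y z tv (.inr (.inr s)) (.inr (.inr s₀)) = 0 := by
  rw [ptolc_Y_fl]
  by_cases h0 : s₀.1.2 = s.1.2 ∧ s₀.1.1.1.card = 3
  · have e : ∀ s' : Fl X, ptolc_gF T X z tv s s' * D.Y (.inr (.inr s')) (.inr (.inr s₀)) =
        (fun (u : X.faces) (v : V) => if v = s.1.2 then
          ((z u.1 * inc D.o u.1 s₀.1.1.1 : ℤ) : T) else 0) s'.1.1 s'.1.2 := by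
      intro s'
      change _ * (if s'.1.2 = s₀.1.2 then ((inc D.o s'.1.1.1 s₀.1.1.1 : ℤ) : T) else 0) = _
      rw [ptolc_gF, if_pos h, h0.1]
      by_cases h2 : s'.1.2 = s.1.2
      · by_cases h3 : inc D.o s'.1.1.1 s₀.1.1.1 = 0
        · simp [h3]
        · simp [h2, (inc_ne_zero_iff.1 h3).2, h0.2]
      · simp [h2]
    simp only [e]
    rw [sum_Fl (fun (u : X.faces) (v : V) => if v = s.1.2 then
      ((z u.1 * inc D.o u.1 s₀.1.1.1 : ℤ) : T) else 0)]
    have e2 : ∀ u : X.faces, (∑ v ∈ u.1, if v = s.1.2 then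
        ((z u.1 * inc D.o u.1 s₀.1.1.1 : ℤ) : T) else 0) =
        ((z u.1 * inc D.o u.1 s₀.1.1.1 : ℤ) : T) := by
      intro u
      rw [Finset.sum_ite_eq']
      split_ifs with h1
      · rfl
      · have : inc D.o u.1 s₀.1.1.1 = 0 := by
          by_contra h3
          exact h1 (h0.1 ▸ (inc_ne_zero_iff.1 h3).1 s₀.2)
        simp [this]
    simp only [e2]
    rw [← Int.cast_sum, Finset.sum_coe_sort X.faces (fun u => z u * inc D.o u s₀.1.1.1),
      hz2 _ s₀.1.1.2 h0.2, Int.cast_zero, zero_mul]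
  · rw [Finset.sum_eq_zero, zero_mul]
    intro s' _
    change _ * (if s'.1.2 = s₀.1.2 then ((inc D.o s'.1.1.1 s₀.1.1.1 : ℤ) : T) else 0) = _
    rw [ptolc_gF, if_pos h]
    split_ifs with h1 h2
    · have : inc D.o s'.1.1.1 s₀.1.1.1 = 0 := by
        by_contra h3
        have h4 := (inc_ne_zero_iff.1 h3).2
        exact h0 ⟨h2.symm.trans h1.1, by omega⟩
      simp [this]
    · exact mul_zero _
    · exact zero_mul _
    · exact zero_mul _

/-- The critical flags, separated from the others. -/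
noncomputable def ptolc_e (tv : V → Finset V) (h1 : ∀ v ∈ X.verts, tv v ∈ X.faces)
    (h2 : ∀ v ∈ X.verts, v ∈ tv v) :
    ((Vx X ⊕ Fx X) ⊕ (Tx X × Fin 2 ⊕ Vx X)) ⊕ {s : Fl X // s.1.1.1 ≠ tv s.1.2} ≃ YI X where
  toFun := Sum.elim (Sum.elim Sum.inl (Sum.elim (fun t => .inr (.inl t)) fun x =>
    .inr (.inr ⟨(⟨tv (D.ptolc_v x), h1 _ (D.ptolc_v_mem x)⟩, D.ptolc_v x),
      h2 _ (D.ptolc_v_mem x)⟩))) fun s => .inr (.inr s.1)
  invFun := Sum.elim (fun a => .inl (.inl a)) (Sum.elim (fun t => .inl (.inr (.inl t))) fun s =>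
    if h : s.1.1.1 = tv s.1.2 then
      .inl (.inr (.inr ⟨⟨{s.1.2}, mem_verts_of_mem s.1.1.2 s.2⟩, Finset.card_singleton _⟩))
    else .inr ⟨s, h⟩)
  left_inv := by
    rintro ((a | t | x) | s)
    · rfl
    · rfl
    · simp only [Sum.elim_inl, Sum.elim_inr, dif_pos]
      congr 3
      exact Subtype.ext (Subtype.ext (D.ptolc_v_eq x).symm)
    · simp only [Sum.elim_inr]
      rw [dif_neg s.2]
  right_inv := by
    rintro (a | t | s)
    · rfl
    · rfl
    · simp only [Sum.elim_inr]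
      split_ifs with h
      · simp only [Sum.elim_inl, Sum.elim_inr]
        congr 2
        have e : D.ptolc_v ⟨⟨{s.1.2}, mem_verts_of_mem s.1.1.2 s.2⟩, Finset.card_singleton _⟩ =
            s.1.2 := (Finset.singleton_injective (D.ptolc_v_eq
              ⟨⟨{s.1.2}, mem_verts_of_mem s.1.1.2 s.2⟩, Finset.card_singleton _⟩)).symm
        exact Subtype.ext (Prod.ext (Subtype.ext (by simp only [e, h])) e)
      · rfl

theorem ptolc_E [Nice T] (tv : V → Finset V) (mv : V → Finset V → Finset V)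
    (rv : V → Finset V → ℕ)
    (hm : ∀ v ∈ X.verts, Matching (X.faces.filter fun s => v ∈ s ∧ s ≠ tv v) (mv v) (rv v))
    {d : Matrix {s : Fl X // s.1.1.1 ≠ tv s.1.2} {s : Fl X // s.1.1.1 ≠ tv s.1.2} T}
    (hd : ∀ s s', d s s' = if s.1.1.2 = s'.1.1.2 then (inc D.o s.1.1.1.1 s'.1.1.1.1 : T) else 0)
    (hc : IsCx (fun s => par s.1.1.1.1) d) : TrivT (fun s => par s.1.1.1.1) d := by
  have mem : ∀ s : {s : Fl X // s.1.1.1 ≠ tv s.1.2},
      s.1.1.1.1 ∈ X.faces.filter fun u => s.1.1.2 ∈ u ∧ u ≠ tv s.1.1.2 := fun s =>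
    Finset.mem_filter.2 ⟨s.1.1.1.2, s.1.2, s.2⟩
  have H := fun s : {s : Fl X // s.1.1.1 ≠ tv s.1.2} =>
    (hm _ (mem_verts_of_mem s.1.1.1.2 s.1.2)).1 _ (mem s)
  refine amlT hc (fun s => ⟨⟨(⟨mv s.1.1.2 s.1.1.1.1, (Finset.mem_filter.1 (H s).1).1⟩, s.1.1.2),
      (Finset.mem_filter.1 (H s).1).2.1⟩, (Finset.mem_filter.1 (H s).1).2.2⟩)
    (fun s => rv s.1.1.2 s.1.1.1.1) (fun s => (mv s.1.1.2 s.1.1.1.1).card < s.1.1.1.1.card)
    ?_ ?_ ?_ ?_ ?_ ?_
  · intro s
    exact Subtype.ext (Subtype.ext (Prod.ext (Subtype.ext (H s).2.1) rfl))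
  · intro s
    simp only [(H s).2.1]
    rcases (H s).2.2.2 with h | h <;> omega
  · intro s
    rcases (H s).2.2.2 with h | h <;>
      simp only [par, h.2, Nat.even_add_one, decide_not, Bool.not_not]
  · intro s
    exact (H s).2.2.1
  · intro s hs
    rw [hd, if_pos rfl]
    rcases (H s).2.2.2 with h | h
    · exact ptolc_cls (inc_eq_or h.1 h.2)
    · omega
  · intro s s' h
    rw [hd] at h
    have h1 : s.1.1.2 = s'.1.1.2 := by
      by_contra h1
      exact h (if_neg h1)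
    rw [if_pos h1] at h
    obtain ⟨h2, h3⟩ := (inc_ne_zero_iff (o := D.o)).1 (fun h0 => h (by rw [h0, Int.cast_zero]))
    by_cases h4 : s'.1.1.1.1 = mv s.1.1.2 s.1.1.1.1
    · left
      refine ⟨by rw [← h4]; omega, ?_⟩
      exact Subtype.ext (Subtype.ext (Prod.ext (Subtype.ext h4) h1.symm))
    · right
      have := (hm _ (mem_verts_of_mem s.1.1.1.2 s.1.2)).2 _ (mem s) _ (h1 ▸ mem s') h2 h3 h4
      rw [← h1]
      exact this

end PD

theorem PD.Y_triv [Nice T] {ρ : G →* Matrix (Fin 2) (Fin 2) T} {X : SC V} (D : PD ρ X)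
    (hd : X.DimLE 3) (ht : X.Thin) (z : Finset V → ℤ)
    (hz1 : ∀ t ∈ X.faces, t.card = 4 → z t = 1 ∨ z t = -1)
    (hz2 : ∀ f ∈ X.faces, f.card = 3 → ∑ t ∈ X.faces, z t * inc D.o t f = 0)
    (hm : ∀ v ∈ X.verts, ∃ t ∈ X.faces, t.card = 4 ∧ v ∈ t ∧
      ∃ m r, Matching (X.faces.filter fun s => v ∈ s ∧ s ≠ t) m r)
    (hc : Contr (ypar X) D.Y) : tor (ypar X) D.Y = 1 := by
  choose! tv h1 h4 h2 mv rv hmat using hm
  have hY := D.Y_cx hd
  have ge := ptolc_g_even (T := T) z h4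
  obtain ⟨gu, gc⟩ := ptolc_g_det (T := T) hz1 h4
  have i1 := nonsing_inv_mul _ gu
  have i2 := mul_nonsing_inv _ gu
  have eY : ptolc_g T X z tv * D.Y * (ptolc_g T X z tv)⁻¹ = D.ptolc_Y z tv := by
    conv_lhs => rw [← D.ptolc_conj hd hz1 h4]
    rw [PD.ptolc_Y]
    simp only [Matrix.mul_assoc, i2, Matrix.mul_one]
  have cx := hY.conj ge ge.inv i1
  have con := hc.conj ge ge.inv i1 i2
  have tr := tor_conj hY hc ge ge.inv i1
  rw [eY] at cx con tr
  rw [gc] at tr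
  refine (mul_one (tor (ypar X) D.Y)).symm.trans (tr.symm.trans ?_)
  set e := D.ptolc_e tv h1 h2 with he
  have tri : Tri e (D.ptolc_Y z tv) := by
    left
    rintro (a | t | x) s
    · change D.ptolc_Y z tv (.inl a) (.inr (.inr s.1)) = 0
      rw [D.ptolc_Y_inl]
      rcases a with x | f <;> exact zero_mul _
    · change D.ptolc_Y z tv (.inr (.inl t)) (.inr (.inr s.1)) = 0
      rw [D.ptolc_Y_t]
      change _ * (0 : T) * _ = 0
      rw [mul_zero, zero_mul]
    · exact D.ptolc_Y_c3 hz2 tv _ rfl _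
  obtain ⟨cx1, cx2⟩ := cx.split e tri
  have E : TrivT (ypar X ∘ e ∘ Sum.inr) ((D.ptolc_Y z tv).submatrix (e ∘ Sum.inr) (e ∘ Sum.inr)) :=
    D.ptolc_E tv mv rv hmat (fun s s' => (D.ptolc_Y_nc z tv s.1 s.2 _).trans (mul_one _)) cx2
  have con1 := (splitA e cx tri E.con).1 con
  rw [splitT e cx tri con E.con, E.tor]
  refine (mul_one (_ : SqCl T)).trans ?_
  have hz1' : ∀ t ∈ X.faces, t.card = 4 → (-z) t = 1 ∨ (-z) t = -1 := by
    intro t a b
    rcases hz1 t a b with h | h <;> simp [h]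
  have hz2' : ∀ f ∈ X.faces, f.card = 3 → ∑ t ∈ X.faces, (-z) t * inc D.o t f = 0 := by
    intro f a b
    simp only [Pi.neg_apply, neg_mul, Finset.sum_neg_distrib, hz2 f a b, neg_zero]
  set βp := Equiv.ofBijective _ (D.ptolc_b_bij ht hz1 hz2) with hβp
  set βm := Equiv.ofBijective _ (D.ptolc_b_bij ht hz1' hz2') with hβm
  set Rp : Tx X → Matrix (Fin 2) (Fin 2) T := fun t => if z t.1.1 = 1 then 1 else D.rotM t.1
    with hRp
  set Rm : Tx X → Matrix (Fin 2) (Fin 2) T := fun t => if z t.1.1 = 1 then D.rotM t.1 else 1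
    with hRm
  set a : Matrix (Fx X) (Vx X) T := fun f x => D.av f.1.1 x.1.1 with ha
  have ep : ypar X ∘ e ∘ Sum.inl = zpar (Vx X) (Fx X) (Tx X × Fin 2) := by
    funext i
    rcases i with (x | f) | t | x
    · rfl
    · rfl
    · rfl
    · change par (tv (D.ptolc_v x)) = true
      simp only [par, h4 _ (D.ptolc_v_mem x)]
      decide
  have em : (D.ptolc_Y z tv).submatrix (e ∘ Sum.inl) (e ∘ Sum.inl) =
      zmat a (blk βp Rp - blk βm Rm) (aᵀ * (blk βp Rp)ᵀ) := by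
    ext i j
    rcases i with a₀ | t | x
    · refine (D.ptolc_Y_inl z tv a₀ _).trans ?_
      rcases a₀ with x | f <;> rcases j with (x' | f') | t' | x'
      all_goals first | exact zero_mul _ | exact mul_one _
    · refine (D.ptolc_Y_t z tv t _).trans ?_
      rcases j with (x' | f') | t' | x'
      · change _ * (0 : T) * _ = 0
        rw [mul_zero, zero_mul]
      · refine (mul_one _).trans ?_
        change _ = blk βp Rp t f' - blk βm Rm t f'
        rw [ptolc_blk, ptolc_blk]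
        exact D.ptolc_B hz1 t.1 t.2 f'
      · change _ * (0 : T) * _ = 0
        rw [mul_zero, zero_mul]
      · change _ * (0 : T) * _ = 0
        rw [mul_zero, zero_mul]
    · rcases j with a₀ | t' | x'
      · refine (D.ptolc_Y_c1 z tv _ rfl a₀).trans ?_
        rcases a₀ with x' | f' <;> rfl
      · refine (D.ptolc_Y_c2 hz1 tv _ rfl t').trans ?_
        change _ = (aᵀ * (blk βp Rp)ᵀ) x t'
        rw [← D.ptolc_eta (z := z) t'.1 t'.2, mul_apply]
        simp only [transpose_apply, ptolc_blk, Finset.mul_sum, mul_ite, mul_zero]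
        rw [Finset.sum_comm]
        refine Finset.sum_congr rfl fun k _ => ?_
        rw [Finset.sum_ite_eq', if_pos (Finset.mem_univ _), ← D.ptolc_av]
        rfl
      · exact D.ptolc_Y_c3 hz2 tv _ rfl _
  rw [ep, em] at cx1 con1 ⊢
  refine zlemma βp βm Rp Rm (fun t => ?_) (fun t => ?_) a cx1 con1
  · simp only [hRp]
    split_ifs
    · exact Or.inl rfl
    · exact D.rotM_good t.1 t.2
  · simp only [hRm]
    split_ifs
    · exact D.rotM_good t.1 t.2
    · exact Or.inl rfl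

end MP35
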