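import Pool.Agent.Lib.MP_35c604_gt.Basic

/-! TASK TC: tree-cotree collapse of a vertex star. -/

namespace MP35
namespace SC

variable {V : Type} [DecidableEq V] {X : SC V}

open Finset

/-- The graph underlying the link of `v` is connected. -/
def tcLC (Y : SC V) (v : V) : Prop :=
  ∀ S : V → Prop, (∀ a b, a ≠ v → b ≠ v → ({v, a, b} : Finset V) ∈ Y.faces → S a → S b) →
    ∀ a b, a ≠ v → b ≠ v → ({v, a} : Finset V) ∈ Y.faces → ({v, b} : Finset V) ∈ Y.faces →
      S a → S b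

theorem tc_expand {Y : SC V} {σ τ : Finset V} (hτ : τ ∈ Y.faces) (hσ : σ ∈ Y.faces) (h : σ ⊆ τ)
    (hc : τ.card = σ.card + 1) (hf : ∀ s ∈ Y.faces, σ ⊆ s → s = σ ∨ s = τ) :
    Expand (Y.del σ) Y := by
  refine ⟨σ, τ, h, hc, fun k => (mem_del.1 k).2 Subset.rfl, fun k => (mem_del.1 k).2 h, ?_⟩
  ext s
  simp only [mem_insert, mem_del]
  constructor
  · intro hs
    by_cases k : σ ⊆ s
    · exact (hf s hs k).elim (fun e => Or.inr (Or.inl e)) Or.inl
    · exact Or.inr (Or.inr ⟨hs, k⟩)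
  · rintro (rfl | rfl | k)
    exacts [hτ, hσ, k.1]

theorem tc_del_del {Y : SC V} {σ : Finset V} {v : V} (hv : v ∈ σ) :
    (Y.del σ).del {v} = Y.del {v} := by
  refine ext' ?_
  ext s
  simp only [mem_del, singleton_subset_iff]
  exact ⟨fun h => ⟨h.1.1, h.2⟩, fun h => ⟨⟨h.1, fun k => h.2 (k hv)⟩, h.2⟩⟩

theorem tc_ec_del (Y : SC V) {σ : Finset V} {v : V} (hv : v ∈ σ) :
    Y.ec {v} = (Y.del σ).ec {v} + Y.ec σ := by
  unfold ec
  rw [← sum_filter_not_add_sum_filter (Y.faces.filter ({v} ⊆ ·)) (σ ⊆ ·)]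
  congr 2
  · ext s
    simp only [mem_filter, mem_del]
    tauto
  · ext s
    simp only [mem_filter, singleton_subset_iff]
    exact ⟨fun h => ⟨h.1.1, h.2⟩, fun h => ⟨⟨h.1, h.2 hv⟩, h.2⟩⟩

theorem tc_ec_pair {Y : SC V} {σ τ : Finset V} (hτ : τ ∈ Y.faces) (hσ : σ ∈ Y.faces) (h : σ ⊆ τ)
    (hc : τ.card = σ.card + 1) (hf : ∀ s ∈ Y.faces, σ ⊆ s → s = σ ∨ s = τ) : Y.ec σ = 0 := by
  have h1 : Y.faces.filter (σ ⊆ ·) = {σ, τ} := by
    ext s
    simp only [mem_filter, mem_insert, mem_singleton]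
    refine ⟨fun k => hf s k.1 k.2, ?_⟩
    rintro (rfl | rfl)
    exacts [⟨hσ, Subset.rfl⟩, ⟨hτ, h⟩]
  have h2 : σ ≠ τ := fun e => by rw [e] at hc; omega
  rw [ec, h1, sum_pair h2, hc, pow_succ]
  ring

theorem tc_card3 (v a b : V) : ({v, a, b} : Finset V).card ≤ 3 := card_le_three

theorem tc_lc_of_scat (hp : X.Pure3) {v : V} (hs : X.SCat {v}) : X.tcLC v := by
  intro S hS a b av bv ha hb sa
  have key : ∀ t ∈ X.faces, v ∈ t → ∀ x ∈ t, x ≠ v → S x → ∀ y ∈ t, y ≠ v → S y :=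
    fun t ht hv x hx xv sx y hy yv => hS x y xv yv (X.down t ht _ (by
      simp [insert_subset_iff, hv, hx, hy]) (insert_nonempty _ _)) sx
  obtain ⟨ta, h1, h2, h3⟩ := hp.2 _ ha
  obtain ⟨tb, k1, k2, k3⟩ := hp.2 _ hb
  simp only [insert_subset_iff, singleton_subset_iff] at h2 k2
  have : ∀ t, Relation.ReflTransGen (X.Adj {v}) ta t → ∀ y ∈ t, y ≠ v → S y := by
    intro t ht
    induction ht with
    | refl => exact key ta h1 h2.1 a h2.2 av sa
    | tail _ hadj ih =>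
      obtain ⟨q1, -, q3, q4⟩ := hadj
      obtain ⟨x, hx, xv⟩ := exists_mem_ne (lt_of_lt_of_le (by norm_num) q4) v
      exact key _ q1 (mem_inter.1 (singleton_subset_iff.1 q3)).2 x (mem_inter.1 hx).2 xv
        (ih x (mem_inter.1 hx).1 xv)
  exact this tb (hs ta h1 tb k1 h3 k3 (singleton_subset_iff.2 h2.1) (singleton_subset_iff.2 k2.1))
    b k2.2 bv

theorem tc_lc_top {Y : SC V} {v : V} (h : Y.tcLC v) {t : Finset V} (h4 : t.card = 4) :
    (Y.del t).tcLC v := fun S hS a b av bv ha hb =>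
  h S (fun x y xv yv k => hS x y xv yv (mem_del.2 ⟨k, fun q => by
    have := (card_le_card q).trans (tc_card3 v x y)
    omega⟩)) a b av bv (mem_del.1 ha).1 (mem_del.1 hb).1

theorem tc_lc_tri {Y : SC V} {v : V} (h : Y.tcLC v) {f τ : Finset V} (hτ : τ ∈ Y.faces)
    (hf : f ⊆ τ) (h3 : f.card = 3) (h4 : τ.card = 4) (hv : v ∈ f) : (Y.del f).tcLC v := by
  intro S hS a b av bv ha hb
  refine h S (fun x y xv yv k sx => ?_) a b av bv (mem_del.1 ha).1 (mem_del.1 hb).1
  by_cases q : f ⊆ {v, x, y}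
  · obtain rfl : f = {v, x, y} := eq_of_subset_of_card_le q (h3 ▸ tc_card3 v x y)
    obtain ⟨c, hc, hc'⟩ := exists_mem_notMem_of_card_lt_card (show _ < τ.card by rw [h3, h4]; omega)
    have key : ∀ g : Finset V, g ⊆ τ → c ∈ g → g.card ≤ 3 → g ∈ (Y.del {v, x, y}).faces :=
      fun g g1 g2 g3 => mem_del.2 ⟨Y.down τ hτ g g1 ⟨c, g2⟩, fun e =>
        hc' (eq_of_subset_of_card_le e (h3 ▸ g3) ▸ g2)⟩
    have cv : c ≠ v := fun e => hc' (e ▸ hv)
    simp only [insert_subset_iff, singleton_subset_iff] at hf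
    refine hS c y cv yv (key _ ?_ (by simp) (tc_card3 _ _ _))
      (hS x c xv cv (key _ ?_ (by simp) (tc_card3 _ _ _)) sx) <;>
    simp [insert_subset_iff, hf.1, hf.2.1, hf.2.2, hc]
  · exact hS x y xv yv (mem_del.2 ⟨k, q⟩) sx

theorem tc_lc_leaf {Y : SC V} {v a b : V} (h : Y.tcLC v) (av : a ≠ v) (ab : b ≠ a)
    (hf : ∀ y, y ≠ v → y ≠ a → ({v, a, y} : Finset V) ∈ Y.faces → y = b) :
    (Y.del {v, a}).tcLC v := by
  intro S hS x y xv yv hx hy sx
  have ne : ∀ z, ({v, z} : Finset V) ∈ (Y.del {v, a}).faces → z ≠ a := fun z hz e =>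
    (mem_del.1 hz).2 (e ▸ Subset.rfl)
  have := h (fun z => S (if z = a then b else z)) (fun z w zv wv k s => ?_) x y xv yv
    (mem_del.1 hx).1 (mem_del.1 hy).1 (by simpa [ne x hx] using sx)
  · simpa [ne y hy] using this
  · by_cases e1 : z = a <;> by_cases e2 : w = a
    · simpa [e1, e2] using s
    · obtain rfl := hf w wv e2 (e1 ▸ k)
      simpa [e1, e2] using s
    · obtain rfl := hf z zv e1 (by rw [pair_comm a z, ← e2]; exact k)
      simpa [e1, e2] using s
    · simp only [e1, e2, if_false] at s ⊢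
      refine hS z w zv wv (mem_del.2 ⟨k, fun q => ?_⟩) s
      have := q (mem_insert_of_mem (mem_singleton_self a))
      simp only [mem_insert, mem_singleton] at this
      rcases this with q | q | q
      exacts [av q, e1 q.symm, e2 q.symm]

theorem tc_sign (n : ℕ) (h1 : 1 ≤ n) (h4 : n ≤ 4) : (-1 : ℤ) ^ n =
    -(if n = 1 then 1 else 0) + (if n = 2 then 1 else 0) - (if n = 3 then 1 else 0) +
      if n = 4 then 1 else 0 := by
  interval_cases n <;> simp

theorem tc_pair {e : Finset V} {v : V} (hv : v ∈ e) (h2 : e.card = 2) :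
    ∃ a, a ≠ v ∧ e = {v, a} := by
  obtain ⟨a, ha⟩ := card_eq_one.1 (show (e.erase v).card = 1 by rw [card_erase_of_mem hv, h2])
  refine ⟨a, ne_of_mem_erase (ha ▸ mem_singleton_self a), ?_⟩
  rw [← insert_erase hv, ha]

/-- A link graph in which all degrees are at least two. -/
theorem tc_neg {Y : SC V} {v : V} (hv : ({v} : Finset V) ∈ Y.faces)
    (h3 : ∀ s ∈ Y.faces, v ∈ s → s.card ≤ 3)
    (hd : ∀ e ∈ Y.faces, v ∈ e → e.card = 2 → 2 ≤ Y.deg e) : Y.ec {v} < 0 := by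
  set St := Y.faces.filter ({v} ⊆ ·) with hSt
  have mem : ∀ s, s ∈ St ↔ s ∈ Y.faces ∧ v ∈ s := fun s => by simp [hSt]
  have e1 : Y.ec {v} = -((St.filter (·.card = 1)).card : ℤ) + (St.filter (·.card = 2)).card -
      (St.filter (·.card = 3)).card + (St.filter (·.card = 4)).card := by
    rw [ec, ← hSt, sum_congr rfl fun s hs => tc_sign s.card (Y.ne s ((mem s).1 hs).1).card_pos
      ((h3 s ((mem s).1 hs).1 ((mem s).1 hs).2).trans (by norm_num))]
    simp only [sum_add_distrib, sum_sub_distrib, sum_neg_distrib, sum_boole]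
  have e2 : (St.filter (·.card = 4)).card = 0 := card_eq_zero.2 (filter_eq_empty_iff.2
    fun s hs e => by have := h3 s ((mem s).1 hs).1 ((mem s).1 hs).2; omega)
  have e3 : 0 < (St.filter (·.card = 1)).card :=
    card_pos.2 ⟨{v}, mem_filter.2 ⟨(mem _).2 ⟨hv, mem_singleton_self v⟩, card_singleton v⟩⟩
  have e4 : (St.filter (·.card = 2)).card * 2 ≤ (St.filter (·.card = 3)).card * 2 := by
    refine card_mul_le_card_mul (· ⊆ ·) (fun e he => ?_) fun f hf => ?_
    · obtain ⟨k1, k2⟩ := mem_filter.1 he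
      refine (hd e ((mem e).1 k1).1 ((mem e).1 k1).2 k2).trans (card_le_card fun f hf => ?_)
      obtain ⟨q1, q2, q3⟩ := mem_filter.1 hf
      exact mem_filter.2 ⟨mem_filter.2 ⟨(mem f).2 ⟨q1, q2 ((mem e).1 k1).2⟩, by omega⟩, q2⟩
    · obtain ⟨k1, k2⟩ := mem_filter.1 hf
      refine (card_le_card (t := (f.erase v).image fun a => {v, a}) fun e he => ?_).trans
        (card_image_le.trans (by rw [card_erase_of_mem ((mem f).1 k1).2, k2]))
      obtain ⟨q1, q2⟩ := mem_filter.1 he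
      obtain ⟨a, av, rfl⟩ := tc_pair ((mem e).1 (mem_filter.1 q1).1).2 (mem_filter.1 q1).2
      exact mem_image.2 ⟨a, mem_erase.2 ⟨av, q2 (by simp)⟩, rfl⟩
  omega

/-- A removed and a remaining tetrahedron with a common triangle. -/
theorem tc_free (hp : X.Pure3) (ht : X.Thin) {v : V} (hs : X.SCat {v}) {t : Finset V}
    (htX : t ∈ X.faces) (h4 : t.card = 4) (hvt : v ∈ t) {Y : SC V} (hY : Y.faces ⊆ X.faces)
    (htY : t ∉ Y.faces) {u : Finset V} (hu : u ∈ Y.faces) (hu4 : u.card = 4) (hvu : v ∈ u) :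
    ∃ f τ, τ ∈ Y.faces ∧ f ⊆ τ ∧ f.card = 3 ∧ τ.card = 4 ∧ v ∈ f ∧
      ∀ s ∈ Y.faces, f ⊆ s → s = f ∨ s = τ := by
  have h1 : ∀ w, Relation.ReflTransGen (X.Adj {v}) t w → (w ∈ X.faces ∧ w.card = 4) ∧
      (w ∈ Y.faces → ∃ a b, a ∈ X.faces ∧ a.card = 4 ∧ a ∉ Y.faces ∧ b ∈ Y.faces ∧
        X.Adj {v} a b) := by
    intro w hw
    induction hw with
    | refl => exact ⟨⟨htX, h4⟩, fun h => absurd h htY⟩
    | @tail a b _ hadj ih =>
      refine ⟨⟨hadj.1, hadj.2.1⟩, fun hb => ?_⟩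
      by_cases ha : a ∈ Y.faces
      · exact ih.2 ha
      · exact ⟨a, b, ih.1.1, ih.1.2, ha, hb, hadj⟩
  obtain ⟨a, b, a1, a2, a3, b1, -, b2, q1, q2⟩ := (h1 u (hs t htX u (hY hu) h4 hu4
    (singleton_subset_iff.2 hvt) (singleton_subset_iff.2 hvu))).2 hu
  have ab : a ≠ b := fun e => a3 (e ▸ b1)
  have c3 : (a ∩ b).card = 3 := by
    refine le_antisymm (Nat.lt_succ_iff.1 (lt_of_not_ge fun h => ab ?_)) q2
    exact (eq_of_subset_of_card_le inter_subset_left (a2 ▸ h)).symm.trans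
      (eq_of_subset_of_card_le inter_subset_right (b2 ▸ h))
  refine ⟨a ∩ b, b, b1, inter_subset_right, c3, b2, singleton_subset_iff.1 q1, fun s s1 s2 => ?_⟩
  have s4 := hp.1 s (hY s1)
  by_cases e : s.card ≤ 3
  · exact Or.inl (eq_of_subset_of_card_le s2 (c3 ▸ e)).symm
  have hd := ht _ (X.down a a1 _ inter_subset_left (card_pos.1 (by omega))) c3
  have h2 : ({a, b} : Finset (Finset V)) =
      X.faces.filter fun t => a ∩ b ⊆ t ∧ t.card = (a ∩ b).card + 1 := by
    refine eq_of_subset_of_card_le ?_ (by rw [card_pair ab]; exact hd.le)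
    simp only [insert_subset_iff, singleton_subset_iff, mem_filter]
    exact ⟨⟨a1, inter_subset_left, by omega⟩, hY b1, inter_subset_right, by omega⟩
  have h3 : s ∈ ({a, b} : Finset (Finset V)) := h2 ▸ mem_filter.2 ⟨hY s1, s2, by omega⟩
  rcases mem_insert.1 h3 with rfl | h3
  · exact absurd s1 a3
  · exact Or.inr (mem_singleton.1 h3)

theorem tc_main (hp : X.Pure3) (ht : X.Thin) {v : V} (hs : X.SCat {v}) {t : Finset V}
    (htX : t ∈ X.faces) (h4 : t.card = 4) (hvt : v ∈ t) (n : ℕ) : ∀ Y : SC V, Y.faces.card = n →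
      Y.faces ⊆ X.faces → t ∉ Y.faces → Y.tcLC v →
      (∃ a, a ≠ v ∧ ({v, a} : Finset V) ∈ Y.faces) →
      Y.ec {v} ≤ 0 ∧ (Y.ec {v} = 0 → Collapse Y (Y.del {v})) := by
  induction n using Nat.strong_induction_on with
  | _ n ih =>
  rintro Y rfl hY htY hl ⟨a, av, ha⟩
  have step : ∀ σ τ, τ ∈ Y.faces → σ ⊆ τ → τ.card = σ.card + 1 → v ∈ σ →
      (∀ s ∈ Y.faces, σ ⊆ s → s = σ ∨ s = τ) → (Y.del σ).tcLC v →
      (∃ a, a ≠ v ∧ ({v, a} : Finset V) ∈ (Y.del σ).faces) →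
      Y.ec {v} ≤ 0 ∧ (Y.ec {v} = 0 → Collapse Y (Y.del {v})) := by
    intro σ τ hτ h hc hv hf hl' he
    have hσ := Y.down τ hτ σ h ⟨v, hv⟩
    have := ih _ (card_lt_card ⟨filter_subset _ _, fun k => (mem_del.1 (k hσ)).2 Subset.rfl⟩)
      (Y.del σ) rfl ((filter_subset _ _).trans hY) (fun k => htY (mem_del.1 k).1) hl' he
    rw [tc_ec_del Y hv, tc_ec_pair hτ hσ h hc hf, add_zero]
    rw [tc_del_del hv] at this
    exact ⟨this.1, fun e => .head (tc_expand hτ hσ h hc hf) (this.2 e)⟩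
  by_cases h1 : ∃ u ∈ Y.faces, u.card = 4 ∧ v ∈ u
  · obtain ⟨u, u1, u2, u3⟩ := h1
    obtain ⟨f, τ, k1, k2, k3, k4, k5, k6⟩ := tc_free hp ht hs htX h4 hvt hY htY u1 u2 u3
    refine step f τ k1 k2 (by omega) k5 k6 (tc_lc_tri hl k1 k2 k3 k4 k5)
      ⟨a, av, mem_del.2 ⟨ha, fun q => ?_⟩⟩
    have := (card_le_card q).trans card_le_two
    omega
  have h3 : ∀ s ∈ Y.faces, v ∈ s → s.card ≤ 3 := fun s s1 s2 => by
    have := hp.1 s (hY s1)
    have : s.card ≠ 4 := fun e => h1 ⟨s, s1, e, s2⟩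
    omega
  have hv : ({v} : Finset V) ∈ Y.faces := mem_verts_of_mem ha (mem_insert_self _ _)
  by_cases h2 : ∀ e ∈ Y.faces, v ∈ e → e.card = 2 → 2 ≤ Y.deg e
  · have := tc_neg hv h3 h2
    exact ⟨this.le, fun e => absurd e this.ne⟩
  push Not at h2
  obtain ⟨e, e1, e2, e3, e4⟩ := h2
  obtain ⟨c, cv, rfl⟩ := tc_pair e2 e3
  have tri : ∀ y, y ≠ v → y ≠ c → ({v, c, y} : Finset V) ∈ Y.faces → ({v, c, y} : Finset V) ∈
      Y.faces.filter fun s => {v, c} ⊆ s ∧ s.card = ({v, c} : Finset V).card + 1 :=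
    fun y yv yc k => mem_filter.2 ⟨k, by simp [insert_subset_iff], by
      rw [e3]; exact card_eq_three.2 ⟨v, c, y, cv.symm, yv.symm, yc.symm, rfl⟩⟩
  by_cases h5 : ∃ b, b ≠ v ∧ b ≠ c ∧ ({v, c, b} : Finset V) ∈ Y.faces
  · obtain ⟨b, bv, bc, hb⟩ := h5
    have uq := card_le_one.1 (Nat.lt_succ_iff.1 e4)
    refine step {v, c} {v, c, b} hb (by simp [insert_subset_iff]) (mem_filter.1 (tri b bv bc hb)).2.2
      e2 (fun s s1 s2 => ?_) (tc_lc_leaf hl cv bc fun y yv yc k => ?_)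
      ⟨b, bv, mem_del.2 ⟨Y.down _ hb _ (by simp [insert_subset_iff]) (insert_nonempty _ _), ?_⟩⟩
    · by_cases q : s.card ≤ 2
      · exact Or.inl (eq_of_subset_of_card_le s2 (e3 ▸ q)).symm
      · have := h3 s s1 (s2 e2)
        exact Or.inr (uq _ (mem_filter.2 ⟨s1, s2, by omega⟩) _ (tri b bv bc hb))
    · have : y ∈ ({v, c, b} : Finset V) := uq _ (tri y yv yc k) _ (tri b bv bc hb) ▸ by simp
      simpa [yv, yc] using this
    · simp [insert_subset_iff, cv, bc.symm]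
  · have h6 : ∀ s ∈ Y.faces, {v} ⊆ s → s = {v} ∨ s = {v, c} := fun s s1 s2 => by
      have vs := singleton_subset_iff.1 s2
      have : s ⊆ {v, c} := fun y hy => by
        by_cases yv : y = v
        · simp [yv]
        have := hl (· = c) (fun z w zv wv k e => by
          by_contra wc
          exact h5 ⟨w, wv, wc, e ▸ k⟩) c y cv yv e1 (Y.down s s1 _ (by
            simp [insert_subset_iff, vs, hy]) (insert_nonempty _ _)) rfl
        simp [this]
      by_cases q : c ∈ s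
      · exact Or.inr (Subset.antisymm this (by simp [insert_subset_iff, vs, q]))
      · refine Or.inl (Subset.antisymm (fun y hy => ?_) s2)
        have h7 : y ≠ c := fun e => q (e ▸ hy)
        simpa [h7] using this hy
    have hc : ({v, c} : Finset V).card = ({v} : Finset V).card + 1 := by rw [e3, card_singleton]
    have hsub : ({v} : Finset V) ⊆ {v, c} := by simp
    exact ⟨(tc_ec_pair e1 hv hsub hc h6).le, fun _ => .single (tc_expand e1 hv hsub hc h6)⟩

theorem tc_chi_link {v : V} (hv : v ∈ X.verts) : (X.link v).chi = X.ec {v} + 1 := by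
  have h1 : ({v} : Finset V) ∈ X.faces.filter ({v} ⊆ ·) := mem_filter.2 ⟨hv, Subset.rfl⟩
  rw [ec, ← add_sum_erase _ _ h1, card_singleton, chi]
  have : ∑ s ∈ (X.link v).faces, (-1 : ℤ) ^ (s.card + 1) =
      ∑ s ∈ (X.faces.filter ({v} ⊆ ·)).erase {v}, (-1) ^ s.card := by
    refine sum_nbij' (insert v) (·.erase v) (fun s hs => ?_) (fun s hs => ?_)
      (fun s hs => erase_insert (mem_link.1 hs).2.1) (fun s hs => ?_)
      fun s hs => by rw [card_insert_of_notMem (mem_link.1 hs).2.1]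
    · obtain ⟨k1, k2, k3⟩ := mem_link.1 hs
      refine mem_erase.2 ⟨fun e => ?_, mem_filter.2 ⟨k3, by simp⟩⟩
      obtain ⟨x, hx⟩ := X.ne s k1
      exact k2 (mem_singleton.1 (e ▸ mem_insert_of_mem hx) ▸ hx)
    · obtain ⟨k1, k2⟩ := mem_erase.1 hs
      obtain ⟨k2, k3⟩ := mem_filter.1 k2
      have k4 := singleton_subset_iff.1 k3
      refine mem_link.2 ⟨X.down s k2 _ (erase_subset _ _) ?_, notMem_erase _ _,
        by rwa [insert_erase k4]⟩
      exact nonempty_iff_ne_empty.2 fun e => k1 ((erase_eq_empty_iff _ _).1 e |>.resolve_left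
        (ne_empty_of_mem k4))
    · exact insert_erase (singleton_subset_iff.1 (mem_filter.1 (mem_erase.1 hs).2).2)
  rw [this]
  ring

theorem tc_both (hp : X.Pure3) (ht : X.Thin) {v : V} (hs : X.SCat {v}) {t : Finset V}
    (htX : t ∈ X.faces) (h4 : t.card = 4) (hvt : v ∈ t) :
    (X.link v).chi ≤ 2 ∧ ((X.link v).chi = 2 → Collapse (X.del t) (X.del {v})) := by
  obtain ⟨a, ha, av⟩ := exists_mem_ne (show 1 < t.card by omega) v
  have h1 := tc_main hp ht hs htX h4 hvt _ (X.del t) rfl (filter_subset _ _)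
    (fun k => (mem_del.1 k).2 Subset.rfl) (tc_lc_top (tc_lc_of_scat hp hs) h4)
    ⟨a, av, mem_del.2 ⟨X.down t htX _ (by simp [insert_subset_iff, hvt, ha]) (insert_nonempty _ _),
      fun q => by have := (card_le_card q).trans card_le_two; omega⟩⟩
  have h2 : X.faces.filter (t ⊆ ·) = {t} := eq_singleton_iff_unique_mem.2
    ⟨mem_filter.2 ⟨htX, Subset.rfl⟩, fun s hs => (eq_of_subset_of_card_le (mem_filter.1 hs).2
      (h4 ▸ hp.1 s (mem_filter.1 hs).1)).symm⟩
  have h3 : X.ec t = 1 := by rw [ec, h2, sum_singleton, h4]; norm_num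
  rw [tc_chi_link (mem_verts_of_mem htX hvt), tc_ec_del X hvt, h3, ← tc_del_del (Y := X) hvt]
  exact ⟨by linarith [h1.1], fun e => h1.2 (by linarith)⟩

theorem chi_link_le (hp : X.Pure3) (ht : X.Thin) {v : V} (hv : v ∈ X.verts) (hs : X.SCat {v}) :
    (X.link v).chi ≤ 2 := by
  obtain ⟨t, h1, h2, h3⟩ := hp.2 _ hv
  exact (tc_both hp ht hs h1 h3 (singleton_subset_iff.1 h2)).1

theorem star_collapse (hp : X.Pure3) (ht : X.Thin) {v : V} (hs : X.SCat {v})
    (hchi : (X.link v).chi = 2) {t : Finset V} (htX : t ∈ X.faces) (h4 : t.card = 4)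
    (hvt : v ∈ t) : Collapse (X.del t) (X.del {v}) := (tc_both hp ht hs htX h4 hvt).2 hchi

theorem tc_count (ht : X.Thin) :
    (X.faces.filter (·.card = 3)).card * 2 = (X.faces.filter (·.card = 4)).card * 4 := by
  refine card_mul_eq_card_mul (· ⊆ ·) (fun f hf => ?_) fun t htt => ?_
  · obtain ⟨k1, k2⟩ := mem_filter.1 hf
    rw [← ht f k1 k2, deg, k2]
    congr 1
    ext s
    simp only [bipartiteAbove, mem_filter]
    tauto
  · obtain ⟨k1, k2⟩ := mem_filter.1 htt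
    have : bipartiteBelow (· ⊆ ·) (X.faces.filter (·.card = 3)) t = powersetCard 3 t := by
      ext s
      simp only [bipartiteBelow, mem_filter, mem_powersetCard]
      exact ⟨fun h => ⟨h.2, h.1.2⟩, fun h => ⟨⟨X.down t k1 s h.1 (card_pos.1 (by omega)), h.2⟩, h.1⟩⟩
    rw [this, card_powersetCard, k2]
    rfl

theorem chi_link_of_closed (h : X.Closed) (h0 : X.chi = 0) {v : V} (hv : v ∈ X.verts) :
    (X.link v).chi = 2 := by
  set W := X.faces.biUnion id with hW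
  have mem : ∀ w, w ∈ W ↔ w ∈ X.verts := fun w => by
    simp only [hW, mem_biUnion, id]
    exact ⟨fun ⟨s, h1, h2⟩ => mem_verts_of_mem h1 h2, fun k => ⟨_, k, mem_singleton_self w⟩⟩
  have e1 : ∑ w ∈ W, X.ec {w} = ∑ s ∈ X.faces, (s.card : ℤ) * (-1) ^ s.card := by
    simp only [ec, sum_filter, singleton_subset_iff]
    rw [sum_comm]
    refine sum_congr rfl fun s hs => ?_
    rw [← sum_filter, sum_const, nsmul_eq_mul, filter_mem_eq_inter,
      inter_eq_right.2 (show s ⊆ W from subset_biUnion_of_mem id hs)]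
  have e2 : W.card = (X.faces.filter (·.card = 1)).card := by
    refine card_nbij (fun w => {w}) (fun w hw => ?_) (fun a _ b _ e => singleton_injective e)
      fun s hs => ?_
    · exact mem_coe.2 (mem_filter.2 ⟨(mem w).1 hw, card_singleton w⟩)
    · obtain ⟨k1, k2⟩ := mem_filter.1 (mem_coe.1 hs)
      obtain ⟨w, rfl⟩ := card_eq_one.1 k2
      exact ⟨w, mem_coe.2 ((mem w).2 k1), rfl⟩
  have e3 : ∑ s ∈ X.faces, (s.card : ℤ) * (-1) ^ s.card = ∑ s ∈ X.faces,
      ((if s.card = 1 then 1 else 0) - 2 * (-1) ^ (s.card + 1) - (if s.card = 3 then 1 else 0) +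
        2 * if s.card = 4 then 1 else 0) := by
    refine sum_congr rfl fun s hs => ?_
    have k1 := (X.ne s hs).card_pos
    have k2 := h.pure.1 s hs
    generalize s.card = n at *
    interval_cases n <;> simp
  have e4 := tc_count h.thin
  simp only [sum_add_distrib, sum_sub_distrib, ← mul_sum, sum_boole] at e3
  have e5 : ∑ w ∈ W, (2 - (X.link w).chi) = 0 := by
    rw [sum_congr rfl fun w hw => by rw [tc_chi_link ((mem w).1 hw)]]
    simp only [sum_add_distrib, sum_sub_distrib, sum_const, nsmul_eq_mul, e1, e2, e3]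
    unfold chi at h0
    rw [h0]
    omega
  have := (sum_eq_zero_iff_of_nonneg fun w hw =>
    sub_nonneg.2 (chi_link_le h.pure h.thin ((mem w).1 hw) (h.sc w))).1 e5 v ((mem v).2 hv)
  linarith

end SC
end MP35
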