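import Pool.Agent.Lib.MP_35c604_gt.PtolB
import Pool.Agent.Lib.MP_35c604_gt.PtolC
import Pool.Agent.Lib.MP_35c604_gt.TC
import Pool.Agent.Lib.MP_35c604_gt.Match

/-! The torsion of a closed oriented pseudomanifold in a decorated representation is a square. -/

namespace MP35

open Matrix SC

variable {V : Type} [DecidableEq V] {T : Type} [CommRing T]

omit [DecidableEq V] in
theorem chi_eq_zero_of_card {X : SC V}
    (h : Fintype.card {i // fp (Fin 2) (fpar X) i = true} =
      Fintype.card {i // fp (Fin 2) (fpar X) i = false}) : X.chi = 0 := by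
  have key : ∀ b : Bool, (Fintype.card {i // fp (Fin 2) (fpar X) i = b} : ℤ) =
      2 * ∑ s ∈ X.faces, if par s = b then 1 else 0 := by
    intro b
    rw [Fintype.card_subtype, Finset.card_filter, Fintype.sum_prod_type,
      ← Finset.sum_coe_sort X.faces, Finset.mul_sum]
    push_cast
    refine Finset.sum_congr rfl fun s _ => ?_
    simp only [fp, fpar, Fin.sum_univ_two]
    split_ifs <;> simp
  have h1 := key true
  rw [h, key false] at h1
  have h2 : X.chi = (∑ s ∈ X.faces, if par s = false then 1 else 0) -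
      ∑ s ∈ X.faces, if par s = true then 1 else 0 := by
    rw [SC.chi, ← Finset.sum_sub_distrib]
    refine Finset.sum_congr rfl fun s _ => ?_
    rcases Nat.even_or_odd s.card with e | e
    · simp [par, e, pow_succ, e.neg_one_pow]
    · simp [par, Nat.not_even_iff_odd.2 e, pow_succ, e.neg_one_pow]
  omega

theorem ptolemy [Nice T] {G : Type} [Group G] {ρ : G →* Matrix (Fin 2) (Fin 2) T} (hρ : Iface ρ)
    {X : SC V} (hX : X.Closed) {o : V → ℕ} (ho : Set.InjOn o X.verts)
    {h : Finset V → Finset V → G} (hh : X.IsLoc h) (z : Finset V → ℤ)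
    (hz1 : ∀ t ∈ X.faces, t.card = 4 → z t = 1 ∨ z t = -1)
    (hz2 : ∀ f ∈ X.faces, f.card = 3 → ∑ t ∈ X.faces, z t * inc o t f = 0)
    (hc : Contr (fp (Fin 2) (fpar X)) (flat (lin ρ) (bd ℤ X o h))) :
    ftor (lin ρ) (fpar X) (bd ℤ X o h) = 1 := by
  obtain ⟨D, rfl, rfl⟩ := exists_PD hρ ho hh
  obtain ⟨h1, h2⟩ := D.Y_tor hX.pure.1 hc
  rw [← h2]
  have h0 : X.chi = 0 := chi_eq_zero_of_card (hc.card_eq ((bd_cx ℤ ho hh).flat _))
  refine D.Y_triv hX.pure.1 hX.thin z hz1 hz2 (fun v hv => ?_) h1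
  obtain ⟨t, ht, hvt, h4⟩ := hX.pure.2 _ hv
  have hvt' : v ∈ t := Finset.singleton_subset_iff.1 hvt
  refine ⟨t, ht, h4, hvt', ?_⟩
  obtain ⟨m, r, hm⟩ := (star_collapse hX.pure hX.thin (hX.sc v) (chi_link_of_closed hX h0 hv) ht h4
    hvt').matching
  refine ⟨m, r, ?_⟩
  convert hm using 1
  ext s
  simp only [Finset.mem_filter, Finset.mem_sdiff, mem_del, Finset.singleton_subset_iff]
  constructor
  · rintro ⟨a1, a2, a3⟩
    refine ⟨⟨a1, fun hh => a3 ?_⟩, fun hh => hh.2 a2⟩
    exact (Finset.eq_of_subset_of_card_le hh (by rw [h4]; exact hX.pure.1 s a1)).symm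
  · rintro ⟨⟨a1, a2⟩, a3⟩
    refine ⟨a1, by_contra fun hh => a3 ⟨a1, hh⟩, fun hh => a2 (hh ▸ Finset.Subset.refl _)⟩

end MP35
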