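import Pool.Agent.Lib.MP_35c604_gt.Cov
import Pool.Agent.Lib.MP_35c604_gt.Ptol

/-! TASK FIN: a closed pseudomanifold minus a tetrahedron does not have the property `PP`. -/

namespace MP35

open Matrix SC

variable {V : Type} [DecidableEq V] {T : Type} [CommRing T]

theorem fin_red_int (x : ZQ) : red ℤ x = x := by
  ext g
  simp [red]

theorem fin_NN_single (k : Type) [CommRing k] (g : Q) (c : k) :
    NN k * MonoidAlgebra.single g c = c • NN k := by
  have : MonoidAlgebra.single g c = c • el k g := by simp [el]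
  rw [this, mul_smul_comm, NN_mul_el]

theorem fin_NN_mul (v : ZQ) : ∃ c : ℤ, NN ℤ * v = c • NN ℤ := by
  induction v using MonoidAlgebra.induction_linear with
  | zero => exact ⟨0, by simp⟩
  | add a b ha hb =>
    obtain ⟨c, hc⟩ := ha
    obtain ⟨c', hc'⟩ := hb
    exact ⟨c + c', by rw [mul_add, hc, hc', add_smul]⟩
  | single g c => exact ⟨c, fin_NN_single ℤ g c⟩

theorem fin_NN_u0 (j : Fin 2) : NN ℤ * u0 ℤ j = 0 := by
  fin_cases j <;> simp [u0, mul_sub, NN_mul_el]

/-- The data of the final step. -/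
structure FinD (X : SC V) (t : Finset V) (o : V → ℕ) (h h' : Finset V → Finset V → Q)
    (r : Matrix (X.del t).faces DI ZQ) : Prop where
  cl : X.Closed
  ht : t ∈ X.faces
  h4 : t.card = 4
  dat : Dat (X.del t) o h r
  loc : X.IsLoc h'
  eq : ∀ s, s ≠ t → ∀ u, u ≠ t → h' s u = h s u

/-- The inclusion of the faces. -/
def finI {X : SC V} {t : Finset V} (s : (X.del t).faces) : X.faces := ⟨s.1, (mem_del.1 s.2).1⟩

theorem finI_ne {X : SC V} {t : Finset V} (s : (X.del t).faces) : s.1 ≠ t := fun e =>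
  (mem_del.1 s.2).2 e.symm.subset

namespace FinD

variable {X : SC V} {t : Finset V} {o : V → ℕ} {h h' : Finset V → Finset V → Q}
  {r : Matrix (X.del t).faces DI ZQ} (D : FinD X t o h h' r)
include D

theorem mem {s : Finset V} (hs : s ∈ X.faces) (hne : s ≠ t) : s ∈ (X.del t).faces :=
  mem_del.2 ⟨hs, fun e => hne (Finset.eq_of_subset_of_card_le e
    (by rw [D.h4]; exact D.cl.pure.1 s hs)).symm⟩

/-- The removed tetrahedron. -/
def tt : X.faces := ⟨t, D.ht⟩

/-- The faces of `X`. -/
def eqv : Option (X.del t).faces ≃ X.faces where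
  toFun x := x.elim D.tt finI
  invFun s := if e : s.1 = t then none else some ⟨s.1, D.mem s.2 e⟩
  left_inv x := by
    cases x with
    | none => exact dif_pos rfl
    | some s => exact dif_neg (finI_ne s)
  right_inv s := by
    by_cases e : s.1 = t
    · simp only [dif_pos e]; exact Subtype.ext e.symm
    · simp only [dif_neg e]; rfl

theorem sum {M : Type} [AddCommMonoid M] (f : X.faces → M) :
    ∑ s, f s = f D.tt + ∑ s : (X.del t).faces, f (finI s) := by
  rw [← D.eqv.sum_comp, Fintype.sum_option]; rfl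

theorem cases (s : X.faces) : s = D.tt ∨ ∃ s0 : (X.del t).faces, s = finI s0 := by
  obtain ⟨x, rfl⟩ := D.eqv.surjective s
  cases x with
  | none => exact Or.inl rfl
  | some s => exact Or.inr ⟨s, rfl⟩

/-- A function on the faces of `X` from its value at `t` and on the other faces. -/
def ext {A : Type} (a : A) (z : (X.del t).faces → A) : X.faces → A :=
  fun s => (D.eqv.symm s).elim a z

theorem ext_tt {A : Type} (a : A) (z : (X.del t).faces → A) : D.ext a z D.tt = a := by
  rw [ext, show D.tt = D.eqv none from rfl, Equiv.symm_apply_apply]; rfl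

theorem ext_I {A : Type} (a : A) (z : (X.del t).faces → A) (s : (X.del t).faces) :
    D.ext a z (finI s) = z s := by
  rw [ext, show finI s = D.eqv (some s) from rfl, Equiv.symm_apply_apply]; rfl

theorem vert {v : V} (hv : v ∈ X.verts) : v ∈ (X.del t).verts :=
  D.mem hv fun e => by simpa [← e] using D.h4

theorem inj : Set.InjOn o X.verts := fun _ hu _ hv e => D.dat.inj (D.vert hu) (D.vert hv) e

theorem conn : X.Conn h' := fun U hU u hu v hv g g' h0 => by
  have n : ∀ w : V, ({w} : Finset V) ≠ t := fun w e => by simpa [← e] using D.h4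
  refine D.dat.conn U (fun e he a ha b hb g hg => ?_) u (D.vert hu) v (D.vert hv) g g' h0
  have he' := finI_ne ⟨e, he⟩
  rw [← D.eq e he' _ (n _)] at hg ⊢
  exact hU e (mem_del.1 he).1 a ha b hb g hg

theorem rc (k : Type) [CommRing k] (z : X.faces → KQ k) (hz : ∀ s : X.faces, s.1.card ≠ 4 → z s = 0)
    (hb : ∀ f : X.faces, f.1.card = 3 → (z ᵥ* bd k X o h') f = 0) (s : X.faces)
    (h4 : s.1.card = 4) (g : Q) (h0 : (z s).coeff g = 0) : z = 0 :=
  rel_cycle k D.loc D.conn (fun _ => True) D.cl.pure (fun f hf h3 _ => D.cl.thin f hf h3)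
    (fun w _ => D.cl.sc w)
    (fun v _ _ _ hb _ h4 ha hb' =>
      Relation.ReflTransGen.single ⟨hb, h4, hb', v, Finset.mem_inter.2 ⟨ha, hb'⟩, trivial⟩)
    z hz (fun f hf _ => hb f hf) s h4 g h0

variable (k : Type) [CommRing k]

theorem bd_I (s s' : (X.del t).faces) :
    bd k X o h' (finI s) (finI s') = bd k (X.del t) o h s s' := by
  simp only [bd, finI, D.eq _ (finI_ne s) _ (finI_ne s')]

theorem bd_tt (s : X.faces) : bd k X o h' s D.tt = 0 := by
  have : inc o s.1 t = 0 := by
    by_contra e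
    have := (inc_ne_zero_iff.1 e).2
    have := D.cl.pure.1 s.1 s.2
    have := D.h4
    omega
  simp [bd, tt, this]

/-- The boundary of the removed tetrahedron. -/
noncomputable def u : (X.del t).faces → KQ k := fun s => bd k X o h' D.tt (finI s)

theorem u_card (s : (X.del t).faces) (hs : s.1.card ≠ 3) : D.u k s = 0 := by
  have : inc o t s.1 = 0 := by
    by_contra e
    have := (inc_ne_zero_iff.1 e).2
    have := D.h4
    omega
  simp [u, bd, tt, finI, this]

theorem ext_bd (a : KQ k) (z : (X.del t).faces → KQ k) (s : (X.del t).faces) :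
    (D.ext a z ᵥ* bd k X o h') (finI s) = a * D.u k s + (z ᵥ* bd k (X.del t) o h) s := by
  simp only [vecMul, dotProduct, D.sum, D.ext_tt, D.ext_I, D.bd_I, u]

theorem u_bd : D.u k ᵥ* bd k (X.del t) o h = 0 := by
  funext s
  have := congrFun (congrFun (bd_cx k D.inj D.loc).sq D.tt) (finI s)
  simp only [mul_apply, D.sum, D.bd_tt, D.bd_I, zero_mul, zero_add] at this
  exact this

theorem u_map (s : (X.del t).faces) : red k (D.u ℤ s) = D.u k s :=
  congrFun (congrFun (bd_map k X o h') D.tt) (finI s)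

theorem toW_map (j : Fin 2) : toW k r (D.u k) j = red k (toW ℤ r (D.u ℤ) j) := by
  simp only [toW, vecMul, dotProduct, map_apply, map_sum, map_mul, fin_red_int, D.u_map]

/-- A multiple of the boundary of `t` which dies in the Fox complex gives a 3-cycle of `X`. -/
theorem cyc (a : KQ k) (ha : ∀ j, a * toW k r (D.u k) j = 0) :
    ∃ Z : X.faces → KQ k, Z D.tt = a ∧ (∀ s : X.faces, s.1.card ≠ 4 → Z s = 0) ∧
      ∀ f : X.faces, f.1.card = 3 → (Z ᵥ* bd k X o h') f = 0 := by
  obtain ⟨z, hz, hb⟩ := toW_eq_zero k D.dat (fun s => a * D.u k s)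
    (fun s hs => by rw [D.u_card k s hs, mul_zero])
    (by
      funext s
      have := congrFun (D.u_bd k) s
      simp only [vecMul, dotProduct, Pi.zero_apply] at this ⊢
      simp only [mul_assoc, ← Finset.mul_sum, this, mul_zero])
    (by
      funext j
      have := ha j
      simp only [toW, vecMul, dotProduct, Pi.zero_apply] at this ⊢
      simp only [mul_assoc, ← Finset.mul_sum, this])
  refine ⟨D.ext a (-z), D.ext_tt _ _, fun s hs => ?_, fun f hf => ?_⟩
  · rcases D.cases s with rfl | ⟨s, rfl⟩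
    · exact absurd D.h4 hs
    · rw [D.ext_I, Pi.neg_apply, hz s hs, neg_zero]
  · rcases D.cases f with rfl | ⟨f, rfl⟩
    · exact absurd (hf.symm.trans D.h4) (by norm_num)
    · rw [D.ext_bd, neg_vecMul, hb]
      simp

theorem unit {v : ZQ} (hv : ∀ j, -toW ℤ r (D.u ℤ) j = v * u0 ℤ j) :
    ∃ (a : ZQ) (c : ℤ), a * v - 1 = c • NN ℤ := by
  refine unit_mod_NN v fun p _ => ?_
  have e : ∀ j, toW (ZMod p) r (D.u (ZMod p)) j = -(red (ZMod p) v * u0 (ZMod p) j) := fun j => by
    rw [D.toW_map, ← u0_map, ← map_mul, ← hv, map_neg, neg_neg]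
  let φ : KQ (ZMod p) →ₗ[ZMod p] WK (ZMod p) × ZMod p :=
    { toFun := fun a => (⟨fun j => a * red (ZMod p) v * u0 (ZMod p) j, by
        change _ ᵥ* _ = 0
        funext i
        have := congrFun (u0_fox (ZMod p)) i
        simp only [vecMul, dotProduct, Pi.zero_apply] at this ⊢
        simp only [mul_assoc, ← Finset.mul_sum, this, mul_zero]⟩, a.coeff 1)
      map_add' := fun a b => by
        refine Prod.ext (Subtype.ext (funext fun j => ?_)) ?_ <;> simp [add_mul]
      map_smul' := fun c a => by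
        refine Prod.ext (Subtype.ext (funext fun j => ?_)) ?_ <;> simp }
  have hinj : Function.Injective φ := by
    rw [injective_iff_map_eq_zero]
    intro a ha
    have h1 : ∀ j, a * red (ZMod p) v * u0 (ZMod p) j = 0 := fun j =>
      congrFun (congrArg (fun x => x.1.1) ha) j
    have h2 : a.coeff 1 = 0 := congrArg Prod.snd ha
    obtain ⟨Z, z1, z2, z3⟩ := D.cyc (ZMod p) a fun j => by
      rw [e, mul_neg, ← mul_assoc, h1, neg_zero]
    rw [← z1, D.rc _ Z z2 z3 D.tt D.h4 1 (z1 ▸ h2), Pi.zero_apply]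
  have hsurj : Function.Surjective φ := by
    refine (LinearMap.injective_iff_surjective_of_finrank_eq_finrank ?_).1 hinj
    rw [Module.finrank_prod, finrank_WK, Module.finrank_self,
      Module.finrank_eq_card_basis (MonoidAlgebra.basis Q (ZMod p)), card_Q]
  obtain ⟨a, ha⟩ := hsurj (⟨u0 (ZMod p), u0_fox (ZMod p)⟩, 0)
  obtain ⟨c, hc⟩ := ann_u0 (ZMod p) (a * red (ZMod p) v - 1) fun j => by
    have : a * red (ZMod p) v * u0 (ZMod p) j = u0 (ZMod p) j :=
      congrFun (congrArg (fun x => x.1.1) ha) j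
    rw [sub_mul, this, one_mul, sub_self]
  exact ⟨a, c, hc⟩

omit D in
theorem NN_bd (n : X.faces → ℤ) (f : X.faces) :
    ((fun s => (n s : k) • NN k) ᵥ* bd k X o h') f =
      ((∑ s, n s * inc o s.1 f.1 : ℤ) : k) • NN k := by
  simp only [vecMul, dotProduct, bd, smul_mul_assoc, fin_NN_single, smul_smul, Int.cast_sum,
    Int.cast_mul, Finset.sum_smul]

theorem orient {v : ZQ} (hv : ∀ j, -toW ℤ r (D.u ℤ) j = v * u0 ℤ j) :
    ∃ z : Finset V → ℤ, (∀ s ∈ X.faces, s.card = 4 → z s = 1 ∨ z s = -1) ∧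
      ∀ f ∈ X.faces, f.card = 3 → ∑ s ∈ X.faces, z s * inc o s f = 0 := by
  obtain ⟨Z, z1, z2, z3⟩ := D.cyc ℤ (NN ℤ) fun j => by
    obtain ⟨c, hc⟩ := fin_NN_mul v
    rw [← neg_eq_zero, ← mul_neg, hv, ← mul_assoc, hc, smul_mul_assoc, fin_NN_u0, smul_zero]
  have hinv : ∀ g s, (el ℤ g - 1) * Z s = 0 := fun g s => by
    refine congrFun (D.rc ℤ (fun s => (el ℤ g - 1) * Z s) (fun s hs => by rw [z2 s hs, mul_zero])
      (fun f hf => ?_) D.tt D.h4 1 ?_) s
    · have := z3 f hf
      simp only [vecMul, dotProduct] at this ⊢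
      simp only [mul_assoc, ← Finset.mul_sum, this, mul_zero]
    · rw [z1, sub_mul, el_mul_NN, one_mul, sub_self]; rfl
  choose n hn using fun s => inv_gen ℤ (Z s) fun i => hinv (gen i) s
  have hZ : Z = fun s => ((n s : ℤ) : ℤ) • NN ℤ := funext hn
  have key : ∀ c : ℤ, c • NN ℤ = 0 → c = 0 := fun c hc => by
    have : (c • NN ℤ).coeff 1 = 0 := by rw [hc]; rfl
    rwa [MonoidAlgebra.coeff_smul_apply, coeff_NN, smul_eq_mul, mul_one] at this
  have n1 : n D.tt = 1 := by
    rw [← sub_eq_zero]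
    exact key _ (by rw [sub_smul, one_smul, ← hn, z1, sub_self])
  have n2 : ∀ s : X.faces, s.1.card ≠ 4 → n s = 0 := fun s hs => key _ (by rw [← hn, z2 s hs])
  have n3 : ∀ f : X.faces, f.1.card = 3 → ∑ s, n s * inc o s.1 f.1 = 0 := fun f hf => by
    have := z3 f hf
    rw [hZ] at this
    exact key _ ((NN_bd ℤ n f).symm.trans this)
  refine ⟨fun s => if hs : s ∈ X.faces then n ⟨s, hs⟩ else 0, fun s hs h4 => ?_, fun f hf h3 => ?_⟩
  · simp only [dif_pos hs]
    by_contra hne
    obtain ⟨p, hp, hd⟩ := Nat.exists_prime_and_dvd (n := (n ⟨s, hs⟩).natAbs) (by omega)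
    have := Fact.mk hp
    have := congrFun (D.rc (ZMod p) (fun s => (n s : ZMod p) • NN (ZMod p))
      (fun s hs => by rw [n2 s hs, Int.cast_zero, zero_smul])
      (fun f hf => by rw [NN_bd, n3 f hf, Int.cast_zero, zero_smul]) ⟨s, hs⟩ h4 1
      (by rw [(ZMod.intCast_zmod_eq_zero_iff_dvd _ p).2 (Int.natCast_dvd.2 hd), zero_smul]; rfl))
      D.tt
    have := congrArg (fun x : KQ (ZMod p) => x.coeff 1) this
    simp [n1, coeff_NN] at this
  · rw [← Finset.sum_coe_sort X.faces]
    exact (Finset.sum_congr rfl fun s _ => by simp only [dif_pos s.2]).trans (n3 ⟨f, hf⟩ h3)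

/-- The chain map to the Fox complex with a 3-cell. -/
noncomputable def rp : Matrix X.faces (Option DI) ZQ :=
  fun s j => D.ext (j.elim 1 fun _ => 0) (fun s => j.elim 0 (r s)) s

/-- The mapping cone for `X`. -/
noncomputable def dp (w : Fin 2 → ZQ) : Matrix (X.faces ⊕ Option DI) (X.faces ⊕ Option DI) ZQ :=
  fromBlocks (bd ℤ X o h') D.rp 0 (dDp w)

theorem dp_cx {w : Fin 2 → ZQ} (hw : ∀ j, -toW ℤ r (D.u ℤ) j = w j) :
    IsCx (Sum.elim (fpar X) parDp) (D.dp w) := by
  have hw' : w ᵥ* foxM ℤ = 0 := by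
    rw [show w = -toW ℤ r (D.u ℤ) from funext fun j => (hw j).symm]
    exact (WK ℤ).neg_mem (toW_mem ℤ D.dat _ (D.u_bd ℤ))
  have c1 := bd_cx ℤ D.inj D.loc
  have c2 := dDp_cx w hw'
  constructor
  · rintro (s | i) (s' | j) e
    · exact c1.odd s s' e
    · change D.rp s j = 0
      rcases D.cases s with rfl | ⟨s, rfl⟩
      · rw [rp, D.ext_tt]
        cases j with
        | none => simp [fpar, par, tt, D.h4, parDp] at e; exact absurd e (by decide)
        | some j => rfl
      · rw [rp, D.ext_I]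
        cases j with
        | none => rfl
        | some j => exact D.dat.cx.odd (Sum.inl s) (Sum.inr j) e
    · rfl
    · exact c2.odd i j e
  · have : bd ℤ X o h' * D.rp + D.rp * dDp w = 0 := by
      ext1 s j
      simp only [Matrix.add_apply, mul_apply, D.sum, D.bd_tt, zero_mul, zero_add, rp, D.ext_I,
        Fintype.sum_option, Matrix.zero_apply]
      rcases D.cases s with rfl | ⟨s, rfl⟩
      · simp only [D.ext_tt, Option.elim, zero_mul, Finset.sum_const_zero, add_zero, one_mul]
        cases j with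
        | none => simp [dDp]
        | some j =>
          have h0 : j.deg ≠ 2 → ∑ x, D.u ℤ x * r x j = 0 := fun hj =>
            Finset.sum_eq_zero fun x _ => by
              by_cases h3 : x.1.card = 3
              · have : r x j = 0 := by
                  by_contra e
                  have := D.dat.gr x j e
                  omega
                rw [this, mul_zero]
              · rw [D.u_card ℤ x h3, zero_mul]
          cases j with
          | rel j =>
            have := hw j
            simp only [toW, vecMul, dotProduct, map_apply, fin_red_int] at this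
            change ∑ x, D.u ℤ x * r x (.rel j) + w j = 0
            rw [← this, add_neg_cancel]
          | gen i => exact (add_zero _).trans (h0 (by simp [DI.deg]))
          | pt => exact (add_zero _).trans (h0 (by simp [DI.deg]))
      · simp only [D.ext_I, Option.elim, zero_mul, zero_add, D.bd_I]
        cases j with
        | none => simp [dDp]
        | some j =>
          have := congrFun (congrFun D.dat.cx.sq (Sum.inl s)) (Sum.inr j)
          simpa [cone, mul_apply, dDp] using this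
    rw [dp, fromBlocks_multiply, c1.sq, c2.sq, this]
    simp

/-- The splitting off of the pair formed by `t` and the 3-cell. -/
def e1 : ((X.del t).faces ⊕ DI) ⊕ Bool ≃ X.faces ⊕ Option DI where
  toFun := Sum.elim (Sum.map finI some) fun b => bif b then Sum.inl D.tt else Sum.inr none
  invFun := Sum.elim (fun s => (D.eqv.symm s).elim (Sum.inr true) fun s => Sum.inl (Sum.inl s))
    fun j => j.elim (Sum.inr false) fun j => Sum.inl (Sum.inr j)
  left_inv := by
    rintro ((s | j) | (_ | _))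
    · exact D.ext_I _ _ s
    · rfl
    · rfl
    · exact D.ext_tt _ _
  right_inv := by
    rintro (s | (_ | j))
    · rcases D.cases s with rfl | ⟨s, rfl⟩
      · exact congrArg _ (D.ext_tt _ _)
      · exact congrArg _ (D.ext_I _ _ s)
    · rfl
    · rfl

theorem e1_par : Sum.elim (fpar X) parDp ∘ D.e1 ∘ Sum.inl = cpar (X.del t) := by
  funext x
  rcases x with s | j <;> rfl

theorem e1_sub (w : Fin 2 → ZQ) :
    (D.dp w).submatrix (D.e1 ∘ Sum.inl) (D.e1 ∘ Sum.inl) = cone (X.del t) o h r := by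
  ext1 x y
  rcases x with s | i <;> rcases y with s' | j
  · exact D.bd_I ℤ s s'
  · exact D.ext_I _ _ s
  · rfl
  · rfl

theorem e1_tri (w : Fin 2 → ZQ) : Tri D.e1 (D.dp w) := by
  refine Or.inl ?_
  rintro (s | i) (_ | _)
  · exact D.ext_I _ _ s
  · exact D.bd_tt ℤ _
  · rfl
  · rfl

theorem e1_triv [Nice T] (ρ : Q →* Matrix (Fin 2) (Fin 2) T) {w : Fin 2 → ZQ}
    (hc : IsCx (Sum.elim (fpar X) parDp) (D.dp w)) :
    Triv (lin ρ) (Sum.elim (fpar X) parDp ∘ D.e1 ∘ Sum.inr)
      ((D.dp w).submatrix (D.e1 ∘ Sum.inr) (D.e1 ∘ Sum.inr)) := by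
  have p1 : par t = true := by simp [par, D.h4]; decide
  refine aml (lin ρ) (hc.split D.e1 (D.e1_tri w)).2 not (fun _ => 0) (· = true) (by decide)
    (by decide) ?_ (fun _ => rfl) ?_ ?_
  · rintro (_ | _)
    · exact p1
    · change false = !par t
      rw [p1]; rfl
  · rintro _ rfl
    exact ⟨1, D.ext_tt _ _, by rw [Units.val_one, map_one, det_one, cls_one]⟩
  · rintro (_ | _) (_ | _) e
    · exact absurd rfl e
    · exact absurd rfl e
    · exact Or.inl ⟨rfl, rfl⟩
    · exact absurd (D.bd_tt ℤ _) e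

end FinD

theorem not_PP_del [Nice T] {ρ : Q →* Matrix (Fin 2) (Fin 2) T} (hρ : Iface ρ)
    (hD : ∀ (v a : ZQ) (c : ℤ), a * v - 1 = c • NN ℤ →
      TrivT (fp (Fin 2) parDp) (flat (lin ρ) (dDp fun j => v * u0 ℤ j)))
    {X : SC V} (hX : X.Closed) {t : Finset V} (ht : t ∈ X.faces) (h4 : t.card = 4) :
    ¬ PP ρ (X.del t) := by
  rintro ⟨o, h, r, H, hne⟩
  obtain ⟨h', hl, he⟩ := exists_loc_ext ht h4 hX.pure.1 H.loc
  have D : FinD X t o h h' r := ⟨hX, ht, h4, H, hl, he⟩
  obtain ⟨v, hv⟩ := ker_fox ℤ _ ((WK ℤ).neg_mem (toW_mem ℤ H _ (D.u_bd ℤ)))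
  obtain ⟨a, c, hac⟩ := D.unit hv
  obtain ⟨z, hz1, hz2⟩ := D.orient hv
  have hT := hD v a c hac
  have hc := D.dp_cx (w := fun j => v * u0 ℤ j) hv
  have t1 := D.e1_triv ρ hc
  have k1 : Contr (Sum.elim (fpar X) parDp) (D.dp fun j => v * u0 ℤ j) := by
    rw [splitA D.e1 hc (D.e1_tri _) t1.con, D.e1_par, D.e1_sub]
    exact H.con
  have k2 := (splitF (lin ρ) D.e1 hc (D.e1_tri _) (t1.con.flat _)).2 (k1.flat _)
  rw [D.e1_par, D.e1_sub, t1.tor] at k2
  obtain ⟨k3, k4⟩ := splitF (lin ρ) (Equiv.refl _) hc (Or.inr fun _ _ => rfl) hT.con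
  have k5 := ptolemy hρ hX D.inj hl z hz1 hz2 (k3.1 (k1.flat _))
  have k6 : ftor (lin ρ) (Sum.elim (fpar X) parDp) (D.dp fun j => v * u0 ℤ j) =
      ftor (lin ρ) (fpar X) (bd ℤ X o h') *
        tor (fp (Fin 2) parDp) (flat (lin ρ) (dDp fun j => v * u0 ℤ j)) := k4 (k1.flat _)
  rw [k5, hT.tor] at k6
  exact hne (((mul_one _).symm.trans k2.symm).trans (k6.trans (mul_one (1 : SqCl T))))

end MP35
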