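import Pool.Agent.Lib.MP_35c604_gt.Basic

/-! TASK HAT: a manifold with coned boundary satisfies the local hypotheses. -/

namespace MP35
namespace SC

open Finset Relation

variable {V : Type} [DecidableEq V] {M : SC V}

section general

variable {K : SC V}

theorem hat_mem_link {v : V} {s : Finset V} :
    s ∈ (K.link v).faces ↔ s.Nonempty ∧ v ∉ s ∧ insert v s ∈ K.faces :=
  mem_link.trans ⟨fun h => ⟨K.ne s h.1, h.2⟩,
    fun h => ⟨K.down _ h.2.2 s (subset_insert v s) h.1, h.2⟩⟩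

theorem hat_deg_link {v : V} {s : Finset V} (hv : v ∉ s) :
    (K.link v).deg s = K.deg (insert v s) := by
  refine card_bij (fun t _ => insert v t) (fun t ht => ?_) (fun t ht t' ht' e => ?_)
    fun t ht => ?_
  · obtain ⟨h1, h2, h3⟩ := mem_filter.1 ht
    obtain ⟨-, h4, h5⟩ := mem_link.1 h1
    exact mem_filter.2 ⟨h5, insert_subset_insert v h2, by
      rw [card_insert_of_notMem h4, card_insert_of_notMem hv, h3]⟩
  · rw [← erase_insert (mem_link.1 (mem_filter.1 ht).1).2.1, e,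
      erase_insert (mem_link.1 (mem_filter.1 ht').1).2.1]
  · obtain ⟨h1, h2, h3⟩ := mem_filter.1 ht
    have h4 : v ∈ t := h2 (mem_insert_self v s)
    have h5 : (t.erase v).card = s.card + 1 := by
      rw [card_erase_of_mem h4, h3, card_insert_of_notMem hv]; rfl
    refine ⟨t.erase v, mem_filter.2 ⟨hat_mem_link.2 ⟨card_pos.1 (by omega), notMem_erase v t, ?_⟩,
      subset_erase.2 ⟨(subset_insert v s).trans h2, hv⟩, h5⟩, insert_erase h4⟩
    rwa [insert_erase h4]

theorem hat_link_bdry (K : SC V) (v : V) : (K.bdry 3).link v = (K.link v).bdry 2 := by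
  refine ext' (Finset.ext fun s => ?_)
  rw [hat_mem_link, mem_bdry, mem_bdry, hat_mem_link]
  constructor
  · rintro ⟨h1, h2, h3, f, hf, h4, h5, h6⟩
    have hv : v ∈ f := h6 (mem_insert_self v s)
    have h7 : (f.erase v).card = 2 := by rw [card_erase_of_mem hv, h4]
    refine ⟨⟨h1, h2, h3⟩, f.erase v, hat_mem_link.2 ⟨card_pos.1 (by omega), notMem_erase v f, ?_⟩,
      h7, ?_, subset_erase.2 ⟨(subset_insert v s).trans h6, h2⟩⟩
    · rwa [insert_erase hv]
    · rwa [hat_deg_link (notMem_erase v f), insert_erase hv]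
  · rintro ⟨⟨h1, h2, h3⟩, g, hg, h4, h5, h6⟩
    obtain ⟨-, h7, h8⟩ := mem_link.1 hg
    exact ⟨h1, h2, h3, insert v g, h8, by rw [card_insert_of_notMem h7, h4],
      by rwa [← hat_deg_link h7], insert_subset_insert v h6⟩

theorem hat_edges (h : K.Connected) {g g' : Finset V} (hg : g ∈ K.faces) (h2 : g.card = 2)
    (hg' : g' ∈ K.faces) (h2' : g'.card = 2) :
    ReflTransGen (fun a b => b ∈ K.faces ∧ b.card = 2 ∧ (a ∩ b).Nonempty) g g' := by
  obtain ⟨u, hu⟩ := K.ne g hg
  obtain ⟨u', hu'⟩ := K.ne g' hg'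
  have hp := h.2 u (mem_verts_of_mem hg hu) u' (mem_verts_of_mem hg' hu')
  induction hp generalizing g' with
  | refl => exact .single ⟨hg', h2', u, mem_inter.2 ⟨hu, hu'⟩⟩
  | @tail a b _ hab ih =>
    by_cases e : a = b
    · exact ih hg' h2' (e ▸ hu')
    · exact (ih hab (card_pair e) (mem_insert_self _ _)).tail
        ⟨hg', h2', b, mem_inter.2 ⟨by simp, hu'⟩⟩

theorem hat_ec_vertex {v : V} (hv : v ∈ K.verts) : K.ec {v} = -1 + (K.link v).chi := by
  have h1 : K.faces.filter ({v} ⊆ ·) = insert {v} ((K.link v).faces.image (insert v)) := by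
    ext t
    simp only [mem_filter, mem_insert, mem_image, singleton_subset_iff]
    constructor
    · rintro ⟨h1, h2⟩
      rcases (t.erase v).eq_empty_or_nonempty with h | h
      · left; rw [← insert_erase h2, h]; rfl
      · exact Or.inr ⟨t.erase v, hat_mem_link.2 ⟨h, notMem_erase v t, by rwa [insert_erase h2]⟩,
          insert_erase h2⟩
    · rintro (rfl | ⟨s, hs, rfl⟩)
      · exact ⟨hv, mem_singleton_self v⟩
      · exact ⟨(mem_link.1 hs).2.2, mem_insert_self v s⟩
  have h2 : {v} ∉ (K.link v).faces.image (insert v) := fun h => by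
    obtain ⟨s, hs, e⟩ := mem_image.1 h
    obtain ⟨⟨u, hu⟩, h3, -⟩ := hat_mem_link.1 hs
    have : u ∈ ({v} : Finset V) := e ▸ mem_insert_of_mem hu
    exact h3 (mem_singleton.1 this ▸ hu)
  rw [ec, h1, sum_insert h2, sum_image fun s hs t ht e => by
    rw [← erase_insert (mem_link.1 hs).2.1, e, erase_insert (mem_link.1 ht).2.1], chi]
  congr 1
  exact sum_congr rfl fun s hs => by rw [card_insert_of_notMem (mem_link.1 hs).2.1]

theorem hat_ec_zero {v : V} (hv : v ∉ K.verts) : K.ec {v} = 0 := by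
  rw [ec, filter_eq_empty_iff.2 fun t ht h => hv (mem_verts_of_mem ht (singleton_subset_iff.1 h)),
    sum_empty]

theorem hat_chi_circle (h : K.IsCircle) : K.chi = 0 := by
  have h1 : (K.faces.filter (·.card = 1)).card * 2 = (K.faces.filter (·.card = 2)).card * 2 := by
    refine card_mul_eq_card_mul (· ⊆ ·) (fun a ha => ?_) fun e he => ?_
    · obtain ⟨h1, h2⟩ := mem_filter.1 ha
      obtain ⟨v, rfl⟩ := card_eq_one.1 h2
      refine Eq.trans ?_ (h.2.2 v h1)
      rw [deg, bipartiteAbove, filter_filter]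
      exact congrArg _ (filter_congr fun t _ => and_comm)
    · obtain ⟨h1, h2⟩ := mem_filter.1 he
      have : (K.faces.filter (·.card = 1)).bipartiteBelow (· ⊆ ·) e = powersetCard 1 e := by
        ext a
        simp only [mem_bipartiteBelow, mem_filter, mem_powersetCard]
        exact ⟨fun h => ⟨h.2, h.1.2⟩,
          fun h => ⟨⟨K.down e h1 a h.1 (card_pos.1 (by omega)), h.2⟩, h.1⟩⟩
      rw [this, card_powersetCard, h2]; rfl
  have h2 : K.faces.filter (fun s => ¬ s.card = 1) = K.faces.filter (·.card = 2) :=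
    filter_congr fun s hs => by
      have := h.2.1 s hs
      have := card_pos.2 (K.ne s hs)
      omega
  rw [chi, ← sum_filter_add_sum_filter_not _ (·.card = 1), h2,
    sum_congr rfl (g := fun _ => 1) fun s hs => by rw [(mem_filter.1 hs).2]; rfl,
    sum_congr (s₁ := K.faces.filter (·.card = 2)) rfl (g := fun _ => -1) fun s hs => by
      rw [(mem_filter.1 hs).2]; rfl]
  simp only [sum_const, nsmul_eq_mul]
  omega

theorem hat_adj_mono {s s' t t' : Finset V} (h : s' ⊆ s) (h' : ReflTransGen (K.Adj s) t t') :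
    ReflTransGen (K.Adj s') t t' :=
  ReflTransGen.mono (fun _ _ a => ⟨a.1, a.2.1, h.trans a.2.2.1, a.2.2.2⟩) _ _ h'

end general

section manifold

theorem hat_conn (h : M.IsManifold) {v : V} (hv : v ∈ M.verts) : (M.link v).Connected :=
  (h v hv).elim (·.1) (·.1)

theorem hat_vert_link {v w : V} {s : Finset V} (hs : s ∈ M.faces) (hv : v ∈ s) (hw : w ∈ s)
    (e : v ≠ w) : w ∈ (M.link v).verts :=
  hat_mem_link.2 ⟨singleton_nonempty w, notMem_singleton.2 e,
    M.down s hs _ (insert_subset hv (singleton_subset_iff.2 hw)) (insert_nonempty _ _)⟩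

theorem hat_graph (h : M.IsManifold) {v w : V} (hv : v ∈ M.verts) (hw : w ∈ (M.link v).verts) :
    ((M.link v).link w).Connected ∧ ((M.link v).link w).DimLE 1 ∧
      ∀ u ∈ ((M.link v).link w).verts,
        ((M.link v).link w).deg {u} = 1 ∨ ((M.link v).link w).deg {u} = 2 := by
  have hc : ((M.link v).link w).IsCircle ∨ ((M.link v).link w).IsArc :=
    (h v hv).elim (fun a => Or.inl (a.2.1 w hw)) fun a => a.2.1 w hw
  exact hc.elim (fun a => ⟨a.1, a.2.1, fun u hu => Or.inr (a.2.2 u hu)⟩)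
    fun a => ⟨a.1, a.2.1, a.2.2.1⟩

theorem hat_mem_graph {v w : V} {s : Finset V} (e : v ≠ w) : s ∈ ((M.link v).link w).faces ↔
    s.Nonempty ∧ v ∉ s ∧ w ∉ s ∧ insert v (insert w s) ∈ M.faces := by
  rw [hat_mem_link, hat_mem_link, mem_insert, not_or]
  exact ⟨fun a => ⟨a.1, a.2.2.2.1.2, a.2.1, a.2.2.2.2⟩,
    fun a => ⟨a.1, a.2.2.1, insert_nonempty _ _, ⟨e, a.2.1⟩, a.2.2.2⟩⟩

theorem hat_erase2 {v w : V} {s : Finset V} (hs : s ∈ M.faces) (hv : v ∈ s) (hw : w ∈ s)
    (e : v ≠ w) (h3 : 3 ≤ s.card) : (s.erase v).erase w ∈ ((M.link v).link w).faces ∧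
      ((s.erase v).erase w).card + 2 = s.card ∧ insert v (insert w ((s.erase v).erase w)) = s := by
  have h1 : w ∈ s.erase v := mem_erase.2 ⟨e.symm, hw⟩
  have h2 : ((s.erase v).erase w).card + 2 = s.card := by
    rw [card_erase_of_mem h1, card_erase_of_mem hv]; omega
  have h4 : insert v (insert w ((s.erase v).erase w)) = s := by
    rw [insert_erase h1, insert_erase hv]
  exact ⟨(hat_mem_graph e).2 ⟨card_pos.1 (by omega), fun a => notMem_erase v s (mem_of_mem_erase a),
    notMem_erase _ _, h4.symm ▸ hs⟩, h2, h4⟩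

theorem hat_dim (h : M.IsManifold) : M.DimLE 3 := fun s hs => by
  by_contra hc
  obtain ⟨v, hv, w, hw, e⟩ := one_lt_card.1 (show 1 < s.card by omega)
  obtain ⟨h1, h2, -⟩ := hat_erase2 hs hv hw e (by omega)
  have := (hat_graph h (mem_verts_of_mem hs hv) (hat_vert_link hs hv hw e)).2.1 _ h1
  omega

theorem hat_tri {v : V} {f : Finset V} (hf : f ∈ M.faces) (h3 : f.card = 3) (hv : v ∈ f) :
    ∃ w ∈ (M.link v).verts, ∃ u ∈ ((M.link v).link w).verts,
      M.deg f = ((M.link v).link w).deg {u} := by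
  obtain ⟨w, hw, e⟩ := exists_mem_ne (show 1 < f.card by omega) v
  obtain ⟨h1, h2, h4⟩ := hat_erase2 hf hv hw e.symm h3.ge
  obtain ⟨u, hu⟩ := card_eq_one.1 (show ((f.erase v).erase w).card = 1 by omega)
  rw [hu] at h1 h4
  obtain ⟨-, h5, h6, -⟩ := (hat_mem_graph e.symm).1 h1
  refine ⟨w, hat_vert_link hf hv hw e.symm, u, h1, ?_⟩
  rw [hat_deg_link h6, hat_deg_link (by rw [mem_insert, not_or]; exact ⟨e.symm, h5⟩), h4]

theorem hat_deg (h : M.IsManifold) {f : Finset V} (hf : f ∈ M.faces) (h3 : f.card = 3) :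
    M.deg f = 1 ∨ M.deg f = 2 := by
  obtain ⟨v, hv⟩ := M.ne f hf
  obtain ⟨w, hw, u, hu, e⟩ := hat_tri hf h3 hv
  rw [e]; exact (hat_graph h (mem_verts_of_mem hf hv) hw).2.2 u hu

theorem hat_step (h : M.IsManifold) {s : Finset V} (hs : s ∈ M.faces) (h3 : s.card ≤ 3) :
    ∃ t ∈ M.faces, s ⊆ t ∧ t.card = s.card + 1 := by
  have h0 := card_pos.2 (M.ne s hs)
  obtain h1 | h1 | h1 : s.card = 1 ∨ s.card = 2 ∨ s.card = 3 := by omega
  · obtain ⟨v, rfl⟩ := card_eq_one.1 h1
    obtain ⟨a, ha⟩ := (hat_conn h hs).1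
    obtain ⟨w, hw⟩ := (M.link v).ne a ha
    obtain ⟨-, h4, h5⟩ := mem_link.1 (mem_verts_of_mem ha hw)
    exact ⟨_, h5, singleton_subset_iff.2 (mem_insert_self _ _), card_insert_of_notMem h4⟩
  · obtain ⟨v, w, e, rfl⟩ := card_eq_two.1 h1
    have hv : v ∈ ({v, w} : Finset V) := mem_insert_self _ _
    obtain ⟨a, ha⟩ := (hat_graph h (mem_verts_of_mem hs hv) (hat_vert_link hs hv (by simp) e)).1.1
    obtain ⟨u, hu⟩ := SC.ne _ a ha
    obtain ⟨-, h4, h5, h6⟩ := (hat_mem_graph e).1 (mem_verts_of_mem ha hu)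
    refine ⟨_, h6, insert_subset_insert _ (singleton_subset_iff.2 (mem_insert_self _ _)), ?_⟩
    rw [card_insert_of_notMem (by rw [mem_insert, not_or]; exact ⟨e, h4⟩),
      card_insert_of_notMem h5, h1, card_singleton]
  · obtain ⟨t, ht⟩ := card_pos.1 (show 0 < M.deg s by have := hat_deg h hs h1; omega)
    exact ⟨t, mem_filter.1 ht⟩

theorem hat_pure (h : M.IsManifold) {s : Finset V} (hs : s ∈ M.faces) :
    ∃ t ∈ M.faces, s ⊆ t ∧ t.card = 4 := by
  obtain ⟨k, hk⟩ := Nat.exists_eq_add_of_le (hat_dim h s hs)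
  induction k generalizing s with
  | zero => exact ⟨s, hs, Subset.rfl, hk.symm⟩
  | succ k ih =>
    obtain ⟨t, ht, h1, h2⟩ := hat_step h hs (by omega)
    obtain ⟨t', ht', h3, h4⟩ := ih ht (by omega)
    exact ⟨t', ht', h1.trans h3, h4⟩

theorem hat_ball (h : M.IsManifold) {v : V} (hv : v ∈ (M.bdry 3).verts) : (M.link v).IsBall := by
  obtain ⟨h1, f, hf, h3, h4, h5⟩ := mem_bdry.1 hv
  refine (h v h1).resolve_left fun a => ?_
  obtain ⟨w, hw, u, hu, e⟩ := hat_tri hf h3 (singleton_subset_iff.1 h5)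
  have := (a.2.1 w hw).2.2 u hu
  omega

theorem hat_circle (h : M.IsManifold) {v : V} (hv : v ∈ (M.bdry 3).verts) :
    ((M.bdry 3).link v).IsCircle := by
  rw [hat_link_bdry]; exact (hat_ball h hv).2.2.2

theorem hat_scE (h : M.IsManifold) {v w : V} (e : v ≠ w) : M.SCat {v, w} := by
  intro t ht t' ht' h4 h4' hs hs'
  have hv : v ∈ ({v, w} : Finset V) := mem_insert_self _ _
  have hw : w ∈ ({v, w} : Finset V) := by simp
  obtain ⟨a1, a2, a3⟩ := hat_erase2 ht (hs hv) (hs hw) e (by omega)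
  obtain ⟨b1, b2, b3⟩ := hat_erase2 ht' (hs' hv) (hs' hw) e (by omega)
  have hc := hat_edges (hat_graph h (mem_verts_of_mem ht (hs hv))
    (hat_vert_link ht (hs hv) (hs hw) e)).1 a1 (by omega) b1 (by omega)
  rw [← a3, ← b3]
  refine hc.lift (fun g => insert v (insert w g)) ?_
  rintro a b ⟨c1, c2, u, c3⟩
  obtain ⟨-, d1, d2, d3⟩ := (hat_mem_graph e).1 c1
  obtain ⟨c4, c5⟩ := mem_inter.1 c3
  refine ⟨d3, ?_, ?_, ?_⟩
  · rw [card_insert_of_notMem (by rw [mem_insert, not_or]; exact ⟨e, d1⟩),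
      card_insert_of_notMem d2, c2]
  · intro x hx; simp only [mem_insert, mem_singleton, mem_inter] at hx ⊢; tauto
  · refine two_lt_card_iff.2 ⟨v, w, u, by simp, by simp, by simp [c4, c5], e, ?_, ?_⟩
    · rintro rfl; exact d1 c5
    · rintro rfl; exact d2 c5

theorem hat_scV (h : M.IsManifold) (v : V) : M.SCat {v} := by
  intro t ht t' ht' h4 h4' hs hs'
  rw [singleton_subset_iff] at hs hs'
  obtain ⟨w, hw, e⟩ := exists_mem_ne (show 1 < t.card by omega) v
  obtain ⟨w', hw', e'⟩ := exists_mem_ne (show 1 < t'.card by omega) v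
  have hp := (hat_conn h (mem_verts_of_mem ht hs)).2 w (hat_vert_link ht hs hw e.symm) w'
    (hat_vert_link ht' hs' hw' e'.symm)
  have key : ∀ {b : V} {x y : Finset V}, b ≠ v → x ∈ M.faces → y ∈ M.faces → x.card = 4 →
      y.card = 4 → v ∈ x → b ∈ x → v ∈ y → b ∈ y → ReflTransGen (M.Adj {v}) x y :=
    fun hb hx hy cx cy h1 h2 h3 h4 => hat_adj_mono (singleton_subset_iff.2 (mem_insert_self _ _))
      (hat_scE h hb.symm _ hx _ hy cx cy (insert_subset h1 (singleton_subset_iff.2 h2))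
        (insert_subset h3 (singleton_subset_iff.2 h4)))
  induction hp generalizing t' with
  | refl => exact key e ht ht' h4 h4' hs hw hs' hw'
  | @tail a b _ hab ih =>
    obtain ⟨-, h5, h6⟩ := mem_link.1 hab
    obtain ⟨y, hy, h7, h8⟩ := hat_pure h h6
    exact (ih y hy h8 (h7 (by simp)) (h7 (by simp)) fun c => h5 (by simp [c])).trans
      (key e' hy ht' h8 h4' (h7 (by simp)) (h7 (by simp)) hs' hw')

end manifold

section cone

/-- A face of `M` as a face of the coned complex. -/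
def hatUp (t : Finset V) : Finset (Option V) := t.image some

/-- The cone over a face. -/
def hatCone (b : Finset V) : Finset (Option V) := insert none (b.image some)

@[simp] theorem hat_none_up {t : Finset V} : none ∉ hatUp t := by simp [hatUp]

@[simp] theorem hat_some_up {t : Finset V} {v : V} : some v ∈ hatUp t ↔ v ∈ t := by simp [hatUp]

@[simp] theorem hat_none_cone {t : Finset V} : none ∈ hatCone t := by simp [hatCone]

@[simp] theorem hat_some_cone {t : Finset V} {v : V} : some v ∈ hatCone t ↔ v ∈ t := by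
  simp [hatCone]

@[simp] theorem hat_card_up {t : Finset V} : (hatUp t).card = t.card :=
  card_image_of_injective _ (Option.some_injective V)

@[simp] theorem hat_card_cone {t : Finset V} : (hatCone t).card = t.card + 1 := by
  exact (card_insert_of_notMem hat_none_up).trans (congrArg (· + 1) hat_card_up)

@[simp] theorem hat_up_up {s t : Finset V} : hatUp s ⊆ hatUp t ↔ s ⊆ t := by
  simp [subset_iff, Option.forall]

@[simp] theorem hat_up_cone {s t : Finset V} : hatUp s ⊆ hatCone t ↔ s ⊆ t := by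
  simp [subset_iff, Option.forall]

@[simp] theorem hat_cone_cone {s t : Finset V} : hatCone s ⊆ hatCone t ↔ s ⊆ t := by
  simp [subset_iff, Option.forall]

@[simp] theorem hat_cone_up {s t : Finset V} : ¬ hatCone s ⊆ hatUp t :=
  fun h => hat_none_up (h hat_none_cone)

theorem hat_up_inj {s t : Finset V} (h : hatUp s = hatUp t) : s = t :=
  Subset.antisymm (hat_up_up.1 h.le) (hat_up_up.1 h.ge)

theorem hat_cone_inj {s t : Finset V} (h : hatCone s = hatCone t) : s = t :=
  Subset.antisymm (hat_cone_cone.1 h.le) (hat_cone_cone.1 h.ge)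

theorem hat_mem {s : Finset (Option V)} : s ∈ M.hat.faces ↔ (∃ t ∈ M.faces, hatUp t = s) ∨
    ∃ b ∈ (M.bdry 3).faces, s = hatCone b ∨ s = hatCone ∅ := mem_hat

theorem hat_up_mem {t : Finset V} (h : t ∈ M.faces) : hatUp t ∈ M.hat.faces :=
  hat_mem.2 (Or.inl ⟨t, h, rfl⟩)

theorem hat_cone_mem {t : Finset V} (h : t ∈ (M.bdry 3).faces) : hatCone t ∈ M.hat.faces :=
  hat_mem.2 (Or.inr ⟨t, h, Or.inl rfl⟩)

theorem hat_sum {A : Type} [AddCommMonoid A] (P : Finset (Option V) → Prop) [DecidablePred P]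
    (h0 : ¬ P (hatCone ∅)) (g : Finset (Option V) → A) :
    ∑ s ∈ M.hat.faces.filter P, g s = ∑ t ∈ M.faces.filter fun t => P (hatUp t), g (hatUp t) +
      ∑ b ∈ (M.bdry 3).faces.filter fun b => P (hatCone b), g (hatCone b) := by
  rw [← sum_image (g := hatUp) fun _ _ _ _ => hat_up_inj,
    ← sum_image (g := hatCone) fun _ _ _ _ => hat_cone_inj, ← sum_union]
  · refine sum_congr (Finset.ext fun s => ?_) fun _ _ => rfl
    simp only [mem_filter, mem_union, mem_image, hat_mem]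
    constructor
    · rintro ⟨⟨t, ht, rfl⟩ | ⟨b, hb, rfl | rfl⟩, hP⟩
      · exact Or.inl ⟨t, ⟨ht, hP⟩, rfl⟩
      · exact Or.inr ⟨b, ⟨hb, hP⟩, rfl⟩
      · exact absurd hP h0
    · rintro (⟨t, ⟨ht, hP⟩, rfl⟩ | ⟨b, ⟨hb, hP⟩, rfl⟩)
      · exact ⟨Or.inl ⟨t, ht, rfl⟩, hP⟩
      · exact ⟨Or.inr ⟨b, hb, Or.inl rfl⟩, hP⟩
  · refine disjoint_left.2 fun s h1 h2 => ?_
    obtain ⟨t, -, rfl⟩ := mem_image.1 h1
    obtain ⟨b, -, e⟩ := mem_image.1 h2
    exact hat_cone_up e.le

theorem hat_bdry_tri {f : Finset V} (hf : f ∈ M.faces) (h3 : f.card = 3) :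
    f ∈ (M.bdry 3).faces ↔ M.deg f = 1 := by
  refine mem_bdry.trans ⟨fun ⟨_, g, _, h4, h5, h6⟩ => ?_, fun a => ⟨hf, f, hf, h3, a, Subset.rfl⟩⟩
  rwa [eq_of_subset_of_card_le h6 (by omega)]

theorem hat_thin (h : M.IsManifold) : M.hat.Thin := by
  intro s hs h3
  rw [deg, card_eq_sum_ones, hat_sum _ (by simp [h3]), ← card_eq_sum_ones, ← card_eq_sum_ones]
  rcases hat_mem.1 hs with ⟨f, hf, rfl⟩ | ⟨e, he, rfl | rfl⟩
  · rw [hat_card_up] at h3
    simp only [hat_up_up, hat_up_cone, hat_card_up, hat_card_cone]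
    have h1 : (M.bdry 3).faces.filter (fun b => f ⊆ b ∧ b.card + 1 = f.card + 1) =
        (M.bdry 3).faces.filter (· = f) := filter_congr fun b _ =>
      ⟨fun a => (eq_of_subset_of_card_le a.1 (by omega)).symm, fun a => a ▸ ⟨Subset.rfl, rfl⟩⟩
    rw [h1, filter_eq', if_congr (hat_bdry_tri hf h3) rfl rfl]
    change M.deg f + _ = 2
    rcases hat_deg h hf h3 with a | a <;> simp [a]
  · rw [hat_card_cone] at h3
    obtain ⟨v, w, c, rfl⟩ := card_eq_two.1 (show e.card = 2 by omega)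
    have hv : v ∈ ({v, w} : Finset V) := mem_insert_self _ _
    have := (hat_circle h (mem_verts_of_mem he hv)).2.2 w (hat_vert_link he hv (by simp) c)
    rw [hat_deg_link (notMem_singleton.2 c), deg] at this
    simp only [hat_cone_up, hat_cone_cone, hat_card_cone, false_and, filter_false, card_empty,
      zero_add, add_left_inj, this]
  · simp at h3

theorem hat_pure3 (h : M.IsManifold) : M.hat.Pure3 := by
  have key : ∀ s ∈ M.hat.faces, ∃ t ∈ M.hat.faces, s ⊆ t ∧ t.card = 4 := fun s hs => by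
    rcases hat_mem.1 hs with ⟨f, hf, rfl⟩ | ⟨b, hb, e⟩
    · obtain ⟨t, ht, h1, h2⟩ := hat_pure h hf
      exact ⟨_, hat_up_mem ht, hat_up_up.2 h1, hat_card_up.trans h2⟩
    · obtain ⟨-, f, hf, h1, h2, h3⟩ := mem_bdry.1 hb
      refine ⟨_, hat_cone_mem ((hat_bdry_tri hf h1).2 h2), ?_, by rw [hat_card_cone, h1]⟩
      rcases e with rfl | rfl
      · exact hat_cone_cone.2 h3
      · exact hat_cone_cone.2 (empty_subset _)
  refine ⟨fun s hs => ?_, key⟩
  obtain ⟨t, -, h1, h2⟩ := key s hs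
  exact (card_le_card h1).trans h2.le

theorem hat_inter_up {s t : Finset V} : hatUp s ∩ hatUp t = hatUp (s ∩ t) := by
  ext (_ | x) <;> simp

theorem hat_sc_up (h : M.IsManifold) {s : Finset V} (hs : M.SCat s) : M.hat.SCat (hatUp s) := by
  have key : ∀ x ∈ M.hat.faces, x.card = 4 → hatUp s ⊆ x → ∃ t ∈ M.faces, t.card = 4 ∧ s ⊆ t ∧
      M.hat.Adj (hatUp s) x (hatUp t) ∧ M.hat.Adj (hatUp s) (hatUp t) x := fun x hx h4 h1 => by
    obtain ⟨t, ht, h2, h3, h5⟩ : ∃ t ∈ M.faces, t.card = 4 ∧ s ⊆ t ∧ 3 ≤ (x ∩ hatUp t).card := by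
      rcases hat_mem.1 hx with ⟨t, ht, rfl⟩ | ⟨f, hf, rfl | rfl⟩
      · exact ⟨t, ht, hat_card_up.symm.trans h4, hat_up_up.1 h1, by rw [inter_self]; omega⟩
      · obtain ⟨t, ht, h2, h3⟩ := hat_pure h (mem_bdry.1 hf).1
        refine ⟨t, ht, h3, (hat_up_cone.1 h1).trans h2, ?_⟩
        have := card_le_card (subset_inter (hat_up_cone.2 (Subset.refl f)) (hat_up_up.2 h2))
        rw [hat_card_cone] at h4
        rw [hat_card_up] at this
        omega
      · simp at h4
    exact ⟨t, ht, h2, h3, ⟨hat_up_mem ht, hat_card_up.trans h2, subset_inter h1 (hat_up_up.2 h3),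
      h5⟩, hx, h4, subset_inter (hat_up_up.2 h3) h1, by rwa [inter_comm]⟩
  intro x hx y hy cx cy sx sy
  obtain ⟨t, ht, a1, a2, a3, -⟩ := key x hx cx sx
  obtain ⟨t', ht', b1, b2, -, b3⟩ := key y hy cy sy
  refine (((hs t ht t' ht' a1 b1 a2 b2).lift hatUp fun a b c => ?_).head a3).tail b3
  refine ⟨hat_up_mem c.1, hat_card_up.trans c.2.1, ?_, ?_⟩
  · rw [hat_inter_up]; exact hat_up_up.2 c.2.2.1
  · rw [hat_inter_up, hat_card_up]; exact c.2.2.2

theorem hat_sc_cone (h : M.IsManifold) (v : V) : M.hat.SCat (hatCone {v}) := by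
  have key : ∀ x ∈ M.hat.faces, x.card = 4 → hatCone {v} ⊆ x → v ∈ (M.bdry 3).verts ∧
      ∃ g ∈ ((M.bdry 3).link v).faces, g.card = 2 ∧ x = hatCone (insert v g) :=
    fun x hx h4 h1 => by
    rcases hat_mem.1 hx with ⟨t, ht, rfl⟩ | ⟨f, hf, rfl | rfl⟩
    · exact absurd h1 hat_cone_up
    · rw [hat_cone_cone, singleton_subset_iff] at h1
      rw [hat_card_cone] at h4
      have h2 : (f.erase v).card = 2 := by rw [card_erase_of_mem h1]; omega
      exact ⟨mem_verts_of_mem hf h1, f.erase v, hat_mem_link.2 ⟨card_pos.1 (by omega),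
        notMem_erase _ _, by rwa [insert_erase h1]⟩, h2, by rw [insert_erase h1]⟩
    · simp at h4
  intro x hx y hy cx cy sx sy
  obtain ⟨hv, g, hg, a1, rfl⟩ := key x hx cx sx
  obtain ⟨-, g', hg', b1, rfl⟩ := key y hy cy sy
  refine (hat_edges (hat_circle h hv).1 hg a1 hg' b1).lift (fun g => hatCone (insert v g)) ?_
  rintro a b ⟨c1, c2, u, c3⟩
  obtain ⟨-, d1, d2⟩ := mem_link.1 c1
  obtain ⟨c4, c5⟩ := mem_inter.1 c3
  refine ⟨hat_cone_mem d2, by rw [hat_card_cone, card_insert_of_notMem d1, c2],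
    by simp [subset_inter_iff], ?_⟩
  refine two_lt_card_iff.2 ⟨none, some v, some u, by simp, by simp, by simp [c4, c5], by simp,
    by simp, ?_⟩
  rintro ⟨rfl⟩
  exact d1 c5

end cone

theorem hat_loc (h : M.IsManifold) : Loc M.hat (· ≠ none) where
  pure := hat_pure3 h
  thin := fun f hf h3 _ => hat_thin h f hf h3
  scE := fun e he h2 _ => by
    rcases hat_mem.1 he with ⟨t, ht, rfl⟩ | ⟨b, hb, rfl | rfl⟩
    · obtain ⟨v, w, c, rfl⟩ := card_eq_two.1 (hat_card_up.symm.trans h2)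
      exact hat_sc_up h (hat_scE h c)
    · rw [hat_card_cone] at h2
      obtain ⟨v, rfl⟩ := card_eq_one.1 (show b.card = 1 by omega)
      exact hat_sc_cone h v
    · simp at h2
  scV := fun v hv => by
    obtain ⟨u, rfl⟩ := Option.ne_none_iff_exists'.1 hv
    exact hat_sc_up h (hat_scV h u)

theorem hat_ec (h : M.IsManifold) (v : V) (hv : v ∈ M.verts) : M.hat.ec {some v} = 1 := by
  have h1 : M.hat.ec {some v} = M.ec {v} - (M.bdry 3).ec {v} := by
    rw [ec, hat_sum _ (by simp)]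
    simp [ec, pow_succ, sub_eq_add_neg]
  rw [h1, hat_ec_vertex hv]
  by_cases hb : v ∈ (M.bdry 3).verts
  · rw [hat_ec_vertex hb, hat_chi_circle (hat_circle h hb), (hat_ball h hb).2.2.1]; rfl
  · rw [hat_ec_zero hb]
    rcases h v hv with a | a
    · rw [a.2.2]; rfl
    · obtain ⟨s, hs⟩ := a.2.2.2.1.1
      rw [← hat_link_bdry] at hs
      exact absurd (mem_verts_of_mem (mem_link.1 hs).2.2 (mem_insert_self v s)) hb

theorem map_some_subset_hat {K : SC V} (h : K.faces ⊆ M.faces) :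
    (K.map some).faces ⊆ M.hat.faces := fun s hs => by
  obtain ⟨t, ht, rfl⟩ := mem_map.1 hs
  exact hat_up_mem (h ht)

end SC
end MP35
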