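import Pool.Agent.Lib.MP_35c604_gt.ChainDefs

/-! TASK INCL: incidence numbers. -/

namespace MP35

open Matrix SC

variable {V : Type} [DecidableEq V]

theorem inc_erase (o : V → ℕ) {s : Finset V} {v : V} (hv : v ∈ s) :
    inc o s (s.erase v) = (-1) ^ pos o s v := by
  unfold inc
  rw [Finset.sum_eq_single_of_mem v hv, if_pos rfl]
  intro w _ hw
  exact if_neg fun c => hw ((Finset.erase_inj s hv).1 c).symm

theorem inc_ne_zero {o : V → ℕ} {s t : Finset V} (h : inc o s t ≠ 0) :
    ∃ v ∈ s, t = s.erase v := by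
  obtain ⟨v, hv, c⟩ := Finset.exists_ne_zero_of_sum_ne_zero h
  exact ⟨v, hv, by_contra fun e => c (if_neg e)⟩

theorem incl_erase {s t : Finset V} (h1 : t ⊆ s) (h2 : s.card = t.card + 1) :
    ∃ v ∈ s, t = s.erase v := by
  obtain ⟨v, hv, hv'⟩ := Finset.exists_mem_notMem_of_card_lt_card (s := t) (t := s) (by omega)
  refine ⟨v, hv, Finset.eq_of_subset_of_card_le (Finset.subset_erase.2 ⟨h1, hv'⟩) ?_⟩
  rw [Finset.card_erase_of_mem hv]
  omega

theorem inc_ne_zero_iff {o : V → ℕ} {s t : Finset V} :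
    inc o s t ≠ 0 ↔ t ⊆ s ∧ s.card = t.card + 1 := by
  constructor
  · intro h
    obtain ⟨v, hv, rfl⟩ := inc_ne_zero h
    exact ⟨Finset.erase_subset _ _, (Finset.card_erase_add_one hv).symm⟩
  · rintro ⟨h1, h2⟩
    obtain ⟨v, hv, rfl⟩ := incl_erase h1 h2
    rw [inc_erase o hv]
    exact pow_ne_zero _ (by norm_num)

theorem inc_eq_or {o : V → ℕ} {s t : Finset V} (h1 : t ⊆ s) (h2 : s.card = t.card + 1) :
    inc o s t = 1 ∨ inc o s t = -1 := by
  obtain ⟨v, hv, rfl⟩ := incl_erase h1 h2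
  rw [inc_erase o hv]
  exact neg_one_pow_eq_or ℤ _

theorem inc_congr {o o' : V → ℕ} {s : Finset V} (h : ∀ v ∈ s, o v = o' v) (t : Finset V) :
    inc o s t = inc o' s t := by
  unfold inc pos
  refine Finset.sum_congr rfl fun v hv => ?_
  rw [Finset.filter_congr (q := fun w => o' w < o' v) fun w hw => by rw [h w hw, h v hv]]

theorem inc_image {W : Type} [DecidableEq W] {f : V → W} (o : W → ℕ) {s t : Finset V}
    (hf : Set.InjOn f (s ∪ t : Finset V)) : inc o (s.image f) (t.image f) = inc (o ∘ f) s t := by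
  have hs : Set.InjOn f s := hf.mono (Finset.coe_subset.2 Finset.subset_union_left)
  unfold inc
  rw [Finset.sum_image hs]
  refine Finset.sum_congr rfl fun v hv => ?_
  have e1 : (s.image f).erase (f v) = (s.erase v).image f := by
    ext x
    simp only [Finset.mem_erase, Finset.mem_image]
    constructor
    · rintro ⟨a, w, hw, rfl⟩
      exact ⟨w, ⟨fun c => a (c ▸ rfl), hw⟩, rfl⟩
    · rintro ⟨w, ⟨a, hw⟩, rfl⟩
      exact ⟨fun c => a (hs hw hv c), w, hw, rfl⟩
  have e2 : pos o (s.image f) (f v) = pos (o ∘ f) s v := by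
    unfold pos
    rw [Finset.filter_image]
    exact Finset.card_image_of_injOn (hs.mono (Finset.coe_subset.2 (Finset.filter_subset _ _)))
  have e3 : t.image f = (s.erase v).image f ↔ t = s.erase v := by
    refine ⟨fun c => ?_, fun c => c ▸ rfl⟩
    have a1 : ∀ x ∈ t, x ∈ ((s ∪ t : Finset V) : Set V) := fun x hx =>
      Finset.mem_coe.2 (Finset.mem_union_right _ hx)
    have a2 : ∀ x ∈ s.erase v, x ∈ ((s ∪ t : Finset V) : Set V) := fun x hx =>
      Finset.mem_coe.2 (Finset.mem_union_left _ (Finset.mem_of_mem_erase hx))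
    ext x
    constructor
    · intro hx
      obtain ⟨y, hy, e⟩ := Finset.mem_image.1 (c ▸ Finset.mem_image_of_mem f hx)
      exact hf (a2 y hy) (a1 x hx) e ▸ hy
    · intro hx
      obtain ⟨y, hy, e⟩ := Finset.mem_image.1 (c.symm ▸ Finset.mem_image_of_mem f hx)
      exact hf (a1 y hy) (a2 x hx) e ▸ hy
  rw [e1, e2]
  exact if_congr e3 rfl rfl

/-- A row of the incidence matrix against a function on a family containing all nonempty faces of
codimension one. -/
theorem sum_inc {M : Type} [AddCommGroup M] (o : V → ℕ) (K : SC V) {s : Finset V}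
    (hs : s ∈ K.faces) (h2 : 2 ≤ s.card) (f : Finset V → M) :
    ∑ t ∈ K.faces, inc o s t • f t = ∑ v ∈ s, ((-1 : ℤ) ^ pos o s v) • f (s.erase v) := by
  unfold inc
  simp only [Finset.sum_smul, ite_smul, zero_smul]
  rw [Finset.sum_comm]
  refine Finset.sum_congr rfl fun v hv => ?_
  rw [Finset.sum_ite_eq', if_pos]
  refine K.down s hs _ (Finset.erase_subset _ _) (Finset.card_pos.1 ?_)
  rw [Finset.card_erase_of_mem hv]
  omega

theorem incl_pos_lt {o : V → ℕ} {s : Finset V} {v w : V} (hv : v ∈ s) (h : o v < o w) :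
    pos o s w = pos o (s.erase v) w + 1 ∧ pos o (s.erase w) v = pos o s v := by
  unfold pos
  rw [Finset.filter_erase, Finset.filter_erase]
  exact ⟨(Finset.card_erase_add_one (Finset.mem_filter.2 ⟨hv, h⟩)).symm,
    congrArg _ (Finset.erase_eq_of_notMem fun c => h.not_gt (Finset.mem_filter.1 c).2)⟩

theorem inc_sq {o : V → ℕ} (K : SC V) (ho : Set.InjOn o K.verts) {s u : Finset V}
    (hs : s ∈ K.faces) (hu : u.Nonempty) : ∑ t ∈ K.faces, inc o s t * inc o t u = 0 := by
  have _ := hu
  by_cases h2 : 2 ≤ s.card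
  swap
  · refine Finset.sum_eq_zero fun t ht => mul_eq_zero_of_left (by_contra fun c => ?_) _
    have := (inc_ne_zero_iff.1 c).2
    have := (K.ne t ht).card_pos
    omega
  let F : V → V → ℤ := fun v w =>
    if w ≠ v ∧ u = (s.erase v).erase w then (-1) ^ pos o s v * (-1) ^ pos o (s.erase v) w else 0
  have e1 : ∑ t ∈ K.faces, inc o s t * inc o t u = ∑ v ∈ s, ∑ w ∈ s, F v w := by
    refine (sum_inc o K hs h2 fun t => inc o t u).trans (Finset.sum_congr rfl fun v _ => ?_)
    rw [smul_eq_mul, inc, Finset.mul_sum, ← Finset.filter_ne' s v, Finset.sum_filter,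
      Finset.filter_ne']
    refine Finset.sum_congr rfl fun w _ => ?_
    simp only [F, ite_and, mul_ite, mul_zero]
  have lt : ∀ v ∈ s, ∀ w, o v < o w → F v w = - F w v := fun v hv w h => by
    obtain ⟨a, b⟩ := incl_pos_lt hv h
    have n : w ≠ v := fun c => h.ne (c ▸ rfl)
    simp only [F, n, n.symm, ne_eq, not_false_eq_true, true_and, Finset.erase_right_comm (a := w)]
    split_ifs
    · rw [a, b]; ring
    · simp
  have e2 : ∀ v ∈ s, ∀ w ∈ s, F v w = - F w v := fun v hv w hw => by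
    rcases lt_trichotomy (o v) (o w) with h | h | h
    · exact lt v hv w h
    · obtain rfl := ho (mem_verts_of_mem hs hv) (mem_verts_of_mem hs hw) h
      simp [F]
    · rw [lt w hw v h, neg_neg]
  have e3 : ∑ v ∈ s, ∑ w ∈ s, F v w = - ∑ v ∈ s, ∑ w ∈ s, F v w := by
    conv_rhs => rw [Finset.sum_comm, ← Finset.sum_neg_distrib]
    refine Finset.sum_congr rfl fun v hv => ?_
    rw [← Finset.sum_neg_distrib]
    exact Finset.sum_congr rfl fun w hw => e2 v hv w hw
  omega

theorem bd_cx (k : Type) [CommRing k] {G : Type} [Group G] {K : SC V} {o : V → ℕ}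
    {h : Finset V → Finset V → G} (ho : Set.InjOn o K.verts) (hh : K.IsLoc h) :
    IsCx (fpar K) (bd k K o h) := by
  constructor
  · intro s t hp
    have : inc o s.1 t.1 = 0 := by_contra fun c => by
      have e := (inc_ne_zero_iff.1 c).2
      simp only [fpar, par, e, Nat.even_add_one, decide_eq_decide] at hp
      exact not_iff_self hp
    simp [bd, this]
  · ext1 s u
    have e : ∀ t : K.faces, bd k K o h s t * bd k K o h t u =
        MonoidAlgebra.singleAddHom (h s.1 u.1) ((inc o s.1 t.1 * inc o t.1 u.1 : ℤ) : k) := by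
      intro t
      simp only [bd, MonoidAlgebra.single_mul_single, MonoidAlgebra.singleAddHom_apply,
        Int.cast_mul]
      by_cases a : inc o s.1 t.1 = 0
      · simp [a]
      by_cases b : inc o t.1 u.1 = 0
      · simp [b]
      rw [hh _ s.2 _ t.2 _ u.2 (inc_ne_zero_iff.1 a).1 (inc_ne_zero_iff.1 b).1]
    rw [Matrix.mul_apply, Finset.sum_congr rfl fun t _ => e t, ← map_sum, ← Int.cast_sum,
      Finset.sum_coe_sort K.faces fun t => inc o s.1 t * inc o t u.1,
      inc_sq K ho s.2 (K.ne _ u.2), Int.cast_zero, map_zero, Matrix.zero_apply]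

theorem bd_map (k : Type) [CommRing k] (K : SC V) (o : V → ℕ) (h : Finset V → Finset V → Q) :
    (bd ℤ K o h).map (red k) = bd k K o h := by
  ext1 s t
  simp [bd, red, MonoidAlgebra.mapRingHom_single]

theorem IsLoc.self {G : Type} [Group G] {K : SC V} {h : Finset V → Finset V → G} (hh : K.IsLoc h)
    {s : Finset V} (hs : s ∈ K.faces) : h s s = 1 :=
  mul_left_cancel ((hh s hs s hs s hs subset_rfl subset_rfl).trans (mul_one _).symm)

theorem incl_min {o : V → ℕ} {s : Finset V} (ho : Set.InjOn o s) {n : ℕ} (h : s.card = n + 1) :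
    ∃ (a : V) (t : Finset V), Set.InjOn o t ∧ t.card = n ∧ s = insert a t ∧ ∀ b ∈ t, o a < o b := by
  obtain ⟨a, ha, hm⟩ := s.exists_min_image o (Finset.card_pos.1 (by omega))
  refine ⟨a, s.erase a, ho.mono (Finset.coe_subset.2 (Finset.erase_subset _ _)),
    by rw [Finset.card_erase_of_mem ha, h]; rfl, (Finset.insert_erase ha).symm, fun b hb => ?_⟩
  obtain ⟨n, hb⟩ := Finset.mem_erase.1 hb
  exact (hm b hb).lt_of_ne fun c => n (ho ha hb c).symm

/-- The vertices of a face in increasing order. -/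
theorem exists_sorted2 {o : V → ℕ} {s : Finset V} (ho : Set.InjOn o s) (h : s.card = 2) :
    ∃ a b, o a < o b ∧ s = {a, b} := by
  obtain ⟨a, t, -, h1, rfl, h2⟩ := incl_min ho h
  obtain ⟨b, rfl⟩ := Finset.card_eq_one.1 h1
  exact ⟨a, b, h2 b (by simp), rfl⟩

theorem exists_sorted3 {o : V → ℕ} {s : Finset V} (ho : Set.InjOn o s) (h : s.card = 3) :
    ∃ a b c, o a < o b ∧ o b < o c ∧ s = {a, b, c} := by
  obtain ⟨a, t, h0, h1, rfl, h2⟩ := incl_min ho h
  obtain ⟨b, c, h3, rfl⟩ := exists_sorted2 h0 h1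
  exact ⟨a, b, c, h2 b (by simp), h3, rfl⟩

theorem exists_sorted4 {o : V → ℕ} {s : Finset V} (ho : Set.InjOn o s) (h : s.card = 4) :
    ∃ a b c d, o a < o b ∧ o b < o c ∧ o c < o d ∧ s = {a, b, c, d} := by
  obtain ⟨a, t, h0, h1, rfl, h2⟩ := incl_min ho h
  obtain ⟨b, c, d, h3, h4, rfl⟩ := exists_sorted3 h0 h1
  exact ⟨a, b, c, d, h2 b (by simp), h3, h4, rfl⟩

open Classical in
/-- Extension of a local system over new faces inside one simplex with a cone point. -/
theorem incl_ext {G : Type} [Group G] {K K' : SC V} {τ : Finset V} {a : V}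
    (h1 : ∀ s ∈ K'.faces, s ∉ K.faces → s ⊆ τ)
    (h2 : ∀ u ∈ τ, ∀ v ∈ τ, ({u, v} : Finset V) ∈ K.faces → ({a, u, v} : Finset V) ∈ K.faces)
    {h : Finset V → Finset V → G} (hh : K.IsLoc h) :
    ∃ h' : Finset V → Finset V → G, K'.IsLoc h' ∧ ∀ s u, (s ∈ K'.faces → s ∈ K.faces) →
      (u ∈ K'.faces → u ∈ K.faces) → h' s u = h s u := by
  have hv : ∀ s ∈ K.faces, ∀ t ∈ K.faces, t ⊆ s → ∀ w ∈ t, h s {w} = h s t * h t {w} :=
    fun s hs t ht hts w hw => (hh s hs t ht _ (mem_verts_of_mem ht hw) hts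
      (Finset.singleton_subset_iff.2 hw)).symm
  have pr : ∀ s ∈ K.faces, ∀ u ∈ s, ∀ v ∈ s, ({u, v} : Finset V) ⊆ s ∧
      ({u, v} : Finset V) ∈ K.faces := fun s hs u hu v hv =>
    have a : ({u, v} : Finset V) ⊆ s :=
      Finset.insert_subset hu (Finset.singleton_subset_iff.2 hv)
    ⟨a, K.down s hs _ a (Finset.insert_nonempty _ _)⟩
  obtain ⟨φ, hφ⟩ : ∃ φ : V → V → G, ∀ s ∈ K.faces, ∀ u ∈ s, ∀ v ∈ s,
      φ u v = (h s {u})⁻¹ * h s {v} := by
    refine ⟨fun u v => (h {u, v} {u})⁻¹ * h {u, v} {v}, fun s hs u hu v hw => ?_⟩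
    obtain ⟨a1, a2⟩ := pr s hs u hu v hw
    rw [hv s hs _ a2 a1 u (by simp), hv s hs _ a2 a1 v (by simp)]
    group
  let ψ : V → V → G := fun u v =>
    if ({u, v} : Finset V) ∈ K.faces then φ u v else (φ a u)⁻¹ * φ a v
  let A : Finset V → V → G := fun s w => if s ∈ K.faces then h s {w} else φ a w
  have hA : ∀ s ∈ K'.faces, ∀ u ∈ s, ∀ v ∈ s, A s v = A s u * ψ u v := fun s hs u hu v hw => by
    simp only [A, ψ]
    by_cases c : s ∈ K.faces
    · rw [if_pos c, if_pos c, if_pos (pr s c u hu v hw).2, hφ s c u hu v hw]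
      group
    · rw [if_neg c, if_neg c]
      split_ifs with e
      · have b := h2 u (h1 s hs c hu) v (h1 s hs c hw) e
        rw [hφ _ b a (by simp) v (by simp), hφ _ b a (by simp) u (by simp),
          hφ _ b u (by simp) v (by simp)]
        group
      · group
  obtain ⟨c, hc⟩ : ∃ c : Finset V → V, ∀ t : Finset V, t.Nonempty → c t ∈ t :=
    ⟨fun t => if ht : t.Nonempty then ht.choose else a, fun t ht => by
      simp only [dif_pos ht]; exact ht.choose_spec⟩
  let h' : Finset V → Finset V → G := fun s t =>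
    if (s ∈ K'.faces → s ∈ K.faces) ∧ (t ∈ K'.faces → t ∈ K.faces) then h s t
    else A s (c t) * (A t (c t))⁻¹
  have key : ∀ s ∈ K'.faces, ∀ t ∈ K'.faces, t ⊆ s → ∀ w ∈ t, h' s t = A s w * (A t w)⁻¹ := by
    intro s hs t ht hts w hw
    simp only [h']
    split_ifs with e
    · simp only [A, if_pos (e.1 hs), if_pos (e.2 ht)]
      rw [hv s (e.1 hs) t (e.2 ht) hts w hw]
      group
    · have b := hc t ⟨w, hw⟩
      rw [hA s hs _ (hts b) w (hts hw), hA t ht _ b w hw]
      group
  refine ⟨h', fun s hs t ht u hu hts hut => ?_, fun s u a b => if_pos ⟨a, b⟩⟩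
  obtain ⟨w, hw⟩ := K'.ne u hu
  rw [key s hs t ht hts w (hut hw), key t ht u hu hut w hw, key s hs u hu (hut.trans hts) w hw]
  group

/-- A local system on the complement of a tetrahedron extends over it. -/
theorem exists_loc_ext {G : Type} [Group G] {X : SC V} {t : Finset V} (ht : t ∈ X.faces)
    (h4 : t.card = 4) (hd : X.DimLE 3) {h : Finset V → Finset V → G} (hh : (X.del t).IsLoc h) :
    ∃ h' : Finset V → Finset V → G, X.IsLoc h' ∧ ∀ s, s ≠ t → ∀ u, u ≠ t → h' s u = h s u := by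
  obtain ⟨a, ha⟩ := X.ne t ht
  have e : ∀ s, s ≠ t → s ∈ X.faces → s ∈ (X.del t).faces := fun s n hs =>
    mem_del.2 ⟨hs, fun c => n (Finset.eq_of_subset_of_card_le c (h4 ▸ hd s hs)).symm⟩
  obtain ⟨h', a1, a2⟩ := incl_ext (K' := X) (τ := t) (a := a)
    (fun s hs n => by
      obtain rfl : s = t := by_contra fun c => n (e s c hs)
      exact subset_rfl)
    (fun u hu v hv _ => e _
      (fun c => by have := Finset.card_le_three (a := a) (b := u) (c := v); rw [c] at this; omega)
      (X.down t ht _ (Finset.insert_subset ha (Finset.insert_subset hu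
        (Finset.singleton_subset_iff.2 hv))) (Finset.insert_nonempty _ _))) hh
  exact ⟨h', a1, fun s n u m => a2 s u (e s n) (e u m)⟩

/-- A local system extends over an elementary expansion. -/
theorem exists_loc_expand {G : Type} [Group G] {K K' : SC V} (hK : Expand K K')
    {h : Finset V → Finset V → G} (hh : K.IsLoc h) :
    ∃ h' : Finset V → Finset V → G, K'.IsLoc h' ∧
      ∀ s ∈ K.faces, ∀ u ∈ K.faces, h' s u = h s u := by
  obtain ⟨σ, τ, h1, h2, h3, h4, h5⟩ := hK
  obtain ⟨a, ha, rfl⟩ := incl_erase h1 h2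
  have e : ∀ s ∈ K'.faces, s ∉ K.faces → s = τ ∨ s = τ.erase a := fun s hs n => by
    simpa only [h5, Finset.mem_insert, n, or_false] using hs
  obtain ⟨h', a1, a2⟩ := incl_ext (K' := K') (τ := τ) (a := a)
    (fun s hs n => by
      rcases e s hs n with rfl | rfl
      exacts [subset_rfl, h1])
    (fun u hu v hv huv => by_contra fun n => by
      rcases e _ (K'.down τ (h5 ▸ Finset.mem_insert_self _ _) _ (Finset.insert_subset ha
        (Finset.insert_subset hu (Finset.singleton_subset_iff.2 hv)))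
        (Finset.insert_nonempty _ _)) n with c | c
      · by_cases m : a ∈ ({u, v} : Finset V)
        · exact n (by rwa [Finset.insert_eq_of_mem m])
        · exact h3 (by rwa [← c, Finset.erase_insert m])
      · exact Finset.notMem_erase a τ (c ▸ Finset.mem_insert_self _ _)) hh
  exact ⟨h', a1, fun s hs u hu => a2 s u (fun _ => hs) fun _ => hu⟩

end MP35
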