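import Pool.Agent.Lib.MP_35c604_gt.ChainDefs
import Pool.Agent.Lib.MP_35c604_gt.TorB
import Pool.Agent.Lib.MP_35c604_gt.IncL

/-! TASK INV: invariance of `PP` under expansions, collapses and isomorphisms. -/

namespace MP35

open Matrix SC

variable {V W : Type} [DecidableEq V] [DecidableEq W] {T : Type} [CommRing T] [Nice T]
  {ρ : Q →* Matrix (Fin 2) (Fin 2) T}

theorem inv_iso (ρ : Q →* Matrix (Fin 2) (Fin 2) T) {K : SC V} {K' : SC W}
    (e : K.faces ≃ K'.faces) (hc : ∀ s, (e s).1.card = s.1.card) {o h o' h'}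
    {r : Matrix K.faces DI ZQ} {r' : Matrix K'.faces DI ZQ}
    (hb : ∀ s t, bd ℤ K' o' h' (e s) (e t) = bd ℤ K o h s t) (hr : ∀ s, r' (e s) = r s) :
    (IsCx (cpar K) (cone K o h r) ↔ IsCx (cpar K') (cone K' o' h' r')) ∧
    (Contr (cpar K) (cone K o h r) ↔ Contr (cpar K') (cone K' o' h' r')) ∧
    (IsCx (cpar K') (cone K' o' h' r') → Contr (cpar K') (cone K' o' h' r') →
      ftor (lin ρ) (cpar K) (cone K o h r) = ftor (lin ρ) (cpar K') (cone K' o' h' r')) := by
  have e1 : cpar K = cpar K' ∘ e.sumCongr (Equiv.refl DI) := by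
    funext x; rcases x with s | i <;> simp [cpar, fpar, par, hc]
  have e2 : cone K o h r = (cone K' o' h' r').submatrix (e.sumCongr (Equiv.refl DI))
      (e.sumCongr (Equiv.refl DI)) := by
    ext1 x y; rcases x with s | i <;> rcases y with t | j <;> simp [cone, hb, hr]
  rw [e1, e2]
  exact ⟨isCx_reindex _ _ _, contr_reindex _ _ _, fun h1 h2 => ftor_reindex _ _ h1 (h2.flat _)⟩

theorem inv_unit (g : Q) {c : ℤ} (hc : c = 1 ∨ c = -1) :
    (MonoidAlgebra.single g c : ZQ) * MonoidAlgebra.single g⁻¹ c = 1 ∧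
      (MonoidAlgebra.single g⁻¹ c : ZQ) * MonoidAlgebra.single g c = 1 := by
  rcases hc with rfl | rfl <;> simp [MonoidAlgebra.single_mul_single, MonoidAlgebra.one_def]

/-- The data of an elementary expansion. -/
structure InvExp (K K' : SC V) (σ τ : Finset V) : Prop where
  sub : σ ⊆ τ
  card : τ.card = σ.card + 1
  nσ : σ ∉ K.faces
  nτ : τ ∉ K.faces
  eq : K'.faces = insert τ (insert σ K.faces)

namespace InvExp

variable {K K' : SC V} {σ τ : Finset V} (H : InvExp K K' σ τ)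
include H

theorem mem {s : Finset V} : s ∈ K'.faces ↔ s = τ ∨ s = σ ∨ s ∈ K.faces := by simp [H.eq]

theorem ne : σ ≠ τ := fun e => by have := H.card; rw [e] at this; omega

theorem le {s : Finset V} (hs : s ∈ K.faces) : s ∈ K'.faces := H.mem.2 (Or.inr (Or.inr hs))

theorem inc_σ (o : V → ℕ) {s : Finset V} (hs : s ∈ K.faces) : inc o s σ = 0 := by
  by_contra h
  exact H.nσ (K.down s hs σ (inc_ne_zero_iff.1 h).1 (K'.ne σ (H.mem.2 (Or.inr (Or.inl rfl)))))

theorem inc_τ (o : V → ℕ) {s : Finset V} (hs : s ∈ K.faces) : inc o s τ = 0 := by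
  by_contra h
  exact H.nτ (K.down s hs τ (inc_ne_zero_iff.1 h).1 (K'.ne τ (H.mem.2 (Or.inl rfl))))

theorem sum {M : Type} [AddCommMonoid M] (F : Finset V → M) :
    ∑ t : K'.faces, F t.1 = F τ + (F σ + ∑ t : K.faces, F t.1) := by
  rw [Finset.sum_coe_sort K'.faces F, Finset.sum_coe_sort K.faces F, H.eq,
    Finset.sum_insert (by simp [H.nτ, H.ne.symm]), Finset.sum_insert H.nσ]

/-- the decomposition of the index set -/
def emb : (K.faces ⊕ DI) ⊕ Bool → K'.faces ⊕ DI
  | .inl (.inl s) => .inl ⟨s.1, H.le s.2⟩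
  | .inl (.inr i) => .inr i
  | .inr true => .inl ⟨τ, H.mem.2 (Or.inl rfl)⟩
  | .inr false => .inl ⟨σ, H.mem.2 (Or.inr (Or.inl rfl))⟩

theorem emb_bij : Function.Bijective H.emb := by
  constructor
  · have h1 : ∀ s : K.faces, s.1 ≠ σ := fun s e => H.nσ (e ▸ s.2)
    have h2 : ∀ s : K.faces, s.1 ≠ τ := fun s e => H.nτ (e ▸ s.2)
    have h3 := H.ne
    rintro ((s | i) | (_ | _)) ((t | j) | (_ | _)) h <;>
      simp only [emb, Sum.inl.injEq, Sum.inr.injEq, Subtype.mk.injEq, reduceCtorEq] at h ⊢ <;>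
      first
        | exact Subtype.ext h | exact h | exact h1 _ h | exact h2 _ h | exact h1 _ h.symm
        | exact h2 _ h.symm | exact h3 h | exact h3 h.symm
  · rintro (⟨s, hs⟩ | i)
    · rcases H.mem.1 hs with rfl | rfl | h
      · exact ⟨.inr true, rfl⟩
      · exact ⟨.inr false, rfl⟩
      · exact ⟨.inl (.inl ⟨s, h⟩), rfl⟩
    · exact ⟨.inl (.inr i), rfl⟩

theorem core (hρ : ∀ g, (ρ g).det = 1) {o h o' h'} {r : Matrix K.faces DI ZQ}
    {r' : Matrix K'.faces DI ZQ} (ho : ∀ v ∈ K.verts, o' v = o v)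
    (hh : ∀ s ∈ K.faces, ∀ u ∈ K.faces, h' s u = h s u) (hr : ∀ s, r' ⟨s.1, H.le s.2⟩ = r s)
    (hx : IsCx (cpar K') (cone K' o' h' r')) :
    IsCx (cpar K) (cone K o h r) ∧
    (Contr (cpar K') (cone K' o' h' r') ↔ Contr (cpar K) (cone K o h r)) ∧
    (Contr (cpar K') (cone K' o' h' r') →
      ftor (lin ρ) (cpar K') (cone K' o' h' r') = ftor (lin ρ) (cpar K) (cone K o h r)) := by
  set e := Equiv.ofBijective _ H.emb_bij with he
  have e1 : cpar K = cpar K' ∘ e ∘ Sum.inl := by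
    funext x; rcases x with s | i <;> rfl
  have e2 : cone K o h r = (cone K' o' h' r').submatrix (e ∘ Sum.inl) (e ∘ Sum.inl) := by
    ext1 x y
    rcases x with s | i <;> rcases y with t | j
    · change bd ℤ K o h s t = MonoidAlgebra.single (h' s.1 t.1) (inc o' s.1 t.1 : ℤ)
      rw [hh _ s.2 _ t.2, inc_congr fun v hv => ho v (mem_verts_of_mem s.2 hv)]; rfl
    · exact (congrFun (hr s) j).symm
    · rfl
    · rfl
  have ht : Tri e (cone K' o' h' r') := Or.inl <| by
    rintro (s | i) (_ | _)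
    · change MonoidAlgebra.single _ (inc o' s.1 σ : ℤ) = 0
      rw [H.inc_σ o' s.2]; simp
    · change MonoidAlgebra.single _ (inc o' s.1 τ : ℤ) = 0
      rw [H.inc_τ o' s.2]; simp
    · rfl
    · rfl
  have hs := hx.split e ht
  have h0 : ∀ {s t : Finset V}, s.card ≠ t.card + 1 →
      (MonoidAlgebra.single (h' s t) (inc o' s t : ℤ) : ZQ) = 0 := fun {s t} hst => by
    have : inc o' s t = 0 := by_contra fun hn => hst (inc_ne_zero_iff.1 hn).2
    rw [this]; simp
  have hc := H.card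
  have h2 : Triv (lin ρ) _ _ := aml (lin ρ) hs.2 (fun b => !b) (fun _ => 0) (fun b => b = true)
    (by simp) (by simp)
    (by
      have : par τ = !par σ := by simp only [par, hc, Nat.even_add_one, decide_not]
      rintro (_ | _)
      · exact this
      · change par σ = !par τ
        rw [this, Bool.not_not])
    (by simp)
    (by
      rintro _ rfl
      have h3 := inc_eq_or (o := o') H.sub hc
      refine ⟨⟨_, _, (inv_unit (h' τ σ) h3).1, (inv_unit (h' τ σ) h3).2⟩, rfl, ?_⟩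
      rw [lin_single]
      rcases h3 with h3 | h3 <;> simp [h3, hρ, cls_one, det_neg])
    (by
      rintro (_ | _) (_ | _) hn
      · exact absurd (h0 (s := σ) (t := σ) (by omega)) hn
      · exact absurd (h0 (s := σ) (t := τ) (by omega)) hn
      · exact Or.inl ⟨rfl, rfl⟩
      · exact absurd (h0 (s := τ) (t := τ) (by omega)) hn)
  rw [e1, e2]
  refine ⟨hs.1, splitA e hx ht h2.con, fun hc => ?_⟩
  rw [(splitF (lin ρ) e hx ht (h2.con.flat _)).2 (hc.flat _), h2.tor]
  exact mul_one (M := SqCl T) _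

theorem ext_order {o : V → ℕ} (ho : Set.InjOn o K.verts) :
    ∃ o' : V → ℕ, Set.InjOn o' K'.verts ∧ ∀ v ∈ K.verts, o' v = o v := by
  refine ⟨fun w => if {w} = σ then (K.faces.biUnion id).sup o + 1 else o w, ?_,
    fun v hv => if_neg fun e : {v} = σ => H.nσ (e ▸ hv)⟩
  have h1 : ∀ u ∈ K'.verts, {u} ≠ σ → u ∈ K.verts := fun u hu hn => by
    rcases H.mem.1 hu with h | h | h
    · have h2 := H.card
      have h3 := (K'.ne σ (H.mem.2 (Or.inr (Or.inl rfl)))).card_pos
      rw [← h, Finset.card_singleton] at h2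
      omega
    · exact absurd h hn
    · exact h
  have h2 : ∀ u ∈ K.verts, o u ≤ (K.faces.biUnion id).sup o := fun u hu =>
    Finset.le_sup (f := o) (Finset.mem_biUnion.2 ⟨{u}, hu, Finset.mem_singleton_self u⟩)
  intro u hu w hw e
  simp only at e
  split_ifs at e with a b b
  · exact Finset.singleton_injective (a.trans b.symm)
  · have := h2 w (h1 w hw b); omega
  · have := h2 u (h1 u hu a); omega
  · exact ho (h1 u hu a) (h1 w hw b) e

theorem ext_r {o h o' h'} {r : Matrix K.faces DI ZQ} (D : Dat K o h r)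
    (ho' : Set.InjOn o' K'.verts) (hh' : K'.IsLoc h') (ho : ∀ v ∈ K.verts, o' v = o v)
    (hh : ∀ s ∈ K.faces, ∀ u ∈ K.faces, h' s u = h s u) :
    ∃ r' : Matrix K'.faces DI ZQ, (∀ s, r' ⟨s.1, H.le s.2⟩ = r s) ∧
      (∀ s i, r' s i ≠ 0 → s.1.card = i.deg + 1) ∧ IsCx (cpar K') (cone K' o' h' r') := by
  classical
  let B : Finset V → Finset V → ZQ := fun s t => MonoidAlgebra.single (h' s t) (inc o' s t : ℤ)
  let R : Finset V → DI → ZQ := fun s i => if hs : s ∈ K.faces then r ⟨s, hs⟩ i else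
    if s = σ then -(MonoidAlgebra.single (h' τ σ)⁻¹ (inc o' τ σ) * ∑ t : K.faces, B τ t.1 * r t i)
    else 0
  have hu := inv_unit (h' τ σ) (inc_eq_or (o := o') H.sub H.card)
  have R1 : ∀ s : K.faces, R s.1 = r s := fun s => funext fun i => dif_pos s.2
  have R2 : R τ = 0 := funext fun i => (dif_neg H.nτ).trans (if_neg H.ne.symm)
  have R3 : ∀ i, R σ i =
      -(MonoidAlgebra.single (h' τ σ)⁻¹ (inc o' τ σ) * ∑ t : K.faces, B τ t.1 * r t i) :=
    fun i => (dif_neg H.nσ).trans (if_pos rfl)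
  have gr : ∀ (s : K'.faces) i, R s.1 i ≠ 0 → s.1.card = i.deg + 1 := by
    rintro ⟨s, hs⟩ i hn
    rcases H.mem.1 hs with rfl | rfl | h
    · exact absurd (congrFun R2 i) hn
    · rw [R3] at hn
      obtain ⟨t, -, ht⟩ := Finset.exists_ne_zero_of_sum_ne_zero
        (right_ne_zero_of_mul (neg_ne_zero.1 hn))
      have h1 := D.gr t i (right_ne_zero_of_mul ht)
      have h2 : inc o' τ t.1 ≠ 0 := fun e => left_ne_zero_of_mul ht (by simp [B, e])
      have h3 := (inc_ne_zero_iff.1 h2).2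
      have h4 := H.card
      simp only
      omega
    · exact D.gr ⟨s, h⟩ i (by rwa [← R1])
  have hb := bd_cx ℤ ho' hh'
  have hq := D.cx.sq
  rw [cone, fromBlocks_multiply, ← fromBlocks_zero, fromBlocks_inj] at hq
  obtain ⟨-, q1, -, q2⟩ := hq
  rw [Matrix.zero_mul, zero_add] at q2
  refine ⟨fun s => R s.1, R1, gr, ?_, ?_⟩
  · rintro (s | i) (t | j) hp
    · exact hb.odd s t hp
    · by_contra hn
      have h1 := gr s j hn
      change par s.1 = parD j at hp
      rw [par, h1] at hp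
      rcases j with j | j | _ <;> norm_num [DI.deg, parD, Nat.even_iff] at hp
    · rfl
    · exact D.cx.odd (.inr i) (.inr j) hp
  · set r' : Matrix K'.faces DI ZQ := fun s => R s.1 with hr'
    set X := bd ℤ K' o' h' * r' + r' * dD ℤ with hX
    have X0 : ∀ (s : K'.faces) i, X s i = B s.1 τ * R τ i +
        (B s.1 σ * R σ i + ∑ t : K.faces, B s.1 t.1 * r t i) + ∑ j, R s.1 j * dD ℤ j i := by
      intro s i
      simp only [← R1]
      rw [← H.sum fun t => B s.1 t * R t i]; rfl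
    have X1 : ∀ (s : K.faces) i, X ⟨s.1, H.le s.2⟩ i = 0 := fun s i => by
      have q := congrFun (congrFun q1 s) i
      rw [X0, R2, R1]
      simp only [B, H.inc_σ o' s.2, hh _ s.2 _ (Subtype.prop _),
        inc_congr fun v hv => ho v (mem_verts_of_mem s.2 hv)]
      simpa [Matrix.mul_apply, bd] using q
    have X2 : ∀ i, X ⟨τ, H.mem.2 (Or.inl rfl)⟩ i = 0 := fun i => by
      rw [X0, R2, R3, mul_neg, ← mul_assoc]
      simp [B, hu.1]
    have X3 : bd ℤ K' o' h' * X = X * dD ℤ := by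
      rw [hX, Matrix.mul_add, Matrix.add_mul, ← Matrix.mul_assoc, hb.sq, Matrix.mul_assoc r', q2,
        Matrix.mul_assoc]
      simp
    have X4 : X = 0 := by
      ext1 ⟨s, hs⟩ i
      rcases H.mem.1 hs with rfl | rfl | h
      · exact X2 i
      · have q := congrFun (congrFun X3 ⟨τ, H.mem.2 (Or.inl rfl)⟩) i
        rw [Matrix.mul_apply, Matrix.mul_apply, Finset.sum_eq_single ⟨s, hs⟩] at q
        · simp only [X2, zero_mul, Finset.sum_const_zero] at q
          rw [← one_mul (X _ _), ← hu.2, mul_assoc]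
          exact mul_eq_zero_of_right _ q
        · rintro ⟨t, ht⟩ - hne
          rcases H.mem.1 ht with rfl | rfl | h
          · rw [X2, mul_zero]
          · exact absurd rfl hne
          · rw [X1 ⟨t, h⟩, mul_zero]
        · simp
      · exact X1 ⟨s, h⟩ i
    rw [cone, fromBlocks_multiply, hb.sq, ← hX, X4, q2]
    simp

end InvExp

theorem PP_expand (hρ : ∀ g, (ρ g).det = 1) {K K' : SC V} (h : Expand K K') :
    PP ρ K ↔ PP ρ K' := by
  obtain ⟨σ, τ, a1, a2, a3, a4, a5⟩ := id h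
  have H : InvExp K K' σ τ := ⟨a1, a2, a3, a4, a5⟩
  constructor
  · rintro ⟨o, g, r, D, ht⟩
    obtain ⟨o', ho', ho⟩ := H.ext_order D.inj
    obtain ⟨g', hg', hg⟩ := exists_loc_expand h D.loc
    obtain ⟨r', hr, gr, cx⟩ := H.ext_r D ho' hg' ho hg
    obtain ⟨-, c1, c2⟩ := H.core hρ ho hg hr cx
    exact ⟨o', g', r', ⟨ho', hg', gr, cx, c1.2 D.con⟩, c2 (c1.2 D.con) ▸ ht⟩
  · rintro ⟨o, g, r, D, ht⟩
    obtain ⟨c0, c1, c2⟩ := H.core hρ (o := o) (h := g) (r := fun s => r ⟨s.1, H.le s.2⟩)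
      (fun _ _ => rfl) (fun _ _ _ _ => rfl) (fun _ => rfl) D.cx
    exact ⟨o, g, _, ⟨D.inj.mono fun v hv => H.le hv,
      fun s hs t ht u hu => D.loc s (H.le hs) t (H.le ht) u (H.le hu),
      fun s i hn => D.gr _ i hn, c0, c1.1 D.con⟩, c2 D.con ▸ ht⟩

theorem PP_map {f : V → W} {K : SC V} (hf : Set.InjOn f K.verts) :
    PP ρ (K.map f) ↔ PP ρ K := by
  classical
  have hv : ∀ s ∈ K.faces, (s : Set V) ⊆ K.verts := fun s hs v hv => mem_verts_of_mem hs hv
  let pre : Finset W → Finset V := fun s => (K.faces.biUnion id).filter fun v => f v ∈ s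
  have hpre : ∀ s ∈ K.faces, pre (s.image f) = s := fun s hs => by
    ext v
    simp only [pre, Finset.mem_filter, Finset.mem_biUnion, Finset.mem_image, id]
    exact ⟨fun ⟨⟨t, ht, hvt⟩, w, hw, e⟩ => hf (hv s hs hw) (hv t ht hvt) e ▸ hw,
      fun h => ⟨⟨s, hs, h⟩, v, h, rfl⟩⟩
  let e : K.faces ≃ (K.map f).faces := Equiv.ofBijective
    (fun s => ⟨s.1.image f, mem_map.2 ⟨s.1, s.2, rfl⟩⟩)
    ⟨fun s t h => Subtype.ext (by
        rw [← hpre _ s.2, ← hpre _ t.2]; exact congrArg (fun x => pre x.1) h),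
      fun ⟨s, hs⟩ => by
        obtain ⟨t, ht, rfl⟩ := mem_map.1 hs
        exact ⟨⟨t, ht⟩, rfl⟩⟩
  have hc : ∀ s, (e s).1.card = s.1.card := fun s =>
    Finset.card_image_of_injOn (hf.mono (hv _ s.2))
  have hi : ∀ (o : W → ℕ) (s t : K.faces), inc o (e s).1 (e t).1 = inc (o ∘ f) s.1 t.1 :=
    fun o s t => inc_image o (hf.mono (by
      rw [Finset.coe_union]; exact Set.union_subset (hv _ s.2) (hv _ t.2)))
  have hm : ∀ v ∈ K.verts, f v ∈ (K.map f).verts := fun v h =>
    mem_map.2 ⟨{v}, h, Finset.image_singleton f v⟩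
  constructor
  · rintro ⟨o, g, r, D, ht⟩
    obtain ⟨c0, c1, c2⟩ := inv_iso ρ e hc (o := o ∘ f) (h := fun s t => g (s.image f) (t.image f))
      (o' := o) (h' := g) (r := fun s => r (e s)) (r' := r)
      (fun s t => by unfold bd; rw [hi]; rfl) (fun _ => rfl)
    exact ⟨_, _, _, ⟨D.inj.comp hf hm, fun s hs t ht u hu h1 h2 => D.loc _ (e ⟨s, hs⟩).2 _
      (e ⟨t, ht⟩).2 _ (e ⟨u, hu⟩).2 (Finset.image_subset_image h1) (Finset.image_subset_image h2),
      fun s i hn => hc s ▸ D.gr _ i hn, c0.2 D.cx, c1.2 D.con⟩, c2 D.cx D.con ▸ ht⟩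
  · rintro ⟨o, g, r, D, ht⟩
    let o' : W → ℕ := fun w => if h : ∃ v ∈ K.verts, f v = w then o h.choose else 0
    have ho : ∀ v ∈ K.verts, o' (f v) = o v := fun v h => by
      have h1 : ∃ u ∈ K.verts, f u = f v := ⟨v, h, rfl⟩
      exact (dif_pos h1).trans (congrArg o (hf h1.choose_spec.1 h h1.choose_spec.2))
    obtain ⟨c0, c1, c2⟩ := inv_iso ρ e hc (o := o) (h := g) (o' := o')
      (h' := fun s t => g (pre s) (pre t)) (r := r) (r' := fun s => r (e.symm s))
      (fun s t => by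
        unfold bd
        rw [hi, inc_congr (o := o' ∘ f) (o' := o) fun v h => ho v (hv _ s.2 h)]
        exact congrArg₂ (fun a b => MonoidAlgebra.single (g a b) _) (hpre _ s.2) (hpre _ t.2))
      (fun s => by rw [Equiv.symm_apply_apply])
    have hp : ∀ s ∈ (K.map f).faces, pre s ∈ K.faces := fun s hs => by
      obtain ⟨t, ht, rfl⟩ := mem_map.1 hs
      rwa [hpre t ht]
    have hmono : ∀ {s t}, s ⊆ t → pre s ⊆ pre t := fun h v hv =>
      Finset.mem_filter.2 ⟨(Finset.mem_filter.1 hv).1, h (Finset.mem_filter.1 hv).2⟩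
    refine ⟨_, _, _, ⟨fun a ha b hb hab => ?_, fun s hs t ht u hu h1 h2 =>
      D.loc _ (hp s hs) _ (hp t ht) _ (hp u hu) (hmono h1) (hmono h2), fun s i hn => ?_,
      c0.1 D.cx, c1.1 D.con⟩, c2 (c0.1 D.cx) (c1.1 D.con) ▸ ht⟩
    · obtain ⟨s, hs, e1⟩ := mem_map.1 ha
      obtain ⟨t, ht, e2⟩ := mem_map.1 hb
      obtain ⟨u, hu, rfl⟩ := Finset.mem_image.1 (e1.symm ▸ Finset.mem_singleton_self a)
      obtain ⟨w, hw, rfl⟩ := Finset.mem_image.1 (e2.symm ▸ Finset.mem_singleton_self b)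
      rw [ho u (hv s hs hu), ho w (hv t ht hw)] at hab
      exact congrArg f (D.inj (hv s hs hu) (hv t ht hw) hab)
    · rw [← D.gr _ i hn, ← hc, Equiv.apply_symm_apply]

theorem PP_collapse (hρ : ∀ g, (ρ g).det = 1) {K K' : SC V} (h : Collapse K' K) :
    PP ρ K' ↔ PP ρ K := by
  induction h with
  | refl => rfl
  | tail _ h2 ih => exact ih.trans (PP_expand hρ h2).symm

theorem PP_simple (hρ : ∀ g, (ρ g).det = 1) {K K' : SC V} (h : SimpleEquiv K K') :
    PP ρ K ↔ PP ρ K' := by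
  induction h with
  | rel x y h =>
    rcases h with h | ⟨f, hf, rfl⟩
    · exact PP_expand hρ h
    · exact (PP_map hf).symm
  | refl => rfl
  | symm _ _ _ ih => exact ih.symm
  | trans _ _ _ _ _ ih1 ih2 => exact ih1.trans ih2

theorem Dat.chi_eq {K : SC V} {o h r} (H : Dat K o h r) : K.chi = 1 := by
  have h0 := (H.con.map (MonoidAlgebra.lift ℤ ℤ Q 1).toRingHom).card_eq (H.cx.map _)
  have key : ∀ b : Bool, (Fintype.card {i // cpar K i = b} : ℤ) =
      (∑ s ∈ K.faces, if par s = b then 1 else 0) + if b then 3 else 2 := by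
    intro b
    rw [Fintype.card_subtype, Finset.card_filter, Fintype.sum_sum_type,
      ← Finset.sum_coe_sort K.faces, DI.sum_univ]
    push_cast
    refine congrArg₂ (· + ·) rfl ?_
    cases b <;> simp [cpar, parD]
  have h1 := key true
  rw [h0, key false] at h1
  have h2 : K.chi = (∑ s ∈ K.faces, if par s = false then 1 else 0) -
      ∑ s ∈ K.faces, if par s = true then 1 else 0 := by
    rw [SC.chi, ← Finset.sum_sub_distrib]
    refine Finset.sum_congr rfl fun s _ => ?_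
    rcases Nat.even_or_odd s.card with e | e
    · simp [par, e, pow_succ, e.neg_one_pow]
    · simp [par, Nat.not_even_iff_odd.2 e, pow_succ, e.neg_one_pow]
  simp only [Bool.false_eq_true, if_false, if_true] at h1
  omega

end MP35
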