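import Pool.Agent.Lib.MP_35c604_gt.Q60

/-! TASK RING: the coefficient ring. -/

namespace MP35

open PowerSeries

section series

variable {S : Type} [CommRing S]

theorem ringt_sqrt (h2 : IsUnit (2 : S)) (A : S⟦X⟧) (f : Sˣ) (h : constantCoeff A = (f : S) ^ 2) :
    ∃ v : S⟦X⟧ˣ, Units.map (constantCoeff (R := S)).toMonoidHom v = f ∧ A = (v : S⟦X⟧) ^ 2 := by
  obtain ⟨a, h1, h3⟩ := HenselianRing.is_henselian (I := (Ideal.span {X} : Ideal S⟦X⟧))
    (Polynomial.X ^ 2 - Polynomial.C A) (Polynomial.monic_X_pow_sub_C _ two_ne_zero) (C (f : S))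
    (by rw [Ideal.mem_span_singleton, X_dvd_iff]; simp [h])
    (IsUnit.map _ (isUnit_iff_constantCoeff.2 (by
      simpa [one_add_one_eq_two, map_ofNat] using h2)))
  rw [Ideal.mem_span_singleton, X_dvd_iff, map_sub, constantCoeff_C, sub_eq_zero] at h3
  have h4 : IsUnit a := isUnit_iff_constantCoeff.2 (h3 ▸ f.isUnit)
  refine ⟨h4.unit, Units.ext h3, ?_⟩
  simp only [Polynomial.IsRoot, Polynomial.eval_sub, Polynomial.eval_pow, Polynomial.eval_X,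
    Polynomial.eval_C] at h1
  exact (sub_eq_zero.1 h1).symm

theorem ringt_desc [IsReduced S] (δ : S) (n : ℕ) (A : S⟦X⟧) (h : A * A = C δ * (X ^ n * X ^ n)) :
    IsSquare δ := by
  induction n generalizing A with
  | zero => exact ⟨constantCoeff A, by simpa using (congrArg constantCoeff h).symm⟩
  | succ n ih =>
    have h1 : constantCoeff A = 0 := by
      have := congrArg constantCoeff h
      simp only [map_mul, map_pow, constantCoeff_X, ne_eq, Nat.succ_ne_zero, not_false_eq_true,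
        zero_pow, mul_zero] at this
      exact IsReduced.eq_zero _ ⟨2, by rw [pow_two, this]⟩
    obtain ⟨B, rfl⟩ := X_dvd_iff.2 h1
    exact ih B (X_pow_mul_cancel (k := 2) (by linear_combination h))

/-- Laurent series. -/
abbrev RingtL (S : Type) [CommRing S] : Type := Localization.Away (X : S⟦X⟧)

/-- Power series as Laurent series. -/
noncomputable abbrev ringtA : S⟦X⟧ →+* RingtL S := algebraMap _ _

theorem ringtA_inj : Function.Injective (ringtA (S := S)) :=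
  IsLocalization.injective (M := Submonoid.powers (X : S⟦X⟧)) _ (by
    rintro _ ⟨n, rfl⟩
    refine mem_nonZeroDivisors_iff_left.2 fun y hy => X_pow_mul_cancel (k := n) ?_
    rw [mul_zero]
    exact hy)

/-- The variable. -/
noncomputable def ringtT (S : Type) [CommRing S] : (RingtL S)ˣ :=
  (IsLocalization.Away.algebraMap_isUnit (S := RingtL S) (X : S⟦X⟧)).unit

theorem ringtT_pow (n : ℕ) : ((ringtT S ^ (n : ℤ) : (RingtL S)ˣ) : RingtL S) = ringtA (X ^ n) := by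
  rw [zpow_natCast, Units.val_pow_eq_pow_val, map_pow]
  rfl

theorem ringt_nonsq [IsReduced S] {δ : S} (h : IsSquare (ringtA (C δ))) : IsSquare δ := by
  obtain ⟨c, hc⟩ := h
  obtain ⟨⟨A, _, n, rfl⟩, hA⟩ := IsLocalization.surj (Submonoid.powers (X : S⟦X⟧)) c
  refine ringt_desc δ n A (ringtA_inj ?_)
  dsimp only at hA
  rw [map_mul, map_mul, map_mul, hc, ← hA]
  ring

/-- Even powers of the variable times units with constant term in `E`. -/
noncomputable def ringtM (E : Subgroup Sˣ) : Subgroup (RingtL S)ˣ where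
  carrier := {m | ∃ (n : ℤ) (u : S⟦X⟧ˣ), Units.map (constantCoeff (R := S)).toMonoidHom u ∈ E ∧
    m = ringtT S ^ (2 * n) * Units.map ringtA.toMonoidHom u}
  one_mem' := ⟨0, 1, by rw [map_one]; exact E.one_mem, by simp⟩
  mul_mem' := by
    rintro _ _ ⟨n, u, h, rfl⟩ ⟨n', u', h', rfl⟩
    refine ⟨n + n', u * u', by rw [map_mul]; exact E.mul_mem h h', ?_⟩
    rw [map_mul, mul_add, zpow_add]
    exact mul_mul_mul_comm _ _ _ _
  inv_mem' := by
    rintro _ ⟨n, u, h, rfl⟩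
    refine ⟨-n, u⁻¹, by rw [map_inv]; exact E.inv_mem h, ?_⟩
    rw [map_inv, mul_neg, zpow_neg, mul_inv]

variable {E : Subgroup Sˣ}

theorem ringt_unit (h2 : IsUnit (2 : S)) (A : S⟦X⟧) (f : Sˣ) (h : constantCoeff A = (f : S) ^ 2) :
    ∃ v : (RingtL S)ˣ, ringtA A = (v : RingtL S) ^ 2 := by
  obtain ⟨v, -, rfl⟩ := ringt_sqrt h2 A f h
  exact ⟨Units.map ringtA.toMonoidHom v, map_pow _ _ _⟩

theorem ringtM_sq (h2 : IsUnit (2 : S)) (h1 : ∀ e ∈ E, ∃ f : Sˣ, e = f ^ 2) (m : (RingtL S)ˣ)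
    (hm : m ∈ ringtM E) : ∃ u : (RingtL S)ˣ, m = u ^ 2 := by
  obtain ⟨n, u, h, rfl⟩ := hm
  obtain ⟨f, hf⟩ := h1 _ h
  obtain ⟨v, hv⟩ := ringt_unit h2 u f (congrArg Units.val hf)
  refine ⟨ringtT S ^ n * v, ?_⟩
  rw [mul_pow, mul_comm 2 n, zpow_mul, zpow_two, ← pow_two]
  congr 1
  exact Units.ext hv

theorem ringtM_om (h2 : IsUnit (2 : S)) (n : ℕ) (A : S⟦X⟧) {e : Sˣ} (he : e ∈ E)
    (h : constantCoeff A = (e : S) ^ 2) :
    ∃ γ ∈ ringtM E, ringtA (X ^ (4 * n) * A) = (γ : RingtL S) ^ 2 := by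
  obtain ⟨v, hv, rfl⟩ := ringt_sqrt h2 A e h
  refine ⟨_, ⟨n, v, hv ▸ he, rfl⟩, ?_⟩
  rw [Units.val_mul, show (2 : ℤ) * n = (2 * n : ℕ) by push_cast; rfl, ringtT_pow, mul_pow, ← map_pow,
    ← pow_mul, map_mul, map_pow _ (v : S⟦X⟧), show 2 * n * 2 = 4 * n by ring]
  rfl

theorem ringt_pos (h2 : IsUnit (2 : S)) {n : ℤ} (hn : 0 < n) (u : S⟦X⟧ˣ) : ∃ v : (RingtL S)ˣ,
    1 - ((ringtT S ^ (2 * n) * Units.map ringtA.toMonoidHom u : (RingtL S)ˣ) : RingtL S) =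
      (v : RingtL S) ^ 2 := by
  obtain ⟨m, rfl⟩ : ∃ m : ℕ, n = (m + 1 : ℕ) := ⟨(n - 1).toNat, by omega⟩
  obtain ⟨v, hv⟩ := ringt_unit h2 (1 - X ^ (2 * (m + 1)) * (u : S⟦X⟧)) 1 (by simp)
  refine ⟨v, ?_⟩
  rw [← hv, Units.val_mul, show (2 : ℤ) * (m + 1 : ℕ) = (2 * (m + 1) : ℕ) by push_cast; rfl,
    ringtT_pow, map_sub, map_one, map_mul]
  rfl

theorem ringtM_rot [Nontrivial S] {w i : Sˣ} (hw : (2 : S) = (w : S) ^ 2)
    (hi : (-1 : S) = (i : S) ^ 2) (h1 : ∀ e ∈ E, ∃ f : Sˣ, e = f ^ 2)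
    (h3 : ∀ e ∈ E, ∀ e' ∈ E, (e : S) ^ 2 + (e' : S) ^ 2 ≠ 1)
    (h4 : ∀ e ∈ E, (e : S) ^ 2 = 1 → (e : S) = 1 ∨ (e : S) = -1)
    (a : (RingtL S)ˣ) (ha : a ∈ ringtM E) (b : (RingtL S)ˣ) (hb : b ∈ ringtM E)
    (h : (a : RingtL S) ^ 2 + (b : RingtL S) ^ 2 = 1) :
    ∃ u : (RingtL S)ˣ, 1 - (a : RingtL S) = (u : RingtL S) ^ 2 := by
  have h2 : IsUnit (2 : S) := hw ▸ w.isUnit.pow 2
  obtain ⟨c, hc⟩ := ringtM_sq h2 h1 a ha
  obtain ⟨n, u, hu, rfl⟩ := ha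
  rcases lt_trichotomy n 0 with hn | rfl | hn
  · obtain ⟨v, hv⟩ := ringt_pos h2 (n := -n) (by omega) u⁻¹
    obtain ⟨j, hj⟩ := ringt_unit h2 (-1) i (by simpa using hi)
    rw [map_inv, mul_neg, zpow_neg, ← mul_inv, hc] at hv
    rw [map_neg, map_one] at hj
    refine ⟨j * c * v, ?_⟩
    rw [hc, Units.val_mul, Units.val_mul, mul_pow, mul_pow, ← hj, ← hv, ← Units.val_pow_eq_pow_val,
      neg_one_mul, neg_mul, mul_sub, Units.mul_inv]
    ring
  · clear hc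
    simp only [mul_zero, zpow_zero, one_mul, Units.coe_map, RingHom.toMonoidHom_eq_coe,
      MonoidHom.coe_coe] at h ⊢
    obtain ⟨n, u', hu', rfl⟩ := hb
    rcases lt_trichotomy n 0 with hn | rfl | hn
    · exfalso
      obtain ⟨m, rfl⟩ : ∃ m : ℕ, n = -(m + 1 : ℕ) := ⟨(-n - 1).toNat, by omega⟩
      have e1 := ringtT_pow (S := S) (2 * (m + 1))
      have e2 : ((ringtT S ^ ((2 * (m + 1) : ℕ) : ℤ) : (RingtL S)ˣ) : RingtL S) *
          (ringtT S ^ (2 * -((m + 1 : ℕ) : ℤ)) : (RingtL S)ˣ) = 1 := by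
        rw [← Units.val_mul, ← zpow_add, show ((2 * (m + 1) : ℕ) : ℤ) + 2 * -((m + 1 : ℕ) : ℤ) = 0 by
          push_cast; ring, zpow_zero, Units.val_one]
      have e3 : (X ^ (2 * (m + 1))) ^ 2 * ((u : S⟦X⟧) ^ 2 - 1) + (u' : S⟦X⟧) ^ 2 = 0 := by
        apply ringtA_inj
        rw [Units.val_mul] at h
        simp only [Units.coe_map, RingHom.toMonoidHom_eq_coe, MonoidHom.coe_coe] at h
        rw [map_add, map_mul, map_pow, ← e1, map_sub, map_pow, map_pow, map_one, map_zero]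
        generalize ((ringtT S ^ ((2 * (m + 1) : ℕ) : ℤ) : (RingtL S)ˣ) : RingtL S) = x at e2 ⊢
        generalize ((ringtT S ^ (2 * -((m + 1 : ℕ) : ℤ)) : (RingtL S)ˣ) : RingtL S) = y at e2 h
        linear_combination x ^ 2 * h - ringtA (u' : S⟦X⟧) ^ 2 * (x * y + 1) * e2
      have e4 := congrArg constantCoeff e3
      simp only [map_add, map_mul, map_pow, constantCoeff_X, ne_eq, mul_eq_zero, OfNat.ofNat_ne_zero,
        Nat.succ_ne_zero, or_self, not_false_eq_true, zero_pow, zero_mul, zero_add, map_zero] at e4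
      exact ((isUnit_constantCoeff _ u'.isUnit).pow 2).ne_zero e4
    · exfalso
      simp only [mul_zero, zpow_zero, one_mul, Units.coe_map, RingHom.toMonoidHom_eq_coe,
        MonoidHom.coe_coe] at h
      have e3 : (u : S⟦X⟧) ^ 2 + (u' : S⟦X⟧) ^ 2 = 1 := ringtA_inj (by simpa using h)
      exact h3 _ hu _ hu' (by simpa using congrArg constantCoeff e3)
    · obtain ⟨m, rfl⟩ : ∃ m : ℕ, n = (m + 1 : ℕ) := ⟨(n - 1).toNat, by omega⟩
      have e3 : (u : S⟦X⟧) ^ 2 + (X ^ (2 * (m + 1)) * (u' : S⟦X⟧)) ^ 2 = 1 := ringtA_inj (by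
        rw [Units.val_mul, show (2 : ℤ) * (m + 1 : ℕ) = (2 * (m + 1) : ℕ) by push_cast; rfl,
          ringtT_pow] at h
        simpa using h)
      rcases h4 _ hu (by simpa using congrArg constantCoeff e3) with e | e
      · have e' : constantCoeff (u : S⟦X⟧) = 1 := e
        obtain ⟨v, hv⟩ := ringt_unit h2 (1 + u) w (by rw [map_add, map_one, e', ← hw]; norm_num)
        rw [map_add, map_one] at hv
        generalize ringtT S ^ (2 * ((m + 1 : ℕ) : ℤ)) * Units.map ringtA.toMonoidHom u' = b at h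
        refine ⟨b * v⁻¹, ?_⟩
        have e5 := v.mul_inv
        rw [Units.val_mul]
        generalize ((v⁻¹ : (RingtL S)ˣ) : RingtL S) = y at e5 ⊢
        linear_combination -y ^ 2 * h - (1 - ringtA (u : S⟦X⟧)) * y ^ 2 * hv -
          (1 - ringtA (u : S⟦X⟧)) * (v * y + 1) * e5
      · have e' : constantCoeff (u : S⟦X⟧) = -1 := e
        obtain ⟨v, hv⟩ := ringt_unit h2 (1 - u) w (by rw [map_sub, map_one, e', ← hw]; norm_num)
        exact ⟨v, by rw [← hv, map_sub, map_one]⟩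
  · exact ringt_pos h2 hn u

open Matrix in
theorem ringt_main [Nontrivial S] [IsReduced S] (h2 : IsUnit (2 : S)) (s : Sˣ)
    (hs : (s : S) ^ 60 = -1)
    (hA : ∀ j j' : ℤ, (((s ^ 4) ^ j : Sˣ) : S) + ((s ^ 4) ^ j' : Sˣ) ≠ 1)
    (hB : ∀ j : ℤ, (s ^ 4) ^ j = 1 → (30 : ℤ) ∣ j) (hC : ¬ IsSquare (delta ((s : S) ^ 4))) :
    ∃ (T : Type) (_ : CommRing T) (_ : Nice T) (s : Tˣ) (h : ((s ^ 4 : Tˣ) : T) ^ 15 = -1),
      Iface (rho (s ^ 4) h) ∧ ¬ IsSquare (delta ((s ^ 4 : Tˣ) : T)) := by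
  have hi : (-1 : S) = ((s ^ 30 : Sˣ) : S) ^ 2 := by
    rw [Units.val_pow_eq_pow_val, ← pow_mul, hs]
  have hw0 : (2 : S) = (((s ^ 15 : Sˣ) : S) + ((s ^ 15)⁻¹ : Sˣ)) ^ 2 := by
    have e1 := (s ^ 15).mul_inv
    have e2 : ((s ^ 15 : Sˣ) : S) ^ 4 = -1 := by rw [Units.val_pow_eq_pow_val, ← pow_mul, hs]
    generalize ((s ^ 15 : Sˣ) : S) = x at e1 e2 ⊢
    generalize (((s ^ 15)⁻¹ : Sˣ) : S) = y at e1 ⊢
    linear_combination (-2 + x ^ 2 * (x * y + 1)) * e1 - y ^ 2 * e2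
  obtain ⟨w, hw⟩ : ∃ w : Sˣ, (2 : S) = (w : S) ^ 2 :=
    ⟨((isUnit_pow_iff two_ne_zero).1 (hw0 ▸ h2)).unit, hw0⟩
  have hs' : s ^ 60 = -1 := Units.ext (by rw [Units.val_pow_eq_pow_val, hs]; rfl)
  let κ : S →+* RingtL S := ringtA.comp C
  have hκ : ∀ x, κ x = ringtA (C x) := fun _ => rfl
  have : Nontrivial (RingtL S) := ringtA_inj.nontrivial
  have hE : ∀ e ∈ Subgroup.zpowers (s ^ 2), ∃ j : ℤ, e = (s ^ 2) ^ j ∧
      (e : S) ^ 2 = ((s ^ 4) ^ j : Sˣ) := by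
    rintro _ ⟨j, rfl⟩
    refine ⟨j, rfl, ?_⟩
    rw [← Units.val_pow_eq_pow_val, show s ^ 4 = s ^ 2 * s ^ 2 by rw [← pow_add], mul_zpow, pow_two]
  have h1 : ∀ e ∈ Subgroup.zpowers (s ^ 2), ∃ f : Sˣ, e = f ^ 2 := by
    rintro _ ⟨j, rfl⟩
    exact ⟨s ^ j, by simp only [pow_two, mul_zpow]⟩
  have hP : ∀ k : ℕ, (s ^ 2) ^ k ∈ Subgroup.zpowers (s ^ 2) := fun k => Subgroup.npow_mem_zpowers _ k
  have hN : ∀ k : ℕ, -(((s ^ 4) ^ k : Sˣ) : S) = (((s ^ 2) ^ (k + 15) : Sˣ) : S) ^ 2 := fun k => by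
    simp only [Units.val_pow_eq_pow_val]
    linear_combination -((s : S) ^ 4) ^ k * hs
  have hI : ∀ k : ℕ, ((((s ^ 4) ^ k)⁻¹ : Sˣ) : S) = ((((s ^ 2) ^ k)⁻¹ : Sˣ) : S) ^ 2 := fun k => by
    rw [← Units.val_pow_eq_pow_val, inv_pow, ← pow_mul, ← pow_mul, ← pow_mul]
    congr 3
    ring
  refine ⟨RingtL S, inferInstance, ⟨⟨Units.map κ.toMonoidHom w, ?_⟩,
    ⟨Units.map κ.toMonoidHom (s ^ 30), ?_⟩⟩, Units.map κ.toMonoidHom s, ?_, ⟨?_,
    ringtM (Subgroup.zpowers (s ^ 2)), fun i => ![1, ringtA (X ^ (4 * (i + 1)))],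
    ringtM_sq h2 h1, ringtM_rot hw hi h1 ?_ ?_, fun _ => rfl, ?_⟩, fun h => hC (ringt_nonsq ?_)⟩
  · simpa [map_ofNat] using congrArg κ hw
  · simpa using congrArg κ hi
  · simpa [← pow_mul] using congrArg κ hs
  · rintro (i | i) <;> simp [rho, rhoF, Matrix.det_fin_two]
  · intro e he e' he'
    obtain ⟨j, -, e1⟩ := hE e he
    obtain ⟨j', -, e2⟩ := hE e' he'
    rw [e1, e2]
    exact hA j j'
  · intro e he h
    obtain ⟨j, rfl, e1⟩ := hE e he
    obtain ⟨k, rfl⟩ := hB j (Units.ext (e1.symm.trans h))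
    rw [_root_.zpow_mul, zpow_ofNat, ← pow_mul, hs']
    rcases Int.even_or_odd k with hk | hk
    · rw [hk.neg_one_zpow]; exact .inl rfl
    · rw [hk.neg_one_zpow]; exact .inr rfl
  · intro i j hij g
    have e1 : ∀ k : ZMod (2 * 15), ((pw (Units.map κ.toMonoidHom s ^ 4) k : (RingtL S)ˣ) : RingtL S) =
        ringtA (C (((s ^ 4) ^ k.val : Sˣ) : S)) := fun k => by
      rw [pw, ← map_pow, ← map_pow]; rfl
    have e2 : ∀ k : ZMod (2 * 15),
        (((pw (Units.map κ.toMonoidHom s ^ 4) k)⁻¹ : (RingtL S)ˣ) : RingtL S) =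
        ringtA (C ((((s ^ 4) ^ k.val)⁻¹ : Sˣ) : S)) := fun k => by
      rw [pw, ← map_pow, ← map_pow, ← map_inv]; rfl
    rcases g with k | k
    · rcases lt_or_gt_of_ne hij with h | h
      · obtain ⟨m, rfl⟩ : ∃ m, j = i + (m + 1) := ⟨j - i - 1, by omega⟩
        obtain ⟨γ, g1, g2⟩ := ringtM_om h2 (i + 1) (C ((((s ^ 4) ^ k.val)⁻¹ : Sˣ) : S) *
          X ^ (4 * (m + 1)) - C (((s ^ 4) ^ k.val : Sˣ) : S)) (hP (k.val + 15)) (by
            rw [← hN]; simp)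
        refine ⟨γ, g1, ?_⟩
        rw [← g2]
        simp only [om, rho, rhoF, MonoidHom.coe_mk, OneHom.coe_mk, e1, e2, mulVec, dotProduct,
          Fin.sum_univ_two, of_apply, cons_val', cons_val_zero, cons_val_one, cons_val_fin_one,
          map_mul, map_sub, map_pow]
        ring
      · obtain ⟨m, rfl⟩ : ∃ m, i = j + (m + 1) := ⟨i - j - 1, by omega⟩
        obtain ⟨γ, g1, g2⟩ := ringtM_om h2 (j + 1) (C ((((s ^ 4) ^ k.val)⁻¹ : Sˣ) : S) -
          C (((s ^ 4) ^ k.val : Sˣ) : S) * X ^ (4 * (m + 1))) (Subgroup.inv_mem _ (hP k.val)) (by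
            rw [← hI]; simp)
        refine ⟨γ, g1, ?_⟩
        rw [← g2]
        simp only [om, rho, rhoF, MonoidHom.coe_mk, OneHom.coe_mk, e1, e2, mulVec, dotProduct,
          Fin.sum_univ_two, of_apply, cons_val', cons_val_zero, cons_val_one, cons_val_fin_one,
          map_mul, map_sub, map_pow]
        ring
    · obtain ⟨γ, g1, g2⟩ := ringtM_om h2 0 (-C (((s ^ 4) ^ k.val : Sˣ) : S) -
        C ((((s ^ 4) ^ k.val)⁻¹ : Sˣ) : S) * X ^ (4 * (i + 1)) * X ^ (4 * (j + 1)))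
        (hP (k.val + 15)) (by rw [← hN]; simp)
      refine ⟨γ, g1, ?_⟩
      rw [← g2]
      simp only [om, rho, rhoF, MonoidHom.coe_mk, OneHom.coe_mk, e1, e2, mulVec, dotProduct,
        Fin.sum_univ_two, of_apply, cons_val', cons_val_zero, cons_val_one, cons_val_fin_one,
        map_mul, map_sub, map_pow, map_neg]
      ring
  · rw [← hκ]
    simpa [delta, map_ofNat] using h

end series

theorem ringt_dom : ∃ (O : Type) (_ : CommRing O) (_ : IsDomain O) (_ : CharZero O) (ζ : O),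
    IsPrimitiveRoot ζ 120 ∧ IsUnit (2 : O) ∧ ∀ (p : ℕ) [Fact p.Prime], p ≠ 2 →
      Nonempty (O →+* AlgebraicClosure (ZMod p)) := by
  have hd : (Polynomial.cyclotomic 120 ℤ).degree ≠ 0 :=
    (Polynomial.degree_cyclotomic_pos 120 ℤ (by norm_num)).ne'
  have i1 : IsDomain (AdjoinRoot (Polynomial.cyclotomic 120 ℤ)) :=
    AdjoinRoot.isDomain_of_prime (Polynomial.cyclotomic.irreducible (by norm_num)).prime
  have i2 : CharZero (AdjoinRoot (Polynomial.cyclotomic 120 ℤ)) :=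
    (RingHom.charZero_iff (AdjoinRoot.of.injective_of_degree_ne_zero hd)).1 inferInstance
  have h1 : IsPrimitiveRoot (AdjoinRoot.root (Polynomial.cyclotomic 120 ℤ)) 120 := by
    rw [← Polynomial.isRoot_cyclotomic_iff, ← Polynomial.map_cyclotomic 120 (AdjoinRoot.of _)]
    exact AdjoinRoot.isRoot_root _
  have h2 : Submonoid.powers (2 : AdjoinRoot (Polynomial.cyclotomic 120 ℤ)) ≤ nonZeroDivisors _ :=
    powers_le_nonZeroDivisors_of_noZeroDivisors two_ne_zero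
  have h3 := IsLocalization.injective
    (Localization.Away (2 : AdjoinRoot (Polynomial.cyclotomic 120 ℤ))) h2
  refine ⟨Localization.Away (2 : AdjoinRoot (Polynomial.cyclotomic 120 ℤ)), inferInstance,
    IsLocalization.isDomain_localization h2, (RingHom.charZero_iff h3).1 i2, _,
    h1.map_of_injective h3, ?_, fun p _ hp => ?_⟩
  · simpa [map_ofNat] using IsLocalization.Away.algebraMap_isUnit
      (S := Localization.Away (2 : AdjoinRoot (Polynomial.cyclotomic 120 ℤ)))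
      (2 : AdjoinRoot (Polynomial.cyclotomic 120 ℤ))
  · obtain ⟨z, hz⟩ := IsAlgClosed.exists_root
      (Polynomial.cyclotomic 120 (AlgebraicClosure (ZMod p)))
      (Polynomial.degree_cyclotomic_pos 120 _ (by norm_num)).ne'
    have h4 : (Polynomial.cyclotomic 120 ℤ).eval₂ (Int.castRingHom _) z = 0 := by
      rw [Polynomial.eval₂_eq_eval_map, Polynomial.map_cyclotomic]
      exact hz
    refine ⟨IsLocalization.Away.lift (2 : AdjoinRoot (Polynomial.cyclotomic 120 ℤ))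
      (g := AdjoinRoot.lift _ z h4) ?_⟩
    rw [map_ofNat]
    exact (Ring.two_ne_zero (by rwa [ringChar.eq _ p])).isUnit

theorem ringt_frob {F : Type} [Field F] (p : ℕ) [Fact p.Prime] [CharP F p] {z : F} (h : z ^ p = 1) :
    z = 1 := frobenius_inj F p (by rw [frobenius_def, h, map_one])

theorem ringt_sign {O F G : Type} [CommRing O] [IsDomain O] [Field F] [Field G] [CharP F 3]
    [CharP G 5] (r : O →+* F) (q : O →+* G) {x1 x2 x3 c0 c1 c2 c3 : O}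
    (h1 : x1 ^ 2 - x1 + 1 = 0) (h2 : x2 ^ 4 - x2 ^ 3 + x2 ^ 2 - x2 + 1 = 0)
    (h3 : x3 ^ 8 + x3 ^ 7 - x3 ^ 5 - x3 ^ 4 - x3 ^ 3 + x3 + 1 = 0)
    (d0 : delta (-1) = c0 * c0) (d1 : delta x1 = c1 * c1) (d2 : delta x2 = c2 * c2)
    (d3 : delta x3 = c3 * c3) (a1 : r x2 = r x3) (a2 : q x2 = -1) (a3 : q x1 = q x3)
    (b1 : r c0 = r c1) (b2 : r c2 = r c3) (b3 : q c0 = q c2) (b4 : q c1 = q c3) : False := by
  unfold delta at d0 d1 d2 d3
  have e0 : c0 = 1 ∨ c0 = -1 := mul_self_eq_one_iff.1 (by linear_combination -d0)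
  have e1 : c1 = 1 ∨ c1 = -1 := mul_self_eq_one_iff.1 (by
    linear_combination -d1 + (2 + x1 - 2 * x1 ^ 2 - 3 * x1 ^ 3 + 3 * x1 ^ 5 + 2 * x1 ^ 6 -
      3 * x1 ^ 8 - 2 * x1 ^ 9 + x1 ^ 10 + 2 * x1 ^ 11 + x1 ^ 12) * h1)
  have e2 : c2 = x2 ^ 4 - x2 + 2 ∨ c2 = -(x2 ^ 4 - x2 + 2) := mul_self_eq_mul_self_iff.1 (by
    linear_combination -d2 + (-1 + 2 * x2 + x2 ^ 2 - 2 * x2 ^ 3 - 3 * x2 ^ 4 - x2 ^ 6 - x2 ^ 7 +
      x2 ^ 8 + 2 * x2 ^ 9 + x2 ^ 10) * h2)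
  have e3 : c3 = x3 ^ 12 - x3 ^ 3 + 2 ∨ c3 = -(x3 ^ 12 - x3 ^ 3 + 2) :=
    mul_self_eq_mul_self_iff.1 (by
      linear_combination -d3 + (-1 - x3 ^ 2 + 4 * x3 ^ 3 - 4 * x3 ^ 4 + 2 * x3 ^ 5 - x3 ^ 6 +
        2 * x3 ^ 7 - x3 ^ 9 + x3 ^ 10 - x3 ^ 11 - x3 ^ 14 + x3 ^ 15 - x3 ^ 16) * h3)
  have t3 : (3 : F) = 0 := CharP.ofNat_eq_zero F 3
  have t5 : (5 : G) = 0 := CharP.ofNat_eq_zero G 5
  have f2 := congrArg r h2
  have f1 := congrArg q h1
  simp only [map_add, map_sub, map_pow, map_one, map_zero] at f1 f2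
  have g1 : r (x3 ^ 12 - x3 ^ 3 + 2) = -r (x2 ^ 4 - x2 + 2) := by
    simp only [map_add, map_sub, map_pow, map_ofNat, ← a1]
    linear_combination t3 + (1 - r x2 ^ 2 - r x2 ^ 3 + r x2 ^ 7 + r x2 ^ 8) * f2
  have g2 : (2 + r x2 ^ 2 - r x2 ^ 3) * r (x2 ^ 4 - x2 + 2) = 1 := by
    simp only [map_add, map_sub, map_pow, map_ofNat]
    linear_combination (3 + r x2 - r x2 ^ 3) * f2
  have g3 : q (x2 ^ 4 - x2 + 2) = -1 := by
    simp only [map_add, map_sub, map_pow, map_ofNat, a2]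
    linear_combination t5
  have g4 : q (x3 ^ 12 - x3 ^ 3 + 2) = -1 := by
    simp only [map_add, map_sub, map_pow, map_ofNat, ← a3]
    linear_combination t5 + (q x1 + 1) * (q x1 ^ 9 - q x1 ^ 6 + q x1 ^ 3 - 2) * f1
  have n3 : (1 : F) ≠ -1 := fun e => one_ne_zero (α := F) (by linear_combination t3 - e)
  have n5 : (1 : G) ≠ -1 := fun e => one_ne_zero (α := G) (by linear_combination t5 - 2 * e)
  have n6 : r (x2 ^ 4 - x2 + 2) ≠ -r (x2 ^ 4 - x2 + 2) := fun e =>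
    n3 (by linear_combination (2 + r x2 ^ 2 - r x2 ^ 3) * e - 2 * g2)
  generalize x2 ^ 4 - x2 + 2 = v at *
  generalize x3 ^ 12 - x3 ^ 3 + 2 = v' at *
  rcases e0 with rfl | rfl <;> rcases e1 with rfl | rfl <;> rcases e2 with rfl | rfl <;>
    rcases e3 with rfl | rfl <;>
    simp only [map_neg, map_one, g1, g3, g4, neg_neg, n3, n5, n6, n3.symm, n5.symm,
      n6.symm] at b1 b2 b3 b4

/-- The fibre product. -/
def ringtS {O F G : Type} [CommRing O] [CommRing F] [CommRing G] (r : O →+* F) (q : O →+* G) :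
    Subring (Fin 4 → O) where
  carrier := {c | r (c 0) = r (c 1) ∧ r (c 2) = r (c 3) ∧ q (c 0) = q (c 2) ∧ q (c 1) = q (c 3)}
  mul_mem' := fun ⟨a1, a2, a3, a4⟩ ⟨b1, b2, b3, b4⟩ => by simp [a1, a2, a3, a4, b1, b2, b3, b4]
  one_mem' := by simp
  add_mem' := fun ⟨a1, a2, a3, a4⟩ ⟨b1, b2, b3, b4⟩ => by simp [a1, a2, a3, a4, b1, b2, b3, b4]
  zero_mem' := by simp
  neg_mem' := fun ⟨a1, a2, a3, a4⟩ => by simp [a1, a2, a3, a4]

theorem exists_ring : ∃ (T : Type) (_ : CommRing T) (_ : Nice T) (s : Tˣ)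
    (h : ((s ^ 4 : Tˣ) : T) ^ 15 = -1),
    Iface (rho (s ^ 4) h) ∧ ¬ IsSquare (delta ((s ^ 4 : Tˣ) : T)) := by
  obtain ⟨O, _, _, _, ζ, hζ, ⟨t, ht⟩, hr⟩ := ringt_dom
  have : Fact (Nat.Prime 5) := ⟨by norm_num⟩
  obtain ⟨r⟩ := hr 3 (by norm_num)
  obtain ⟨q⟩ := hr 5 (by norm_num)
  have z1 := hζ.pow_eq_one
  have z2 : ∀ k, 0 < k → k < 120 → ζ ^ k ≠ 1 := fun k h h' => hζ.pow_ne_one_of_pos_of_lt h.ne' h'
  have z3 : ζ ^ 60 = -1 :=
    (mul_self_eq_one_iff.1 (by rw [← pow_add, z1])).resolve_left (z2 60 (by norm_num) (by norm_num))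
  have r1 : r ζ ^ 40 = 1 := ringt_frob 3 (by rw [← pow_mul, ← map_pow, z1, map_one])
  have q1 : q ζ ^ 24 = 1 := ringt_frob 5 (by rw [← pow_mul, ← map_pow, z1, map_one])
  let π : Fin 4 → (ringtS r q →+* O) := fun i => (Pi.evalRingHom _ i).comp (ringtS r q).subtype
  obtain ⟨s0, s1, s2, s3, s4⟩ : ∃ s0 : ringtS r q, π 0 s0 = ζ ^ 105 ∧ π 1 s0 = ζ ^ 25 ∧
      π 2 s0 = ζ ^ 81 ∧ π 3 s0 = ζ := by
    refine ⟨⟨![ζ ^ 105, ζ ^ 25, ζ ^ 81, ζ], ?_, ?_, ?_, ?_⟩, rfl, rfl, rfl, rfl⟩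
    · change r (ζ ^ 105) = r (ζ ^ 25)
      rw [map_pow, map_pow]
      linear_combination r ζ ^ 25 * (r ζ ^ 40 + 1) * r1
    · change r (ζ ^ 81) = r ζ
      rw [map_pow]
      linear_combination r ζ * (r ζ ^ 40 + 1) * r1
    · change q (ζ ^ 105) = q (ζ ^ 81)
      rw [map_pow, map_pow]
      linear_combination q ζ ^ 81 * q1
    · change q (ζ ^ 25) = q ζ
      rw [map_pow]
      linear_combination q ζ * q1
  have hπ : ∀ x y : ringtS r q, π 0 x = π 0 y → π 1 x = π 1 y → π 2 x = π 2 y → π 3 x = π 3 y →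
      x = y := fun x y a b c d => Subtype.ext (funext fun i => by fin_cases i <;> assumption)
  have z4 : ∀ k, Odd k → (ζ ^ k) ^ 60 = -1 := fun k hk => by
    rw [← pow_mul, mul_comm, pow_mul, z3, hk.neg_one_pow]
  have hs : s0 ^ 60 = -1 := by
    apply hπ <;> rw [map_pow, map_neg, map_one]
    · rw [s1, z4 _ (by decide)]
    · rw [s2, z4 _ (by decide)]
    · rw [s3, z4 _ (by decide)]
    · rw [s4, z3]
  obtain ⟨s, rfl⟩ : IsUnit s0 := (isUnit_pow_iff (n := 60) (by norm_num)).1 (hs ▸ isUnit_one.neg)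
  have h2 : IsUnit (2 : ringtS r q) := by
    refine IsUnit.of_mul_eq_one ⟨fun _ => (t⁻¹ : Oˣ), rfl, rfl, rfl, rfl⟩ ?_
    apply hπ <;> rw [map_mul, map_ofNat, map_one, ← ht] <;> exact t.mul_inv
  have x0 : π 0 ((s : ringtS r q) ^ 4) = -1 := by
    rw [map_pow, s1, ← pow_mul, show 105 * 4 = 60 * 7 by rfl, pow_mul, z3]
    ring
  have : Nontrivial (ringtS r q) := (π 0).domain_nontrivial
  have : IsReduced (ringtS r q) := isReduced_of_injective _ (ringtS r q).subtype_injective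
  refine ringt_main h2 s hs (fun j j' h => ?_) (fun j h => ?_) ?_
  · have e1 : Units.map (π 0).toMonoidHom (s ^ 4) = -1 := Units.ext x0
    have e2 : ∀ j : ℤ, π 0 ((s ^ 4) ^ j : (ringtS r q)ˣ) = 1 ∨
        π 0 ((s ^ 4) ^ j : (ringtS r q)ˣ) = -1 := fun j => by
      have e3 := map_zpow (Units.map (π 0).toMonoidHom) (s ^ 4) j
      rw [e1] at e3
      rcases Int.even_or_odd j with hj | hj <;> rw [hj.neg_one_zpow] at e3
      exacts [.inl (congrArg Units.val e3), .inr (congrArg Units.val e3)]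
    have e4 := congrArg (π 0) h
    rw [map_add, map_one] at e4
    rcases e2 j with a | a <;> rcases e2 j' with b | b <;> rw [a, b] at e4 <;> norm_num at e4
  · have e1 : IsPrimitiveRoot (Units.map (π 3).toMonoidHom s) 120 :=
      IsPrimitiveRoot.coe_units_iff.1 (by rwa [← s4] at hζ)
    have e2 := congrArg (Units.map (π 3).toMonoidHom) h
    rw [map_zpow, map_pow, map_one, ← zpow_natCast, ← zpow_mul, e1.zpow_eq_one_iff_dvd] at e2
    omega
  · rintro ⟨c, hc⟩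
    have hd : ∀ i, delta (π i ((s : ringtS r q) ^ 4)) = π i c * π i c := fun i => by
      rw [← map_mul, ← hc]
      simp [delta, map_ofNat]
    have m := ((s : ringtS r q) ^ 4).2
    have y0 := hd 0
    rw [x0] at y0
    have n1 : ∀ k, ¬ 120 ∣ 2 * k → ζ ^ k + 1 ≠ 0 := fun k h e =>
      h ((hζ.pow_eq_one_iff_dvd _).1 (by linear_combination (ζ ^ k - 1) * e))
    refine ringt_sign r q ?_ ?_ ?_ y0 (hd 1) (hd 2) (hd 3) m.2.1 ?_ m.2.2.2 c.2.1 c.2.2.1 c.2.2.2.1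
      c.2.2.2.2
    · rw [map_pow, s2]
      refine mul_left_cancel₀ (n1 100 (by norm_num)) ?_
      linear_combination z4 5 (by decide)
    · rw [map_pow, s3]
      refine mul_left_cancel₀ (n1 324 (by norm_num)) ?_
      linear_combination z4 27 (by decide)
    · rw [map_pow, s4]
      refine mul_left_cancel₀ (mul_ne_zero (n1 12 (by norm_num)) (n1 20 (by norm_num))) ?_
      linear_combination (ζ ^ 4 + 1) * z3
    · have : q (π 0 ((s : ringtS r q) ^ 4)) = q (π 2 ((s : ringtS r q) ^ 4)) := m.2.2.1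
      rw [← this, x0, map_neg, map_one]

end MP35
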