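import Pool.Agent.Lib.MP_35c604_gt.TopA
import Pool.Agent.Lib.MP_35c604_gt.ChainDefs

/-! TASK TOPB: polyhedra. -/

namespace MP35

open SC unitInterval

variable {V : Type} [DecidableEq V]

/-- The point of the polyhedron given by a vertex. -/
def SC.pt (B : SC V) {v : V} (hv : v ∈ B.verts) : B.real :=
  ⟨Pi.single v 1, fun w => by by_cases h : w = v <;> simp [h],
    {v}, hv, fun w hw => by simp [Finset.notMem_singleton.1 hw], by simp⟩

/-- The closed simplex spanned by `s`. -/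
def topbD (s : Finset V) : Set (V → ℝ) :=
  {x | (∀ v, 0 ≤ x v) ∧ (∀ v, v ∉ s → x v = 0) ∧ ∑ v ∈ s, x v = 1}

omit [DecidableEq V] in
theorem topb_comb {s : Finset V} {x y : V → ℝ} (hx : x ∈ topbD s) (hy : y ∈ topbD s) (t : I) :
    (1 - (t : ℝ)) • x + (t : ℝ) • y ∈ topbD s := by
  have h0 := t.2.1
  have h1 : 0 ≤ 1 - (t : ℝ) := sub_nonneg.2 t.2.2
  refine ⟨fun v => ?_, fun v hv => ?_, ?_⟩
  · have := hx.1 v
    have := hy.1 v
    simp only [Pi.add_apply, Pi.smul_apply, smul_eq_mul]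
    positivity
  · simp [hx.2.1 v hv, hy.2.1 v hv]
  · simp only [Pi.add_apply, Pi.smul_apply, smul_eq_mul, Finset.sum_add_distrib, ← Finset.mul_sum,
      hx.2.2, hy.2.2]
    ring

omit [DecidableEq V] in
theorem topb_sub {B : SC V} {s : Finset V} (hs : s ∈ B.faces) {x : V → ℝ} (hx : x ∈ topbD s) :
    x ∈ B.real := ⟨hx.1, s, hs, hx.2⟩

theorem topb_single {s : Finset V} {v : V} (hv : v ∈ s) : (Pi.single v 1 : V → ℝ) ∈ topbD s :=
  ⟨fun w => by by_cases h : w = v <;> simp [h],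
    fun w hw => Pi.single_eq_of_ne (fun e : w = v => hw (e ▸ hv)) _, by simp [hv]⟩

omit [DecidableEq V] in
theorem topb_compact (s : Finset V) : IsCompact (topbD s) := by
  refine (isCompact_univ_pi fun _ : V => isCompact_Icc (a := (0 : ℝ)) (b := 1)).of_isClosed_subset
    ?_ fun x hx v _ => ⟨hx.1 v, ?_⟩
  · have e : topbD s = (⋂ v, {x : V → ℝ | 0 ≤ x v}) ∩ ((⋂ v, ⋂ _ : v ∉ s, {x : V → ℝ | x v = 0}) ∩
        {x | ∑ v ∈ s, x v = 1}) := by
      ext x; simp [topbD]
    rw [e]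
    refine (isClosed_iInter fun v => isClosed_le continuous_const (continuous_apply v)).inter
      ((isClosed_iInter fun v => isClosed_iInter fun _ =>
        isClosed_eq (continuous_apply v) continuous_const).inter
        (isClosed_eq (by fun_prop) continuous_const))
  · by_cases h : v ∈ s
    · rw [← hx.2.2]
      exact Finset.single_le_sum (fun w _ => hx.1 w) h
    · rw [hx.2.1 v h]; exact zero_le_one

omit [DecidableEq V] in
theorem topb_compactSpace (B : SC V) : CompactSpace B.real := by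
  have e : B.real = ⋃ s ∈ B.faces, topbD s := by
    ext x
    simp only [Set.mem_iUnion]
    exact ⟨fun ⟨h, s, hs, h'⟩ => ⟨s, hs, h, h'⟩, fun ⟨s, hs, h⟩ => topb_sub hs h⟩
  rw [← isCompact_iff_compactSpace, e]
  exact B.faces.isCompact_biUnion fun s _ => topb_compact s

omit [DecidableEq V] in
/-- Paths inside one simplex are homotopic. -/
theorem topb_hom {B : SC V} {s : Finset V} (hs : s ∈ B.faces) {x y : B.real} (p q : Path x y)
    (hp : ∀ t, (p t).1 ∈ topbD s) (hq : ∀ t, (q t).1 ∈ topbD s) :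
    Path.Homotopic.Quotient.mk p = Path.Homotopic.Quotient.mk q := by
  refine Path.Homotopic.Quotient.eq.2 ⟨⟨⟨⟨fun z => ⟨(1 - (z.1 : ℝ)) • (p z.2).1 + (z.1 : ℝ) • (q z.2).1,
    topb_sub hs (topb_comb (hp _) (hq _) _)⟩, ?_⟩, fun u => ?_, fun u => ?_⟩, fun t u hu => ?_⟩⟩
  · refine Continuous.subtype_mk ?_ _
    have h1 : Continuous fun z : I × I => (p z.2).1 := by fun_prop
    have h2 : Continuous fun z : I × I => (q z.2).1 := by fun_prop
    fun_prop
  · apply Subtype.ext; simp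
  · apply Subtype.ext; simp
  · apply Subtype.ext
    rcases hu with rfl | rfl <;> simp [sub_smul]

/-- The straight path along an edge. -/
noncomputable def topbEdge {B : SC V} {u v : V} (h : ({u, v} : Finset V) ∈ B.faces)
    (hu : u ∈ B.verts) (hv : v ∈ B.verts) : Path (B.pt hu) (B.pt hv) where
  toFun t := ⟨(1 - (t : ℝ)) • (Pi.single u 1 : V → ℝ) + (t : ℝ) • (Pi.single v 1 : V → ℝ),
    topb_sub h (topb_comb (topb_single (by simp)) (topb_single (by simp)) t)⟩
  continuous_toFun := Continuous.subtype_mk (by fun_prop) _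
  source' := by apply Subtype.ext; simp [SC.pt]
  target' := by apply Subtype.ext; simp [SC.pt]

theorem topbEdge_val {B : SC V} {u v : V} (h : ({u, v} : Finset V) ∈ B.faces)
    (hu : u ∈ B.verts) (hv : v ∈ B.verts) (t : I) : (topbEdge h hu hv t).1 =
      (1 - (t : ℝ)) • (Pi.single u 1 : V → ℝ) + (t : ℝ) • (Pi.single v 1 : V → ℝ) := rfl

theorem topbEdge_mem {B : SC V} {u v : V} (h : ({u, v} : Finset V) ∈ B.faces)
    (hu : u ∈ B.verts) (hv : v ∈ B.verts) {s : Finset V} (h1 : u ∈ s) (h2 : v ∈ s) (t : I) :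
    (topbEdge h hu hv t).1 ∈ topbD s := topb_comb (topb_single h1) (topb_single h2) t

theorem topb_trans_mem {B : SC V} {u v w : V} (h : ({u, v} : Finset V) ∈ B.faces)
    (h' : ({v, w} : Finset V) ∈ B.faces) (hu : u ∈ B.verts) (hv : v ∈ B.verts) (hw : w ∈ B.verts)
    (t : I) : ((topbEdge h hu hv).trans (topbEdge h' hv hw) t).1 ∈ topbD ({u, v, w} : Finset V) := by
  rw [Path.trans_apply]
  split_ifs
  · exact topbEdge_mem _ _ _ (by simp) (by simp) _
  · exact topbEdge_mem _ _ _ (by simp) (by simp) _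

/-- The height of the roof over `s`. -/
noncomputable def topbA (s : ℝ) : ℝ := min (2 * s) (2 - 2 * s)

/-- Coordinates on a triangle. -/
noncomputable def topbF (b a c : V) (s β : ℝ) : V → ℝ :=
  (1 - s - β / 2) • (Pi.single b 1 : V → ℝ) + β • (Pi.single a 1 : V → ℝ) +
    (s - β / 2) • (Pi.single c 1 : V → ℝ)

theorem topb_trans_val {B : SC V} {u v w : V} (h : ({u, v} : Finset V) ∈ B.faces)
    (h' : ({v, w} : Finset V) ∈ B.faces) (hu : u ∈ B.verts) (hv : v ∈ B.verts) (hw : w ∈ B.verts)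
    (t : I) : ((topbEdge h hu hv).trans (topbEdge h' hv hw) t).1 = topbF u v w t (topbA t) := by
  rw [Path.trans_apply]
  split_ifs with c
  · have e : topbA t = 2 * t := min_eq_left (by linarith)
    rw [topbEdge_val, e, topbF]
    module
  · have e : topbA t = 2 - 2 * t := min_eq_right (by linarith [not_le.1 c])
    rw [topbEdge_val, e, topbF]
    module

theorem topb_sq_val (b a c : V) (t s : ℝ) : (1 - t) • topbF b a c s (topbA s) +
    t • ((1 - s) • (Pi.single b 1 : V → ℝ) + s • (Pi.single c 1 : V → ℝ)) =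
      topbF b a c s ((1 - t) * topbA s) := by
  simp only [topbF]
  module

theorem topbF_b {b a c : V} (h1 : b ≠ a) (h2 : b ≠ c) (s β : ℝ) :
    topbF b a c s β b = 1 - s - β / 2 := by simp [topbF, h1, h2]

theorem topbF_a {b a c : V} (h1 : b ≠ a) (h3 : a ≠ c) (s β : ℝ) : topbF b a c s β a = β := by
  simp [topbF, h1.symm, h3]

theorem topbF_c {b a c : V} (h2 : b ≠ c) (h3 : a ≠ c) (s β : ℝ) :
    topbF b a c s β c = s - β / 2 := by simp [topbF, h2.symm, h3.symm]

/-- Every point of the triangle is on the square. -/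
theorem topb_surj {b a c : V} (h1 : b ≠ a) (h2 : b ≠ c) (h3 : a ≠ c) {z : V → ℝ}
    (hz : z ∈ topbD ({b, a, c} : Finset V)) :
    ∃ t s : I, z = topbF b a c s ((1 - (t : ℝ)) * topbA s) := by
  have hs := hz.2.2
  rw [Finset.sum_insert (by simp [h1, h2]), Finset.sum_pair h3] at hs
  have pb := hz.1 b
  have pa := hz.1 a
  have pc := hz.1 c
  have hA : z a ≤ topbA (z c + z a / 2) := le_min (by linarith) (by linarith)
  have hd0 : 0 ≤ z a / topbA (z c + z a / 2) := div_nonneg pa (pa.trans hA)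
  have hd1 : z a / topbA (z c + z a / 2) ≤ 1 := div_le_one_of_le₀ hA (pa.trans hA)
  refine ⟨⟨1 - z a / topbA (z c + z a / 2), by linarith, by linarith⟩,
    ⟨z c + z a / 2, by linarith, by linarith⟩, ?_⟩
  have e : (1 - (1 - z a / topbA (z c + z a / 2))) * topbA (z c + z a / 2) = z a := by
    rw [sub_sub_cancel]
    by_cases h0 : topbA (z c + z a / 2) = 0
    · rw [h0] at hA ⊢
      linarith
    · exact div_mul_cancel₀ _ h0
  simp only [e]
  funext v
  by_cases vb : v = b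
  · rw [vb, topbF_b h1 h2]; linarith
  by_cases va : v = a
  · rw [va, topbF_a h1 h3]
  by_cases vc : v = c
  · rw [vc, topbF_c h2 h3]; ring
  rw [hz.2.1 v (by simp [vb, va, vc])]
  simp [topbF, vb, va, vc]

theorem topb_I {t : I} (h0 : t ≠ 0) (h1 : t ≠ 1) : 0 < (t : ℝ) ∧ (t : ℝ) < 1 :=
  ⟨t.2.1.lt_of_ne fun e => h0 (Subtype.ext e.symm), t.2.2.lt_of_ne fun e => h1 (Subtype.ext e)⟩

/-- Interior points of the square have full support. -/
theorem topb_int {b a c : V} (h1 : b ≠ a) (h2 : b ≠ c) (h3 : a ≠ c) {t s : ℝ} (ht : 0 < t ∧ t < 1)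
    (hs : 0 < s ∧ s < 1) {u : Finset V}
    (hu : ∀ v, v ∉ u → topbF b a c s ((1 - t) * topbA s) v = 0) : ({b, a, c} : Finset V) ⊆ u := by
  have hA : 0 < topbA s := lt_min (by linarith [hs.1]) (by linarith [hs.2])
  have hA1 : topbA s ≤ 2 * s := min_le_left _ _
  have hA2 : topbA s ≤ 2 - 2 * s := min_le_right _ _
  have k1 : 0 < (1 - t) * topbA s := mul_pos (by linarith [ht.2]) hA
  have k2 : 0 < t * topbA s := mul_pos ht.1 hA
  intro v hv
  by_contra hn
  have h0 := hu v hn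
  simp only [Finset.mem_insert, Finset.mem_singleton] at hv
  rcases hv with rfl | rfl | rfl
  · rw [topbF_b h1 h2] at h0; nlinarith
  · rw [topbF_a h1 h3] at h0; linarith
  · rw [topbF_c h2 h3] at h0; nlinarith

theorem topb_inj {b a c : V} (h1 : b ≠ a) (h2 : b ≠ c) (h3 : a ≠ c) {t s t' s' : ℝ}
    (hs : 0 < s ∧ s < 1)
    (h : topbF b a c s ((1 - t) * topbA s) = topbF b a c s' ((1 - t') * topbA s')) :
    t = t' ∧ s = s' := by
  have hA : 0 < topbA s := lt_min (by linarith [hs.1]) (by linarith [hs.2])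
  have ea := congrFun h a
  have ec := congrFun h c
  rw [topbF_a h1 h3, topbF_a h1 h3] at ea
  rw [topbF_c h2 h3, topbF_c h2 h3, ea] at ec
  have es : s = s' := by linarith
  rw [← es] at ea
  have := mul_right_cancel₀ hA.ne' ea
  exact ⟨by linarith, es⟩

/-- The cell structure of `B` with two triangles added. -/
theorem topb_cells {B Z : SC V} {b : V} (hb : b ∈ B.verts) {a c : Fin 2 → V} (T : TwoTri B b a c)
    (hZ : IsPlus B Z b a c) (ha : ∀ i, a i ∈ B.verts) (hc : ∀ i, c i ∈ B.verts) :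
    ∃ C : CellStr B.real Z.real (Fin 2) (B.pt hb), ∀ i, cl ((C.p i).trans (C.q i).symm) =
      cl (((topbEdge (T.e1 i) hb (ha i)).trans (topbEdge (T.e2 i) (ha i) (hc i))).trans
        (topbEdge (T.e3 i) hb (hc i)).symm) := by
  have hBZ : B.faces ⊆ Z.faces := fun s hs => by
    rw [hZ]; exact Finset.mem_insert_of_mem (Finset.mem_insert_of_mem hs)
  have hT : ∀ i, ({b, a i, c i} : Finset V) ∈ Z.faces := fun i => by
    rw [hZ]; fin_cases i <;> simp
  let j : C(B.real, Z.real) := ⟨fun x => ⟨x.1, x.2.1, x.2.2.elim fun s hs => ⟨s, hBZ hs.1, hs.2⟩⟩,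
    Continuous.subtype_mk continuous_subtype_val _⟩
  have jv : ∀ x, (j x).1 = x.1 := fun _ => rfl
  have ji : ∀ x y, j x = j y → x = y := fun x y h => Subtype.ext (congrArg Subtype.val h :)
  let p := fun i => (topbEdge (T.e1 i) hb (ha i)).trans (topbEdge (T.e2 i) (ha i) (hc i))
  let q := fun i => topbEdge (T.e3 i) hb (hc i)
  have hm : ∀ i (y : I × I), (1 - (y.1 : ℝ)) • (p i y.2).1 + (y.1 : ℝ) • (q i y.2).1 ∈
      topbD ({b, a i, c i} : Finset V) := fun i y =>
    topb_comb (topb_trans_mem _ _ _ _ _ _) (topbEdge_mem _ _ _ (by simp) (by simp) _) _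
  obtain ⟨m, mv⟩ : ∃ m : Fin 2 → C(I × I, Z.real), ∀ i y,
      (m i y).1 = (1 - (y.1 : ℝ)) • (p i y.2).1 + (y.1 : ℝ) • (q i y.2).1 := by
    refine ⟨fun i => ⟨fun y => ⟨_, topb_sub (hT i) (hm i y)⟩, Continuous.subtype_mk ?_ _⟩,
      fun _ _ => rfl⟩
    have h1 : Continuous fun z : I × I => (p i z.2).1 := by fun_prop
    have h2 : Continuous fun z : I × I => (q i z.2).1 := by fun_prop
    fun_prop
  have mF : ∀ i (y : I × I), (m i y).1 =
      topbF b (a i) (c i) y.2 ((1 - (y.1 : ℝ)) * topbA y.2) := fun i y => by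
    rw [mv, topb_trans_val, topbEdge_val, topb_sq_val]
  have m0 : ∀ i s, m i (0, s) = j (p i s) := fun i s => Subtype.ext (by rw [mv, jv]; simp)
  have m1 : ∀ i s, m i (1, s) = j (q i s) := fun i s => Subtype.ext (by rw [mv, jv]; simp)
  have ml : ∀ i t, m i (t, 0) = j (B.pt hb) := fun i t =>
    Subtype.ext (by rw [mv, jv]; simp [sub_smul])
  have mr : ∀ i t, m i (t, 1) = j (B.pt (hc i)) := fun i t =>
    Subtype.ext (by rw [mv, jv]; simp [sub_smul])
  have surj : ∀ z, (∃ x, z = j x) ∨ ∃ i y, z = m i y := fun z => by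
    obtain ⟨z0, s, hs, z1⟩ := z.2
    have key : ∀ i, s = {b, a i, c i} → ∃ i y, z = m i y := fun i e => by
      obtain ⟨t, u, h⟩ := topb_surj (T.ba i) (T.bc i) (T.ac i) (z := z.1) ⟨z0, e ▸ z1⟩
      exact ⟨i, (t, u), Subtype.ext (by rw [mF]; exact h)⟩
    rw [hZ, Finset.mem_insert, Finset.mem_insert] at hs
    rcases hs with e | e | e
    · exact Or.inr (key 0 e)
    · exact Or.inr (key 1 e)
    · exact Or.inl ⟨⟨z.1, z0, s, e, z1⟩, rfl⟩
  refine ⟨⟨j, fun i => B.pt (hc i), p, q, m, m0, m1, ml, mr, surj, ?_⟩, fun i => rfl⟩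
  intro Y _ f D d0 d1 dl dr
  have bd : ∀ i (y : I × I), (∃ x, m i y = j x ∧ D i y = f x) ∨
      ((0 < (y.1 : ℝ) ∧ (y.1 : ℝ) < 1) ∧ 0 < (y.2 : ℝ) ∧ (y.2 : ℝ) < 1) := by
    rintro i ⟨t, s⟩
    by_cases t0 : t = 0
    · exact Or.inl ⟨_, t0 ▸ m0 i s, t0 ▸ d0 i s⟩
    by_cases t1 : t = 1
    · exact Or.inl ⟨_, t1 ▸ m1 i s, t1 ▸ d1 i s⟩
    by_cases s0 : s = 0
    · exact Or.inl ⟨_, s0 ▸ ml i t, s0 ▸ dl i t⟩
    by_cases s1 : s = 1
    · exact Or.inl ⟨_, s1 ▸ mr i t, s1 ▸ dr i t⟩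
    exact Or.inr ⟨topb_I t0 t1, topb_I s0 s1⟩
  have k1 : ∀ i y x, m i y = j x → D i y = f x := fun i y x h => by
    rcases bd i y with ⟨x', e1, e2⟩ | ⟨ht, hs⟩
    · rw [e2, ji x' x (e1.symm.trans h)]
    · obtain ⟨-, s, hs', z1, -⟩ := x.2
      have := topb_int (T.ba i) (T.bc i) (T.ac i) ht hs (u := s) fun v hv => by
        rw [← mF, h, jv]; exact z1 v hv
      exact absurd (B.down s hs' _ this (Finset.insert_nonempty _ _)) (T.new i)
  have k2 : ∀ i y i' y', m i y = m i' y' → D i y = D i' y' := fun i y i' y' h => by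
    rcases bd i y with ⟨x, e1, e2⟩ | ⟨ht, hs⟩
    · rw [e2, k1 i' y' x (h.symm.trans e1)]
    rcases bd i' y' with ⟨x, e1, e2⟩ | ⟨ht', hs'⟩
    · rw [e2, k1 i y x (h.trans e1)]
    have s1 := topb_int (T.ba i) (T.bc i) (T.ac i) ht hs (u := {b, a i', c i'}) fun v hv => by
      rw [← mF, h, mv]; exact (hm i' y').2.1 v hv
    have s2 := topb_int (T.ba i') (T.bc i') (T.ac i') ht' hs' (u := {b, a i, c i}) fun v hv => by
      rw [← mF, ← h, mv]; exact (hm i y).2.1 v hv
    have e := Finset.Subset.antisymm s1 s2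
    obtain rfl : i = i' := by
      have := T.ne
      fin_cases i <;> fin_cases i'
      · rfl
      · exact absurd e this
      · exact absurd e.symm this
      · rfl
    obtain ⟨e1, e2⟩ := topb_inj (T.ba i) (T.bc i) (T.ac i) hs
      (by rw [← mF, h, mF] : topbF b (a i) (c i) y.2 ((1 - (y.1 : ℝ)) * topbA y.2) =
        topbF b (a i) (c i) y'.2 ((1 - (y'.1 : ℝ)) * topbA y'.2))
    rw [show y = y' from Prod.ext (Subtype.ext e1) (Subtype.ext e2)]
  let P : C(B.real ⊕ Fin 2 × I × I, Z.real) := ⟨Sum.elim j fun w => m w.1 w.2,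
    j.continuous.sumElim (continuous_prod_of_discrete_left.2 fun i => (m i).continuous)⟩
  let G : C(B.real ⊕ Fin 2 × I × I, Y) := ⟨Sum.elim f fun w => D w.1 w.2,
    f.continuous.sumElim (continuous_prod_of_discrete_left.2 fun i => (D i).continuous)⟩
  have := topb_compactSpace B
  have hP : Topology.IsQuotientMap P := by
    refine P.continuous.isClosedMap.isQuotientMap P.continuous fun z => ?_
    rcases surj z with ⟨x, e⟩ | ⟨i, y, e⟩
    · exact ⟨Sum.inl x, e.symm⟩
    · exact ⟨Sum.inr (i, y), e.symm⟩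
  have hG : Function.FactorsThrough G P := by
    rintro (x | ⟨i, y⟩) (x' | ⟨i', y'⟩) h
    · exact congrArg f (ji x x' h)
    · exact (k1 i' y' x h.symm).symm
    · exact k1 i y x' h
    · exact k2 i y i' y' h
  have hl := fun w => congrFun (congrArg DFunLike.coe (hP.lift_comp G hG)) w
  exact ⟨hP.lift G hG, fun x => hl (Sum.inl x), fun i y => hl (Sum.inr (i, y))⟩

open Path.Homotopic.Quotient in
theorem exists_cells {B : SC V} (hB : B.Connected) {b : V} (hb : b ∈ B.verts) :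
    ∃ e : V → V → Pi1 B.real (B.pt hb), B.IsCoc e ∧
      ∀ (Z : SC V) (a c : Fin 2 → V), TwoTri B b a c → IsPlus B Z b a c →
        ∃ C : CellStr B.real Z.real (Fin 2) (B.pt hb),
          ∀ i, cl ((C.p i).trans (C.q i).symm) = e b (a i) * e (a i) (c i) * e (c i) b := by
  classical
  have v1 : ∀ {u v : V}, ({u, v} : Finset V) ∈ B.faces → u ∈ B.verts := fun h =>
    mem_verts_of_mem h (by simp)
  have v2 : ∀ {u v : V}, ({u, v} : Finset V) ∈ B.faces → v ∈ B.verts := fun h =>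
    mem_verts_of_mem h (by simp)
  have hJ : ∀ v (hv : v ∈ B.verts), Joined (B.pt hb) (B.pt hv) := fun v hv => by
    have := hB.2 b hb v hv
    induction this with
    | refl => exact Joined.refl _
    | tail _ h ih => exact (ih (v1 h)).trans ⟨topbEdge h (v1 h) hv⟩
  obtain ⟨L, hL⟩ : ∃ L : ∀ v (hv : v ∈ B.verts), Path.Homotopic.Quotient (B.pt hb) (B.pt hv),
      L b hb = .refl _ :=
    ⟨fun v hv => (mk (hJ b hb).somePath).symm.trans (mk (hJ v hv).somePath), symm_trans _⟩
  obtain ⟨e, he⟩ : ∃ e : V → V → Pi1 B.real (B.pt hb), ∀ u v (h : ({u, v} : Finset V) ∈ B.faces)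
      (hu : u ∈ B.verts) (hv : v ∈ B.verts), e u v = MulOpposite.op (FundamentalGroup.fromPath
        ((L u hu).trans ((mk (topbEdge h hu hv)).trans (L v hv).symm))) :=
    ⟨fun u v => if h : ({u, v} : Finset V) ∈ B.faces then MulOpposite.op (FundamentalGroup.fromPath
      ((L u (v1 h)).trans ((mk (topbEdge h (v1 h) (v2 h))).trans (L v (v2 h)).symm))) else 1,
      fun u v h _ _ => dif_pos h⟩
  have hmul : ∀ P Q : Path.Homotopic.Quotient (B.pt hb) (B.pt hb),
      (MulOpposite.op (FundamentalGroup.fromPath P) : Pi1 B.real (B.pt hb)) *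
        MulOpposite.op (FundamentalGroup.fromPath Q) =
      MulOpposite.op (FundamentalGroup.fromPath (P.trans Q)) := fun _ _ => rfl
  have canc : ∀ {x y z : B.real} (P : Path.Homotopic.Quotient x y)
      (Q : Path.Homotopic.Quotient y z), P.symm.trans (P.trans Q) = Q := fun P Q => by
    rw [← trans_assoc, symm_trans, refl_trans]
  refine ⟨e, fun u v w h => ?_, fun Z a c T hZ => ?_⟩
  · have h1 : ({u, v} : Finset V) ∈ B.faces :=
      B.down _ h _ (by intro x; simp; tauto) (Finset.insert_nonempty _ _)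
    have h2 : ({v, w} : Finset V) ∈ B.faces :=
      B.down _ h _ (by intro x; simp; tauto) (Finset.insert_nonempty _ _)
    have h3 : ({u, w} : Finset V) ∈ B.faces :=
      B.down _ h _ (by intro x; simp; tauto) (Finset.insert_nonempty _ _)
    rw [he u v h1 (v1 h1) (v2 h1), he v w h2 (v2 h1) (v2 h2), he u w h3 (v1 h1) (v2 h2), hmul,
      ← topb_hom h _ _ (topb_trans_mem h1 h2 (v1 h1) (v2 h1) (v2 h2))
        (topbEdge_mem h3 (v1 h1) (v2 h2) (by simp) (by simp)), mk_trans]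
    simp only [trans_assoc, canc]
  · obtain ⟨C, hC⟩ := topb_cells hb T hZ (fun i => v2 (T.e1 i)) fun i => v2 (T.e2 i)
    refine ⟨C, fun i => ?_⟩
    have h4 : ({c i, b} : Finset V) ∈ B.faces := Finset.pair_comm b (c i) ▸ T.e3 i
    rw [hC, he _ _ (T.e1 i) hb (v2 (T.e1 i)), he _ _ (T.e2 i) (v2 (T.e1 i)) (v2 (T.e2 i)),
      he _ _ h4 (v2 (T.e2 i)) hb, hmul, hmul, hL,
      ← topb_hom h4 (topbEdge (T.e3 i) hb (v2 (T.e2 i))).symm _
        (fun t => topbEdge_mem (T.e3 i) hb (v2 (T.e2 i)) (by simp) (by simp) _)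
        (topbEdge_mem h4 (v2 (T.e2 i)) hb (by simp) (by simp)), cl, mk_trans, mk_trans]
    have hr : (Path.Homotopic.Quotient.refl (B.pt hb)).symm = .refl (B.pt hb) := by
      rw [← refl_trans (Path.Homotopic.Quotient.refl (B.pt hb)).symm, trans_symm]
    simp only [trans_assoc, canc, refl_trans, hr, trans_refl]

end MP35
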