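import Pool.Agent.Lib.MP_35c604_gt.Neg
import Pool.Agent.Lib.MP_35c604_gt.Build
import Pool.Agent.Lib.MP_35c604_gt.Data
import Pool.Agent.Lib.MP_35c604_gt.TopB
import Pool.Agent.Lib.MP_35c604_gt.Cross
import Pool.Agent.Lib.MP_35c604_gt.Grp
import Pool.Agent.Lib.MP_35c604_gt.DPlus
import Pool.Agent.Lib.MP_35c604_gt.RingT

namespace MP35

open SC

theorem main : ∃ K L : SC ℕ, K.Connected ∧ K.DimLE 2 ∧ L.Connected ∧ L.DimLE 2 ∧
    Nonempty (ContinuousMap.HomotopyEquiv K.real L.real) ∧ ¬ SimpleEquiv K L ∧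
    K.TypeEmbeds ∧ ¬ L.TypeEmbeds := by
  obtain ⟨B, Kp, Lp, K1, M, ψ, a, c, a', c', hS, hψ, hT, hL, hw, hT', hK, hR, hcol, hsub, hM⟩ :=
    exists_data
  obtain ⟨T, _, _, s, hs, hI, hns⟩ := exists_ring
  obtain ⟨hBc, hBd, hb⟩ := hS.connected
  obtain ⟨k1, k2⟩ := plus_two ⟨hBc, hBd⟩ hT' hK
  obtain ⟨l1, l2⟩ := plus_two ⟨hBc, hBd⟩ hT hL
  have hP : PP (rho (s ^ 4) hs) Lp :=
    PP_of_stage hI.det (by rw [Amat_det]; exact hns) hS hψ hT hL hw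
  have hneg : ¬ Lp.TypeEmbeds := by
    rintro ⟨L', h1, h2, h3⟩
    exact not_embeds hI (fun v a c h => dplus_triv (s ^ 4) (s ^ 2) hs (by rw [← pow_mul]) v a c h)
      ((PP_simple hI.det h1).1 hP) h2 h3
  have hpos : Kp.TypeEmbeds := by
    refine ⟨K1, hcol.simpleEquiv, fun t ht => k2 t (hcol.subset ht), M, id, hM, Set.injOn_id _, ?_⟩
    intro t ht
    obtain ⟨u, hu, rfl⟩ := mem_map.1 ht
    rw [Finset.image_id]
    exact hsub hu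
  refine ⟨Kp, Lp, k1, k2, l1, l2, ?_, ?_, hpos, hneg⟩
  · obtain ⟨e, he, hC⟩ := exists_cells hBc hb
    obtain ⟨θ, hθ⟩ := hS.theta hψ _ e he
    obtain ⟨C, hC1⟩ := hC Kp a' c' hT' hK
    obtain ⟨C', hC2⟩ := hC Lp a c hT hL
    obtain ⟨Bm, hB1, hB2⟩ := Amat_inv
    choose W hW1 hW2 using exists_W
    refine cell_equiv C C' relK relL
      (crossedEq_of qq qq_surj relK relL ker_qq (ker_qq.trans ncl_relL.symm) Amat Bm hB1 hB2 W
        hW1 hW2) θ (fun i => ?_) (fun i => ?_)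
    · rw [hC1, ← hR, hθ _ _ (hT'.e1 i) (hT'.e2 i) (hT'.e3 i)]
    · rw [hC2, ← hw, hθ _ _ (hT.e1 i) (hT.e2 i) (hT.e3 i)]
  · intro h
    obtain ⟨K', h1, h2, h3⟩ := hpos
    exact hneg ⟨K', Relation.EqvGen.trans _ _ _ (Relation.EqvGen.symm _ _ h) h1, h2, h3⟩

end MP35
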