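import Pool.Agent.Lib.MP_35c604_gt.Inv
import Pool.Agent.Lib.MP_35c604_gt.Hat
import Pool.Agent.Lib.MP_35c604_gt.Chi
import Pool.Agent.Lib.MP_35c604_gt.Bdy
import Pool.Agent.Lib.MP_35c604_gt.Fin

/-! A 2-complex with the property `PP` does not embed in a 3-manifold. -/

namespace MP35

open Matrix SC

variable {T : Type} [CommRing T] [Nice T] {ρ : Q →* Matrix (Fin 2) (Fin 2) T}

theorem PP_NC {V : Type} [DecidableEq V] (hρ : ∀ g, (ρ g).det = 1) {M K : SC V} {U : V → Prop}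
    (h : Full M U K) (hK : PP ρ K) : PP ρ (NC M U) := by
  obtain ⟨W, h1, h2⟩ := exists_cyl h
  have a1 : PP ρ (K.map (Sum.inl : V → V ⊕ Option (Finset V))) :=
    (PP_map Sum.inl_injective.injOn).2 hK
  exact (PP_map Sum.inr_injective.injOn).1 ((PP_collapse hρ h2).1 ((PP_collapse hρ h1).2 a1))

omit [Nice T] in
theorem PP.chi_eq {V : Type} [DecidableEq V] {K : SC V} (h : PP ρ K) : K.chi = 1 := by
  obtain ⟨o, h, r, H, -⟩ := h
  exact H.chi_eq

theorem not_embeds (hρ : Iface ρ)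
    (hD : ∀ (v a : ZQ) (c : ℤ), a * v - 1 = c • NN ℤ →
      TrivT (fp (Fin 2) parDp) (flat (lin ρ) (dDp fun j => v * u0 ℤ j)))
    {V : Type} [DecidableEq V] {L : SC V} (hL : PP ρ L) (hd : L.DimLE 2) : ¬ L.Embeds := by
  rintro ⟨M, f, hM, hf, hsub⟩
  set K := (L.map f).map some with hKdef
  have hK : PP ρ K := (PP_map (Option.some_injective V).injOn).2 ((PP_map hf).2 hL)
  have hKd : K.DimLE 2 := (hd.map).map
  have hKs : K.faces ⊆ M.hat.faces := map_some_subset_hat hsub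
  have hv : ∀ v ∈ K.verts, ∃ w ∈ M.verts, v = some w := by
    intro v hv
    obtain ⟨t, ht, h⟩ := mem_map.1 hv
    have : v ∈ t.image some := h ▸ Finset.mem_singleton_self v
    obtain ⟨w, hw, rfl⟩ := Finset.mem_image.1 this
    exact ⟨w, mem_verts_of_mem (hsub ht) hw, rfl⟩
  have hU : ∀ v ∈ K.verts, v ≠ none := by
    intro v h
    obtain ⟨w, -, rfl⟩ := hv v h
    exact Option.some_ne_none w
  have he : ∀ v ∈ K.verts, M.hat.ec {v} = 1 := by
    intro v h
    obtain ⟨w, hw, rfl⟩ := hv v h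
    exact hat_ec hM w hw
  have l0 := hat_loc hM
  have l1 := stageB_loc l0 hKs hU
  have f1 := stageB_full hKs hU
  have fK : Full K (· ≠ none) K := fun s =>
    ⟨fun h => ⟨h, fun v hvs => hU v (mem_verts_of_mem h hvs)⟩, fun h => h.1⟩
  have p1 : PP ρ (NC K (· ≠ none)) := PP_NC hρ.det fK hK
  have p2 := PP_NC hρ.det f1 p1
  have c1 := stageB_chi l0 hKs hU he
  have c2 := stageC_chi l1 f1
  rw [c1, hK.chi_eq, p1.chi_eq] at c2
  have hne : (NC K (· ≠ none)).faces.Nonempty := by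
    rw [Finset.nonempty_iff_ne_empty]
    intro h
    have := p1.chi_eq
    rw [SC.chi, h] at this
    simp at this
  obtain ⟨t, ht, h4, hct⟩ := stageC_tet l1 f1 (stageB_dim hKd) hne
  have hsc : (XC (XC M.hat (· ≠ none)) (Bar K)).SCat {none} := by
    obtain ⟨o, h, r, H, -⟩ := p2
    refine scat_cone none (Bar (NC K (· ≠ none))) (XC_pure l1) (XC_thin l1) (fun w hw => ?_)
      (stageC_int f1) (stageC_HS l1 f1) c2 H
    obtain ⟨σ, -, rfl⟩ := hw
    exact stageC_scat (K := NC K (· ≠ none)) l1 _ (Option.some_ne_none σ)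
  have hX : (XC (XC M.hat (· ≠ none)) (Bar K)).Closed :=
    ⟨XC_pure l1, XC_thin l1, fun v => by
      by_cases h : v = none
      · exact h ▸ hsc
      · exact stageC_scat (K := NC K (· ≠ none)) l1 v h⟩
  exact not_PP_del hρ hD hX ht h4
    ((PP_collapse hρ.det (star_collapse hX.pure hX.thin hsc c2 ht h4 hct)).2 p2)

end MP35
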