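import Pool.Agent.Lib.MP_35c604_gt.PBase

/-! TASK ARR: polyhedra and piecewise linear maps are adapted to large families. -/

namespace MP35.PL

open Set SC

section
variable {E F G : Type} [AddCommGroup E] [Module ℝ E] [AddCommGroup F] [Module ℝ F]
  [AddCommGroup G] [Module ℝ G]

theorem parr_lin {V : Type} (s : Finset V) (q : V → E) {x : V → ℝ} (hx : ∀ v, v ∉ s → x v = 0) :
    lin q x = Fintype.linearCombination ℝ (fun u : s => q u) (fun u : s => x u) := by
  rw [lin_eq_sum q hx, Fintype.linearCombination_apply, ← Finset.sum_coe_sort s]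

/-- Simplicial cones are cut out by finitely many linear functionals. -/
theorem exists_lin_cone [FiniteDimensional ℝ E] {V : Type} (s : Finset V) (q : V → E)
    (h : LinearIndependent ℝ fun u : s => q u) :
    ∃ A : Set (E → ℝ), A.Finite ∧ (∀ a ∈ A, ∃ g : E →ₗ[ℝ] ℝ, a = g) ∧
      Adapt A {y | ∃ x : V → ℝ, (∀ v, 0 ≤ x v) ∧ (∀ v, v ∉ s → x v = 0) ∧ lin q x = y} := by
  classical
  obtain ⟨L, hL⟩ := (Fintype.linearCombination ℝ (fun u : s => q u)).exists_leftInverse_of_injective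
    (LinearMap.ker_eq_bot.2 h.fintypeLinearCombination_injective)
  have hL' : ∀ c, L (Fintype.linearCombination ℝ (fun u : s => q u) c) = c :=
    fun c => LinearMap.congr_fun hL c
  let b := Module.finBasis ℝ E
  let P : E →ₗ[ℝ] E := LinearMap.id - (Fintype.linearCombination ℝ (fun u : s => q u)).comp L
  refine ⟨range (fun u : s => fun y => L y u) ∪ range (fun i => fun y => b.coord i (P y)),
    (finite_range _).union (finite_range _), ?_, ?_⟩
  · rintro _ (⟨u, rfl⟩ | ⟨i, rfl⟩)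
    · exact ⟨(LinearMap.proj u).comp L, rfl⟩
    · exact ⟨(b.coord i).comp P, rfl⟩
  · rintro _ ⟨c, c0, cs, rfl⟩ x hx
    have e1 : L (lin q c) = fun u : s => c u := by rw [parr_lin s q cs, hL']
    have e2 : P (lin q c) = 0 := by
      change lin q c - Fintype.linearCombination ℝ (fun u : s => q u) (L (lin q c)) = 0
      rw [e1, ← parr_lin s q cs, sub_self]
    have h1 : ∀ u : s, 0 ≤ L x u := fun u =>
      hx.nonneg (ψ := fun y => L y u) (Or.inl ⟨u, rfl⟩) (by rw [e1]; exact c0 u)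
    have h2 : P x = 0 := b.forall_coord_eq_zero_iff.1 fun i =>
      hx.zero (ψ := fun y => b.coord i (P y)) (Or.inr ⟨i, rfl⟩) (by rw [e2, map_zero])
    have h3 : ∀ v, v ∉ s → (if k : v ∈ s then L x ⟨v, k⟩ else 0) = 0 := fun v k => dif_neg k
    refine ⟨fun v => if k : v ∈ s then L x ⟨v, k⟩ else 0, fun v => ?_, h3, ?_⟩
    · beta_reduce
      split_ifs with k
      exacts [h1 _, le_rfl]
    · have h4 : (fun u : s => if k : (u : V) ∈ s then L x ⟨u, k⟩ else 0) = L x :=
        funext fun u => dif_pos u.2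
      rw [parr_lin s q h3, h4]
      exact (sub_eq_zero.1 h2).symm

theorem parr_simplex [FiniteDimensional ℝ E] (t : Finset E)
    (ht : AffineIndependent ℝ ((↑) : t → E)) : Ev fun A => Adapt A (convexHull ℝ (t : Set E)) := by
  classical
  have hli : LinearIndependent ℝ fun u : t => (((u : E), (1 : ℝ)) : E × ℝ) := by
    rw [linearIndependent_iff']
    intro r w hw
    refine affineIndependent_iff.1 ht r w ?_ ?_
    · simpa [Prod.snd_sum] using congrArg Prod.snd hw
    · simpa [Prod.fst_sum] using congrArg Prod.fst hw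
  obtain ⟨A, a1, a2, a3⟩ := exists_lin_cone t (fun v : E => ((v, (1 : ℝ)) : E × ℝ)) hli
  refine ⟨(fun a x => a (x, (1 : ℝ))) '' A, ⟨a1.image _, ?_⟩, fun B _ hB y hy x hx => ?_⟩
  · rintro _ ⟨a, k, rfl⟩
    obtain ⟨g, rfl⟩ := a2 a k
    exact ⟨g.toAffineMap.comp ((AffineMap.id ℝ E).prod (AffineMap.const ℝ E (1 : ℝ))), rfl⟩
  · obtain ⟨w, w0, w1, w2⟩ := Finset.mem_convexHull'.1 hy
    have h3 : ∀ v, v ∉ t → (if v ∈ t then w v else 0) = 0 := fun v k => if_neg k
    obtain ⟨c, c0, cs, hc⟩ := a3 (y, 1) ⟨fun v => if v ∈ t then w v else 0, fun v => by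
      beta_reduce
      split_ifs with k
      exacts [w0 v k, le_rfl], h3, by
      rw [lin_eq_sum _ h3, Finset.sum_congr rfl fun v k => by rw [if_pos k]]
      refine Prod.ext ?_ ?_
      · simpa [Prod.fst_sum] using w2
      · simpa [Prod.snd_sum] using w1⟩ (x, 1) fun a k => hx _ (hB ⟨a, k, rfl⟩)
    rw [lin_eq_sum _ cs] at hc
    refine Finset.mem_convexHull'.2 ⟨c, fun v _ => c0 v, ?_, ?_⟩
    · simpa [Prod.snd_sum] using congrArg Prod.snd hc
    · simpa [Prod.fst_sum] using congrArg Prod.fst hc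

theorem ev_hull [FiniteDimensional ℝ E] (s : Finset E) :
    Ev fun A => Adapt A (convexHull ℝ (s : Set E)) := by
  have hI : {t : Finset E | t ⊆ s ∧ AffineIndependent ℝ ((↑) : t → E)}.Finite :=
    s.powerset.finite_toSet.subset fun t k => Finset.mem_coe.2 (Finset.mem_powerset.2 k.1)
  refine (ev_forall hI fun t k => parr_simplex t k.2).mono fun A _ hA y hy x hx => ?_
  rw [convexHull_eq_union] at hy
  simp only [mem_iUnion] at hy
  obtain ⟨t, t1, t2, t3⟩ := hy
  exact convexHull_mono t1 (hA t ⟨Finset.coe_subset.1 t1, t2⟩ y t3 x hx)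

theorem ev_det {X : Set E} {f : E → F} (hf : Ev fun A => AffOn A X f) {A' : Set (F → ℝ)}
    (hA' : Aff A') : Ev fun A => ∀ y ∈ X, ∀ x, Le A x y → Le A' (f x) (f y) := by
  obtain ⟨A0, a1, a2⟩ := hf.exists
  have key : ∀ c ∈ sv A0 '' X,
      Ev fun A => ∀ y, sv A0 y = c → ∀ x, Le A x y → Le A' (f x) (f y) := by
    rintro _ ⟨z, hz, rfl⟩
    obtain ⟨g, hg⟩ := a2 z hz
    refine ⟨A0 ∪ (fun a x => a (g x)) '' A', a1.union ⟨hA'.1.image _, ?_⟩,
      fun B _ hB y hy x hx => ?_⟩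
    · rintro _ ⟨a, k, rfl⟩
      obtain ⟨u, rfl⟩ := hA'.2 a k
      exact ⟨u.comp g, rfl⟩
    · have h1 : Le A0 y z := (sv_eq.1 hy).1
      rw [hg y h1, hg x ((hx.mono (subset_union_left.trans hB)).trans h1)]
      exact fun a k => hx _ (hB (Or.inr ⟨a, k, rfl⟩))
  exact (ev_forall (sv_finite a1.1 X) key).mono fun A _ hA y hy => hA _ ⟨y, hy, rfl⟩ y rfl

theorem ev_comp {X : Set E} {X' : Set F} {f : E → F} {g : F → G} (hf : Ev fun A => AffOn A X f)
    (hg : Ev fun A => AffOn A X' g) (h : MapsTo f X X') : Ev fun A => AffOn A X (g ∘ f) := by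
  obtain ⟨A', a1, a2⟩ := hg.exists
  refine (hf.and (ev_det hf a1)).mono fun A _ hA y hy => ?_
  obtain ⟨u, hu⟩ := hA.1 y hy
  obtain ⟨v, hv⟩ := a2 (f y) (h hy)
  refine ⟨v.comp u, fun x hx => ?_⟩
  rw [Function.comp_apply, hv _ (hA.2 y hy x hx), hu x hx, AffineMap.comp_apply]

end

variable {m n : ℕ}

theorem mem_cover {S : Finset (Finset (Fin n → ℝ))} {x : Fin n → ℝ} :
    x ∈ cover S ↔ ∃ s ∈ S, x ∈ convexHull ℝ (s : Set (Fin n → ℝ)) := by
  simp [cover]

theorem ev_cover (S : Finset (Finset (Fin n → ℝ))) : Ev fun A => Adapt A (cover S) := by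
  refine (ev_forall S.finite_toSet fun s _ => ev_hull s).mono fun A _ hA y hy x hx => ?_
  obtain ⟨s, s1, s2⟩ := mem_cover.1 hy
  exact mem_cover.2 ⟨s, s1, hA s s1 y s2 x hx⟩

theorem PLEmb.ev_adapt {f : (Fin m → ℝ) → Fin n → ℝ} {X : Set (Fin m → ℝ)} (h : PLEmb f X) :
    Ev fun A => Adapt A X := by
  obtain ⟨-, S, rfl, -⟩ := h
  exact ev_cover S

theorem PLEmb.ev_affOn {f : (Fin m → ℝ) → Fin n → ℝ} {X : Set (Fin m → ℝ)} (h : PLEmb f X) :
    Ev fun A => AffOn A X f := by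
  obtain ⟨-, S, rfl, hS⟩ := h
  refine (ev_forall S.finite_toSet fun s _ => ev_hull s).mono fun A _ hA y hy => ?_
  obtain ⟨s, s1, s2⟩ := mem_cover.1 hy
  obtain ⟨g, hg⟩ := hS s s1
  exact ⟨g, fun x hx => hg (hA s s1 y s2 x hx)⟩

theorem isCompact_cover (S : Finset (Finset (Fin n → ℝ))) : IsCompact (cover S) :=
  S.isCompact_biUnion fun s _ => s.finite_toSet.isCompact_convexHull ℝ

theorem PLEmb.continuousOn {f : (Fin m → ℝ) → Fin n → ℝ} {X : Set (Fin m → ℝ)} (h : PLEmb f X) :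
    ContinuousOn f X := by
  obtain ⟨-, S, rfl, hS⟩ := h
  have e : cover S = ⋃ s : S, convexHull ℝ ((s : Finset (Fin m → ℝ)) : Set (Fin m → ℝ)) := by
    ext x
    simp [mem_cover]
  rw [e]
  refine (locallyFinite_of_finite _).continuousOn_iUnion
    (fun s => (s.1.finite_toSet.isCompact_convexHull ℝ).isClosed) fun s => ?_
  obtain ⟨g, hg⟩ := hS s s.2
  exact g.continuous_of_finiteDimensional.continuousOn.congr hg

theorem plEmb_id (S : Finset (Finset (Fin n → ℝ))) : PLEmb id (cover S) :=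
  ⟨injOn_id _, S, rfl, fun _ _ => ⟨AffineMap.id ℝ _, fun _ _ => rfl⟩⟩

end MP35.PL
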