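import Mathlib

/-!
Compact polyhedra in Euclidean spaces, piecewise linear embeddings, elementary collapses, simple
homotopy equivalence and piecewise linear 3-manifolds with boundary.
-/

namespace MP35.PL

open Set Topology

variable {m n : ℕ}

/-- The union of the convex hulls of the finite sets in `S`. -/
def cover (S : Finset (Finset (Fin n → ℝ))) : Set (Fin n → ℝ) :=
  ⋃ s ∈ S, convexHull ℝ (s : Set (Fin n → ℝ))

/-- `f` is a piecewise linear embedding of `X`: it is injective on `X`, and `X` is a finite union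
of convex hulls of finite sets on each of which `f` is affine. -/
def PLEmb (f : (Fin m → ℝ) → Fin n → ℝ) (X : Set (Fin m → ℝ)) : Prop :=
  InjOn f X ∧ ∃ S, X = cover S ∧ ∀ s ∈ S, ∃ g : (Fin m → ℝ) →ᵃ[ℝ] (Fin n → ℝ),
    EqOn f g (convexHull ℝ (s : Set (Fin m → ℝ)))

/-- Elementary collapse of `X` to `Y`: `X = Y ∪ B` for a piecewise linear ball `B = h(Δ)`, and
`Y ∩ B` is a face of the ball, the image of the union of a nonempty proper set `J` of facets of
the simplex `Δ`. -/
def Elem (X Y : Set (Fin n → ℝ)) : Prop :=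
  ∃ (k : ℕ) (J : Finset (Fin k)) (h : (Fin k → ℝ) → Fin n → ℝ), J.Nonempty ∧ J ≠ Finset.univ ∧
    PLEmb h (stdSimplex ℝ (Fin k)) ∧ X = Y ∪ h '' stdSimplex ℝ (Fin k) ∧
    Y ∩ h '' stdSimplex ℝ (Fin k) = h '' {x ∈ stdSimplex ℝ (Fin k) | ∃ i ∈ J, x i = 0}

/-- The closed half space in `ℝ³`. -/
def H3 : Set (Fin 3 → ℝ) := {y | 0 ≤ y 0}

/-- Every point of `M` has a neighbourhood in `M` which is piecewise linearly homeomorphic to a
neighbourhood of the image point in the half space. -/
def IsMfd (M : Set (Fin n → ℝ)) : Prop :=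
  ∀ x ∈ M, ∃ N ⊆ M, N ∈ 𝓝[M] x ∧ ∃ φ : (Fin n → ℝ) → Fin 3 → ℝ,
    PLEmb φ N ∧ φ '' N ⊆ H3 ∧ φ '' N ∈ 𝓝[H3] (φ x)

/-- A compact polyhedron in some `ℝⁿ`. -/
structure Poly where
  n : ℕ
  set : Set (Fin n → ℝ)
  fin : ∃ S, set = cover S

namespace Poly

/-- A 2-complex: a connected compact polyhedron of dimension at most two. -/
def Is2 (X : Poly) : Prop :=
  IsConnected X.set ∧ ∃ S, X.set = cover S ∧ ∀ s ∈ S, s.card ≤ 3

/-- `Y` is piecewise linearly homeomorphic to `X` or to an elementary collapse of `X`. -/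
def Move (X Y : Poly) : Prop :=
  ∃ Z f, (Z = X.set ∨ Elem X.set Z) ∧ PLEmb f Z ∧ f '' Z = Y.set

/-- Simple homotopy equivalence: finite sequences of elementary collapses, elementary expansions
and piecewise linear homeomorphisms, through compact polyhedra of any dimension. -/
def SimpleEq : Poly → Poly → Prop := Relation.EqvGen Move

/-- `X` has a piecewise linear embedding into a compact piecewise linear 3-manifold. -/
def Embeds (X : Poly) : Prop :=
  ∃ M : Poly, IsMfd M.set ∧ ∃ f, PLEmb f X.set ∧ f '' X.set ⊆ M.set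

/-- The simple homotopy type of `X` contains a 2-complex which embeds in a 3-manifold. -/
def TypeEmbeds (X : Poly) : Prop := ∃ Y : Poly, SimpleEq X Y ∧ Y.Is2 ∧ Y.Embeds

end Poly

end MP35.PL
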