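import Pool.Agent.Lib.MP_35c604_gt.Match
import Pool.Agent.Lib.MP_35c604_gt.PDefs

/-! Auxiliary definitions for the piecewise linear version (everything here is proved). -/

namespace MP35.PL

open Set SC

/-- An invariant of simple homotopy type of finite complexes on arbitrary vertex types. -/
structure Invt where
  P : ∀ {V : Type}, SC V → Prop
  map : ∀ {V W : Type} [DecidableEq W] {f : V → W} {K : SC V}, InjOn f K.verts →
    (P (K.map f) ↔ P K)
  exp : ∀ {V : Type} [DecidableEq V] {K K' : SC V}, Expand K K' → (P K ↔ P K')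

/-- `K` and `L` have the same simple homotopy invariants. -/
def SE {V W : Type} (K : SC V) (L : SC W) : Prop := ∀ J : Invt, J.P K ↔ J.P L

section
variable {V W U : Type} {K K' : SC V} {L : SC W} {N : SC U}

theorem SE.refl (K : SC V) : SE K K := fun _ => Iff.rfl

theorem SE.symm (h : SE K L) : SE L K := fun J => (h J).symm

theorem SE.trans (h : SE K L) (h' : SE L N) : SE K N := fun J => (h J).trans (h' J)

theorem SE.of_eq (h : K = K') : SE K K' := h ▸ SE.refl K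

theorem SE.map [DecidableEq W] {f : V → W} (hf : InjOn f K.verts) : SE (K.map f) K :=
  fun J => J.map hf

theorem SE.of_collapse [DecidableEq V] (h : Collapse K' K) : SE K' K := by
  induction h with
  | refl => exact SE.refl _
  | tail _ h2 ih => exact ih.trans fun J => (J.exp h2).symm

end

open Classical in
/-- The order complex of a finite subset of a poset. -/
noncomputable def oc {P : Type} [PartialOrder P] (S : Set P) : SC P where
  faces := if h : S.Finite then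
    h.toFinset.powerset.filter fun θ => θ.Nonempty ∧ IsChain (· ≤ ·) (θ : Set P) else ∅
  ne := fun s hs => by
    split_ifs at hs
    · exact (Finset.mem_filter.1 hs).2.1
    · simp at hs
  down := fun s hs t hts ht => by
    split_ifs at hs ⊢
    · obtain ⟨h1, -, h2⟩ := Finset.mem_filter.1 hs
      exact Finset.mem_filter.2 ⟨Finset.mem_powerset.2 (hts.trans (Finset.mem_powerset.1 h1)), ht,
        h2.mono (Finset.coe_subset.2 hts)⟩
    · simp at hs

theorem mem_oc {P : Type} [PartialOrder P] {S : Set P} (hS : S.Finite) {θ : Finset P} :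
    θ ∈ (oc S).faces ↔ θ.Nonempty ∧ (θ : Set P) ⊆ S ∧ IsChain (· ≤ ·) (θ : Set P) := by
  unfold oc
  simp only [dif_pos hS, Finset.mem_filter, Finset.mem_powerset, ← Finset.coe_subset,
    Finite.coe_toFinset]
  tauto

theorem oc_verts {P : Type} [PartialOrder P] {S : Set P} (hS : S.Finite) : (oc S).verts = S := by
  ext v
  rw [mem_verts, mem_oc hS]
  simp

theorem oc_mono {P : Type} [PartialOrder P] {S T : Set P} (hT : T.Finite) (h : S ⊆ T) :
    (oc S).faces ⊆ (oc T).faces := fun θ hθ => by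
  rw [mem_oc (hT.subset h)] at hθ
  exact (mem_oc hT).2 ⟨hθ.1, hθ.2.1.trans h, hθ.2.2⟩

section
variable {α : Type}

/-- The sign vector of `x` is below the sign vector of `y`. -/
def Le (Ψ : Set (α → ℝ)) (x y : α) : Prop :=
  ∀ ψ ∈ Ψ, (0 < ψ x → 0 < ψ y) ∧ (ψ x < 0 → ψ y < 0)

/-- The type of sign vectors. -/
abbrev Lab (α : Type) : Type := Set (α → ℝ) × Set (α → ℝ)

/-- The sign vector of `x`. -/
def sv (Ψ : Set (α → ℝ)) (x : α) : Lab α := ({ψ ∈ Ψ | 0 < ψ x}, {ψ ∈ Ψ | ψ x < 0})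

theorem sv_le {Ψ : Set (α → ℝ)} {x y : α} : sv Ψ x ≤ sv Ψ y ↔ Le Ψ x y :=
  ⟨fun h ψ hψ => ⟨fun k => (h.1 ⟨hψ, k⟩).2, fun k => (h.2 ⟨hψ, k⟩).2⟩,
    fun h => ⟨fun ψ k => ⟨k.1, (h ψ k.1).1 k.2⟩, fun ψ k => ⟨k.1, (h ψ k.1).2 k.2⟩⟩⟩

theorem sv_eq {Ψ : Set (α → ℝ)} {x y : α} : sv Ψ x = sv Ψ y ↔ Le Ψ x y ∧ Le Ψ y x := by
  rw [le_antisymm_iff, sv_le, sv_le]

theorem sv_finite {Ψ : Set (α → ℝ)} (h : Ψ.Finite) (X : Set α) : (sv Ψ '' X).Finite := by
  refine ((h.finite_subsets).prod h.finite_subsets).subset ?_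
  rintro _ ⟨x, -, rfl⟩
  exact ⟨fun _ k => k.1, fun _ k => k.1⟩

theorem Le.refl (Ψ : Set (α → ℝ)) (x : α) : Le Ψ x x := fun _ _ => ⟨id, id⟩

theorem Le.trans {Ψ : Set (α → ℝ)} {x y z : α} (h : Le Ψ x y) (h' : Le Ψ y z) : Le Ψ x z :=
  fun ψ k => ⟨fun a => (h' ψ k).1 ((h ψ k).1 a), fun a => (h' ψ k).2 ((h ψ k).2 a)⟩

theorem Le.mono {Ψ Ψ' : Set (α → ℝ)} {x y : α} (h : Le Ψ' x y) (s : Ψ ⊆ Ψ') : Le Ψ x y :=
  fun ψ k => h ψ (s k)

theorem Le.zero {Ψ : Set (α → ℝ)} {x y : α} (h : Le Ψ x y) {ψ : α → ℝ} (k : ψ ∈ Ψ)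
    (e : ψ y = 0) : ψ x = 0 :=
  le_antisymm (not_lt.1 fun a => ((h ψ k).1 a).ne' e) (not_lt.1 fun a => ((h ψ k).2 a).ne e)

theorem Le.nonneg {Ψ : Set (α → ℝ)} {x y : α} (h : Le Ψ x y) {ψ : α → ℝ} (k : ψ ∈ Ψ)
    (e : 0 ≤ ψ y) : 0 ≤ ψ x := not_lt.1 fun a => not_lt.2 e ((h ψ k).2 a)

/-- If every function of `Ψ` interpolates at `z` between `x` and `y`, with positive weight at `y`,
then `z` has the sign vector of `y`. -/
theorem Le.seg {Ψ : Set (α → ℝ)} {x y z : α} (h : Le Ψ x y) {t : ℝ} (h0 : 0 < t) (h1 : t ≤ 1)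
    (hz : ∀ ψ ∈ Ψ, ψ z = (1 - t) * ψ x + t * ψ y) : Le Ψ z y ∧ Le Ψ y z := by
  have a : 0 ≤ 1 - t := sub_nonneg.2 h1
  refine ⟨fun ψ k => ?_, fun ψ k => ?_⟩
  · rw [hz ψ k]
    refine ⟨fun b => not_le.1 fun c => ?_, fun b => not_le.1 fun c => ?_⟩
    · have : ψ x ≤ 0 := not_lt.1 fun d => not_lt.2 c ((h ψ k).1 d)
      nlinarith [mul_nonneg a (neg_nonneg.2 this), mul_nonneg h0.le (neg_nonneg.2 c)]
    · have := h.nonneg k c
      nlinarith [mul_nonneg a this, mul_nonneg h0.le c]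
  · rw [hz ψ k]
    refine ⟨fun b => ?_, fun b => ?_⟩
    · have := h.nonneg k b.le
      nlinarith [mul_nonneg a this, mul_pos h0 b]
    · have : ψ x ≤ 0 := not_lt.1 fun d => not_lt.2 b.le ((h ψ k).1 d)
      nlinarith [mul_nonneg a (neg_nonneg.2 this), mul_pos h0 (neg_pos.2 b)]

/-- The order complex of the sign vectors of the points of `X`. -/
noncomputable def D (X : Set α) (Ψ : Set (α → ℝ)) : SC (Lab α) := oc (sv Ψ '' X)

/-- `X` is a union of closed cells. -/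
def Adapt (A : Set (α → ℝ)) (X : Set α) : Prop := ∀ y ∈ X, ∀ x, Le A x y → x ∈ X

theorem Adapt.mono {A A' : Set (α → ℝ)} {X : Set α} (h : Adapt A X) (s : A ⊆ A') : Adapt A' X :=
  fun y hy x k => h y hy x (k.mono s)

end

section
variable {E F : Type} [AddCommGroup E] [Module ℝ E] [AddCommGroup F] [Module ℝ F]

/-- A finite family of affine functions. -/
def Aff (A : Set (E → ℝ)) : Prop := A.Finite ∧ ∀ a ∈ A, ∃ g : E →ᵃ[ℝ] ℝ, a = g

/-- `f` is affine on every closed cell of a point of `X`. -/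
def AffOn (A : Set (E → ℝ)) (X : Set E) (f : E → F) : Prop :=
  ∀ y ∈ X, ∃ g : E →ᵃ[ℝ] F, ∀ x, Le A x y → f x = g x

/-- `P` holds for all sufficiently large finite families of affine functions. -/
def Ev (P : Set (E → ℝ) → Prop) : Prop := ∃ A0, Aff A0 ∧ ∀ A, Aff A → A0 ⊆ A → P A

theorem AffOn.mono {A A' : Set (E → ℝ)} {X : Set E} {f : E → F} (h : AffOn A X f) (s : A ⊆ A') :
    AffOn A' X f := fun y hy => (h y hy).imp fun _ hg x k => hg x (k.mono s)

theorem Aff.union {A A' : Set (E → ℝ)} (h : Aff A) (h' : Aff A') : Aff (A ∪ A') :=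
  ⟨h.1.union h'.1, fun a k => k.elim (h.2 a) (h'.2 a)⟩

theorem aff_empty : Aff (∅ : Set (E → ℝ)) := ⟨finite_empty, fun _ k => k.elim⟩

theorem aff_map_seg (g : E →ᵃ[ℝ] F) (x y : E) (t : ℝ) :
    g ((1 - t) • x + t • y) = (1 - t) • g x + t • g y := by
  rw [← AffineMap.lineMap_apply_module, AffineMap.apply_lineMap, AffineMap.lineMap_apply_module]

theorem Aff.seg {A : Set (E → ℝ)} (h : Aff A) (x y : E) (t : ℝ) :
    ∀ a ∈ A, a ((1 - t) • x + t • y) = (1 - t) * a x + t * a y := fun a k => by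
  obtain ⟨g, rfl⟩ := h.2 a k
  exact aff_map_seg g x y t

theorem Aff.le_seg {A : Set (E → ℝ)} (h : Aff A) {x y : E} (k : Le A x y) {t : ℝ} (h0 : 0 < t)
    (h1 : t ≤ 1) : Le A ((1 - t) • x + t • y) y ∧ Le A y ((1 - t) • x + t • y) :=
  k.seg h0 h1 (h.seg x y t)

/-- Closed cells are convex. -/
theorem Aff.convex {A : Set (E → ℝ)} (h : Aff A) (y : E) : Convex ℝ {x | Le A x y} := by
  intro x hx z hz a b ha hb hab ψ k
  have e : ψ (a • x + b • z) = a * ψ x + b * ψ z := by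
    rw [show a = 1 - b by linarith]; exact h.seg x z b ψ k
  rw [e]
  refine ⟨fun c => not_le.1 fun d => ?_, fun c => not_le.1 fun d => ?_⟩
  · have h1 : ψ x ≤ 0 := not_lt.1 fun u => not_lt.2 d ((hx ψ k).1 u)
    have h2 : ψ z ≤ 0 := not_lt.1 fun u => not_lt.2 d ((hz ψ k).1 u)
    nlinarith [mul_nonneg ha (neg_nonneg.2 h1), mul_nonneg hb (neg_nonneg.2 h2)]
  · nlinarith [mul_nonneg ha (Le.nonneg hx k d), mul_nonneg hb (Le.nonneg hz k d)]

theorem Ev.mono {P Q : Set (E → ℝ) → Prop} (h : Ev P) (k : ∀ A, Aff A → P A → Q A) : Ev Q :=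
  h.imp fun _ a => ⟨a.1, fun A b c => k A b (a.2 A b c)⟩

theorem Ev.and {P Q : Set (E → ℝ) → Prop} (h : Ev P) (k : Ev Q) : Ev fun A => P A ∧ Q A := by
  obtain ⟨A, a1, a2⟩ := h
  obtain ⟨B, b1, b2⟩ := k
  exact ⟨A ∪ B, a1.union b1, fun C c1 c2 =>
    ⟨a2 C c1 (subset_union_left.trans c2), b2 C c1 (subset_union_right.trans c2)⟩⟩

theorem Ev.exists {P : Set (E → ℝ) → Prop} (h : Ev P) : ∃ A, Aff A ∧ P A :=
  h.imp fun A a => ⟨a.1, a.2 A a.1 Subset.rfl⟩

theorem ev_ge {A0 : Set (E → ℝ)} (h : Aff A0) : Ev fun A => A0 ⊆ A := ⟨A0, h, fun _ _ k => k⟩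

theorem ev_of_forall {P : Set (E → ℝ) → Prop} (h : ∀ A, Aff A → P A) : Ev P :=
  ⟨∅, aff_empty, fun A k _ => h A k⟩

theorem ev_forall {ι : Type} {I : Set ι} (hI : I.Finite) {P : ι → Set (E → ℝ) → Prop}
    (h : ∀ i ∈ I, Ev (P i)) : Ev fun A => ∀ i ∈ I, P i A := by
  induction I, hI using Set.Finite.induction_on with
  | empty => exact ev_of_forall fun _ _ _ k => k.elim
  | @insert a s _ _ ih =>
    refine ((h a (mem_insert _ _)).and (ih fun i k => h i (mem_insert_of_mem _ k))).mono ?_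
    rintro A - ⟨h1, h2⟩ i (rfl | k)
    exacts [h1, h2 i k]

variable {V : Type}

/-- The linear extension of a map of the vertices. -/
noncomputable def lin (p : V → E) (x : V → ℝ) : E := ∑ᶠ v, x v • p v

theorem lin_eq_sum (p : V → E) {x : V → ℝ} {s : Finset V} (hs : ∀ v, v ∉ s → x v = 0) :
    lin p x = ∑ v ∈ s, x v • p v :=
  finsum_eq_sum_of_support_subset _ fun v hv => by
    by_contra k
    exact hv (by simp [hs v k])

/-- `p` realises the complex `K` as the set `X`. -/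
def Real (K : SC V) (p : V → E) (X : Set E) : Prop := BijOn (lin p) K.real X

/-- The cone over the polyhedron of `K`. -/
def cone (K : SC V) : Set (V → ℝ) :=
  {x | (∀ v, 0 ≤ x v) ∧ ∃ s, (s = ∅ ∨ s ∈ K.faces) ∧ ∀ v, v ∉ s → x v = 0}

/-- The half space (if `bd` holds) or the whole space. -/
def HS (n : ℕ) (bd : Prop) : Set (Fin (n + 1) → ℝ) := {y | bd → 0 ≤ y 0}

/-- A simplicial fan with support the whole space or a half space. -/
def Fan {n : ℕ} (L : SC V) (q : V → Fin (n + 1) → ℝ) (bd : Prop) : Prop :=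
  BijOn (lin q) (cone L) (HS n bd)

/-- `L` is the boundary complex of a simplicial convex polytope with vertices `q` which has the
origin in its interior. -/
def Cvx [DecidableEq V] (L : SC V) (q : V → Fin 3 → ℝ) : Prop :=
  (∃ t ∈ L.faces, t.card = 3) ∧ (∀ s ∈ L.faces, ∃ t ∈ L.faces, s ⊆ t ∧ t.card = 3) ∧
  ∀ t ∈ L.faces, t.card = 3 → LinearIndependent ℝ (fun u : t => q u) ∧
    (∃ φ : (Fin 3 → ℝ) →ₗ[ℝ] ℝ, (∀ u ∈ t, φ (q u) = 1) ∧ ∀ u ∈ L.verts, u ∉ t → φ (q u) < 1) ∧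
    ∀ a ∈ t, ∃ t' ∈ L.faces, t'.card = 3 ∧ t.erase a ⊆ t' ∧ a ∉ t'

/-- The standard positions of the vertices `0, …, n-1`. -/
def ee (n : ℕ) (v : ℕ) : Fin n → ℝ := fun i => if i.val = v then 1 else 0

end

end MP35.PL
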