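import Pool.Agent.Lib.MP_35c604_gt.PArr

/-! TASK REALA: basic facts on geometric realisations. -/

namespace MP35.PL

open Set SC

section
variable {V E : Type} [AddCommGroup E] [Module ℝ E] {K K' : SC V} {p : V → E} {X : Set E}

theorem mem_hull_iff (p : V → E) (s : Finset V) (y : E) :
    y ∈ convexHull ℝ (p '' (s : Set V)) ↔ ∃ x : V → ℝ, (∀ v, 0 ≤ x v) ∧ (∀ v, v ∉ s → x v = 0) ∧
      ∑ v ∈ s, x v = 1 ∧ lin p x = y := by
  classical
  constructor
  · intro hy
    refine convexHull_min (t := {y | ∃ x : V → ℝ, (∀ v, 0 ≤ x v) ∧ (∀ v, v ∉ s → x v = 0) ∧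
      ∑ v ∈ s, x v = 1 ∧ lin p x = y}) ?_ ?_ hy
    · rintro _ ⟨v, hv, rfl⟩
      have hv' : v ∈ s := hv
      have h0 : ∀ w, w ∉ s → (fun w => if w = v then (1 : ℝ) else 0) w = 0 := fun w hw =>
        if_neg fun e : w = v => hw (e ▸ hv')
      refine ⟨fun w => if w = v then 1 else 0, fun w => ?_, h0, by simp [hv'], ?_⟩
      · dsimp only
        split_ifs
        exacts [zero_le_one, le_rfl]
      · rw [lin_eq_sum p h0]
        simp [hv']
    · rintro _ ⟨x, x0, xs, x1, rfl⟩ _ ⟨z, z0, zs, z1, rfl⟩ a b ha hb hab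
      have h0 : ∀ w, w ∉ s → (fun w => a * x w + b * z w) w = 0 := fun w hw => by
        simp [xs w hw, zs w hw]
      refine ⟨fun w => a * x w + b * z w,
        fun w => add_nonneg (mul_nonneg ha (x0 w)) (mul_nonneg hb (z0 w)), h0, ?_, ?_⟩
      · rw [Finset.sum_add_distrib, ← Finset.mul_sum, ← Finset.mul_sum, x1, z1]
        simpa using hab
      · rw [lin_eq_sum p h0, lin_eq_sum p xs, lin_eq_sum p zs, Finset.smul_sum, Finset.smul_sum,
          ← Finset.sum_add_distrib]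
        exact Finset.sum_congr rfl fun w _ => by rw [add_smul, mul_smul, mul_smul]
  · rintro ⟨x, x0, xs, x1, rfl⟩
    rw [lin_eq_sum p xs]
    exact (convex_convexHull ℝ _).sum_mem (fun v _ => x0 v) x1 fun v hv =>
      subset_convexHull ℝ _ ⟨v, hv, rfl⟩

theorem Real.mem_iff (h : Real K p X) (y : E) :
    y ∈ X ↔ ∃ s ∈ K.faces, y ∈ convexHull ℝ (p '' (s : Set V)) := by
  constructor
  · intro hy
    obtain ⟨x, ⟨x0, s, hs, xs, x1⟩, rfl⟩ := h.surjOn hy
    exact ⟨s, hs, (mem_hull_iff p s _).2 ⟨x, x0, xs, x1, rfl⟩⟩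
  · rintro ⟨s, hs, hy⟩
    obtain ⟨x, x0, xs, x1, rfl⟩ := (mem_hull_iff p s _).1 hy
    exact h.mapsTo ⟨x0, s, hs, xs, x1⟩

theorem preala_zero (h : Real K p X) {s : Finset V} (hs : s ∈ K.faces) (W : V → ℝ)
    (h1 : ∑ v ∈ s, W v = 0) (h2 : ∑ v ∈ s, W v • p v = 0) : ∀ v ∈ s, W v = 0 := by
  classical
  set M : ℝ := ∑ v ∈ s, |W v| + 1 with hM
  have hs0 : 0 ≤ ∑ v ∈ s, |W v| := Finset.sum_nonneg fun v _ => abs_nonneg _
  have M0 : 0 < M := by linarith
  have hW : ∀ v ∈ s, 0 ≤ M + W v := fun v hv => by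
    have := Finset.single_le_sum (f := fun v => |W v|) (fun v _ => abs_nonneg _) hv
    have := neg_abs_le (W v)
    linarith
  have c0 : (0 : ℝ) < s.card := Nat.cast_pos.2 (K.ne s hs).card_pos
  set d : ℝ := (M * s.card)⁻¹ with hd
  have d0 : 0 < d := inv_pos.2 (mul_pos M0 c0)
  have hdM : d * (s.card * M) = 1 := by
    rw [hd, mul_comm (s.card : ℝ) M]
    exact inv_mul_cancel₀ (mul_pos M0 c0).ne'
  have a0 : ∀ v, v ∉ s → (fun v => if v ∈ s then d * (M + W v) else 0) v = 0 :=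
    fun v hv => if_neg hv
  have b0 : ∀ v, v ∉ s → (fun v => if v ∈ s then d * M else 0) v = 0 := fun v hv => if_neg hv
  have ha : (fun v => if v ∈ s then d * (M + W v) else 0) ∈ K.real := by
    refine ⟨fun v => ?_, s, hs, a0, ?_⟩
    · dsimp only
      split_ifs with hv
      exacts [mul_nonneg d0.le (hW v hv), le_rfl]
    · rw [Finset.sum_congr rfl fun v hv => if_pos hv, ← Finset.mul_sum, Finset.sum_add_distrib, h1,
        Finset.sum_const, nsmul_eq_mul, add_zero, hdM]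
  have hb : (fun v => if v ∈ s then d * M else 0) ∈ K.real := by
    refine ⟨fun v => ?_, s, hs, b0, ?_⟩
    · dsimp only
      split_ifs with hv
      exacts [mul_nonneg d0.le M0.le, le_rfl]
    · rw [Finset.sum_congr rfl fun v hv => if_pos hv, ← Finset.mul_sum,
        Finset.sum_const, nsmul_eq_mul, hdM]
  have e := h.injOn ha hb (by
    rw [lin_eq_sum p a0, lin_eq_sum p b0]
    have e1 : ∑ v ∈ s, (if v ∈ s then d * (M + W v) else 0) • p v =
        ∑ v ∈ s, ((d * M) • p v + d • (W v • p v)) :=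
      Finset.sum_congr rfl fun v hv => by rw [if_pos hv, mul_add, add_smul, mul_smul d (W v)]
    have e2 : ∑ v ∈ s, (if v ∈ s then d * M else 0) • p v = ∑ v ∈ s, (d * M) • p v :=
      Finset.sum_congr rfl fun v hv => by rw [if_pos hv]
    rw [e1, e2, Finset.sum_add_distrib, ← Finset.smul_sum (r := d), h2, smul_zero, add_zero])
  intro v hv
  have e' := congrFun e v
  simp only [if_pos hv] at e'
  have := mul_left_cancel₀ d0.ne' e'
  linarith

theorem Real.affInd (h : Real K p X) {s : Finset V} (hs : s ∈ K.faces) :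
    AffineIndependent ℝ fun v : s => p v := by
  classical
  rw [affineIndependent_iff_of_fintype]
  intro w h1 h2 i
  rw [Finset.weightedVSub_eq_linear_combination _ h1] at h2
  have key := preala_zero h hs (fun v => if hv : v ∈ s then w ⟨v, hv⟩ else 0) ?_ ?_ i i.2
  · simpa using key
  · rw [← Finset.sum_coe_sort s, ← h1]
    exact Finset.sum_congr rfl fun j _ => by simp
  · rw [← Finset.sum_coe_sort s, ← h2]
    exact Finset.sum_congr rfl fun j _ => by simp

theorem Real.sub (h : Real K p X) (hK : K'.faces ⊆ K.faces) : Real K' p (lin p '' K'.real) := by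
  have e : K'.real ⊆ K.real := fun _ ⟨x0, s, hs, r⟩ => ⟨x0, s, hK hs, r⟩
  exact (h.injOn.mono e).bijOn_image

end

variable {V : Type} {n : ℕ} {K : SC V} {p : V → Fin n → ℝ} {X : Set (Fin n → ℝ)}

theorem Real.cover (h : Real K p X) : ∃ S, X = cover S ∧
    ∀ s ∈ S, ∃ t ∈ K.faces, (s : Set (Fin n → ℝ)) = p '' (t : Set V) ∧ s.card ≤ t.card := by
  classical
  refine ⟨K.faces.image fun t => t.image p, ?_, fun s hs => ?_⟩
  · ext y
    rw [h.mem_iff, mem_cover]
    constructor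
    · rintro ⟨t, ht, hy⟩
      exact ⟨t.image p, Finset.mem_image_of_mem _ ht, by rwa [Finset.coe_image]⟩
    · rintro ⟨s, hs, hy⟩
      obtain ⟨t, ht, rfl⟩ := Finset.mem_image.1 hs
      exact ⟨t, ht, by rwa [Finset.coe_image] at hy⟩
  · obtain ⟨t, ht, rfl⟩ := Finset.mem_image.1 hs
    exact ⟨t, ht, Finset.coe_image, Finset.card_image_le⟩

theorem preala_compact (s : Finset V) :
    IsCompact {x : V → ℝ | (∀ v, 0 ≤ x v) ∧ (∀ v, v ∉ s → x v = 0) ∧ ∑ v ∈ s, x v = 1} := by
  refine (isCompact_univ_pi fun _ : V => isCompact_Icc (a := (0 : ℝ)) (b := 1)).of_isClosed_subset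
    ?_ fun x hx v _ => ⟨hx.1 v, ?_⟩
  · have e : {x : V → ℝ | (∀ v, 0 ≤ x v) ∧ (∀ v, v ∉ s → x v = 0) ∧ ∑ v ∈ s, x v = 1} =
        (⋂ v, {x : V → ℝ | 0 ≤ x v}) ∩ ((⋂ v, ⋂ _ : v ∉ s, {x : V → ℝ | x v = 0}) ∩
        {x | ∑ v ∈ s, x v = 1}) := by
      ext x; simp
    rw [e]
    refine (isClosed_iInter fun v => isClosed_le continuous_const (continuous_apply v)).inter
      ((isClosed_iInter fun v => isClosed_iInter fun _ =>
        isClosed_eq (continuous_apply v) continuous_const).inter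
        (isClosed_eq (by fun_prop) continuous_const))
  · by_cases h : v ∈ s
    · rw [← hx.2.2]
      exact Finset.single_le_sum (fun w _ => hx.1 w) h
    · rw [hx.2.1 v h]; exact zero_le_one

theorem preala_compactSpace (B : SC V) : CompactSpace B.real := by
  have e : B.real = ⋃ s ∈ B.faces,
      {x : V → ℝ | (∀ v, 0 ≤ x v) ∧ (∀ v, v ∉ s → x v = 0) ∧ ∑ v ∈ s, x v = 1} := by
    ext x
    simp only [Set.mem_iUnion]
    exact ⟨fun ⟨h, s, hs, h'⟩ => ⟨s, hs, h, h'⟩, fun ⟨s, hs, h, h'⟩ => ⟨h, s, hs, h'⟩⟩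
  rw [← isCompact_iff_compactSpace, e]
  exact B.faces.isCompact_biUnion fun s _ => preala_compact s

theorem Real.homeo (h : Real K p X) : Nonempty (K.real ≃ₜ X) := by
  classical
  have := preala_compactSpace K
  have hc : Continuous fun x : K.real => lin p x.1 := by
    have e : (fun x : K.real => lin p x.1) =
        fun x : K.real => ∑ v ∈ K.faces.biUnion id, x.1 v • p v := by
      funext x
      obtain ⟨x, x0, s, hs, xs, x1⟩ := x
      exact lin_eq_sum p fun v hv => xs v fun k => hv (Finset.mem_biUnion.2 ⟨s, hs, k⟩)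
    rw [e]
    exact continuous_finsetSum _ fun v _ =>
      ((continuous_apply v).comp continuous_subtype_val).smul continuous_const
  exact ⟨Continuous.homeoOfEquivCompactToT2 (f := BijOn.equiv (lin p) h) (hc.subtype_mk _)⟩

theorem preala_join (h : Real K p X) {s : Finset V} (hs : s ∈ K.faces) {v : V} (hv : v ∈ s)
    {y : Fin n → ℝ} (hy : y ∈ convexHull ℝ (p '' (s : Set V))) : JoinedIn X (p v) y :=
  (((convex_convexHull ℝ _).isPathConnected ⟨y, hy⟩).joinedIn _
    (subset_convexHull ℝ _ ⟨v, hv, rfl⟩) _ hy).mono fun z hz => (h.mem_iff z).2 ⟨s, hs, hz⟩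

theorem Real.conn [DecidableEq V] (h : Real K p X) (hK : K.Connected) : IsConnected X := by
  obtain ⟨s0, hs0⟩ := hK.1
  obtain ⟨v0, hv0⟩ := K.ne s0 hs0
  have j0 : JoinedIn X (p v0) (p v0) :=
    preala_join h hs0 hv0 (subset_convexHull ℝ _ ⟨v0, hv0, rfl⟩)
  have hJ : ∀ v, Relation.ReflTransGen (fun a b => {a, b} ∈ K.faces) v0 v →
      JoinedIn X (p v0) (p v) := fun v hv => by
    induction hv with
    | refl => exact j0
    | @tail a b _ k ih =>
      exact ih.trans (preala_join h k (by simp) (subset_convexHull ℝ _ ⟨b, by simp, rfl⟩))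
  refine IsPathConnected.isConnected ⟨p v0, j0.source_mem, fun y hy => ?_⟩
  obtain ⟨s, hs, hy⟩ := (h.mem_iff y).1 hy
  obtain ⟨v, hv⟩ := K.ne s hs
  exact (hJ v (hK.2 v0 (mem_verts_of_mem hs0 hv0) v (mem_verts_of_mem hs hv))).trans
    (preala_join h hs hv hy)

theorem real_ee {K : SC ℕ} (h : ∀ v ∈ K.verts, v < n) : Real K (ee n) (lin (ee n) '' K.real) := by
  have z : ∀ x ∈ K.real, ∀ v, v ∉ Finset.range n → x v = 0 := by
    rintro x ⟨-, s, hs, xs, -⟩ v hv
    exact xs v fun k => hv (Finset.mem_range.2 (h v (mem_verts_of_mem hs k)))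
  have e : ∀ x ∈ K.real, ∀ i : Fin n, lin (ee n) x i = x i.val := fun x hx i => by
    rw [lin_eq_sum _ (z x hx), Finset.sum_apply]
    simp [ee]
  refine InjOn.bijOn_image fun x hx y hy k => funext fun v => ?_
  by_cases hv : v < n
  · have := congrFun k ⟨v, hv⟩
    rwa [e x hx, e y hy] at this
  · rw [z x hx v (by simpa using hv), z y hy v (by simpa using hv)]

theorem ee_lin (r : ℕ → Fin 3 → ℝ) :
    ∃ G : (Fin n → ℝ) →ₗ[ℝ] (Fin 3 → ℝ), ∀ u < n, G (ee n u) = r u := by
  refine ⟨Fintype.linearCombination ℝ fun i : Fin n => r i, fun u hu => ?_⟩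
  rw [Fintype.linearCombination_apply, Finset.sum_eq_single ⟨u, hu⟩]
  · simp [ee]
  · intro i _ hi
    have : i.val ≠ u := fun k => hi (Fin.ext k)
    simp [ee, this]
  · simp

end MP35.PL
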