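import Pool.Agent.Lib.MP_35c604_gt.PBase

/-! TASK TRI: the derived subdivision of the cell structure triangulates the polyhedron. -/

namespace MP35.PL

open Set SC

theorem exists_bary {α : Type} [Nonempty α] (A : Set (α → ℝ)) (X : Set α) :
    ∃ b : Lab α → α, ∀ y ∈ X, b (sv A y) ∈ X ∧ sv A (b (sv A y)) = sv A y := by
  classical
  refine ⟨fun c => if h : ∃ y ∈ X, sv A y = c then h.choose else Classical.arbitrary α,
    fun y hy => ?_⟩
  have h : ∃ z ∈ X, sv A z = sv A y := ⟨y, hy, rfl⟩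
  simp only [dif_pos h]
  exact h.choose_spec

section
variable {V E : Type} [AddCommGroup E] [Module ℝ E]

theorem ptri_le_one {K : SC V} {ξ : V → ℝ} (h : ξ ∈ K.real) (c : V) : ξ c ≤ 1 := by
  obtain ⟨h0, s, -, h1, h2⟩ := h
  by_cases k : c ∈ s
  · exact h2 ▸ Finset.single_le_sum (fun v _ => h0 v) k
  · rw [h1 c k]
    exact zero_le_one

theorem ptri_eq_one {K : SC V} {ξ : V → ℝ} (h : ξ ∈ K.real) {c v : V} (e : ξ c = 1) (hv : v ≠ c) :
    ξ v = 0 := by
  classical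
  obtain ⟨h0, s, -, h1, h2⟩ := h
  have hc : c ∈ s := by
    by_contra k
    rw [h1 c k] at e
    exact zero_ne_one e
  by_cases k : v ∈ s
  · have h3 : ∑ u ∈ s.erase c, ξ u = 0 := by
      have := Finset.add_sum_erase s ξ hc
      linarith
    exact (Finset.sum_eq_zero_iff_of_nonneg fun u _ => h0 u).1 h3 v (Finset.mem_erase.2 ⟨hv, k⟩)
  · exact h1 v k

theorem ptri_lin [DecidableEq V] (p : V → E) {η : V → ℝ} {s : Finset V} (h : ∀ v, v ∉ s → η v = 0)
    {c : V} (hc : c ∈ s) (t : ℝ) :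
    lin p (fun v => (1 - t) * η v + if v = c then t else 0) = (1 - t) • lin p η + t • p c := by
  rw [lin_eq_sum p h, lin_eq_sum p (s := s) fun v hv => by
    rw [h v hv, if_neg fun e : v = c => hv (e ▸ hc), mul_zero, add_zero]]
  simp only [add_smul, Finset.sum_add_distrib, mul_smul, ← Finset.smul_sum, ite_smul, zero_smul,
    Finset.sum_ite_eq', if_pos hc]

theorem ptri_peel [DecidableEq V] {K : SC V} (p : V → E) {ξ : V → ℝ} (h : ξ ∈ K.real) {c : V}
    (hc : 0 < ξ c) {t : ℝ} (h1 : t ≤ ξ c) (h2 : t < 1) : ∃ η ∈ K.real,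
      (∀ v, ξ v = (1 - t) * η v + if v = c then t else 0) ∧
      lin p ξ = (1 - t) • lin p η + t • p c := by
  obtain ⟨h0, s, hs, h3, h4⟩ := h
  have hcs : c ∈ s := by
    by_contra k
    exact hc.ne' (h3 c k)
  have h5 : 0 < 1 - t := sub_pos.2 h2
  have h6 : ∀ v, v ∉ s → (ξ v - if v = c then t else 0) / (1 - t) = 0 := fun v hv => by
    rw [h3 v hv, if_neg fun e : v = c => hv (e ▸ hcs), sub_zero, zero_div]
  have h7 : ∀ v, ξ v = (1 - t) * ((ξ v - if v = c then t else 0) / (1 - t)) +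
      if v = c then t else 0 := fun v => by
    rw [mul_div_cancel₀ _ h5.ne', sub_add_cancel]
  refine ⟨fun v => (ξ v - if v = c then t else 0) / (1 - t),
    ⟨fun v => div_nonneg ?_ h5.le, s, hs, h6, ?_⟩, h7, ?_⟩
  · split_ifs with e
    · rw [e]
      exact sub_nonneg.2 h1
    · rw [sub_zero]
      exact h0 v
  · rw [← Finset.sum_div, Finset.sum_sub_distrib, h4, Finset.sum_ite_eq', if_pos hcs,
      div_self h5.ne']
  · rw [← ptri_lin p h6 hcs t]
    exact congrArg (lin p) (funext h7)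

theorem ptri_join [DecidableEq V] [PartialOrder V] {S : Set V} (hS : S.Finite) (p : V → E)
    {η : V → ℝ} (h : η ∈ (oc S).real) {c : V} (hc : c ∈ S) (hle : ∀ v, η v ≠ 0 → v ≤ c) {t : ℝ}
    (h0 : 0 ≤ t) (h1 : t ≤ 1) : ∃ ξ ∈ (oc S).real, lin p ξ = (1 - t) • lin p η + t • p c := by
  classical
  obtain ⟨h2, s, hs, h3, h4⟩ := h
  obtain ⟨-, h5, h6⟩ := (mem_oc hS).1 hs
  have h7 : ∀ v, v ∉ insert c (s.filter (· ≤ c)) → η v = 0 := fun v hv => by
    by_contra k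
    exact hv (Finset.mem_insert_of_mem (Finset.mem_filter.2 ⟨not_not.1 (mt (h3 v) k), hle v k⟩))
  have h8 : ∑ v ∈ insert c (s.filter (· ≤ c)), η v = 1 := by
    have e1 := lin_eq_sum (fun _ => (1 : ℝ)) h7
    rw [lin_eq_sum _ h3] at e1
    simp only [smul_eq_mul, mul_one] at e1
    rw [← e1, h4]
  refine ⟨fun v => (1 - t) * η v + if v = c then t else 0,
    ⟨fun v => add_nonneg (mul_nonneg (sub_nonneg.2 h1) (h2 v)) (by split_ifs; exacts [h0, le_rfl]),
      insert c (s.filter (· ≤ c)), (mem_oc hS).2 ⟨Finset.insert_nonempty _ _, ?_, ?_⟩,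
      fun v hv => ?_, ?_⟩, ptri_lin p h7 (Finset.mem_insert_self _ _) t⟩
  · rw [Finset.coe_insert]
    exact insert_subset hc fun v hv => h5 (Finset.mem_filter.1 hv).1
  · rw [Finset.coe_insert]
    exact (h6.mono fun v hv => (Finset.mem_filter.1 hv).1).insert fun v hv _ =>
      Or.inr (Finset.mem_filter.1 hv).2
  · beta_reduce
    rw [h7 v hv, if_neg fun e : v = c => hv (e ▸ Finset.mem_insert_self _ _), mul_zero, add_zero]
  · rw [Finset.sum_add_distrib, ← Finset.mul_sum, h8, Finset.sum_ite_eq',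
      if_pos (Finset.mem_insert_self _ _)]
    ring

variable {X : Set E} {A : Set (E → ℝ)} {b : Lab E → E}

theorem ptri_cell (hA : Aff A) (hb : ∀ y ∈ X, b (sv A y) ∈ X ∧ sv A (b (sv A y)) = sv A y)
    {ξ : Lab E → ℝ} (h : ξ ∈ (D X A).real) {y : E} (hle : ∀ v, ξ v ≠ 0 → v ≤ sv A y) :
    Le A (lin b ξ) y := by
  classical
  obtain ⟨h2, s, hs, h3, h4⟩ := h
  obtain ⟨-, h5, -⟩ := (mem_oc (sv_finite hA.1 X)).1 hs
  have h7 : ∀ v, v ∉ s.filter (· ≤ sv A y) → ξ v = 0 := fun v hv => by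
    by_contra k
    exact hv (Finset.mem_filter.2 ⟨not_not.1 (mt (h3 v) k), hle v k⟩)
  have h8 : ∑ v ∈ s.filter (· ≤ sv A y), ξ v = 1 := by
    have e1 := lin_eq_sum (fun _ => (1 : ℝ)) h7
    rw [lin_eq_sum _ h3] at e1
    simp only [smul_eq_mul, mul_one] at e1
    rw [← e1, h4]
  rw [lin_eq_sum b h7]
  refine (hA.convex y).sum_mem (fun v _ => h2 v) h8 fun v hv => ?_
  obtain ⟨k1, k2⟩ := Finset.mem_filter.1 hv
  obtain ⟨z, hz, rfl⟩ := h5 k1
  exact sv_le.1 ((hb z hz).2.trans_le k2)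

theorem ptri_top (hA : Aff A) (hX : Adapt A X)
    (hb : ∀ y ∈ X, b (sv A y) ∈ X ∧ sv A (b (sv A y)) = sv A y)
    {ξ : Lab E → ℝ} (h : ξ ∈ (D X A).real) : lin b ξ ∈ X ∧ 0 < ξ (sv A (lin b ξ)) ∧
      ∀ v, ξ v ≠ 0 → v ≤ sv A (lin b ξ) := by
  classical
  have h' := h
  obtain ⟨h2, s, hs, h3, h4⟩ := h'
  obtain ⟨-, h5, h6⟩ := (mem_oc (sv_finite hA.1 X)).1 hs
  have hne : (s.filter (ξ · ≠ 0)).Nonempty := by
    obtain ⟨v, hv, k⟩ := Finset.exists_ne_zero_of_sum_ne_zero (h4.trans_ne one_ne_zero)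
    exact ⟨v, Finset.mem_filter.2 ⟨hv, k⟩⟩
  obtain ⟨c, hc⟩ := Finset.exists_maximal hne
  obtain ⟨k1, k2⟩ := Finset.mem_filter.1 hc.1
  have hle : ∀ v, ξ v ≠ 0 → v ≤ c := fun v k => by
    have hv : v ∈ s := not_not.1 (mt (h3 v) k)
    rcases h6.total hv k1 with e | e
    · exact e
    · exact hc.2 (Finset.mem_filter.2 ⟨hv, k⟩) e
  have hp : 0 < ξ c := (h2 c).lt_of_ne' k2
  obtain ⟨y, hy, rfl⟩ := h5 k1
  obtain ⟨η, hη, e1, e2⟩ := ptri_peel b h hp (half_le_self hp.le)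
    (by linarith [ptri_le_one h (sv A y)])
  have h7 : Le A (lin b η) (b (sv A y)) := ptri_cell hA hb hη fun v k => by
    rw [(hb y hy).2]
    by_cases e : v = sv A y
    · exact e.le
    · refine hle v ?_
      rw [e1 v, if_neg e, add_zero]
      exact mul_ne_zero (by linarith [ptri_le_one h (sv A y)]) k
  have h8 := hA.le_seg h7 (half_pos hp) (by linarith [ptri_le_one h (sv A y)])
  rw [← e2] at h8
  have h9 : sv A (lin b ξ) = sv A y := (sv_eq.2 h8).trans (hb y hy).2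
  rw [h9]
  exact ⟨hX _ (hb y hy).1 _ h8.1, hp, hle⟩

theorem ptri_ind (hA : Aff A) {Q : E → Prop}
    (h : ∀ y ∈ X, (∀ z ∈ X, sv A z < sv A y → Q z) → Q y) : ∀ y ∈ X, Q y := by
  intro y hy
  induction k : {c ∈ sv A '' X | c < sv A y}.ncard using Nat.strong_induction_on
    generalizing y with
  | _ m ih =>
  refine h y hy fun z hz e => ih _ (k ▸ ?_) z hz rfl
  refine ncard_lt_ncard ⟨fun c hc => ⟨hc.1, hc.2.trans e⟩, fun s => ?_⟩
    ((sv_finite hA.1 X).subset fun _ hc => hc.1)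
  exact (s ⟨⟨z, hz, rfl⟩, e⟩).2.false

theorem ptri_inj (hA : Aff A) (hX : Adapt A X)
    (hb : ∀ y ∈ X, b (sv A y) ∈ X ∧ sv A (b (sv A y)) = sv A y) : ∀ y ∈ X,
    ∀ ξ ∈ (D X A).real, ∀ ξ' ∈ (D X A).real, lin b ξ = y → lin b ξ' = y → ξ = ξ' := by
  classical
  refine ptri_ind hA fun y hy ih ξ h ξ' h' e e' => ?_
  wlog hle : ξ (sv A y) ≤ ξ' (sv A y) generalizing ξ ξ'
  · exact (this ξ' h' ξ h e' e (le_of_not_ge hle)).symm
  obtain ⟨-, h1, h2⟩ := ptri_top hA hX hb h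
  rw [e] at h1 h2
  rcases (ptri_le_one h (sv A y)).eq_or_lt with k | k
  · have k' : ξ' (sv A y) = 1 := (ptri_le_one h' _).antisymm (k ▸ hle)
    funext v
    by_cases hv : v = sv A y
    · rw [hv, k, k']
    · rw [ptri_eq_one h k hv, ptri_eq_one h' k' hv]
  obtain ⟨η, hη, e1, e2⟩ := ptri_peel b h h1 le_rfl k
  obtain ⟨η', hη', e1', e2'⟩ := ptri_peel b h' (h1.trans_le hle) hle k
  have h3 : 1 - ξ (sv A y) ≠ 0 := (sub_pos.2 k).ne'
  have h4 : lin b η' = lin b η :=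
    smul_right_injective E h3 (add_right_cancel (e2'.symm.trans (e'.trans (e.symm.trans e2))))
  obtain ⟨h5, h6, -⟩ := ptri_top hA hX hb hη
  have h7 : sv A (lin b η) ≠ sv A y := fun q => by
    have := e1 (sv A y)
    rw [if_pos rfl, right_eq_add] at this
    rw [q] at h6
    exact mul_ne_zero h3 h6.ne' this
  have h8 : sv A (lin b η) ≤ sv A y := h2 _ (by
    rw [e1, if_neg h7, add_zero]
    exact mul_ne_zero h3 h6.ne')
  have h9 := ih _ h5 (h8.lt_of_ne h7) η hη η' hη' rfl h4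
  funext v
  rw [e1 v, e1' v, h9]

end

theorem ptri_exit {n : ℕ} {X : Set (Fin n → ℝ)} (hc : IsCompact X) {A : Set ((Fin n → ℝ) → ℝ)}
    (hA : Aff A) (hX : Adapt A X) {y β : Fin n → ℝ} (hy : y ∈ X) (h : Le A β y) (hne : y ≠ β) :
    ∃ τ : ℝ, 1 < τ ∧ Le A ((1 - τ) • β + τ • y) y ∧ ¬ Le A y ((1 - τ) • β + τ • y) := by
  have hcont : ∀ a : (Fin n → ℝ) → ℝ, Continuous fun t : ℝ => (1 - t) * a β + t * a y :=
    fun a => by fun_prop
  have hT : {t : ℝ | Le A ((1 - t) • β + t • y) y} = ⋂ a ∈ A, {t : ℝ |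
      (0 < (1 - t) * a β + t * a y → 0 < a y) ∧ ((1 - t) * a β + t * a y < 0 → a y < 0)} := by
    ext t
    simp only [Le, mem_ofPred_eq, mem_iInter]
    exact forall₂_congr fun a ha => by rw [hA.seg β y t a ha]
  have h1 : IsClosed {t : ℝ | Le A ((1 - t) • β + t • y) y} := by
    rw [hT]
    exact isClosed_biInter fun a _ =>
      (isClosed_imp (isOpen_lt continuous_const (hcont a)) isClosed_const).and
        (isClosed_imp (isOpen_lt (hcont a) continuous_const) isClosed_const)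
  have h2 : BddAbove {t : ℝ | Le A ((1 - t) • β + t • y) y} := by
    obtain ⟨R, hR⟩ := hc.isBounded.subset_closedBall β
    refine ⟨R / ‖y - β‖, fun t ht => (le_div_iff₀ (norm_pos_iff.2 (sub_ne_zero.2 hne))).2 ?_⟩
    have h3 := mem_closedBall_iff_norm.1 (hR (hX y hy _ ht))
    rw [show (1 - t) • β + t • y - β = t • (y - β) by module, norm_smul] at h3
    exact (mul_le_mul_of_nonneg_right (le_abs_self t) (norm_nonneg _)).trans h3
  have h3 : (1 : ℝ) ∈ {t : ℝ | Le A ((1 - t) • β + t • y) y} := by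
    simpa using Le.refl A y
  have h4 := h1.csSup_mem ⟨1, h3⟩ h2
  have h5 := fun t ht => le_csSup h2 (a := t) ht
  generalize sSup {t : ℝ | Le A ((1 - t) • β + t • y) y} = τ at h4 h5
  have h6 : ¬ Le A y ((1 - τ) • β + τ • y) := fun k => by
    have h7 : {t : ℝ | Le A ((1 - t) • β + t • y) y} ∈ nhds τ := by
      rw [hT]
      refine (Filter.biInter_mem hA.1).2 fun a ha => ?_
      have h8 := k a ha
      rw [hA.seg β y τ a ha] at h8
      rcases lt_trichotomy (a y) 0 with e | e | e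
      · filter_upwards [(isOpen_lt (hcont a) continuous_const).mem_nhds (h8.2 e)] with t ht
        exact ⟨fun q => (lt_asymm q ht).elim, fun _ => e⟩
      · refine Filter.univ_mem' fun t => ?_
        simp [e, h.zero ha e]
      · filter_upwards [(isOpen_lt continuous_const (hcont a)).mem_nhds (h8.1 e)] with t ht
        exact ⟨fun _ => e, fun q => (lt_asymm q ht).elim⟩
    obtain ⟨t, h8, h9⟩ :=
      Filter.Eventually.exists_gt (p := fun t : ℝ => Le A ((1 - t) • β + t • y) y) h7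
    exact not_le.2 h8 (h5 t h9)
  refine ⟨τ, (h5 1 h3).lt_of_ne fun e => h6 ?_, h4, h6⟩
  simpa [← e] using Le.refl A y

theorem tri_real {n : ℕ} {X : Set (Fin n → ℝ)} (hc : IsCompact X) {A : Set ((Fin n → ℝ) → ℝ)}
    (hA : Aff A) (hX : Adapt A X) {b : Lab (Fin n → ℝ) → Fin n → ℝ}
    (hb : ∀ y ∈ X, b (sv A y) ∈ X ∧ sv A (b (sv A y)) = sv A y) : Real (D X A) b X := by
  classical
  refine ⟨fun ξ h => (ptri_top hA hX hb h).1, fun ξ h ξ' h' e =>
    ptri_inj hA hX hb _ (ptri_top hA hX hb h').1 ξ h ξ' h' e rfl, ?_⟩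
  refine ptri_ind hA (Q := fun y => y ∈ lin b '' (D X A).real) fun y hy ih => ?_
  have hS := sv_finite hA.1 X
  by_cases e : y = b (sv A y)
  · have h1 : ∀ v, v ∉ ({sv A y} : Finset _) → (if v = sv A y then (1 : ℝ) else 0) = 0 :=
      fun v hv => if_neg fun k => hv (Finset.mem_singleton.2 k)
    refine ⟨fun v => if v = sv A y then 1 else 0, ⟨fun v => by positivity, {sv A y},
      (mem_oc hS).2 ⟨Finset.singleton_nonempty _, ?_, ?_⟩, h1, by simp⟩, ?_⟩
    · simpa using ⟨y, hy, rfl⟩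
    · simp
    · rw [lin_eq_sum b h1, Finset.sum_singleton, if_pos rfl, one_smul, ← e]
  obtain ⟨τ, h1, h2, h3⟩ := ptri_exit hc hA hX hy (sv_eq.1 (hb y hy).2).1 e
  have h4 := (sv_le.2 h2).lt_of_not_ge (mt sv_le.1 h3)
  obtain ⟨η, hη, e1⟩ := ih _ (hX y hy _ h2) h4
  have h5 : 0 < τ := one_pos.trans h1
  obtain ⟨ξ, hξ, e2⟩ := ptri_join hS b hη ⟨y, hy, rfl⟩
    (fun v k => ((ptri_top hA hX hb hη).2.2 v k).trans (e1 ▸ h4.le)) (t := 1 - τ⁻¹)
    (sub_nonneg.2 (inv_le_one_of_one_le₀ h1.le)) (sub_le_self _ (inv_pos.2 h5).le)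
  refine ⟨ξ, hξ, ?_⟩
  rw [e2, e1, sub_sub_cancel, smul_add, smul_smul, smul_smul, inv_mul_cancel₀ h5.ne', one_smul,
    add_right_comm, ← add_smul, mul_sub, inv_mul_cancel₀ h5.ne', mul_one, sub_add_sub_cancel',
    sub_self, zero_smul, zero_add]

end MP35.PL
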