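import Pool.Agent.Lib.MP_35c604_gt.PFanC
import Pool.Agent.Lib.MP_35c604_gt.PTri
import Pool.Agent.Lib.MP_35c604_gt.PRealA

/-! TASK CHART: fine triangulations of a piecewise linear manifold are combinatorial manifolds. -/

namespace MP35.PL

open Set SC Topology Filter

section
variable {V E F : Type} [AddCommGroup E] [Module ℝ E] [AddCommGroup F] [Module ℝ F]

theorem pchart_aff_sum (g : E →ᵃ[ℝ] F) (s : Finset V) (w : V → ℝ) (p : V → E)
    (hw : ∑ u ∈ s, w u = 1) : g (∑ u ∈ s, w u • p u) = ∑ u ∈ s, w u • g (p u) := by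
  rw [← Finset.affineCombination_eq_linear_combination _ _ _ hw,
    Finset.map_affineCombination _ _ _ hw, Finset.affineCombination_eq_linear_combination _ _ _ hw]
  rfl

theorem pchart_lin_smul (q : V → E) {v : V} (hq : q v = 0) {ξ η : V → ℝ} {s : Finset V}
    (hs : ∀ u, u ∉ s → ξ u = 0) {ε : ℝ} (h : ∀ u, u ≠ v → η u = ε * ξ u) :
    lin q η = ε • lin q ξ := by
  have h1 : lin q η = lin q (ε • ξ) := by
    refine finsum_congr fun u => ?_
    by_cases hu : u = v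
    · rw [hu, hq, smul_zero, smul_zero]
    · rw [h u hu]; rfl
  rw [h1, lin_eq_sum q hs, lin_eq_sum q (s := s) fun u hu => by simp [hs u hu], Finset.smul_sum]
  exact Finset.sum_congr rfl fun u _ => by simp [mul_smul]

theorem pchart_key {p : V → E} {φ : E → F} {τ : Finset V} (v : V) {g : E →ᵃ[ℝ] F}
    (hg : EqOn φ g (convexHull ℝ (p '' (τ : Set V)))) {η : V → ℝ} (h0 : ∀ u, 0 ≤ η u)
    (h1 : ∀ u, u ∉ τ → η u = 0) (h2 : ∑ u ∈ τ, η u = 1) :
    φ (lin p η) = φ (p v) + lin (fun u => φ (p u) - φ (p v)) η := by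
  rw [hg ((mem_hull_iff p τ _).2 ⟨η, h0, h1, h2, rfl⟩), lin_eq_sum p h1, lin_eq_sum _ h1,
    pchart_aff_sum g τ η p h2]
  simp only [smul_sub, Finset.sum_sub_distrib, ← Finset.sum_smul, h2, one_smul, add_sub_cancel]
  exact Finset.sum_congr rfl fun u hu => by
    rw [hg (subset_convexHull ℝ _ (mem_image_of_mem p hu))]

theorem pchart_scale [DecidableEq V] {T : SC V} {v : V} (hv : v ∈ T.verts) {ξ : V → ℝ}
    (hξ : ξ ∈ cone (T.link v)) : ξ v = 0 ∧ ∃ s : Finset V, (∀ u, u ∉ s → ξ u = 0) ∧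
      ∃ δ : ℝ, 0 < δ ∧ ∀ ε, 0 < ε → ε ≤ δ → ∃ τ ∈ T.faces, v ∈ τ ∧ ∃ η : V → ℝ, (∀ u, 0 ≤ η u) ∧
        (∀ u, u ∉ τ → η u = 0) ∧ ∑ u ∈ τ, η u = 1 ∧ ∀ u, u ≠ v → η u = ε * ξ u := by
  obtain ⟨h0, s, hs, h1⟩ := hξ
  have h2 : v ∉ s ∧ insert v s ∈ T.faces := by
    rcases hs with rfl | hs
    · exact ⟨Finset.notMem_empty v, hv⟩
    · exact (mem_link.1 hs).2
  have h3 : 0 ≤ ∑ u ∈ s, ξ u := Finset.sum_nonneg fun u _ => h0 u
  refine ⟨h1 v h2.1, s, h1, 1 / (∑ u ∈ s, ξ u + 1), by positivity, fun ε e0 e1 =>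
    ⟨insert v s, h2.2, Finset.mem_insert_self v s,
      Function.update (ε • ξ) v (1 - ε * ∑ u ∈ s, ξ u), fun u => ?_, fun u hu => ?_, ?_,
      fun u hu => ?_⟩⟩
  · by_cases hu : u = v
    · rw [hu, Function.update_self]
      rw [le_div_iff₀ (by positivity)] at e1
      nlinarith
    · rw [Function.update_of_ne hu]
      exact mul_nonneg e0.le (h0 u)
  · rw [Finset.mem_insert, not_or] at hu
    rw [Function.update_of_ne hu.1]
    simp [h1 u hu.2]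
  · rw [Finset.sum_insert h2.1, Function.update_self,
      Finset.sum_congr rfl fun u hu => Function.update_of_ne (ne_of_mem_of_not_mem hu h2.1) _ _]
    simp [Finset.mul_sum]
  · rw [Function.update_of_ne hu]; rfl

theorem pchart_notMem [DecidableEq V] {T : SC V} {p : V → E} {M : Set E} (hT : Real T p M) {v : V}
    (hv : v ∈ T.verts) {s : Finset V} (hs : s ∈ T.faces) (hvs : v ∉ s) :
    p v ∉ convexHull ℝ (p '' (s : Set V)) := by
  intro h
  obtain ⟨η, h0, h1, h2, h3⟩ := (mem_hull_iff p s _).1 h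
  have a1 : ∀ u, u ∉ ({v} : Finset V) → (Pi.single v 1 : V → ℝ) u = 0 := fun u hu =>
    Pi.single_eq_of_ne (by simpa using hu) _
  have a2 : (Pi.single v 1 : V → ℝ) ∈ T.real :=
    ⟨fun u => by by_cases hu : u = v <;> simp [hu], {v}, hv, a1, by simp⟩
  have a3 : lin p (Pi.single v 1) = p v := by rw [lin_eq_sum p a1]; simp
  have a4 := congrFun (hT.injOn ⟨h0, s, hs, h1, h2⟩ a2 (h3.trans a3.symm)) v
  simp [h1 v hvs] at a4

end

theorem pchart_ray {a y : Fin (2 + 1) → ℝ} (ha : a ∈ H3) (hy : a 0 = 0 → 0 ≤ y 0) :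
    Tendsto (fun ε : ℝ => a + ε • y) (𝓝[>] 0) (𝓝[H3] a) := by
  have h1 : Tendsto (fun ε : ℝ => a + ε • y) (𝓝[>] 0) (𝓝 a) := by
    have : Continuous fun ε : ℝ => a + ε • y := by fun_prop
    simpa using (this.tendsto 0).mono_left (nhdsWithin_le_nhds (s := Ioi 0))
  refine tendsto_nhdsWithin_iff.2 ⟨h1, ?_⟩
  have ha' : 0 ≤ a 0 := ha
  rcases ha'.eq_or_lt with h | h
  · filter_upwards [self_mem_nhdsWithin] with ε hε
    change 0 ≤ a 0 + ε * y 0
    exact add_nonneg ha' (mul_nonneg (le_of_lt hε) (hy h.symm))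
  · have h2 : {z : Fin (2 + 1) → ℝ | 0 < z 0} ∈ 𝓝 a :=
      (isOpen_lt continuous_const (continuous_apply 0)).mem_nhds h
    filter_upwards [h1.eventually h2] with ε hε
    exact le_of_lt hε

variable {n : ℕ}

theorem fan_of_chart {V : Type} [DecidableEq V] {T : SC V} {p : V → Fin n → ℝ}
    {M N : Set (Fin n → ℝ)} (hT : Real T p M) {v : V} (hv : v ∈ T.verts)
    {φ : (Fin n → ℝ) → Fin (2 + 1) → ℝ} (hN : IsCompact N) (hc : ContinuousOn φ N)
    (hi : InjOn φ N) (hNM : N ⊆ M) (hH : φ '' N ⊆ H3) (h2 : φ '' N ∈ 𝓝[H3] (φ (p v)))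
    (h3 : ∀ s ∈ T.faces, v ∈ s → convexHull ℝ (p '' (s : Set V)) ⊆ N ∧
      ∃ g : (Fin n → ℝ) →ᵃ[ℝ] (Fin (2 + 1) → ℝ), EqOn φ g (convexHull ℝ (p '' (s : Set V)))) :
    Fan (T.link v) (fun u => φ (p u) - φ (p v)) (φ (p v) 0 = 0) := by
  set q : V → Fin (2 + 1) → ℝ := fun u => φ (p u) - φ (p v) with hq
  have hqv : q v = 0 := sub_self _
  have key : ∀ τ ∈ T.faces, v ∈ τ → ∀ η : V → ℝ, (∀ u, 0 ≤ η u) → (∀ u, u ∉ τ → η u = 0) →
      ∑ u ∈ τ, η u = 1 → lin p η ∈ N ∧ φ (lin p η) = φ (p v) + lin q η := by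
    intro τ hτ hvτ η h0 h1 h2
    obtain ⟨k, g, hg⟩ := h3 τ hτ hvτ
    exact ⟨k ((mem_hull_iff p τ _).2 ⟨η, h0, h1, h2, rfl⟩), pchart_key v hg h0 h1 h2⟩
  have hvN : p v ∈ N :=
    (h3 {v} hv (Finset.mem_singleton_self v)).1 (subset_convexHull ℝ _ ⟨v, by simp, rfl⟩)
  refine ⟨fun ξ hξ hb => ?_, fun ξ hξ ξ' hξ' he => ?_, fun y hy => ?_⟩
  · obtain ⟨-, s, hs, δ, hδ, k⟩ := pchart_scale hv hξ
    obtain ⟨τ, hτ, hvτ, η, e0, e1, e2, e3⟩ := k δ hδ le_rfl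
    obtain ⟨k1, k2⟩ := key τ hτ hvτ η e0 e1 e2
    have k3 : 0 ≤ φ (lin p η) 0 := hH (mem_image_of_mem φ k1)
    rw [k2, pchart_lin_smul q hqv hs e3, Pi.add_apply, hb, zero_add, Pi.smul_apply,
      smul_eq_mul] at k3
    exact nonneg_of_mul_nonneg_right k3 hδ
  · obtain ⟨z, s, hs, δ, hδ, k⟩ := pchart_scale hv hξ
    obtain ⟨z', s', hs', δ', hδ', k'⟩ := pchart_scale hv hξ'
    have hε : 0 < min δ δ' := lt_min hδ hδ'
    obtain ⟨τ, hτ, hvτ, η, e0, e1, e2, e3⟩ := k _ hε (min_le_left _ _)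
    obtain ⟨τ', hτ', hvτ', η', e0', e1', e2', e3'⟩ := k' _ hε (min_le_right _ _)
    obtain ⟨k1, k2⟩ := key τ hτ hvτ η e0 e1 e2
    obtain ⟨k1', k2'⟩ := key τ' hτ' hvτ' η' e0' e1' e2'
    rw [pchart_lin_smul q hqv hs e3, he, ← pchart_lin_smul q hqv hs' e3', ← k2'] at k2
    have k4 := hT.injOn ⟨e0, τ, hτ, e1, e2⟩ ⟨e0', τ', hτ', e1', e2'⟩ (hi k1 k1' k2)
    funext u
    by_cases hu : u = v
    · rw [hu, z, z']
    · exact mul_left_cancel₀ hε.ne' (by rw [← e3 u hu, ← e3' u hu, k4])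
  · set Z : Set (Fin n → ℝ) :=
      ⋃ s ∈ T.faces.filter (v ∉ ·), convexHull ℝ (p '' (s : Set V)) with hZ
    have z1 : IsCompact Z := Finset.isCompact_biUnion _ fun s _ =>
      (s.finite_toSet.image p).isCompact_convexHull ℝ
    have z2 : p v ∉ Z := by
      intro h
      obtain ⟨s, hs, h⟩ := mem_iUnion₂.1 h
      exact pchart_notMem hT hv (Finset.mem_filter.1 hs).1 (Finset.mem_filter.1 hs).2 h
    have z3 : IsClosed (φ '' (N ∩ Z)) :=
      ((hN.inter_right z1.isClosed).image_of_continuousOn (hc.mono inter_subset_left)).isClosed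
    have z4 : φ (p v) ∉ φ '' (N ∩ Z) := by
      rintro ⟨x, hx, h⟩
      exact z2 (hi hx.1 hvN h ▸ hx.2)
    have z5 := (pchart_ray (hH (mem_image_of_mem φ hvN)) hy).eventually
      (inter_mem h2 (mem_nhdsWithin_of_mem_nhds (z3.isOpen_compl.mem_nhds z4)))
    obtain ⟨ε, ⟨⟨x, hx, e1⟩, e2⟩, hε⟩ := (z5.and self_mem_nhdsWithin).exists
    have hε : 0 < ε := hε
    obtain ⟨η, ⟨a0, s, hs, a1, a2⟩, rfl⟩ := hT.surjOn (hNM hx)
    have hvs : v ∈ s := by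
      by_contra hvs
      exact e2 ⟨_, ⟨hx, mem_iUnion₂.2 ⟨s, Finset.mem_filter.2 ⟨hs, hvs⟩,
        (mem_hull_iff p s _).2 ⟨η, a0, a1, a2, rfl⟩⟩⟩, e1⟩
    have e3 : lin q η = ε • y := add_left_cancel ((key s hs hvs η a0 a1 a2).2.symm.trans e1)
    refine ⟨Function.update (ε⁻¹ • η) v 0, ⟨fun u => ?_, s.erase v, ?_, fun u hu => ?_⟩, ?_⟩
    · by_cases hu : u = v
      · rw [hu, Function.update_self]
      · rw [Function.update_of_ne hu]
        exact mul_nonneg (inv_nonneg.2 hε.le) (a0 u)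
    · refine (s.erase v).eq_empty_or_nonempty.imp id fun h => mem_link.2
        ⟨T.down s hs _ (Finset.erase_subset v s) h, Finset.notMem_erase v s, ?_⟩
      rwa [Finset.insert_erase hvs]
    · by_cases hu' : u = v
      · rw [hu', Function.update_self]
      · rw [Function.update_of_ne hu']
        simp [a1 u fun h => hu (Finset.mem_erase.2 ⟨hu', h⟩)]
    · rw [pchart_lin_smul q hqv a1 (ε := ε⁻¹) fun u hu => Function.update_of_ne hu _ _, e3,
        smul_smul, inv_mul_cancel₀ hε.ne', one_smul]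

theorem pchart_top {P : Type} [PartialOrder P] {θ : Finset P} (h : θ.Nonempty)
    (hc : IsChain (· ≤ ·) (θ : Set P)) : ∃ c ∈ θ, ∀ d ∈ θ, d ≤ c := by
  obtain ⟨c, hc'⟩ := θ.exists_maximal h
  refine ⟨c, hc'.1, fun d hd => ?_⟩
  rcases hc.total hd hc'.1 with k | k
  · exact k
  · exact hc'.2 hd k

theorem pchart_cell {M N : Set (Fin n → ℝ)} {A : Set ((Fin n → ℝ) → ℝ)} (hA : Aff A)
    (hM : Adapt A M) {x y : Fin n → ℝ} (hy : y ∈ M) (hxy : Le A x y) (hN : N ∈ 𝓝[M] x) :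
    ∃ z ∈ N, Le A y z := by
  have h1 : Tendsto (fun t : ℝ => (1 - t) • x + t • y) (𝓝[>] 0) (𝓝 x) := by
    have : Continuous fun t : ℝ => (1 - t) • x + t • y := by fun_prop
    simpa using (this.tendsto 0).mono_left (nhdsWithin_le_nhds (s := Ioi 0))
  have h2 : Ioc (0 : ℝ) 1 ∈ 𝓝[>] (0 : ℝ) := Ioc_mem_nhdsGT one_pos
  have h3 : Tendsto (fun t : ℝ => (1 - t) • x + t • y) (𝓝[>] 0) (𝓝[M] x) := by
    refine tendsto_nhdsWithin_iff.2 ⟨h1, ?_⟩
    filter_upwards [h2] with t ht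
    exact hM y hy _ (hA.le_seg hxy ht.1 ht.2).1
  obtain ⟨t, k, ht⟩ := ((h3.eventually hN).and h2).exists
  exact ⟨_, k, (hA.le_seg hxy ht.1 ht.2).2⟩

theorem ev_manifold [DecidableEq (Lab (Fin n → ℝ))] {S : Finset (Finset (Fin n → ℝ))}
    (h : IsMfd (cover S)) : Ev fun A => (D (cover S) A).IsManifold := by
  choose! N hNM hN φ hφ h1 h2 using h
  have hG : ∀ x ∈ cover S,
      {y | N x ∈ 𝓝[cover S] y ∧ φ x '' N x ∈ 𝓝[H3] (φ x y)} ∈ 𝓝[cover S] x := by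
    intro x hx
    have a1 : Tendsto (φ x) (𝓝[cover S] x) (𝓝[H3] (φ x x)) :=
      (((hφ x hx).continuousOn x (mem_of_mem_nhdsWithin hx (hN x hx))).tendsto_nhdsWithin
        (mapsTo_iff_image_subset.2 (h1 x hx))).mono_left (nhdsWithin_le_of_mem (hN x hx))
    exact Eventually.and (eventually_mem_nhdsWithin_iff.2 (hN x hx))
      (a1.eventually (eventually_mem_nhdsWithin_iff.2 (h2 x hx)))
  obtain ⟨t, ht, hcov⟩ := (isCompact_cover S).elim_nhdsWithin_subcover _ hG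
  refine ((ev_cover S).and (ev_forall t.finite_toSet
    (P := fun j A => Adapt A (N j) ∧ AffOn A (N j) (φ j))
    fun j hj => (hφ j (ht j hj)).ev_adapt.and (hφ j (ht j hj)).ev_affOn)).mono ?_
  rintro A hA ⟨hM, hJ⟩ c hc
  obtain ⟨b, hb⟩ := exists_bary A (cover S)
  have hT := tri_real (isCompact_cover S) hA hM hb
  have hfin := sv_finite hA.1 (cover S)
  have hb' : ∀ d ∈ sv A '' cover S, b d ∈ cover S ∧ sv A (b d) = d := by
    rintro _ ⟨y, hy, rfl⟩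
    exact hb y hy
  have hc' : c ∈ sv A '' cover S := by rwa [D, oc_verts hfin] at hc
  obtain ⟨j, hj, g1, g2⟩ := mem_iUnion₂.1 (hcov (hb' c hc').1)
  have hjM := ht j hj
  have hK : IsCompact (N j) := by
    obtain ⟨-, S', e, -⟩ := hφ j hjM
    rw [e]; exact isCompact_cover S'
  refine Fan.sphere (fan_of_chart hT hc (φ := φ j) hK (hφ j hjM).continuousOn (hφ j hjM).1
    (hNM j hjM) (h1 j hjM) g2 fun θ hθ hcθ => ?_)
  obtain ⟨t1, t2, t3⟩ := (mem_oc hfin).1 hθ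
  obtain ⟨c0, k0, k1⟩ := pchart_top t1 t3
  have k2 : ∀ d ∈ θ, Le A (b d) (b c0) := fun d hd => by
    rw [← sv_le, (hb' d (t2 hd)).2, (hb' c0 (t2 k0)).2]
    exact k1 d hd
  obtain ⟨z, hz, k3⟩ := pchart_cell hA hM (hb' c0 (t2 k0)).1 (k2 c hcθ) g1
  have k4 : convexHull ℝ (b '' (θ : Set (Lab (Fin n → ℝ)))) ⊆ {x | Le A x z} := by
    refine convexHull_min ?_ (hA.convex z)
    rintro _ ⟨d, hd, rfl⟩
    exact (k2 d hd).trans k3
  obtain ⟨g, hg⟩ := (hJ j hj).2 z hz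
  exact ⟨fun x hx => (hJ j hj).1 z hz x (k4 hx), g, fun x hx => hg x (k4 hx)⟩

end MP35.PL
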