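import Pool.Agent.Lib.MP_35c604_gt.PChkA
import Pool.Agent.Lib.MP_35c604_gt.PChkData
import Pool.Agent.Lib.MP_35c604_gt.DataTab

/-! Evaluation of the test. -/

namespace MP35.PL

theorem pc_v10 : pcV tets 10 cq10 = true := by decide +kernel

theorem pc_v11 : pcV tets 11 cq11 = true := by decide +kernel

theorem pc_v12 : pcV tets 12 cq12 = true := by decide +kernel

theorem pc_v13 : pcV tets 13 cq13 = true := by decide +kernel

theorem pc_v14 : pcV tets 14 cq14 = true := by decide +kernel

theorem pc_v15 : pcV tets 15 cq15 = true := by decide +kernel

theorem pc_v16 : pcV tets 16 cq16 = true := by decide +kernel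

theorem pc_v17 : pcV tets 17 cq17 = true := by decide +kernel

theorem pc_v18 : pcV tets 18 cq18 = true := by decide +kernel

theorem pc_v19 : pcV tets 19 cq19 = true := by decide +kernel

theorem pc_v20 : pcV tets 20 cq20 = true := by decide +kernel

theorem pc_v21 : pcV tets 21 cq21 = true := by decide +kernel

theorem pc_v22 : pcV tets 22 cq22 = true := by decide +kernel

theorem pc_v23 : pcV tets 23 cq23 = true := by decide +kernel

theorem pc_v24 : pcV tets 24 cq24 = true := by decide +kernel

theorem pc_v25 : pcV tets 25 cq25 = true := by decide +kernel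

theorem pc_v26 : pcV tets 26 cq26 = true := by decide +kernel

theorem pc_v27 : pcV tets 27 cq27 = true := by decide +kernel

theorem pc_v28 : pcV tets 28 cq28 = true := by decide +kernel

theorem pc_v29 : pcV tets 29 cq29 = true := by decide +kernel

theorem pc_v30 : pcV tets 30 cq30 = true := by decide +kernel

theorem pc_v31 : pcV tets 31 cq31 = true := by decide +kernel

theorem pc_v32 : pcV tets 32 cq32 = true := by decide +kernel

theorem pc_v33 : pcV tets 33 cq33 = true := by decide +kernel

theorem pc_v34 : pcV tets 34 cq34 = true := by decide +kernel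

theorem pc_v35 : pcV tets 35 cq35 = true := by decide +kernel

theorem pc_v36 : pcV tets 36 cq36 = true := by decide +kernel

theorem pc_v37 : pcV tets 37 cq37 = true := by decide +kernel

theorem pc_v38 : pcV tets 38 cq38 = true := by decide +kernel

theorem pc_v39 : pcV tets 39 cq39 = true := by decide +kernel

theorem pc_v40 : pcV tets 40 cq40 = true := by decide +kernel

theorem pc_v41 : pcV tets 41 cq41 = true := by decide +kernel

theorem pc_v42 : pcV tets 42 cq42 = true := by decide +kernel

theorem pc_v43 : pcV tets 43 cq43 = true := by decide +kernel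

theorem pc_v44 : pcV tets 44 cq44 = true := by decide +kernel

theorem pc_v45 : pcV tets 45 cq45 = true := by decide +kernel

theorem pc_v46 : pcV tets 46 cq46 = true := by decide +kernel

theorem pc_v47 : pcV tets 47 cq47 = true := by decide +kernel

theorem pc_v48 : pcV tets 48 cq48 = true := by decide +kernel

theorem pc_v49 : pcV tets 49 cq49 = true := by decide +kernel

theorem pc_v50 : pcV tets 50 cq50 = true := by decide +kernel

theorem pc_v51 : pcV tets 51 cq51 = true := by decide +kernel

theorem pc_v52 : pcV tets 52 cq52 = true := by decide +kernel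

theorem pc_v53 : pcV tets 53 cq53 = true := by decide +kernel

theorem pc_v54 : pcV tets 54 cq54 = true := by decide +kernel

end MP35.PL
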