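import Pool.Agent.Lib.MP_35c604_gt.PChkB
import Pool.Agent.Lib.MP_35c604_gt.PChkC
import Pool.Agent.Lib.MP_35c604_gt.Data

/-! Convex realisations of the vertex links of the explicit manifold. -/

namespace MP35.PL

open Set SC

theorem pc_bdt : pcBd tets 55 = true := by decide +kernel

theorem pc_ex (T : List (ℕ × ℕ × ℕ × ℕ)) (n : ℕ) (h : pcBd T n = true)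
    (h' : ∀ v < n, ∃ Q, pcV T v Q = true) : ∃ M : SC ℕ,
    (∀ l : List ℕ, l ≠ [] → inTet T l = true → l.toFinset ∈ M.faces) ∧
    ∀ v ∈ M.verts, ∃ q : ℕ → Fin 3 → ℝ, Cvx (M.link v) q :=
  ⟨ofTets T, inTet_sound T, pc_final T n h h'⟩

theorem exists_cvx : ∃ M : SC ℕ,
    (∀ l : List ℕ, l ≠ [] → inTet tets l = true → l.toFinset ∈ M.faces) ∧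
    ∀ v ∈ M.verts, ∃ q : ℕ → Fin 3 → ℝ, Cvx (M.link v) q := by
  refine pc_ex tets 55 pc_bdt fun v hv => ?_
  interval_cases v
  exacts [
    ⟨_, pc_v0⟩, ⟨_, pc_v1⟩, ⟨_, pc_v2⟩, ⟨_, pc_v3⟩, ⟨_, pc_v4⟩, ⟨_, pc_v5⟩, ⟨_, pc_v6⟩, 
    ⟨_, pc_v7⟩, ⟨_, pc_v8⟩, ⟨_, pc_v9⟩, ⟨_, pc_v10⟩, ⟨_, pc_v11⟩, ⟨_, pc_v12⟩, ⟨_, pc_v13⟩, 
    ⟨_, pc_v14⟩, ⟨_, pc_v15⟩, ⟨_, pc_v16⟩, ⟨_, pc_v17⟩, ⟨_, pc_v18⟩, ⟨_, pc_v19⟩, ⟨_, pc_v20⟩, 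
    ⟨_, pc_v21⟩, ⟨_, pc_v22⟩, ⟨_, pc_v23⟩, ⟨_, pc_v24⟩, ⟨_, pc_v25⟩, ⟨_, pc_v26⟩, ⟨_, pc_v27⟩, 
    ⟨_, pc_v28⟩, ⟨_, pc_v29⟩, ⟨_, pc_v30⟩, ⟨_, pc_v31⟩, ⟨_, pc_v32⟩, ⟨_, pc_v33⟩, ⟨_, pc_v34⟩, 
    ⟨_, pc_v35⟩, ⟨_, pc_v36⟩, ⟨_, pc_v37⟩, ⟨_, pc_v38⟩, ⟨_, pc_v39⟩, ⟨_, pc_v40⟩, ⟨_, pc_v41⟩, 
    ⟨_, pc_v42⟩, ⟨_, pc_v43⟩, ⟨_, pc_v44⟩, ⟨_, pc_v45⟩, ⟨_, pc_v46⟩, ⟨_, pc_v47⟩, ⟨_, pc_v48⟩, 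
    ⟨_, pc_v49⟩, ⟨_, pc_v50⟩, ⟨_, pc_v51⟩, ⟨_, pc_v52⟩, ⟨_, pc_v53⟩, ⟨_, pc_v54⟩]

end MP35.PL
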