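import Pool.Agent.Lib.MP_35c604_gt.PBase
import Pool.Agent.Lib.MP_35c604_gt.ChkM

/-! A Boolean test for convex realisations of the vertex links. -/

namespace MP35.PL

open SC

def pcLk (v : ℕ) : List (ℕ × ℕ × ℕ × ℕ) → List (ℕ × ℕ × ℕ)
  | [] => []
  | t :: T => cond (Nat.beq v t.1) ((t.2.1, t.2.2.1, t.2.2.2) :: pcLk v T)
      (cond (Nat.beq v t.2.1) ((t.1, t.2.2.1, t.2.2.2) :: pcLk v T)
      (cond (Nat.beq v t.2.2.1) ((t.1, t.2.1, t.2.2.2) :: pcLk v T)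
      (cond (Nat.beq v t.2.2.2) ((t.1, t.2.1, t.2.2.1) :: pcLk v T) (pcLk v T))))

def pcTri (x : ℕ × ℕ × ℕ) : Finset ℕ := {x.1, x.2.1, x.2.2}

theorem pc_lk1 {v : ℕ} {T : List (ℕ × ℕ × ℕ × ℕ)} {x : ℕ × ℕ × ℕ} (h : x ∈ pcLk v T) :
    ∃ t ∈ T, tetSet t = insert v (pcTri x) := by
  induction T with
  | nil => simp [pcLk] at h
  | cons t T ih =>
    have k : x ∈ pcLk v T → ∃ t' ∈ t :: T, tetSet t' = insert v (pcTri x) := fun h =>
      (ih h).imp fun _ a => ⟨List.mem_cons_of_mem _ a.1, a.2⟩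
    obtain ⟨a, b, c, d⟩ := t
    simp only [pcLk, Bool.cond_eq_ite, Nat.beq_eq] at h
    split_ifs at h with h1 h2 h3 h4
    all_goals first
      | exact k h
      | rcases List.mem_cons.1 h with rfl | h
        · refine ⟨_, List.mem_cons_self, ?_⟩
          subst_vars
          ext u
          simp only [tetSet, pcTri, Finset.mem_insert, Finset.mem_singleton]
          try tauto
        · exact k h

theorem pc_lk_sub (v : ℕ) (t : ℕ × ℕ × ℕ × ℕ) (T : List (ℕ × ℕ × ℕ × ℕ)) {x : ℕ × ℕ × ℕ}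
    (h : x ∈ pcLk v T) : x ∈ pcLk v (t :: T) := by
  simp only [pcLk, Bool.cond_eq_ite]
  split_ifs
  all_goals first | exact h | exact List.mem_cons_of_mem _ h

theorem pc_lk2 {v : ℕ} {T : List (ℕ × ℕ × ℕ × ℕ)} {t : ℕ × ℕ × ℕ × ℕ} (h : t ∈ T)
    (hv : v ∈ tetSet t) : ∃ x ∈ pcLk v T, tetSet t = insert v (pcTri x) := by
  induction T with
  | nil => simp at h
  | cons t' T ih =>
    rcases List.mem_cons.1 h with rfl | h
    · obtain ⟨a, b, c, d⟩ := t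
      simp only [tetSet, Finset.mem_insert, Finset.mem_singleton] at hv
      simp only [pcLk, Bool.cond_eq_ite, Nat.beq_eq]
      split_ifs with h1 h2 h3 h4
      all_goals first
        | (exfalso; tauto)
        | refine ⟨_, List.mem_cons_self, ?_⟩
          subst_vars
          ext u
          simp only [tetSet, pcTri, Finset.mem_insert, Finset.mem_singleton]
          try tauto
    · exact (ih h).imp fun _ a => ⟨pc_lk_sub v t' T a.1, a.2⟩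

def pcLook (u : ℕ) : List (ℕ × ℤ × ℤ × ℤ) → ℤ × ℤ × ℤ
  | [] => (0, 0, 0)
  | e :: Q => cond (Nat.beq u e.1) e.2 (pcLook u Q)

def pcHas (u : ℕ) (Q : List (ℕ × ℤ × ℤ × ℤ)) : Bool := Q.any fun e => Nat.beq u e.1

theorem pc_has {u : ℕ} {Q : List (ℕ × ℤ × ℤ × ℤ)} (h : pcHas u Q = true) : (u, pcLook u Q) ∈ Q := by
  induction Q with
  | nil => simp [pcHas] at h
  | cons e Q ih =>
    simp only [pcLook, Bool.cond_eq_ite, Nat.beq_eq]
    split_ifs with k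
    · rw [k]; exact List.mem_cons_self
    · refine List.mem_cons_of_mem _ (ih ?_)
      simpa [pcHas, k] using h

def pcMem (a : ℕ) (y : ℕ × ℕ × ℕ) : Bool := Nat.beq a y.1 || Nat.beq a y.2.1 || Nat.beq a y.2.2

theorem pc_mem {a : ℕ} {y : ℕ × ℕ × ℕ} : pcMem a y = true ↔ a ∈ pcTri y := by
  simp [pcMem, pcTri, or_assoc]

def pcEd (L : List (ℕ × ℕ × ℕ)) (a b c : ℕ) : Bool :=
  L.any fun y => pcMem a y && pcMem b y && !pcMem c y

def pcIneq (Q : List (ℕ × ℤ × ℤ × ℤ)) (x : ℕ × ℕ × ℕ) (n1 n2 n3 d : ℤ) : Bool :=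
  !decide (d = 0) && Q.all fun e => pcMem e.1 x ||
    decide (d * (n1 * e.2.1 + n2 * e.2.2.1 + n3 * e.2.2.2) < d * d)

def pcN1 (a b c : ℤ × ℤ × ℤ) : ℤ :=
  (b.2.1 - a.2.1) * (c.2.2 - a.2.2) - (b.2.2 - a.2.2) * (c.2.1 - a.2.1)

def pcN2 (a b c : ℤ × ℤ × ℤ) : ℤ := (b.2.2 - a.2.2) * (c.1 - a.1) - (b.1 - a.1) * (c.2.2 - a.2.2)

def pcN3 (a b c : ℤ × ℤ × ℤ) : ℤ := (b.1 - a.1) * (c.2.1 - a.2.1) - (b.2.1 - a.2.1) * (c.1 - a.1)

def pcD (a b c : ℤ × ℤ × ℤ) : ℤ := pcN1 a b c * a.1 + pcN2 a b c * a.2.1 + pcN3 a b c * a.2.2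

def pcP (Q : List (ℕ × ℤ × ℤ × ℤ)) (x : ℕ × ℕ × ℕ) (a b c : ℤ × ℤ × ℤ) : Bool :=
  pcIneq Q x (pcN1 a b c) (pcN2 a b c) (pcN3 a b c) (pcD a b c)

def pcT (v : ℕ) (L : List (ℕ × ℕ × ℕ)) (Q : List (ℕ × ℤ × ℤ × ℤ)) (x : ℕ × ℕ × ℕ) : Bool :=
  !pcMem v x && pcHas x.1 Q && pcHas x.2.1 Q && pcHas x.2.2 Q &&
    pcEd L x.2.1 x.2.2 x.1 && pcEd L x.1 x.2.2 x.2.1 && pcEd L x.1 x.2.1 x.2.2 &&
    pcP Q x (pcLook x.1 Q) (pcLook x.2.1 Q) (pcLook x.2.2 Q)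

def pcL (v : ℕ) (L : List (ℕ × ℕ × ℕ)) (Q : List (ℕ × ℤ × ℤ × ℤ)) : Bool := L.all (pcT v L Q)

def pcV (T : List (ℕ × ℕ × ℕ × ℕ)) (v : ℕ) (Q : List (ℕ × ℤ × ℤ × ℤ)) : Bool := pcL v (pcLk v T) Q

noncomputable def pcQ (Q : List (ℕ × ℤ × ℤ × ℤ)) (u : ℕ) : Fin 3 → ℝ :=
  ![((pcLook u Q).1 : ℝ), ((pcLook u Q).2.1 : ℝ), ((pcLook u Q).2.2 : ℝ)]

theorem pc_lin (n1 n2 n3 d : ℝ) : ∃ φ : (Fin 3 → ℝ) →ₗ[ℝ] ℝ,
    ∀ y, φ y = (n1 * y 0 + n2 * y 1 + n3 * y 2) / d :=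
  ⟨⟨⟨fun y => (n1 * y 0 + n2 * y 1 + n3 * y 2) / d, fun x y => by simp only [Pi.add_apply]; ring⟩,
    fun c x => by simp only [Pi.smul_apply, smul_eq_mul, RingHom.id_apply]; ring⟩, fun _ => rfl⟩

theorem pc_sound {T : List (ℕ × ℕ × ℕ × ℕ)} {v : ℕ} {Q : List (ℕ × ℤ × ℤ × ℤ)}
    (h : pcV T v Q = true) (hv : v ∈ (ofTets T).verts) : Cvx ((ofTets T).link v) (pcQ Q) := by
  simp only [pcV, pcL, List.all_eq_true, pcT, Bool.and_eq_true, Bool.not_eq_true', pcP, pcIneq,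
    decide_eq_false_iff_not, Bool.or_eq_true, decide_eq_true_eq, pcEd, List.any_eq_true,
    ← Bool.not_eq_true, pc_mem] at h
  have mem : ∀ s, s ∈ ((ofTets T).link v).faces ↔ s.Nonempty ∧ ∃ x ∈ pcLk v T, s ⊆ pcTri x := by
    intro s
    rw [mem_link, mem_ofTets, mem_ofTets]
    constructor
    · rintro ⟨⟨h1, -⟩, h2, -, t, ht, h3⟩
      obtain ⟨x, hx, e⟩ := pc_lk2 ht (h3 (Finset.mem_insert_self _ _))
      refine ⟨h1, x, hx, fun u hu => ?_⟩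
      have := h3 (Finset.mem_insert_of_mem hu)
      rw [e, Finset.mem_insert] at this
      exact this.resolve_left fun k => h2 (k ▸ hu)
    · rintro ⟨h1, x, hx, h2⟩
      obtain ⟨t, ht, e⟩ := pc_lk1 hx
      exact ⟨⟨h1, t, ht, e ▸ h2.trans (Finset.subset_insert _ _)⟩,
        fun k => (h x hx).1.1.1.1.1.1.1 (h2 k), Finset.insert_nonempty _ _, t, ht,
        e ▸ Finset.insert_subset_insert _ h2⟩
  have ne : ∀ x ∈ pcLk v T, x.1 ≠ x.2.1 ∧ x.1 ≠ x.2.2 ∧ x.2.1 ≠ x.2.2 := fun x hx => by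
    have := (h x hx).2.1
    refine ⟨fun k => this ?_, fun k => this ?_, fun k => this ?_⟩ <;>
    · rw [k]
      simp only [pcD, pcN1, pcN2, pcN3]
      ring
  have c3 : ∀ x ∈ pcLk v T, (pcTri x).card = 3 := fun x hx =>
    Finset.card_eq_three.2 ⟨_, _, _, (ne x hx).1, (ne x hx).2.1, (ne x hx).2.2, rfl⟩
  have tm : ∀ x ∈ pcLk v T, pcTri x ∈ ((ofTets T).link v).faces := fun x hx =>
    (mem _).2 ⟨Finset.insert_nonempty _ _, x, hx, Finset.Subset.rfl⟩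
  refine ⟨?_, fun s hs => ?_, fun t ht h3 => ?_⟩
  · obtain ⟨-, t, ht, k⟩ := mem_ofTets.1 hv
    obtain ⟨x, hx, -⟩ := pc_lk2 ht (k (Finset.mem_singleton_self v))
    exact ⟨_, tm x hx, c3 x hx⟩
  · obtain ⟨-, x, hx, k⟩ := (mem s).1 hs
    exact ⟨_, tm x hx, k, c3 x hx⟩
  obtain ⟨-, x, hx, k⟩ := (mem t).1 ht
  obtain rfl : t = pcTri x := Finset.eq_of_subset_of_card_le k (by rw [h3, c3 x hx])
  obtain ⟨n1, n2, n3⟩ := ne x hx
  obtain ⟨⟨⟨⟨-, e1⟩, e2⟩, e3⟩, d0, d1⟩ := h x hx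
  have d0' : ((pcD (pcLook x.1 Q) (pcLook x.2.1 Q) (pcLook x.2.2 Q) : ℤ) : ℝ) ≠ 0 :=
    Int.cast_ne_zero.2 d0
  refine ⟨linearIndepOn_finset_iff.2 fun f hf => ?_, ?_, fun a ha => ?_⟩
  · rw [pcTri, Finset.sum_insert (by simp [n1, n2]), Finset.sum_insert (by simp [n3]),
      Finset.sum_singleton] at hf
    have f0 := congrFun hf 0
    have f1 := congrFun hf 1
    have f2 := congrFun hf 2
    simp only [pcQ, Pi.add_apply, Pi.smul_apply, smul_eq_mul, Pi.zero_apply, Matrix.cons_val_zero,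
      Matrix.cons_val_one, Matrix.cons_val] at f0 f1 f2
    simp only [pcD, pcN1, pcN2, pcN3] at d0'
    push_cast at d0'
    generalize ((pcLook x.1 Q).1 : ℝ) = a1, ((pcLook x.1 Q).2.1 : ℝ) = a2,
      ((pcLook x.1 Q).2.2 : ℝ) = a3, ((pcLook x.2.1 Q).1 : ℝ) = b1,
      ((pcLook x.2.1 Q).2.1 : ℝ) = b2, ((pcLook x.2.1 Q).2.2 : ℝ) = b3,
      ((pcLook x.2.2 Q).1 : ℝ) = c1, ((pcLook x.2.2 Q).2.1 : ℝ) = c2,
      ((pcLook x.2.2 Q).2.2 : ℝ) = c3 at f0 f1 f2 d0'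
    intro i hi
    simp only [pcTri, Finset.mem_insert, Finset.mem_singleton] at hi
    refine (mul_eq_zero.1 (?_ : f i * _ = 0)).resolve_right d0'
    rcases hi with rfl | rfl | rfl
    · linear_combination (b2 * c3 - b3 * c2) * f0 + (b3 * c1 - b1 * c3) * f1 +
        (b1 * c2 - b2 * c1) * f2
    · linear_combination (c2 * a3 - c3 * a2) * f0 + (c3 * a1 - c1 * a3) * f1 +
        (c1 * a2 - c2 * a1) * f2
    · linear_combination (a2 * b3 - a3 * b2) * f0 + (a3 * b1 - a1 * b3) * f1 +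
        (a1 * b2 - a2 * b1) * f2
  · obtain ⟨φ, hφ⟩ := pc_lin (pcN1 (pcLook x.1 Q) (pcLook x.2.1 Q) (pcLook x.2.2 Q) : ℤ)
      (pcN2 (pcLook x.1 Q) (pcLook x.2.1 Q) (pcLook x.2.2 Q) : ℤ)
      (pcN3 (pcLook x.1 Q) (pcLook x.2.1 Q) (pcLook x.2.2 Q) : ℤ)
      (pcD (pcLook x.1 Q) (pcLook x.2.1 Q) (pcLook x.2.2 Q) : ℤ)
    refine ⟨φ, fun u hu => ?_, fun u hu hu' => ?_⟩
    · rw [hφ, div_eq_one_iff_eq d0']
      simp only [pcTri, Finset.mem_insert, Finset.mem_singleton] at hu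
      simp only [pcQ, Matrix.cons_val_zero, Matrix.cons_val_one, Matrix.cons_val, pcD, pcN1, pcN2,
        pcN3]
      push_cast
      rcases hu with rfl | rfl | rfl <;> ring
    · obtain ⟨-, y, hy, k⟩ := (mem _).1 hu
      have hu2 := k (Finset.mem_singleton_self u)
      obtain ⟨⟨⟨⟨⟨⟨⟨-, g1⟩, g2⟩, g3⟩, -⟩, -⟩, -⟩, -⟩ := h y hy
      have : pcHas u Q = true := by
        simp only [pcTri, Finset.mem_insert, Finset.mem_singleton] at hu2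
        rcases hu2 with rfl | rfl | rfl <;> assumption
      have l := (d1 _ (pc_has this)).resolve_left hu'
      have l' := (Int.cast_lt (R := ℝ)).2 l
      push_cast at l'
      rw [hφ, ← mul_div_mul_left _ _ d0', div_lt_one (mul_self_pos.2 d0')]
      simpa only [pcQ, Matrix.cons_val_zero, Matrix.cons_val_one, Matrix.cons_val] using l'
  · simp only [pcTri, Finset.mem_insert, Finset.mem_singleton] at ha
    have key : ∀ b c : ℕ, (∀ u ∈ pcTri x, u ≠ a → u = b ∨ u = c) →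
        (∃ y ∈ pcLk v T, (b ∈ pcTri y ∧ c ∈ pcTri y) ∧ a ∉ pcTri y) →
        ∃ t' ∈ ((ofTets T).link v).faces, t'.card = 3 ∧ (pcTri x).erase a ⊆ t' ∧ a ∉ t' := by
      rintro b c k ⟨y, hy, ⟨k1, k2⟩, k3⟩
      refine ⟨_, tm y hy, c3 y hy, fun u hu => ?_, k3⟩
      rcases k u (Finset.mem_of_mem_erase hu) (Finset.ne_of_mem_erase hu) with rfl | rfl <;>
        assumption
    rcases ha with rfl | rfl | rfl
    · exact key _ _ (by simp only [pcTri, Finset.mem_insert, Finset.mem_singleton]; tauto) e1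
    · exact key _ _ (by simp only [pcTri, Finset.mem_insert, Finset.mem_singleton]; tauto) e2
    · exact key _ _ (by simp only [pcTri, Finset.mem_insert, Finset.mem_singleton]; tauto) e3

def pcBd (T : List (ℕ × ℕ × ℕ × ℕ)) (n : ℕ) : Bool :=
  T.all fun t => Nat.blt t.1 n && Nat.blt t.2.1 n && Nat.blt t.2.2.1 n && Nat.blt t.2.2.2 n

theorem pc_bd {T : List (ℕ × ℕ × ℕ × ℕ)} {n : ℕ} (h : pcBd T n = true) :
    ∀ v ∈ (ofTets T).verts, v < n := fun v hv => by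
  obtain ⟨-, t, ht, k⟩ := mem_ofTets.1 hv
  have := k (Finset.mem_singleton_self v)
  simp only [pcBd, List.all_eq_true, Bool.and_eq_true, Nat.blt_eq] at h
  obtain ⟨⟨⟨a, b⟩, c⟩, d⟩ := h t ht
  simp only [tetSet, Finset.mem_insert, Finset.mem_singleton] at this
  omega

theorem pc_final (T : List (ℕ × ℕ × ℕ × ℕ)) (n : ℕ) (h : pcBd T n = true)
    (h' : ∀ v < n, ∃ Q, pcV T v Q = true) :
    ∀ v ∈ (ofTets T).verts, ∃ q : ℕ → Fin 3 → ℝ, Cvx ((ofTets T).link v) q := fun v hv =>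
  (h' v (pc_bd h v hv)).elim fun _ k => ⟨_, pc_sound k hv⟩

end MP35.PL
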