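import Pool.Agent.Lib.MP_35c604_gt.PChkA
import Pool.Agent.Lib.MP_35c604_gt.PChkData
import Pool.Agent.Lib.MP_35c604_gt.DataTab

/-! Evaluation of the test. -/

namespace MP35.PL

theorem pc_v0 : pcV tets 0 cq0 = true := by decide +kernel

theorem pc_v1 : pcV tets 1 cq1 = true := by decide +kernel

theorem pc_v2 : pcV tets 2 cq2 = true := by decide +kernel

theorem pc_v3 : pcV tets 3 cq3 = true := by decide +kernel

theorem pc_v4 : pcV tets 4 cq4 = true := by decide +kernel

theorem pc_v5 : pcV tets 5 cq5 = true := by decide +kernel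

theorem pc_v6 : pcV tets 6 cq6 = true := by decide +kernel

theorem pc_v7 : pcV tets 7 cq7 = true := by decide +kernel

theorem pc_v8 : pcV tets 8 cq8 = true := by decide +kernel

theorem pc_v9 : pcV tets 9 cq9 = true := by decide +kernel

end MP35.PL
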