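import Pool.Agent.Lib.MP_35c604_gt.PArr

/-! TASK COLA: the retraction of the simplex onto a union of facets. -/

namespace MP35.PL

open Set SC

/-- The properties of the height `mm` above the union of the facets `x i = 0`, `i ∈ J`, and of the
retraction `ρ` onto it in the direction which increases the coordinate `k0`. -/
structure Retr {k : ℕ} (J : Finset (Fin k)) (k0 : Fin k) (mm : (Fin k → ℝ) → ℝ)
    (ρ : (Fin k → ℝ) → Fin k → ℝ) : Prop where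
  nonneg : ∀ x ∈ stdSimplex ℝ (Fin k), 0 ≤ mm x
  pos : ∀ x, 0 < mm x ↔ ∀ i ∈ J, 0 < x i
  mem : ∀ x ∈ stdSimplex ℝ (Fin k), ρ x ∈ stdSimplex ℝ (Fin k) ∧ ∃ i ∈ J, ρ x i = 0
  fix : ∀ x, mm x = 0 → ρ x = x
  top : ∀ x ∈ stdSimplex ℝ (Fin k), 0 < mm x → 0 < ρ x k0
  mid : ∀ x ∈ stdSimplex ℝ (Fin k), 0 < mm x →
    ∃ z ∈ stdSimplex ℝ (Fin k), ρ z = ρ x ∧ 0 < mm z ∧ 0 < z k0
  seg : ∀ x y, (∀ i ∈ J, ρ y i = 0 → ρ x i = 0) → ∀ t : ℝ, 0 ≤ t → t ≤ 1 →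
    mm ((1 - t) • x + t • y) = (1 - t) * mm x + t * mm y ∧
      ρ ((1 - t) • x + t • y) = (1 - t) • ρ x + t • ρ y
  ev : Ev fun A => AffOn A (stdSimplex ℝ (Fin k)) ρ

theorem pcola_dir {k : ℕ} {J : Finset (Fin k)} (hJ : J.Nonempty) {k0 : Fin k} (hk : k0 ∉ J) :
    ∃ d : Fin k → ℝ, (∀ i ∈ J, d i = 1) ∧ (∀ i, i ∉ J → d i ≤ 0) ∧ d k0 < 0 ∧ ∑ i, d i = 0 := by
  have hc : (0 : ℝ) < J.card := Nat.cast_pos.2 hJ.card_pos
  refine ⟨fun i => (if i ∈ J then 1 else 0) - if i = k0 then (J.card : ℝ) else 0,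
    fun i hi => ?_, fun i hi => ?_, ?_, ?_⟩
  · simp only [if_pos hi, if_neg (ne_of_mem_of_not_mem hi hk), sub_zero]
  · simp only [if_neg hi]
    split_ifs <;> linarith
  · simp only [if_neg hk, if_true]
    linarith
  · simp [Finset.sum_sub_distrib]

theorem exists_retr {k : ℕ} {J : Finset (Fin k)} (hJ : J.Nonempty) {k0 : Fin k} (hk : k0 ∉ J) :
    ∃ mm ρ, Retr J k0 mm ρ := by
  obtain ⟨d, d1, d2, d3, d4⟩ := pcola_dir hJ hk
  obtain ⟨mm, hle, hex⟩ : ∃ mm : (Fin k → ℝ) → ℝ, (∀ x, ∀ i ∈ J, mm x ≤ x i) ∧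
      ∀ x, ∃ i ∈ J, mm x = x i :=
    ⟨fun x => J.inf' hJ x, fun x _ hi => Finset.inf'_le x hi,
      fun x => Finset.exists_mem_eq_inf' hJ x⟩
  have heq : ∀ (x : Fin k → ℝ), ∀ i ∈ J, (∀ j ∈ J, x i ≤ x j) → mm x = x i := fun x i hi h => by
    obtain ⟨j, hj, e⟩ := hex x
    exact le_antisymm (hle x i hi) (e ▸ h j hj)
  have hnn : ∀ x ∈ stdSimplex ℝ (Fin k), 0 ≤ mm x := fun x hx => by
    obtain ⟨i, -, e⟩ := hex x
    exact e ▸ hx.1 i
  have hJd : ∀ (x : Fin k → ℝ) (c : ℝ), ∀ i ∈ J, (x - c • d) i = x i - c := fun x c i hi => by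
    rw [Pi.sub_apply, Pi.smul_apply, d1 i hi, smul_eq_mul, mul_one]
  have hmem : ∀ x ∈ stdSimplex ℝ (Fin k), ∀ c : ℝ, 0 ≤ c → c ≤ mm x →
      x - c • d ∈ stdSimplex ℝ (Fin k) := fun x hx c h0 h1 => by
    refine ⟨fun i => ?_, ?_⟩
    · by_cases hi : i ∈ J
      · rw [hJd x c i hi]
        linarith [hle x i hi]
      · rw [Pi.sub_apply, Pi.smul_apply, smul_eq_mul]
        nlinarith [hx.1 i, d2 i hi]
    · simp only [Pi.sub_apply, Pi.smul_apply, smul_eq_mul, Finset.sum_sub_distrib,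
        ← Finset.mul_sum, d4, hx.2, mul_zero, sub_zero]
  have htop : ∀ x ∈ stdSimplex ℝ (Fin k), ∀ c : ℝ, 0 < c → 0 < (x - c • d) k0 :=
    fun x hx c h0 => by
      rw [Pi.sub_apply, Pi.smul_apply, smul_eq_mul]
      nlinarith [hx.1 k0]
  refine ⟨mm, fun x => x - mm x • d, hnn, fun x => ⟨fun h i hi => h.trans_le (hle x i hi),
    fun h => ?_⟩, fun x hx => ⟨hmem x hx _ (hnn x hx) le_rfl, ?_⟩, fun x h => ?_,
    fun x hx h => htop x hx _ h, fun x hx h => ?_, fun x y h t t0 t1 => ?_, ?_⟩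
  · obtain ⟨i, hi, e⟩ := hex x
    exact e ▸ h i hi
  · obtain ⟨i, hi, e⟩ := hex x
    exact ⟨i, hi, by rw [hJd x _ i hi, e, sub_self]⟩
  · rw [h, zero_smul, sub_zero]
  · obtain ⟨i, hi, e⟩ := hex x
    have e' : mm (x - (mm x / 2) • d) = mm x / 2 := by
      rw [heq _ i hi fun j hj => ?_, hJd x _ i hi]
      · linarith
      · rw [hJd x _ i hi, hJd x _ j hj]
        linarith [hle x j hj]
    refine ⟨x - (mm x / 2) • d, hmem x hx _ (by linarith) (by linarith), ?_, by linarith,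
      htop x hx _ (by linarith)⟩
    rw [e', sub_sub, ← add_smul, add_halves]
  · obtain ⟨i, hi, e⟩ := hex y
    have e1 := h i hi (by rw [hJd y _ i hi, e, sub_self])
    rw [hJd x _ i hi, sub_eq_zero] at e1
    have e2 : mm ((1 - t) • x + t • y) = (1 - t) * mm x + t * mm y := by
      rw [heq _ i hi fun j hj => ?_]
      · simp only [Pi.add_apply, Pi.smul_apply, smul_eq_mul, e1, e]
      · simp only [Pi.add_apply, Pi.smul_apply, smul_eq_mul, e1, ← e]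
        exact add_le_add (mul_le_mul_of_nonneg_left (hle x j hj) (sub_nonneg.2 t1))
          (mul_le_mul_of_nonneg_left (hle y j hj) t0)
    refine ⟨e2, ?_⟩
    rw [e2]
    module
  · refine ⟨Set.range fun ij : Fin k × Fin k => fun x => x ij.2 - x ij.1,
      ⟨Set.finite_range _, ?_⟩, fun A _ hA y _ => ?_⟩
    · rintro _ ⟨ij, rfl⟩
      exact ⟨(LinearMap.proj (R := ℝ) (φ := fun _ : Fin k => ℝ) ij.2 -
        LinearMap.proj (R := ℝ) (φ := fun _ : Fin k => ℝ) ij.1).toAffineMap, rfl⟩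
    · obtain ⟨i, hi, e⟩ := hex y
      refine ⟨(LinearMap.id - (LinearMap.proj i).smulRight d :
        (Fin k → ℝ) →ₗ[ℝ] Fin k → ℝ).toAffineMap, fun x hx => ?_⟩
      simp [heq x i hi fun j hj => sub_nonneg.1
        (hx.nonneg (hA ⟨(i, j), rfl⟩) (sub_nonneg.2 (e ▸ hle y j hj)))]

end MP35.PL
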