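import Pool.Agent.Lib.MP_35c604_gt.PHom
import Pool.Agent.Lib.MP_35c604_gt.PColA

/-! TASK COL: invariance under elementary collapses. -/

namespace MP35.PL

open Set SC

/-- The coordinate functions. -/
def pcolCo (k : ℕ) : Set ((Fin k → ℝ) → ℝ) := range fun (i : Fin k) (x : Fin k → ℝ) => x i

theorem pcol_aff_co (k : ℕ) : Aff (pcolCo k) := by
  refine ⟨finite_range _, ?_⟩
  rintro _ ⟨i, rfl⟩
  exact ⟨(LinearMap.proj (R := ℝ) (φ := fun _ : Fin k => ℝ) i).toAffineMap, rfl⟩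

theorem pcol_co_zero {k : ℕ} {x y : Fin k → ℝ} (h : Le (pcolCo k) x y) {i : Fin k}
    (e : y i = 0) : x i = 0 :=
  h.zero (ψ := fun x => x i) ⟨i, rfl⟩ e

theorem pcol_co_pos {k : ℕ} {x y : Fin k → ℝ} (h : Le (pcolCo k) x y) {i : Fin k}
    (e : 0 < x i) : 0 < y i :=
  (h (fun x => x i) ⟨i, rfl⟩).1 e

/-- The data of an elementary collapse together with an adapted family. -/
structure PcolD {n k : ℕ} (X Y B : Set (Fin n → ℝ)) (h : (Fin k → ℝ) → Fin n → ℝ)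
    (g : (Fin n → ℝ) → Fin k → ℝ) (J : Finset (Fin k)) (k0 : Fin k) (mm : (Fin k → ℝ) → ℝ)
    (ρ : (Fin k → ℝ) → Fin k → ℝ) (R : (Fin n → ℝ) → Fin n → ℝ)
    (Φ : Set ((Fin n → ℝ) → ℝ)) : Prop where
  rt : Retr J k0 mm ρ
  hX : ∀ z, z ∈ X ↔ z ∈ Y ∨ z ∈ B
  gm : ∀ z ∈ B, g z ∈ stdSimplex ℝ (Fin k)
  hg : ∀ z ∈ B, h (g z) = z
  hm : ∀ x ∈ stdSimplex ℝ (Fin k), h x ∈ B
  gh : ∀ x ∈ stdSimplex ℝ (Fin k), g (h x) = x
  yb : ∀ z ∈ B, z ∈ Y ↔ ∃ i ∈ J, g z i = 0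
  r1 : ∀ z ∈ B, R z = h (ρ (g z))
  r2 : ∀ z, z ∉ B → R z = z
  aff : Aff Φ
  adB : Adapt Φ B
  adY : Adapt Φ Y
  gaff : AffOn Φ B g
  co : ∀ y ∈ B, ∀ x, Le Φ x y → Le (pcolCo k) (g x) (g y)

/-- The first labelling. -/
def pcolL1 {n k : ℕ} (B : Set (Fin n → ℝ)) (g : (Fin n → ℝ) → Fin k → ℝ) (k0 : Fin k)
    (mm : (Fin k → ℝ) → ℝ) (R : (Fin n → ℝ) → Fin n → ℝ) (Φ : Set ((Fin n → ℝ) → ℝ))
    (z : Fin n → ℝ) : Lab (Fin n → ℝ) × Prop × Prop :=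
  (sv Φ (R z), ¬ (z ∈ B ∧ g z k0 = 0), z ∈ B ∧ 0 < mm (g z))

open Classical in
/-- The second labelling. -/
noncomputable def pcolL2 {n k : ℕ} (B : Set (Fin n → ℝ)) (g : (Fin n → ℝ) → Fin k → ℝ)
    (k0 : Fin k) (mm : (Fin k → ℝ) → ℝ) (R : (Fin n → ℝ) → Fin n → ℝ)
    (Φ Ψ : Set ((Fin n → ℝ) → ℝ)) (z : Fin n → ℝ) :
    (Lab (Fin n → ℝ) × Prop × Prop) × Lab (Fin n → ℝ) :=
  (pcolL1 B g k0 mm R Φ z, if z ∈ B then sv Ψ z else ⊤)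

section
variable {n k : ℕ} {X Y B : Set (Fin n → ℝ)} {h : (Fin k → ℝ) → Fin n → ℝ}
  {g : (Fin n → ℝ) → Fin k → ℝ} {J : Finset (Fin k)} {k0 : Fin k} {mm : (Fin k → ℝ) → ℝ}
  {ρ : (Fin k → ℝ) → Fin k → ℝ} {R : (Fin n → ℝ) → Fin n → ℝ} {Φ Ψ : Set ((Fin n → ℝ) → ℝ)}

theorem pcol_le1 {x y : Fin n → ℝ} : pcolL1 B g k0 mm R Φ x ≤ pcolL1 B g k0 mm R Φ y ↔
    Le Φ (R x) (R y) ∧ (¬ (x ∈ B ∧ g x k0 = 0) → ¬ (y ∈ B ∧ g y k0 = 0)) ∧
      (x ∈ B ∧ 0 < mm (g x) → y ∈ B ∧ 0 < mm (g y)) := by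
  rw [← sv_le]
  rfl

theorem pcol_eq1 {x y : Fin n → ℝ} (h1 : Le Φ (R x) (R y) ∧ Le Φ (R y) (R x))
    (h2 : (x ∈ B ∧ g x k0 = 0) ↔ (y ∈ B ∧ g y k0 = 0))
    (h3 : (x ∈ B ∧ 0 < mm (g x)) ↔ (y ∈ B ∧ 0 < mm (g y))) :
    pcolL1 B g k0 mm R Φ x = pcolL1 B g k0 mm R Φ y :=
  le_antisymm (pcol_le1.2 ⟨h1.1, fun a b => a (h2.2 b), h3.1⟩)
    (pcol_le1.2 ⟨h1.2, fun a b => a (h2.1 b), h3.2⟩)

theorem pcol_fin1 (hΦ : Φ.Finite) (Z : Set (Fin n → ℝ)) :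
    (pcolL1 B g k0 mm R Φ '' Z).Finite := by
  refine ((sv_finite hΦ univ).prod (finite_univ (α := Prop × Prop))).subset ?_
  rintro _ ⟨z, -, rfl⟩
  exact ⟨⟨R z, trivial, rfl⟩, trivial⟩

theorem pcol_fin2 (hΦ : Φ.Finite) (hΨ : Ψ.Finite) (Z : Set (Fin n → ℝ)) :
    (pcolL2 B g k0 mm R Φ Ψ '' Z).Finite := by
  refine ((pcol_fin1 (B := B) (g := g) (k0 := k0) (mm := mm) (R := R) hΦ Z).prod
    ((sv_finite hΨ univ).insert ⊤)).subset ?_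
  rintro _ ⟨z, hz, rfl⟩
  refine ⟨⟨z, hz, rfl⟩, ?_⟩
  by_cases e : z ∈ B
  · exact Or.inr ⟨z, trivial, by simp [pcolL2, e]⟩
  · exact Or.inl (by simp [pcolL2, e])

namespace PcolD

variable (d : PcolD X Y B h g J k0 mm ρ R Φ)
include d

theorem notY {z : Fin n → ℝ} (hz : z ∈ B) : z ∈ Y ↔ ¬ 0 < mm (g z) := by
  rw [d.yb z hz, d.rt.pos]
  constructor
  · rintro ⟨i, hi, e⟩ c
    exact (c i hi).ne' e
  · intro c
    by_contra e
    exact c fun i hi => lt_of_le_of_ne ((d.gm z hz).1 i) fun u => e ⟨i, hi, u.symm⟩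

theorem zero {z : Fin n → ℝ} (hz : z ∈ B) (e : ¬ 0 < mm (g z)) : mm (g z) = 0 :=
  le_antisymm (not_lt.1 e) (d.rt.nonneg _ (d.gm z hz))

theorem nb {z : Fin n → ℝ} (hz : z ∈ Y) : ¬ (z ∈ B ∧ 0 < mm (g z)) :=
  fun c => (d.notY c.1).1 hz c.2

theorem ofnb {z : Fin n → ℝ} (hz : z ∈ X) (e : ¬ (z ∈ B ∧ 0 < mm (g z))) : z ∈ Y :=
  ((d.hX z).1 hz).elim id fun c => (d.notY c).2 fun u => e ⟨c, u⟩

theorem rfix {z : Fin n → ℝ} (hz : z ∈ Y) : R z = z := by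
  by_cases e : z ∈ B
  · rw [d.r1 z e, d.rt.fix _ (d.zero e ((d.notY e).1 hz)), d.hg z e]
  · exact d.r2 z e

theorem rB {z : Fin n → ℝ} (hz : z ∈ B) : R z ∈ B := by
  rw [d.r1 z hz]
  exact d.hm _ (d.rt.mem _ (d.gm z hz)).1

theorem gR {z : Fin n → ℝ} (hz : z ∈ B) : g (R z) = ρ (g z) := by
  rw [d.r1 z hz]
  exact d.gh _ (d.rt.mem _ (d.gm z hz)).1

theorem rY {z : Fin n → ℝ} (hz : z ∈ X) : R z ∈ Y := by
  by_cases e : z ∈ B
  · rw [d.yb _ (d.rB e), d.gR e]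
    exact (d.rt.mem _ (d.gm z e)).2
  · rw [d.r2 z e]
    exact ((d.hX z).1 hz).resolve_right e

theorem yX {z : Fin n → ℝ} (hz : z ∈ Y) : z ∈ X := (d.hX z).2 (Or.inl hz)

theorem bX {z : Fin n → ℝ} (hz : z ∈ B) : z ∈ X := (d.hX z).2 (Or.inr hz)

theorem up : SE (oc (pcolL1 B g k0 mm R Φ '' X))
    (oc {c ∈ pcolL1 B g k0 mm R Φ '' X | (c.1, c.2.1 ∨ c.2.2, c.2.2) = c}) := by
  refine oc_up (pcol_fin1 d.aff.1 X) (fun c => (c.1, c.2.1 ∨ c.2.2, c.2.2)) ?_ ?_ ?_ ?_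
  · rintro _ ⟨z, hz, rfl⟩
    by_cases e : z ∈ B ∧ 0 < mm (g z)
    · obtain ⟨w, hw, e1, e2, e3⟩ := d.rt.mid _ (d.gm z e.1) e.2
      refine ⟨h w, d.bX (d.hm w hw), ?_⟩
      have e4 : R (h w) = R z := by rw [d.r1 _ (d.hm w hw), d.gh w hw, e1, d.r1 z e.1]
      refine Prod.ext ?_ (Prod.ext (propext ?_) (propext ?_))
      · exact congrArg (sv Φ) e4
      · refine ⟨fun _ => Or.inr e, fun _ c => ?_⟩
        rw [d.gh w hw] at c
        exact e3.ne' c.2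
      · refine ⟨fun _ => e, fun _ => ⟨d.hm w hw, ?_⟩⟩
        rwa [d.gh w hw]
    · refine ⟨z, hz, Prod.ext rfl (Prod.ext (propext ?_) rfl)⟩
      exact ⟨Or.inl, fun c => c.resolve_right e⟩
  · intro a _ b _ c
    exact ⟨c.1, fun u => u.imp c.2.1 c.2.2, c.2.2⟩
  · intro a _
    exact ⟨le_rfl, Or.inl, le_rfl⟩
  · intro a _
    exact Prod.ext rfl (Prod.ext (propext ⟨fun u => u.elim id Or.inr, Or.inl⟩) rfl)

theorem down : SE (oc {c ∈ pcolL1 B g k0 mm R Φ '' X | (c.1, c.2.1 ∨ c.2.2, c.2.2) = c})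
    (oc (pcolL1 B g k0 mm R Φ '' Y)) := by
  have hf : {c ∈ pcolL1 B g k0 mm R Φ '' X | (c.1, c.2.1 ∨ c.2.2, c.2.2) = c}.Finite :=
    (pcol_fin1 d.aff.1 X).subset fun _ c => c.1
  refine (oc_down hf (fun c => (c.1, c.2.1, False)) ?_ ?_ ?_ ?_).trans (SE.of_eq ?_)
  · rintro _ ⟨⟨z, hz, rfl⟩, e⟩
    have e1 : (z ∈ B ∧ 0 < mm (g z)) → ¬ (z ∈ B ∧ g z k0 = 0) := fun c =>
      (congrArg (fun c => c.2.1) e).to_iff.1 (Or.inr c)
    refine ⟨⟨R z, d.yX (d.rY hz), ?_⟩, Prod.ext rfl (Prod.ext (or_false _) rfl)⟩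
    refine Prod.ext ?_ (Prod.ext (propext ?_) (propext ?_))
    · exact congrArg (sv Φ) (d.rfix (d.rY hz))
    · by_cases c : z ∈ B ∧ 0 < mm (g z)
      · refine ⟨fun _ => e1 c, fun _ u => ?_⟩
        rw [d.gR c.1] at u
        exact (d.rt.top _ (d.gm z c.1) c.2).ne' u.2
      · change ¬ (R z ∈ B ∧ g (R z) k0 = 0) ↔ ¬ (z ∈ B ∧ g z k0 = 0)
        rw [d.rfix (d.ofnb hz c)]
    · exact ⟨d.nb (d.rY hz), False.elim⟩
  · intro a _ b _ c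
    exact ⟨c.1, c.2.1, le_rfl⟩
  · intro a _
    exact ⟨le_rfl, le_rfl, False.elim⟩
  · intro a _
    rfl
  · congr 1
    ext c
    constructor
    · rintro ⟨⟨⟨z, hz, rfl⟩, -⟩, e⟩
      exact ⟨z, d.ofnb hz (congrArg (fun c => c.2.2) e).to_iff.2, rfl⟩
    · rintro ⟨z, hz, rfl⟩
      refine ⟨⟨⟨z, d.yX hz, rfl⟩, Prod.ext rfl (Prod.ext (propext ?_) rfl)⟩,
        Prod.ext rfl (Prod.ext rfl (propext ⟨False.elim, d.nb hz⟩))⟩
      exact ⟨fun u => u.resolve_right (d.nb hz), Or.inl⟩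

theorem rel : SE (oc (pcolL1 B g k0 mm R Φ '' Y)) (D Y Φ) := by
  refine oc_relabel id (image_id Y) (pcol_fin1 d.aff.1 Y) (sv_finite d.aff.1 Y) ?_
  intro x hx y hy
  rw [pcol_le1, sv_le, d.rfix hx, d.rfix hy]
  refine ⟨fun c => c.1, fun c => ⟨c, fun u v => u ⟨d.adB y v.1 x c, ?_⟩,
    fun u => (d.nb hx u).elim⟩⟩
  exact pcol_co_zero (d.co y v.1 x c) v.2

theorem inB {x y : Fin n → ℝ} (c : pcolL1 B g k0 mm R Φ x ≤ pcolL1 B g k0 mm R Φ y)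
    (hy : y ∈ B) : x ∈ B := by
  by_contra e
  have := (pcol_le1.1 c).1
  rw [d.r2 x e] at this
  exact e (d.adB _ (d.rB hy) x this)

theorem segm {x y : Fin n → ℝ} (hx : x ∈ B) (hy : y ∈ B) {t : ℝ} (h0 : 0 < t) (h1 : t ≤ 1) :
    (1 - t) • g x + t • g y ∈ stdSimplex ℝ (Fin k) :=
  convex_stdSimplex ℝ (Fin k) (d.gm x hx) (d.gm y hy) (sub_nonneg.2 h1) h0.le (by ring)

theorem key {x y : Fin n → ℝ} (c : pcolL1 B g k0 mm R Φ x ≤ pcolL1 B g k0 mm R Φ y)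
    (hy : y ∈ B) {t : ℝ} (h0 : 0 < t) (h1 : t ≤ 1) :
    pcolL1 B g k0 mm R Φ (h ((1 - t) • g x + t • g y)) = pcolL1 B g k0 mm R Φ y := by
  have hx := d.inB c hy
  have hz := d.segm hx hy h0 h1
  obtain ⟨c1, c2, c3⟩ := pcol_le1.1 c
  have c4 := d.co _ (d.rB hy) _ c1
  rw [d.gR hx, d.gR hy] at c4
  obtain ⟨s1, s2⟩ := d.rt.seg (g x) (g y) (fun i _ e => pcol_co_zero c4 e) t h0.le h1
  have l := d.aff.le_seg c1 h0 h1
  have hu := d.adB _ (d.rB hy) _ l.1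
  obtain ⟨γ, hγ⟩ := d.gaff _ (d.rB hy)
  have e1 : g ((1 - t) • R x + t • R y) = ρ ((1 - t) • g x + t • g y) := by
    rw [hγ _ l.1, aff_map_seg, ← hγ _ c1, ← hγ _ (Le.refl _ _), s2, d.gR hx, d.gR hy]
  have e2 : R (h ((1 - t) • g x + t • g y)) = (1 - t) • R x + t • R y := by
    rw [d.r1 _ (d.hm _ hz), d.gh _ hz, ← e1, d.hg _ hu]
  have a : 0 ≤ 1 - t := sub_nonneg.2 h1
  refine pcol_eq1 (by rw [e2]; exact l) ?_ ?_
  · rw [d.gh _ hz]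
    have x0 := (d.gm x hx).1 k0
    have y0 := (d.gm y hy).1 k0
    simp only [Pi.add_apply, Pi.smul_apply, smul_eq_mul]
    refine ⟨fun u => ⟨hy, ?_⟩, fun u => ⟨d.hm _ hz, ?_⟩⟩
    · have := u.2
      have v : t * g y k0 = 0 := by nlinarith [mul_nonneg a x0, mul_nonneg h0.le y0]
      exact (mul_eq_zero.1 v).resolve_left h0.ne'
    · have v : g x k0 = 0 := by
        by_contra v
        exact c2 (fun w => v w.2) u
      rw [v, u.2]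
      ring
  · rw [d.gh _ hz, s1]
    have x0 := d.rt.nonneg _ (d.gm x hx)
    refine ⟨fun u => ⟨hy, ?_⟩, fun u => ⟨d.hm _ hz, ?_⟩⟩
    · by_contra v
      have w : ¬ 0 < mm (g x) := fun w => v (c3 ⟨hx, w⟩).2
      have := u.2
      rw [d.zero hx w, d.zero hy v] at this
      simp at this
    · nlinarith [mul_nonneg a x0, mul_pos h0 u.2]

theorem le2 {x y : Fin n → ℝ} : pcolL2 B g k0 mm R Φ Ψ x ≤ pcolL2 B g k0 mm R Φ Ψ y ↔
    pcolL1 B g k0 mm R Φ x ≤ pcolL1 B g k0 mm R Φ y ∧ (y ∈ B → Le Ψ x y) := by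
  rw [Prod.le_def]
  refine and_congr_right fun c => ?_
  by_cases e : y ∈ B
  · have := d.inB c e
    simp only [pcolL2, e, this, if_true, sv_le, forall_const]
  · simp [pcolL2, e]

theorem cut1 {α : Set ((Fin k → ℝ) → ℝ)} (hα : Aff α) :
    SE (oc (pcolL1 B g k0 mm R Φ '' X))
      (oc (pcolL2 B g k0 mm R Φ ((fun a => a ∘ g) '' α) '' X)) := by
  refine cut (B := B) (Ψ := (fun a => a ∘ g) '' α) (pcol_fin1 d.aff.1 X)
    (pcol_fin2 d.aff.1 (hα.1.image _) X) (hα.1.image _) (fun x _ y _ c e => d.inB c e) ?_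
    fun x _ y _ => d.le2
  intro x _ y _ hy c t h0 h1
  have hz := d.segm (d.inB c hy) hy h0 h1
  refine ⟨_, d.bX (d.hm _ hz), d.key c hy h0 h1, ?_⟩
  rintro _ ⟨a, ha, rfl⟩
  simp only [Function.comp_apply]
  rw [d.gh _ hz]
  exact hα.seg _ _ t a ha

theorem cut2 {α : Set ((Fin k → ℝ) → ℝ)} (hα : Aff α)
    (haff : AffOn α (stdSimplex ℝ (Fin k)) h) {A : Set ((Fin n → ℝ) → ℝ)} (hA : Aff A)
    (s : Φ ⊆ A) (p1 : ∀ y ∈ B, ∀ x, Le A x y → Le Φ (h (ρ (g x))) (h (ρ (g y))))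
    (p2 : ∀ y ∈ B, ∀ x, Le A x y → Le α (g x) (g y)) :
    SE (oc (pcolL2 B g k0 mm R Φ ((fun a => a ∘ g) '' α) '' X)) (D X A) := by
  have lp : ∀ x y, Le ((fun a => a ∘ g) '' α) x y ↔ Le α (g x) (g y) := fun x y =>
    ⟨fun c a ha => c _ ⟨a, ha, rfl⟩, fun c _ ⟨a, ha, e⟩ => e ▸ c a ha⟩
  refine cut_sv (pcol_fin2 d.aff.1 (hα.1.image _) X) hA.1 ?_ ?_
  · intro x hx y hy c t h0 h1
    obtain ⟨c1, c2⟩ := d.le2.1 c
    by_cases e : y ∈ B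
    · have hxB := d.inB c1 e
      have hz := d.segm hxB e h0 h1
      have c3 := (lp x y).1 (c2 e)
      have l := hα.le_seg c3 h0 h1
      obtain ⟨γ, hγ⟩ := haff _ (d.gm y e)
      have e1 : h ((1 - t) • g x + t • g y) = (1 - t) • x + t • y := by
        rw [hγ _ l.1, aff_map_seg, ← hγ _ c3, ← hγ _ (Le.refl _ _), d.hg x hxB, d.hg y e]
      have e2 := d.key c1 e h0 h1
      have e3 := d.hm _ hz
      have e4 := d.gh _ hz
      rw [e1] at e2 e3 e4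
      refine ⟨_, d.bX e3, ?_, hA.seg x y t⟩
      refine le_antisymm (d.le2.2 ⟨e2.le, fun _ => ?_⟩) (d.le2.2 ⟨e2.ge, fun _ => ?_⟩)
      · rw [lp, e4]
        exact l.1
      · rw [lp, e4]
        exact l.2
    · have hyY : y ∈ Y := ((d.hX y).1 hy).resolve_right e
      obtain ⟨c3, -, c4⟩ := pcol_le1.1 c1
      have hxY : x ∈ Y := d.ofnb hx fun u => e (c4 u).1
      rw [d.rfix hxY, d.rfix hyY] at c3
      have l := d.aff.le_seg c3 h0 h1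
      have hzY := d.adY y hyY _ l.1
      have hzB : (1 - t) • x + t • y ∉ B := fun u => e (d.adB _ u y l.2)
      have e2 : pcolL1 B g k0 mm R Φ ((1 - t) • x + t • y) = pcolL1 B g k0 mm R Φ y :=
        pcol_eq1 (by rw [d.rfix hzY, d.rfix hyY]; exact l)
          ⟨fun u => (hzB u.1).elim, fun u => (e u.1).elim⟩
          ⟨fun u => (hzB u.1).elim, fun u => (e u.1).elim⟩
      refine ⟨_, d.yX hzY, ?_, hA.seg x y t⟩
      exact le_antisymm (d.le2.2 ⟨e2.le, fun u => (e u).elim⟩)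
        (d.le2.2 ⟨e2.ge, fun u => (hzB u).elim⟩)
  · intro x _ y hy c
    have c0 := c.mono s
    refine d.le2.2 ⟨pcol_le1.2 ?_, fun e => (lp x y).2 (p2 y e x c)⟩
    by_cases e : y ∈ B
    · have hxB := d.adB y e x c0
      have c1 := d.co y e x c0
      refine ⟨?_, fun u v => u ⟨hxB, pcol_co_zero c1 v.2⟩, fun u => ⟨e, ?_⟩⟩
      · rw [d.r1 x hxB, d.r1 y e]
        exact p1 y e x c
      · exact (d.rt.pos _).2 fun i hi => pcol_co_pos c1 ((d.rt.pos _).1 u.2 i hi)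
    · have hyY : y ∈ Y := ((d.hX y).1 hy).resolve_right e
      have hxY := d.adY y hyY x c0
      rw [d.rfix hxY, d.rfix hyY]
      exact ⟨c0, fun _ v => e v.1, fun u => (d.nb hxY u).elim⟩

end PcolD

end

theorem se_elem {n : ℕ} {X Y : Set (Fin n → ℝ)} (h : Elem X Y) (hY : ∃ S, Y = cover S)
    {A : Set ((Fin n → ℝ) → ℝ)} (hA : Aff A) (hX : Adapt A X) (hY' : Adapt A Y) :
    SE (D X A) (D Y A) := by
  classical
  obtain ⟨k, J, f, hJ, hJ', hf, e1, e2⟩ := h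
  obtain ⟨k0, hk⟩ : ∃ k0, k0 ∉ J := by
    by_contra c
    exact hJ' (Finset.eq_univ_of_forall fun i => by_contra fun u => c ⟨i, u⟩)
  obtain ⟨mm, ρ, rt⟩ := exists_retr hJ hk
  obtain ⟨g, hg, gf⟩ := hf.inv
  set B := f '' stdSimplex ℝ (Fin k) with hB
  have gm : MapsTo g B (stdSimplex ℝ (Fin k)) := by
    rintro _ ⟨x, hx, rfl⟩
    rwa [gf x hx]
  obtain ⟨Φ, hΦ, ⟨s1, a1⟩, a2, a3⟩ := (((ev_ge hA).and hg.ev_adapt).and
    (hg.ev_affOn.and (ev_det hg.ev_affOn (pcol_aff_co k)))).exists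
  have d : PcolD X Y B f g J k0 mm ρ (fun z => if z ∈ B then f (ρ (g z)) else z) Φ :=
    { rt := rt
      hX := fun z => by rw [e1]; rfl
      gm := gm
      hg := by
        rintro _ ⟨x, hx, rfl⟩
        rw [gf x hx]
      hm := fun x hx => ⟨x, hx, rfl⟩
      gh := gf
      yb := fun z hz => by
        constructor
        · intro c
          have : z ∈ Y ∩ B := ⟨c, hz⟩
          rw [e2] at this
          obtain ⟨x, ⟨hx, u⟩, rfl⟩ := this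
          rwa [gf x hx]
        · intro c
          obtain ⟨x, hx, rfl⟩ := hz
          rw [gf x hx] at c
          have : f x ∈ Y ∩ B := by
            rw [e2]
            exact ⟨x, ⟨hx, c⟩, rfl⟩
          exact this.1
      r1 := fun z hz => if_pos hz
      r2 := fun z hz => if_neg hz
      aff := hΦ
      adB := a1
      adY := hY'.mono s1
      gaff := a2
      co := a3 }
  obtain ⟨α, hα, b1⟩ := hf.ev_affOn.exists
  have ev1 := ev_comp (ev_comp hg.ev_affOn rt.ev gm) hf.ev_affOn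
    fun z hz => (rt.mem _ (gm hz)).1
  obtain ⟨A2, hA2, s2, p1, p2⟩ := ((ev_ge hΦ).and
    ((ev_det ev1 hΦ).and (ev_det hg.ev_affOn hα))).exists
  exact (D_mono hA2 (s1.trans s2) hX).trans <| (d.cut2 hα b1 hA2 s2 p1 p2).symm.trans <|
    (d.cut1 hα).symm.trans <| d.up.trans <| d.down.trans <| d.rel.trans
      (D_mono hΦ s1 hY').symm

end MP35.PL
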