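import Pool.Agent.Lib.MP_35c604_gt.PRealA

/-! TASK CONV: a complex whose vertex links are boundaries of convex polytopes is a manifold. -/

namespace MP35.PL

open Set SC Topology

section
variable {V : Type} [DecidableEq V] {L : SC V} {q : V → Fin 3 → ℝ}

/-- Supporting functionals of the triangles. -/
def PconvSup (L : SC V) (q : V → Fin 3 → ℝ) (Φ : Finset V → (Fin 3 → ℝ) →ₗ[ℝ] ℝ) : Prop :=
  ∀ t ∈ L.faces, t.card = 3 → (∀ u ∈ t, Φ t (q u) = 1) ∧ ∀ u ∈ L.verts, u ∉ t → Φ t (q u) < 1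

theorem pconv_exists (h : Cvx L q) : ∃ Φ, PconvSup L q Φ := by
  have h1 := fun t ht hc => (h.2.2 t ht hc).2.1
  choose! Φ hΦ using h1
  exact ⟨Φ, hΦ⟩

omit [DecidableEq V] in
theorem pconv_map (φ : (Fin 3 → ℝ) →ₗ[ℝ] ℝ) (t : Finset V) (ξ : V → ℝ) :
    φ (∑ u ∈ t, ξ u • q u) = ∑ u ∈ t, ξ u * φ (q u) := by
  simp only [map_sum, map_smul, smul_eq_mul]

theorem PconvSup.le {Φ : Finset V → (Fin 3 → ℝ) →ₗ[ℝ] ℝ} (hΦ : PconvSup L q Φ) {t t' : Finset V}
    (ht : t ∈ L.faces) (hc : t.card = 3) (ht' : t' ∈ L.faces) {u : V} (hu : u ∈ t') :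
    Φ t (q u) ≤ 1 := by
  by_cases k : u ∈ t
  · exact ((hΦ t ht hc).1 u k).le
  · exact ((hΦ t ht hc).2 u (mem_verts_of_mem ht' hu) k).le

omit [DecidableEq V] in
theorem PconvSup.self {Φ : Finset V → (Fin 3 → ℝ) →ₗ[ℝ] ℝ} (hΦ : PconvSup L q Φ) {t : Finset V}
    (ht : t ∈ L.faces) (hc : t.card = 3) (ξ : V → ℝ) :
    Φ t (∑ u ∈ t, ξ u • q u) = ∑ u ∈ t, ξ u := by
  rw [pconv_map]
  exact Finset.sum_congr rfl fun u hu => by rw [(hΦ t ht hc).1 u hu, mul_one]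

theorem PconvSup.sum_le {Φ : Finset V → (Fin 3 → ℝ) →ₗ[ℝ] ℝ} (hΦ : PconvSup L q Φ)
    {t t' : Finset V} (ht : t ∈ L.faces) (hc : t.card = 3) (ht' : t' ∈ L.faces) {η : V → ℝ}
    (h0 : ∀ u, 0 ≤ η u) : Φ t (∑ u ∈ t', η u • q u) ≤ ∑ u ∈ t', η u := by
  rw [pconv_map]
  exact Finset.sum_le_sum fun u hu => mul_le_of_le_one_right (h0 u) (hΦ.le ht hc ht' hu)

/-- Two points of the cones over two triangles with the same image agree. -/
theorem pconv_inj (h : Cvx L q) {t t' : Finset V} (ht : t ∈ L.faces) (hc : t.card = 3)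
    (ht' : t' ∈ L.faces) (hc' : t'.card = 3) {ξ η : V → ℝ} (h0 : ∀ u, 0 ≤ ξ u)
    (h0' : ∀ u, 0 ≤ η u) (e : ∑ u ∈ t, ξ u • q u = ∑ u ∈ t', η u • q u) :
    ∑ u ∈ t, ξ u = ∑ u ∈ t', η u ∧
      ∀ u, (if u ∈ t then ξ u else 0) = if u ∈ t' then η u else 0 := by
  obtain ⟨Φ, hΦ⟩ := pconv_exists h
  have a1 := hΦ.sum_le ht hc ht' h0'
  have a2 := hΦ.sum_le ht' hc' ht h0
  have a3 := hΦ.self ht hc ξ
  have a4 := hΦ.self ht' hc' η
  rw [← e] at a1
  rw [e] at a2 a3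
  rw [e] at a1
  have a5 : ∑ u ∈ t, ξ u = ∑ u ∈ t', η u := by linarith
  refine ⟨a5, ?_⟩
  have a6 : ∑ u ∈ t', η u * (1 - Φ t (q u)) = 0 := by
    rw [pconv_map] at a3
    simp only [mul_sub, mul_one, Finset.sum_sub_distrib]
    linarith
  have a7 := (Finset.sum_eq_zero_iff_of_nonneg fun u hu =>
    mul_nonneg (h0' u) (sub_nonneg.2 (hΦ.le ht hc ht' hu))).1 a6
  have a8 : ∀ u ∈ t', u ∉ t → η u = 0 := fun u hu k =>
    (mul_eq_zero.1 (a7 u hu)).resolve_right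
      (sub_pos.2 ((hΦ t ht hc).2 u (mem_verts_of_mem ht' hu) k)).ne'
  have a9 : ∑ u ∈ t', η u • q u = ∑ u ∈ t, (if u ∈ t' then η u else 0) • q u := by
    have b1 : ∑ u ∈ t, (if u ∈ t' then η u else 0) • q u = ∑ u ∈ t ∩ t', η u • q u := by
      rw [← Finset.filter_mem_eq_inter, Finset.sum_filter]
      exact Finset.sum_congr rfl fun u _ => by split_ifs <;> simp
    rw [b1]
    refine (Finset.sum_subset Finset.inter_subset_right fun u hu k => ?_).symm
    rw [a8 u hu fun k' => k (Finset.mem_inter.2 ⟨k', hu⟩), zero_smul]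
  have a10 := Fintype.linearIndependent_iff.1 (h.2.2 t ht hc).1
    (fun u : t => ξ u - if (u : V) ∈ t' then η u else 0) (by
      rw [Finset.sum_coe_sort t (fun u => (ξ u - if u ∈ t' then η u else 0) • q u)]
      simp only [sub_smul, Finset.sum_sub_distrib]
      rw [← a9, e, sub_self])
  intro u
  by_cases k : u ∈ t
  · rw [if_pos k]
    exact sub_eq_zero.1 (a10 ⟨u, k⟩)
  · rw [if_neg k]
    split_ifs with k'
    · exact (a8 u k' k).symm
    · rfl

/-- Every vector lies in the cone over some triangle. -/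
theorem pconv_onto (h : Cvx L q) {Φ : Finset V → (Fin 3 → ℝ) →ₗ[ℝ] ℝ} (hΦ : PconvSup L q Φ)
    (y : Fin 3 → ℝ) : ∃ t ∈ L.faces, t.card = 3 ∧ ∃ l : V → ℝ, (∀ u, 0 ≤ l u) ∧
      (∀ u, u ∉ t → l u = 0) ∧ ∑ u ∈ t, l u • q u = y := by
  obtain ⟨t, ht, hm⟩ := (L.faces.filter fun t => t.card = 3).exists_max_image (fun t => Φ t y)
    (by obtain ⟨t, ht, hc⟩ := h.1; exact ⟨t, Finset.mem_filter.2 ⟨ht, hc⟩⟩)
  obtain ⟨ht, hc⟩ := Finset.mem_filter.1 ht
  have hs := (h.2.2 t ht hc).1.span_eq_top_of_card_eq_finrank' (by simp [hc])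
  have hy : y ∈ Submodule.span ℝ (range fun u : t => q u) := by rw [hs]; trivial
  obtain ⟨c, hcy⟩ := (Submodule.mem_span_range_iff_exists_fun ℝ).1 hy
  obtain ⟨l, l1, e⟩ : ∃ l : V → ℝ, (∀ u, u ∉ t → l u = 0) ∧ ∑ u ∈ t, l u • q u = y := by
    refine ⟨fun u => if k : u ∈ t then c ⟨u, k⟩ else 0, fun u k => dif_neg k, ?_⟩
    rw [← hcy, ← Finset.sum_coe_sort t]
    exact Finset.sum_congr rfl fun u _ => by simp only [dif_pos u.2]
  refine ⟨t, ht, hc, l, fun a => ?_, l1, e⟩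
  by_contra ha
  have hat : a ∈ t := by
    by_contra k
    exact ha (l1 a k).ge
  obtain ⟨t', ht', hc', h1, h2⟩ := (h.2.2 t ht hc).2.2 a hat
  have b1 := hm t' (Finset.mem_filter.2 ⟨ht', hc'⟩)
  have b2 := (hΦ t' ht' hc').2 a (mem_verts_of_mem ht hat) h2
  rw [← e, hΦ.self ht hc, pconv_map, ← Finset.add_sum_erase _ _ hat,
    ← Finset.add_sum_erase _ _ hat] at b1
  have b3 : ∑ u ∈ t.erase a, l u * Φ t' (q u) = ∑ u ∈ t.erase a, l u :=
    Finset.sum_congr rfl fun u hu => by rw [(hΦ t' ht' hc').1 u (h1 hu), mul_one]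
  rw [b3] at b1
  nlinarith [not_le.1 ha]

/-- Every face through `v` lies in the cone over a triangle of the link. -/
theorem pconv_face {M : SC V} {v : V} (h : Cvx (M.link v) q) {s : Finset V} (hs : s ∈ M.faces)
    (hv : v ∈ s) : ∃ t ∈ (M.link v).faces, t.card = 3 ∧ s ⊆ insert v t := by
  rcases (s.erase v).eq_empty_or_nonempty with k | k
  · obtain ⟨t, ht, hc⟩ := h.1
    refine ⟨t, ht, hc, Finset.subset_insert_iff.2 ?_⟩
    rw [k]
    exact Finset.empty_subset _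
  · obtain ⟨t, ht, h1, hc⟩ := h.2.1 (s.erase v) (mem_link.2
      ⟨M.down s hs _ (Finset.erase_subset _ _) k, Finset.notMem_erase _ _, by
        rwa [Finset.insert_erase hv]⟩)
    exact ⟨t, ht, hc, Finset.subset_insert_iff.2 h1⟩

end

open Classical in
theorem pconv_cover {V : Type} {n : ℕ} (p : V → Fin n → ℝ) {ι : Type} (T : Finset ι)
    (f : ι → Finset V) (y : Fin n → ℝ) :
    y ∈ cover (T.image fun t => (f t).image p) ↔
      ∃ t ∈ T, y ∈ convexHull ℝ (p '' (f t : Set V)) := by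
  unfold cover
  simp only [mem_iUnion, Finset.mem_image, exists_prop]
  constructor
  · rintro ⟨_, ⟨t, ht, rfl⟩, k⟩
    exact ⟨t, ht, by rwa [Finset.coe_image] at k⟩
  · rintro ⟨t, ht, k⟩
    exact ⟨_, ⟨t, ht, rfl⟩, by rwa [Finset.coe_image]⟩

theorem mfd_of_cvx {V : Type} [DecidableEq V] {n : ℕ} {M : SC V} {p : V → Fin n → ℝ}
    {X : Set (Fin n → ℝ)} (hR : Real M p X)
    (hp : ∀ r : V → Fin 3 → ℝ, ∃ G : (Fin n → ℝ) →ₗ[ℝ] (Fin 3 → ℝ), ∀ u ∈ M.verts, G (p u) = r u)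
    (h : ∀ v ∈ M.verts, ∃ q : V → Fin 3 → ℝ, Cvx (M.link v) q) : IsMfd X := by
  intro x hx
  obtain ⟨ξ, hξ, rfl⟩ := hR.surjOn hx
  obtain ⟨ξ0, s0, hs0, ξ1, ξ2⟩ := id hξ
  obtain ⟨v, hv, hvp⟩ : ∃ v ∈ s0, 0 < ξ v := by
    by_contra k
    push Not at k
    have := Finset.sum_nonpos k
    linarith
  obtain ⟨q, hC⟩ := h v (mem_verts_of_mem hs0 hv)
  obtain ⟨Φ, hΦ⟩ := pconv_exists hC
  obtain ⟨G, hG⟩ := hp fun u => if u = v then 0 else q u
  have key : ∀ t ∈ (M.link v).faces, ∀ η : V → ℝ, (∀ u, u ∉ insert v t → η u = 0) →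
      G (lin p η) = ∑ u ∈ t, η u • q u := by
    intro t ht η hη
    obtain ⟨-, k1, k2⟩ := mem_link.1 ht
    rw [lin_eq_sum p hη, map_sum, Finset.sum_insert k1, map_smul,
      hG v (mem_verts_of_mem k2 (Finset.mem_insert_self _ _)), if_pos rfl, smul_zero, zero_add]
    refine Finset.sum_congr rfl fun u hu => ?_
    rw [map_smul, hG u (mem_verts_of_mem k2 (Finset.mem_insert_of_mem hu)),
      if_neg fun e : u = v => k1 (e ▸ hu)]
  obtain ⟨S, hS⟩ : ∃ S, ∀ y, y ∈ cover S ↔ ∃ t ∈ (M.link v).faces.filter fun t => t.card = 3,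
      y ∈ convexHull ℝ (p '' ((insert v t : Finset V) : Set V)) :=
    ⟨_, pconv_cover p _ (fun t => insert v t)⟩
  obtain ⟨S', hS'⟩ : ∃ S', ∀ y, y ∈ cover S' ↔ ∃ t ∈ M.faces.filter fun t => v ∉ t,
      y ∈ convexHull ℝ (p '' (t : Set V)) := ⟨_, pconv_cover p _ (fun t => t)⟩
  have hG0 : Continuous fun y => G y 0 :=
    (continuous_apply 0).comp G.continuous_of_finiteDimensional
  obtain ⟨C, hCl⟩ := (isCompact_cover S).bddBelow_image hG0.continuousOn
  let c : Fin 3 → ℝ := fun _ => -C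
  refine ⟨cover S, fun y hy => ?_, ?_, fun y => G y + c, ⟨?_, S, rfl, fun s _ =>
    ⟨G.toAffineMap + AffineMap.const ℝ _ c, fun y _ => rfl⟩⟩, ?_, ?_⟩
  · obtain ⟨t, ht, k⟩ := (hS y).1 hy
    exact (hR.mem_iff y).2 ⟨_, (mem_link.1 (Finset.mem_filter.1 ht).1).2.2, k⟩
  · refine mem_nhdsWithin_iff_exists_mem_nhds_inter.2 ⟨(cover S')ᶜ,
      (isCompact_cover S').isClosed.isOpen_compl.mem_nhds fun k => ?_, ?_⟩
    · obtain ⟨t, ht, k⟩ := (hS' _).1 k
      obtain ⟨ht, hvt⟩ := Finset.mem_filter.1 ht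
      obtain ⟨η, k0, k1, k2, k3⟩ := (mem_hull_iff p t _).1 k
      have e := hR.injOn (show η ∈ M.real from ⟨k0, t, ht, k1, k2⟩) hξ k3
      rw [← e, k1 v hvt] at hvp
      exact lt_irrefl _ hvp
    · rintro y ⟨k, hy⟩
      obtain ⟨s, hs, hys⟩ := (hR.mem_iff y).1 hy
      by_cases hvs : v ∈ s
      · obtain ⟨t, ht, hc, hst⟩ := pconv_face hC hs hvs
        exact (hS y).2 ⟨t, Finset.mem_filter.2 ⟨ht, hc⟩,
          convexHull_mono (image_mono (Finset.coe_subset.2 hst)) hys⟩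
      · exact absurd ((hS' y).2 ⟨s, Finset.mem_filter.2 ⟨hs, hvs⟩, hys⟩) k
  · intro y hy z hz e
    obtain ⟨t, ht, k⟩ := (hS y).1 hy
    obtain ⟨t', ht', k'⟩ := (hS z).1 hz
    obtain ⟨ht, hc⟩ := Finset.mem_filter.1 ht
    obtain ⟨ht', hc'⟩ := Finset.mem_filter.1 ht'
    obtain ⟨η, k0, k1, k2, rfl⟩ := (mem_hull_iff p _ _).1 k
    obtain ⟨η', k0', k1', k2', rfl⟩ := (mem_hull_iff p _ _).1 k'
    have e1 : G (lin p η) = G (lin p η') := add_right_cancel e
    rw [key t ht η k1, key t' ht' η' k1'] at e1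
    obtain ⟨a1, a2⟩ := pconv_inj hC ht hc ht' hc' k0 k0' e1
    rw [Finset.sum_insert (mem_link.1 ht).2.1] at k2
    rw [Finset.sum_insert (mem_link.1 ht').2.1] at k2'
    congr 1
    funext u
    by_cases hu : u = v
    · rw [hu]; linarith
    · have b1 : η u = if u ∈ t then η u else 0 := by
        split_ifs with k
        · rfl
        · exact k1 u fun k3 => (Finset.mem_insert.1 k3).elim hu k
      have b2 : η' u = if u ∈ t' then η' u else 0 := by
        split_ifs with k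
        · rfl
        · exact k1' u fun k3 => (Finset.mem_insert.1 k3).elim hu k
      rw [b1, b2, a2]
  · rintro _ ⟨y, hy, rfl⟩
    have b1 : C ≤ G y 0 := hCl ⟨y, hy, rfl⟩
    change 0 ≤ G y 0 + -C
    linarith
  · have hW : IsOpen (⋂ t ∈ (M.link v).faces.filter fun t => t.card = 3,
        {y : Fin 3 → ℝ | Φ t (y - c) < 1}) :=
      isOpen_biInter_finset fun t _ => isOpen_lt
        ((Φ t).continuous_of_finiteDimensional.comp (continuous_id.sub continuous_const))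
        continuous_const
    refine mem_nhdsWithin_of_mem_nhds (Filter.mem_of_superset (hW.mem_nhds ?_) fun y hy => ?_)
    · refine mem_iInter₂.2 fun t ht => ?_
      obtain ⟨ht, hc⟩ := Finset.mem_filter.1 ht
      obtain ⟨t0, ht0, -, hst⟩ := pconv_face hC hs0 hv
      have b1 : ∑ u ∈ insert v t0, ξ u = 1 := by
        rw [← ξ2]
        exact (Finset.sum_subset hst fun u _ k => ξ1 u k).symm
      rw [Finset.sum_insert (mem_link.1 ht0).2.1] at b1
      have b2 := hΦ.sum_le ht hc ht0 ξ0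
      change Φ t (G (lin p ξ) + c - c) < 1
      rw [add_sub_cancel_right, key t0 ht0 ξ fun u k => ξ1 u fun k' => k (hst k')]
      linarith
    · obtain ⟨t, ht, hc, l, l0, l1, l2⟩ := pconv_onto hC hΦ (y - c)
      have b1 : Φ t (y - c) < 1 := mem_iInter₂.1 hy t (Finset.mem_filter.2 ⟨ht, hc⟩)
      rw [← l2, hΦ.self ht hc] at b1
      have hvt := (mem_link.1 ht).2.1
      have b2 : ∀ u ∈ t, Function.update l v (1 - ∑ u ∈ t, l u) u = l u := fun u hu =>
        Function.update_of_ne (fun e : u = v => hvt (e ▸ hu)) _ _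
      have b3 : ∀ u, u ∉ insert v t → Function.update l v (1 - ∑ u ∈ t, l u) u = 0 := by
        intro u hu
        rw [Finset.mem_insert, not_or] at hu
        rw [Function.update_of_ne hu.1, l1 u hu.2]
      refine ⟨lin p (Function.update l v (1 - ∑ u ∈ t, l u)), (hS _).2 ⟨t,
        Finset.mem_filter.2 ⟨ht, hc⟩, (mem_hull_iff p _ _).2 ⟨_, fun u => ?_, b3, ?_, rfl⟩⟩, ?_⟩
      · by_cases hu : u = v
        · rw [hu, Function.update_self]; linarith
        · rw [Function.update_of_ne hu]; exact l0 u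
      · rw [Finset.sum_insert hvt, Function.update_self, Finset.sum_congr rfl b2]
        ring
      · change G _ + c = y
        rw [key t ht _ b3, Finset.sum_congr rfl fun u hu => by rw [b2 u hu], l2, sub_add_cancel]

end MP35.PL
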