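import Pool.Agent.Lib.MP_35c604_gt.PQuilB

/-! TASK CUT: cutting the cells inside `B` along the zero sets of finitely many functions. -/

namespace MP35.PL

open Set SC

theorem pcut_le_one {α : Type} {ψ : α → ℝ} {x y : α} :
    Le {ψ} x y ↔ (0 < ψ x → 0 < ψ y) ∧ (ψ x < 0 → ψ y < 0) :=
  ⟨fun h => h ψ rfl, fun h _ k => by rw [mem_singleton_iff.1 k]; exact h⟩

theorem pcut_le_insert {α : Type} {ψ : α → ℝ} {Ψ : Set (α → ℝ)} {x y : α} :
    Le (insert ψ Ψ) x y ↔ Le Ψ x y ∧ Le {ψ} x y :=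
  ⟨fun h => ⟨h.mono (subset_insert _ _), h.mono (singleton_subset_iff.2 (mem_insert _ _))⟩,
    fun h φ k => (mem_insert_iff.1 k).elim (fun e => h.2 φ e) (h.1 φ)⟩

/-- Cutting along one function. -/
theorem pcut_one {α P Q : Type} [PartialOrder P] [PartialOrder Q] [Nonempty P]
    {X B : Set α} {lam : α → P} {mu : α → Q} {ψ : α → ℝ} (hP : (lam '' X).Finite)
    (hQ : (mu '' X).Finite)
    (hB : ∀ x ∈ X, ∀ y ∈ X, lam x ≤ lam y → y ∈ B → x ∈ B)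
    (seg : ∀ x ∈ X, ∀ y ∈ X, y ∈ B → lam x ≤ lam y → ∀ t : ℝ, 0 < t → t ≤ 1 →
      ∃ z ∈ X, lam z = lam y ∧ ψ z = (1 - t) * ψ x + t * ψ y)
    (hmu : ∀ x ∈ X, ∀ y ∈ X, mu x ≤ mu y ↔ lam x ≤ lam y ∧ (y ∈ B → Le {ψ} x y)) :
    SE (oc (lam '' X)) (oc (mu '' X)) := by
  classical
  obtain ⟨π, hπ⟩ : ∃ π : Q → P, ∀ x ∈ X, π (mu x) = lam x := by
    refine ⟨fun p => if h : p ∈ mu '' X then lam h.choose else Classical.arbitrary P,
      fun x hx => ?_⟩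
    have h : mu x ∈ mu '' X := mem_image_of_mem _ hx
    obtain ⟨h1, h2⟩ := h.choose_spec
    simp only [dif_pos h]
    exact le_antisymm ((hmu _ h1 _ hx).1 h2.le).1 ((hmu _ hx _ h1).1 h2.ge).1
  refine (oc_quillen hQ hP π ?_ ?_ ?_).symm
  · rintro _ ⟨x, hx, rfl⟩
    exact ⟨x, hx, (hπ x hx).symm⟩
  · rintro _ ⟨x, hx, rfl⟩ _ ⟨y, hy, rfl⟩ h
    rw [hπ x hx, hπ y hy]
    exact ((hmu x hx y hy).1 h).1
  rintro _ ⟨y, hy, rfl⟩
  by_cases hz : y ∈ B ∧ ∃ z ∈ X, lam z = lam y ∧ ψ z = 0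
  · obtain ⟨hyB, z0, hz0, e0, hψ0⟩ := hz
    have hw : ∀ x, ∃ z, x ∈ X → lam x ≤ lam y → z ∈ X ∧ lam z = lam y ∧ ψ z = ψ x / 2 := by
      intro x
      by_cases hx : x ∈ X ∧ lam x ≤ lam y
      · obtain ⟨z, k1, k2, k3⟩ := seg x hx.1 z0 hz0 (hB z0 hz0 y hy e0.le hyB) (e0 ▸ hx.2)
          (1 / 2) (by norm_num) (by norm_num)
        exact ⟨z, fun _ _ => ⟨k1, k2.trans e0, by rw [k3, hψ0]; ring⟩⟩
      · exact ⟨x, fun k1 k2 => absurd ⟨k1, k2⟩ hx⟩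
    choose w hw using hw
    have hup : ∀ x ∈ X, lam x ≤ lam y → Le {ψ} x (w x) ∧ Le {ψ} (w x) x := by
      intro x hx hc
      rw [pcut_le_one, pcut_le_one, (hw x hx hc).2.2]
      refine ⟨⟨fun k => ?_, fun k => ?_⟩, fun k => ?_, fun k => ?_⟩ <;> linarith
    have key : ∀ x ∈ X, ∀ x' ∈ X, lam x' ≤ lam y → mu x ≤ mu x' → mu (w x) ≤ mu (w x') := by
      intro x hx x' hx' hc h
      obtain ⟨k1, k2⟩ := (hmu x hx x' hx').1 h
      have hc' := k1.trans hc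
      refine (hmu _ (hw x hx hc').1 _ (hw x' hx' hc).1).2
        ⟨((hw x hx hc').2.1.trans (hw x' hx' hc).2.1.symm).le, fun _ => ?_⟩
      exact ((hup x hx hc').2.trans (k2 (hB x' hx' y hy hc hyB))).trans (hup x' hx' hc).1
    obtain ⟨r, hr⟩ : ∃ r : Q → Q, ∀ x ∈ X, lam x ≤ lam y → r (mu x) = mu (w x) := by
      refine ⟨fun p => if h : p ∈ mu '' X then mu (w h.choose) else p, fun x hx hc => ?_⟩
      have h : mu x ∈ mu '' X := mem_image_of_mem _ hx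
      obtain ⟨h1, h2⟩ := h.choose_spec
      simp only [dif_pos h]
      exact le_antisymm (key _ h1 _ hx hc h2.le)
        (key _ hx _ h1 (((hmu _ h1 _ hx).1 h2.le).1.trans hc) h2.ge)
    have hfix : ∀ x ∈ X, lam x = lam y → mu (w x) = mu x := by
      intro x hx hc
      obtain ⟨k1, k2, -⟩ := hw x hx hc.le
      exact le_antisymm ((hmu _ k1 _ hx).2 ⟨(k2.trans hc.symm).le, fun _ => (hup x hx hc.le).2⟩)
        ((hmu _ hx _ k1).2 ⟨(k2.trans hc.symm).ge, fun _ => (hup x hx hc.le).1⟩)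
    refine ⟨r, mu z0, mem_image_of_mem _ hz0, by rw [hπ z0 hz0, e0], ?_, ?_, ?_⟩
    · rw [hr z0 hz0 e0.le, hfix z0 hz0 e0]
    · rintro _ ⟨x, hx, rfl⟩ hc
      rw [hπ x hx] at hc
      obtain ⟨k1, k2, -⟩ := hw x hx hc
      rw [hr x hx hc]
      refine ⟨mem_image_of_mem _ k1, by rw [hπ _ k1, k2],
        (hmu _ hx _ k1).2 ⟨k2 ▸ hc, fun _ => (hup x hx hc).1⟩, ?_,
        (hmu _ hz0 _ k1).2 ⟨(e0.trans k2.symm).le, fun _ => ?_⟩⟩
      · rw [hr _ k1 k2.le, hfix _ k1 k2]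
      · rw [pcut_le_one, hψ0]
        exact ⟨fun k => absurd k (lt_irrefl _), fun k => absurd k (lt_irrefl _)⟩
    · rintro _ ⟨x, hx, rfl⟩ _ ⟨x', hx', rfl⟩ hc h
      rw [hπ x' hx'] at hc
      rw [hr x hx (((hmu x hx x' hx').1 h).1.trans hc), hr x' hx' hc]
      exact key x hx x' hx' hc h
  · have top : ∀ x ∈ X, lam x ≤ lam y → mu x ≤ mu y := by
      intro x hx hc
      refine (hmu x hx y hy).2 ⟨hc, fun hyB => ?_⟩
      have h0 : ψ y ≠ 0 := fun e => hz ⟨hyB, y, hy, rfl, e⟩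
      have hs : ¬ψ x * ψ y < 0 := by
        intro hlt
        have hd : ψ x - ψ y ≠ 0 := fun e => by
          rw [sub_eq_zero.1 e] at hlt
          exact absurd hlt (not_lt.2 (mul_self_nonneg _))
        have hx0 : ψ x ≠ 0 := fun e => by
          rw [e, zero_mul] at hlt
          exact absurd hlt (lt_irrefl _)
        have e1 : ψ x / (ψ x - ψ y) = ψ x * ψ x / (ψ x * ψ x - ψ x * ψ y) := by
          rw [← mul_sub, mul_div_mul_left _ _ hx0]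
        have hp : 0 < ψ x * ψ x := mul_self_pos.2 hx0
        obtain ⟨z, k1, k2, k3⟩ := seg x hx y hy hyB hc (ψ x / (ψ x - ψ y))
          (by rw [e1]; exact div_pos hp (by linarith))
          (by rw [e1, div_le_one (by linarith)]; linarith)
        exact hz ⟨hyB, z, k1, k2, by rw [k3]; field_simp; ring⟩
      rw [pcut_le_one]
      refine ⟨fun k => ?_, fun k => ?_⟩
      · exact lt_of_le_of_ne (not_lt.1 fun k' => hs (mul_neg_of_pos_of_neg k k')) h0.symm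
      · exact lt_of_le_of_ne (not_lt.1 fun k' => hs (mul_neg_of_neg_of_pos k k')) h0
    refine ⟨fun _ => mu y, mu y, mem_image_of_mem _ hy, (hπ y hy).le, rfl, ?_,
      fun _ _ _ _ _ _ => le_rfl⟩
    rintro _ ⟨x, hx, rfl⟩ hc
    rw [hπ x hx] at hc
    exact ⟨mem_image_of_mem _ hy, (hπ y hy).le, top x hx hc, rfl, le_rfl⟩

open Classical in
/-- The refined labels. -/
noncomputable def pcut_nu {α P : Type} (B : Set α) (lam : α → P) (Ψ : Set (α → ℝ)) (x : α) :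
    P × Lab α := (lam x, if x ∈ B then sv Ψ x else ⊤)

theorem pcut_nu_le {α P : Type} [PartialOrder P] {X B : Set α} {lam : α → P}
    (hB : ∀ x ∈ X, ∀ y ∈ X, lam x ≤ lam y → y ∈ B → x ∈ B) (Ψ : Set (α → ℝ)) :
    ∀ x ∈ X, ∀ y ∈ X, pcut_nu B lam Ψ x ≤ pcut_nu B lam Ψ y ↔
      lam x ≤ lam y ∧ (y ∈ B → Le Ψ x y) := by
  intro x hx y hy
  rw [Prod.le_def]
  refine and_congr_right fun (h : lam x ≤ lam y) => ?_
  by_cases k : y ∈ B
  · simp only [pcut_nu, if_pos k, if_pos (hB x hx y hy h k), sv_le]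
    exact ⟨fun a _ => a, fun a => a k⟩
  · simp only [pcut_nu, if_neg k, le_top]
    exact ⟨fun _ a => absurd a k, fun _ => trivial⟩

theorem pcut_nu_finite {α P : Type} {X : Set α} (B : Set α) {lam : α → P}
    (hP : (lam '' X).Finite) {Ψ : Set (α → ℝ)} (hΨ : Ψ.Finite) :
    (pcut_nu B lam Ψ '' X).Finite := by
  refine (hP.prod ((sv_finite hΨ X).insert ⊤)).subset ?_
  rintro _ ⟨x, hx, rfl⟩
  refine ⟨mem_image_of_mem _ hx, ?_⟩
  by_cases k : x ∈ B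
  · simp only [pcut_nu, if_pos k]
    exact mem_insert_of_mem _ (mem_image_of_mem _ hx)
  · simp only [pcut_nu, if_neg k]
    exact mem_insert _ _

theorem pcut_ind {α P : Type} [PartialOrder P] [Nonempty P]
    {X B : Set α} {lam : α → P} {Ψ : Set (α → ℝ)} (hP : (lam '' X).Finite) (hΨ : Ψ.Finite)
    (hB : ∀ x ∈ X, ∀ y ∈ X, lam x ≤ lam y → y ∈ B → x ∈ B)
    (seg : ∀ x ∈ X, ∀ y ∈ X, y ∈ B → lam x ≤ lam y → ∀ t : ℝ, 0 < t → t ≤ 1 →
      ∃ z ∈ X, lam z = lam y ∧ ∀ ψ ∈ Ψ, ψ z = (1 - t) * ψ x + t * ψ y) :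
    SE (oc (lam '' X)) (oc (pcut_nu B lam Ψ '' X)) := by
  induction Ψ, hΨ using Set.Finite.induction_on with
  | empty =>
    refine oc_relabel id (image_id X) hP (pcut_nu_finite B hP finite_empty) fun x hx y hy => ?_
    exact ((pcut_nu_le hB ∅ x hx y hy).trans ⟨fun k => k.1, fun k => ⟨k, fun _ _ e => e.elim⟩⟩).symm
  | @insert ψ Ψ _ hΨ ih =>
    refine (ih fun x hx y hy k h t h0 h1 => ?_).trans
      (pcut_one (B := B) (ψ := ψ) (pcut_nu_finite B hP hΨ) (pcut_nu_finite B hP (hΨ.insert ψ))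
        (fun x hx y hy h => hB x hx y hy h.1) (fun x hx y hy k h t h0 h1 => ?_)
        fun x hx y hy => ?_)
    · obtain ⟨z, k1, k2, k3⟩ := seg x hx y hy k h t h0 h1
      exact ⟨z, k1, k2, fun φ e => k3 φ (mem_insert_of_mem _ e)⟩
    · obtain ⟨a1, a2⟩ := (pcut_nu_le hB Ψ x hx y hy).1 h
      obtain ⟨z, k1, k2, k3⟩ := seg x hx y hy k a1 t h0 h1
      have := (a2 k).seg h0 h1 fun φ e => k3 φ (mem_insert_of_mem _ e)
      exact ⟨z, k1, le_antisymm ((pcut_nu_le hB Ψ z k1 y hy).2 ⟨k2.le, fun _ => this.1⟩)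
        ((pcut_nu_le hB Ψ y hy z k1).2 ⟨k2.ge, fun _ => this.2⟩), k3 ψ (mem_insert _ _)⟩
    · rw [pcut_nu_le hB _ x hx y hy, pcut_nu_le hB _ x hx y hy, pcut_le_insert, imp_and,
        and_assoc]

theorem cut {α P Q : Type} [PartialOrder P] [PartialOrder Q] [Nonempty P] [Nonempty Q]
    {X B : Set α} {lam : α → P} {mu : α → Q} {Ψ : Set (α → ℝ)} (hP : (lam '' X).Finite)
    (hQ : (mu '' X).Finite) (hΨ : Ψ.Finite)
    (hB : ∀ x ∈ X, ∀ y ∈ X, lam x ≤ lam y → y ∈ B → x ∈ B)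
    (seg : ∀ x ∈ X, ∀ y ∈ X, y ∈ B → lam x ≤ lam y → ∀ t : ℝ, 0 < t → t ≤ 1 →
      ∃ z ∈ X, lam z = lam y ∧ ∀ ψ ∈ Ψ, ψ z = (1 - t) * ψ x + t * ψ y)
    (hmu : ∀ x ∈ X, ∀ y ∈ X, mu x ≤ mu y ↔ lam x ≤ lam y ∧ (y ∈ B → Le Ψ x y)) :
    SE (oc (lam '' X)) (oc (mu '' X)) :=
  (pcut_ind hP hΨ hB seg).trans (oc_relabel id (image_id X) (pcut_nu_finite B hP hΨ) hQ
    fun x hx y hy => (pcut_nu_le hB Ψ x hx y hy).trans (hmu x hx y hy).symm)

/-- The case in which all cells are cut and the sign vector determines the old label. -/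
theorem cut_sv {α P : Type} [PartialOrder P] [Nonempty P] {X : Set α} {lam : α → P}
    {Ψ : Set (α → ℝ)} (hP : (lam '' X).Finite) (hΨ : Ψ.Finite)
    (seg : ∀ x ∈ X, ∀ y ∈ X, lam x ≤ lam y → ∀ t : ℝ, 0 < t → t ≤ 1 →
      ∃ z ∈ X, lam z = lam y ∧ ∀ ψ ∈ Ψ, ψ z = (1 - t) * ψ x + t * ψ y)
    (det : ∀ x ∈ X, ∀ y ∈ X, Le Ψ x y → lam x ≤ lam y) : SE (oc (lam '' X)) (D X Ψ) :=
  cut (B := univ) hP (sv_finite hΨ X) hΨ (fun _ _ _ _ _ _ => trivial)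
    (fun x hx y hy _ => seg x hx y hy) fun x hx y hy =>
    sv_le.trans ⟨fun k => ⟨det x hx y hy k, fun _ => k⟩, fun k => k.2 trivial⟩

theorem D_mono {E : Type} [AddCommGroup E] [Module ℝ E] {X : Set E} {A A' : Set (E → ℝ)}
    (hA' : Aff A') (s : A ⊆ A') (hX : Adapt A X) : SE (D X A) (D X A') := by
  have hA : Aff A := ⟨hA'.1.subset s, fun a k => hA'.2 a (s k)⟩
  refine cut_sv (sv_finite hA.1 X) hA'.1 (fun x _ y hy k t h0 h1 => ?_)
    fun x _ y _ k => sv_le.2 (k.mono s)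
  have := hA.le_seg (sv_le.1 k) h0 h1
  exact ⟨_, hX y hy _ this.1, sv_eq.2 this, hA'.seg x y t⟩

theorem D_indep {E : Type} [AddCommGroup E] [Module ℝ E] {X : Set E} {A A' : Set (E → ℝ)}
    (hA : Aff A) (hX : Adapt A X) (hA' : Aff A') (hX' : Adapt A' X) : SE (D X A) (D X A') :=
  (D_mono (hA.union hA') subset_union_left hX).trans
    (D_mono (hA.union hA') subset_union_right hX').symm

end MP35.PL
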