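import Pool.Agent.Lib.MP_35c604_gt.Main
import Pool.Agent.Lib.MP_35c604_gt.PBase

/-! The simplicial example with the explicit manifold and the explicit invariant. -/

namespace MP35

open SC

theorem exists_data2 (M : SC ℕ)
    (hT : ∀ l : List ℕ, l ≠ [] → inTet tets l = true → l.toFinset ∈ M.faces) :
    ∃ (B Kp Lp K1 : SC ℕ) (ψ : ℕ → ℕ → F2) (a c a' c' : Fin 2 → ℕ),
    Stage 0 ψ B.faces Finset.univ ∧ B.IsCoc ψ ∧
    TwoTri B 0 a c ∧ IsPlus B Lp 0 a c ∧ (∀ i, ψ 0 (a i) * ψ (a i) (c i) * ψ (c i) 0 = relL i) ∧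
    TwoTri B 0 a' c' ∧ IsPlus B Kp 0 a' c' ∧
    (∀ i, ψ 0 (a' i) * ψ (a' i) (c' i) * ψ (c' i) 0 = relK i) ∧
    Collapse Kp K1 ∧ K1.faces ⊆ M.faces := by
  let P : SC ℕ := ⟨{{0}}, by simp, fun s hs t hts ht => by
    rw [Finset.mem_singleton] at hs ⊢
    exact (Finset.Nonempty.subset_singleton_iff ht).1 (hs ▸ hts)⟩
  have hP : Rep P.faces [2 ^ 0] := fun s => by
    rw [List.mem_singleton, ← code1 0, code_inj.eq_iff]
    exact Finset.mem_singleton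
  have cP : P.IsCoc (psi tab) := fun x y z h =>
    coc_pair tab (p := 0) (q := 0) (by simpa [P] using h)
  obtain ⟨B0, a1, a2, a3, a4⟩ := chkS_sound tab stA P _ ∅ hP Stage.base cP d_chkA
  rw [d_JA] at a3
  obtain ⟨B, b1, b2, b3, b4⟩ := chkS_sound tab stB B0 _ _ a2 a3 a4 d_chkB
  rw [d_JB] at b3
  obtain ⟨-, K1, k1, k2⟩ := okT_sound a2 d_TA
  obtain ⟨Kp, p1, p2⟩ := chkX_sound stB K1 _ k2 d_X
  obtain ⟨l1, Lp, l2, -⟩ := okT_sound b2 d_TL
  refine ⟨B, Kp, Lp, K1, psi tab, _, _, _, _, b3, b4, l1, l2,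
    Fin.forall_fin_two.2 ⟨d_wL0, d_wL1⟩, (okT_sound b2 d_TB).1, ?_,
    Fin.forall_fin_two.2 ⟨d_wK0, d_wK1⟩, p2, ?_⟩
  · unfold IsPlus at k1 ⊢
    rw [p1, k1, runS_insert, runS_insert, b1]
  · unfold IsPlus at k1
    rw [k1, a1, Finset.insert_subset_iff, Finset.insert_subset_iff]
    have t1 := hT [0, 12, 15] (List.cons_ne_nil _ _) d_s1
    have t2 := hT [0, 41, 2] (List.cons_ne_nil _ _) d_s2
    have t0 := hT [0] (List.cons_ne_nil _ _) d_s0
    rw [show List.toFinset [0, 12, 15] = {0, 12, 15} by decide] at t1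
    rw [show List.toFinset [0, 41, 2] = {0, 41, 2} by decide] at t2
    rw [show List.toFinset [0] = {0} by decide] at t0
    refine ⟨t1, t2, runS_subset _ _
      (fun x hx => hT _ (topS_ne x) (List.all_eq_true.1 d_sub x hx)) _ ?_⟩
    exact Finset.singleton_subset_iff.2 t0


theorem main2 (M : SC ℕ)
    (hM : ∀ l : List ℕ, l ≠ [] → inTet tets l = true → l.toFinset ∈ M.faces) :
    ∃ K L K1 : SC ℕ, K.Connected ∧ K.DimLE 2 ∧ L.Connected ∧ L.DimLE 2 ∧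
    Nonempty (ContinuousMap.HomotopyEquiv K.real L.real) ∧ Collapse K K1 ∧
    K1.faces ⊆ M.faces ∧ ∃ J : PL.Invt, J.P L ∧
      ∀ (V : Type) [DecidableEq V] (L' : SC V), J.P L' → L'.DimLE 2 → ¬ L'.Embeds := by
  obtain ⟨B, Kp, Lp, K1, ψ, a, c, a', c', hS, hψ, hT, hL, hw, hT', hK, hR, hcol, hsub⟩ :=
    exists_data2 M hM
  obtain ⟨T, _, _, s, hs, hI, hns⟩ := exists_ring
  obtain ⟨hBc, hBd, hb⟩ := hS.connected
  obtain ⟨k1, k2⟩ := plus_two ⟨hBc, hBd⟩ hT' hK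
  obtain ⟨l1, l2⟩ := plus_two ⟨hBc, hBd⟩ hT hL
  have hP : PP (rho (s ^ 4) hs) Lp :=
    PP_of_stage hI.det (by rw [Amat_det]; exact hns) hS hψ hT hL hw
  refine ⟨Kp, Lp, K1, k1, k2, l1, l2, ?_, hcol, hsub,
    ⟨fun {V} K => @PP V (Classical.decEq V) T _ (rho (s ^ 4) hs) K, fun {V W} i f K hf => ?_,
      fun {V} i K K' h => ?_⟩, ?_, fun V i L' h1 h2 => ?_⟩
  · obtain ⟨e, he, hC⟩ := exists_cells hBc hb
    obtain ⟨θ, hθ⟩ := hS.theta hψ _ e he
    obtain ⟨C, hC1⟩ := hC Kp a' c' hT' hK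
    obtain ⟨C', hC2⟩ := hC Lp a c hT hL
    obtain ⟨Bm, hB1, hB2⟩ := Amat_inv
    choose W hW1 hW2 using exists_W
    refine cell_equiv C C' relK relL
      (crossedEq_of qq qq_surj relK relL ker_qq (ker_qq.trans ncl_relL.symm) Amat Bm hB1 hB2 W
        hW1 hW2) θ (fun i => ?_) (fun i => ?_)
    · rw [hC1, ← hR, hθ _ _ (hT'.e1 i) (hT'.e2 i) (hT'.e3 i)]
    · rw [hC2, ← hw, hθ _ _ (hT.e1 i) (hT.e2 i) (hT.e3 i)]
  · obtain rfl : i = Classical.decEq W := Subsingleton.elim _ _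
    exact @PP_map V W (Classical.decEq V) (Classical.decEq W) T _ _ _ f K hf
  · obtain rfl : i = Classical.decEq V := Subsingleton.elim _ _
    exact @PP_expand V (Classical.decEq V) T _ _ _ hI.det K K' h
  · have e : (instDecidableEqNat : DecidableEq ℕ) = Classical.decEq ℕ := Subsingleton.elim _ _
    show @PP ℕ (Classical.decEq ℕ) T _ (rho (s ^ 4) hs) Lp
    rw [← e]
    exact hP
  · obtain rfl : i = Classical.decEq V := Subsingleton.elim _ _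
    exact @not_embeds _ _ _ _ hI
      (fun v a c h => dplus_triv (s ^ 4) (s ^ 2) hs (by rw [← pow_mul]) v a c h) V
      (Classical.decEq V) L' h1 h2

end MP35
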