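import Pool.Agent.Lib.MP_35c604_gt.PCut
import Pool.Agent.Lib.MP_35c604_gt.PArr

/-! TASK HOM: the inverse of a piecewise linear embedding; invariance under homeomorphisms. -/

namespace MP35.PL

open Set SC

section
variable {E F : Type} [AddCommGroup E] [Module ℝ E] [AddCommGroup F] [Module ℝ F]

theorem phom_sum {ι : Type} (s : Finset ι) (w : ι → ℝ) (p : ι → E) (g : E →ᵃ[ℝ] F)
    (hw : ∑ i ∈ s, w i = 1) : g (∑ i ∈ s, w i • p i) = ∑ i ∈ s, w i • g (p i) := by
  rw [← Finset.affineCombination_eq_linear_combination s p w hw, Finset.map_affineCombination s p w hw,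
    Finset.affineCombination_eq_linear_combination s _ w hw]
  rfl

/-- An affine map which is injective on the hull of an affinely independent family maps it to an
affinely independent family. -/
theorem affInd_map {ι : Type} [Finite ι] {p : ι → E} (hp : AffineIndependent ℝ p)
    (g : E →ᵃ[ℝ] F) (hg : InjOn g (convexHull ℝ (range p))) : AffineIndependent ℝ (g ∘ p) := by
  rw [affineIndependent_iff] at hp ⊢
  intro s w h1 h2
  have hs : ∀ i, w i = max (w i) 0 - max (-w i) 0 := fun i => by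
    rcases le_total (w i) 0 with k | k
    · rw [max_eq_right k, max_eq_left (neg_nonneg.2 k)]; ring
    · rw [max_eq_left k, max_eq_right (neg_nonpos.2 k)]; ring
  have e : ∑ i ∈ s, max (w i) 0 = ∑ i ∈ s, max (-w i) 0 := by
    rw [← sub_eq_zero, ← Finset.sum_sub_distrib]
    exact (Finset.sum_congr rfl fun i _ => (hs i).symm).trans h1
  by_cases z : ∑ i ∈ s, max (w i) 0 = 0
  · intro i hi
    have a := (Finset.sum_eq_zero_iff_of_nonneg fun i _ => le_max_right _ _).1 z i hi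
    have b := (Finset.sum_eq_zero_iff_of_nonneg fun i _ => le_max_right _ _).1 (e ▸ z) i hi
    rw [hs i, a, b, sub_zero]
  set μ := ∑ i ∈ s, max (w i) 0 with hμ
  have μ0 : 0 ≤ μ := Finset.sum_nonneg fun i _ => le_max_right _ _
  have s1 : ∑ i ∈ s, max (w i) 0 / μ = 1 := by rw [← Finset.sum_div, div_self z]
  have s2 : ∑ i ∈ s, max (-w i) 0 / μ = 1 := by rw [← Finset.sum_div, ← e, div_self z]
  have m : ∀ u : ι → ℝ, ∑ i ∈ s, max (u i) 0 / μ = 1 →
      ∑ i ∈ s, (max (u i) 0 / μ) • p i ∈ convexHull ℝ (range p) := fun u hu =>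
    (convex_convexHull ℝ _).sum_mem (fun i _ => div_nonneg (le_max_right _ _) μ0) hu
      fun i _ => subset_convexHull ℝ _ (mem_range_self i)
  have d : ∀ {G : Type} [AddCommGroup G] [Module ℝ G] (r : ι → G),
      ∑ i ∈ s, (max (w i) 0 / μ) • r i - ∑ i ∈ s, (max (-w i) 0 / μ) • r i =
        μ⁻¹ • ∑ i ∈ s, w i • r i := fun r => by
    rw [← Finset.sum_sub_distrib, Finset.smul_sum]
    refine Finset.sum_congr rfl fun i _ => ?_
    rw [← sub_smul, smul_smul, ← sub_div, ← hs i, div_eq_inv_mul]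
  have q := hg (m w s1) (m (fun i => -w i) s2) (by
    rw [phom_sum s _ p g s1, phom_sum s _ p g s2, ← sub_eq_zero]
    exact (d (g ∘ p)).trans (by rw [h2, smul_zero]))
  refine hp s w h1 ?_
  have := d p
  rw [q, sub_self] at this
  exact (smul_eq_zero.1 this.symm).resolve_left (inv_ne_zero z)

/-- Affine maps with prescribed values on an affinely independent family. -/
theorem exists_aff {ι : Type} {p : ι → E} (hp : AffineIndependent ℝ p) (r : ι → F) :
    ∃ g : E →ᵃ[ℝ] F, ∀ i, g (p i) = r i := by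
  classical
  rcases isEmpty_or_nonempty ι with _ | ⟨⟨i0⟩⟩
  · exact ⟨AffineMap.const ℝ E 0, fun i => isEmptyElim i⟩
  rw [affineIndependent_iff_linearIndependent_vsub ℝ p i0] at hp
  obtain ⟨L, hL⟩ := LinearMap.exists_extend
    ((Module.Basis.span hp).constr ℝ fun i : {x // x ≠ i0} => r i - r i0)
  refine ⟨L.toAffineMap + AffineMap.const ℝ E (r i0 - L (p i0)), fun i => ?_⟩
  simp only [AffineMap.coe_add, Pi.add_apply, LinearMap.coe_toAffineMap, AffineMap.const_apply]
  by_cases k : i = i0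
  · rw [k]; abel
  · have := LinearMap.congr_fun hL (Module.Basis.span hp ⟨i, k⟩)
    rw [Module.Basis.constr_basis, LinearMap.comp_apply, Submodule.subtype_apply,
      Module.Basis.span_apply] at this
    replace this : L (p i - p i0) = r i - r i0 := this
    rw [map_sub] at this
    rw [add_comm, sub_add, sub_sub_eq_add_sub, add_sub_assoc, this]
    abel

end

variable {m n : ℕ}

theorem PLEmb.inv {f : (Fin m → ℝ) → Fin n → ℝ} {X : Set (Fin m → ℝ)} (h : PLEmb f X) :
    ∃ g : (Fin n → ℝ) → Fin m → ℝ, PLEmb g (f '' X) ∧ ∀ x ∈ X, g (f x) = x := by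
  classical
  obtain ⟨hi, S, rfl, hS⟩ := h
  have li : ∀ x ∈ cover S, Function.invFunOn f (cover S) (f x) = x := fun x hx =>
    hi.leftInvOn_invFunOn hx
  have im : ∀ s ∈ S, ∀ t ⊆ s, f '' convexHull ℝ (t : Set (Fin m → ℝ)) =
      convexHull ℝ ((t.image f : Finset (Fin n → ℝ)) : Set (Fin n → ℝ)) := fun s hs t ht => by
    obtain ⟨g, hg⟩ := hS s hs
    have sub : convexHull ℝ (t : Set (Fin m → ℝ)) ⊆ convexHull ℝ (s : Set (Fin m → ℝ)) :=
      convexHull_mono (Finset.coe_subset.2 ht)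
    rw [Finset.coe_image, (hg.mono sub).image_eq, AffineMap.image_convexHull,
      (hg.mono ((subset_convexHull ℝ _).trans sub)).image_eq]
  refine ⟨_, ⟨?_, (S.biUnion fun s => s.powerset.filter
    fun t : Finset (Fin m → ℝ) => AffineIndependent ℝ ((↑) : t → Fin m → ℝ)).image (Finset.image f), ?_, ?_⟩, li⟩
  · rintro _ ⟨x, hx, rfl⟩ _ ⟨y, hy, rfl⟩ e
    rw [li x hx, li y hy] at e
    rw [e]
  · ext y
    simp only [mem_cover, Finset.mem_image, Finset.mem_biUnion, Finset.mem_filter,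
      Finset.mem_powerset, mem_image]
    constructor
    · rintro ⟨x, ⟨s, hs, hx⟩, rfl⟩
      rw [convexHull_eq_union] at hx
      simp only [mem_iUnion] at hx
      obtain ⟨t, h1, h2, h3⟩ := hx
      have h1' : t ⊆ s := Finset.coe_subset.1 h1
      exact ⟨_, ⟨t, ⟨s, hs, h1', h2⟩, rfl⟩, im s hs t h1' ▸ mem_image_of_mem f h3⟩
    · rintro ⟨_, ⟨t, ⟨s, hs, h1, -⟩, rfl⟩, hy⟩
      rw [← im s hs t h1] at hy
      obtain ⟨x, hx, rfl⟩ := hy
      exact ⟨x, ⟨s, hs, convexHull_mono (Finset.coe_subset.2 h1) hx⟩, rfl⟩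
  · simp only [Finset.mem_image, Finset.mem_biUnion, Finset.mem_filter, Finset.mem_powerset]
    rintro _ ⟨t, ⟨s, hs, h1, h2⟩, rfl⟩
    obtain ⟨g, hg⟩ := hS s hs
    have sub : convexHull ℝ (t : Set (Fin m → ℝ)) ⊆ convexHull ℝ (s : Set (Fin m → ℝ)) :=
      convexHull_mono (Finset.coe_subset.2 h1)
    have sub' : convexHull ℝ (t : Set (Fin m → ℝ)) ⊆ cover S := fun x hx =>
      mem_cover.2 ⟨s, hs, sub hx⟩
    have rg : range ((↑) : t → Fin m → ℝ) = (t : Set (Fin m → ℝ)) := Subtype.range_coe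
    obtain ⟨γ, hγ⟩ := exists_aff (affInd_map h2 g (by
      rw [rg]
      exact (hi.mono sub').congr (hg.mono sub))) ((↑) : t → Fin m → ℝ)
    refine ⟨γ, ?_⟩
    rw [← im s hs t h1]
    rintro _ ⟨x, hx, rfl⟩
    rw [li x (sub' hx), hg (sub hx)]
    have cv : Convex ℝ {x | x = γ (g x)} := fun a ha b hb u w _ _ huw => by
      rw [mem_ofPred_eq, show u = 1 - w by linarith, aff_map_seg, aff_map_seg, ← ha, ← hb]
    exact convexHull_min (fun a ha => (hγ ⟨a, ha⟩).symm) cv hx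

theorem phom_cut {f : (Fin m → ℝ) → Fin n → ℝ} {X : Set (Fin m → ℝ)}
    {A : Set ((Fin m → ℝ) → ℝ)} (hA : Aff A) (hX : Adapt A X) (hf : AffOn A X f)
    {A' : Set ((Fin n → ℝ) → ℝ)} (hA' : Aff A') : SE (D X A) (D X (A ∪ (· ∘ f) '' A')) := by
  refine cut_sv (sv_finite hA.1 X) (hA.1.union (hA'.1.image _)) (fun x _ y hy k t h0 h1 => ?_)
    fun x _ y _ k => sv_le.2 (k.mono subset_union_left)
  have := hA.le_seg (sv_le.1 k) h0 h1
  refine ⟨_, hX y hy _ this.1, sv_eq.2 this, ?_⟩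
  rintro ψ (hψ | ⟨a, ha, rfl⟩)
  · exact hA.seg x y t ψ hψ
  · obtain ⟨g, hg⟩ := hf y hy
    simp only [Function.comp_apply]
    rw [hg _ this.1, hg x (sv_le.1 k), hg y (Le.refl _ _), aff_map_seg]
    exact hA'.seg _ _ t a ha

theorem se_hom {f : (Fin m → ℝ) → Fin n → ℝ} {X : Set (Fin m → ℝ)} (h : PLEmb f X)
    {A : Set ((Fin m → ℝ) → ℝ)} (hA : Aff A) (hX : Adapt A X) {A' : Set ((Fin n → ℝ) → ℝ)}
    (hA' : Aff A') (hY : Adapt A' (f '' X)) : SE (D X A) (D (f '' X) A') := by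
  obtain ⟨g, hg, li⟩ := h.inv
  obtain ⟨B, hB, b1, b2⟩ := (h.ev_adapt.and h.ev_affOn).exists
  obtain ⟨B', hB', c1, c2⟩ := (hg.ev_adapt.and hg.ev_affOn).exists
  refine (D_indep hA hX hB b1).trans (((phom_cut hB b1 b2 hB').trans
    (SE.trans ?_ (phom_cut hB' c1 c2 hB).symm)).trans (D_indep hB' c1 hA' hY))
  refine oc_relabel f rfl (sv_finite (hB.1.union (hB'.1.image _)) _)
    (sv_finite (hB'.1.union (hB.1.image _)) _) fun x hx y hy => ?_
  rw [sv_le, sv_le]
  constructor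
  · rintro k ψ (hψ | ⟨a, ha, rfl⟩)
    · exact k (ψ ∘ f) (Or.inr ⟨ψ, hψ, rfl⟩)
    · simp only [Function.comp_apply, li x hx, li y hy]
      exact k a (Or.inl ha)
  · rintro k ψ (hψ | ⟨a, ha, rfl⟩)
    · have := k (ψ ∘ g) (Or.inr ⟨ψ, hψ, rfl⟩)
      simpa only [Function.comp_apply, li x hx, li y hy] using this
    · exact k a (Or.inl ha)

end MP35.PL
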