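import Pool.Agent.Lib.MP_35c604_gt.PTri
import Pool.Agent.Lib.MP_35c604_gt.PHom
import Pool.Agent.Lib.MP_35c604_gt.PRealA

/-! TASK DIM: the dimension of the sign vector complex of the image of a polyhedron. -/

namespace MP35.PL

open Set SC

theorem ev_dim {m n k : ℕ} {f : (Fin m → ℝ) → Fin n → ℝ} {S : Finset (Finset (Fin m → ℝ))}
    (h : PLEmb f (cover S)) (hS : ∀ s ∈ S, s.card ≤ k + 1) :
    Ev fun A => (D (f '' cover S) A).DimLE k := by
  classical
  obtain ⟨g, hg, hgf⟩ := h.inv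
  obtain ⟨A0, hA0, h0⟩ := (ev_forall S.finite_toSet
    (P := fun s A => Adapt A (convexHull ℝ (s : Set (Fin m → ℝ)))) fun s _ => ev_hull s).exists
  refine ((hg.ev_adapt.and hg.ev_affOn).and (ev_det hg.ev_affOn hA0)).mono ?_
  rintro A hA ⟨⟨hY, haff⟩, hdet⟩ θ hθ
  obtain ⟨b, hb⟩ := exists_bary A (f '' cover S)
  have hc : IsCompact (f '' cover S) := by
    obtain ⟨-, S', e, -⟩ := hg
    rw [e]
    exact isCompact_cover S'
  have hind := (tri_real hc hA hY hb).affInd hθ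
  obtain ⟨hne, hsub, hch⟩ := (mem_oc (sv_finite hA.1 _)).1 hθ
  obtain ⟨c0, hc0⟩ := θ.exists_maximal hne
  have hbY : ∀ c ∈ θ, b c ∈ f '' cover S ∧ sv A (b c) = c := fun c hc => by
    obtain ⟨y, hy, rfl⟩ := hsub hc
    exact hb y hy
  have hy0 := (hbY c0 hc0.1).1
  have hle : ∀ c ∈ θ, Le A (b c) (b c0) := fun c hc => sv_le.1 (by
    rw [(hbY c hc).2, (hbY c0 hc0.1).2]
    exact (hch.total hc hc0.1).elim id (hc0.2 hc))
  obtain ⟨γ, hγ⟩ := haff (b c0) hy0
  have hcell : convexHull ℝ (range fun v : θ => b v) ⊆ {x | Le A x (b c0)} :=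
    convexHull_min (by rintro _ ⟨v, rfl⟩; exact hle v v.2) (hA.convex _)
  have hind' := affInd_map hind γ fun x hx y hy e =>
    hg.1 (hY _ hy0 x (hcell hx)) (hY _ hy0 y (hcell hy)) (by
      rw [hγ x (hcell hx), hγ y (hcell hy), e])
  have hg0 : g (b c0) ∈ cover S := by
    obtain ⟨x0, hx0, e0⟩ := hy0
    rw [← e0, hgf x0 hx0]
    exact hx0
  obtain ⟨s, hs, hs0⟩ := mem_cover.1 hg0
  have h1 : AffineIndependent ℝ ((↑) : (θ.image fun c => γ (b c)) → Fin m → ℝ) :=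
    hind'.range.mono fun x hx => by
      obtain ⟨c, hc, rfl⟩ := Finset.mem_image.1 hx
      exact ⟨⟨c, hc⟩, rfl⟩
  have h2 := h1.card_le_card_of_subset_affineSpan (t := s) fun x hx => by
    obtain ⟨c, hc, rfl⟩ := Finset.mem_image.1 hx
    refine convexHull_subset_affineSpan _ ?_
    rw [← hγ _ (hle c hc)]
    exact h0 s hs _ hs0 _ (hdet _ hy0 _ (hle c hc))
  rw [Finset.card_image_of_injOn fun c hc c' hc' e =>
    congrArg Subtype.val (hind'.injective (a₁ := ⟨c, hc⟩) (a₂ := ⟨c', hc'⟩) e)] at h2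
  exact h2.trans (hS s hs)

end MP35.PL
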