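import Pool.Agent.Lib.MP_35c604_gt.PBase

/-! TASK FANA: links and boundaries of fans. -/

namespace MP35.PL

open Set SC

variable {V : Type} {n : ℕ} {L : SC V} {bd : Prop}

open Classical in
/-- The full subcomplex on a set of vertices. -/
noncomputable def full (L : SC V) (U : Set V) : SC V where
  faces := L.faces.filter fun s => ∀ v ∈ s, v ∈ U
  ne := fun s hs => L.ne s (Finset.mem_filter.1 hs).1
  down := fun s hs t hts ht => Finset.mem_filter.2
    ⟨L.down s (Finset.mem_filter.1 hs).1 t hts ht, fun v hv => (Finset.mem_filter.1 hs).2 v (hts hv)⟩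

theorem mem_full {U : Set V} {s : Finset V} :
    s ∈ (full L U).faces ↔ s ∈ L.faces ∧ ∀ v ∈ s, v ∈ U := by
  classical
  unfold full
  simp only [Finset.mem_filter]

section
variable {E F : Type} [AddCommGroup E] [Module ℝ E] [AddCommGroup F] [Module ℝ F]

theorem pfana_add (q : V → E) {x y : V → ℝ} {s t : Finset V} (hx : ∀ v, v ∉ s → x v = 0)
    (hy : ∀ v, v ∉ t → y v = 0) : lin q (x + y) = lin q x + lin q y := by
  classical
  have h1 : ∀ v, v ∉ s ∪ t → x v = 0 := fun v k => hx v fun a => k (Finset.mem_union_left _ a)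
  have h2 : ∀ v, v ∉ s ∪ t → y v = 0 := fun v k => hy v fun a => k (Finset.mem_union_right _ a)
  rw [lin_eq_sum q h1, lin_eq_sum q h2, lin_eq_sum q (s := s ∪ t) fun v k => by
    rw [Pi.add_apply, h1 v k, h2 v k, add_zero], ← Finset.sum_add_distrib]
  exact Finset.sum_congr rfl fun v _ => add_smul _ _ _

theorem pfana_smul (q : V → E) {x : V → ℝ} {s : Finset V} (hx : ∀ v, v ∉ s → x v = 0) (c : ℝ) :
    lin q (c • x) = c • lin q x := by
  rw [lin_eq_sum q hx, lin_eq_sum q (s := s) fun v k => by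
    rw [Pi.smul_apply, hx v k, smul_zero], Finset.smul_sum]
  exact Finset.sum_congr rfl fun v _ => mul_smul _ _ _

theorem pfana_sup [DecidableEq V] (w : V) (c : ℝ) :
    ∀ v, v ∉ ({w} : Finset V) → (Pi.single w c : V → ℝ) v = 0 := fun v k => by
  rw [Pi.single_eq_of_ne (by simpa using k)]

theorem pfana_single [DecidableEq V] (q : V → E) (w : V) (c : ℝ) :
    lin q (Pi.single w c) = c • q w := by
  rw [lin_eq_sum q (pfana_sup w c), Finset.sum_singleton, Pi.single_eq_same]

theorem pfana_comp (q : V → E) (f : E →ₗ[ℝ] F) {x : V → ℝ} {s : Finset V}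
    (hx : ∀ v, v ∉ s → x v = 0) : lin (fun v => f (q v)) x = f (lin q x) := by
  rw [lin_eq_sum q hx, lin_eq_sum _ hx, map_sum]
  exact Finset.sum_congr rfl fun v _ => (map_smul f _ _).symm

theorem pfana_ker {q : V → E} (h : InjOn (lin q) (cone L)) {s : Finset V}
    (hs : s = ∅ ∨ s ∈ L.faces) {z : V → ℝ} (hz : ∀ v, v ∉ s → z v = 0) (e : lin q z = 0) :
    z = 0 := by
  have h1 : ∀ v, v ∉ s → max (z v) 0 = 0 := fun v k => by rw [hz v k, max_self]
  have h2 : ∀ v, v ∉ s → max (-z v) 0 = 0 := fun v k => by rw [hz v k, neg_zero, max_self]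
  have e1 : (fun v => max (z v) 0) = z + fun v => max (-z v) 0 := by
    funext v
    rw [Pi.add_apply]
    rcases le_total (z v) 0 with k | k
    · rw [max_eq_right k, max_eq_left (neg_nonneg.2 k), add_neg_cancel]
    · rw [max_eq_left k, max_eq_right (neg_nonpos.2 k), add_zero]
  have e2 : (fun v => max (z v) 0) = fun v => max (-z v) 0 :=
    h ⟨fun v => le_max_right _ _, s, hs, h1⟩ ⟨fun v => le_max_right _ _, s, hs, h2⟩ (by
      rw [e1, pfana_add q hz h2, e, zero_add])
  rw [e2] at e1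
  exact add_eq_right.1 e1.symm

theorem pfana_single_mem [DecidableEq V] {w : V} (hw : w ∈ L.verts) {c : ℝ} (hc : 0 ≤ c) :
    (Pi.single w c : V → ℝ) ∈ cone L :=
  ⟨fun v => by
    by_cases k : v = w
    · rw [k, Pi.single_eq_same]; exact hc
    · rw [Pi.single_eq_of_ne k], {w}, Or.inr hw, pfana_sup w c⟩

theorem pfana_ne {q : V → E} (h : InjOn (lin q) (cone L)) {w : V} (hw : w ∈ L.verts) :
    q w ≠ 0 := fun e => by
  classical
  have := congrFun (pfana_ker h (Or.inr hw) (pfana_sup w 1) (by rw [pfana_single, e, smul_zero])) w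
  simp at this

/-- A ray in the direction of a vertex ends in a cone containing this vertex. -/
theorem pfana_ray [DecidableEq V] {q : V → E} (h : InjOn (lin q) (cone L)) {w : V}
    (hw : w ∈ L.verts) {y : E} (hy : ∀ t : ℕ, ∃ x ∈ cone L, lin q x = y + (t : ℝ) • q w) :
    ∃ x ∈ cone (L.link w), ∃ c : ℝ, lin q x = y + c • q w := by
  choose x hx e using hy
  choose s hs hxs using fun t => (hx t).2
  have hm : ∀ t, s t ∈ insert ∅ L.faces := fun t => Finset.mem_insert.2 (hs t)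
  obtain ⟨⟨a, ha⟩, hinf⟩ := Finite.exists_infinite_fiber
    fun t => (⟨s t, hm t⟩ : (insert ∅ L.faces : Finset (Finset V)))
  have hI : {t | s t = a}.Infinite := by
    refine (Set.infinite_coe_iff.1 hinf).mono fun t k => ?_
    simpa using k
  rw [Finset.mem_insert] at ha
  have hxa : ∀ t, s t = a → ∀ v, v ∉ a → x t v = 0 := fun t k => k ▸ hxs t
  obtain ⟨t0, h0⟩ := hI.nonempty
  obtain ⟨t1, h1, h01⟩ := hI.exists_gt t0
  have d0 : (0 : ℝ) < t1 - t0 := sub_pos.2 (by exact_mod_cast h01)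
  have hd : ∀ t, s t = a → (∀ v, v ∉ a → (x t + (-1 : ℝ) • x t0) v = 0) ∧
      lin q (x t + (-1 : ℝ) • x t0) = ((t : ℝ) - t0) • q w := fun t k => by
    refine ⟨fun v hv => by simp [hxa t k v hv, hxa t0 h0 v hv], ?_⟩
    rw [pfana_add q (hxa t k) (t := a) fun v hv => by simp [hxa t0 h0 v hv],
      pfana_smul q (hxa t0 h0), e, e, sub_smul, neg_one_smul]
    abel
  set κ : V → ℝ := ((t1 : ℝ) - t0)⁻¹ • (x t1 + (-1 : ℝ) • x t0) with hκ
  have k1 : ∀ v, v ∉ a → κ v = 0 := fun v hv => by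
    rw [hκ, Pi.smul_apply, (hd t1 h1).1 v hv, smul_zero]
  have k2 : lin q κ = q w := by
    rw [hκ, pfana_smul q (hd t1 h1).1, (hd t1 h1).2, smul_smul, inv_mul_cancel₀ d0.ne', one_smul]
  have k3 : ∀ t, s t = a → ∀ v, x t v = x t0 v + (t - t0) * κ v := fun t k v => by
    have b1 : ∀ v, v ∉ a → ((-((t : ℝ) - t0)) • κ) v = 0 := fun v hv => by
      rw [Pi.smul_apply, k1 v hv, smul_zero]
    have := congrFun (pfana_ker h ha (z := (x t + (-1 : ℝ) • x t0) + (-((t : ℝ) - t0)) • κ)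
      (fun v hv => by rw [Pi.add_apply, (hd t k).1 v hv, b1 v hv, add_zero])
      (by rw [pfana_add q (hd t k).1 b1, (hd t k).2, pfana_smul q k1, k2, neg_smul,
        add_neg_cancel])) v
    simp only [Pi.add_apply, Pi.smul_apply, smul_eq_mul, Pi.zero_apply] at this
    linarith
  have k4 : ∀ v, 0 ≤ κ v := fun v => by
    by_contra hc
    rw [not_le] at hc
    obtain ⟨t, ht, hlt⟩ := hI.exists_gt ⌈t0 + x t0 v / (-κ v)⌉₊
    have b1 : t0 + x t0 v / (-κ v) < t := Nat.lt_of_ceil_lt hlt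
    have b2 : x t0 v / (-κ v) < t - t0 := by linarith
    rw [div_lt_iff₀ (neg_pos.2 hc)] at b2
    have := (hx t).1 v
    rw [k3 t ht v] at this
    linarith
  have k5 : κ = Pi.single w 1 :=
    h ⟨k4, a, ha, k1⟩ (pfana_single_mem hw zero_le_one) (by rw [k2, pfana_single, one_smul])
  have hwa : w ∈ a := by
    by_contra hc
    have := k1 w hc
    rw [k5] at this
    simp at this
  have haL : a ∈ L.faces := ha.resolve_left fun k => by simp [k] at hwa
  refine ⟨x t0 + Pi.single w (-x t0 w), ⟨fun v => ?_, a.erase w, ?_, fun v hv => ?_⟩,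
    t0 - x t0 w, ?_⟩
  · by_cases k : v = w
    · simp [k]
    · rw [Pi.add_apply, Pi.single_eq_of_ne k, add_zero]; exact (hx t0).1 v
  · refine (a.erase w).eq_empty_or_nonempty.imp id fun k => mem_link.2
      ⟨L.down a haL _ (Finset.erase_subset _ _) k, Finset.notMem_erase _ _, ?_⟩
    rwa [Finset.insert_erase hwa]
  · by_cases k : v = w
    · simp [k]
    · rw [Pi.add_apply, Pi.single_eq_of_ne k, add_zero]
      exact hxa t0 h0 v fun b => hv (Finset.mem_erase.2 ⟨k, b⟩)
  · rw [pfana_add q (hxa t0 h0) (pfana_sup w _), e, pfana_single, sub_smul, neg_smul]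
    abel

/-- Points of the cone over the link are determined by their image modulo the vertex. -/
theorem pfana_inj [DecidableEq V] {q : V → E} (h : InjOn (lin q) (cone L)) {w : V}
    (hw : w ∈ L.verts) {x y : V → ℝ} (hx : x ∈ cone (L.link w)) (hy : y ∈ cone (L.link w)) {c : ℝ}
    (e : lin q x - lin q y = c • q w) : x = y := by
  have k : ∀ x ∈ cone (L.link w), ∀ a : ℝ, 0 ≤ a → x + Pi.single w a ∈ cone L ∧ x w = 0 ∧
      lin q (x + Pi.single w a) = lin q x + a • q w := by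
    rintro x ⟨h1, s, h2, h3⟩ a ha
    refine ⟨⟨fun v => add_nonneg (h1 v) ((pfana_single_mem hw ha).1 v), insert w s, Or.inr ?_,
      fun v hv => ?_⟩, h3 w ?_, by rw [pfana_add q h3 (pfana_sup w a), pfana_single]⟩
    · rcases h2 with rfl | h2
      · exact hw
      · exact (mem_link.1 h2).2.2
    · rw [Finset.mem_insert, not_or] at hv
      rw [Pi.add_apply, h3 v hv.2, Pi.single_eq_of_ne hv.1, add_zero]
    · rcases h2 with rfl | h2
      · exact Finset.notMem_empty _
      · exact (mem_link.1 h2).2.1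
  obtain ⟨a1, a2, a3⟩ := k x hx (max (-c) 0) (le_max_right _ _)
  obtain ⟨b1, b2, b3⟩ := k y hy (max c 0) (le_max_right _ _)
  have e1 : max c 0 = c + max (-c) 0 := by
    rcases le_total c 0 with k | k
    · rw [max_eq_right k, max_eq_left (neg_nonneg.2 k), add_neg_cancel]
    · rw [max_eq_left k, max_eq_right (neg_nonpos.2 k), add_zero]
  have e2 := h a1 b1 (by rw [a3, b3, e1, add_smul, ← e]; abel)
  funext v
  by_cases k : v = w
  · rw [k, a2, b2]
  · have := congrFun e2 v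
    rwa [Pi.add_apply, Pi.add_apply, Pi.single_eq_of_ne k, Pi.single_eq_of_ne k, add_zero,
      add_zero] at this

end

theorem pfana_cone_mono {K : SC V} (h : K.faces ⊆ L.faces) : cone K ⊆ cone L :=
  fun _ ⟨h1, s, h2, h3⟩ => ⟨h1, s, h2.imp id fun k => h k, h3⟩

theorem pfana_nonneg {q : V → Fin (n + 1) → ℝ} (h : Fan L q bd) (hb : bd) {w : V}
    (hw : w ∈ L.verts) : 0 ≤ q w 0 := by
  classical
  have := h.mapsTo (pfana_single_mem hw zero_le_one) hb
  rwa [pfana_single, one_smul] at this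

theorem Fan.linInd {q : V → Fin (n + 1) → ℝ} (h : Fan L q bd) {s : Finset V} (hs : s ∈ L.faces) :
    LinearIndependent ℝ fun u : s => q u := by
  classical
  rw [Fintype.linearIndependent_iff]
  intro g e i
  have h1 : ∀ v, v ∉ s → (if k : v ∈ s then g ⟨v, k⟩ else 0) = 0 := fun v k => dif_neg k
  have := congrFun (pfana_ker h.injOn (Or.inr hs) h1 (by
    rw [lin_eq_sum q h1, ← Finset.sum_coe_sort, ← e]
    exact Finset.sum_congr rfl fun v _ => by rw [dif_pos v.2])) i
  rwa [dif_pos i.2] at this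

theorem Fan.dim {q : V → Fin (n + 1) → ℝ} (h : Fan L q bd) : L.DimLE n := fun s hs => by
  simpa using (h.linInd hs).fintype_card_le_finrank

theorem Fan.link [DecidableEq V] {q : V → Fin (n + 2) → ℝ} (h : Fan L q bd) {w : V}
    (hw : w ∈ L.verts) : ∃ q' : V → Fin (n + 1) → ℝ, Fan (L.link w) q' (bd ∧ q w 0 = 0) ∧
      (q w 0 = 0 → ∀ u, q' u 0 = q u 0) := by
  obtain ⟨i, hi⟩ : ∃ i, q w i ≠ 0 := Function.ne_iff.1 (pfana_ne h.injOn hw)
  obtain ⟨f, hf⟩ : ∃ f : (Fin (n + 2) → ℝ) →ₗ[ℝ] Fin (n + 1) → ℝ, ∀ y j,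
      f y j = y (i.succAbove j) - q w (i.succAbove j) / q w i * y i :=
    ⟨LinearMap.pi fun j => LinearMap.proj (i.succAbove j) -
      (q w (i.succAbove j) / q w i) • LinearMap.proj i, fun y j => rfl⟩
  have f1 : f (q w) = 0 := funext fun j => by
    rw [hf, div_mul_cancel₀ _ hi, sub_self, Pi.zero_apply]
  have f2 : ∀ y, f y = 0 → y = (y i / q w i) • q w := fun y e => funext fun k => by
    rw [Pi.smul_apply, smul_eq_mul]
    refine Fin.succAboveCases i ?_ (fun j => ?_) k
    · rw [div_mul_cancel₀ _ hi]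
    · have := congrFun e j
      rw [hf, Pi.zero_apply, sub_eq_zero] at this
      rw [this]
      ring
  have f3 : q w 0 = 0 → ∀ y, f y 0 = y 0 := fun e y => by
    have : i ≠ 0 := fun k => hi (k ▸ e)
    rw [hf, Fin.succAbove_ne_zero_zero this, e, zero_div, zero_mul, sub_zero]
  have f4 : ∀ y', ∃ y, f y = y' := fun y' => ⟨Fin.insertNth i 0 y', funext fun j => by
    rw [hf, Fin.insertNth_apply_same, Fin.insertNth_apply_succAbove, mul_zero, sub_zero]⟩
  have hc : ∀ x ∈ cone (L.link w), lin (fun v => f (q v)) x = f (lin q x) :=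
    fun x ⟨_, _, _, k⟩ => pfana_comp q f k
  have hsub : cone (L.link w) ⊆ cone L := pfana_cone_mono fun s k => (mem_link.1 k).1
  refine ⟨fun v => f (q v), ⟨fun x hx hb => ?_, fun x hx y hy e => ?_, fun y' hy' => ?_⟩,
    fun e u => f3 e _⟩
  · rw [hc x hx, f3 hb.2]
    exact h.mapsTo (hsub hx) hb.1
  · rw [hc x hx, hc y hy, ← sub_eq_zero, ← map_sub] at e
    exact pfana_inj h.injOn hw hx hy (f2 _ e)
  · obtain ⟨y, rfl⟩ := f4 y'
    obtain ⟨c, k⟩ : ∃ c : ℝ, bd → 0 ≤ y 0 + c * q w 0 := by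
      by_cases e : q w 0 = 0
      · refine ⟨0, fun hb => ?_⟩
        rw [zero_mul, add_zero, ← f3 e y]
        exact hy' ⟨hb, e⟩
      · exact ⟨-y 0 / q w 0, fun _ => by rw [div_mul_cancel₀ _ e, add_neg_cancel]⟩
    obtain ⟨x, hx, c', e⟩ := pfana_ray h.injOn hw (y := y + c • q w) fun t => h.surjOn fun hb => by
      have := mul_nonneg (Nat.cast_nonneg (α := ℝ) t) (pfana_nonneg h hb hw)
      have := k hb
      simp only [Pi.add_apply, Pi.smul_apply, smul_eq_mul]
      linarith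
    refine ⟨x, hx, ?_⟩
    rw [hc x hx, e, map_add, map_add, map_smul, map_smul, f1, smul_zero, smul_zero, add_zero,
      add_zero]

theorem Fan.count {q : V → Fin (0 + 1) → ℝ} (h : Fan L q bd) :
    (bd → L.faces.card = 1) ∧ (¬ bd → L.faces.card = 2) := by
  classical
  have ext1 : ∀ y z : Fin (0 + 1) → ℝ, y 0 = z 0 → y = z := fun y z e =>
    funext fun i => by rwa [Fin.eq_zero i]
  have h1 : ∀ s ∈ L.faces, ∃ v ∈ L.verts, s = {v} := fun s hs => by
    obtain ⟨v, rfl⟩ := Finset.card_eq_one.1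
      (le_antisymm (h.dim s hs) (Finset.card_pos.2 (L.ne s hs)))
    exact ⟨v, hs, rfl⟩
  have h2 : ∀ v ∈ L.verts, q v 0 ≠ 0 := fun v hv e => pfana_ne h.injOn hv (ext1 _ _ e)
  have h3 : ∀ u ∈ L.verts, ∀ v ∈ L.verts, 0 < q u 0 * q v 0 → u = v := fun u hu v hv e => by
    by_contra k
    have := congrFun (h.injOn (pfana_single_mem hu (mul_self_nonneg (q v 0)))
      (pfana_single_mem hv e.le) (ext1 _ _ (by
        rw [pfana_single, pfana_single]
        simp only [Pi.smul_apply, smul_eq_mul]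
        ring))) u
    rw [Pi.single_eq_same, Pi.single_eq_of_ne k] at this
    exact h2 v hv (mul_self_eq_zero.1 this)
  have h4 : ∀ c : ℝ, c ≠ 0 → (bd → 0 ≤ c) → ∃ v ∈ L.verts, 0 < q v 0 * c := fun c hc k => by
    obtain ⟨x, ⟨x0, s, hs, hx⟩, e⟩ := h.surjOn (show (fun _ => c) ∈ HS 0 bd from k)
    have e1 := congrFun e 0
    rw [lin_eq_sum q hx] at e1
    rcases hs with rfl | hs
    · exact absurd e1.symm hc
    · obtain ⟨v, hv, rfl⟩ := h1 s hs
      refine ⟨v, hv, ?_⟩
      rw [Finset.sum_singleton, Pi.smul_apply, smul_eq_mul] at e1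
      have a1 : x v ≠ 0 := fun a => hc (by rw [← e1, a, zero_mul])
      have a2 := mul_pos (lt_of_le_of_ne (x0 v) a1.symm) (mul_self_pos.2 (h2 v hv))
      rw [← e1]
      linarith
  obtain ⟨u, hu, u0⟩ := h4 1 one_ne_zero fun _ => zero_le_one
  rw [mul_one] at u0
  refine ⟨fun hb => Finset.card_eq_one.2 ⟨{u}, Finset.eq_singleton_iff_unique_mem.2
    ⟨hu, fun s hs => ?_⟩⟩, fun hb => ?_⟩
  · obtain ⟨v, hv, rfl⟩ := h1 s hs
    rw [h3 v hv u hu (mul_pos (lt_of_le_of_ne (pfana_nonneg h hb hv) (h2 v hv).symm) u0)]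
  · obtain ⟨u', hu', u1⟩ := h4 (-1) (by norm_num) fun k => absurd k hb
    have u2 : q u' 0 < 0 := by linarith
    refine Finset.card_eq_two.2 ⟨{u}, {u'}, fun k => ?_, Finset.ext fun s => ⟨fun hs => ?_, ?_⟩⟩
    · rw [Finset.singleton_inj.1 k] at u0
      linarith
    · obtain ⟨v, hv, rfl⟩ := h1 s hs
      rcases lt_or_gt_of_ne (h2 v hv) with k | k
      · rw [h3 v hv u' hu' (mul_pos_of_neg_of_neg k u2)]
        simp
      · rw [h3 v hv u hu (mul_pos k u0)]
        simp
    · intro hs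
      rcases Finset.mem_insert.1 hs with rfl | hs
      · exact hu
      · rw [Finset.mem_singleton.1 hs]
        exact hu'

theorem Fan.full {q : V → Fin (n + 2) → ℝ} (h : Fan L q bd) (hb : bd) :
    Fan (full L {v | q v 0 = 0}) (fun v => (Fin.tail (q v) : Fin (n + 1) → ℝ)) False := by
  classical
  have hsub : cone (PL.full L {v | q v 0 = 0}) ⊆ cone L :=
    pfana_cone_mono fun s k => (mem_full.1 k).1
  have hc : ∀ x ∈ cone L, ∀ j, lin (fun v => (Fin.tail (q v) : Fin (n + 1) → ℝ)) x j =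
      lin q x j.succ := fun x ⟨_, _, _, k⟩ j =>
    congrFun (pfana_comp q (LinearMap.funLeft ℝ ℝ Fin.succ) k) j
  have h0 : ∀ x ∈ cone (PL.full L {v | q v 0 = 0}), lin q x 0 = 0 := by
    rintro x ⟨-, s, hs, k⟩
    rw [lin_eq_sum q k, Finset.sum_apply]
    refine Finset.sum_eq_zero fun v hv => ?_
    rcases hs with rfl | hs
    · exact absurd hv (Finset.notMem_empty _)
    · have : q v 0 = 0 := (mem_full.1 hs).2 v hv
      rw [Pi.smul_apply, this, smul_zero]
  refine ⟨fun x _ k => k.elim, fun x hx y hy e => h.injOn (hsub hx) (hsub hy) (funext fun i => ?_),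
    fun y _ => ?_⟩
  · refine Fin.cases ?_ (fun j => ?_) i
    · rw [h0 x hx, h0 y hy]
    · rw [← hc x (hsub hx), ← hc y (hsub hy), e]
  · obtain ⟨x, hx, e⟩ := h.surjOn (show (Fin.cons 0 y : Fin (n + 2) → ℝ) ∈ HS (n + 1) bd from
      fun _ => by rw [Fin.cons_zero])
    refine ⟨x, ?_, funext fun j => by rw [hc x hx, e, Fin.cons_succ]⟩
    obtain ⟨x0, s, hs, k⟩ := hx
    rcases hs with rfl | hs
    · exact ⟨x0, ∅, Or.inl rfl, k⟩
    have e1 := congrFun e 0
    rw [lin_eq_sum q k, Finset.sum_apply, Fin.cons_zero] at e1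
    replace e1 := (Finset.sum_eq_zero_iff_of_nonneg
      fun v hv => mul_nonneg (x0 v) (pfana_nonneg h hb (mem_verts_of_mem hs hv))).1 e1
    refine ⟨x0, s.filter fun v => q v 0 = 0, ?_, fun v hv => ?_⟩
    · exact (s.filter fun v => q v 0 = 0).eq_empty_or_nonempty.imp id fun a => mem_full.2
        ⟨L.down s hs _ (Finset.filter_subset _ _) a, fun v hv => (Finset.mem_filter.1 hv).2⟩
    · by_cases a : v ∈ s
      · exact (mul_eq_zero.1 (e1 v a)).resolve_right fun b => hv (Finset.mem_filter.2 ⟨a, b⟩)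
      · exact k v a

end MP35.PL
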