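import Pool.Agent.Lib.MP_35c604_gt.PFanA
import Pool.Agent.Lib.MP_35c604_gt.PCut
import Pool.Agent.Lib.MP_35c604_gt.PArr

/-! TASK FANB: connectedness and Euler characteristic of fans. -/

namespace MP35.PL

open Set SC

variable {V : Type} {n : ℕ} {L : SC V} {bd : Prop}

/-- The boundary complex of the cross polytope, or its upper half. -/
def pfanb_O (n : ℕ) (b : Bool) : SC (Fin (n + 1) × Bool) where
  faces := Finset.univ.filter fun σ =>
    σ.Nonempty ∧ (∀ i, (i, true) ∈ σ → (i, false) ∉ σ) ∧ (b = true → (0, false) ∉ σ)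
  ne := fun s hs => (Finset.mem_filter.1 hs).2.1
  down := fun s hs t hts ht => by
    obtain ⟨-, -, h1, h2⟩ := Finset.mem_filter.1 hs
    exact Finset.mem_filter.2 ⟨Finset.mem_univ _, ht, fun i k k' => h1 i (hts k) (hts k'),
      fun k k' => h2 k (hts k')⟩

theorem pfanb_mem_O {b : Bool} {σ : Finset (Fin (n + 1) × Bool)} :
    σ ∈ (pfanb_O n b).faces ↔
      σ.Nonempty ∧ (∀ i, (i, true) ∈ σ → (i, false) ∉ σ) ∧ (b = true → (0, false) ∉ σ) := by
  unfold pfanb_O
  simp only [Finset.mem_filter, Finset.mem_univ, true_and]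

theorem pfanb_chi_true : (pfanb_O 2 true).chi = 1 := by decide +kernel

theorem pfanb_chi_false : (pfanb_O 2 false).chi = 2 := by decide +kernel

theorem pfanb_edge {b : Bool} {u v : Fin (n + 1) × Bool} (h : u.1 ≠ v.1)
    (hu : b = true → u ≠ (0, false)) (hv : b = true → v ≠ (0, false)) :
    {u, v} ∈ (pfanb_O n b).faces := by
  refine pfanb_mem_O.2 ⟨Finset.insert_nonempty _ _, fun i k k' => ?_, fun k k' => ?_⟩
  · simp only [Finset.mem_insert, Finset.mem_singleton] at k k'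
    rcases k with rfl | rfl
    · rcases k' with k' | rfl
      · simp at k'
      · exact h rfl
    · rcases k' with rfl | k'
      · exact h rfl
      · simp at k'
  · simp only [Finset.mem_insert, Finset.mem_singleton] at k'
    rcases k' with k' | k'
    · exact hu k k'.symm
    · exact hv k k'.symm

theorem pfanb_conn (b : Bool) : (pfanb_O (n + 1) b).Connected := by
  have key : ∀ u ∈ (pfanb_O (n + 1) b).verts,
      Relation.ReflTransGen (fun a c => {a, c} ∈ (pfanb_O (n + 1) b).faces) u (0, true) ∧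
      Relation.ReflTransGen (fun a c => {a, c} ∈ (pfanb_O (n + 1) b).faces) (0, true) u := by
    intro u hu
    have h1 : b = true → u ≠ (0, false) := fun k e =>
      (pfanb_mem_O.1 (mem_verts.1 hu)).2.2 k (by simp [e])
    by_cases h0 : u.1 = 0
    · obtain ⟨i, c⟩ := u
      obtain rfl : i = 0 := h0
      cases c
      · refine ⟨(Relation.ReflTransGen.single (b := (1, true)) ?_).tail ?_,
          (Relation.ReflTransGen.single (b := (1, true)) ?_).tail ?_⟩
        · exact pfanb_edge (by simp) h1 (by simp)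
        · exact pfanb_edge (by simp) (by simp) (by simp)
        · exact pfanb_edge (by simp) (by simp) (by simp)
        · exact pfanb_edge (by simp) (by simp) h1
      · exact ⟨.refl, .refl⟩
    · exact ⟨.single (pfanb_edge h0 h1 (by simp)), .single (pfanb_edge (Ne.symm h0) (by simp) h1)⟩
  refine ⟨⟨{(0, true)}, pfanb_mem_O.2 ⟨Finset.singleton_nonempty _, by simp, by simp⟩⟩,
    fun u hu v hv => (key u hu).1.trans (key v hv).2⟩

/-- The coordinate functions. -/
def pfanb_Co (n : ℕ) : Set ((Fin (n + 1) → ℝ) → ℝ) := range fun i y => y i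

theorem pfanb_aff_Co : Aff (pfanb_Co n) := by
  refine ⟨finite_range _, ?_⟩
  rintro _ ⟨i, rfl⟩
  exact ⟨(LinearMap.proj i : (Fin (n + 1) → ℝ) →ₗ[ℝ] ℝ).toAffineMap, rfl⟩

/-- The signs of the coordinates. -/
noncomputable def pfanb_mu (y : Fin (n + 1) → ℝ) : Finset (Fin (n + 1) × Bool) :=
  Finset.univ.filter fun p => if p.2 = true then 0 < y p.1 else y p.1 < 0

theorem pfanb_mu_true {y : Fin (n + 1) → ℝ} {i : Fin (n + 1)} :
    (i, true) ∈ pfanb_mu y ↔ 0 < y i := by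
  simp [pfanb_mu]

theorem pfanb_mu_false {y : Fin (n + 1) → ℝ} {i : Fin (n + 1)} :
    (i, false) ∈ pfanb_mu y ↔ y i < 0 := by
  simp [pfanb_mu]

theorem pfanb_mu_le {x y : Fin (n + 1) → ℝ} : pfanb_mu x ≤ pfanb_mu y ↔ Le (pfanb_Co n) x y := by
  constructor
  · rintro h _ ⟨i, rfl⟩
    exact ⟨fun k => pfanb_mu_true.1 (h (pfanb_mu_true.2 k)),
      fun k => pfanb_mu_false.1 (h (pfanb_mu_false.2 k))⟩
  · rintro h ⟨i, c⟩ k
    cases c
    · exact pfanb_mu_false.2 ((h _ ⟨i, rfl⟩).2 (pfanb_mu_false.1 k))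
    · exact pfanb_mu_true.2 ((h _ ⟨i, rfl⟩).1 (pfanb_mu_true.1 k))

theorem pfanb_mu_image {b : Bool} (hb : bd ↔ b = true) :
    pfanb_mu '' (HS n bd \ {0}) = ((pfanb_O n b).faces : Set _) := by
  apply Subset.antisymm
  · rintro _ ⟨y, ⟨hy, h0⟩, rfl⟩
    refine pfanb_mem_O.2 ⟨?_, fun i k k' => ?_, fun k k' => ?_⟩
    · obtain ⟨i, hi⟩ := Function.ne_iff.1 h0
      rcases lt_or_gt_of_ne hi with k | k
      · exact ⟨_, pfanb_mu_false.2 k⟩
      · exact ⟨_, pfanb_mu_true.2 k⟩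
    · exact lt_asymm (pfanb_mu_true.1 k) (pfanb_mu_false.1 k')
    · exact not_lt.2 (hy (hb.2 k)) (pfanb_mu_false.1 k')
  · intro σ hσ
    obtain ⟨h1, h2, h3⟩ := pfanb_mem_O.1 hσ
    have e : pfanb_mu (fun i => if (i, true) ∈ σ then (1 : ℝ) else if (i, false) ∈ σ then -1
        else 0) = σ := by
      ext ⟨i, c⟩
      cases c
      · rw [pfanb_mu_false]
        have := h2 i
        split_ifs with k k'
        · simp [this k]
        · simp [k']
        · simp [k']
      · rw [pfanb_mu_true]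
        split_ifs with k k'
        · simp [k]
        · simp [k]
        · simp [k]
    refine ⟨_, ⟨fun k => ?_, fun k => ?_⟩, e⟩
    · have := h3 (hb.1 k)
      simp only [this, if_false]
      split_ifs <;> norm_num
    · rw [mem_singleton_iff] at k
      rw [k] at e
      obtain ⟨⟨i, c⟩, hi⟩ := h1
      rw [← e] at hi
      cases c
      · exact lt_irrefl _ (pfanb_mu_false.1 hi)
      · exact lt_irrefl _ (pfanb_mu_true.1 hi)

theorem pfanb_se_O {b : Bool} (hb : bd ↔ b = true) {A : Set ((Fin (n + 1) → ℝ) → ℝ)} (hA : Aff A)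
    (hs : pfanb_Co n ⊆ A) : SE (pfanb_O n b) (D (HS n bd \ {0}) A) := by
  refine (se_faces _).trans ?_
  rw [← pfanb_mu_image hb]
  refine cut_sv (toFinite _) hA.1 (fun x hx y hy k t h0 h1 => ?_)
    fun x _ y _ k => pfanb_mu_le.2 (k.mono hs)
  have h2 := pfanb_aff_Co.le_seg (pfanb_mu_le.1 k) h0 h1
  refine ⟨(1 - t) • x + t • y, ⟨fun c => ?_, fun c => ?_⟩,
    le_antisymm (pfanb_mu_le.2 h2.1) (pfanb_mu_le.2 h2.2), hA.seg x y t⟩
  · exact h2.1.nonneg (ψ := fun y => y 0) ⟨0, rfl⟩ (hy.1 c)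
  · rw [mem_singleton_iff] at c
    refine hy.2 (funext fun i => ?_)
    exact h2.2.zero (ψ := fun y => y i) ⟨i, rfl⟩ (by rw [c]; rfl)

open Classical in
/-- The support of a point of the cone. -/
noncomputable def pfanb_supp (L : SC V) (x : V → ℝ) : Finset V :=
  (L.faces.biUnion id).filter fun v => x v ≠ 0

theorem pfanb_mem_supp {x : V → ℝ} (hx : x ∈ cone L) {v : V} : v ∈ pfanb_supp L x ↔ x v ≠ 0 := by
  classical
  unfold pfanb_supp
  simp only [Finset.mem_filter, Finset.mem_biUnion, id, and_iff_right_iff_imp]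
  intro k
  obtain ⟨-, s, h1, h2⟩ := hx
  have h3 : v ∈ s := by
    by_contra c
    exact k (h2 v c)
  rcases h1 with rfl | h1
  · simp at h3
  · exact ⟨s, h1, h3⟩

theorem pfanb_supp_face {x : V → ℝ} (hx : x ∈ cone L) (h0 : x ≠ 0) :
    pfanb_supp L x ∈ L.faces := by
  obtain ⟨v, hv⟩ := Function.ne_iff.1 h0
  obtain ⟨s, h1, h2⟩ := hx.2
  have h3 : pfanb_supp L x ⊆ s := fun u hu => by
    by_contra c
    exact (pfanb_mem_supp hx).1 hu (h2 u c)
  have h4 : (pfanb_supp L x).Nonempty := ⟨v, (pfanb_mem_supp hx).2 hv⟩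
  rcases h1 with rfl | h1
  · exact absurd (h4.mono h3) (by simp)
  · exact L.down s h1 _ h3 h4

theorem pfanb_zero_mem : (0 : V → ℝ) ∈ cone L :=
  ⟨fun _ => le_rfl, ∅, Or.inl rfl, fun _ _ => rfl⟩

theorem pfanb_lin_zero (q : V → Fin (n + 1) → ℝ) : lin q 0 = 0 := by
  rw [lin_eq_sum q (x := 0) (s := ∅) fun _ _ => rfl, Finset.sum_empty]

theorem pfanb_se_L {q : V → Fin (n + 1) → ℝ} (h : Fan L q bd) :
    Ev fun A => SE L (D (HS n bd \ {0}) A) := by
  classical
  have hev : Ev fun A => ∀ s ∈ (L.faces : Set (Finset V)), Adapt A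
      {y | ∃ x : V → ℝ, (∀ v, 0 ≤ x v) ∧ (∀ v, v ∉ s → x v = 0) ∧ lin q x = y} := by
    refine ev_forall (Finset.finite_toSet _) fun s hs => ?_
    obtain ⟨A, a1, a2, a3⟩ := exists_lin_cone s q (h.linInd hs)
    refine ⟨A, ⟨a1, fun a k => ?_⟩, fun A' _ k => a3.mono k⟩
    obtain ⟨g, rfl⟩ := a2 a k
    exact ⟨g.toAffineMap, rfl⟩
  refine hev.mono fun A hA had => ?_
  set ξ : (Fin (n + 1) → ℝ) → V → ℝ := Function.invFunOn (lin q) (cone L) with hξ
  have x1 : ∀ y ∈ HS n bd, ξ y ∈ cone L := fun y hy => h.surjOn.mapsTo_invFunOn hy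
  have x2 : ∀ y ∈ HS n bd, lin q (ξ y) = y := fun y hy => h.surjOn.rightInvOn_invFunOn hy
  have x3 : ∀ x ∈ cone L, ξ (lin q x) = x := fun x hx => h.injOn.leftInvOn_invFunOn hx
  have x4 : ∀ y ∈ HS n bd \ {0}, ξ y ≠ 0 := fun y hy c =>
    hy.2 (by rw [mem_singleton_iff, ← x2 y hy.1, c, pfanb_lin_zero])
  have x5 : ∀ x ∈ cone L, x ≠ 0 → lin q x ∈ HS n bd \ {0} := fun x hx c =>
    ⟨h.mapsTo hx, fun k => c (h.injOn hx pfanb_zero_mem (by rw [pfanb_lin_zero]; exact k))⟩
  have him : (fun y => pfanb_supp L (ξ y)) '' (HS n bd \ {0}) = (L.faces : Set _) := by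
    apply Subset.antisymm
    · rintro _ ⟨y, hy, rfl⟩
      exact pfanb_supp_face (x1 y hy.1) (x4 y hy)
    · intro s hs
      have h1 : (fun v => if v ∈ s then (1 : ℝ) else 0) ∈ cone L :=
        ⟨fun v => by dsimp only; split_ifs <;> norm_num, s, Or.inr hs, fun v k => if_neg k⟩
      have h2 : (fun v => if v ∈ s then (1 : ℝ) else 0) ≠ 0 := by
        obtain ⟨v, hv⟩ := L.ne s hs
        exact Function.ne_iff.2 ⟨v, by simp [hv]⟩
      refine ⟨_, x5 _ h1 h2, ?_⟩
      ext v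
      simp only [x3 _ h1, pfanb_mem_supp h1]
      simp
  refine (se_faces _).trans ?_
  rw [← him]
  refine cut_sv (him ▸ Finset.finite_toSet _) hA.1 (fun x hx y hy k t h0 h1 => ?_)
    fun x hx y hy k => ?_
  · have a1 := x1 x hx.1
    have a2 := x1 y hy.1
    have a3 : 0 ≤ 1 - t := sub_nonneg.2 h1
    have b2 : ∀ v, v ∉ pfanb_supp L (ξ y) → ξ y v = 0 := fun v c => by
      by_contra d
      exact c ((pfanb_mem_supp a2).2 d)
    have b1 : ∀ v, v ∉ pfanb_supp L (ξ y) → ξ x v = 0 := fun v c => by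
      by_contra d
      exact c (k ((pfanb_mem_supp a1).2 d))
    have b3 : ∀ v, v ∉ pfanb_supp L (ξ y) → (1 - t) * ξ x v + t * ξ y v = 0 := fun v c => by
      rw [b1 v c, b2 v c]; ring
    have c1 : (fun v => (1 - t) * ξ x v + t * ξ y v) ∈ cone L :=
      ⟨fun v => add_nonneg (mul_nonneg a3 (a1.1 v)) (mul_nonneg h0.le (a2.1 v)), _,
        Or.inr (pfanb_supp_face a2 (x4 y hy)), b3⟩
    have c2 : ∀ v, ξ y v ≠ 0 → (1 - t) * ξ x v + t * ξ y v ≠ 0 := fun v c =>
      (add_pos_of_nonneg_of_pos (mul_nonneg a3 (a1.1 v))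
        (mul_pos h0 (lt_of_le_of_ne (a2.1 v) c.symm))).ne'
    have c3 : (fun v => (1 - t) * ξ x v + t * ξ y v) ≠ 0 := by
      obtain ⟨v, hv⟩ := Function.ne_iff.1 (x4 y hy)
      exact Function.ne_iff.2 ⟨v, c2 v hv⟩
    have c4 : lin q (fun v => (1 - t) * ξ x v + t * ξ y v) = (1 - t) • x + t • y := by
      conv_rhs => rw [← x2 x hx.1, ← x2 y hy.1]
      rw [lin_eq_sum q b1, lin_eq_sum q b2, lin_eq_sum q b3, Finset.smul_sum, Finset.smul_sum,
        ← Finset.sum_add_distrib]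
      refine Finset.sum_congr rfl fun v _ => ?_
      rw [add_smul, mul_smul, mul_smul]
    refine ⟨_, x5 _ c1 c3, ?_, by rw [c4]; exact hA.seg x y t⟩
    ext v
    simp only [x3 _ c1, pfanb_mem_supp c1, pfanb_mem_supp a2]
    refine ⟨fun c d => c (b3 v fun e => (pfanb_mem_supp a2).1 e d), c2 v⟩
  · have a2 := x1 y hy.1
    have b2 : ∀ v, v ∉ pfanb_supp L (ξ y) → ξ y v = 0 := fun v c => by
      by_contra d
      exact c ((pfanb_mem_supp a2).2 d)
    have hf := pfanb_supp_face a2 (x4 y hy)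
    obtain ⟨η, e1, e2, e3⟩ := had _ hf y ⟨ξ y, a2.1, b2, x2 y hy.1⟩ x k
    have e4 : η ∈ cone L := ⟨e1, _, Or.inr hf, e2⟩
    have e5 : ξ x = η := by rw [← e3, x3 η e4]
    intro v hv
    by_contra c
    rw [e5] at hv
    exact (pfanb_mem_supp e4).1 hv (e2 v c)

theorem pfanb_se {q : V → Fin (n + 1) → ℝ} (h : Fan L q bd) {b : Bool} (hb : bd ↔ b = true) :
    SE L (pfanb_O n b) := by
  obtain ⟨A, hA, h1, h2⟩ := ((pfanb_se_L h).and (ev_ge pfanb_aff_Co)).exists
  exact h1.trans (pfanb_se_O hb hA h2).symm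

theorem Fan.conn [DecidableEq V] {q : V → Fin (n + 2) → ℝ} (h : Fan L q bd) : L.Connected := by
  classical
  exact (pfanb_se h (b := decide bd) (by simp)).symm.conn (pfanb_conn _)

theorem Fan.chi {q : V → Fin (2 + 1) → ℝ} (h : Fan L q bd) :
    (bd → L.chi = 1) ∧ (¬ bd → L.chi = 2) :=
  ⟨fun k => (pfanb_se h (b := true) (by simp [k])).chi.trans pfanb_chi_true,
    fun k => (pfanb_se h (b := false) (by simp [k])).chi.trans pfanb_chi_false⟩

end MP35.PL
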