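import Pool.Agent.Lib.MP_35c604_gt.PFanB

/-! TASK FANC: three-dimensional fans are spheres or balls. -/

namespace MP35.PL

open Set SC

variable {V : Type} [DecidableEq V] {L : SC V} {bd : Prop}

theorem pfanc_mem_link {v : V} {s : Finset V} :
    s ∈ (L.link v).faces ↔ s.Nonempty ∧ v ∉ s ∧ insert v s ∈ L.faces :=
  mem_link.trans ⟨fun h => ⟨L.ne s h.1, h.2⟩,
    fun h => ⟨L.down _ h.2.2 s (Finset.subset_insert v s) h.1, h.2⟩⟩

theorem pfanc_deg_link {v : V} {s : Finset V} (hv : v ∉ s) :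
    (L.link v).deg s = L.deg (insert v s) := by
  refine Finset.card_bij (fun t _ => insert v t) (fun t ht => ?_) (fun t ht t' ht' e => ?_)
    fun t ht => ?_
  · obtain ⟨h1, h2, h3⟩ := Finset.mem_filter.1 ht
    obtain ⟨-, h4, h5⟩ := mem_link.1 h1
    exact Finset.mem_filter.2 ⟨h5, Finset.insert_subset_insert v h2, by
      rw [Finset.card_insert_of_notMem h4, Finset.card_insert_of_notMem hv, h3]⟩
  · rw [← Finset.erase_insert (mem_link.1 (Finset.mem_filter.1 ht).1).2.1, e,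
      Finset.erase_insert (mem_link.1 (Finset.mem_filter.1 ht').1).2.1]
  · obtain ⟨h1, h2, h3⟩ := Finset.mem_filter.1 ht
    have h4 : v ∈ t := h2 (Finset.mem_insert_self v s)
    have h5 : (t.erase v).card = s.card + 1 := by
      rw [Finset.card_erase_of_mem h4, h3, Finset.card_insert_of_notMem hv]; rfl
    refine ⟨t.erase v, Finset.mem_filter.2 ⟨pfanc_mem_link.2 ⟨Finset.card_pos.1 (by omega),
      Finset.notMem_erase v t, ?_⟩,
      Finset.subset_erase.2 ⟨(Finset.subset_insert v s).trans h2, hv⟩, h5⟩, Finset.insert_erase h4⟩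
    rwa [Finset.insert_erase h4]

/-- If the link of `v` consists of vertices only, its size is the degree of `v`. -/
theorem pfanc_deg_vertex {v : V} (h : (L.link v).DimLE 0) :
    L.deg {v} = (L.link v).faces.card := by
  have e : L.deg {v} = (L.link v).deg ∅ := by
    rw [pfanc_deg_link (Finset.notMem_empty v)]; rfl
  rw [e, deg, Finset.filter_true_of_mem]
  intro t ht
  have h1 := h t ht
  have h2 := Finset.card_pos.2 ((L.link v).ne t ht)
  exact ⟨Finset.empty_subset t, by rw [Finset.card_empty]; omega⟩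

/-- Degrees of the vertices of a two-dimensional fan. -/
theorem pfanc_deg {q : V → Fin (0 + 2) → ℝ} (h : Fan L q bd) {v : V} (hv : v ∈ L.verts) :
    ((bd ∧ q v 0 = 0) → L.deg {v} = 1) ∧ (¬ (bd ∧ q v 0 = 0) → L.deg {v} = 2) := by
  obtain ⟨q', h', -⟩ := h.link hv
  rw [pfanc_deg_vertex h'.dim]
  exact h'.count

theorem pfanc_circle {q : V → Fin (0 + 2) → ℝ} (h : Fan L q bd) (hb : ¬ bd) : L.IsCircle :=
  ⟨h.conn, h.dim, fun _ hv => (pfanc_deg h hv).2 fun k => hb k.1⟩

theorem pfanc_arc {q : V → Fin (0 + 2) → ℝ} (h : Fan L q bd) (hb : bd) : L.IsArc := by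
  refine ⟨h.conn, h.dim, fun v hv => ?_, ?_⟩
  · by_cases k : bd ∧ q v 0 = 0
    · exact Or.inl ((pfanc_deg h hv).1 k)
    · exact Or.inr ((pfanc_deg h hv).2 k)
  · have h2 := (h.full hb).count.2 not_false
    obtain ⟨s, hs⟩ := Finset.card_pos.1 (h2 ▸ two_pos)
    obtain ⟨v, hv⟩ := SC.ne _ s hs
    obtain ⟨h3, h4⟩ := mem_full.1 hs
    exact ⟨v, mem_verts_of_mem h3 hv, (pfanc_deg h (mem_verts_of_mem h3 hv)).1 ⟨hb, h4 v hv⟩⟩

/-- An edge of a three-dimensional fan in the half space lies in exactly one triangle iff it lies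
in the boundary plane. -/
theorem pfanc_edge {q : V → Fin (1 + 2) → ℝ} (h : Fan L q bd) (hb : bd) {f : Finset V}
    (hf : f ∈ L.faces) (h2 : f.card = 2) : L.deg f = 1 ↔ ∀ v ∈ f, q v 0 = 0 := by
  obtain ⟨u, w, huw, rfl⟩ := Finset.card_eq_two.1 h2
  have hu : u ∈ L.verts := mem_verts_of_mem hf (Finset.mem_insert_self _ _)
  have hn : u ∉ ({w} : Finset V) := Finset.notMem_singleton.2 huw
  have hw : w ∈ (L.link u).verts := pfanc_mem_link.2 ⟨Finset.singleton_nonempty w, hn, hf⟩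
  obtain ⟨q', h', hq⟩ := h.link hu
  have hd := pfanc_deg h' hw
  rw [pfanc_deg_link hn] at hd
  constructor
  · intro e
    by_cases k : (bd ∧ q u 0 = 0) ∧ q' w 0 = 0
    · intro v hv
      rcases Finset.mem_insert.1 hv with rfl | hv
      · exact k.1.2
      · rw [Finset.mem_singleton.1 hv, ← hq k.1.2 w]; exact k.2
    · rw [hd.2 k] at e; omega
  · intro k
    have k1 := k u (Finset.mem_insert_self _ _)
    exact hd.1 ⟨⟨hb, k1⟩, (hq k1 w).trans (k w (by simp))⟩

theorem pfanc_bdry {q : V → Fin (1 + 2) → ℝ} (h : Fan L q bd) (hb : bd) :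
    L.bdry 2 = full L {v | q v 0 = 0} := by
  have hc : (full L {v | q v 0 = 0}).IsCircle := pfanc_circle (h.full hb) not_false
  refine ext' (Finset.ext fun s => ?_)
  rw [mem_bdry]
  constructor
  · rintro ⟨h1, f, hf, h2, h3, h4⟩
    exact mem_full.2 ⟨h1, fun v hv => (pfanc_edge h hb hf h2).1 h3 v (h4 hv)⟩
  · intro hs
    refine ⟨(mem_full.1 hs).1, ?_⟩
    have key : ∃ f ∈ (full L {v | q v 0 = 0}).faces, f.card = 2 ∧ s ⊆ f := by
      have h1 := hc.2.1 s hs
      have h2 := Finset.card_pos.2 (SC.ne _ s hs)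
      by_cases e : s.card = 2
      · exact ⟨s, hs, e, Finset.Subset.refl s⟩
      · obtain ⟨v, rfl⟩ := Finset.card_eq_one.1 (show s.card = 1 by omega)
        have h3 := hc.2.2 v hs
        obtain ⟨t, ht⟩ := Finset.card_pos.1 (show 0 < SC.deg _ {v} from h3 ▸ two_pos)
        obtain ⟨a, b, c⟩ := Finset.mem_filter.1 ht
        exact ⟨t, a, by rw [c, Finset.card_singleton], b⟩
    obtain ⟨f, hf, h2, h3⟩ := key
    obtain ⟨h4, h5⟩ := mem_full.1 hf
    exact ⟨f, h4, h2, (pfanc_edge h hb h4 h2).2 h5, h3⟩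

theorem Fan.sphere {q : V → Fin (2 + 1) → ℝ} (h : Fan L q bd) : L.IsSphere ∨ L.IsBall := by
  have hc : L.Connected := Fan.conn (n := 1) h
  by_cases hb : bd
  · refine Or.inr ⟨hc, fun v hv => ?_, h.chi.1 hb, ?_⟩
    · obtain ⟨q', h', -⟩ := Fan.link (n := 1) h hv
      by_cases k : bd ∧ q v 0 = 0
      · exact Or.inr (pfanc_arc h' k)
      · exact Or.inl (pfanc_circle h' k)
    · rw [pfanc_bdry h hb]
      exact pfanc_circle (Fan.full (n := 1) h hb) not_false
  · refine Or.inl ⟨hc, fun v hv => ?_, h.chi.2 hb⟩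
    obtain ⟨q', h', -⟩ := Fan.link (n := 1) h hv
    exact pfanc_circle h' fun k => hb k.1

end MP35.PL
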