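import Pool.Agent.Lib.MP_35c604_gt.PRealA
import Pool.Agent.Lib.MP_35c604_gt.PCut

/-! TASK REALB: realisations and sign vector complexes; simplicial expansions. -/

namespace MP35.PL

open Set SC

variable {V : Type} {n : ℕ} {K K' : SC V} {p : V → Fin n → ℝ} {X : Set (Fin n → ℝ)}

open Classical in
/-- The carrier of a point of the polyhedron. -/
noncomputable def prealb_supp (K : SC V) (x : V → ℝ) : Finset V :=
  (K.faces.biUnion id).filter fun v => x v ≠ 0

theorem prealb_mem {x : V → ℝ} (hx : x ∈ K.real) {v : V} : v ∈ prealb_supp K x ↔ x v ≠ 0 := by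
  classical
  obtain ⟨-, s, hs, h0, -⟩ := hx
  unfold prealb_supp
  simp only [Finset.mem_filter, Finset.mem_biUnion, id]
  exact ⟨fun k => k.2, fun k => ⟨⟨s, hs, by_contra fun a => k (h0 v a)⟩, k⟩⟩

theorem prealb_zero {x : V → ℝ} (hx : x ∈ K.real) (v : V) (hv : v ∉ prealb_supp K x) : x v = 0 :=
  by_contra fun a => hv ((prealb_mem hx).2 a)

theorem prealb_face {x : V → ℝ} (hx : x ∈ K.real) :
    prealb_supp K x ∈ K.faces ∧ ∑ v ∈ prealb_supp K x, x v = 1 := by
  obtain ⟨h1, s, hs, h0, h2⟩ := id hx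
  have hsub : prealb_supp K x ⊆ s := fun v hv =>
    by_contra fun a => (prealb_mem hx).1 hv (h0 v a)
  have hsum : ∑ v ∈ prealb_supp K x, x v = 1 := by
    rw [← h2]
    exact Finset.sum_subset hsub fun v _ hv => prealb_zero hx v hv
  refine ⟨K.down s hs _ hsub (Finset.nonempty_iff_ne_empty.2 fun e => ?_), hsum⟩
  rw [e, Finset.sum_empty] at hsum
  exact zero_ne_one hsum

theorem Real.se (h : Real K p X) {A : Set ((Fin n → ℝ) → ℝ)} (hA : Aff A) (hX : Adapt A X) :
    SE K (D X A) := by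
  classical
  obtain ⟨A', hA', hs, hh⟩ := ((ev_ge hA).and (ev_forall (I := (K.faces : Set (Finset V)))
    K.faces.finite_toSet (P := fun s A => Adapt A (convexHull ℝ ((s.image p : Finset _) : Set _)))
    fun s _ => ev_hull (s.image p))).exists
  have hb : BijOn (lin p) K.real X := h
  let ξ : (Fin n → ℝ) → V → ℝ := Function.invFunOn (lin p) K.real
  have hξ : ∀ y ∈ X, ξ y ∈ K.real := fun y hy => hb.surjOn.mapsTo_invFunOn hy
  have hl : ∀ u ∈ K.real, ξ (lin p u) = u := fun u hu => hb.invOn_invFunOn.1 hu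
  have hr : ∀ y ∈ X, lin p (ξ y) = y := fun y hy => hb.invOn_invFunOn.2 hy
  let lam : (Fin n → ℝ) → Finset V := fun y => prealb_supp K (ξ y)
  have him : lam '' X = (K.faces : Set (Finset V)) := by
    refine Subset.antisymm ?_ fun s hs => ?_
    · rintro _ ⟨y, hy, rfl⟩
      exact (prealb_face (hξ y hy)).1
    · have hc : (0 : ℝ) < s.card := Nat.cast_pos.2 (K.ne s hs).card_pos
      let b : V → ℝ := fun v => if v ∈ s then (s.card : ℝ)⁻¹ else 0
      have hbm : b ∈ K.real := by
        refine ⟨fun v => ?_, s, hs, fun v hv => if_neg hv, ?_⟩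
        · simp only [b]
          split_ifs
          exacts [(inv_pos.2 hc).le, le_rfl]
        · rw [Finset.sum_congr rfl fun v hv => (if_pos hv : b v = (s.card : ℝ)⁻¹),
            Finset.sum_const, nsmul_eq_mul, mul_inv_cancel₀ hc.ne']
      refine ⟨lin p b, hb.mapsTo hbm, ?_⟩
      ext v
      simp only [lam]
      rw [hl b hbm, prealb_mem hbm]
      simp only [b]
      split_ifs with hv
      · simp [hv, (inv_pos.2 hc).ne']
      · simp [hv]
  refine (se_faces K).trans ?_
  rw [← him]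
  refine SE.trans ?_ (D_mono hA' hs hX).symm
  refine cut_sv (him ▸ K.faces.finite_toSet) hA'.1 ?_ ?_
  · intro x hx y hy k t h0 h1
    have hx' := hξ x hx
    have hy' := hξ y hy
    have k' : ∀ v, ξ y v = 0 → ξ x v = 0 := fun v e =>
      by_contra fun a => (prealb_mem hy').1 (k ((prealb_mem hx').2 a)) e
    have kx : ∀ v, v ∉ lam y → ξ x v = 0 := fun v hv => k' v (prealb_zero hy' v hv)
    have ky : ∀ v, v ∉ lam y → ξ y v = 0 := fun v hv => prealb_zero hy' v hv
    have sx : ∑ v ∈ lam y, ξ x v = 1 := by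
      rw [← (prealb_face hx').2]
      exact (Finset.sum_subset k fun v _ hv => prealb_zero hx' v hv).symm
    let w : V → ℝ := fun v => (1 - t) * ξ x v + t * ξ y v
    have kw : ∀ v, v ∉ lam y → w v = 0 := fun v hv => by simp [w, kx v hv, ky v hv]
    have hw : w ∈ K.real := by
      refine ⟨fun v => add_nonneg (mul_nonneg (sub_nonneg.2 h1) (hx'.1 v))
        (mul_nonneg h0.le (hy'.1 v)), lam y, (prealb_face hy').1, kw, ?_⟩
      simp only [w]
      rw [Finset.sum_add_distrib, ← Finset.mul_sum, ← Finset.mul_sum, sx, (prealb_face hy').2]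
      ring
    have hz : lin p w = (1 - t) • x + t • y := by
      conv_rhs => rw [← hr x hx, ← hr y hy]
      rw [lin_eq_sum p kw, lin_eq_sum p kx, lin_eq_sum p ky, Finset.smul_sum, Finset.smul_sum,
        ← Finset.sum_add_distrib]
      refine Finset.sum_congr rfl fun v _ => ?_
      simp only [w, add_smul, mul_smul]
    refine ⟨(1 - t) • x + t • y, hz ▸ hb.mapsTo hw, ?_, hA'.seg x y t⟩
    ext v
    simp only [lam]
    rw [← hz, hl w hw, prealb_mem hw, prealb_mem hy']
    refine not_congr ⟨fun e => ?_, fun e => by simp [w, e, k' v e]⟩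
    have a1 := mul_nonneg (sub_nonneg.2 h1) (hx'.1 v)
    have a2 := mul_nonneg h0.le (hy'.1 v)
    have a3 : t * ξ y v = 0 := by simp only [w] at e; linarith
    exact (mul_eq_zero.1 a3).resolve_left h0.ne'
  · intro x hx y hy k
    have hy' := hξ y hy
    have f1 := prealb_face hy'
    have m1 : y ∈ convexHull ℝ (p '' (lam y : Set V)) :=
      (mem_hull_iff p (lam y) y).2 ⟨ξ y, hy'.1, prealb_zero hy', f1.2, hr y hy⟩
    have m2 := hh (lam y) f1.1 y (by rwa [Finset.coe_image]) x k
    rw [Finset.coe_image] at m2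
    obtain ⟨u, u1, u2, u3, u4⟩ := (mem_hull_iff p (lam y) x).1 m2
    have hu : u ∈ K.real := ⟨u1, lam y, f1.1, u2, u3⟩
    intro v hv
    simp only [lam] at hv
    rw [← u4, hl u hu, prealb_mem hu] at hv
    exact by_contra fun a => hv (u2 v a)

theorem Real.elem [DecidableEq V] (h : Real K' p X) (e : Expand K K') :
    Elem X (lin p '' K.real) := by
  obtain ⟨σ, τ, hστ, hc, hσ, hτ, hK⟩ := e
  have hb : BijOn (lin p) K'.real X := h
  have hτ' : τ ∈ K'.faces := by rw [hK]; exact Finset.mem_insert_self _ _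
  have hσ' : σ ∈ K'.faces := by
    rw [hK]; exact Finset.mem_insert_of_mem (Finset.mem_insert_self _ _)
  have hσn : σ.Nonempty := K'.ne σ hσ'
  have hsub : K.real ⊆ K'.real := by
    rintro u ⟨u1, s, hs, u2⟩
    refine ⟨u1, s, ?_, u2⟩
    rw [hK]; exact Finset.mem_insert_of_mem (Finset.mem_insert_of_mem hs)
  let ε : τ ≃ Fin τ.card := τ.equivFin
  let push : (Fin τ.card → ℝ) → V → ℝ := fun x v => if hv : v ∈ τ then x (ε ⟨v, hv⟩) else 0
  have p0 : ∀ x v, v ∉ τ → push x v = 0 := fun x v hv => dif_neg hv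
  have p1 : ∀ x i, push x (ε.symm i) = x i := fun x i => by
    simp only [push]
    rw [dif_pos (ε.symm i).2]
    simp
  have psum : ∀ {M : Type} [AddCommMonoid M] (f : V → M),
      ∑ v ∈ τ, f v = ∑ i, f (ε.symm i) := fun f => by
    rw [← Finset.sum_coe_sort τ f, ← ε.symm.sum_comp]
  have pm : ∀ x ∈ stdSimplex ℝ (Fin τ.card), (∀ v, 0 ≤ push x v) ∧ ∑ v ∈ τ, push x v = 1 := by
    intro x hx
    refine ⟨fun v => ?_, ?_⟩
    · simp only [push]
      split_ifs
      exacts [hx.1 _, le_rfl]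
    · rw [psum]
      simp only [p1]
      exact hx.2
  have pr : ∀ x ∈ stdSimplex ℝ (Fin τ.card), push x ∈ K'.real := fun x hx =>
    ⟨(pm x hx).1, τ, hτ', p0 x, (pm x hx).2⟩
  have ps : ∀ u : V → ℝ, (∀ v, 0 ≤ u v) → (∀ v, v ∉ τ → u v = 0) → ∑ v ∈ τ, u v = 1 →
      ∃ x ∈ stdSimplex ℝ (Fin τ.card), push x = u := by
    intro u u1 u2 u3
    refine ⟨fun i => u (ε.symm i), ⟨fun i => u1 _, by rw [← u3, psum]⟩, funext fun v => ?_⟩
    simp only [push]
    split_ifs with hv
    · simp
    · exact (u2 v hv).symm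
  let G : (Fin τ.card → ℝ) →ₗ[ℝ] (Fin n → ℝ) :=
    Fintype.linearCombination ℝ fun i => p (ε.symm i)
  have hG : ∀ x, lin p (push x) = G x := fun x => by
    rw [lin_eq_sum p (p0 x), psum]
    simp only [p1, G, Fintype.linearCombination_apply]
  refine ⟨τ.card, Finset.univ.filter fun i => (ε.symm i : V) ∈ σ, fun x => lin p (push x),
    ?_, ?_, ⟨?_, ?_⟩, ?_, ?_⟩
  · obtain ⟨v, hv⟩ := hσn
    exact ⟨ε ⟨v, hστ hv⟩, by simpa using hv⟩
  · intro k
    have : τ ⊆ σ := fun v hv => by
      have := k.symm ▸ Finset.mem_univ (ε ⟨v, hv⟩)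
      simpa using this
    have := Finset.card_le_card this
    omega
  · intro x hx y hy k
    have := hb.injOn (pr x hx) (pr y hy) k
    funext i
    rw [← p1 x i, ← p1 y i, this]
  · classical
    refine ⟨{Finset.univ.image fun i : Fin τ.card => Pi.single i (1 : ℝ)}, ?_, fun s _ =>
      ⟨G.toAffineMap, fun x _ => hG x⟩⟩
    rw [← convexHull_basis_eq_stdSimplex]
    ext x
    simp only [mem_cover, Finset.mem_singleton, exists_eq_left, Finset.coe_image, Finset.coe_univ,
      image_univ]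
    congr! 3
    funext i j
    simp [Pi.single_apply, eq_comm]
  · rw [← hb.image_eq]
    refine Subset.antisymm ?_ (union_subset (image_mono hsub) ?_)
    · rintro _ ⟨u, ⟨u1, s, hs, u2, u3⟩, rfl⟩
      rw [hK, Finset.mem_insert, Finset.mem_insert] at hs
      rcases hs with rfl | rfl | hs
      · obtain ⟨x, hx, rfl⟩ := ps u u1 u2 u3
        exact Or.inr ⟨x, hx, rfl⟩
      · obtain ⟨x, hx, rfl⟩ := ps u u1 (fun v hv => u2 v fun a => hv (hστ a))
          (by rw [← u3]; exact (Finset.sum_subset hστ fun v _ hv => u2 v hv).symm)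
        exact Or.inr ⟨x, hx, rfl⟩
      · exact Or.inl ⟨u, ⟨u1, s, hs, u2, u3⟩, rfl⟩
    · rintro _ ⟨x, hx, rfl⟩
      exact ⟨_, pr x hx, rfl⟩
  · refine Subset.antisymm ?_ ?_
    · rintro _ ⟨⟨u, hu, k⟩, x, hx, rfl⟩
      have k' := hb.injOn (hsub hu) (pr x hx) k
      refine ⟨x, ⟨hx, by_contra fun a => hσ ?_⟩, rfl⟩
      obtain ⟨-, s, hs, u2, -⟩ := hu
      refine K.down s hs σ (fun v hv => by_contra fun b => a ⟨ε ⟨v, hστ hv⟩, by simpa using hv, ?_⟩)
        hσn
      rw [← p1 x, ← k']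
      simpa using u2 v b
    · rintro _ ⟨x, ⟨hx, i, hi, h0⟩, rfl⟩
      refine ⟨⟨push x, ?_, rfl⟩, x, hx, rfl⟩
      have hi' : (ε.symm i : V) ∈ σ := by simpa using hi
      have hne : (τ.erase (ε.symm i)).Nonempty := by
        rw [← Finset.card_pos, Finset.card_erase_of_mem (ε.symm i).2]
        have := hσn.card_pos
        omega
      have hf := K'.down τ hτ' _ (Finset.erase_subset _ _) hne
      rw [hK, Finset.mem_insert, Finset.mem_insert] at hf
      have h0' : push x (ε.symm i) = 0 := by rw [p1, h0]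
      rcases hf with k | k | k
      · exact absurd (k.ge (ε.symm i).2) (Finset.notMem_erase _ _)
      · exact absurd (k.ge hi') (Finset.notMem_erase _ _)
      · refine ⟨(pm x hx).1, _, k, fun v hv => ?_, ?_⟩
        · by_cases a : v = ε.symm i
          · rw [a, h0']
          · exact p0 x v fun b => hv (Finset.mem_erase.2 ⟨a, b⟩)
        · rw [Finset.sum_erase _ h0', (pm x hx).2]

end MP35.PL
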