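import Pool.Agent.Lib.MP_35c604_gt.PData
import Pool.Agent.Lib.MP_35c604_gt.PCol
import Pool.Agent.Lib.MP_35c604_gt.PRealB
import Pool.Agent.Lib.MP_35c604_gt.PDim
import Pool.Agent.Lib.MP_35c604_gt.PChart
import Pool.Agent.Lib.MP_35c604_gt.PConv
import Pool.Agent.Lib.MP_35c604_gt.PChk

/-! Assembly of the piecewise linear version. -/

namespace MP35.PL

open Set SC

/-- The invariant `J` for polyhedra. -/
def JP (J : Invt) (X : Poly) : Prop := ∀ A, Aff A → Adapt A X.set → J.P (D X.set A)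

theorem Poly.ev_adapt (X : Poly) : Ev fun A => Adapt A X.set := by
  obtain ⟨S, h⟩ := X.fin
  rw [h]
  exact ev_cover S

theorem Poly.plEmb_id (X : Poly) : PLEmb id X.set := by
  obtain ⟨S, h⟩ := X.fin
  rw [h]
  exact MP35.PL.plEmb_id S

theorem JP_iff (J : Invt) (X : Poly) {A} (hA : Aff A) (hX : Adapt A X.set) :
    JP J X ↔ J.P (D X.set A) :=
  ⟨fun h => h A hA hX, fun h A' hA' hX' => (D_indep hA hX hA' hX' J).1 h⟩

theorem JP_move (J : Invt) {X Y : Poly} (h : X.Move Y) : JP J X ↔ JP J Y := by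
  obtain ⟨Z, f, h1, h2, h3⟩ := h
  obtain ⟨A, hA, a1, a2⟩ := (X.ev_adapt.and h2.ev_adapt).exists
  obtain ⟨A', hA', b⟩ := Y.ev_adapt.exists
  rw [JP_iff J X hA a1, JP_iff J Y hA' b]
  have e : SE (D Z A) (D Y.set A') := by
    rw [← h3] at b ⊢
    exact se_hom h2 hA a2 hA' b
  rcases h1 with rfl | h1
  · exact e J
  · exact ((se_elem h1 (h2.2.imp fun _ k => k.1) hA a1 a2).trans e) J

theorem JP_simple (J : Invt) {X Y : Poly} (h : X.SimpleEq Y) : JP J X ↔ JP J Y := by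
  induction h with
  | rel _ _ h => exact JP_move J h
  | refl => rfl
  | symm _ _ _ ih => exact ih.symm
  | trans _ _ _ _ _ i1 i2 => exact i1.trans i2

theorem not_typeEmbeds (J : Invt)
    (hJ : ∀ (V : Type) [DecidableEq V] (L' : SC V), J.P L' → L'.DimLE 2 → ¬ L'.Embeds)
    {X : Poly} (hX : JP J X) : ¬ X.TypeEmbeds := by
  classical
  rintro ⟨Y, h1, ⟨-, S, hS, hd⟩, M, hM, f, hf, hfM⟩
  have hY := (JP_simple J h1).1 hX
  obtain ⟨A0, hA0, a0⟩ := Y.ev_adapt.exists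
  obtain ⟨g, hg, -⟩ := hf.inv
  obtain ⟨SM, hSM⟩ := M.fin
  rw [hSM] at hM hfM
  have hY0 := hY A0 hA0 a0
  rw [hS] at hf hg hfM a0 hY0
  obtain ⟨A, hA, ⟨a1, a2⟩, a3⟩ :=
    ((hg.ev_adapt.and (ev_dim (k := 2) hf hd)).and (ev_manifold hM)).exists
  refine hJ _ _ ((se_hom hf hA0 a0 hA a1 J).1 hY0) a2 ⟨_, id, a3, injOn_id _, fun t ht => ?_⟩
  obtain ⟨u, hu, rfl⟩ := mem_map.1 ht
  rw [Finset.image_id]
  exact oc_mono (sv_finite hA.1 _) (image_mono hfM) hu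

/-- The polyhedron of a complex with vertices below `n`. -/
noncomputable def geo (n : ℕ) (K : SC ℕ) (h : ∀ v ∈ K.verts, v < n) : Poly :=
  ⟨n, lin (ee n) '' K.real, (real_ee h).cover.imp fun _ k => k.1⟩

theorem verts_mono {K K' : SC ℕ} (h : K.faces ⊆ K'.faces) : K.verts ⊆ K'.verts := fun _ k => h k

theorem real_mono {K K' : SC ℕ} (h : K.faces ⊆ K'.faces) : K.real ⊆ K'.real :=
  fun _ k => ⟨k.1, k.2.imp fun _ a => ⟨h a.1, a.2⟩⟩

theorem geo_collapse {n : ℕ} {K K1 : SC ℕ} (hc : Collapse K K1) (h : ∀ v ∈ K.verts, v < n) :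
    (geo n K h).SimpleEq (geo n K1 fun v k => h v (verts_mono hc.subset k)) := by
  induction hc with
  | refl => exact Relation.EqvGen.refl _
  | @tail B C h1 h2 ih =>
    have hB : ∀ v ∈ B.verts, v < n := fun v k => h v (verts_mono (Collapse.subset h1) k)
    have hC : ∀ v ∈ C.verts, v < n := fun v k => hB v (verts_mono (match_expand_subset h2) k)
    refine Relation.EqvGen.trans _ _ _ ih (Relation.EqvGen.rel _ _
      ⟨lin (ee n) '' C.real, id, Or.inr ((real_ee hB).elem h2), ?_, image_id _⟩)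
    exact (geo n C hC).plEmb_id

theorem geo_is2 {n : ℕ} {K : SC ℕ} (h : ∀ v ∈ K.verts, v < n) (h1 : K.Connected)
    (h2 : K.DimLE 2) : (geo n K h).Is2 := by
  obtain ⟨S, hS, hS'⟩ := (real_ee h).cover
  refine ⟨(real_ee h).conn h1, S, hS, fun s hs => ?_⟩
  obtain ⟨t, ht, -, k⟩ := hS' s hs
  exact k.trans (h2 t ht)

theorem exists_bound (K : SC ℕ) : ∃ n, ∀ v ∈ K.verts, v < n :=
  ⟨(K.faces.biUnion id).sup id + 1, fun v hv => Nat.lt_succ_of_le
    (Finset.le_sup (f := id) (Finset.mem_biUnion.2 ⟨{v}, hv, Finset.mem_singleton_self v⟩))⟩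

theorem main : ∃ K L : Poly, K.Is2 ∧ L.Is2 ∧ Nonempty (ContinuousMap.HomotopyEquiv K.set L.set) ∧
    ¬ K.SimpleEq L ∧ K.TypeEmbeds ∧ ¬ L.TypeEmbeds := by
  obtain ⟨M, hM, hcv⟩ := exists_cvx
  obtain ⟨K, L, K1, k1, k2, l1, l2, ⟨e⟩, hc, hs, J, hL, hJ⟩ := main2 M hM
  obtain ⟨a, ha⟩ := exists_bound K
  obtain ⟨b, hb⟩ := exists_bound M
  obtain ⟨n, hn⟩ := exists_bound L
  have hK : ∀ v ∈ K.verts, v < a + b := fun v k => (ha v k).trans_le (Nat.le_add_right _ _)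
  have hM' : ∀ v ∈ M.verts, v < a + b := fun v k => (hb v k).trans_le (Nat.le_add_left _ _)
  have hneg : ¬ (geo n L hn).TypeEmbeds :=
    not_typeEmbeds J hJ fun A hA hX => ((real_ee hn).se hA hX J).1 hL
  have hpos : (geo (a + b) K hK).TypeEmbeds := by
    refine ⟨_, geo_collapse hc hK,
      geo_is2 _ ((SE.of_collapse hc).conn k1) fun t ht => k2 t (hc.subset ht),
      geo (a + b) M hM', mfd_of_cvx (real_ee hM') (fun r => ?_) hcv, id, ?_, ?_⟩
    · obtain ⟨G, hG⟩ := ee_lin (n := a + b) r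
      exact ⟨G, fun u hu => hG u (hM' u hu)⟩
    · exact Poly.plEmb_id _
    · exact (image_id _).subset.trans (image_mono (real_mono hs))
  obtain ⟨eK⟩ := (real_ee hK).homeo
  obtain ⟨eL⟩ := (real_ee hn).homeo
  refine ⟨geo _ K hK, geo n L hn, geo_is2 _ k1 k2, geo_is2 _ l1 l2,
    ⟨(eK.symm.toHomotopyEquiv.trans e).trans eL.toHomotopyEquiv⟩, fun h => ?_, hpos, hneg⟩
  obtain ⟨Y, h1, h2⟩ := hpos
  exact hneg ⟨Y, Relation.EqvGen.trans _ _ _ (Relation.EqvGen.symm _ _ h) h1, h2⟩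

end MP35.PL
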