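import Pool.Agent.Lib.MP_35c604_gt.PBase

/-! TASK QUIL: the fibre lemma for order complexes. -/

namespace MP35.PL

open Set SC

variable {P Q : Type} [PartialOrder P] [PartialOrder Q] {S : Set P} {T : Set Q}

/-- A finite set whose elements are pairwise comparable. -/
def pquilCh {P : Type} [PartialOrder P] (θ : Finset P) : Prop :=
  ∀ x ∈ θ, ∀ y ∈ θ, x ≤ y ∨ y ≤ x

theorem pquil_mem_oc (hS : S.Finite) {θ : Finset P} :
    θ ∈ (oc S).faces ↔ θ.Nonempty ∧ (∀ x ∈ θ, x ∈ S) ∧ pquilCh θ := by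
  rw [mem_oc hS]
  refine and_congr_right fun _ => and_congr Iff.rfl ⟨fun h x hx y hy => h.total hx hy, ?_⟩
  exact fun h x hx y hy _ => h x hx y hy

theorem pquil_top [Nonempty P] : ∃ top : Finset P → P, ∀ θ : Finset P, θ.Nonempty → pquilCh θ →
    top θ ∈ θ ∧ ∀ y ∈ θ, y ≤ top θ := by
  have h : ∀ θ : Finset P, ∃ x : P, θ.Nonempty → pquilCh θ → x ∈ θ ∧ ∀ y ∈ θ, y ≤ x := by
    intro θ
    rcases θ.eq_empty_or_nonempty with e | e
    · exact ⟨Classical.arbitrary P, fun k => absurd e k.ne_empty⟩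
    obtain ⟨x, hx⟩ := θ.exists_maximal e
    refine ⟨x, fun _ k => ⟨hx.prop, fun y hy => ?_⟩⟩
    rcases k x hx.prop y hy with c | c
    exacts [hx.le_of_ge hy c, c]
  choose top h using h
  exact ⟨top, h⟩

theorem pquil_bot [Nonempty P] : ∃ bot : Finset P → P, ∀ θ : Finset P, θ.Nonempty → pquilCh θ →
    bot θ ∈ θ ∧ ∀ y ∈ θ, bot θ ≤ y := by
  obtain ⟨top, h⟩ := pquil_top (P := Pᵒᵈ)
  exact ⟨top, fun θ h1 h2 => h θ h1 fun x hx y hy => (h2 x hx y hy).symm⟩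

theorem pquil_rk (hS : S.Finite) : ∃ (rk : P → ℕ) (N : ℕ), (∀ x, rk x ≤ N) ∧
    ∀ x ∈ S, ∀ y, x < y → rk x < rk y := by
  refine ⟨fun x => {y ∈ S | y < x}.ncard, S.ncard, fun x => ncard_le_ncard (sep_subset _ _) hS,
    fun x hx y hxy => ncard_lt_ncard ⟨fun z hz => ⟨hz.1, hz.2.trans hxy⟩, fun k => ?_⟩
      (hS.subset (sep_subset _ _))⟩
  exact lt_irrefl x (k ⟨hx, hxy⟩).2

theorem pquil_rk' (hS : S.Finite) : ∃ rk : P → ℕ, ∀ x ∈ S, ∀ y, y < x → rk x < rk y := by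
  obtain ⟨rk, -, -, h⟩ := pquil_rk (P := Pᵒᵈ) (S := S) hS
  exact ⟨rk, h⟩

/-- The faces of the mapping cylinder. -/
def pquilP (S : Set P) (T : Set Q) (π : P → Q) (s : Finset (P ⊕ Q)) : Prop :=
  s.Nonempty ∧ (∀ x ∈ s.toLeft, x ∈ S) ∧ (∀ c ∈ s.toRight, c ∈ T) ∧ pquilCh s.toLeft ∧
    pquilCh s.toRight ∧ ∀ x ∈ s.toLeft, ∀ c ∈ s.toRight, π x ≤ c

theorem pquil_W (hS : S.Finite) (hT : T.Finite) (π : P → Q) :
    ∃ W : SC (P ⊕ Q), ∀ s, s ∈ W.faces ↔ pquilP S T π s := by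
  classical
  have mem : ∀ s, s ∈ (hS.toFinset.disjSum hT.toFinset).powerset.filter (pquilP S T π) ↔
      pquilP S T π s := fun s => by
    rw [Finset.mem_filter, and_iff_right_iff_imp, Finset.mem_powerset, Finset.subset_disjSum]
    rintro ⟨-, h2, h3, -⟩
    exact ⟨fun x hx => hS.mem_toFinset.2 (h2 x hx), fun x hx => hT.mem_toFinset.2 (h3 x hx)⟩
  refine ⟨⟨_, fun s hs => ((mem s).1 hs).1, fun s hs t hts ht => (mem t).2 ?_⟩, mem⟩
  obtain ⟨-, h2, h3, h4, h5, h6⟩ := (mem s).1 hs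
  have l := Finset.toLeft_subset_toLeft hts
  have r := Finset.toRight_subset_toRight hts
  exact ⟨ht, fun x k => h2 x (l k), fun x k => h3 x (r k), fun x k y k' => h4 x (l k) y (l k'),
    fun x k y k' => h5 x (r k) y (r k'), fun x k y k' => h6 x (l k) y (r k')⟩

theorem pquil_right [DecidableEq P] [DecidableEq Q] [Nonempty P] (hS : S.Finite) (hT : T.Finite)
    {π : P → Q} (h1 : MapsTo π S T) (h2 : MonotoneOn π S) {W : SC (P ⊕ Q)}
    (hW : ∀ s, s ∈ W.faces ↔ pquilP S T π s) : Collapse W ((oc T).map Sum.inr) := by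
  have mem : ∀ s, s ∈ W.faces \ ((oc T).map (Sum.inr : Q → P ⊕ Q)).faces ↔
      pquilP S T π s ∧ s.toLeft.Nonempty := fun s => by
    rw [Finset.mem_sdiff, hW, match_mem_inr, and_congr_right_iff, Finset.nonempty_iff_ne_empty]
    refine fun k => ⟨fun a e => a ⟨(pquil_mem_oc hT).2 ⟨?_, k.2.2.1, k.2.2.2.2.1⟩, e⟩,
      fun a b => a b.2⟩
    simpa [e] using match_ne.1 k.1
  obtain ⟨top, htop⟩ := pquil_top (P := P)
  obtain ⟨rk, -, -, hrk⟩ := pquil_rk hS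
  refine Exists.elim (match_toggle (W.faces \ ((oc T).map Sum.inr).faces)
    (fun s => Sum.inr (π (top s.toLeft))) (fun s => rk (top s.toLeft))
    (fun s hs t e => ?_) fun s hs t ht a => ?_) fun m ⟨r, hm⟩ => ?_
  rotate_right
  · refine collapse_of_matching (fun s k => (hW s).2 ?_) hm
    obtain ⟨k1, k2⟩ := match_mem_inr.1 k
    obtain ⟨c1, c2, c3⟩ := (pquil_mem_oc hT).1 k1
    exact ⟨match_ne.2 (Or.inr c1), by simp [k2], c2, by simp [k2, pquilCh], c3, by simp [k2]⟩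
  · obtain ⟨⟨-, k2, k3, k4, k5, k6⟩, k7⟩ := (mem s).1 hs
    obtain ⟨t1, t2⟩ := htop _ k7 k4
    have eL : t.toLeft = s.toLeft := by
      ext b
      simpa using Finset.ext_iff.1 e (Sum.inl b)
    have eR : ∀ c ∈ t.toRight, c = π (top s.toLeft) ∨ c ∈ s.toRight := by
      intro v hv
      have := Finset.ext_iff.1 e (Sum.inr v)
      simp only [Finset.mem_erase, ne_eq, Sum.inr.injEq, Finset.mem_toRight.1 hv, and_true] at this
      rw [Finset.mem_toRight]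
      tauto
    simp only [eL, and_true]
    refine (mem t).2 ⟨⟨match_ne.2 (Or.inl (eL ▸ k7)), eL ▸ k2, fun c k => ?_, eL ▸ k4,
      fun c k d k' => ?_, ?_⟩, eL ▸ k7⟩
    · rcases eR c k with rfl | u
      exacts [h1 (k2 _ t1), k3 c u]
    · rcases eR c k with rfl | u <;> rcases eR d k' with rfl | u'
      exacts [Or.inl le_rfl, Or.inl (k6 _ t1 d u'), Or.inr (k6 _ t1 c u), k5 c u d u']
    · rw [eL]
      intro x hx c k
      rcases eR c k with rfl | u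
      exacts [h2 (k2 x hx) (k2 _ t1) (t2 x hx), k6 x hx c u]
  · obtain ⟨⟨-, -, -, k4, -, -⟩, k7⟩ := (mem s).1 hs
    obtain ⟨⟨-, j2, -, j4, -, -⟩, j7⟩ := (mem t).1 ht
    have l1 := (htop _ j7 j4).1
    have l2 := (htop _ k7 k4).2 _ (Finset.toLeft_subset_toLeft a l1)
    rcases l2.eq_or_lt with e | e
    · exact Or.inl (by simp only [e, and_self])
    · exact Or.inr (hrk _ (j2 _ l1) _ e)

theorem pquil_left [DecidableEq P] [DecidableEq Q] [Nonempty P] (hS : S.Finite) (hT : T.Finite)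
    {π : P → Q}
    (h3 : ∀ c ∈ T, ∃ (r : P → P) (m : P), m ∈ S ∧ π m ≤ c ∧ r m = m ∧
      (∀ x ∈ S, π x ≤ c → r x ∈ S ∧ π (r x) ≤ c ∧ x ≤ r x ∧ r (r x) = r x ∧ m ≤ r x) ∧
      ∀ x ∈ S, ∀ y ∈ S, π y ≤ c → x ≤ y → r x ≤ r y) {W : SC (P ⊕ Q)}
    (hW : ∀ s, s ∈ W.faces ↔ pquilP S T π s) : Collapse W ((oc S).map Sum.inl) := by
  have mem : ∀ s, s ∈ W.faces \ ((oc S).map (Sum.inl : P → P ⊕ Q)).faces ↔
      pquilP S T π s ∧ s.toRight.Nonempty := fun s => by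
    rw [Finset.mem_sdiff, hW, match_mem_inl, and_congr_right_iff, Finset.nonempty_iff_ne_empty]
    refine fun k => ⟨fun a e => a ⟨(pquil_mem_oc hS).2 ⟨?_, k.2.1, k.2.2.2.1⟩, e⟩,
      fun a b => a b.2⟩
    simpa [e] using match_ne.1 k.1
  have : Nonempty Q := ⟨π (Classical.arbitrary P)⟩
  obtain ⟨top, htop⟩ := pquil_top (P := P)
  obtain ⟨bot, hbot⟩ := pquil_bot (P := Q)
  obtain ⟨rk, N, hN, hrk⟩ := pquil_rk hS
  obtain ⟨rq, hrq⟩ := pquil_rk' hT
  choose! R M hM using h3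
  obtain ⟨nf, hnf⟩ : ∃ nf : Q → Finset P → Finset P, ∀ c θ y, y ∈ nf c θ ↔ y ∈ θ ∧ R c y ≠ y :=
    ⟨fun c θ => θ.filter fun y => R c y ≠ y, fun c θ y => Finset.mem_filter⟩
  obtain ⟨tg, tg1, tg2⟩ : ∃ tg : Q → Finset P → P, (∀ c F, F.Nonempty → tg c F = R c (top F)) ∧
      ∀ c, tg c ∅ = M c :=
    ⟨fun c F => if F.Nonempty then R c (top F) else M c, fun c F h => if_pos h,
      fun c => if_neg Finset.not_nonempty_empty⟩
  obtain ⟨lv, lv1, lv2⟩ : ∃ lv : Finset P → ℕ, (∀ F, F.Nonempty → lv F = rk (top F) + 1) ∧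
      lv ∅ = 0 :=
    ⟨fun F => if F.Nonempty then rk (top F) + 1 else 0, fun F h => if_pos h,
      if_neg Finset.not_nonempty_empty⟩
  have hlv : ∀ F, lv F < N + 2 := fun F => by
    rcases F.eq_empty_or_nonempty with rfl | e
    · omega
    · have := hN (top F)
      rw [lv1 F e]; omega
  have key : ∀ c ∈ T, ∀ θ : Finset P, (∀ x ∈ θ, x ∈ S) → pquilCh θ → (∀ x ∈ θ, π x ≤ c) →
      tg c (nf c θ) ∈ S ∧ π (tg c (nf c θ)) ≤ c ∧ R c (tg c (nf c θ)) = tg c (nf c θ) ∧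
        ∀ y ∈ θ, y ≤ tg c (nf c θ) ∨ tg c (nf c θ) ≤ y := by
    intro c hc θ k1 k2 k3
    obtain ⟨m1, m2, m3, m4, m5⟩ := hM c hc
    rcases (nf c θ).eq_empty_or_nonempty with e | e
    · rw [e, tg2]
      refine ⟨m1, m2, m3, fun y hy => Or.inr ?_⟩
      have h : R c y = y := by
        by_contra h
        exact Finset.notMem_empty y (e ▸ (hnf c θ y).2 ⟨hy, h⟩)
      exact h ▸ (m4 y (k1 y hy) (k3 y hy)).2.2.2.2
    · obtain ⟨t1, t2⟩ := htop _ e fun x hx y hy => k2 x ((hnf c θ x).1 hx).1 y ((hnf c θ y).1 hy).1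
      have t3 := ((hnf c θ _).1 t1).1
      obtain ⟨r1, r2, r3, r4, -⟩ := m4 _ (k1 _ t3) (k3 _ t3)
      rw [tg1 c _ e]
      refine ⟨r1, r2, r4, fun y hy => ?_⟩
      by_cases h : R c y = y
      · rcases k2 y hy _ t3 with u | u
        · exact Or.inl (u.trans r3)
        · exact Or.inr (h ▸ m5 _ (k1 _ t3) y (k1 y hy) (k3 y hy) u)
      · exact Or.inl ((t2 y ((hnf c θ y).2 ⟨hy, h⟩)).trans r3)
  refine Exists.elim (match_toggle (W.faces \ ((oc S).map Sum.inl).faces)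
    (fun s => Sum.inl (tg (bot s.toRight) (nf (bot s.toRight) s.toLeft)))
    (fun s => rq (bot s.toRight) * (N + 2) + lv (nf (bot s.toRight) s.toLeft))
    (fun s hs t e => ?_) fun s hs t ht a => ?_) fun m ⟨r, hm⟩ => ?_
  rotate_right
  · refine collapse_of_matching (fun s k => (hW s).2 ?_) hm
    obtain ⟨k1, k2⟩ := match_mem_inl.1 k
    obtain ⟨c1, c2, c3⟩ := (pquil_mem_oc hS).1 k1
    exact ⟨match_ne.2 (Or.inl c1), c2, by simp [k2], c3, by simp [k2, pquilCh], by simp [k2]⟩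
  · obtain ⟨⟨-, k2, k3, k4, k5, k6⟩, k7⟩ := (mem s).1 hs
    obtain ⟨b1, b2⟩ := hbot _ k7 k5
    obtain ⟨a1, a2, a3, a4⟩ := key _ (k3 _ b1) _ k2 k4 fun x hx => k6 x hx _ b1
    have eR : t.toRight = s.toRight := by
      ext b
      simpa using Finset.ext_iff.1 e (Sum.inr b)
    have eL : ∀ v, v ≠ tg (bot s.toRight) (nf (bot s.toRight) s.toLeft) →
        (v ∈ t.toLeft ↔ v ∈ s.toLeft) := by
      intro v hv
      have := Finset.ext_iff.1 e (Sum.inl v)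
      simpa [hv] using this
    have eF : nf (bot s.toRight) t.toLeft = nf (bot s.toRight) s.toLeft := by
      ext v
      rw [hnf, hnf]
      refine and_congr_left fun hv => eL v fun k => hv ?_
      rw [k, a3]
    have eL' : ∀ v ∈ t.toLeft, v = tg (bot s.toRight) (nf (bot s.toRight) s.toLeft) ∨
        v ∈ s.toLeft := fun v hv => (em _).imp id fun k => (eL v k).1 hv
    simp only [eR, eF, and_true]
    refine (mem t).2 ⟨⟨match_ne.2 (Or.inr (eR ▸ k7)), fun x k => ?_, eR ▸ k3,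
      fun x k y k' => ?_, eR ▸ k5, ?_⟩, eR ▸ k7⟩
    · rcases eL' x k with u | u
      exacts [u ▸ a1, k2 x u]
    · rcases eL' x k with u | u <;> rcases eL' y k' with u' | u'
      exacts [Or.inl (u.trans u'.symm).le, u ▸ (a4 y u').symm, u' ▸ a4 x u, k4 x u y u']
    · rw [eR]
      intro x hx c k
      rcases eL' x hx with u | u
      exacts [u ▸ a2.trans (b2 c k), k6 x u c k]
  · obtain ⟨⟨-, -, -, k4, k5, -⟩, k7⟩ := (mem s).1 hs
    obtain ⟨⟨-, j2, j3, j4, j5, -⟩, j7⟩ := (mem t).1 ht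
    have l1 := (hbot _ j7 j5).1
    have l2 := (hbot _ k7 k5).2 _ (Finset.toRight_subset_toRight a l1)
    rcases l2.eq_or_lt with e | e
    · simp only [← e]
      generalize bot s.toRight = c
      have sub : nf c t.toLeft ⊆ nf c s.toLeft := fun v hv =>
        (hnf c _ v).2 ⟨Finset.toLeft_subset_toLeft a ((hnf c _ v).1 hv).1, ((hnf c _ v).1 hv).2⟩
      rcases (nf c s.toLeft).eq_empty_or_nonempty with f | f
      · rw [f] at sub
        rw [Finset.subset_empty.1 sub, f]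
        exact Or.inl ⟨rfl, rfl⟩
      rcases (nf c t.toLeft).eq_empty_or_nonempty with f' | f'
      · rw [f', lv2, lv1 _ f]
        exact Or.inr (by omega)
      have t1 := (htop _ f' fun x hx y hy =>
        j4 x ((hnf c _ x).1 hx).1 y ((hnf c _ y).1 hy).1).1
      have t2 := (htop _ f fun x hx y hy =>
        k4 x ((hnf c _ x).1 hx).1 y ((hnf c _ y).1 hy).1).2 _ (sub t1)
      rw [tg1 c _ f, tg1 c _ f', lv1 _ f, lv1 _ f']
      rcases t2.eq_or_lt with g | g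
      · rw [g]
        exact Or.inl ⟨rfl, rfl⟩
      · have := hrk _ (j2 _ ((hnf c _ _).1 t1).1) _ g
        exact Or.inr (by omega)
    · refine Or.inr ?_
      have u1 := Nat.mul_le_mul_right (N + 2) (Nat.succ_le_of_lt (hrq _ (j3 _ l1) _ e))
      have u2 := hlv (nf (bot t.toRight) t.toLeft)
      rw [Nat.succ_mul] at u1
      omega

theorem oc_quillen (hS : S.Finite) (hT : T.Finite) (π : P → Q) (h1 : MapsTo π S T)
    (h2 : MonotoneOn π S)
    (h3 : ∀ c ∈ T, ∃ (r : P → P) (m : P), m ∈ S ∧ π m ≤ c ∧ r m = m ∧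
      (∀ x ∈ S, π x ≤ c → r x ∈ S ∧ π (r x) ≤ c ∧ x ≤ r x ∧ r (r x) = r x ∧ m ≤ r x) ∧
      ∀ x ∈ S, ∀ y ∈ S, π y ≤ c → x ≤ y → r x ≤ r y) : SE (oc S) (oc T) := by
  classical
  rcases isEmpty_or_nonempty P with hP | hP
  · refine (SE.map (f := π) fun x => isEmptyElim x).symm.trans (SE.of_eq (ext' ?_))
    ext s
    rw [mem_map, pquil_mem_oc hT]
    constructor
    · rintro ⟨t, ht, -⟩
      exact isEmptyElim ((oc S).ne t ht).choose
    · rintro ⟨⟨c, hc⟩, k, -⟩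
      obtain ⟨-, m, -⟩ := h3 c (k c hc)
      exact isEmptyElim m
  obtain ⟨W, hW⟩ := pquil_W hS hT π
  exact (SE.map Sum.inl_injective.injOn).symm.trans
    ((SE.of_collapse (pquil_left hS hT h3 hW)).symm.trans
      ((SE.of_collapse (pquil_right hS hT h1 h2 hW)).trans (SE.map Sum.inr_injective.injOn)))

end MP35.PL
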