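import Pool.Agent.Lib.MP_35c604_gt.PQuil

/-! TASK QUILB: consequences of the fibre lemma, and two invariants. -/

namespace MP35.PL

open Set SC

section
variable {P Q : Type} [PartialOrder P] [PartialOrder Q] {S : Set P} {T : Set Q}

theorem oc_max (hS : S.Finite) (hT : T.Finite) (π : P → Q) (h1 : MapsTo π S T)
    (h2 : MonotoneOn π S) (h3 : ∀ c ∈ T, ∃ m ∈ S, π m ≤ c ∧ ∀ x ∈ S, π x ≤ c → x ≤ m) :
    SE (oc S) (oc T) := by
  refine oc_quillen hS hT π h1 h2 fun c hc => ?_
  obtain ⟨m, a1, a2, a3⟩ := h3 c hc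
  exact ⟨fun _ => m, m, a1, a2, rfl, fun x hx k => ⟨a1, a2, a3 x hx k, rfl, le_rfl⟩,
    fun _ _ _ _ _ _ => le_rfl⟩

theorem oc_up (hS : S.Finite) (f : P → P) (h1 : MapsTo f S S) (h2 : MonotoneOn f S)
    (h3 : ∀ x ∈ S, x ≤ f x) (h4 : ∀ x ∈ S, f (f x) = f x) :
    SE (oc S) (oc {x ∈ S | f x = x}) := by
  refine oc_max hS (hS.subset fun _ k => k.1) f (fun x hx => ⟨h1 hx, h4 x hx⟩) h2 fun c hc => ?_
  exact ⟨c, hc.1, hc.2.le, fun x hx k => (h3 x hx).trans k⟩

theorem oc_down (hS : S.Finite) (f : P → P) (h1 : MapsTo f S S) (h2 : MonotoneOn f S)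
    (h3 : ∀ x ∈ S, f x ≤ x) (h4 : ∀ x ∈ S, f (f x) = f x) :
    SE (oc S) (oc {x ∈ S | f x = x}) := by
  refine (oc_max (hS.subset fun _ k => k.1) hS id (fun x hx => hx.1) (fun _ _ _ _ k => k)
    fun c hc => ?_).symm
  exact ⟨f c, ⟨h1 hc, h4 c hc⟩, h3 c hc, fun x hx k => hx.2.symm.le.trans (h2 hx.1 hc k)⟩

theorem oc_relabel [Nonempty Q] {α β : Type} {X : Set α} {Y : Set β} {lam : α → P} {mu : β → Q}
    (f : α → β) (hf : f '' X = Y) (hP : (lam '' X).Finite) (hQ : (mu '' Y).Finite)
    (h : ∀ x ∈ X, ∀ y ∈ X, lam x ≤ lam y ↔ mu (f x) ≤ mu (f y)) :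
    SE (oc (lam '' X)) (oc (mu '' Y)) := by
  have ex : ∀ p : P, ∃ q : Q, ∀ x ∈ X, lam x = p → q = mu (f x) := fun p => by
    by_cases k : ∃ x ∈ X, lam x = p
    · obtain ⟨x, hx, rfl⟩ := k
      exact ⟨mu (f x), fun y hy e =>
        le_antisymm ((h x hx y hy).1 e.ge) ((h y hy x hx).1 e.le)⟩
    · exact ⟨Classical.arbitrary Q, fun x hx e => absurd ⟨x, hx, e⟩ k⟩
  choose π hπ using ex
  have e : ∀ x ∈ X, π (lam x) = mu (f x) := fun x hx => hπ _ x hx rfl
  subst hf
  refine oc_max hP hQ π ?_ ?_ ?_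
  · rintro _ ⟨x, hx, rfl⟩
    exact ⟨f x, mem_image_of_mem _ hx, (e x hx).symm⟩
  · rintro _ ⟨x, hx, rfl⟩ _ ⟨y, hy, rfl⟩ k
    rw [e x hx, e y hy]
    exact (h x hx y hy).1 k
  · rintro _ ⟨_, ⟨x, hx, rfl⟩, rfl⟩
    refine ⟨lam x, mem_image_of_mem _ hx, (e x hx).le, ?_⟩
    rintro _ ⟨y, hy, rfl⟩ k
    rw [e y hy] at k
    exact (h y hy x hx).2 k

end

theorem se_faces {V : Type} (K : SC V) : SE K (oc (K.faces : Set (Finset V))) := by
  classical
  have hF : Full K (fun _ => True) K := fun s => ⟨fun k => ⟨k, fun _ _ => trivial⟩, fun k => k.1⟩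
  obtain ⟨W, h1, h2⟩ := exists_cyl hF
  have e : NC K (fun _ => True) = (oc (K.faces : Set (Finset V))).map some := by
    refine ext' (Finset.ext fun θ => ?_)
    rw [match_mem_NC, mem_map]
    constructor
    · rintro ⟨a1, a2, a3, a4⟩
      have sub : θ ⊆ K.faces.image some := fun x hx => by
        cases x with
        | none => exact absurd hx a2
        | some τ => exact Finset.mem_image_of_mem _ (a3 τ hx).1
      obtain ⟨t, ht, rfl⟩ := Finset.subset_image_iff.1 sub
      refine ⟨t, (mem_oc K.faces.finite_toSet).2 ⟨Finset.image_nonempty.1 a1,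
        Finset.coe_subset.2 ht, fun x hx y hy _ => ?_⟩, rfl⟩
      exact a4 x y (Finset.mem_image_of_mem _ hx) (Finset.mem_image_of_mem _ hy)
    · rintro ⟨t, ht, rfl⟩
      obtain ⟨a1, a2, a3⟩ := (mem_oc K.faces.finite_toSet).1 ht
      have m : ∀ τ, some τ ∈ t.image some → τ ∈ t := fun τ k => by simpa using k
      refine ⟨a1.image _, by simp, fun τ k => ?_, fun τ τ' k k' => ?_⟩
      · have := a2 (m τ k)
        obtain ⟨v, hv⟩ := K.ne τ this
        exact ⟨this, v, hv, trivial⟩
      · exact a3.total (m τ k) (m τ' k')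
  rw [e] at h2
  exact (SE.map (Sum.inl_injective.injOn)).symm.trans <| (SE.of_collapse h1).symm.trans <|
    (SE.of_collapse h2).trans <| (SE.map Sum.inr_injective.injOn).trans
      (SE.map (Option.some_injective _).injOn)

theorem SE.chi {V W : Type} {K : SC V} {L : SC W} (h : SE K L) : K.chi = L.chi := by
  classical
  refine ((h ⟨fun M => M.chi = K.chi, fun hf => ?_, fun hE => ?_⟩).1 rfl).symm
  · rw [chi_map hf]
  · rw [match_expand_chi hE]

theorem pquilb_inst {V : Type} (i j : DecidableEq V) (K : SC V) :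
    @Connected V i K ↔ @Connected V j K := by
  rw [Subsingleton.elim i j]

theorem pquilb_lift {V W : Type} [DecidableEq V] [DecidableEq W] {K : SC V} {L : SC W}
    (g : V → W) (hg : ∀ a b, {a, b} ∈ K.faces →
      Relation.ReflTransGen (fun a b => {a, b} ∈ L.faces) (g a) (g b)) {u v : V}
    (h : Relation.ReflTransGen (fun a b => {a, b} ∈ K.faces) u v) :
    Relation.ReflTransGen (fun a b => {a, b} ∈ L.faces) (g u) (g v) := by
  induction h with
  | refl => exact Relation.ReflTransGen.refl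
  | tail _ s ih => exact ih.trans (hg _ _ s)

theorem pquilb_map {V W : Type} [DecidableEq V] [DecidableEq W] {f : V → W} {K : SC V}
    (hf : InjOn f K.verts) : (K.map f).Connected ↔ K.Connected := by
  have mv : ∀ v ∈ K.verts, f v ∈ (K.map f).verts := fun v hv =>
    mem_map.2 ⟨{v}, hv, Finset.image_singleton _ _⟩
  constructor
  · rintro ⟨h1, h2⟩
    have ne : K.faces.Nonempty := Finset.image_nonempty.1 h1
    obtain ⟨s, hs⟩ := ne
    obtain ⟨v0, -⟩ := K.ne s hs
    have : Nonempty V := ⟨v0⟩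
    have li := hf.leftInvOn_invFunOn
    refine ⟨⟨s, hs⟩, fun u hu v hv => ?_⟩
    have := pquilb_lift (L := K) (Function.invFunOn f K.verts) (fun a b k => ?_)
      (h2 _ (mv u hu) _ (mv v hv))
    · rwa [li hu, li hv] at this
    obtain ⟨t, ht, e⟩ := mem_map.1 k
    obtain ⟨x, hx, rfl⟩ := Finset.mem_image.1 (e ▸ Finset.mem_insert_self a {b} : a ∈ t.image f)
    obtain ⟨y, hy, rfl⟩ := Finset.mem_image.1
      (e ▸ Finset.mem_insert_of_mem (Finset.mem_singleton_self b) : b ∈ t.image f)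
    rw [li (mem_verts_of_mem ht hx), li (mem_verts_of_mem ht hy)]
    exact Relation.ReflTransGen.single (K.down t ht _
      (Finset.insert_subset hx (Finset.singleton_subset_iff.2 hy)) (Finset.insert_nonempty _ _))
  · rintro ⟨h1, h2⟩
    have vm : ∀ w ∈ (K.map f).verts, ∃ v ∈ K.verts, f v = w := fun w hw => by
      obtain ⟨t, ht, e⟩ := mem_map.1 hw
      obtain ⟨x, hx, rfl⟩ := Finset.mem_image.1 (e ▸ Finset.mem_singleton_self w : w ∈ t.image f)
      exact ⟨x, mem_verts_of_mem ht hx, rfl⟩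
    refine ⟨h1.image _, fun u hu v hv => ?_⟩
    obtain ⟨x, hx, rfl⟩ := vm u hu
    obtain ⟨y, hy, rfl⟩ := vm v hv
    exact pquilb_lift f (fun a b k => Relation.ReflTransGen.single
      (mem_map.2 ⟨_, k, by simp⟩)) (h2 x hx y hy)

theorem pquilb_exp {V : Type} [DecidableEq V] {K K' : SC V} (h : Expand K K') :
    K.Connected ↔ K'.Connected := by
  have sub := match_expand_subset h
  obtain ⟨σ, τ, c1, c2, n1, n2, e⟩ := h
  have mem : ∀ s, s ∈ K'.faces ↔ s = τ ∨ s = σ ∨ s ∈ K.faces := fun s => by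
    simp only [e, Finset.mem_insert]
  have hτ : τ ∈ K'.faces := (mem τ).2 (Or.inl rfl)
  have σne : σ.Nonempty := K'.ne σ ((mem σ).2 (Or.inr (Or.inl rfl)))
  have pos := σne.card_pos
  obtain ⟨a, a1, a2⟩ : ∃ a ∈ τ, a ∉ σ :=
    Finset.exists_of_ssubset (c1.ssubset_of_ne fun k => by rw [k] at c2; omega)
  have old : ∀ s ⊆ τ, a ∈ s → s ≠ τ → s ∈ K.faces := fun s h1 h2 h3 => by
    rcases (mem s).1 (K'.down τ hτ s h1 ⟨a, h2⟩) with k | k | k
    exacts [absurd k h3, absurd (k ▸ h2) a2, k]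
  have ha : {a} ∈ K.faces := old _ (Finset.singleton_subset_iff.2 a1)
    (Finset.mem_singleton_self a) fun k => by rw [← k, Finset.card_singleton] at c2; omega
  have eτ : τ = insert a σ := (Finset.eq_of_subset_of_card_le (Finset.insert_subset a1 c1)
    (by rw [Finset.card_insert_of_notMem a2, c2])).symm
  constructor
  · rintro ⟨h1, h2⟩
    have up : ∀ u v, Relation.ReflTransGen (fun a b => ({a, b} : Finset V) ∈ K.faces) u v →
        Relation.ReflTransGen (fun a b => ({a, b} : Finset V) ∈ K'.faces) u v :=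
      fun u v k => pquilb_lift (L := K') id (fun _ _ k => .single (sub k)) k
    have key : ∀ u ∈ K'.verts,
        Relation.ReflTransGen (fun a b => ({a, b} : Finset V) ∈ K'.faces) u a ∧
        Relation.ReflTransGen (fun a b => ({a, b} : Finset V) ∈ K'.faces) a u := fun u hu => by
      by_cases k : u ∈ τ
      · exact ⟨.single (K'.down τ hτ _ (Finset.insert_subset k (Finset.singleton_subset_iff.2 a1))
          (Finset.insert_nonempty _ _)), .single (K'.down τ hτ _ (Finset.insert_subset a1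
          (Finset.singleton_subset_iff.2 k)) (Finset.insert_nonempty _ _))⟩
      · have hu' : u ∈ K.verts := by
          rcases (mem _).1 hu with k' | k' | k'
          · exact absurd (k' ▸ Finset.mem_singleton_self u) k
          · exact absurd (c1 (k' ▸ Finset.mem_singleton_self u)) k
          · exact k'
        exact ⟨up _ _ (h2 u hu' a ha), up _ _ (h2 a ha u hu')⟩
    exact ⟨h1.mono sub, fun u hu v hv => (key u hu).1.trans (key v hv).2⟩
  · rintro ⟨-, h2⟩
    let g : V → V := fun x => if {x} ∈ K.faces then x else a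
    have g1 : ∀ x, {x} ∈ K.faces → g x = x := fun x k => if_pos k
    have step : ∀ x ∈ τ, Relation.ReflTransGen (fun a b => ({a, b} : Finset V) ∈ K.faces) (g x) a ∧
        Relation.ReflTransGen (fun a b => ({a, b} : Finset V) ∈ K.faces) a (g x) := fun x hx => by
      by_cases k : {x} ∈ K.faces
      · rw [g1 x k]
        have : ({x, a} : Finset V) ∈ K.faces := by
          refine old _ (Finset.insert_subset hx (Finset.singleton_subset_iff.2 a1))
            (Finset.mem_insert_of_mem (Finset.mem_singleton_self a)) fun k' => n1 ?_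
          have s1 : σ ⊆ {x} := fun y hy => by
            rcases Finset.mem_insert.1 (k' ▸ c1 hy : y ∈ ({x, a} : Finset V)) with b | b
            · exact Finset.mem_singleton.2 b
            · exact absurd (Finset.mem_singleton.1 b ▸ hy) a2
          exact K.down _ k σ s1 σne
        exact ⟨.single this, .single (Finset.pair_comm x a ▸ this)⟩
      · rw [show g x = a from if_neg k]
        exact ⟨.refl, .refl⟩
    refine ⟨⟨_, ha⟩, fun u hu v hv => ?_⟩
    have := pquilb_lift (L := K) g (fun x y k => ?_) (h2 u (sub hu) v (sub hv))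
    · rwa [g1 u hu, g1 v hv] at this
    have m1 : x ∈ ({x, y} : Finset V) := Finset.mem_insert_self _ _
    have m2 : y ∈ ({x, y} : Finset V) := Finset.mem_insert_of_mem (Finset.mem_singleton_self _)
    rcases (mem _).1 k with k' | k' | k'
    · exact (step x (k' ▸ m1)).1.trans (step y (k' ▸ m2)).2
    · exact (step x (c1 (k' ▸ m1))).1.trans (step y (c1 (k' ▸ m2))).2
    · rw [g1 x (mem_verts_of_mem k' m1), g1 y (mem_verts_of_mem k' m2)]
      exact .single k'

theorem SE.conn {V W : Type} [DecidableEq V] [DecidableEq W] {K : SC V} {L : SC W} (h : SE K L)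
    (hK : K.Connected) : L.Connected := by
  refine (pquilb_inst _ _ L).1 ((h ⟨fun M => @Connected _ (Classical.decEq _) M, fun hf => ?_,
    fun hE => ?_⟩).1 ((pquilb_inst _ _ K).1 hK))
  · exact (pquilb_inst _ _ _).trans (@pquilb_map _ _ (Classical.decEq _) _ _ _ hf)
  · exact (pquilb_inst _ _ _).trans ((pquilb_exp hE).trans (pquilb_inst _ _ _))

end MP35.PL
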