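import Pool.Agent.Lib.MP_35c604_gt.PtolLoc

/-! TASK PT1: the big complex is a complex. -/

namespace MP35

open Matrix SC

variable {V : Type} [DecidableEq V] {T : Type} [CommRing T] {G : Type} [Group G]

theorem ptola_inc0 {o : V → ℕ} {s t : Finset V} (h : s.card ≠ t.card + 1) : inc o s t = 0 := by
  by_contra e
  exact h (inc_ne_zero_iff.1 e).2

omit [DecidableEq V] in
theorem ptola_sum_sub {X : SC V} (n : ℕ) (g : Finset V → T) :
    ∑ x : {s : X.faces // s.1.card = n}, g x.1.1 =
      ∑ s ∈ X.faces, if s.card = n then g s else 0 := by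
  rw [← Finset.sum_coe_sort X.faces, ← Finset.sum_filter]
  exact (Finset.sum_subtype _ (by simp) fun s : X.faces => g s.1).symm

theorem ptola_sum_Fl {X : SC V} (u : V) (g : Finset V → V → T) :
    ∑ x : Fl X, (if u = x.1.2 then g x.1.1.1 x.1.2 else 0) =
      ∑ s ∈ X.faces, if u ∈ s then g s u else 0 := by
  rw [sum_Fl fun s v => if u = v then g s.1 v else 0, ← Finset.sum_coe_sort X.faces]
  exact Finset.sum_congr rfl fun s _ => Finset.sum_ite_eq _ _ _

namespace PD

variable {ρ : G →* Matrix (Fin 2) (Fin 2) T} {X : SC V} (D : PD ρ X)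

theorem ptola_odd : IsOdd (ypar X) D.Y := by
  rintro ((x | f) | t | s) ((x' | f') | t' | s') h <;> try rfl
  · exact absurd h (by simp [ypar])
  · exact absurd h (by simp [ypar])
  · have h' : ¬ Even s.1.1.1.card := by simpa [ypar, par] using h
    have : inc D.o s.1.1.1 x'.1.1 = 0 := ptola_inc0 fun e => h' (by rw [e, x'.2]; decide)
    simp [Y, this]
  · have h' : Even s.1.1.1.card := by simpa [ypar, par] using h
    refine if_neg fun e => ?_
    rw [e, f'.2] at h'
    exact absurd h' (by decide)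
  · have h' : ¬ Even s.1.1.1.card := by simpa [ypar, par] using h
    refine if_neg fun e => h' ?_
    rw [e, t'.1.2]
    decide
  · have h' : Even s.1.1.1.card ↔ Even s'.1.1.1.card := by simpa [ypar, par] using h
    have : inc D.o s.1.1.1 s'.1.1.1 = 0 := ptola_inc0 fun e => by
      rw [e, Nat.even_add_one] at h'
      exact not_iff_self h'
    simp [Y, this]

theorem ptola_tv (t : X.faces) (h4 : t.1.card = 4) (m : Fin 2) (x : Finset V) :
    ∑ f : Fx X, (inc D.o t.1 f.1.1 : T) * D.co t f.1.1 m * D.av f.1.1 x = 0 := by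
  rw [ptola_sum_sub 3 fun f => (inc D.o t.1 f : T) * D.co t f m * D.av f x]
  have h0 := sum_inc D.o X t.2 (by omega) fun f => D.co t f m * D.av f x
  refine (Finset.sum_congr rfl fun f _ => ?_).trans (h0.trans ?_)
  · split_ifs with h
    · rw [zsmul_eq_mul, mul_assoc]
    · rw [ptola_inc0 (by omega), zero_smul]
  have k : ∀ i j, i < j → j < 4 → D.n t i ≠ D.n t j := fun i j h h' =>
    D.ptolloc_ne t h.ne (by omega) (by omega)
  have k01 := k 0 1 (by norm_num) (by norm_num)
  have k02 := k 0 2 (by norm_num) (by norm_num)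
  have k03 := k 0 3 (by norm_num) (by norm_num)
  have k12 := k 1 2 (by norm_num) (by norm_num)
  have k13 := k 1 3 (by norm_num) (by norm_num)
  have k23 := k 2 3 (by norm_num) (by norm_num)
  have e1 : D.av (t.1.erase (D.n t 1)) x =
      D.cs t * D.av (t.1.erase (D.n t 0)) x + D.sn t * D.av (t.1.erase (D.n t 2)) x := by
    simp only [av, Finset.mul_sum, ← Finset.sum_add_distrib]
    exact Finset.sum_congr rfl fun v _ => (D.ptolloc_co t h4 v).1
  have e3 : D.av (t.1.erase (D.n t 3)) x =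
      -D.sn t * D.av (t.1.erase (D.n t 0)) x + D.cs t * D.av (t.1.erase (D.n t 2)) x := by
    simp only [av, Finset.mul_sum, ← Finset.sum_add_distrib]
    exact Finset.sum_congr rfl fun v _ => (D.ptolloc_co t h4 v).2
  have hc := D.cs_sq_add t h4
  rw [Finset.sum_congr (D.eq_n4 t h4) fun _ _ => rfl, Finset.sum_insert (by simp [k01, k02, k03]),
    Finset.sum_insert (by simp [k12, k13]), Finset.sum_pair k23, D.pos_n t (by omega),
    D.pos_n t (by omega), D.pos_n t (by omega), D.pos_n t (by omega), D.co_0, D.co_1 t h4,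
    D.co_2 t h4, D.co_3 t h4, e1, e3]
  fin_cases m
  · simp [rotM]
    linear_combination (-D.av (t.1.erase (D.n t 0)) x) * hc
  · simp [rotM]
    linear_combination (-D.av (t.1.erase (D.n t 2)) x) * hc

theorem ptola_sv (s : X.faces) {u : V} (hu : u ∈ s.1) (x : Finset V) (hx : x.card = 1) :
    ∑ f : Fx X, (if s = f.1 then -D.a f.1.1 u else 0) * D.av f.1.1 x +
      ∑ s' : Fl X, (if u = s'.1.2 then (inc D.o s.1 s'.1.1.1 : T) else 0) *
        (inc D.o s'.1.1.1 x * D.lf s'.1.1.1 x s'.1.2) = 0 := by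
  obtain ⟨v, rfl⟩ := Finset.card_eq_one.1 hx
  simp only [ite_mul, zero_mul]
  rw [ptola_sum_Fl u fun e w => (inc D.o s.1 e : T) * (inc D.o e {v} * D.lf e {v} w)]
  by_cases h3 : s.1.card = 3
  · have := D.lf_tri s.2 h3 hu v
    simp only [Int.cast_mul, mul_assoc] at this
    rw [this, Finset.sum_eq_single ⟨s, h3⟩ (fun f _ h => if_neg fun e => h (Subtype.ext e.symm))
      (by simp)]
    simp [av]
  · rw [Finset.sum_eq_zero fun f _ => if_neg fun e => h3 (by rw [e, f.2]), zero_add]
    refine Finset.sum_eq_zero fun e _ => ?_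
    by_cases h : e.card = 2
    · rw [ptola_inc0 (s := s.1) (by omega)]
      simp
    · rw [ptola_inc0 (s := e) (by simpa using h)]
      simp

theorem ptola_sf (s : X.faces) (u : V) (f : X.faces) (hf : f.1.card = 3) :
    ∑ t : Tx X × Fin 2, (if s = t.1.1 then D.a (D.bf t.1.1 t.2) u else 0) *
        (inc D.o t.1.1.1 f.1 * D.co t.1.1 f.1 t.2) +
      ∑ s' : Fl X, (if u = s'.1.2 then (inc D.o s.1 s'.1.1.1 : T) else 0) *
        (if s'.1.1 = f then -D.a f.1 s'.1.2 else 0) = 0 := by
  have h2 : ∑ s' : Fl X, (if u = s'.1.2 then (inc D.o s.1 s'.1.1.1 : T) else 0) *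
      (if s'.1.1 = f then -D.a f.1 s'.1.2 else 0) = -(inc D.o s.1 f.1 * D.a f.1 u) := by
    simp only [ite_mul, zero_mul, Subtype.ext_iff (a1 := _) (a2 := f)]
    rw [ptola_sum_Fl u fun e w => (inc D.o s.1 e : T) * if e = f.1 then -D.a f.1 w else 0,
      Finset.sum_eq_single f.1 (fun e _ h => by simp [h]) fun h => absurd f.2 h]
    split_ifs with h h'
    · rw [mul_neg]
    · exact absurd rfl h'
    · rw [D.ptolloc_a0 h, mul_zero, neg_zero]
  rw [h2, Fintype.sum_prod_type]
  by_cases h4 : s.1.card = 4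
  · rw [Finset.sum_eq_single (⟨s, h4⟩ : Tx X) (fun t _ h => Finset.sum_eq_zero fun i _ => by
      rw [if_neg fun e => h (Subtype.ext e.symm), zero_mul]) (by simp)]
    simp only [if_true]
    by_cases h : inc D.o s.1 f.1 = 0
    · simp [h]
    obtain ⟨w, hw, e⟩ := inc_ne_zero h
    rw [e, D.co_spec s h4 hw u, Finset.mul_sum, add_neg_eq_zero]
    exact Finset.sum_congr rfl fun i _ => by ring
  · rw [ptola_inc0 (s := s.1) (by omega), Finset.sum_eq_zero]
    · simp
    · intro t _
      refine Finset.sum_eq_zero fun i _ => ?_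
      rw [if_neg fun e => h4 (by rw [e, t.2]), zero_mul]

theorem ptola_ss (s : X.faces) (u : V) (s'' : Fl X) :
    ∑ s' : Fl X, (if u = s'.1.2 then (inc D.o s.1 s'.1.1.1 : T) else 0) *
      (if s'.1.2 = s''.1.2 then (inc D.o s'.1.1.1 s''.1.1.1 : T) else 0) = 0 := by
  simp only [ite_mul, zero_mul]
  rw [ptola_sum_Fl u fun e w => (inc D.o s.1 e : T) *
    if w = s''.1.2 then (inc D.o e s''.1.1.1 : T) else 0]
  by_cases h : u = s''.1.2
  · have := congrArg (Int.cast : ℤ → T) (inc_sq X D.inj s.2 ⟨_, s''.2⟩)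
    rw [Int.cast_sum, Int.cast_zero] at this
    refine (Finset.sum_congr rfl fun e _ => ?_).trans this
    rw [if_pos h, Int.cast_mul]
    split_ifs with h'
    · rfl
    · have : inc D.o e s''.1.1.1 = 0 := by
        by_contra c
        exact h' (h ▸ (inc_ne_zero_iff.1 c).1 s''.2)
      simp [this]
  · simp [h]

end PD

theorem PD.Y_cx {ρ : G →* Matrix (Fin 2) (Fin 2) T} {X : SC V} (D : PD ρ X) (hd : X.DimLE 3) :
    IsCx (ypar X) D.Y := by
  refine ⟨D.ptola_odd, ?_⟩
  ext i j
  rw [mul_apply, Matrix.zero_apply]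
  simp only [Fintype.sum_sum_type]
  rcases i with (x | f) | t | s <;> rcases j with (x' | f') | t' | s' <;>
    simp only [PD.Y, zero_mul, mul_zero, Finset.sum_const_zero, add_zero, zero_add]
  · exact D.ptola_tv _ t.1.2 _ _
  · exact D.ptola_sv _ s.2 _ x'.2
  · exact D.ptola_sf _ _ _ f'.2
  · refine Finset.sum_eq_zero fun s' _ => ?_
    by_cases h : s'.1.1 = t'.1.1
    · have h1 := hd _ s.1.1.2
      have h2 := t'.1.2
      rw [ptola_inc0 (s := s.1.1.1) (by rw [h]; omega)]
      simp
    · rw [if_neg h, mul_zero]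
  · exact D.ptola_ss _ _ _

end MP35
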