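import Pool.Agent.Lib.MP_35c604_gt.PtolA

/-! TASK PT2: the big complex has the torsion of the cochain complex. -/

namespace MP35

open Matrix SC

variable {V : Type} [DecidableEq V] {T : Type} [CommRing T] {G : Type} [Group G]

/-- Base change of a block complex. -/
theorem ptolb_alg [Nice T] {I₁ I₂ : Type} [Fintype I₁] [DecidableEq I₁] [Fintype I₂]
    [DecidableEq I₂] {p : I₁ ⊕ I₂ → Bool} {Y : Matrix (I₁ ⊕ I₂) (I₁ ⊕ I₂) T} (hY : IsCx p Y)
    (P C : Matrix I₁ I₁ T) (m : Matrix I₁ I₂ T) (u : Tˣ) (hP : P.det = (u : T) ^ 2)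
    (hev : IsEven p (fromBlocks P (P * m) 0 1))
    (hC : C * fromCols P (P * m) = fromCols P (P * m) * Y) (hcon : Contr (p ∘ Sum.inl) C)
    (htriv : IsCx (p ∘ Sum.inr) (Y.toBlocks₂₂ - Y.toBlocks₂₁ * m) →
      TrivT (p ∘ Sum.inr) (Y.toBlocks₂₂ - Y.toBlocks₂₁ * m)) :
    Contr p Y ∧ tor p Y = tor (p ∘ Sum.inl) C := by
  have hu : IsUnit P.det := by
    rw [hP]
    exact u.isUnit.pow 2
  set g : Matrix (I₁ ⊕ I₂) (I₁ ⊕ I₂) T := fromBlocks P (P * m) 0 1 with hg
  set g' : Matrix (I₁ ⊕ I₂) (I₁ ⊕ I₂) T := fromBlocks P⁻¹ (-m) 0 1 with hg'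
  have h1 : g' * g = 1 := by
    rw [hg, hg', fromBlocks_multiply, ← Matrix.mul_assoc, Matrix.nonsing_inv_mul P hu]
    simp [fromBlocks_one]
  have h2 : g * g' = 1 := by
    rw [hg, hg', fromBlocks_multiply, Matrix.mul_nonsing_inv P hu]
    simp [fromBlocks_one]
  have hev' : IsEven p g' := by
    rw [← Matrix.inv_eq_left_inv h1]
    exact hev.inv
  obtain ⟨Y11, Y12, Y21, Y22, rfl⟩ : ∃ Y11 Y12 Y21 Y22, Y = fromBlocks Y11 Y12 Y21 Y22 :=
    ⟨_, _, _, _, (fromBlocks_toBlocks Y).symm⟩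
  rw [mul_fromCols, fromCols_mul_fromBlocks, fromCols_ext_iff] at hC
  simp only [toBlocks_fromBlocks₂₂, toBlocks_fromBlocks₂₁] at htriv
  have hZ : g * fromBlocks Y11 Y12 Y21 Y22 * g' =
      fromBlocks C 0 (Y21 * P⁻¹) (Y22 - Y21 * m) := by
    rw [hg, hg', fromBlocks_multiply, ← hC.1, ← hC.2, fromBlocks_multiply, Matrix.mul_assoc C P,
      Matrix.mul_nonsing_inv P hu]
    simp [Matrix.mul_assoc, sub_eq_neg_add]
  have hZc : IsCx p (fromBlocks C 0 (Y21 * P⁻¹) (Y22 - Y21 * m)) := hZ ▸ hY.conj hev hev' h1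
  have hT : Tri (Equiv.refl (I₁ ⊕ I₂)) (fromBlocks C 0 (Y21 * P⁻¹) (Y22 - Y21 * m)) :=
    Or.inl fun _ _ => rfl
  have ht := htriv (hZc.split (Equiv.refl _) hT).2
  have hZcon : Contr p (fromBlocks C 0 (Y21 * P⁻¹) (Y22 - Y21 * m)) :=
    (splitA (Equiv.refl _) hZc hT ht.con).2 hcon
  have hYcon : Contr p (fromBlocks Y11 Y12 Y21 Y22) := by
    have := hZcon.conj hev' hev h2 h1
    rwa [← hZ, ← Matrix.mul_assoc, ← Matrix.mul_assoc, h1, Matrix.one_mul, Matrix.mul_assoc, h1,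
      Matrix.mul_one] at this
  refine ⟨hYcon, ?_⟩
  have e1 := tor_conj hY hYcon hev hev' h1
  have e2 := splitT (Equiv.refl _) hZc hT hZcon ht.con
  have e3 : cls g.det = 1 := by
    rw [hg, det_fromBlocks_zero₂₁, det_one, mul_one, hP, cls_sq]
  rw [hZ, e3] at e1
  have e4 : ∀ x : SqCl T, x * 1 = x := fun x => mul_one x
  exact (e1.trans (e4 _)).symm.trans (e2.trans ((congrArg _ ht.tor).trans (e4 _)))

/-- The cells matched with flags in position at least two. -/
abbrev PtolbU (X : SC V) := Fx X ⊕ Tx X × Fin 2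

instance (X : SC V) : DecidableEq (PtolbU X) := inferInstance
instance (X : SC V) : DecidableEq (PtolbU X ⊕ PtolbU X) := inferInstance
instance (X : SC V) : DecidableEq (X.faces × Fin 2) := inferInstance

def ptolb_fc {X : SC V} : PtolbU X → X.faces := Sum.elim (fun f => f.1) fun t => t.1.1

def ptolb_ix {X : SC V} : PtolbU X → ℕ := Sum.elim (fun _ => 2) fun t => 2 + t.2.1

def ptolb_rk {X : SC V} : PtolbU X → ℕ := Sum.elim (fun _ => 0) fun t => 1 + t.2.1

def ptolb_lo {X : SC V} : PtolbU X → YI X :=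
  Sum.elim (fun f => .inl (.inr f)) fun t => .inr (.inl t)

omit [DecidableEq V] in
theorem ptolb_ix_lt {X : SC V} (u : PtolbU X) : ptolb_ix u < (ptolb_fc u).1.card := by
  rcases u with f | ⟨t, i⟩
  · have := f.2
    simp only [ptolb_ix, ptolb_fc, Sum.elim_inl]
    omega
  · have := t.2
    have := i.2
    simp only [ptolb_ix, ptolb_fc, Sum.elim_inr]
    omega

omit [DecidableEq V] in
theorem ptolb_le_ix {X : SC V} (u : PtolbU X) : 2 ≤ ptolb_ix u := by
  rcases u with f | ⟨t, i⟩ <;> simp [ptolb_ix]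

omit [DecidableEq V] in
theorem ptolb_U_ext {X : SC V} {u u' : PtolbU X} (h1 : ptolb_fc u = ptolb_fc u')
    (h2 : ptolb_ix u = ptolb_ix u') : u = u' := by
  rcases u with f | ⟨t, i⟩ <;> rcases u' with f' | ⟨t', i'⟩ <;>
    simp only [ptolb_fc, ptolb_ix, Sum.elim_inl, Sum.elim_inr] at h1 h2
  · rw [Subtype.ext h1]
  · have := f.2
    have := t'.2
    rw [h1] at *
    omega
  · have := t.2
    have := f'.2
    rw [h1] at *
    omega
  · rw [Subtype.ext h1, Fin.ext (by omega : i.1 = i'.1)]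

omit [DecidableEq V] in
theorem ptolb_card_one {X : SC V} (s : X.faces) (k : Fin 2) (h : ¬ k.1 < s.1.card) :
    s.1.card = 1 ∧ k = 1 := by
  have := (X.ne s.1 s.2).card_pos
  have := k.2
  exact ⟨by omega, Fin.ext (by simp only [Fin.val_one]; omega)⟩

namespace PD

variable {ρ : G →* Matrix (Fin 2) (Fin 2) T} {X : SC V} (D : PD ρ X)

/-- The flag of the vertex in position `i`. -/
noncomputable def ptolb_fl (s : X.faces) (i : ℕ) : YI X := .inr (.inr ⟨(s, D.n s i), D.n_mem s i⟩)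

noncomputable def ptolb_phi : X.faces × Fin 2 ⊕ PtolbU X ⊕ PtolbU X → YI X
  | .inl c => if h : c.2.1 < c.1.1.card then D.ptolb_fl c.1 c.2.1
      else .inl (.inl ⟨c.1, (ptolb_card_one c.1 c.2 h).1⟩)
  | .inr (.inl u) => ptolb_lo u
  | .inr (.inr u) => D.ptolb_fl (ptolb_fc u) (ptolb_ix u)

def ptolb_key : YI X → X.faces × ℕ × Bool
  | .inl (.inl x) => (x.1, 1, true)
  | .inl (.inr f) => (f.1, 2, false)
  | .inr (.inl t) => (t.1.1, 2 + t.2.1, false)
  | .inr (.inr s) => (s.1.1, pos D.o s.1.1.1 s.1.2, true)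

theorem ptolb_key_fl (s : X.faces) {i : ℕ} (hi : i < s.1.card) :
    D.ptolb_key (D.ptolb_fl s i) = (s, i, true) := by
  simp only [ptolb_key, ptolb_fl, D.pos_n s hi]

theorem ptolb_key_inl (c : X.faces × Fin 2) :
    D.ptolb_key (D.ptolb_phi (.inl c)) = (c.1, c.2.1, true) := by
  simp only [ptolb_phi]
  split_ifs with h
  · exact D.ptolb_key_fl _ h
  · simp only [ptolb_key, (ptolb_card_one c.1 c.2 h).2, Fin.val_one]

theorem ptolb_key_lo (u : PtolbU X) :
    D.ptolb_key (D.ptolb_phi (.inr (.inl u))) = (ptolb_fc u, ptolb_ix u, false) := by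
  rcases u with f | t <;> rfl

theorem ptolb_key_hi (u : PtolbU X) :
    D.ptolb_key (D.ptolb_phi (.inr (.inr u))) = (ptolb_fc u, ptolb_ix u, true) :=
  D.ptolb_key_fl _ (ptolb_ix_lt u)

theorem ptolb_phi_inj : Function.Injective D.ptolb_phi := by
  intro a b h
  have h' := congrArg D.ptolb_key h
  rcases a with c | u | u <;> rcases b with c' | u' | u' <;>
    simp only [ptolb_key_inl, ptolb_key_lo, ptolb_key_hi, Prod.mk.injEq, and_true,
      Bool.true_eq_false, Bool.false_eq_true, and_false] at h'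
  · rw [Prod.ext h'.1 (Fin.ext h'.2)]
  · have := ptolb_le_ix u'
    have := c.2.2
    omega
  · rw [ptolb_U_ext h'.1 h'.2]
  · have := ptolb_le_ix u
    have := c'.2.2
    omega
  · rw [ptolb_U_ext h'.1 h'.2]

theorem ptolb_fl_pos (x : Fl X) :
    D.ptolb_fl x.1.1 (pos D.o x.1.1.1 x.1.2) = .inr (.inr x) := by
  simp only [ptolb_fl, D.n_pos x.1.1 x.2]

theorem ptolb_phi_surj (hd : X.DimLE 3) : Function.Surjective D.ptolb_phi := by
  rintro ((x | f) | t | x)
  · refine ⟨.inl (x.1, 1), ?_⟩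
    have := x.2
    simp only [ptolb_phi]
    rw [dif_neg (by simp only [Fin.val_one]; omega)]
  · exact ⟨.inr (.inl (.inl f)), rfl⟩
  · exact ⟨.inr (.inl (.inr t)), rfl⟩
  · have h1 := D.pos_lt x.1.1.1 x.2
    have h2 := hd _ x.1.1.2
    rw [← D.ptolb_fl_pos x]
    by_cases h : pos D.o x.1.1.1 x.1.2 < 2
    · refine ⟨.inl (x.1.1, ⟨_, h⟩), ?_⟩
      simp only [ptolb_phi]
      rw [dif_pos h1]
    · by_cases h3 : x.1.1.1.card = 3
      · refine ⟨.inr (.inr (.inl ⟨x.1.1, h3⟩)), ?_⟩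
        rw [show pos D.o x.1.1.1 x.1.2 = 2 by omega]
        rfl
      · refine ⟨.inr (.inr (.inr (⟨x.1.1, by omega⟩, ⟨pos D.o x.1.1.1 x.1.2 - 2, by omega⟩))), ?_⟩
        simp only [ptolb_phi, ptolb_fc, ptolb_ix, Sum.elim_inr]
        rw [show 2 + (pos D.o x.1.1.1 x.1.2 - 2) = pos D.o x.1.1.1 x.1.2 by omega]

/-- The chain map to the cochain complex. -/
noncomputable def ptolb_J : Matrix (X.faces × Fin 2) (YI X) T := fun c y =>
  match y with
  | .inl (.inl x) => if c.1 = x.1 then ![0, 1] c.2 else 0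
  | .inr (.inr s) => if c.1 = s.1.1 then D.sec s.1.1.1 s.1.2 c.2 else 0
  | _ => 0

/-- The row of a flag. -/
noncomputable def ptolb_row (s : X.faces) (u : V) : YI X → T
  | .inl (.inl x) => inc D.o s.1 x.1.1 * D.lf s.1 x.1.1 u
  | .inl (.inr f) => if s = f.1 then -D.a f.1.1 u else 0
  | .inr (.inl t) => if s = t.1.1 then D.a (D.bf t.1.1 t.2) u else 0
  | .inr (.inr s') => if u = s'.1.2 then inc D.o s.1 s'.1.1.1 else 0

theorem ptolb_Y_fl (x : Fl X) (y : YI X) : D.Y (.inr (.inr x)) y = D.ptolb_row x.1.1 x.1.2 y := by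
  rcases y with (y | y) | y | y <;> rfl

theorem ptolb_Y_vx (x : Vx X) (y : YI X) : D.Y (.inl (.inl x)) y = 0 := by
  rcases y with (y | y) | y | y <;> rfl

theorem ptolb_JY (c : X.faces × Fin 2) (y : YI X) :
    (D.ptolb_J * D.Y) c y = ∑ u ∈ c.1.1, D.sec c.1.1 u c.2 * D.ptolb_row c.1 u y := by
  rw [Matrix.mul_apply]
  simp only [Fintype.sum_sum_type, ptolb_Y_vx, ptolb_Y_fl, ptolb_J, mul_zero, zero_mul,
    Finset.sum_const_zero, zero_add]
  rw [sum_Fl fun s u => (if c.1 = s then D.sec s.1 u c.2 else 0) * D.ptolb_row s u y,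
    Finset.sum_eq_single c.1]
  · simp
  · intro s _ hs
    simp [hs.symm]
  · simp

theorem ptolb_CJ (c : X.faces × Fin 2) (y : YI X) (s : X.faces) (w : Fin 2 → T)
    (h : ∀ c', D.ptolb_J c' y = if c'.1 = s then w c'.2 else 0) :
    (flat (lin ρ) (bd ℤ X D.o D.h) * D.ptolb_J) c y =
      inc D.o c.1.1 s.1 * (ρ (D.h c.1.1 s.1) *ᵥ w) c.2 := by
  rw [Matrix.mul_apply, Fintype.sum_prod_type, Finset.sum_eq_single s]
  · simp only [h, flat_apply, bd, lin_single, if_true, Int.cast_id, Matrix.smul_apply,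
      zsmul_eq_mul, Matrix.mulVec, dotProduct, Finset.mul_sum, mul_assoc]
  · intro s' _ hs
    simp [h, hs]
  · simp

theorem ptolb_a_zero {f : Finset V} {v : V} (hv : v ∉ f) : D.a f v = 0 := if_neg hv

theorem ptolb_rel {f : Finset V} (s : X.faces) (hf : f ⊆ s.1) (h3 : f.card = 3) (k : Fin 2) :
    ∑ u ∈ s.1, D.sec s.1 u k * D.a f u = 0 := by
  have := congrFun (D.rel_zero s.2 hf h3) k
  simp only [Finset.sum_apply, Pi.smul_apply, smul_eq_mul, Pi.zero_apply] at this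
  rw [← this, ← Finset.sum_subset hf fun u _ hu => by rw [D.ptolb_a_zero hu, mul_zero]]
  exact Finset.sum_congr rfl fun u _ => mul_comm _ _

theorem ptolb_chain : flat (lin ρ) (bd ℤ X D.o D.h) * D.ptolb_J = D.ptolb_J * D.Y := by
  ext c y
  rw [ptolb_JY]
  rcases y with (x | f) | t | x
  · rw [D.ptolb_CJ c _ x.1 ![0, 1] fun _ => rfl]
    simp only [ptolb_row]
    by_cases h : inc D.o c.1.1 x.1.1 = 0
    · simp [h]
    · have h2 : c.1.1.card = 2 := by
        have := (inc_ne_zero_iff.1 h).2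
        have := x.2
        omega
      rw [← D.lf_spec c.1.2 h2, Finset.sum_apply, Finset.mul_sum]
      refine Finset.sum_congr rfl fun u _ => ?_
      simp only [Pi.smul_apply, smul_eq_mul]
      ring
  · rw [D.ptolb_CJ c _ f.1 0 fun _ => by simp [ptolb_J]]
    simp only [ptolb_row, Matrix.mulVec_zero, Pi.zero_apply, mul_zero]
    split_ifs with h
    · have := D.ptolb_rel c.1 (f := f.1.1) (by rw [h]) f.2 c.2
      simp only [mul_neg, Finset.sum_neg_distrib, this, neg_zero]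
    · simp
  · rw [D.ptolb_CJ c _ t.1.1 0 fun _ => by simp [ptolb_J]]
    simp only [ptolb_row, Matrix.mulVec_zero, Pi.zero_apply, mul_zero]
    split_ifs with h
    · refine (D.ptolb_rel c.1 ?_ ?_ c.2).symm
      · rw [h]
        exact Finset.erase_subset _ _
      · rw [bf, Finset.card_erase_of_mem (D.n_mem _ _), t.1.2]
    · simp
  · rw [D.ptolb_CJ c _ x.1.1 (D.sec x.1.1.1 x.1.2) fun c' => rfl]
    simp only [ptolb_row]
    by_cases h : inc D.o c.1.1 x.1.1.1 = 0
    · simp [h]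
    · have h2 := (inc_ne_zero_iff.1 h).1
      rw [← D.sec_res c.1.2 h2 x.2, Finset.sum_eq_single x.1.2]
      · simp [mul_comm]
      · intro u _ hu
        simp [hu]
      · intro hu
        exact absurd (h2 x.2) hu

/-- The diagonal blocks of the base change. -/
noncomputable def ptolb_B (s : X.faces) : Matrix (Fin 2) (Fin 2) T := fun k l =>
  if l.1 < s.1.card then D.sec s.1 (D.n s l.1) k else ![0, 1] k

theorem ptolb_B_det (s : X.faces) : ∃ u : Tˣ, (D.ptolb_B s).det = (u : T) ^ 2 := by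
  have h0 := (X.ne s.1 s.2).card_pos
  rw [Matrix.det_fin_two]
  by_cases h : 1 < s.1.card
  · refine ⟨D.ge {D.n s 0, D.n s 1}, ?_⟩
    rw [← D.hge s.1 s.2 _ (D.n_mem s 0) _ (D.n_mem s 1) (D.n_lt s (by omega) h)]
    simp only [ptolb_B, Fin.val_zero, Fin.val_one, h0, h, if_true, om, sec]
    ring
  · refine ⟨1, ?_⟩
    have h1 : s.1 = {D.n s 0} := by
      obtain ⟨v, hv⟩ := Finset.card_eq_one.1 (show s.1.card = 1 by omega)
      have := D.n_mem s 0
      rw [hv, Finset.mem_singleton] at this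
      rw [this, hv]
    have h2 : D.sec s.1 (D.n s 0) = D.sv (D.n s 0) := by
      have := D.sec_self (mem_verts_of_mem s.2 (D.n_mem s 0))
      rwa [← h1] at this
    simp [ptolb_B, h0, h, h2, D.sv0]

noncomputable def ptolb_P : Matrix (X.faces × Fin 2) (X.faces × Fin 2) T := fun c c' =>
  if c.1 = c'.1 then D.ptolb_B c.1 c.2 c'.2 else 0

theorem ptolb_J_inl (c c' : X.faces × Fin 2) :
    D.ptolb_J c (D.ptolb_phi (.inl c')) = D.ptolb_P c c' := by
  simp only [ptolb_phi, ptolb_P, ptolb_B]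
  by_cases h : c.1 = c'.1
  · split_ifs with h1 h2 h2
    · simp only [ptolb_fl, ptolb_J, h, if_true]
    · exact absurd (h ▸ h1) h2
    · exact absurd (h ▸ h2) h1
    · simp only [ptolb_J, h, if_true]
  · split_ifs with h1
    · simp only [ptolb_fl, ptolb_J, h, if_false]
    · simp only [ptolb_J, h, if_false]

theorem ptolb_P_det : ∃ u : Tˣ, D.ptolb_P.det = (u : T) ^ 2 := by
  choose u hu using D.ptolb_B_det
  refine ⟨∏ s, u s, ?_⟩
  have : D.ptolb_P = (blockDiagonal D.ptolb_B).submatrix (Equiv.prodComm _ _)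
      (Equiv.prodComm _ _) := by
    ext c c'
    rfl
  rw [this, det_submatrix_equiv_self, det_blockDiagonal, Units.coe_prod, ← Finset.prod_pow]
  exact Finset.prod_congr rfl fun s _ => hu s

noncomputable def ptolb_m : Matrix (X.faces × Fin 2) (PtolbU X ⊕ PtolbU X) T := fun c ε =>
  ∑ l, (D.ptolb_B c.1)⁻¹ c.2 l * D.ptolb_J (c.1, l) (D.ptolb_phi (.inr ε))

theorem ptolb_Pm (c : X.faces × Fin 2) (ε : PtolbU X ⊕ PtolbU X) :
    (D.ptolb_P * D.ptolb_m) c ε = D.ptolb_J c (D.ptolb_phi (.inr ε)) := by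
  obtain ⟨u, hu⟩ := D.ptolb_B_det c.1
  have h1 : D.ptolb_B c.1 * (D.ptolb_B c.1)⁻¹ = 1 :=
    Matrix.mul_nonsing_inv _ (by rw [hu]; exact u.isUnit.pow 2)
  rw [Matrix.mul_apply, Fintype.sum_prod_type, Finset.sum_eq_single c.1]
  · simp only [ptolb_P, ptolb_m, if_true, Finset.mul_sum]
    rw [Finset.sum_comm]
    simp only [← mul_assoc, ← Finset.sum_mul, ← Matrix.mul_apply, h1, Matrix.one_apply]
    simp
  · intro s _ hs
    simp [ptolb_P, hs.symm]
  · simp

theorem ptolb_J_lo (c : X.faces × Fin 2) (u : PtolbU X) :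
    D.ptolb_J c (D.ptolb_phi (.inr (.inl u))) = 0 := by
  rcases u with f | t <;> rfl

theorem ptolb_J_hi (c : X.faces × Fin 2) (u : PtolbU X) (h : c.1 ≠ ptolb_fc u) :
    D.ptolb_J c (D.ptolb_phi (.inr (.inr u))) = 0 := if_neg h

theorem ptolb_m_lo (c : X.faces × Fin 2) (u : PtolbU X) : D.ptolb_m c (.inl u) = 0 := by
  simp [ptolb_m, ptolb_J_lo]

theorem ptolb_m_hi (c : X.faces × Fin 2) (u : PtolbU X) (h : c.1 ≠ ptolb_fc u) :
    D.ptolb_m c (.inr u) = 0 :=
  Finset.sum_eq_zero fun l _ => by rw [D.ptolb_J_hi (c.1, l) u h, mul_zero]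

theorem ptolb_par_inl (c : X.faces × Fin 2) : ypar X (D.ptolb_phi (.inl c)) = par c.1.1 := by
  simp only [ptolb_phi]
  split_ifs with h
  · rfl
  · simp [ypar, par, (ptolb_card_one c.1 c.2 h).1]

theorem ptolb_par_hi (u : PtolbU X) :
    ypar X (D.ptolb_phi (.inr (.inr u))) = par (ptolb_fc u).1 := rfl

theorem ptolb_par_lo (u : PtolbU X) :
    ypar X (D.ptolb_phi (.inr (.inl u))) = !par (ptolb_fc u).1 := by
  rcases u with f | t
  · have := f.2
    simp only [ptolb_phi, ptolb_lo, ypar, ptolb_fc, par, Sum.elim_inl, Sum.elim_inr, this]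
    decide
  · have := t.1.2
    simp only [ptolb_phi, ptolb_lo, ypar, ptolb_fc, par, Sum.elim_inl, Sum.elim_inr, this]
    decide

omit [DecidableEq V] in
theorem ptolb_rk_lt {u u' : PtolbU X} (h : (ptolb_fc u).1.card = (ptolb_fc u').1.card + 1) :
    ptolb_rk u' < ptolb_rk u := by
  rcases u with f | ⟨t, i⟩ <;> rcases u' with f' | ⟨t', i'⟩ <;>
    simp only [ptolb_fc, ptolb_rk, Sum.elim_inl, Sum.elim_inr] at h ⊢
  · have := f.2
    have := f'.2
    omega
  · have := f.2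
    have := t'.2
    omega
  · omega
  · have := t.2
    have := t'.2
    omega

theorem ptolb_Y_fl_fl {s s' : X.faces} {i j : ℕ} (h : D.Y (D.ptolb_fl s i) (D.ptolb_fl s' j) ≠ 0) :
    s.1.card = s'.1.card + 1 := by
  refine (inc_ne_zero_iff (o := D.o)).1 (fun h0 => h ?_) |>.2
  simp only [ptolb_fl, Y, h0, Int.cast_zero, ite_self]

theorem ptolb_Y_lo_fl (u : PtolbU X) (s : X.faces) (j : ℕ) :
    D.Y (ptolb_lo u) (D.ptolb_fl s j) = 0 := by
  rcases u with f | t <;> rfl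

/-- The correction term lowers the rank. -/
theorem ptolb_K_low (ε ε' : PtolbU X ⊕ PtolbU X)
    (h : ∑ c, D.Y (D.ptolb_phi (.inr ε)) (D.ptolb_phi (.inl c)) * D.ptolb_m c ε' ≠ 0) :
    Sum.elim ptolb_rk ptolb_rk ε' < Sum.elim ptolb_rk ptolb_rk ε := by
  obtain ⟨c, -, hc⟩ := Finset.exists_ne_zero_of_sum_ne_zero h
  have h1 := left_ne_zero_of_mul hc
  have h2 := right_ne_zero_of_mul hc
  rcases ε' with u' | u'
  · exact absurd (D.ptolb_m_lo c u') h2
  have h3 : c.1 = ptolb_fc u' := by_contra fun hh => h2 (D.ptolb_m_hi c u' hh)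
  have h4 : c.2.1 < c.1.1.card := by
    have := ptolb_ix_lt u'
    have := ptolb_le_ix u'
    have := c.2.2
    rw [h3]
    omega
  simp only [ptolb_phi, dif_pos h4] at h1
  rcases ε with u | u
  · exact absurd (D.ptolb_Y_lo_fl u _ _) h1
  · have := D.ptolb_Y_fl_fl h1
    rw [h3] at this
    exact ptolb_rk_lt this

theorem ptolb_Y_low (ε ε' : PtolbU X ⊕ PtolbU X)
    (h : D.Y (D.ptolb_phi (.inr ε)) (D.ptolb_phi (.inr ε')) ≠ 0) :
    (ε.isRight ∧ ε' = ε.swap) ∨ Sum.elim ptolb_rk ptolb_rk ε' < Sum.elim ptolb_rk ptolb_rk ε := by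
  rcases ε with u | u <;> rcases ε' with u' | u'
  · rcases u with f | ⟨t, i⟩ <;> rcases u' with f' | ⟨t', i'⟩
    · exact absurd rfl h
    · exact absurd rfl h
    · exact Or.inr (by simp [ptolb_rk])
    · exact absurd rfl h
  · exact absurd (D.ptolb_Y_lo_fl u _ _) h
  · have h' : ptolb_fc u = ptolb_fc u' := by
      by_contra hh
      rcases u' with f' | ⟨t', i'⟩
      · exact h (if_neg hh)
      · exact h (if_neg hh)
    rcases lt_trichotomy (ptolb_ix u') (ptolb_ix u) with h1 | h1 | h1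
    · right
      rcases u with f | ⟨t, i⟩ <;> rcases u' with f' | ⟨t', i'⟩ <;>
        simp only [ptolb_ix, ptolb_rk, Sum.elim_inl, Sum.elim_inr] at h1 ⊢ <;> omega
    · left
      rw [ptolb_U_ext h' h1.symm]
      exact ⟨rfl, rfl⟩
    · exfalso
      rcases u with f | ⟨t, i⟩ <;> rcases u' with f' | ⟨t', i'⟩ <;>
        simp only [ptolb_ix, ptolb_fc, Sum.elim_inl, Sum.elim_inr] at h1 h'
      · omega
      · have := f.2
        have := t'.2
        rw [h'] at *
        omega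
      · omega
      · obtain rfl : t = t' := Subtype.ext h'
        obtain rfl : i = 0 := Fin.ext (by have := i'.2; simp only [Fin.val_zero]; omega)
        obtain rfl : i' = 1 := Fin.ext (by have := i'.2; simp only [Fin.val_one]; omega)
        exact h ((if_pos rfl).trans (D.ptolb_a_zero (Finset.notMem_erase _ _)))
  · exact Or.inr (ptolb_rk_lt (D.ptolb_Y_fl_fl h))

theorem ptolb_n_ne (s : X.faces) {i j : ℕ} (hij : i < j) (hj : j < s.1.card) :
    D.n s j ≠ D.n s i := fun h => by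
  have := D.n_lt s hij hj
  rw [h] at this
  exact lt_irrefl _ this

theorem ptolb_Y_unit [Nice T] (u : PtolbU X) :
    IsUnit (D.Y (D.ptolb_phi (.inr (.inr u))) (D.ptolb_phi (.inr (.inl u)))) ∧
      cls (D.Y (D.ptolb_phi (.inr (.inr u))) (D.ptolb_phi (.inr (.inl u)))) = 1 := by
  rcases u with f | ⟨t, i⟩
  · have h : D.Y (D.ptolb_phi (.inr (.inr (.inl f)))) (D.ptolb_phi (.inr (.inl (.inl f)))) =
        -D.a f.1.1 (D.n f.1 2) := if_pos rfl
    rw [h, cls_neg, IsUnit.neg_iff]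
    exact D.a_unit (D.n_mem _ _)
  · have h : D.Y (D.ptolb_phi (.inr (.inr (.inr (t, i))))) (D.ptolb_phi (.inr (.inl (.inr (t, i))))) =
        D.a (D.bf t.1 i) (D.n t.1 (2 + i.1)) := if_pos rfl
    rw [h]
    have := t.2
    have := i.2
    exact D.a_unit (Finset.mem_erase.2 ⟨D.ptolb_n_ne _ (by omega) (by omega), D.n_mem _ _⟩)

end PD

theorem PD.Y_tor [Nice T] {ρ : G →* Matrix (Fin 2) (Fin 2) T} {X : SC V} (D : PD ρ X)
    (hd : X.DimLE 3) (hc : Contr (fp (Fin 2) (fpar X)) (flat (lin ρ) (bd ℤ X D.o D.h))) :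
    Contr (ypar X) D.Y ∧ tor (ypar X) D.Y = ftor (lin ρ) (fpar X) (bd ℤ X D.o D.h) := by
  let e : X.faces × Fin 2 ⊕ PtolbU X ⊕ PtolbU X ≃ YI X :=
    Equiv.ofBijective D.ptolb_phi ⟨D.ptolb_phi_inj, D.ptolb_phi_surj hd⟩
  have he : ∀ x, e x = D.ptolb_phi x := fun _ => rfl
  have hY := D.Y_cx hd
  obtain ⟨u, hu⟩ := D.ptolb_P_det
  have hp : (ypar X ∘ e) ∘ Sum.inl = fp (Fin 2) (fpar X) := funext fun c => D.ptolb_par_inl c
  have hJ : fromCols D.ptolb_P (D.ptolb_P * D.ptolb_m) = D.ptolb_J.submatrix id e := by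
    ext c (c' | ε)
    · exact (D.ptolb_J_inl c c').symm
    · exact D.ptolb_Pm c ε
  have key := ptolb_alg ((isCx_reindex e _ _).2 hY) D.ptolb_P (flat (lin ρ) (bd ℤ X D.o D.h))
    D.ptolb_m u hu ?_ ?_ (hp ▸ hc) ?_
  · have hcon := (contr_reindex e _ _).1 key.1
    refine ⟨hcon, ?_⟩
    rw [← tor_reindex e hY hcon, key.2, hp]
    rfl
  · rintro (c | ε) (c' | ε') h
    · refine if_neg fun hh => h ?_
      simp only [Function.comp_apply, he, D.ptolb_par_inl, hh]
    · rw [fromBlocks_apply₁₂, D.ptolb_Pm]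
      rcases ε' with u' | u'
      · exact D.ptolb_J_lo c u'
      · refine D.ptolb_J_hi c u' fun hh => h ?_
        simp only [Function.comp_apply, he, D.ptolb_par_inl, D.ptolb_par_hi, hh]
    · rfl
    · exact Matrix.one_apply_ne fun hh => h (by rw [hh])
  · rw [hJ, submatrix_mul_equiv, ← D.ptolb_chain]
    rfl
  · intro hcx
    refine amlT hcx Sum.swap (Sum.elim ptolb_rk ptolb_rk) (fun ε => ε.isRight) Sum.swap_swap
      ?_ ?_ ?_ ?_ ?_
    · rintro (v | v) <;> simp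
    · rintro (v | v)
      · simp only [Function.comp_apply, Sum.swap_inl, he, D.ptolb_par_lo, D.ptolb_par_hi,
          Bool.not_not]
      · simp only [Function.comp_apply, Sum.swap_inr, he, D.ptolb_par_lo, D.ptolb_par_hi]
    · rintro (v | v) <;> rfl
    · rintro (v | v) hv
      · simp at hv
      · have : ((D.Y.submatrix e e).toBlocks₂₂ - (D.Y.submatrix e e).toBlocks₂₁ * D.ptolb_m)
            (.inr v) (Sum.swap (.inr v)) =
            D.Y (D.ptolb_phi (.inr (.inr v))) (D.ptolb_phi (.inr (.inl v))) := by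
          rw [Matrix.sub_apply, Matrix.mul_apply, Sum.swap_inr]
          simp only [D.ptolb_m_lo, mul_zero, Finset.sum_const_zero, sub_zero]
          rfl
        rw [this]
        exact D.ptolb_Y_unit v
    · intro ε ε' h
      by_cases h1 : D.Y (D.ptolb_phi (.inr ε)) (D.ptolb_phi (.inr ε')) = 0
      · refine Or.inr (D.ptolb_K_low ε ε' fun h2 => h ?_)
        rw [Matrix.sub_apply, Matrix.mul_apply]
        exact sub_eq_zero.2 (h1.trans h2.symm)
      · exact D.ptolb_Y_low ε ε' h1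

end MP35
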