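import Pool.Agent.Lib.MP_35c604_gt.Zlem
import Pool.Agent.Lib.MP_35c604_gt.IncL

/-! Definitions for the Ptolemy theorem. -/

namespace MP35

open Matrix SC

variable {V : Type} [DecidableEq V] {T : Type} [CommRing T] {G : Type} [Group G]

open Classical in
/-- The vertex of `s` in position `i`. -/
noncomputable def nth {X : SC V} (o : V → ℕ) (s : X.faces) (i : ℕ) : V :=
  if h : ∃ v ∈ s.1, pos o s.1 v = i then h.choose else (X.ne s.1 s.2).choose

/-- A decoration with square roots of the Ptolemy coordinates. -/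
structure PD (ρ : G →* Matrix (Fin 2) (Fin 2) T) (X : SC V) where
  o : V → ℕ
  h : Finset V → Finset V → G
  sv : V → Fin 2 → T
  ge : Finset V → Tˣ
  M : Subgroup Tˣ
  inj : Set.InjOn o X.verts
  loc : X.IsLoc h
  det : ∀ g, (ρ g).det = 1
  sv0 : ∀ v, sv v 0 = 1
  sq : ∀ m ∈ M, ∃ u : Tˣ, m = u ^ 2
  rot : ∀ a ∈ M, ∀ b ∈ M, (a : T) ^ 2 + (b : T) ^ 2 = 1 → ∃ u : Tˣ, 1 - (a : T) = (u : T) ^ 2
  mem : ∀ e, ge e ∈ M
  hge : ∀ s ∈ X.faces, ∀ u ∈ s, ∀ v ∈ s, o u < o v →
    om (ρ (h s {u}) *ᵥ sv u) (ρ (h s {v}) *ᵥ sv v) = (ge {u, v} : T) ^ 2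

abbrev Vx (X : SC V) := {v : X.faces // v.1.card = 1}
abbrev Fx (X : SC V) := {f : X.faces // f.1.card = 3}
abbrev Tx (X : SC V) := {t : X.faces // t.1.card = 4}
abbrev Fl (X : SC V) := {x : X.faces × V // x.2 ∈ x.1.1}

/-- Flags as a sigma type. -/
def flEquiv (X : SC V) : (Σ s : X.faces, s.1) ≃ Fl X where
  toFun x := ⟨(x.1, x.2.1), x.2.2⟩
  invFun x := ⟨x.1.1, x.1.2, x.2⟩
  left_inv _ := rfl
  right_inv _ := rfl

instance (X : SC V) : Fintype (Fl X) := Fintype.ofEquiv _ (flEquiv X)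

omit [DecidableEq V] in
theorem sum_Fl {X : SC V} {A : Type} [AddCommMonoid A] (f : X.faces → V → A) :
    ∑ x : Fl X, f x.1.1 x.1.2 = ∑ s : X.faces, ∑ v ∈ s.1, f s v := by
  rw [← (flEquiv X).sum_comp, Fintype.sum_sigma]
  exact Finset.sum_congr rfl fun s _ => Finset.sum_coe_sort s.1 (f s)

abbrev YI (X : SC V) := (Vx X ⊕ Fx X) ⊕ (Tx X × Fin 2) ⊕ Fl X

instance (X : SC V) : DecidableEq (Fl X) := inferInstance
instance (X : SC V) : DecidableEq (Tx X × Fin 2) := inferInstance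
instance (X : SC V) : DecidableEq (Vx X ⊕ Fx X) := inferInstance
instance (X : SC V) : DecidableEq (YI X) := inferInstance

def ypar (X : SC V) : YI X → Bool :=
  Sum.elim (Sum.elim (fun _ => false) fun _ => true) (Sum.elim (fun _ => false) fun x => par x.1.1.1)

namespace PD

variable {ρ : G →* Matrix (Fin 2) (Fin 2) T} {X : SC V} (D : PD ρ X)

/-- The section of the vertex `v` in the fibre of `s`. -/
def sec (s : Finset V) (v : V) : Fin 2 → T := ρ (D.h s {v}) *ᵥ D.sv v

/-- Coefficients of the normalised relation of the triangle `f`. -/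
def a (f : Finset V) (v : V) : T :=
  if v ∈ f then (-1) ^ pos D.o f v * ((D.ge (f.erase v) ^ 2 * (∏ w ∈ f, D.ge (f.erase w))⁻¹ : Tˣ) : T)
  else 0

noncomputable def n (s : X.faces) (i : ℕ) : V := nth D.o s i

/-- The two faces of a tetrahedron whose relations are used as a basis. -/
noncomputable def bf (t : X.faces) (i : Fin 2) : Finset V := t.1.erase (D.n t (2 * i.1))

noncomputable def cs (t : X.faces) : Tˣ :=
  D.ge {D.n t 0, D.n t 3} * D.ge {D.n t 1, D.n t 2} *
    (D.ge {D.n t 0, D.n t 2} * D.ge {D.n t 1, D.n t 3})⁻¹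

noncomputable def sn (t : X.faces) : Tˣ :=
  D.ge {D.n t 0, D.n t 1} * D.ge {D.n t 2, D.n t 3} *
    (D.ge {D.n t 0, D.n t 2} * D.ge {D.n t 1, D.n t 3})⁻¹

noncomputable def rotM (t : X.faces) : Matrix (Fin 2) (Fin 2) T :=
  !![(D.cs t : T), -(D.sn t : T); (D.sn t : T), (D.cs t : T)]

/-- Coordinates of the relation of the face `f` of `t` in the basis `bf`. -/
noncomputable def co (t : X.faces) (f : Finset V) : Fin 2 → T :=
  if f = t.1.erase (D.n t 0) then ![1, 0] else if f = t.1.erase (D.n t 2) then ![0, 1]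
  else if f = t.1.erase (D.n t 1) then fun i => D.rotM t i 0 else fun i => D.rotM t i 1

/-- Coefficient of the section of `u` in the vector `(0,1)` of the vertex face `x`, transported to
the edge `e`. -/
noncomputable def lf (e x : Finset V) (u : V) : T :=
  ∑ w ∈ e.erase u, om (ρ (D.h e x) *ᵥ ![0, 1]) (D.sec e w) * Ring.inverse (om (D.sec e u) (D.sec e w))

/-- Sum of the coefficients `a f v` over the vertices of the vertex face `x`. -/
def av (f x : Finset V) : T := ∑ v ∈ x, D.a f v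

/-- The big complex (rows are targets, columns are sources). -/
noncomputable def Y : Matrix (YI X) (YI X) T := fun i j =>
  match i, j with
  | .inl (.inr f), .inl (.inl x) => D.av f.1.1 x.1.1
  | .inr (.inl t), .inl (.inr f) => inc D.o t.1.1.1 f.1.1 * D.co t.1.1 f.1.1 t.2
  | .inr (.inr s), .inl (.inl x) => inc D.o s.1.1.1 x.1.1 * D.lf s.1.1.1 x.1.1 s.1.2
  | .inr (.inr s), .inl (.inr f) => if s.1.1 = f.1 then -D.a f.1.1 s.1.2 else 0
  | .inr (.inr s), .inr (.inl t) => if s.1.1 = t.1.1 then D.a (D.bf t.1.1 t.2) s.1.2 else 0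
  | .inr (.inr s), .inr (.inr s') => if s.1.2 = s'.1.2 then inc D.o s.1.1.1 s'.1.1.1 else 0
  | _, _ => 0

end PD

end MP35
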