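import Pool.Agent.Lib.MP_35c604_gt.PtolDefs

/-! TASK PT0: local identities. -/

namespace MP35

open Matrix SC

variable {V : Type} [DecidableEq V] {T : Type} [CommRing T] {G : Type} [Group G]

theorem ptolloc_om_mul (A : Matrix (Fin 2) (Fin 2) T) (a b : Fin 2 → T) :
    om (A *ᵥ a) (A *ᵥ b) = A.det * om a b := by
  simp only [om, mulVec, dotProduct, Fin.sum_univ_two, det_fin_two]
  ring

theorem exists_PD {ρ : G →* Matrix (Fin 2) (Fin 2) T} (hρ : Iface ρ) {X : SC V} {o : V → ℕ}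
    (ho : Set.InjOn o X.verts) {h : Finset V → Finset V → G} (hh : X.IsLoc h) :
    ∃ D : PD ρ X, D.o = o ∧ D.h = h := by
  obtain ⟨M, sv, h1, h2, h3, h4⟩ := hρ.ex
  have key : ∀ e : Finset V, ∃ γ ∈ M, ∀ u v, e = {u, v} → o u < o v →
      om (sv (o u)) (ρ ((h e {u})⁻¹ * h e {v}) *ᵥ sv (o v)) = (γ : T) ^ 2 := by
    intro e
    by_cases he : ∃ u v, e = {u, v} ∧ o u < o v
    · obtain ⟨u, v, rfl, huv⟩ := he
      obtain ⟨γ, hγ, e⟩ := h4 _ _ huv.ne ((h {u, v} {u})⁻¹ * h {u, v} {v})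
      refine ⟨γ, hγ, fun u' v' e' h' => ?_⟩
      have a1 : u' ∈ ({u, v} : Finset V) := by rw [e']; simp
      have a2 : v' ∈ ({u, v} : Finset V) := by rw [e']; simp
      simp only [Finset.mem_insert, Finset.mem_singleton] at a1 a2
      rcases a1 with rfl | rfl <;> rcases a2 with rfl | rfl
      · exact absurd h' (lt_irrefl _)
      · exact e
      · exact absurd h' huv.not_gt
      · exact absurd h' (lt_irrefl _)
    · exact ⟨1, M.one_mem, fun u v e h' => absurd ⟨u, v, e, h'⟩ he⟩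
  choose ge hm hge using key
  refine ⟨⟨o, h, fun v => sv (o v), ge, M, ho, hh, hρ.det, fun v => h3 _, h1, h2, hm, ?_⟩, rfl, rfl⟩
  intro s hs u hu v hv huv
  have hsub : ({u, v} : Finset V) ⊆ s := by
    simp [Finset.insert_subset_iff, hu, hv]
  have he : ({u, v} : Finset V) ∈ X.faces := X.down s hs _ hsub (Finset.insert_nonempty _ _)
  have e1 := hh s hs _ he {u} (mem_verts_of_mem hs hu) hsub (by simp)
  have e2 := hh s hs _ he {v} (mem_verts_of_mem hs hv) hsub (by simp)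
  have e3 : h s {v} = h s {u} * ((h {u, v} {u})⁻¹ * h {u, v} {v}) := by
    rw [← e1, ← e2]
    group
  rw [e3, map_mul, ← mulVec_mulVec, ptolloc_om_mul, hρ.det, one_mul]
  exact hge _ u v rfl huv

omit [DecidableEq V] in
theorem ptolloc_pos_mono (o : V → ℕ) (s : Finset V) {u v : V} (h : o u ≤ o v) :
    pos o s u ≤ pos o s v :=
  Finset.card_le_card fun _ hw =>
    Finset.mem_filter.2 ⟨(Finset.mem_filter.1 hw).1, (Finset.mem_filter.1 hw).2.trans_le h⟩

omit [DecidableEq V] in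
theorem ptolloc_pos_lt (o : V → ℕ) {s : Finset V} {u v : V} (hu : u ∈ s) (h : o u < o v) :
    pos o s u < pos o s v := by
  refine Finset.card_lt_card ⟨fun _ hw =>
    Finset.mem_filter.2 ⟨(Finset.mem_filter.1 hw).1, (Finset.mem_filter.1 hw).2.trans h⟩, ?_⟩
  intro hs
  exact lt_irrefl _ (Finset.mem_filter.1 (hs (Finset.mem_filter.2 ⟨hu, h⟩))).2

theorem ptolloc_pos2 {o : V → ℕ} {x y : V} (h : o x < o y) :
    pos o {x, y} x = 0 ∧ pos o {x, y} y = 1 := by
  simp [pos, Finset.filter_insert, Finset.filter_singleton, h, h.le]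

theorem ptolloc_pos3 {o : V → ℕ} {x y z : V} (h : o x < o y) (h' : o y < o z) :
    pos o {x, y, z} x = 0 ∧ pos o {x, y, z} y = 1 ∧ pos o {x, y, z} z = 2 := by
  have hxy : x ≠ y := fun e => h.ne (congrArg o e)
  have h'' := h.trans h'
  simp [pos, Finset.filter_insert, Finset.filter_singleton, h, h', h'', h.not_gt, h'.not_gt,
    h''.not_gt, hxy]

theorem ptolloc_erase3 {x y z : V} (h1 : x ≠ y) (h2 : x ≠ z) (h3 : y ≠ z) :
    ({x, y, z} : Finset V).erase x = {y, z} ∧ ({x, y, z} : Finset V).erase y = {x, z} ∧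
      ({x, y, z} : Finset V).erase z = {x, y} := by
  refine ⟨?_, ?_, ?_⟩ <;> ext w <;>
    simp only [Finset.mem_erase, Finset.mem_insert, Finset.mem_singleton] <;> grind

theorem ptolloc_inc2 {o : V → ℕ} {x y : V} (h : o x < o y) (v : V) :
    inc o {x, y} {v} = if v = y then 1 else if v = x then -1 else 0 := by
  have hxy : x ≠ y := fun e => h.ne (congrArg o e)
  have e1 : ({x, y} : Finset V).erase x = {y} := Finset.erase_insert (by simpa using hxy)
  have e2 : ({x, y} : Finset V).erase y = {x} := by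
    rw [Finset.pair_comm]
    exact Finset.erase_insert (by simpa using hxy.symm)
  rw [inc, Finset.sum_pair hxy, e1, e2, (ptolloc_pos2 h).1, (ptolloc_pos2 h).2]
  simp only [Finset.singleton_inj]
  by_cases h1 : v = y
  · simp [h1, hxy.symm]
  · simp [h1]

namespace PD

variable {ρ : G →* Matrix (Fin 2) (Fin 2) T} {X : SC V} (D : PD ρ X)

theorem ptolloc_inj {s : Finset V} (hs : s ∈ X.faces) : Set.InjOn D.o s :=
  D.inj.mono fun _ hv => mem_verts_of_mem hs hv

theorem ptolloc_pos_inj {s : Finset V} (hs : s ∈ X.faces) : Set.InjOn (pos D.o s) s := by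
  intro u hu v hv e
  rcases lt_trichotomy (D.o u) (D.o v) with h | h | h
  · exact absurd e (ptolloc_pos_lt _ hu h).ne
  · exact D.ptolloc_inj hs hu hv h
  · exact absurd e (ptolloc_pos_lt _ hv h).ne'

theorem n_mem (s : X.faces) (i : ℕ) : D.n s i ∈ s.1 := by
  unfold n nth
  split_ifs with h
  · exact h.choose_spec.1
  · exact (X.ne s.1 s.2).choose_spec

theorem pos_lt (s : Finset V) {v : V} (hv : v ∈ s) : pos D.o s v < s.card :=
  Finset.card_lt_card (Finset.filter_ssubset.2 ⟨v, hv, lt_irrefl _⟩)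

theorem pos_n (s : X.faces) {i : ℕ} (hi : i < s.1.card) : pos D.o s.1 (D.n s i) = i := by
  have h : ∃ v ∈ s.1, pos D.o s.1 v = i :=
    Finset.surjOn_of_injOn_of_card_le (s := s.1) (t := Finset.range s.1.card) (pos D.o s.1)
      (fun v hv => Finset.mem_coe.2 (Finset.mem_range.2 (D.pos_lt _ hv)))
      (D.ptolloc_pos_inj s.2) (by simp) (Finset.mem_coe.2 (Finset.mem_range.2 hi))
  unfold n nth
  rw [dif_pos h]
  exact h.choose_spec.2

theorem n_pos (s : X.faces) {v : V} (hv : v ∈ s.1) : D.n s (pos D.o s.1 v) = v :=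
  D.ptolloc_pos_inj s.2 (D.n_mem s _) hv (D.pos_n s (D.pos_lt _ hv))

theorem n_lt (s : X.faces) {i j : ℕ} (hij : i < j) (hj : j < s.1.card) :
    D.o (D.n s i) < D.o (D.n s j) := by
  by_contra h
  have := ptolloc_pos_mono D.o s.1 (not_lt.1 h)
  rw [D.pos_n s hj, D.pos_n s (hij.trans hj)] at this
  omega

theorem eq_n2 (s : X.faces) (h : s.1.card = 2) : s.1 = {D.n s 0, D.n s 1} := by
  ext v
  simp only [Finset.mem_insert, Finset.mem_singleton]
  refine ⟨fun hv => ?_, by rintro (rfl | rfl) <;> exact D.n_mem s _⟩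
  have h1 := D.n_pos s hv
  have h2 := D.pos_lt _ hv
  generalize pos D.o s.1 v = i at h1 h2
  rw [h] at h2
  interval_cases i <;> simp [h1]

theorem eq_n3 (s : X.faces) (h : s.1.card = 3) : s.1 = {D.n s 0, D.n s 1, D.n s 2} := by
  ext v
  simp only [Finset.mem_insert, Finset.mem_singleton]
  refine ⟨fun hv => ?_, by rintro (rfl | rfl | rfl) <;> exact D.n_mem s _⟩
  have h1 := D.n_pos s hv
  have h2 := D.pos_lt _ hv
  generalize pos D.o s.1 v = i at h1 h2
  rw [h] at h2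
  interval_cases i <;> simp [h1]

theorem eq_n4 (s : X.faces) (h : s.1.card = 4) :
    s.1 = {D.n s 0, D.n s 1, D.n s 2, D.n s 3} := by
  ext v
  simp only [Finset.mem_insert, Finset.mem_singleton]
  refine ⟨fun hv => ?_, by rintro (rfl | rfl | rfl | rfl) <;> exact D.n_mem s _⟩
  have h1 := D.n_pos s hv
  have h2 := D.pos_lt _ hv
  generalize pos D.o s.1 v = i at h1 h2
  rw [h] at h2
  interval_cases i <;> simp [h1]

theorem sec_res {s s' : Finset V} (hs : s ∈ X.faces) (hs' : s' ⊆ s) {v : V} (hv : v ∈ s') :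
    D.sec s v = ρ (D.h s s') *ᵥ D.sec s' v := by
  have h' := X.down s hs s' hs' ⟨v, hv⟩
  rw [sec, sec, mulVec_mulVec, ← map_mul,
    D.loc s hs s' h' {v} (mem_verts_of_mem h' hv) hs' (Finset.singleton_subset_iff.2 hv)]

theorem sec_self {v : V} (hv : v ∈ X.verts) : D.sec {v} v = D.sv v := by
  rw [sec, IsLoc.self D.loc hv, map_one, one_mulVec]

theorem ptolloc_om {s : Finset V} (hs : s ∈ X.faces) {u v : V} (hu : u ∈ s) (hv : v ∈ s)
    (h : D.o u < D.o v) : om (D.sec s u) (D.sec s v) = (D.ge {u, v} : T) ^ 2 :=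
  D.hge s hs u hu v hv h

/-- The coefficients of a sorted triangle. -/
theorem ptolloc_a3 {x y z : V} (h : D.o x < D.o y) (h' : D.o y < D.o z) :
    D.a {x, y, z} x = (D.ge {y, z} : T) ^ 2 *
        (((D.ge {y, z})⁻¹ : Tˣ) * ((D.ge {x, z})⁻¹ : Tˣ) * ((D.ge {x, y})⁻¹ : Tˣ)) ∧
      D.a {x, y, z} y = -((D.ge {x, z} : T) ^ 2 *
        (((D.ge {y, z})⁻¹ : Tˣ) * ((D.ge {x, z})⁻¹ : Tˣ) * ((D.ge {x, y})⁻¹ : Tˣ))) ∧
      D.a {x, y, z} z = (D.ge {x, y} : T) ^ 2 *
        (((D.ge {y, z})⁻¹ : Tˣ) * ((D.ge {x, z})⁻¹ : Tˣ) * ((D.ge {x, y})⁻¹ : Tˣ)) := by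
  have h1 : x ≠ y := fun e => h.ne (congrArg _ e)
  have h2 : x ≠ z := fun e => (h.trans h').ne (congrArg _ e)
  have h3 : y ≠ z := fun e => h'.ne (congrArg _ e)
  obtain ⟨e1, e2, e3⟩ := ptolloc_erase3 h1 h2 h3
  obtain ⟨p1, p2, p3⟩ := ptolloc_pos3 h h'
  have hp : ∏ w ∈ ({x, y, z} : Finset V), D.ge (({x, y, z} : Finset V).erase w) =
      D.ge {y, z} * D.ge {x, z} * D.ge {x, y} := by
    rw [Finset.prod_insert (by simp [h1, h2]), Finset.prod_pair h3, e1, e2, e3, mul_assoc]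
  refine ⟨?_, ?_, ?_⟩
  · rw [a, if_pos (by simp), hp, p1, e1]
    simp only [mul_inv, Units.val_mul, Units.val_pow_eq_pow_val, pow_zero, one_mul]
  · rw [a, if_pos (by simp), hp, p2, e2]
    simp only [mul_inv, Units.val_mul, Units.val_pow_eq_pow_val, pow_one, neg_one_mul]
  · rw [a, if_pos (by simp), hp, p3, e3]
    simp only [mul_inv, Units.val_mul, Units.val_pow_eq_pow_val, neg_one_sq, one_mul]

theorem ptolloc_a0 {f : Finset V} {v : V} (h : v ∉ f) : D.a f v = 0 := if_neg h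

theorem rel_zero {f s : Finset V} (hs : s ∈ X.faces) (hf : f ⊆ s) (h3 : f.card = 3) :
    ∑ v ∈ f, D.a f v • D.sec s v = 0 := by
  obtain ⟨x, y, z, h, h', rfl⟩ := exists_sorted3 ((D.ptolloc_inj hs).mono hf) h3
  have h1 : x ≠ y := fun e => h.ne (congrArg _ e)
  have h2 : x ≠ z := fun e => (h.trans h').ne (congrArg _ e)
  have h3 : y ≠ z := fun e => h'.ne (congrArg _ e)
  have hx : x ∈ s := hf (by simp)
  have hy : y ∈ s := hf (by simp)
  have hz : z ∈ s := hf (by simp)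
  obtain ⟨e1, e2, e3⟩ := D.ptolloc_a3 h h'
  rw [Finset.sum_insert (by simp [h1, h2]), Finset.sum_pair h3, e1, e2, e3,
    ← D.ptolloc_om hs hx hy h, ← D.ptolloc_om hs hy hz h', ← D.ptolloc_om hs hx hz (h.trans h')]
  funext i
  fin_cases i <;> simp only [om, Pi.add_apply, Pi.smul_apply, smul_eq_mul, Pi.zero_apply,
    Fin.zero_eta, Fin.mk_one] <;> ring

theorem a_unit [Nice T] {f : Finset V} {v : V} (hv : v ∈ f) :
    IsUnit (D.a f v) ∧ cls (D.a f v) = 1 := by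
  rw [a, if_pos hv]
  obtain ⟨u, hu⟩ := D.sq (D.ge (f.erase v) ^ 2 * (∏ w ∈ f, D.ge (f.erase w))⁻¹)
    (D.M.mul_mem (D.M.pow_mem (D.mem _) _) (D.M.inv_mem (D.M.prod_mem fun _ _ => D.mem _)))
  refine ⟨(isUnit_one.neg.pow _).mul (Units.isUnit _), ?_⟩
  rw [hu, Units.val_pow_eq_pow_val]
  rcases neg_one_pow_eq_or T (pos D.o f v) with h | h <;> rw [h]
  · rw [one_mul, cls_sq]
  · rw [neg_one_mul, cls_neg, cls_sq]

theorem ptolloc_ptol (t : X.faces) (h4 : t.1.card = 4) :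
    (D.ge {D.n t 0, D.n t 3} : T) ^ 2 * (D.ge {D.n t 1, D.n t 2} : T) ^ 2 +
      (D.ge {D.n t 0, D.n t 1} : T) ^ 2 * (D.ge {D.n t 2, D.n t 3} : T) ^ 2 =
      (D.ge {D.n t 0, D.n t 2} : T) ^ 2 * (D.ge {D.n t 1, D.n t 3} : T) ^ 2 := by
  have k : ∀ i j, i < j → j < 4 → (D.ge {D.n t i, D.n t j} : T) ^ 2 =
      om (D.sec t.1 (D.n t i)) (D.sec t.1 (D.n t j)) := fun i j h h' =>
    (D.ptolloc_om t.2 (D.n_mem t i) (D.n_mem t j) (D.n_lt t h (h4 ▸ h'))).symm
  rw [k 0 3 (by norm_num) (by norm_num), k 1 2 (by norm_num) (by norm_num),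
    k 0 1 (by norm_num) (by norm_num), k 2 3 (by norm_num) (by norm_num),
    k 0 2 (by norm_num) (by norm_num), k 1 3 (by norm_num) (by norm_num)]
  simp only [om]
  ring

theorem cs_sq_add (t : X.faces) (h4 : t.1.card = 4) :
    (D.cs t : T) ^ 2 + (D.sn t : T) ^ 2 = 1 := by
  have h := D.ptolloc_ptol t h4
  have h1 := (D.ge {D.n t 0, D.n t 2} * D.ge {D.n t 1, D.n t 3}).mul_inv
  simp only [cs, sn, Units.val_mul] at h1 ⊢
  generalize (((D.ge {D.n t 0, D.n t 2} * D.ge {D.n t 1, D.n t 3})⁻¹ : Tˣ) : T) = w at h1 ⊢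
  linear_combination w ^ 2 * h +
    (1 + (D.ge {D.n t 0, D.n t 2} : T) * (D.ge {D.n t 1, D.n t 3} : T) * w) * h1

theorem rotM_good (t : X.faces) (h4 : t.1.card = 4) : GoodRot (D.rotM t) := by
  have m : ∀ a b c d, D.ge a * D.ge b * (D.ge c * D.ge d)⁻¹ ∈ D.M := fun a b c d =>
    D.M.mul_mem (D.M.mul_mem (D.mem _) (D.mem _)) (D.M.inv_mem (D.M.mul_mem (D.mem _) (D.mem _)))
  obtain ⟨u, hu⟩ := D.rot (D.cs t) (m _ _ _ _) (D.sn t) (m _ _ _ _) (D.cs_sq_add t h4)
  exact Or.inr ⟨_, _, u, rfl, D.cs_sq_add t h4, hu⟩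

theorem ptolloc_ne (t : X.faces) {i j : ℕ} (h : i ≠ j) (hi : i < t.1.card) (hj : j < t.1.card) :
    D.n t i ≠ D.n t j := fun e => h (by rw [← D.pos_n t hi, e, D.pos_n t hj])

theorem ptolloc_erase_ne (t : X.faces) {i j : ℕ} (h : i ≠ j) (hi : i < t.1.card)
    (hj : j < t.1.card) : t.1.erase (D.n t i) ≠ t.1.erase (D.n t j) := fun e =>
  D.ptolloc_ne t h hi hj ((Finset.erase_inj _ (D.n_mem t i)).1 e)

theorem co_0 (t : X.faces) : D.co t (t.1.erase (D.n t 0)) = ![1, 0] := if_pos rfl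

theorem co_1 (t : X.faces) (h4 : t.1.card = 4) :
    D.co t (t.1.erase (D.n t 1)) = fun i => D.rotM t i 0 := by
  rw [co, if_neg (D.ptolloc_erase_ne t (by omega) (by omega) (by omega)),
    if_neg (D.ptolloc_erase_ne t (by omega) (by omega) (by omega)), if_pos rfl]

theorem co_2 (t : X.faces) (h4 : t.1.card = 4) : D.co t (t.1.erase (D.n t 2)) = ![0, 1] := by
  rw [co, if_neg (D.ptolloc_erase_ne t (by omega) (by omega) (by omega)), if_pos rfl]

theorem co_3 (t : X.faces) (h4 : t.1.card = 4) :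
    D.co t (t.1.erase (D.n t 3)) = fun i => D.rotM t i 1 := by
  rw [co, if_neg (D.ptolloc_erase_ne t (by omega) (by omega) (by omega)),
    if_neg (D.ptolloc_erase_ne t (by omega) (by omega) (by omega)),
    if_neg (D.ptolloc_erase_ne t (by omega) (by omega) (by omega))]

theorem ptolloc_erase4 (t : X.faces) (h4 : t.1.card = 4) :
    t.1.erase (D.n t 0) = {D.n t 1, D.n t 2, D.n t 3} ∧
      t.1.erase (D.n t 1) = {D.n t 0, D.n t 2, D.n t 3} ∧
      t.1.erase (D.n t 2) = {D.n t 0, D.n t 1, D.n t 3} ∧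
      t.1.erase (D.n t 3) = {D.n t 0, D.n t 1, D.n t 2} := by
  have k : ∀ i j, i < j → j < 4 → D.n t i ≠ D.n t j := fun i j h h' =>
    D.ptolloc_ne t h.ne (by omega) (by omega)
  have k01 := k 0 1 (by norm_num) (by norm_num)
  have k02 := k 0 2 (by norm_num) (by norm_num)
  have k03 := k 0 3 (by norm_num) (by norm_num)
  have k12 := k 1 2 (by norm_num) (by norm_num)
  have k13 := k 1 3 (by norm_num) (by norm_num)
  have k23 := k 2 3 (by norm_num) (by norm_num)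
  have e := D.eq_n4 t h4
  generalize D.n t 0 = x, D.n t 1 = y, D.n t 2 = z, D.n t 3 = w at *
  rw [e]
  refine ⟨?_, ?_, ?_, ?_⟩ <;> ext u <;>
    simp only [Finset.mem_erase, Finset.mem_insert, Finset.mem_singleton] <;> grind

theorem ptolloc_co (t : X.faces) (h4 : t.1.card = 4) (v : V) :
    D.a (t.1.erase (D.n t 1)) v =
        D.cs t * D.a (t.1.erase (D.n t 0)) v + D.sn t * D.a (t.1.erase (D.n t 2)) v ∧
      D.a (t.1.erase (D.n t 3)) v =
        -D.sn t * D.a (t.1.erase (D.n t 0)) v + D.cs t * D.a (t.1.erase (D.n t 2)) v := by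
  by_cases hv : v ∈ t.1
  swap
  · have : ∀ w, D.a (t.1.erase w) v = 0 := fun w =>
      D.ptolloc_a0 fun h => hv (Finset.mem_of_mem_erase h)
    simp only [this, mul_zero, add_zero, and_self]
  have z : ∀ w, D.a (t.1.erase w) w = 0 := fun w => D.ptolloc_a0 (Finset.notMem_erase _ _)
  have z0 := z (D.n t 0)
  have z1 := z (D.n t 1)
  have z2 := z (D.n t 2)
  have z3 := z (D.n t 3)
  have hp := D.ptolloc_ptol t h4
  have k : ∀ i j, i < j → j < 4 → D.o (D.n t i) < D.o (D.n t j) := fun i j h h' =>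
    D.n_lt t h (h4 ▸ h')
  have k01 := k 0 1 (by norm_num) (by norm_num)
  have k02 := k 0 2 (by norm_num) (by norm_num)
  have k12 := k 1 2 (by norm_num) (by norm_num)
  have k13 := k 1 3 (by norm_num) (by norm_num)
  have k23 := k 2 3 (by norm_num) (by norm_num)
  obtain ⟨e0, e1, e2, e3⟩ := D.ptolloc_erase4 t h4
  rw [D.eq_n4 t h4] at hv
  simp only [e0, e1, e2, e3, cs, sn, mul_inv, Units.val_mul] at z0 z1 z2 z3 ⊢
  obtain ⟨a1, a2, a3⟩ := D.ptolloc_a3 k12 k23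
  obtain ⟨b1, b2, b3⟩ := D.ptolloc_a3 k02 k23
  obtain ⟨c1, c2, c3⟩ := D.ptolloc_a3 k01 k13
  obtain ⟨d1, d2, d3⟩ := D.ptolloc_a3 k01 k12
  have u01 := (D.ge {D.n t 0, D.n t 1}).mul_inv
  have u02 := (D.ge {D.n t 0, D.n t 2}).mul_inv
  have u03 := (D.ge {D.n t 0, D.n t 3}).mul_inv
  have u12 := (D.ge {D.n t 1, D.n t 2}).mul_inv
  have u13 := (D.ge {D.n t 1, D.n t 3}).mul_inv
  have u23 := (D.ge {D.n t 2, D.n t 3}).mul_inv
  simp only [Finset.mem_insert, Finset.mem_singleton] at hv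
  generalize D.ge {D.n t 0, D.n t 1} = g1, D.ge {D.n t 0, D.n t 2} = g2,
    D.ge {D.n t 0, D.n t 3} = g3, D.ge {D.n t 1, D.n t 2} = g4, D.ge {D.n t 1, D.n t 3} = g5,
    D.ge {D.n t 2, D.n t 3} = g6 at *
  rcases hv with rfl | rfl | rfl | rfl <;>
    simp only [z0, z1, z2, z3, a1, a2, a3, b1, b2, b3, c1, c2, c3, d1, d2, d3] <;>
    clear * - u01 u02 u03 u12 u13 u23 hp <;> constructor <;> grind (ringSteps := 1000000)

theorem co_spec (t : X.faces) (h4 : t.1.card = 4) {w : V} (hw : w ∈ t.1) (v : V) :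
    D.a (t.1.erase w) v = ∑ i, D.co t (t.1.erase w) i * D.a (D.bf t i) v := by
  obtain ⟨h1, h3⟩ := D.ptolloc_co t h4 v
  have b0 : D.bf t 0 = t.1.erase (D.n t 0) := rfl
  have b1 : D.bf t 1 = t.1.erase (D.n t 2) := rfl
  rw [Fin.sum_univ_two, b0, b1]
  rw [D.eq_n4 t h4] at hw
  simp only [Finset.mem_insert, Finset.mem_singleton] at hw
  rcases hw with rfl | rfl | rfl | rfl
  · simp [D.co_0]
  · rw [D.co_1 t h4, h1]
    simp [rotM]
  · simp [D.co_2 t h4]
  · rw [D.co_3 t h4, h3]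
    simp [rotM]

/-- The coefficients `lf` on a sorted edge. -/
theorem ptolloc_lf {p q : V} (he : {p, q} ∈ X.faces) (h : D.o p < D.o q) (x : Finset V) :
    D.lf {p, q} x p = om (ρ (D.h {p, q} x) *ᵥ ![0, 1]) (D.sec {p, q} q) *
        (((D.ge {p, q})⁻¹ : Tˣ) : T) ^ 2 ∧
      D.lf {p, q} x q = -(om (ρ (D.h {p, q} x) *ᵥ ![0, 1]) (D.sec {p, q} p) *
        (((D.ge {p, q})⁻¹ : Tˣ) : T) ^ 2) := by
  have hpq : p ≠ q := fun e => h.ne (congrArg _ e)
  have e1 : ({p, q} : Finset V).erase p = {q} := Finset.erase_insert (by simpa using hpq)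
  have e2 : ({p, q} : Finset V).erase q = {p} := by
    rw [Finset.pair_comm]
    exact Finset.erase_insert (by simpa using hpq.symm)
  have c1 : om (D.sec {p, q} p) (D.sec {p, q} q) = (D.ge {p, q} ^ 2 : Tˣ) := by
    rw [D.ptolloc_om he (by simp) (by simp) h, Units.val_pow_eq_pow_val]
  have c2 : om (D.sec {p, q} q) (D.sec {p, q} p) = (-D.ge {p, q} ^ 2 : Tˣ) := by
    rw [Units.val_neg, ← c1]
    simp only [om]
    ring
  rw [lf, lf, e1, e2, Finset.sum_singleton, Finset.sum_singleton, c1, c2, Ring.inverse_unit,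
    Ring.inverse_unit, inv_neg, Units.val_neg, ← inv_pow, Units.val_pow_eq_pow_val, mul_neg]
  exact ⟨rfl, rfl⟩

theorem lf_spec {e : Finset V} (he : e ∈ X.faces) (h2 : e.card = 2) (x : Finset V) :
    ∑ u ∈ e, D.lf e x u • D.sec e u = ρ (D.h e x) *ᵥ ![0, 1] := by
  obtain ⟨p, q, h, rfl⟩ := exists_sorted2 (D.ptolloc_inj he) h2
  have hpq : p ≠ q := fun e => h.ne (congrArg _ e)
  obtain ⟨e1, e2⟩ := D.ptolloc_lf he h x
  have c := D.ptolloc_om he (by simp) (by simp) h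
  have u := (D.ge {p, q}).mul_inv
  rw [Finset.sum_pair hpq, e1, e2]
  generalize ρ (D.h {p, q} x) *ᵥ ![0, 1] = y
  funext i
  fin_cases i <;> simp only [om, Pi.add_apply, Pi.smul_apply, smul_eq_mul,
    Fin.zero_eta, Fin.mk_one] at c ⊢ <;> grind

/-- The contribution of a sorted edge of the face `f`, read in the fibre of `f`. -/
theorem ptolloc_edge {f : Finset V} (hf : f ∈ X.faces) {p q : V} (hp : p ∈ f) (hq : q ∈ f)
    (h : D.o p < D.o q) (u v : V) :
    (if u ∈ ({p, q} : Finset V) then (inc D.o {p, q} {v} : T) * D.lf {p, q} {v} u else 0) =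
      (if v = q then 1 else if v = p then -1 else 0) *
        (if u = p then om (ρ (D.h f {v}) *ᵥ ![0, 1]) (D.sec f q) else
          if u = q then -om (ρ (D.h f {v}) *ᵥ ![0, 1]) (D.sec f p) else 0) *
        (((D.ge {p, q})⁻¹ : Tˣ) : T) ^ 2 := by
  have hsub : ({p, q} : Finset V) ⊆ f := by simp [Finset.insert_subset_iff, hp, hq]
  have he : ({p, q} : Finset V) ∈ X.faces := X.down f hf _ hsub (Finset.insert_nonempty _ _)
  rw [ptolloc_inc2 h]
  by_cases hv : v ∈ ({p, q} : Finset V)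
  swap
  · simp only [Finset.mem_insert, Finset.mem_singleton, not_or] at hv
    simp [hv.1, hv.2]
  have k : ∀ w ∈ ({p, q} : Finset V), om (ρ (D.h f {v}) *ᵥ ![0, 1]) (D.sec f w) =
      om (ρ (D.h {p, q} {v}) *ᵥ ![0, 1]) (D.sec {p, q} w) := fun w hw => by
    rw [D.sec_res hf hsub hw, ← D.loc f hf _ he {v} (mem_verts_of_mem he hv) hsub
      (Finset.singleton_subset_iff.2 hv), map_mul, ← mulVec_mulVec, ptolloc_om_mul, D.det, one_mul]
  obtain ⟨e1, e2⟩ := D.ptolloc_lf he h {v}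
  rw [k p (by simp), k q (by simp)]
  push_cast
  by_cases h1 : u = p
  · rw [if_pos (by simp [h1]), if_pos h1, h1, e1, mul_assoc]
  · by_cases h2 : u = q
    · rw [if_pos (by simp [h2]), if_neg h1, if_pos h2, h2, e2, mul_assoc, neg_mul]
    · rw [if_neg (by simp [h1, h2]), if_neg h1, if_neg h2, mul_zero, zero_mul]

theorem lf_tri {f : Finset V} (hf : f ∈ X.faces) (h3 : f.card = 3) {u : V} (hu : u ∈ f) (v : V) :
    ∑ e ∈ X.faces, (if u ∈ e then (inc D.o f e * inc D.o e {v} : ℤ) * D.lf e {v} u else 0) =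
      D.a f u * D.a f v := by
  have h0 := sum_inc D.o X hf (by omega) fun e =>
    if u ∈ e then (inc D.o e {v} : T) * D.lf e {v} u else 0
  refine (Finset.sum_congr rfl fun e _ => ?_).trans (h0.trans ?_)
  · split_ifs <;> simp [mul_assoc]
  obtain ⟨x, y, z, h, h', rfl⟩ := exists_sorted3 (D.ptolloc_inj hf) h3
  have h1 : x ≠ y := fun e => h.ne (congrArg _ e)
  have h2 : x ≠ z := fun e => (h.trans h').ne (congrArg _ e)
  have h3 : y ≠ z := fun e => h'.ne (congrArg _ e)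
  obtain ⟨e1, e2, e3⟩ := ptolloc_erase3 h1 h2 h3
  obtain ⟨p1, p2, p3⟩ := ptolloc_pos3 h h'
  have hx : x ∈ ({x, y, z} : Finset V) := by simp
  have hy : y ∈ ({x, y, z} : Finset V) := by simp
  have hz : z ∈ ({x, y, z} : Finset V) := by simp
  rw [Finset.sum_insert (by simp [h1, h2]), Finset.sum_pair h3, e1, e2, e3, p1, p2, p3,
    D.ptolloc_edge hf hy hz h', D.ptolloc_edge hf hx hz (h.trans h'), D.ptolloc_edge hf hx hy h]
  by_cases hv : v ∈ ({x, y, z} : Finset V)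
  swap
  · rw [D.ptolloc_a0 hv]
    simp only [Finset.mem_insert, Finset.mem_singleton, not_or] at hv
    simp [hv.1, hv.2.1, hv.2.2]
  have hw : om (ρ (D.h {x, y, z} {v}) *ᵥ ![0, 1]) (D.sec {x, y, z} v) = -1 := by
    rw [sec, ptolloc_om_mul, D.det]
    simp [om, D.sv0]
  have hr : om (ρ (D.h {x, y, z} {v}) *ᵥ ![0, 1]) (D.sec {x, y, z} x) * (D.ge {y, z} : T) ^ 2 -
      om (ρ (D.h {x, y, z} {v}) *ᵥ ![0, 1]) (D.sec {x, y, z} y) * (D.ge {x, z} : T) ^ 2 +
      om (ρ (D.h {x, y, z} {v}) *ᵥ ![0, 1]) (D.sec {x, y, z} z) * (D.ge {x, y} : T) ^ 2 = 0 := by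
    rw [← D.ptolloc_om hf hx hy h, ← D.ptolloc_om hf hy hz h',
      ← D.ptolloc_om hf hx hz (h.trans h')]
    simp only [om]
    ring
  obtain ⟨a1, a2, a3⟩ := D.ptolloc_a3 h h'
  have u1 := (D.ge {y, z}).mul_inv
  have u2 := (D.ge {x, z}).mul_inv
  have u3 := (D.ge {x, y}).mul_inv
  generalize ρ (D.h {x, y, z} {v}) *ᵥ ![0, 1] = Y at hw hr ⊢
  simp only [Finset.mem_insert, Finset.mem_singleton] at hu hv
  rcases hu with rfl | rfl | rfl <;> rcases hv with rfl | rfl | rfl <;>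
    simp only [a1, a2, a3, h1, h2, h3, h1.symm, h2.symm, h3.symm, if_true, if_false, pow_zero,
      pow_one, neg_one_sq, one_smul, neg_smul] <;> grind

end PD

end MP35
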