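import Mathlib

/-! Auxiliary lemmas for TopA: images of paths and of homotopy classes, the square lemma,
the double mapping path space. -/

namespace MP35

open unitInterval

section general
variable {X Y W : Type} [TopologicalSpace X] [TopologicalSpace Y] [TopologicalSpace W]

abbrev topa_HQ (x y : X) := Path.Homotopic.Quotient x y

abbrev topa_mk {x y : X} (p : Path x y) : topa_HQ x y := Path.Homotopic.Quotient.mk p

def topa_pmap (f : C(X, Y)) {x0 x1 : X} {y0 y1 : Y} (h0 : f x0 = y0) (h1 : f x1 = y1)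
    (p : Path x0 x1) : Path y0 y1 :=
  (p.map f.continuous).cast h0.symm h1.symm

@[simp] theorem topa_pmap_apply (f : C(X, Y)) {x0 x1 : X} {y0 y1 : Y} (h0 : f x0 = y0)
    (h1 : f x1 = y1) (p : Path x0 x1) (t : I) : topa_pmap f h0 h1 p t = f (p t) := rfl

def topa_qmap (f : C(X, Y)) {x0 x1 : X} {y0 y1 : Y} (h0 : f x0 = y0) (h1 : f x1 = y1)
    (a : topa_HQ x0 x1) : topa_HQ y0 y1 :=
  (a.map f).cast h0.symm h1.symm

theorem topa_qmap_mk (f : C(X, Y)) {x0 x1 : X} {y0 y1 : Y} (h0 : f x0 = y0) (h1 : f x1 = y1)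
    (p : Path x0 x1) : topa_qmap f h0 h1 (topa_mk p) = topa_mk (topa_pmap f h0 h1 p) := rfl

theorem topa_qmap_trans (f : C(X, Y)) {x0 x1 x2 : X} {y0 y1 y2 : Y} (h0 : f x0 = y0)
    (h1 : f x1 = y1) (h2 : f x2 = y2) (a : topa_HQ x0 x1) (b : topa_HQ x1 x2) :
    topa_qmap f h0 h2 (a.trans b) = (topa_qmap f h0 h1 a).trans (topa_qmap f h1 h2 b) := by
  induction a using Path.Homotopic.Quotient.ind with | mk p =>
  induction b using Path.Homotopic.Quotient.ind with | mk q =>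
  subst h0 h1 h2
  change topa_mk (topa_pmap f rfl rfl (p.trans q)) =
    topa_mk ((topa_pmap f rfl rfl p).trans (topa_pmap f rfl rfl q))
  congr 1
  exact Path.map_trans p q f.continuous

theorem topa_qmap_symm (f : C(X, Y)) {x0 x1 : X} {y0 y1 : Y} (h0 : f x0 = y0)
    (h1 : f x1 = y1) (a : topa_HQ x0 x1) :
    topa_qmap f h1 h0 a.symm = (topa_qmap f h0 h1 a).symm := by
  induction a using Path.Homotopic.Quotient.ind with | mk p =>
  rfl

theorem topa_qmap_refl (f : C(X, Y)) {x0 : X} {y0 : Y} (h0 : f x0 = y0) :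
    topa_qmap f h0 h0 (.refl x0) = .refl y0 := by
  subst h0
  rfl

theorem topa_qmap_qmap (f : C(X, Y)) (g : C(Y, W)) (k : C(X, W)) (hk : ∀ x, g (f x) = k x)
    {x0 x1 : X} {y0 y1 : Y} {w0 w1 : W} (h0 : f x0 = y0) (h1 : f x1 = y1) (g0 : g y0 = w0)
    (g1 : g y1 = w1) (k0 : k x0 = w0) (k1 : k x1 = w1) (a : topa_HQ x0 x1) :
    topa_qmap g g0 g1 (topa_qmap f h0 h1 a) = topa_qmap k k0 k1 a := by
  induction a using Path.Homotopic.Quotient.ind with | mk p =>
  change topa_mk (topa_pmap g g0 g1 (topa_pmap f h0 h1 p)) = topa_mk (topa_pmap k k0 k1 p)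
  congr 1
  ext t
  simp [hk]

theorem topa_qmap_id (f : C(X, X)) (hf : ∀ x, f x = x) {x0 x1 : X} (h0 : f x0 = x0)
    (h1 : f x1 = x1) (a : topa_HQ x0 x1) : topa_qmap f h0 h1 a = a := by
  induction a using Path.Homotopic.Quotient.ind with | mk p =>
  change topa_mk (topa_pmap f h0 h1 p) = topa_mk p
  congr 1
  ext t
  simp [hf]

theorem topa_homotopic {x0 x1 : X} (F : C(I × I, X)) (p q : Path x0 x1)
    (h0 : ∀ u, F (0, u) = p u) (h1 : ∀ u, F (1, u) = q u) (hl : ∀ r, F (r, 0) = x0)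
    (hr : ∀ r, F (r, 1) = x1) : p.Homotopic q :=
  ⟨{ toContinuousMap := F
     map_zero_left := h0
     map_one_left := h1
     prop' := fun r u hu => by
       rcases hu with rfl | hu
       · exact (hl r).trans p.source.symm
       · rw [Set.mem_singleton_iff] at hu
         subst hu
         exact (hr r).trans p.target.symm }⟩

theorem topa_square {x00 x01 x10 x11 : X} (F : C(I × I, X)) (p0 : Path x00 x01)
    (p1 : Path x10 x11) (q0 : Path x00 x10) (q1 : Path x01 x11)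
    (h0 : ∀ u, F (0, u) = p0 u) (h1 : ∀ u, F (1, u) = p1 u) (hl : ∀ r, F (r, 0) = q0 r)
    (hr : ∀ r, F (r, 1) = q1 r) :
    (topa_mk p0).trans (topa_mk q1) = (topa_mk q0).trans (topa_mk p1) := by
  let f0 : C(I, X) := p0.toContinuousMap
  let f1 : C(I, X) := p1.toContinuousMap
  let H : f0.Homotopy f1 := ⟨F, h0, h1⟩
  have h := Path.Homotopic.map_trans_evalAt H Path.id
  have e0 : x00 = f0 0 := p0.source.symm
  have e1 : x11 = f1 1 := p1.target.symm
  have h' := h.pathCast e0 e1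
  change topa_mk (p0.trans q1) = topa_mk (q0.trans p1)
  rw [Path.Homotopic.Quotient.eq]
  convert h' using 1
  · ext t
    simp only [Path.cast_coe, Path.trans_apply]
    split_ifs
    · rfl
    · exact (hr _).symm
  · ext t
    simp only [Path.cast_coe, Path.trans_apply]
    split_ifs
    · exact (hl _).symm
    · rfl

/-- Clamping to the unit interval. -/
noncomputable def topa_pr : C(ℝ, I) := ⟨Set.projIcc 0 1 zero_le_one, continuous_projIcc⟩

theorem topa_pr_coe (t : I) : topa_pr t = t := Set.projIcc_val zero_le_one t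

theorem topa_pr_eq {y : ℝ} {t : I} (h : y = t) : topa_pr y = t := h ▸ topa_pr_coe t

theorem topa_pr_zero : topa_pr 0 = 0 := topa_pr_coe 0

theorem topa_pr_one : topa_pr 1 = 1 := topa_pr_coe 1

noncomputable def topa_glue (f g : C(X × ℝ, Y)) (a : ℝ) (h : ∀ x, f (x, a) = g (x, a)) :
    C(X × ℝ, Y) :=
  ⟨fun z => if z.2 ≤ a then f z else g z,
    Continuous.if_le f.continuous g.continuous continuous_snd continuous_const
      (fun z hz => by
        obtain ⟨x, y⟩ := z
        obtain rfl : y = a := hz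
        exact h x)⟩

theorem topa_glue_le (f g : C(X × ℝ, Y)) (a : ℝ) (h : ∀ x, f (x, a) = g (x, a)) (x : X) {y : ℝ}
    (hy : y ≤ a) : topa_glue f g a h (x, y) = f (x, y) := if_pos hy

theorem topa_glue_ge (f g : C(X × ℝ, Y)) (a : ℝ) (h : ∀ x, f (x, a) = g (x, a)) (x : X) {y : ℝ}
    (hy : a ≤ y) : topa_glue f g a h (x, y) = g (x, y) := by
  rcases hy.eq_or_lt with rfl | hy
  · rw [topa_glue_le f g _ h x le_rfl, h]
  · exact if_neg (not_le.2 hy)

theorem topa_glue_const (f g : C(X × ℝ, Y)) (a : ℝ) (h : ∀ x, f (x, a) = g (x, a)) (x : X) (c : Y)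
    (hf : ∀ y, f (x, y) = c) (hg : ∀ y, g (x, y) = c) (y : ℝ) : topa_glue f g a h (x, y) = c := by
  rcases le_total y a with hy | hy
  · rw [topa_glue_le f g a h x hy, hf]
  · rw [topa_glue_ge f g a h x hy, hg]

end general

section PP
variable {B Z Z' X : Type} [TopologicalSpace B] [TopologicalSpace Z] [TopologicalSpace Z']
  [TopologicalSpace X]

/-- Paths in `Z` with chosen preimages of the end points in `B`. -/
abbrev topa_PP (j : C(B, Z)) : Type :=
  {x : B × C(I, Z) × B // x.2.1 0 = j x.1 ∧ x.2.1 1 = j x.2.2}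

def topa_s (j : C(B, Z)) : C(topa_PP j, B) := ⟨fun x => x.1.1, by fun_prop⟩

def topa_t (j : C(B, Z)) : C(topa_PP j, B) := ⟨fun x => x.1.2.2, by fun_prop⟩

def topa_ev (j : C(B, Z)) : C(topa_PP j × I, Z) := ⟨fun z => z.1.1.2.1 z.2, by fun_prop⟩

theorem topa_ev_zero (j : C(B, Z)) (x : topa_PP j) : topa_ev j (x, 0) = j (topa_s j x) := x.2.1

theorem topa_ev_one (j : C(B, Z)) (x : topa_PP j) : topa_ev j (x, 1) = j (topa_t j x) := x.2.2

theorem topa_ext {j : C(B, Z)} {x y : topa_PP j} (hs : topa_s j x = topa_s j y)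
    (ht : topa_t j x = topa_t j y) (he : ∀ v, topa_ev j (x, v) = topa_ev j (y, v)) : x = y :=
  Subtype.ext (Prod.ext hs (Prod.ext (ContinuousMap.ext he) ht))

def topa_mkP (j : C(B, Z)) (Φ : C(X × I, Z)) (sa ta : C(X, B)) (h0 : ∀ x, Φ (x, 0) = j (sa x))
    (h1 : ∀ x, Φ (x, 1) = j (ta x)) : C(X, topa_PP j) :=
  ⟨fun x => ⟨(sa x, Φ.curry x, ta x), h0 x, h1 x⟩, by fun_prop⟩

def topa_i (j : C(B, Z)) : C(B, topa_PP j) :=
  topa_mkP j (j.comp ContinuousMap.fst) (.id B) (.id B) (fun _ => rfl) (fun _ => rfl)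

theorem topa_s_i (j : C(B, Z)) (x : B) : topa_s j (topa_i j x) = x := rfl

theorem topa_t_i (j : C(B, Z)) (x : B) : topa_t j (topa_i j x) = x := rfl

def topa_mapP {j : C(B, Z)} {j' : C(B, Z')} (g : C(Z, Z')) (hg : ∀ x, g (j x) = j' x) :
    C(topa_PP j, topa_PP j') :=
  topa_mkP j' (g.comp (topa_ev j)) (topa_s j) (topa_t j)
    (fun x => by rw [← hg, ← topa_ev_zero]; rfl) (fun x => by rw [← hg, ← topa_ev_one]; rfl)

theorem topa_mapP_i {j : C(B, Z)} {j' : C(B, Z')} (g : C(Z, Z')) (hg : ∀ x, g (j x) = j' x)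
    (x : B) : topa_mapP g hg (topa_i j x) = topa_i j' x :=
  topa_ext rfl rfl (fun _ => hg x)

theorem topa_stretch (j : C(B, Z)) {b c : B} (α : Path (topa_i j b) (topa_i j c)) (p q : Path b c)
    (hp : (topa_pmap (topa_s j) (topa_s_i j b) (topa_s_i j c) α).Homotopic p)
    (hq : (topa_pmap (topa_t j) (topa_t_i j b) (topa_t_i j c) α).Homotopic q) :
    ∃ D : Path (topa_i j b) (topa_i j c), α.Homotopic D ∧ (∀ u, topa_s j (D u) = p u) ∧
      ∀ u, topa_t j (D u) = q u := by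
  obtain ⟨h0⟩ := hp
  obtain ⟨h1⟩ := hq
  let A0 : C(I × ℝ, Z) := ⟨fun z => j (h0 (topa_pr (-z.2), z.1)), by fun_prop⟩
  let A1 : C(I × ℝ, Z) := ⟨fun z => topa_ev j (α z.1, topa_pr z.2), by fun_prop⟩
  let A2 : C(I × ℝ, Z) := ⟨fun z => j (h1 (topa_pr (z.2 - 1), z.1)), by fun_prop⟩
  have e12 : ∀ u, A1 (u, 1) = A2 (u, 1) := fun u => by
    change topa_ev j (α u, topa_pr 1) = j (h1 (topa_pr (1 - 1), u))
    rw [sub_self, topa_pr_zero, topa_pr_one, topa_ev_one, h1.apply_zero]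
    rfl
  have e01 : ∀ u, A0 (u, 0) = topa_glue A1 A2 1 e12 (u, 0) := fun u => by
    rw [topa_glue_le _ _ _ _ _ zero_le_one]
    change j (h0 (topa_pr (-0), u)) = topa_ev j (α u, topa_pr 0)
    rw [neg_zero, topa_pr_zero, topa_ev_zero, h0.apply_zero]
    rfl
  let A := topa_glue A0 _ 0 e01
  let Φ : C((I × I) × I, Z) :=
    ⟨fun z => A (z.1.2, -(z.1.1 : ℝ) + (1 + 2 * (z.1.1 : ℝ)) * z.2), by fun_prop⟩
  have hΦ0 : ∀ x : I × I, Φ (x, 0) = j (h0.toContinuousMap x) := fun x => by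
    change A (x.2, -(x.1 : ℝ) + (1 + 2 * (x.1 : ℝ)) * 0) = _
    rw [mul_zero, add_zero, topa_glue_le _ _ _ _ _ (neg_nonpos.2 x.1.2.1)]
    change j (h0 (topa_pr (- -(x.1 : ℝ)), x.2)) = _
    rw [neg_neg, topa_pr_coe]
    rfl
  have hΦ1 : ∀ x : I × I, Φ (x, 1) = j (h1.toContinuousMap x) := fun x => by
    have hx := x.1.2.1
    change A (x.2, -(x.1 : ℝ) + (1 + 2 * (x.1 : ℝ)) * 1) = _
    rw [topa_glue_ge _ _ _ _ _ (by linarith), topa_glue_ge _ _ _ _ _ (by linarith)]
    change j (h1 (topa_pr (-(x.1 : ℝ) + (1 + 2 * (x.1 : ℝ)) * 1 - 1), x.2)) = _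
    rw [topa_pr_eq (t := x.1) (by ring)]
    rfl
  let F := topa_mkP j Φ h0.toContinuousMap h1.toContinuousMap hΦ0 hΦ1
  have hl : ∀ r, F (r, 0) = topa_i j b := fun r => by
    refine topa_ext (h0.source r) (h1.source r) (fun v => ?_)
    refine topa_glue_const A0 _ 0 e01 0 (j b) (fun y => ?_)
      (topa_glue_const A1 A2 1 e12 0 (j b) (fun y => ?_) (fun y => ?_)) _
    · exact congrArg j (h0.source _)
    · change topa_ev j (α 0, _) = _
      rw [α.source]; rfl
    · exact congrArg j (h1.source _)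
  have hr : ∀ r, F (r, 1) = topa_i j c := fun r => by
    refine topa_ext (h0.target r) (h1.target r) (fun v => ?_)
    refine topa_glue_const A0 _ 0 e01 1 (j c) (fun y => ?_)
      (topa_glue_const A1 A2 1 e12 1 (j c) (fun y => ?_) (fun y => ?_)) _
    · exact congrArg j (h0.target _)
    · change topa_ev j (α 1, _) = _
      rw [α.target]; rfl
    · exact congrArg j (h1.target _)
  refine ⟨⟨⟨fun u => F (1, u), by fun_prop⟩, hl 1, hr 1⟩, ?_, fun u => h0.apply_one u,
    fun u => h1.apply_one u⟩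
  refine topa_homotopic F _ _ (fun u => ?_) (fun u => rfl) hl hr
  refine topa_ext (h0.apply_zero u) (h1.apply_zero u) (fun v => ?_)
  change A (u, -((0 : I) : ℝ) + (1 + 2 * ((0 : I) : ℝ)) * v) = _
  rw [show -((0 : I) : ℝ) + (1 + 2 * ((0 : I) : ℝ)) * v = v by simp,
    topa_glue_ge _ _ _ _ _ v.2.1, topa_glue_le _ _ _ _ _ v.2.2]
  change topa_ev j (α u, topa_pr v) = _
  rw [topa_pr_coe]

theorem topa_comm (j : C(B, Z)) {b : B} (α β : Path (topa_i j b) (topa_i j b))
    (hα : ∀ u, topa_s j (α u) = b) (hβ : ∀ u, topa_t j (β u) = b) :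
    (topa_mk α).trans (topa_mk β) = (topa_mk β).trans (topa_mk α) := by
  let A0 : C((I × I) × ℝ, Z) := ⟨fun z => topa_ev j (β z.1.2, topa_pr (z.2 + 1)), by fun_prop⟩
  let A1 : C((I × I) × ℝ, Z) := ⟨fun z => topa_ev j (α z.1.1, topa_pr z.2), by fun_prop⟩
  have e01 : ∀ x, A0 (x, 0) = A1 (x, 0) := fun x => by
    change topa_ev j (β x.2, topa_pr (0 + 1)) = topa_ev j (α x.1, topa_pr 0)
    rw [zero_add, topa_pr_zero, topa_pr_one, topa_ev_one, topa_ev_zero, hα, hβ]
  let A := topa_glue A0 A1 0 e01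
  have hA0 : ∀ x (y : ℝ), y ≤ 0 → A (x, y) = topa_ev j (β x.2, topa_pr (y + 1)) :=
    fun x y hy => topa_glue_le _ _ _ _ _ hy
  have hA1 : ∀ x (y : ℝ), 0 ≤ y → A (x, y) = topa_ev j (α x.1, topa_pr y) :=
    fun x y hy => topa_glue_ge _ _ _ _ _ hy
  have hA : ∀ x x' : I × I, α x.1 = α x'.1 → β x.2 = β x'.2 → ∀ y : ℝ, A (x, y) = A (x', y) :=
    fun x x' h h' y => by
      rcases le_total y 0 with hy | hy
      · rw [hA0 _ _ hy, hA0 _ _ hy, h']
      · rw [hA1 _ _ hy, hA1 _ _ hy, h]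
  have hAc : ∀ x : I × I, α x.1 = topa_i j b → β x.2 = topa_i j b → ∀ y : ℝ, A (x, y) = j b :=
    fun x h h' y => by
      rcases le_total y 0 with hy | hy
      · rw [hA0 _ _ hy, h']; rfl
      · rw [hA1 _ _ hy, h]; rfl
  let μ : C(I × I, topa_PP j) :=
    topa_mkP j ⟨fun z : (I × I) × I => A (z.1, -1 + 2 * (z.2 : ℝ)), by fun_prop⟩
      ⟨fun x => topa_s j (β x.2), by fun_prop⟩ ⟨fun x => topa_t j (α x.1), by fun_prop⟩
      (fun x => by
        change A (x, -1 + 2 * (0 : ℝ)) = j (topa_s j (β x.2))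
        rw [hA0 _ _ (by norm_num), topa_pr_eq (t := 0) (by norm_num), topa_ev_zero])
      (fun x => by
        change A (x, -1 + 2 * (1 : ℝ)) = j (topa_t j (α x.1))
        rw [hA1 _ _ (by norm_num), topa_pr_eq (t := 1) (by norm_num), topa_ev_one])
  have hμ : ∀ x x' : I × I, α x.1 = α x'.1 → β x.2 = β x'.2 → μ x = μ x' := fun x x' h h' =>
    topa_ext (congrArg (topa_s j) h' :) (congrArg (topa_t j) h :) (fun v => hA x x' h h' _)
  have hμc : ∀ x : I × I, α x.1 = topa_i j b → β x.2 = topa_i j b → μ x = topa_i j b :=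
    fun x h h' =>
      topa_ext (congrArg (topa_s j) h' :) (congrArg (topa_t j) h :) (fun v => hAc x h h' _)
  let α1 : Path (topa_i j b) (topa_i j b) :=
    ⟨⟨fun u => μ (u, 0), by fun_prop⟩, hμc _ α.source β.source, hμc _ α.target β.source⟩
  let β1 : Path (topa_i j b) (topa_i j b) :=
    ⟨⟨fun w => μ (0, w), by fun_prop⟩, hμc _ α.source β.source, hμc _ α.source β.target⟩
  have hsq := topa_square μ β1 β1 α1 α1 (fun _ => rfl)
    (fun u => hμ _ _ (α.target.trans α.source.symm) rfl) (fun _ => rfl)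
    (fun u => hμ _ _ rfl (β.target.trans β.source.symm))
  have e1 : topa_mk α = topa_mk α1 := by
    rw [Path.Homotopic.Quotient.eq]
    let F : C(I × I, topa_PP j) := topa_mkP j
      ⟨fun z : (I × I) × I => A ((z.1.2, 0), -(z.1.1 : ℝ) + (1 + (z.1.1 : ℝ)) * z.2), by fun_prop⟩
      (.const _ b) ⟨fun x => topa_t j (α x.2), by fun_prop⟩
      (fun x => by
        change A ((x.2, 0), -(x.1 : ℝ) + (1 + (x.1 : ℝ)) * 0) = j b
        rw [hA0 _ _ (by have := x.1.2.1; linarith), β.source]; rfl)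
      (fun x => by
        change A ((x.2, 0), -(x.1 : ℝ) + (1 + (x.1 : ℝ)) * 1) = j (topa_t j (α x.2))
        rw [hA1 _ _ (by linarith), topa_pr_eq (t := 1) (by simp), topa_ev_one])
    refine topa_homotopic F _ _ (fun u => ?_) (fun u => ?_) (fun r => ?_) (fun r => ?_)
    · refine topa_ext (hα u).symm rfl (fun v => ?_)
      change A ((u, 0), -((0 : I) : ℝ) + (1 + ((0 : I) : ℝ)) * v) = _
      rw [hA1 _ _ (by simpa using v.2.1), topa_pr_eq (t := v) (by simp)]
    · refine topa_ext (congrArg (topa_s j) β.source).symm rfl (fun v => ?_)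
      change A ((u, 0), -((1 : I) : ℝ) + (1 + ((1 : I) : ℝ)) * v) = A ((u, 0), -1 + 2 * (v : ℝ))
      norm_num
    · exact topa_ext rfl (congrArg (topa_t j) α.source :) (fun v => hAc _ α.source β.source _)
    · exact topa_ext rfl (congrArg (topa_t j) α.target :) (fun v => hAc _ α.target β.source _)
  have e2 : topa_mk β = topa_mk β1 := by
    rw [Path.Homotopic.Quotient.eq]
    let F : C(I × I, topa_PP j) := topa_mkP j
      ⟨fun z : (I × I) × I => A ((0, z.1.2), -1 + (1 + (z.1.1 : ℝ)) * z.2), by fun_prop⟩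
      ⟨fun x => topa_s j (β x.2), by fun_prop⟩ (.const _ b)
      (fun x => by
        change A ((0, x.2), -1 + (1 + (x.1 : ℝ)) * 0) = j (topa_s j (β x.2))
        rw [hA0 _ _ (by linarith), topa_pr_eq (t := 0) (by simp), topa_ev_zero])
      (fun x => by
        change A ((0, x.2), -1 + (1 + (x.1 : ℝ)) * 1) = j b
        rw [hA1 _ _ (by have := x.1.2.1; linarith), α.source]; rfl)
    refine topa_homotopic F _ _ (fun u => ?_) (fun u => ?_) (fun r => ?_) (fun r => ?_)
    · refine topa_ext rfl (hβ u).symm (fun v => ?_)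
      change A ((0, u), -1 + (1 + ((0 : I) : ℝ)) * v) = _
      rw [hA0 _ _ (by simpa using v.2.2), topa_pr_eq (t := v) (by simp)]
    · refine topa_ext rfl (congrArg (topa_t j) α.source).symm (fun v => ?_)
      change A ((0, u), -1 + (1 + ((1 : I) : ℝ)) * v) = A ((0, u), -1 + 2 * (v : ℝ))
      norm_num
    · exact topa_ext (congrArg (topa_s j) β.source :) rfl (fun v => hAc _ α.source β.source _)
    · exact topa_ext (congrArg (topa_s j) β.target :) rfl (fun v => hAc _ α.source β.target _)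
  rw [e1, e2, hsq]

end PP

end MP35
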