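import Pool.Agent.Lib.MP_35c604_gt.Q60
import Pool.Agent.Lib.MP_35c604_gt.TopAAux

/-! TASK TOPA: spaces obtained from a common subspace by attaching 2-cells along loops with
isomorphic free crossed modules are homotopy equivalent. -/

namespace MP35

open unitInterval

/-- The fundamental group with the order of multiplication of path composition. -/
abbrev Pi1 (B : Type) [TopologicalSpace B] (b : B) := (FundamentalGroup B b)ᵐᵒᵖ

def cl {B : Type} [TopologicalSpace B] {b : B} (p : Path b b) : Pi1 B b :=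
  MulOpposite.op (FundamentalGroup.fromPath (Path.Homotopic.Quotient.mk p))

theorem cl_trans {B : Type} [TopologicalSpace B] {b : B} (p q : Path b b) :
    cl (p.trans q) = cl p * cl q := rfl

/-- `Z` is obtained from `B` by attaching squares; the square `i` is a homotopy with fixed end
points from the path `p i` to the path `q i`, both from `b` to `c i`. -/
structure CellStr (B Z : Type) [TopologicalSpace B] [TopologicalSpace Z] (ι : Type) (b : B) where
  j : C(B, Z)
  c : ι → B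
  p : ∀ i, Path b (c i)
  q : ∀ i, Path b (c i)
  m : ι → C(I × I, Z)
  m0 : ∀ i s, m i (0, s) = j (p i s)
  m1 : ∀ i s, m i (1, s) = j (q i s)
  ml : ∀ i t, m i (t, 0) = j b
  mr : ∀ i t, m i (t, 1) = j (c i)
  surj : ∀ z, (∃ x, z = j x) ∨ ∃ i y, z = m i y
  glue : ∀ (Y : Type) [TopologicalSpace Y] (f : C(B, Y)) (D : ι → C(I × I, Y)),
    (∀ i s, D i (0, s) = f (p i s)) → (∀ i s, D i (1, s) = f (q i s)) →
    (∀ i t, D i (t, 0) = f b) → (∀ i t, D i (t, 1) = f (c i)) →
    ∃ g : C(Z, Y), (∀ x, g (j x) = f x) ∧ ∀ i y, g (m i y) = D i y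

section groups
variable {X Y W : Type} [TopologicalSpace X] [TopologicalSpace Y] [TopologicalSpace W]

def topa_ql {x : X} (a : topa_HQ x x) : Pi1 X x := MulOpposite.op (FundamentalGroup.fromPath a)

theorem topa_ql_trans {x : X} (a b : topa_HQ x x) :
    topa_ql (a.trans b) = topa_ql a * topa_ql b := rfl

theorem topa_ql_refl (x : X) : topa_ql (.refl x) = 1 := rfl

theorem topa_ql_inj {x : X} {a b : topa_HQ x x} (h : topa_ql a = topa_ql b) : a = b :=
  MulOpposite.op_injective h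

theorem topa_ql_surj {x : X} (g : Pi1 X x) : ∃ p : Path x x, topa_ql (topa_mk p) = g := by
  obtain ⟨p, hp⟩ := Path.Homotopic.Quotient.mk_surjective (g.unop : topa_HQ x x)
  exact ⟨p, congrArg MulOpposite.op hp⟩

def topa_pi (f : C(X, Y)) {x : X} {y : Y} (h : f x = y) : Pi1 X x →* Pi1 Y y where
  toFun g := topa_ql (topa_qmap f h h g.unop)
  map_one' := congrArg topa_ql (topa_qmap_refl f h)
  map_mul' a b := congrArg topa_ql (topa_qmap_trans f h h h a.unop b.unop)

theorem topa_pi_ql (f : C(X, Y)) {x : X} {y : Y} (h : f x = y) (a : topa_HQ x x) :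
    topa_pi f h (topa_ql a) = topa_ql (topa_qmap f h h a) := rfl

theorem topa_mk_eq {x y : X} {p q : Path x y} (h : p.Homotopic q) : topa_mk p = topa_mk q :=
  Path.Homotopic.Quotient.eq.2 h

theorem topa_cancel {x y z : X} {a a' : topa_HQ x y} (c : topa_HQ y z)
    (h : a.trans c = a'.trans c) : a = a' := by
  have := congrArg (fun u => u.trans c.symm) h
  simpa using this

theorem topa_symm_symm {x y : X} (a : topa_HQ x y) : a.symm.symm = a := by
  induction a using Path.Homotopic.Quotient.ind with | mk p =>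
  exact congrArg topa_mk p.symm_symm

theorem topa_ts {x y z : X} (a : topa_HQ x y) (c : topa_HQ x z) :
    a.trans (a.symm.trans c) = c := by
  rw [← Path.Homotopic.Quotient.trans_assoc]; simp

theorem topa_st {x y z : X} (a : topa_HQ x y) (c : topa_HQ y z) :
    a.symm.trans (a.trans c) = c := by
  rw [← Path.Homotopic.Quotient.trans_assoc]; simp

end groups

section fill
variable {B Z Z' Z'' : Type} [TopologicalSpace B] [TopologicalSpace Z] [TopologicalSpace Z']
  [TopologicalSpace Z'']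

theorem topa_s_iq (j : C(B, Z)) {b c : B} (a : topa_HQ b c) :
    topa_qmap (topa_s j) (topa_s_i j b) (topa_s_i j c) (topa_qmap (topa_i j) rfl rfl a) = a :=
  (topa_qmap_qmap _ _ (.id B) (topa_s_i j) rfl rfl _ _ rfl rfl _).trans
    (topa_qmap_id _ (fun _ => rfl) _ _ _)

theorem topa_t_iq (j : C(B, Z)) {b c : B} (a : topa_HQ b c) :
    topa_qmap (topa_t j) (topa_t_i j b) (topa_t_i j c) (topa_qmap (topa_i j) rfl rfl a) = a :=
  (topa_qmap_qmap _ _ (.id B) (topa_t_i j) rfl rfl _ _ rfl rfl _).trans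
    (topa_qmap_id _ (fun _ => rfl) _ _ _)

noncomputable def topa_cat (j : C(B, Z)) (b : B) :
    Cat1 (Pi1 (topa_PP j) (topa_i j b)) (Pi1 B b) where
  s := topa_pi (topa_s j) (topa_s_i j b)
  t := topa_pi (topa_t j) (topa_t_i j b)
  i := topa_pi (topa_i j) rfl
  si x := congrArg topa_ql (topa_s_iq j x.unop)
  ti x := congrArg topa_ql (topa_t_iq j x.unop)
  comm a c ha hc := by
    obtain ⟨α, rfl⟩ := topa_ql_surj a
    obtain ⟨β, rfl⟩ := topa_ql_surj c
    have h1 : (topa_pmap (topa_s j) (topa_s_i j b) (topa_s_i j b) α).Homotopic (Path.refl b) :=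
      Path.Homotopic.Quotient.exact (topa_ql_inj ha)
    have h2 : (topa_pmap (topa_t j) (topa_t_i j b) (topa_t_i j b) β).Homotopic (Path.refl b) :=
      Path.Homotopic.Quotient.exact (topa_ql_inj hc)
    obtain ⟨α', hα, hs, -⟩ := topa_stretch j α _ _ h1 (.refl _)
    obtain ⟨β', hβ, -, ht⟩ := topa_stretch j β _ _ (.refl _) h2
    rw [topa_mk_eq hα, topa_mk_eq hβ, ← topa_ql_trans,
      ← topa_ql_trans, topa_comm j α' β' hs ht]

/-- Paths in `Z` from the image of `b` to the image of `c`. -/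
abbrev topa_Om (j : C(B, Z)) (b c : B) : Type := {γ : C(I, Z) // γ 0 = j b ∧ γ 1 = j c}

def topa_omap {j : C(B, Z)} {j' : C(B, Z')} (g : C(Z, Z')) (hg : ∀ x, g (j x) = j' x) (b c : B) :
    C(topa_Om j b c, topa_Om j' b c) :=
  ⟨fun γ => ⟨g.comp γ.1, (congrArg g γ.2.1).trans (hg b), (congrArg g γ.2.2).trans (hg c)⟩,
    by fun_prop⟩

def topa_pt (j : C(B, Z)) {b c : B} (p : Path b c) : topa_Om j b c :=
  ⟨j.comp p.toContinuousMap, congrArg j p.source, congrArg j p.target⟩

theorem topa_omap_pt {j : C(B, Z)} {j' : C(B, Z')} (g : C(Z, Z')) (hg : ∀ x, g (j x) = j' x)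
    {b c : B} (p : Path b c) : topa_omap g hg b c (topa_pt j p) = topa_pt j' p :=
  Subtype.ext (ContinuousMap.ext fun s => hg (p s))

/-- The action of a map under `B` on classes of fillings. -/
def topa_act {j : C(B, Z)} {j' : C(B, Z')} (g : C(Z, Z')) (hg : ∀ x, g (j x) = j' x)
    {b c : B} {p q : Path b c} (a : topa_HQ (topa_pt j p) (topa_pt j q)) :
    topa_HQ (topa_pt j' p) (topa_pt j' q) :=
  topa_qmap (topa_omap g hg b c) (topa_omap_pt g hg p) (topa_omap_pt g hg q) a

def topa_fmap {j : C(B, Z)} {j' : C(B, Z')} (g : C(Z, Z')) (hg : ∀ x, g (j x) = j' x)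
    {b c : B} {p q : Path b c} (E : Path (topa_pt j p) (topa_pt j q)) :
    Path (topa_pt j' p) (topa_pt j' q) :=
  topa_pmap (topa_omap g hg b c) (topa_omap_pt g hg p) (topa_omap_pt g hg q) E

theorem topa_act_trans {j : C(B, Z)} {j' : C(B, Z')} (g : C(Z, Z')) (hg : ∀ x, g (j x) = j' x)
    {b c : B} {p q r : Path b c} (a : topa_HQ (topa_pt j p) (topa_pt j q))
    (a' : topa_HQ (topa_pt j q) (topa_pt j r)) :
    topa_act g hg (a.trans a') = (topa_act g hg a).trans (topa_act g hg a') :=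
  topa_qmap_trans _ _ _ _ _ _

theorem topa_act_symm {j : C(B, Z)} {j' : C(B, Z')} (g : C(Z, Z')) (hg : ∀ x, g (j x) = j' x)
    {b c : B} {p q : Path b c} (a : topa_HQ (topa_pt j p) (topa_pt j q)) :
    topa_act g hg a.symm = (topa_act g hg a).symm :=
  topa_qmap_symm _ _ _ _

theorem topa_act_act {j : C(B, Z)} {j' : C(B, Z')} {j'' : C(B, Z'')} (g : C(Z, Z'))
    (hg : ∀ x, g (j x) = j' x) (g' : C(Z', Z'')) (hg' : ∀ x, g' (j' x) = j'' x) (k : C(Z, Z''))
    (hk : ∀ x, k (j x) = j'' x) (e : ∀ z, g' (g z) = k z)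
    {b c : B} {p q : Path b c} (a : topa_HQ (topa_pt j p) (topa_pt j q)) :
    topa_act g' hg' (topa_act g hg a) = topa_act k hk a :=
  topa_qmap_qmap _ _ _ (fun _ => Subtype.ext (ContinuousMap.ext fun _ => e _)) _ _ _ _ _ _ _

theorem topa_act_id {j : C(B, Z)} {b c : B} {p q : Path b c}
    (a : topa_HQ (topa_pt j p) (topa_pt j q)) :
    topa_act (j := j) (j' := j) (.id Z) (fun _ => rfl) a = a :=
  topa_qmap_id (topa_omap (j := j) (j' := j) (.id Z) (fun _ => rfl) b c) (fun _ => rfl) _ _ _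

/-- A filling read as a path in the double mapping path space. -/
def topa_toP {j : C(B, Z)} {b c : B} {p q : Path b c} (E : Path (topa_pt j p) (topa_pt j q)) :
    Path (topa_i j b) (topa_i j c) where
  toContinuousMap := topa_mkP j ⟨fun z : I × I => (E z.2).1 z.1, by fun_prop⟩
    p.toContinuousMap q.toContinuousMap (fun s => by change (E 0).1 s = _; rw [E.source]; rfl)
    (fun s => by change (E 1).1 s = _; rw [E.target]; rfl)
  source' := topa_ext p.source q.source (fun v => (E v).2.1)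
  target' := topa_ext p.target q.target (fun v => (E v).2.2)

theorem topa_exists_toP {j : C(B, Z)} {b c : B} (p q : Path b c)
    (D : Path (topa_i j b) (topa_i j c)) (hs : ∀ u, topa_s j (D u) = p u)
    (ht : ∀ u, topa_t j (D u) = q u) : ∃ E : Path (topa_pt j p) (topa_pt j q), topa_toP E = D := by
  let Φ : C(I × I, Z) := ⟨fun z => topa_ev j (D z.2, z.1), by fun_prop⟩
  refine ⟨⟨⟨fun v => ⟨Φ.curry v, ?_, ?_⟩, by fun_prop⟩, ?_, ?_⟩, ?_⟩
  · change topa_ev j (D 0, v) = _
    rw [D.source]; rfl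
  · change topa_ev j (D 1, v) = _
    rw [D.target]; rfl
  · exact Subtype.ext (ContinuousMap.ext fun s => (topa_ev_zero j (D s)).trans (congrArg j (hs s)))
  · exact Subtype.ext (ContinuousMap.ext fun s => (topa_ev_one j (D s)).trans (congrArg j (ht s)))
  · exact Path.ext (funext fun u => topa_ext (hs u).symm (ht u).symm (fun _ => rfl))

noncomputable def topa_brk {j : C(B, Z)} {b c : B} {p q : Path b c}
    (E : Path (topa_pt j p) (topa_pt j q)) : Pi1 (topa_PP j) (topa_i j b) :=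
  topa_ql ((topa_mk (topa_toP E)).trans (topa_qmap (topa_i j) rfl rfl (topa_mk q)).symm)

theorem topa_s_brk {j : C(B, Z)} {b c : B} {p q : Path b c}
    (E : Path (topa_pt j p) (topa_pt j q)) :
    (topa_cat j b).s (topa_brk E) = cl (p.trans q.symm) := by
  change topa_ql (topa_qmap (topa_s j) (topa_s_i j b) (topa_s_i j b) ((topa_mk (topa_toP E)).trans
    (topa_qmap (topa_i j) rfl rfl (topa_mk q)).symm)) = topa_ql ((topa_mk p).trans (topa_mk q).symm)
  rw [topa_qmap_trans _ _ (topa_s_i j c), topa_qmap_symm, topa_s_iq]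
  rfl

theorem topa_t_brk {j : C(B, Z)} {b c : B} {p q : Path b c}
    (E : Path (topa_pt j p) (topa_pt j q)) : (topa_cat j b).t (topa_brk E) = 1 := by
  change topa_ql (topa_qmap (topa_t j) (topa_t_i j b) (topa_t_i j b) ((topa_mk (topa_toP E)).trans
    (topa_qmap (topa_i j) rfl rfl (topa_mk q)).symm)) = topa_ql (.refl b)
  rw [topa_qmap_trans _ _ (topa_t_i j c), topa_qmap_symm, topa_t_iq,
    ← Path.Homotopic.Quotient.trans_symm (topa_mk q)]
  rfl

theorem topa_exists_brk {j : C(B, Z)} {b c : B} (p q : Path b c)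
    (h : Pi1 (topa_PP j) (topa_i j b)) (hs : (topa_cat j b).s h = cl (p.trans q.symm))
    (ht : (topa_cat j b).t h = 1) : ∃ E : Path (topa_pt j p) (topa_pt j q), topa_brk E = h := by
  obtain ⟨α, rfl⟩ := topa_ql_surj h
  have hs' : topa_qmap (topa_s j) (topa_s_i j b) (topa_s_i j b) (topa_mk α) =
      (topa_mk p).trans (topa_mk q).symm := topa_ql_inj hs
  have ht' : topa_qmap (topa_t j) (topa_t_i j b) (topa_t_i j b) (topa_mk α) = .refl b :=
    topa_ql_inj ht
  let α' := α.trans (topa_pmap (topa_i j) rfl rfl q)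
  have e : topa_mk α' = (topa_mk α).trans (topa_qmap (topa_i j) rfl rfl (topa_mk q)) := rfl
  obtain ⟨D, hD, h1, h2⟩ := topa_stretch j α' p q
    (Path.Homotopic.Quotient.exact (by
      change topa_qmap (topa_s j) (topa_s_i j b) (topa_s_i j c) (topa_mk α') = topa_mk p
      rw [e, topa_qmap_trans _ _ (topa_s_i j b), hs', topa_s_iq]
      simp))
    (Path.Homotopic.Quotient.exact (by
      change topa_qmap (topa_t j) (topa_t_i j b) (topa_t_i j c) (topa_mk α') = topa_mk q
      rw [e, topa_qmap_trans _ _ (topa_t_i j b), ht', topa_t_iq]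
      simp))
  obtain ⟨E, rfl⟩ := topa_exists_toP p q D h1 h2
  refine ⟨E, congrArg topa_ql ?_⟩
  rw [← topa_mk_eq hD, e]
  simp

theorem topa_brk_map {j : C(B, Z)} {j' : C(B, Z')} (g : C(Z, Z')) (hg : ∀ x, g (j x) = j' x)
    {b c : B} {p q : Path b c} (E : Path (topa_pt j p) (topa_pt j q)) :
    topa_pi (topa_mapP g hg) (topa_mapP_i g hg b) (topa_brk E) = topa_brk (topa_fmap g hg E) := by
  rw [topa_brk, topa_pi_ql]
  refine congrArg topa_ql ?_
  rw [topa_qmap_trans _ _ (topa_mapP_i g hg c), topa_qmap_symm,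
    topa_qmap_qmap _ _ (topa_i j') (topa_mapP_i g hg) _ _ _ _ rfl rfl]
  rfl

theorem topa_brk_unique {j : C(B, Z)} {b c : B} {p q : Path b c}
    (E E' : Path (topa_pt j p) (topa_pt j q)) (h : topa_brk E = topa_brk E') :
    ∃ (β0 : topa_HQ (topa_pt (.id B) p) (topa_pt (.id B) p))
      (β1 : topa_HQ (topa_pt (.id B) q) (topa_pt (.id B) q)),
      (topa_mk E).trans (topa_act j (fun _ => rfl) β1) =
        (topa_act j (fun _ => rfl) β0).trans (topa_mk E') := by
  obtain ⟨F⟩ := Path.Homotopic.Quotient.exact (topa_cancel _ (topa_ql_inj h))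
  let S : C(I × I, B) := ⟨fun z => topa_s j (F z), by fun_prop⟩
  let T : C(I × I, B) := ⟨fun z => topa_t j (F z), by fun_prop⟩
  let β0 : Path (topa_pt (.id B) p) (topa_pt (.id B) p) :=
    ⟨⟨fun r => ⟨S.curry r, congrArg (topa_s j) (F.source r), congrArg (topa_s j) (F.target r)⟩,
      by fun_prop⟩,
      Subtype.ext (ContinuousMap.ext fun u => congrArg (topa_s j) (F.apply_zero u)),
      Subtype.ext (ContinuousMap.ext fun u => congrArg (topa_s j) (F.apply_one u))⟩
  let β1 : Path (topa_pt (.id B) q) (topa_pt (.id B) q) :=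
    ⟨⟨fun r => ⟨T.curry r, congrArg (topa_t j) (F.source r), congrArg (topa_t j) (F.target r)⟩,
      by fun_prop⟩,
      Subtype.ext (ContinuousMap.ext fun u => congrArg (topa_t j) (F.apply_zero u)),
      Subtype.ext (ContinuousMap.ext fun u => congrArg (topa_t j) (F.apply_one u))⟩
  let Φ : C((I × I) × I, Z) := ⟨fun z => topa_ev j (F (z.1.1, z.2), z.1.2), by fun_prop⟩
  let G : C(I × I, topa_Om j b c) :=
    ⟨fun z => ⟨Φ.curry z, congrArg (fun x => topa_ev j (x, z.2)) (F.source z.1),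
      congrArg (fun x => topa_ev j (x, z.2)) (F.target z.1)⟩, by fun_prop⟩
  refine ⟨topa_mk β0, topa_mk β1, topa_square G E E' (topa_fmap j (fun _ => rfl) β0)
    (topa_fmap j (fun _ => rfl) β1) (fun v => ?_) (fun v => ?_) (fun r => ?_) (fun r => ?_)⟩
  · exact Subtype.ext (ContinuousMap.ext fun u =>
      congrArg (fun x => topa_ev j (x, v)) (F.apply_zero u))
  · exact Subtype.ext (ContinuousMap.ext fun u =>
      congrArg (fun x => topa_ev j (x, v)) (F.apply_one u))
  · exact Subtype.ext (ContinuousMap.ext fun u => topa_ev_zero j _)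
  · exact Subtype.ext (ContinuousMap.ext fun u => topa_ev_one j _)

end fill

section cells
variable {B Z Z' Y : Type} [TopologicalSpace B] [TopologicalSpace Z] [TopologicalSpace Z']
  [TopologicalSpace Y] {ι ι' : Type} {b : B}

def topa_fl (C : CellStr B Z ι b) (i : ι) : Path (topa_pt C.j (C.p i)) (topa_pt C.j (C.q i)) where
  toContinuousMap := ⟨fun t => ⟨(C.m i).curry t, C.ml i t, C.mr i t⟩, by fun_prop⟩
  source' := Subtype.ext (ContinuousMap.ext fun s => C.m0 i s)
  target' := Subtype.ext (ContinuousMap.ext fun s => C.m1 i s)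

theorem topa_glue_fl (C : CellStr B Z ι b) (f : C(B, Y))
    (E : ∀ i, Path (topa_pt f (C.p i)) (topa_pt f (C.q i))) :
    ∃ (g : C(Z, Y)) (hg : ∀ x, g (C.j x) = f x), ∀ i, topa_fmap g hg (topa_fl C i) = E i := by
  obtain ⟨g, hg, hm⟩ := C.glue Y f (fun i => ⟨fun z => (E i z.1).1 z.2, by fun_prop⟩)
    (fun i s => by change (E i 0).1 s = _; rw [(E i).source]; rfl)
    (fun i s => by change (E i 1).1 s = _; rw [(E i).target]; rfl)
    (fun i t => (E i t).2.1) (fun i t => (E i t).2.2)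
  exact ⟨g, hg, fun i => Path.ext (funext fun t => Subtype.ext (ContinuousMap.ext fun s =>
    hm i (t, s)))⟩

theorem topa_homotopic_of_act (C : CellStr B Z ι b) (f : C(B, Y)) (g g' : C(Z, Y))
    (hg : ∀ x, g (C.j x) = f x) (hg' : ∀ x, g' (C.j x) = f x)
    (h : ∀ i, topa_act g hg (topa_mk (topa_fl C i)) = topa_act g' hg' (topa_mk (topa_fl C i))) :
    g.Homotopic g' := by
  have h' : ∀ i, (topa_fmap g hg (topa_fl C i)).Homotopic (topa_fmap g' hg' (topa_fl C i)) :=
    fun i => Path.Homotopic.Quotient.exact (h i)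
  have F := fun i => (h' i).some
  let Ψ : ι → C((I × I) × I, Y) := fun i => ⟨fun z => (F i (z.2, z.1.1)).1 z.1.2, by fun_prop⟩
  obtain ⟨G, hG, hm⟩ := C.glue C(I, Y) (f.comp ContinuousMap.fst).curry (fun i => (Ψ i).curry)
    (fun i s => ContinuousMap.ext fun r => by
      change (F i (r, 0)).1 s = _; rw [(F i).source]; rfl)
    (fun i s => ContinuousMap.ext fun r => by
      change (F i (r, 1)).1 s = _; rw [(F i).target]; rfl)
    (fun i t => ContinuousMap.ext fun r => (F i (r, t)).2.1)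
    (fun i t => ContinuousMap.ext fun r => (F i (r, t)).2.2)
  refine ⟨⟨⟨fun z => G z.2 z.1, by fun_prop⟩, fun z => ?_, fun z => ?_⟩⟩
  · change G z 0 = g z
    rcases C.surj z with ⟨x, rfl⟩ | ⟨i, y, rfl⟩
    · rw [hG, hg]; rfl
    · rw [hm]
      change (F i (0, y.1)).1 y.2 = _
      rw [(F i).apply_zero]; rfl
  · change G z 1 = g' z
    rcases C.surj z with ⟨x, rfl⟩ | ⟨i, y, rfl⟩
    · rw [hG, hg']; rfl
    · rw [hm]
      change (F i (1, y.1)).1 y.2 = _
      rw [(F i).apply_one]; rfl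

theorem topa_self_equiv (C : CellStr B Z ι b) (φ : C(Z, Z)) (hφ : ∀ x, φ (C.j x) = C.j x)
    (h : ∀ i, topa_brk (topa_fmap φ hφ (topa_fl C i)) = topa_brk (topa_fl C i)) :
    ∃ χ : C(Z, Z), (χ.comp φ).Homotopic (.id Z) ∧ (φ.comp χ).Homotopic (.id Z) := by
  choose β0 β1 hβ using fun i => topa_brk_unique _ _ (h i)
  have hβ' : ∀ i, topa_act φ hφ (topa_mk (topa_fl C i)) =
      (topa_act C.j (fun _ => rfl) (β0 i)).trans ((topa_mk (topa_fl C i)).trans
        (topa_act C.j (fun _ => rfl) (β1 i)).symm) := fun i => by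
    rw [← Path.Homotopic.Quotient.trans_assoc, ← hβ i]
    simp
    rfl
  choose E hE using fun i => Path.Homotopic.Quotient.mk_surjective
    ((topa_act C.j (fun _ => rfl) (β0 i)).symm.trans ((topa_mk (topa_fl C i)).trans
      (topa_act C.j (fun _ => rfl) (β1 i))))
  obtain ⟨χ, hχ, hm⟩ := topa_glue_fl C C.j E
  have hm' : ∀ i, topa_act χ hχ (topa_mk (topa_fl C i)) =
      (topa_act C.j (fun _ => rfl) (β0 i)).symm.trans ((topa_mk (topa_fl C i)).trans
        (topa_act C.j (fun _ => rfl) (β1 i))) := fun i => by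
    rw [← hE i, ← hm i]; rfl
  refine ⟨χ, topa_homotopic_of_act C C.j _ _ (fun x => (congrArg χ (hφ x)).trans (hχ x))
    (fun _ => rfl) (fun i => ?_), topa_homotopic_of_act C C.j _ _
    (fun x => (congrArg φ (hχ x)).trans (hφ x)) (fun _ => rfl) (fun i => ?_)⟩
  · rw [topa_act_id, ← topa_act_act φ hφ χ hχ _ _ (fun _ => rfl), hβ', topa_act_trans,
      topa_act_trans, topa_act_symm, hm', topa_act_act _ _ χ hχ C.j (fun _ => rfl) hχ,
      topa_act_act _ _ χ hχ C.j (fun _ => rfl) hχ]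
    simp [topa_ts]
  · rw [topa_act_id, ← topa_act_act χ hχ φ hφ _ _ (fun _ => rfl), hm', topa_act_trans,
      topa_act_trans, topa_act_symm, hβ', topa_act_act _ _ φ hφ C.j (fun _ => rfl) hφ,
      topa_act_act _ _ φ hφ C.j (fun _ => rfl) hφ]
    simp [topa_st]

theorem topa_cev_map {F H H' P κ : Type} [Group F] [Group H] [Group H'] [Group P] (i : P →* H)
    (i' : P →* H') (φ : H →* H') (hφ : ∀ x, φ (i x) = i' x) (θ : F →* P) (l : κ → H)
    (l' : κ → H') (hl : ∀ k, φ (l k) = l' k) (W : FreeGroup (F × κ)) :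
    φ (cev i θ l W) = cev i' θ l' W := by
  have : φ.comp (cev i θ l) = cev i' θ l' := by
    refine FreeGroup.ext_hom _ _ (fun x => ?_)
    simp [cev, hφ, hl]
  exact DFunLike.congr_fun this W

theorem topa_pi_i {j : C(B, Z)} {j' : C(B, Z')} (g : C(Z, Z')) (hg : ∀ x, g (j x) = j' x)
    (x : Pi1 B b) : topa_pi (topa_mapP g hg) (topa_mapP_i g hg b) ((topa_cat j b).i x) =
      (topa_cat j' b).i x :=
  congrArg topa_ql (topa_qmap_qmap _ _ (topa_i j') (topa_mapP_i g hg) rfl rfl (topa_mapP_i g hg b)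
    (topa_mapP_i g hg b) rfl rfl x.unop)

theorem topa_exists_map {F : Type} [Group F] (C : CellStr B Z ι b) (C' : CellStr B Z' ι' b)
    {R : ι → F} {w : ι' → F} {W : ι' → FreeGroup (F × ι)} {W' : ι → FreeGroup (F × ι')}
    (h : HalfEq R w W W') (θ : F →* Pi1 B b)
    (hR : ∀ i, θ (R i) = cl ((C.p i).trans (C.q i).symm))
    (hw : ∀ i, θ (w i) = cl ((C'.p i).trans (C'.q i).symm)) :
    ∃ (f : C(Z, Z')) (hf : ∀ x, f (C.j x) = C'.j x), ∀ i, topa_brk (topa_fmap f hf (topa_fl C i)) =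
      cev (topa_cat C'.j b).i θ (fun k => topa_brk (topa_fl C' k)) (W' i) := by
  have h1 := (h _ _ (topa_cat C'.j b) θ (fun k => topa_brk (topa_fl C' k))
    (fun k => topa_t_brk _) (fun k => (topa_s_brk _).trans (hw k).symm)).1
  have h2 : ∀ i, (topa_cat C'.j b).t
      (cev (topa_cat C'.j b).i θ (fun k => topa_brk (topa_fl C' k)) (W' i)) = 1 := fun i => by
    rw [topa_cev_map _ (MonoidHom.id _) _ (topa_cat C'.j b).ti θ _ (fun _ => 1)
      (fun k => topa_t_brk _)]
    have : cev (MonoidHom.id (Pi1 B b)) θ (fun _ : ι' => 1) = 1 :=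
      FreeGroup.ext_hom _ _ (fun x => by simp [cev])
    rw [this]; rfl
  choose E hE using fun i => topa_exists_brk (C.p i) (C.q i) _ ((h1 i).trans (hR i)) (h2 i)
  obtain ⟨f, hf, hm⟩ := topa_glue_fl C C'.j E
  exact ⟨f, hf, fun i => by rw [hm, hE]⟩

theorem topa_comp_brk {F : Type} [Group F] (C : CellStr B Z ι b) (C' : CellStr B Z' ι' b)
    {R : ι → F} {w : ι' → F} {W : ι' → FreeGroup (F × ι)} {W' : ι → FreeGroup (F × ι')}
    (h : HalfEq R w W W') (θ : F →* Pi1 B b)
    (hw : ∀ i, θ (w i) = cl ((C'.p i).trans (C'.q i).symm))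
    (f : C(Z, Z')) (hf : ∀ x, f (C.j x) = C'.j x) (g : C(Z', Z)) (hg : ∀ x, g (C'.j x) = C.j x)
    (h1 : ∀ i, topa_brk (topa_fmap f hf (topa_fl C i)) =
      cev (topa_cat C'.j b).i θ (fun k => topa_brk (topa_fl C' k)) (W' i))
    (h2 : ∀ i, topa_brk (topa_fmap g hg (topa_fl C' i)) =
      cev (topa_cat C.j b).i θ (fun k => topa_brk (topa_fl C k)) (W i)) :
    ∃ χ : C(Z', Z'), (χ.comp (f.comp g)).Homotopic (.id Z') ∧
      ((f.comp g).comp χ).Homotopic (.id Z') := by
  refine topa_self_equiv C' (f.comp g) (fun x => (congrArg f (hg x)).trans (hf x)) (fun i => ?_)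
  have h3 := (h _ _ (topa_cat C'.j b) θ (fun k => topa_brk (topa_fl C' k))
    (fun k => topa_t_brk _) (fun k => (topa_s_brk _).trans (hw k).symm)).2 i
  rw [← h3, ← topa_cev_map _ _ _ (topa_pi_i f hf) θ _ _
    (fun k => (topa_brk_map f hf (topa_fl C k)).trans (h1 k)), ← h2, topa_brk_map]
  rfl

end cells

theorem cell_equiv {B Z Z' : Type} [TopologicalSpace B] [TopologicalSpace Z] [TopologicalSpace Z']
    {ι ι' F : Type} [Group F] {b : B} (C : CellStr B Z ι b) (C' : CellStr B Z' ι' b)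
    (R : ι → F) (w : ι' → F) (h : CrossedEq R w) (θ : F →* Pi1 B b)
    (hR : ∀ i, θ (R i) = cl ((C.p i).trans (C.q i).symm))
    (hw : ∀ i, θ (w i) = cl ((C'.p i).trans (C'.q i).symm)) :
    Nonempty (ContinuousMap.HomotopyEquiv Z Z') := by
  obtain ⟨W, W', h1, h2⟩ := h
  obtain ⟨f, hf, e1⟩ := topa_exists_map C C' h1 θ hR hw
  obtain ⟨g, hg, e2⟩ := topa_exists_map C' C h2 θ hw hR
  obtain ⟨χ', k1, -⟩ := topa_comp_brk C C' h1 θ hw f hf g hg e1 e2
  obtain ⟨χ, -, k2⟩ := topa_comp_brk C' C h2 θ hR g hg f hf e2 e1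
  refine ⟨⟨f.comp χ, g, k2, ?_⟩⟩
  have a1 : ((χ'.comp (f.comp g)).comp ((f.comp χ).comp g)).Homotopic ((f.comp χ).comp g) :=
    k1.comp (.refl ((f.comp χ).comp g))
  have a2 : ((χ'.comp f).comp (((g.comp f).comp χ).comp g)).Homotopic ((χ'.comp f).comp g) :=
    (ContinuousMap.Homotopic.refl (χ'.comp f)).comp (k2.comp (.refl g))
  exact a1.symm.trans (a2.trans k1)

end MP35
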