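import Mathlib

/-! Z/2-graded based complexes given by one square matrix, and their torsion modulo squares. -/

namespace MP35

open Matrix

/-- Coefficient rings in which `2` and `-1` are squares of units. -/
class Nice (T : Type) [CommRing T] : Prop extends Nontrivial T where
  two : ∃ u : Tˣ, (2 : T) = (u : T) ^ 2
  neg : ∃ u : Tˣ, (-1 : T) = (u : T) ^ 2

section
variable {A : Type} [Ring A] {I : Type} [Fintype I] [DecidableEq I]

def IsOdd (p : I → Bool) (m : Matrix I I A) : Prop := ∀ i j, p i = p j → m i j = 0

def IsEven (p : I → Bool) (m : Matrix I I A) : Prop := ∀ i j, p i ≠ p j → m i j = 0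

structure IsCx (p : I → Bool) (d : Matrix I I A) : Prop where
  odd : IsOdd p d
  sq : d * d = 0

def Contr (p : I → Bool) (d : Matrix I I A) : Prop :=
  ∃ Γ : Matrix I I A, IsOdd p Γ ∧ d * Γ + Γ * d = 1

end

/-- Units modulo squares. -/
abbrev SqCl (T : Type) [CommRing T] := Tˣ ⧸ (powMonoidHom 2 : Tˣ →* Tˣ).range

section
variable {T : Type} [CommRing T] {I : Type} [Fintype I] [DecidableEq I]

open Classical in
noncomputable def cls (a : T) : SqCl T := if h : IsUnit a then QuotientGroup.mk h.unit else 1

/-- The odd-to-even block of `m`, made square by `e`. -/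
def torMat (p : I → Bool) (m : Matrix I I T) (e : {i // p i = true} ≃ {i // p i = false}) :
    Matrix {i // p i = true} {i // p i = true} T :=
  m.submatrix Subtype.val fun j => (e j).1

open Classical in
/-- The torsion of a contractible complex, modulo squares. -/
noncomputable def tor (p : I → Bool) (d : Matrix I I T) : SqCl T :=
  if h : ∃ x : Matrix I I T × ({i // p i = true} ≃ {i // p i = false}),
      IsOdd p x.1 ∧ d * x.1 + x.1 * d = 1 ∧ x.1 * x.1 = 0 then
    cls (torMat p (d + h.choose.1) h.choose.2).det
  else 1

structure TrivT (p : I → Bool) (d : Matrix I I T) : Prop where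
  cx : IsCx p d
  con : Contr p d
  tor : tor p d = 1

end

section
variable {A : Type} [Ring A] {T : Type} [CommRing T] {n : Type} [Fintype n] [DecidableEq n]

/-- Replace every entry by its matrix under `ρ`. -/
def flat (ρ : A →+* Matrix n n T) {I J : Type} (d : Matrix I J A) : Matrix (I × n) (J × n) T :=
  Matrix.comp I J n n T (d.map ρ)

theorem flat_apply (ρ : A →+* Matrix n n T) {I J : Type} (d : Matrix I J A) (x : I × n)
    (y : J × n) : flat ρ d x y = ρ (d x.1 y.1) x.2 y.2 := rfl

/-- The parity on the flattened index set. -/
def fp (n : Type) {I : Type} (p : I → Bool) : I × n → Bool := fun x => p x.1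

variable {I : Type} [Fintype I] [DecidableEq I]

noncomputable def ftor (ρ : A →+* Matrix n n T) (p : I → Bool) (d : Matrix I I A) : SqCl T :=
  tor (fp n p) (flat ρ d)

structure Triv (ρ : A →+* Matrix n n T) (p : I → Bool) (d : Matrix I I A) : Prop where
  cx : IsCx p d
  con : Contr p d
  tor : ftor ρ p d = 1

end

end MP35
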