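import Pool.Agent.Lib.MP_35c604_gt.Basic

/-! TASK XT: local structure of the coned derived neighbourhood. -/

open Finset

namespace MP35
namespace SC

variable {V : Type} [DecidableEq V] {M : SC V} {U : V → Prop}

/-- The rank of a vertex. -/
def xt_rk : Option (Finset V) → ℕ
  | none => 1
  | some τ => τ.card

/-- The possible bottom vertices below the edge `e`. -/
def xt_Bot (U : V → Prop) (x : Option (Finset V)) (e : Finset V) : Prop :=
  (∃ u ∈ e, U u ∧ x = some {u}) ∨ (x = none ∧ (∃ u ∈ e, U u) ∧ ∃ w ∈ e, ¬ U w)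

/-- A complete flag. -/
structure xt_Fl (M : SC V) (U : V → Prop) (x : Option (Finset V)) (e f t : Finset V) : Prop where
  bot : xt_Bot U x e
  ef : e ⊆ f
  ft : f ⊆ t
  mem : t ∈ M.faces
  ce : e.card = 2
  cf : f.card = 3
  ct : t.card = 4

/-- The simplex of a flag. -/
def xt_fl (x : Option (Finset V)) (e f t : Finset V) : Finset (Option (Finset V)) :=
  {x, some e, some f, some t}

variable {x x' : Option (Finset V)} {e e' f f' t t' : Finset V} {s : Finset (Option (Finset V))}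

omit [DecidableEq V] in
theorem xt_Bot.rk (h : xt_Bot U x e) : xt_rk x = 1 := by
  rcases h with ⟨u, -, -, rfl⟩ | ⟨rfl, -⟩ <;> rfl

omit [DecidableEq V] in
theorem xt_Bot.meet (h : xt_Bot U x e) : ∃ u ∈ e, U u :=
  h.elim (fun ⟨u, h1, h2, _⟩ => ⟨u, h1, h2⟩) fun h => h.2.1

omit [DecidableEq V] in
theorem xt_Bot.at {u : V} (h : xt_Bot U (some {u}) e) : u ∈ e ∧ U u := by
  rcases h with ⟨v, h1, h2, h3⟩ | ⟨h, -⟩
  · rw [singleton_injective (Option.some.inj h3)]; exact ⟨h1, h2⟩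
  · cases h

theorem xt_mem_fl {y : Option (Finset V)} :
    y ∈ xt_fl x e f t ↔ y = x ∨ y = some e ∨ y = some f ∨ y = some t := by
  simp [xt_fl]

theorem xt_Fl.at1 (h : xt_Fl M U x e f t) {y} (hy : y ∈ xt_fl x e f t) (r : xt_rk y = 1) :
    y = x := by
  rcases xt_mem_fl.1 hy with rfl | rfl | rfl | rfl <;> simp_all [xt_rk, h.ce, h.cf, h.ct]

theorem xt_Fl.at2 (h : xt_Fl M U x e f t) {y} (hy : y ∈ xt_fl x e f t) (r : xt_rk y = 2) :
    y = some e := by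
  have := h.bot.rk
  rcases xt_mem_fl.1 hy with rfl | rfl | rfl | rfl <;> simp_all [xt_rk, h.cf, h.ct]

theorem xt_Fl.at3 (h : xt_Fl M U x e f t) {y} (hy : y ∈ xt_fl x e f t) (r : xt_rk y = 3) :
    y = some f := by
  have := h.bot.rk
  rcases xt_mem_fl.1 hy with rfl | rfl | rfl | rfl <;> simp_all [xt_rk, h.ce, h.ct]

theorem xt_Fl.at4 (h : xt_Fl M U x e f t) {y} (hy : y ∈ xt_fl x e f t) (r : xt_rk y = 4) :
    y = some t := by
  have := h.bot.rk
  rcases xt_mem_fl.1 hy with rfl | rfl | rfl | rfl <;> simp_all [xt_rk, h.ce, h.cf]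

theorem xt_Fl.img (h : xt_Fl M U x e f t) : (xt_fl x e f t).image xt_rk = {1, 2, 3, 4} := by
  rw [xt_fl, image_insert, image_insert, image_insert, image_singleton, h.bot.rk]
  simp only [xt_rk, h.ce, h.cf, h.ct]

theorem xt_Fl.card (h : xt_Fl M U x e f t) : (xt_fl x e f t).card = 4 :=
  le_antisymm card_le_four (by simpa [h.img] using card_image_le (s := xt_fl x e f t) (f := xt_rk))

theorem xt_Fl.face (h : xt_Fl M U x e f t) : xt_fl x e f t ∈ (XC M U).faces := by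
  obtain ⟨u, hu, hU⟩ := h.bot.meet
  have et := h.ef.trans h.ft
  have k : ∀ τ ⊆ t, ∀ v ∈ τ, U v → τ ∈ M.faces ∧ ∃ v ∈ τ, U v := fun τ h1 v h2 h3 =>
    ⟨M.down t h.mem τ h1 ⟨v, h2⟩, v, h2, h3⟩
  have ef := h.ef
  have ft := h.ft
  rw [mem_XC]
  rcases h.bot with ⟨v, hv, hv', rfl⟩ | ⟨rfl, -, w, hw, hw'⟩
  · have ve := singleton_subset_iff.2 hv
    have vf := ve.trans ef
    have vt := ve.trans et
    refine ⟨⟨_, xt_mem_fl.2 (.inl rfl)⟩, fun τ hτ => ?_, fun τ τ' h1 h2 => ?_, fun h => ?_⟩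
    · simp only [xt_mem_fl, Option.some.injEq] at hτ
      rcases hτ with rfl | rfl | rfl | rfl
      exacts [k _ vt v (mem_singleton_self v) hv', k _ et v hv hv', k _ ft v (ef hv) hv',
        k _ subset_rfl v (et hv) hv']
    · simp only [xt_mem_fl, Option.some.injEq] at h1 h2
      rcases h1 with rfl | rfl | rfl | rfl <;> rcases h2 with rfl | rfl | rfl | rfl <;>
        first | exact .inl subset_rfl | exact .inl ‹_› | exact .inr ‹_›
    · simp [xt_mem_fl] at h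
  · refine ⟨⟨_, xt_mem_fl.2 (.inl rfl)⟩, fun τ hτ => ?_, fun τ τ' h1 h2 => ?_, fun _ =>
      ⟨⟨t, h.mem, ⟨u, et hu, hU⟩, w, et hw, hw'⟩, fun τ hτ => ?_⟩⟩
    · simp only [xt_mem_fl, Option.some.injEq, reduceCtorEq, false_or] at hτ
      rcases hτ with rfl | rfl | rfl
      exacts [k _ et u hu hU, k _ ft u (ef hu) hU, k _ subset_rfl u (et hu) hU]
    · simp only [xt_mem_fl, Option.some.injEq, reduceCtorEq, false_or] at h1 h2
      rcases h1 with rfl | rfl | rfl <;> rcases h2 with rfl | rfl | rfl <;>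
        first | exact .inl subset_rfl | exact .inl ‹_› | exact .inr ‹_›
    · simp only [xt_mem_fl, Option.some.injEq, reduceCtorEq, false_or] at hτ
      rcases hτ with rfl | rfl | rfl
      exacts [⟨w, hw, hw'⟩, ⟨w, ef hw, hw'⟩, ⟨w, et hw, hw'⟩]

omit [DecidableEq V] in
theorem xt_sub {a b : Finset V} (h : a ⊆ b ∨ b ⊆ a) (hc : a.card ≤ b.card) : a ⊆ b :=
  h.elim id fun h => (eq_of_subset_of_card_le h hc).ge

omit [DecidableEq V] in
theorem xt_fill (C : Finset (Finset V)) (hC : ∀ a ∈ C, ∀ b ∈ C, a ⊆ b ∨ b ⊆ a) (k : ℕ)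
    {p t : Finset V} (hp : p ∈ C) (ht : t ∈ C) (h1 : p.card ≤ k) (h2 : k ≤ t.card) :
    ∃ g : Finset V, g.card = k ∧ ∀ a ∈ C, a ⊆ g ∨ g ⊆ a := by
  obtain ⟨lo, l1, l2⟩ := exists_max_image (C.filter fun a => a.card ≤ k) card
    ⟨p, mem_filter.2 ⟨hp, h1⟩⟩
  obtain ⟨hi, u1, u2⟩ := exists_min_image (C.filter fun a => k ≤ a.card) card
    ⟨t, mem_filter.2 ⟨ht, h2⟩⟩
  rw [mem_filter] at l1 u1
  obtain ⟨g, g1, g2, g3⟩ := exists_subsuperset_card_eq
    (xt_sub (hC _ l1.1 _ u1.1) (l1.2.trans u1.2)) l1.2 u1.2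
  refine ⟨g, g3, fun a ha => (le_total a.card k).imp (fun h => ?_) fun h => ?_⟩
  · exact (xt_sub (hC _ ha _ l1.1) (l2 _ (mem_filter.2 ⟨ha, h⟩))).trans g1
  · exact g2.trans (xt_sub (hC _ u1.1 _ ha) (u2 _ (mem_filter.2 ⟨ha, h⟩)))

theorem xt_ext (h : Loc M U) (hs : s ∈ (XC M U).faces) :
    ∃ x e f t, xt_Fl M U x e f t ∧ s ⊆ xt_fl x e f t := by
  obtain ⟨h0, h1, h2, h3⟩ := mem_XC.1 hs
  have mC : ∀ τ, τ ∈ s.eraseNone ↔ some τ ∈ s := fun τ => mem_eraseNone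
  obtain ⟨m, t, m1, m2, m3, t1, t2, k⟩ : ∃ m t, m ⊆ t ∧ (∃ v ∈ m, U v) ∧
      (none ∈ s → ∃ v ∈ m, ¬ U v) ∧ t ∈ M.faces ∧ t.card = 4 ∧
      ∀ τ, some τ ∈ s → m ⊆ τ ∧ τ ⊆ t := by
    rcases s.eraseNone.eq_empty_or_nonempty with h4 | h4
    · have : none ∈ s := by
        obtain ⟨_ | τ, hy⟩ := h0
        · exact hy
        · simpa [h4] using (mC τ).2 hy
      obtain ⟨τ, a1, a2, a3⟩ := (h3 this).1
      obtain ⟨t, b1, b2, b3⟩ := h.pure.2 τ a1
      exact ⟨τ, t, b2, a2, fun _ => a3, b1, b3, fun σ hσ => by simpa [h4] using (mC σ).2 hσ⟩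
    · obtain ⟨lo, l1, l2⟩ := exists_min_image _ card h4
      obtain ⟨hi, u1, u2⟩ := exists_max_image _ card h4
      simp only [mC] at l1 l2 u1 u2
      obtain ⟨t, b1, b2, b3⟩ := h.pure.2 hi (h1 _ u1).1
      have k : ∀ τ, some τ ∈ s → lo ⊆ τ ∧ τ ⊆ t := fun τ hτ =>
        ⟨xt_sub (h2 _ _ l1 hτ) (l2 _ hτ), (xt_sub (h2 _ _ hτ u1) (u2 _ hτ)).trans b2⟩
      exact ⟨lo, t, (k _ l1).2, (h1 _ l1).2, fun hn => (h3 hn).2 _ l1, b1, b3, k⟩
  obtain ⟨u, hu, hU⟩ := m2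
  obtain ⟨p, x, p1, p2, p3, p4, p5⟩ : ∃ p x, p ⊆ m ∧ p.card ≤ 2 ∧ (∀ e, p ⊆ e → xt_Bot U x e) ∧
      (none ∈ s → x = none) ∧ ∀ τ, p ⊆ τ → τ.card ≤ 1 → some τ = x := by
    by_cases hn : none ∈ s
    · obtain ⟨w, hw, hw'⟩ := m3 hn
      have uw : u ≠ w := fun h => hw' (h ▸ hU)
      refine ⟨{u, w}, none, by simp [insert_subset_iff, hu, hw], card_le_two,
        fun e he => .inr ⟨rfl, ⟨u, he (by simp), hU⟩, w, he (by simp), hw'⟩, fun _ => rfl,
        fun τ a b => ?_⟩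
      have := (card_le_card a).trans b
      rw [card_pair uw] at this
      omega
    · exact ⟨{u}, some {u}, by simpa, by simp, fun e he => .inl ⟨u, he (by simp), hU, rfl⟩,
        fun h => (hn h).elim, fun τ a b => by rw [eq_of_subset_of_card_le a (by simpa)]⟩
  let C := insert p (insert t s.eraseNone)
  have bC : ∀ a ∈ C, p ⊆ a ∧ a ⊆ t := fun a ha => by
    simp only [C, mem_insert, mC] at ha
    rcases ha with rfl | rfl | ha
    exacts [⟨subset_rfl, p1.trans m1⟩, ⟨p1.trans m1, subset_rfl⟩, ⟨p1.trans (k _ ha).1, (k _ ha).2⟩]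
  have hC : ∀ a ∈ C, ∀ b ∈ C, a ⊆ b ∨ b ⊆ a := fun a ha b hb => by
    have a1 := bC a ha
    have b1 := bC b hb
    simp only [C, mem_insert, mC] at ha hb
    rcases ha with rfl | rfl | ha
    · exact .inl b1.1
    · exact .inr b1.2
    rcases hb with rfl | rfl | hb
    exacts [.inr a1.1, .inl a1.2, h2 _ _ ha hb]
  have pC : p ∈ C := mem_insert_self _ _
  have tC : t ∈ C := mem_insert_of_mem (mem_insert_self _ _)
  obtain ⟨f, f1, f2⟩ := xt_fill C hC 3 pC tC (by omega) (by omega)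
  obtain ⟨e, e1, e2⟩ := xt_fill (insert f C) (fun a ha b hb => by
    rw [mem_insert] at ha hb
    rcases ha with rfl | ha <;> rcases hb with rfl | hb
    exacts [.inl subset_rfl, (f2 _ hb).symm, f2 _ ha, hC _ ha _ hb]) 2 (mem_insert_of_mem pC)
    (mem_insert_of_mem tC) p2 (by omega)
  refine ⟨x, e, f, t, ⟨p3 _ (xt_sub (e2 _ (mem_insert_of_mem pC)) (by omega)),
    xt_sub (e2 _ (mem_insert_self _ _)).symm (by omega), xt_sub (f2 _ tC).symm (by omega), t1, e1,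
    f1, t2⟩, fun y hy => xt_mem_fl.2 ?_⟩
  rcases y with _ | τ
  · exact .inl (p4 hy).symm
  have τC : τ ∈ C := mem_insert_of_mem (mem_insert_of_mem ((mC τ).2 hy))
  have c4 := card_le_card (bC τ τC).2
  have eq : ∀ a b : Finset V, a ⊆ b ∨ b ⊆ a → a.card = b.card → some a = some b := fun a b h c =>
    congrArg some (eq_of_subset_of_card_le (xt_sub h c.le) c.ge)
  rcases (by omega : τ.card ≤ 1 ∨ τ.card = 2 ∨ τ.card = 3 ∨ τ.card = 4) with c | c | c | c
  · exact .inl (p5 τ (bC τ τC).1 c)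
  · exact .inr (.inl (eq _ _ (e2 _ (mem_insert_of_mem τC)) (by omega)))
  · exact .inr (.inr (.inl (eq _ _ (f2 _ τC) (by omega))))
  · exact .inr (.inr (.inr (eq _ _ (.inl (bC τ τC).2) (by omega))))

theorem xt_tet (h : Loc M U) (hs : s ∈ (XC M U).faces) (hc : s.card = 4) :
    ∃ x e f t, xt_Fl M U x e f t ∧ s = xt_fl x e f t := by
  obtain ⟨x, e, f, t, h1, h2⟩ := xt_ext h hs
  exact ⟨x, e, f, t, h1, eq_of_subset_of_card_le h2 (by rw [h1.card, hc])⟩

theorem XC_pure (h : Loc M U) : (XC M U).Pure3 := by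
  refine ⟨fun s hs => ?_, fun s hs => ?_⟩ <;> obtain ⟨x, e, f, t, h1, h2⟩ := xt_ext h hs
  · exact (card_le_card h2).trans h1.card.le
  · exact ⟨_, h1.face, h2, h1.card⟩

/-- Exactly two solutions. -/
def xt_Two {α : Type} (P : α → Prop) : Prop := ∃ a b, a ≠ b ∧ ∀ c, P c ↔ c = a ∨ c = b

theorem xt_deg {W : Type} [DecidableEq W] {K : SC W} {a : Finset W} :
    K.deg a = 2 ↔ xt_Two fun b => b ∈ K.faces ∧ a ⊆ b ∧ b.card = a.card + 1 := by
  simp only [deg, card_eq_two, xt_Two, Finset.ext_iff (s₂ := {_, _}), mem_filter, mem_insert,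
    mem_singleton]

theorem xt_Two.map {α β : Type} {P : α → Prop} {Q : β → Prop} (h : xt_Two P) (g : α → β)
    (hg : ∀ a b, P a → P b → g a = g b → a = b) (hQ : ∀ c, Q c ↔ ∃ a, P a ∧ c = g a) :
    xt_Two Q := by
  obtain ⟨a, b, h1, h2⟩ := h
  refine ⟨g a, g b, fun h => h1 (hg a b ((h2 a).2 (.inl rfl)) ((h2 b).2 (.inr rfl)) h),
    fun c => ?_⟩
  simp only [hQ, h2, or_and_right, exists_or, exists_eq_left]

theorem xt_between {a b : Finset V} (h : a ⊆ b) (hc : b.card = a.card + 2) :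
    xt_Two fun g => a ⊆ g ∧ g ⊆ b ∧ g.card = a.card + 1 := by
  have : xt_Two fun v => v ∈ b \ a := by
    obtain ⟨c, d, h1, h2⟩ := card_eq_two.1 (show (b \ a).card = 2 by rw [card_sdiff_of_subset h]; omega)
    exact ⟨c, d, h1, fun v => by simp [h2]⟩
  refine this.map (fun v => insert v a) (fun v w hv hw e => ?_) fun g => ⟨fun ⟨h1, h2, h3⟩ => ?_, ?_⟩
  · exact (mem_insert.1 (e ▸ mem_insert_self v a : v ∈ insert w a)).resolve_right (mem_sdiff.1 hv).2
  · obtain ⟨v, hv, rfl⟩ := exists_eq_insert_iff.2 ⟨h1, h3.symm⟩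
    exact ⟨v, mem_sdiff.2 ⟨h2 (mem_insert_self _ _), hv⟩, rfl⟩
  · rintro ⟨v, hv, rfl⟩
    rw [mem_sdiff] at hv
    exact ⟨subset_insert _ _, insert_subset hv.1 h, card_insert_of_notMem hv.2⟩

theorem xt_two_bot (hc : e.card = 2) (hu : ∃ u ∈ e, U u) : xt_Two fun x => xt_Bot U x e := by
  obtain ⟨u, hu, hU⟩ := hu
  obtain ⟨w, hw, rfl⟩ : ∃ w, w ≠ u ∧ e = {u, w} := by
    obtain ⟨a, b, h1, rfl⟩ := card_eq_two.1 hc
    rcases mem_insert.1 hu with rfl | hu
    · exact ⟨b, h1.symm, rfl⟩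
    · rw [mem_singleton.1 hu]; exact ⟨a, h1, pair_comm _ _⟩
  by_cases h : U w
  · exact ⟨some {u}, some {w}, by simpa using hw.symm, fun c => by simp [xt_Bot, h, hU]⟩
  · exact ⟨some {u}, none, by simp, fun c => by simp [xt_Bot, h, hU]⟩

theorem xt_two_edge (hb : xt_Bot U x e) (ef : e ⊆ f) (cf : f.card = 3) :
    xt_Two fun g => xt_Bot U x g ∧ g ⊆ f ∧ g.card = 2 := by
  classical
  have key : ∀ v ∈ f, (∀ g ⊆ f, g.card = 2 → (xt_Bot U x g ↔ v ∈ g)) →
      xt_Two fun g => xt_Bot U x g ∧ g ⊆ f ∧ g.card = 2 := fun v hv h =>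
    (xt_between (singleton_subset_iff.2 hv) (by simpa)).map id (fun _ _ _ _ => id) fun g => by
      simp only [singleton_subset_iff, card_singleton, id, exists_eq_right']
      exact ⟨fun ⟨a, b, c⟩ => ⟨(h g b c).1 a, b, c⟩, fun ⟨a, b, c⟩ => ⟨(h g b c).2 a, b, c⟩⟩
  rcases hb with ⟨u, hu, hU, rfl⟩ | ⟨rfl, ⟨u, hu, hU⟩, w, hw, hw'⟩
  · exact key u (ef hu) fun g _ _ => ⟨fun h => h.at.1, fun h => .inl ⟨u, h, hU, rfl⟩⟩
  have uw : u ≠ w := fun h => hw' (h ▸ hU)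
  obtain ⟨v, hv, rfl⟩ := exists_eq_insert_iff.2 ⟨(show {u, w} ⊆ f by
    simp [insert_subset_iff, ef hu, ef hw]), by rw [card_pair uw, cf]⟩
  have two : ∀ g : Finset V, g.card = 2 → ∀ a ∈ g, ∃ b ∈ g, b ≠ a := fun g c a _ =>
    exists_mem_ne (by omega) a
  simp only [mem_insert, mem_singleton, not_or] at hv
  by_cases h : U v
  · refine key w (by simp) fun g hg c => ⟨fun h1 => ?_, fun h1 => ?_⟩
    · rcases h1 with ⟨_, _, _, h1⟩ | ⟨-, -, a, ha, ha'⟩
      · cases h1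
      · have := hg ha
        simp only [mem_insert, mem_singleton] at this
        rcases this with rfl | rfl | rfl <;> first | assumption | contradiction
    · obtain ⟨b, hb, hb'⟩ := two g c w h1
      have := hg hb
      simp only [mem_insert, mem_singleton] at this
      refine .inr ⟨rfl, ⟨b, hb, ?_⟩, w, h1, hw'⟩
      rcases this with rfl | rfl | rfl <;> first | assumption | contradiction
  · refine key u (by simp) fun g hg c => ⟨fun h1 => ?_, fun h1 => ?_⟩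
    · obtain ⟨a, ha, ha'⟩ := h1.meet
      have := hg ha
      simp only [mem_insert, mem_singleton] at this
      rcases this with rfl | rfl | rfl <;> first | assumption | contradiction
    · obtain ⟨b, hb, hb'⟩ := two g c u h1
      have := hg hb
      simp only [mem_insert, mem_singleton] at this
      refine .inr ⟨rfl, ⟨u, h1, hU⟩, b, hb, ?_⟩
      rcases this with rfl | rfl | rfl <;> first | assumption | contradiction

/-- No vertex of `s` has rank `i`. -/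
def xt_N (s : Finset (Option (Finset V))) (i : ℕ) : Prop := ∀ y ∈ s, xt_rk y ≠ i

section Agree
variable (h : xt_Fl M U x e f t) (h' : xt_Fl M U x' e' f' t') (hs : s ⊆ xt_fl x e f t)
  (hs' : s ⊆ xt_fl x' e' f' t')
include h h' hs hs'

theorem xt_ag1 : xt_N s 1 ∨ x ∈ s ∧ x = x' := by
  refine or_iff_not_imp_left.2 fun n => ?_
  simp only [xt_N, not_forall, not_not] at n
  obtain ⟨y, hy, r⟩ := n
  exact ⟨h.at1 (hs hy) r ▸ hy, (h.at1 (hs hy) r).symm.trans (h'.at1 (hs' hy) r)⟩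

theorem xt_ag2 : xt_N s 2 ∨ e = e' := by
  refine or_iff_not_imp_left.2 fun n => ?_
  simp only [xt_N, not_forall, not_not] at n
  obtain ⟨y, hy, r⟩ := n
  exact Option.some.inj ((h.at2 (hs hy) r).symm.trans (h'.at2 (hs' hy) r))

theorem xt_ag3 : xt_N s 3 ∨ f = f' := by
  refine or_iff_not_imp_left.2 fun n => ?_
  simp only [xt_N, not_forall, not_not] at n
  obtain ⟨y, hy, r⟩ := n
  exact Option.some.inj ((h.at3 (hs hy) r).symm.trans (h'.at3 (hs' hy) r))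

theorem xt_ag4 : xt_N s 4 ∨ t = t' := by
  refine or_iff_not_imp_left.2 fun n => ?_
  simp only [xt_N, not_forall, not_not] at n
  obtain ⟨y, hy, r⟩ := n
  exact Option.some.inj ((h.at4 (hs hy) r).symm.trans (h'.at4 (hs' hy) r))

end Agree

section Keep
variable (hs : s ⊆ xt_fl x e f t)
include hs

theorem xt_k1 (h : xt_Fl M U x e f t) (n : xt_N s 1) : s ⊆ xt_fl x' e f t := fun y hy =>
  xt_mem_fl.2 ((xt_mem_fl.1 (hs hy)).imp_left fun k => (n y hy (by rw [k]; exact h.bot.rk)).elim)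

theorem xt_k2 (h : xt_Fl M U x e f t) (n : xt_N s 2) : s ⊆ xt_fl x e' f t := fun y hy =>
  xt_mem_fl.2 ((xt_mem_fl.1 (hs hy)).imp_right
    (.imp_left fun k => (n y hy (by rw [k]; exact h.ce)).elim))

theorem xt_k3 (h : xt_Fl M U x e f t) (n : xt_N s 3) : s ⊆ xt_fl x e f' t := fun y hy =>
  xt_mem_fl.2 ((xt_mem_fl.1 (hs hy)).imp_right (.imp_right
    (.imp_left fun k => (n y hy (by rw [k]; exact h.cf)).elim)))

theorem xt_k4 (h : xt_Fl M U x e f t) (n : xt_N s 4) : s ⊆ xt_fl x e f t' := fun y hy =>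
  xt_mem_fl.2 ((xt_mem_fl.1 (hs hy)).imp_right (.imp_right
    (.imp_right fun k => (n y hy (by rw [k]; exact h.ct)).elim)))

end Keep

theorem XC_thin (h : Loc M U) : (XC M U).Thin := by
  intro s hs hc
  obtain ⟨x, e, f, t, h1, h2⟩ := xt_ext h hs
  obtain ⟨y, hy, hy'⟩ := exists_eq_insert_iff.2 ⟨h2, by rw [hc, h1.card]⟩
  have yn : ∀ i, xt_rk y ≠ i → i ∈ ({1, 2, 3, 4} : Finset ℕ) → ¬ xt_N s i := fun i a b n => by
    rw [← h1.img, ← hy', image_insert, mem_insert, mem_image] at b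
    obtain rfl | ⟨z, hz, rfl⟩ := b
    exacts [a rfl, n z hz rfl]
  have ym : y ∈ xt_fl x e f t := hy' ▸ mem_insert_self _ _
  have key : ∀ {α : Type} (P : α → Prop) (g : α → Finset (Option (Finset V))), xt_Two P →
      (∀ a b, P a → P b → g a = g b → a = b) →
      (∀ a, P a → g a ∈ (XC M U).faces ∧ s ⊆ g a ∧ (g a).card = 4) →
      (∀ x' e' f' t', xt_Fl M U x' e' f' t' → s ⊆ xt_fl x' e' f' t' →
        ∃ a, P a ∧ xt_fl x' e' f' t' = g a) → (XC M U).deg s = 2 := fun P g a b c d =>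
    xt_deg.2 (a.map g b fun T => ⟨fun ⟨k1, k2, k3⟩ => by
      obtain ⟨x', e', f', t', k4, rfl⟩ := xt_tet h k1 (by omega)
      exact d _ _ _ _ k4 k2, by
      rintro ⟨a, ha, rfl⟩
      rw [hc]
      exact c a ha⟩)
  obtain ⟨u, hu, hU⟩ := h1.bot.meet
  rcases xt_mem_fl.1 ym with rfl | rfl | rfl | rfl
  · have n : xt_N s 1 := fun z hz r => hy (h1.at1 (h2 hz) r ▸ hz)
    have r := h1.bot.rk
    have F : ∀ a, xt_Bot U a e → xt_Fl M U a e f t := fun a ha => { h1 with bot := ha }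
    refine key _ (fun a => xt_fl a e f t) (xt_two_bot h1.ce h1.bot.meet)
      (fun a b ha hb k => (F b hb).at1 (k ▸ xt_mem_fl.2 (.inl rfl)) ha.rk)
      (fun a ha => ⟨(F a ha).face, xt_k1 h2 h1 n, (F a ha).card⟩) fun x' e' f' t' k1 k2 => ?_
    obtain rfl := (xt_ag2 h1 k1 h2 k2).resolve_left (yn 2 (by omega) (by simp))
    obtain rfl := (xt_ag3 h1 k1 h2 k2).resolve_left (yn 3 (by omega) (by simp))
    obtain rfl := (xt_ag4 h1 k1 h2 k2).resolve_left (yn 4 (by omega) (by simp))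
    exact ⟨x', k1.bot, rfl⟩
  · have n : xt_N s 2 := fun z hz r => hy (h1.at2 (h2 hz) r ▸ hz)
    have r : xt_rk (some e) = 2 := h1.ce
    have F : ∀ a, xt_Bot U x a ∧ a ⊆ f ∧ a.card = 2 → xt_Fl M U x a f t := fun a ha =>
      { h1 with bot := ha.1, ef := ha.2.1, ce := ha.2.2 }
    refine key _ (fun a => xt_fl x a f t) (xt_two_edge h1.bot h1.ef h1.cf)
      (fun a b ha hb k => Option.some.inj
        ((F b hb).at2 (k ▸ xt_mem_fl.2 (.inr (.inl rfl))) ha.2.2))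
      (fun a ha => ⟨(F a ha).face, xt_k2 h2 h1 n, (F a ha).card⟩) fun x' e' f' t' k1 k2 => ?_
    obtain ⟨-, rfl⟩ := (xt_ag1 h1 k1 h2 k2).resolve_left (yn 1 (by omega) (by simp))
    obtain rfl := (xt_ag3 h1 k1 h2 k2).resolve_left (yn 3 (by omega) (by simp))
    obtain rfl := (xt_ag4 h1 k1 h2 k2).resolve_left (yn 4 (by omega) (by simp))
    exact ⟨e', ⟨k1.bot, k1.ef, k1.ce⟩, rfl⟩
  · have n : xt_N s 3 := fun z hz r => hy (h1.at3 (h2 hz) r ▸ hz)
    have r : xt_rk (some f) = 3 := h1.cf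
    have F : ∀ a, e ⊆ a ∧ a ⊆ t ∧ a.card = e.card + 1 → xt_Fl M U x e a t := fun a ha =>
      { h1 with ef := ha.1, ft := ha.2.1, cf := by rw [ha.2.2, h1.ce] }
    refine key _ (fun a => xt_fl x e a t) (xt_between (h1.ef.trans h1.ft) (by rw [h1.ce, h1.ct]))
      (fun a b ha hb k => Option.some.inj
        ((F b hb).at3 (k ▸ xt_mem_fl.2 (.inr (.inr (.inl rfl)))) (F a ha).cf))
      (fun a ha => ⟨(F a ha).face, xt_k3 h2 h1 n, (F a ha).card⟩) fun x' e' f' t' k1 k2 => ?_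
    obtain ⟨-, rfl⟩ := (xt_ag1 h1 k1 h2 k2).resolve_left (yn 1 (by omega) (by simp))
    obtain rfl := (xt_ag2 h1 k1 h2 k2).resolve_left (yn 2 (by omega) (by simp))
    obtain rfl := (xt_ag4 h1 k1 h2 k2).resolve_left (yn 4 (by omega) (by simp))
    exact ⟨f', ⟨k1.ef, k1.ft, by rw [k1.cf, k1.ce]⟩, rfl⟩
  · have n : xt_N s 4 := fun z hz r => hy (h1.at4 (h2 hz) r ▸ hz)
    have r : xt_rk (some t) = 4 := h1.ct
    have F : ∀ a, a ∈ M.faces ∧ f ⊆ a ∧ a.card = f.card + 1 → xt_Fl M U x e f a := fun a ha =>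
      { h1 with mem := ha.1, ft := ha.2.1, ct := by rw [ha.2.2, h1.cf] }
    refine key _ (fun a => xt_fl x e f a) (xt_deg.1 (h.thin f
      (M.down t h1.mem f h1.ft ⟨u, h1.ef hu⟩) h1.cf ⟨u, h1.ef hu, hU⟩))
      (fun a b ha hb k => Option.some.inj
        ((F b hb).at4 (k ▸ xt_mem_fl.2 (.inr (.inr (.inr rfl)))) (F a ha).ct))
      (fun a ha => ⟨(F a ha).face, xt_k4 h2 h1 n, (F a ha).card⟩) fun x' e' f' t' k1 k2 => ?_
    obtain ⟨-, rfl⟩ := (xt_ag1 h1 k1 h2 k2).resolve_left (yn 1 (by omega) (by simp))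
    obtain rfl := (xt_ag2 h1 k1 h2 k2).resolve_left (yn 2 (by omega) (by simp))
    obtain rfl := (xt_ag3 h1 k1 h2 k2).resolve_left (yn 3 (by omega) (by simp))
    exact ⟨t', ⟨k1.mem, k1.ft, by rw [k1.ct, k1.cf]⟩, rfl⟩

/-- Connection of two tetrahedra through `s`. -/
def xt_Cn (X : SC (Option (Finset V))) (s a b : Finset (Option (Finset V))) : Prop :=
  s ⊆ a → s ⊆ b ∧ Relation.ReflTransGen (X.Adj s) a b

theorem xt_Cn.rfl {X : SC (Option (Finset V))} {a : Finset (Option (Finset V))} : xt_Cn X s a a :=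
  fun h => ⟨h, .refl⟩

theorem xt_Cn.trans {X : SC (Option (Finset V))} {a b c : Finset (Option (Finset V))}
    (h : xt_Cn X s a b) (h' : xt_Cn X s b c) : xt_Cn X s a c := fun k =>
  ⟨(h' (h k).1).1, (h k).2.trans (h' (h k).1).2⟩

theorem xt_step {a : Finset (Option (Finset V))} (h : xt_Fl M U x e f t) (y : Option (Finset V))
    (h1 : (xt_fl x e f t).erase y ⊆ a) (h2 : s ⊆ a → s ⊆ xt_fl x e f t) :
    xt_Cn (XC M U) s a (xt_fl x e f t) := fun k =>
  ⟨h2 k, .single ⟨h.face, h.card, subset_inter k (h2 k), le_trans (by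
    have := pred_card_le_card_erase (s := xt_fl x e f t) (a := y)
    rwa [h.card] at this) (card_le_card (subset_inter h1 (erase_subset _ _)))⟩⟩

theorem xt_m1 (n : xt_N s 1) (h : xt_Fl M U x e f t) (h' : xt_Fl M U x' e f t) :
    xt_Cn (XC M U) s (xt_fl x e f t) (xt_fl x' e f t) :=
  xt_step h' x' (fun y => by simp only [mem_erase, xt_mem_fl]; tauto) fun k => xt_k1 k h n

theorem xt_m2 (n : xt_N s 2) (h : xt_Fl M U x e f t) (h' : xt_Fl M U x e' f t) :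
    xt_Cn (XC M U) s (xt_fl x e f t) (xt_fl x e' f t) :=
  xt_step h' (some e') (fun y => by simp only [mem_erase, xt_mem_fl]; tauto) fun k => xt_k2 k h n

theorem xt_m3 (n : xt_N s 3) (h : xt_Fl M U x e f t) (h' : xt_Fl M U x e f' t) :
    xt_Cn (XC M U) s (xt_fl x e f t) (xt_fl x e f' t) :=
  xt_step h' (some f') (fun y => by simp only [mem_erase, xt_mem_fl]; tauto) fun k => xt_k3 k h n

theorem xt_m4 (n : xt_N s 4) (h : xt_Fl M U x e f t) (h' : xt_Fl M U x e f t') :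
    xt_Cn (XC M U) s (xt_fl x e f t) (xt_fl x e f t') :=
  xt_step h' (some t') (fun y => by simp only [mem_erase, xt_mem_fl]; tauto) fun k => xt_k4 k h n

theorem xt_inter {a b c : Finset V} (ha : a ⊆ c) (hb : b ⊆ c) :
    a.card + b.card ≤ c.card + (a ∩ b).card := by
  rw [← card_union_add_card_inter]
  exact Nat.add_le_add_right (card_le_card (union_subset ha hb)) _

theorem xt_p1 (n1 : xt_N s 1 ∨ x ∈ s ∧ x = x') (h : xt_Fl M U x e f t) (h' : xt_Fl M U x' e f t) :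
    xt_Cn (XC M U) s (xt_fl x e f t) (xt_fl x' e f t) :=
  n1.elim (xt_m1 · h h') fun k => k.2 ▸ xt_Cn.rfl

theorem xt_l2 (n1 : xt_N s 1) (n2 : xt_N s 2) (h : xt_Fl M U x e f t) (h' : xt_Fl M U x' e' f t) :
    xt_Cn (XC M U) s (xt_fl x e f t) (xt_fl x' e' f t) := by
  have := xt_inter h.ef h'.ef
  rw [h.ce, h'.ce, h.cf] at this
  obtain ⟨v, hv⟩ := card_pos.1 (show 0 < (e ∩ e').card by omega)
  rw [mem_inter] at hv
  obtain ⟨y, y1, y2⟩ : ∃ y, xt_Bot U y e ∧ xt_Bot U y e' := by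
    by_cases hU : U v
    · exact ⟨_, .inl ⟨v, hv.1, hU, rfl⟩, .inl ⟨v, hv.2, hU, rfl⟩⟩
    · exact ⟨_, .inr ⟨rfl, h.bot.meet, v, hv.1, hU⟩, .inr ⟨rfl, h'.bot.meet, v, hv.2, hU⟩⟩
  exact ((xt_m1 n1 h { h with bot := y1 }).trans
    (xt_m2 n2 { h with bot := y1 } { h' with bot := y2 })).trans (xt_m1 n1 { h' with bot := y2 } h')

theorem xt_p2 (n1 : xt_N s 1 ∨ x ∈ s ∧ x = x') (n2 : xt_N s 2 ∨ e = e') (h : xt_Fl M U x e f t)
    (h' : xt_Fl M U x' e' f t) : xt_Cn (XC M U) s (xt_fl x e f t) (xt_fl x' e' f t) := by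
  rcases n2 with n2 | rfl
  · rcases n1 with n1 | ⟨-, rfl⟩
    exacts [xt_l2 n1 n2 h h', xt_m2 n2 h h']
  · exact xt_p1 n1 h h'

theorem xt_mm {u : V} (n2 : xt_N s 2) (n3 : xt_N s 3) (h : xt_Fl M U (some {u}) e f t)
    (h' : xt_Fl M U (some {u}) e' f' t) :
    xt_Cn (XC M U) s (xt_fl (some {u}) e f t) (xt_fl (some {u}) e' f' t) := by
  have := xt_inter h.ft h'.ft
  rw [h.cf, h'.cf, h.ct] at this
  obtain ⟨g, g1, g2, g3⟩ := exists_subsuperset_card_eq (n := 2) (singleton_subset_iff.2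
    (mem_inter.2 ⟨h.ef h.bot.at.1, h'.ef h'.bot.at.1⟩)) (by simp) (by omega)
  have b : xt_Bot U (some {u}) g := .inl ⟨u, g1 (mem_singleton_self u), h.bot.at.2, rfl⟩
  have k : xt_Fl M U (some {u}) g f t := { h with bot := b, ef := g2.trans inter_subset_left, ce := g3 }
  have k' : xt_Fl M U (some {u}) g f' t :=
    { h' with bot := b, ef := g2.trans inter_subset_right, ce := g3 }
  exact ((xt_m2 n2 h k).trans (xt_m3 n3 k k')).trans (xt_m2 n2 k' h')

omit [DecidableEq V] in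
theorem xt_mk {u : V} {g : Finset V} (hU : U u) (hu : u ∈ g) (cg : g.card ≤ 3) (gt : g ⊆ t)
    (ht : t ∈ M.faces) (ct : t.card = 4) : ∃ e f, g ⊆ f ∧ xt_Fl M U (some {u}) e f t := by
  obtain ⟨f, f1, f2, f3⟩ := exists_subsuperset_card_eq (n := 3) gt cg (by omega)
  obtain ⟨e, e1, e2, e3⟩ := exists_subsuperset_card_eq (n := 2) (singleton_subset_iff.2 (f1 hu))
    (by simp) (by omega)
  exact ⟨e, f, f1, .inl ⟨u, e1 (mem_singleton_self u), hU, rfl⟩, e2, f2, ht, e3, f3, ct⟩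

theorem xt_l3 (n1 : xt_N s 1) (n2 : xt_N s 2) (n3 : xt_N s 3) (h : xt_Fl M U x e f t)
    (h' : xt_Fl M U x' e' f' t) : xt_Cn (XC M U) s (xt_fl x e f t) (xt_fl x' e' f' t) := by
  obtain ⟨u, hu, hU⟩ := h.bot.meet
  obtain ⟨v, hv, hV⟩ := h'.bot.meet
  have a : xt_Fl M U (some {u}) e f t := { h with bot := .inl ⟨u, hu, hU, rfl⟩ }
  have b : xt_Fl M U (some {v}) e' f' t := { h' with bot := .inl ⟨v, hv, hV, rfl⟩ }
  obtain ⟨g, g1, g2, g3⟩ := exists_subsuperset_card_eq (n := 3) (show {u, v} ⊆ t by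
    simp [insert_subset_iff, h.ft (h.ef hu), h'.ft (h'.ef hv)]) (card_le_two.trans (by omega))
    (by rw [h.ct]; omega)
  obtain ⟨e1, f1, k1, c⟩ := xt_mk hU (g1 (by simp)) g3.le g2 h.mem h.ct
  obtain ⟨e2, f2, k2, d⟩ := xt_mk hV (g1 (by simp)) g3.le g2 h.mem h.ct
  obtain rfl := eq_of_subset_of_card_le k1 (by rw [g3, c.cf])
  obtain rfl := eq_of_subset_of_card_le k2 (by rw [g3, d.cf])
  exact ((((xt_m1 n1 h a).trans (xt_mm n2 n3 a c)).trans (xt_l2 n1 n2 c d)).trans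
    (xt_mm n2 n3 d b)).trans (xt_m1 n1 b h')

theorem xt_last {g : Finset V} (k : Relation.ReflTransGen (M.Adj g) t t') (h1 : t ∈ M.faces)
    (h2 : t.card = 4) : t' ∈ M.faces ∧ t'.card = 4 := by
  rcases k.cases_tail with rfl | ⟨_, _, k⟩
  exacts [⟨h1, h2⟩, ⟨k.1, k.2.1⟩]

theorem xt_u1 (L : Loc M U) (n3 : xt_N s 3) (n4 : xt_N s 4) (h : xt_Fl M U x e f t)
    (h' : xt_Fl M U x e f' t') : xt_Cn (XC M U) s (xt_fl x e f t) (xt_fl x e f' t') := by
  obtain ⟨u, hu, hU⟩ := h.bot.meet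
  have k := L.scE e (M.down t h.mem e (h.ef.trans h.ft) ⟨u, hu⟩) h.ce ⟨u, hu, hU⟩ t h.mem t' h'.mem
    h.ct h'.ct (h.ef.trans h.ft) (h'.ef.trans h'.ft)
  induction k generalizing f' with
  | refl => exact xt_m3 n3 h h'
  | tail k1 k2 ih =>
    obtain ⟨g, g1, g2, g3⟩ := exists_subsuperset_card_eq (n := 3) k2.2.2.1 (by rw [h.ce]; omega)
      k2.2.2.2
    obtain ⟨a1, a2⟩ := xt_last k1 h.mem h.ct
    have a := xt_Fl.mk h.bot g1 (g2.trans inter_subset_left) a1 h.ce g3 a2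
    have b := xt_Fl.mk h.bot g1 (g2.trans inter_subset_right) h'.mem h.ce g3 h'.ct
    exact ((ih a).trans (xt_m4 n4 a b)).trans (xt_m3 n3 b h')

theorem xt_u0 {u : V} (L : Loc M U) (n2 : xt_N s 2) (n3 : xt_N s 3) (n4 : xt_N s 4)
    (h : xt_Fl M U (some {u}) e f t) (h' : xt_Fl M U (some {u}) e' f' t') :
    xt_Cn (XC M U) s (xt_fl (some {u}) e f t) (xt_fl (some {u}) e' f' t') := by
  have k := L.scV u h.bot.at.2 t h.mem t' h'.mem h.ct h'.ct
    (singleton_subset_iff.2 (h.ft (h.ef h.bot.at.1)))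
    (singleton_subset_iff.2 (h'.ft (h'.ef h'.bot.at.1)))
  induction k generalizing e' f' with
  | refl => exact xt_mm n2 n3 h h'
  | tail k1 k2 ih =>
    obtain ⟨g, g1, g2, g3⟩ := exists_subsuperset_card_eq (n := 3) k2.2.2.1 (by simp) k2.2.2.2
    obtain ⟨a1, a2⟩ := xt_last k1 h.mem h.ct
    obtain ⟨e1, f1, c, a⟩ := xt_mk h.bot.at.2 (g1 (mem_singleton_self u)) g3.le
      (g2.trans inter_subset_left) a1 a2
    obtain rfl := eq_of_subset_of_card_le c (by rw [g3, a.cf])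
    have b := xt_Fl.mk a.bot a.ef (g2.trans inter_subset_right) h'.mem a.ce g3 h'.ct
    exact ((ih a).trans (xt_m4 n4 a b)).trans (xt_mm n2 n3 b h')

theorem XC_scat (h : Loc M U) (s : Finset (Option (Finset V))) (hs : s ∈ (XC M U).faces)
    (hn : none ∉ s) (h2 : s.card ≤ 2) : (XC M U).SCat s := by
  intro T hT T' hT' c c' k k'
  obtain ⟨x, e, f, t, a, rfl⟩ := xt_tet h hT c
  obtain ⟨x', e', f', t', b, rfl⟩ := xt_tet h hT' c'
  have n1 := xt_ag1 a b k k'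
  have n2 := xt_ag2 a b k k'
  have sm : x ∈ s → ∃ u, x = some {u} := fun hx =>
    a.bot.elim (fun ⟨u, _, _, h⟩ => ⟨u, h⟩) fun h => (hn (h.1 ▸ hx)).elim
  refine And.right ((?_ : xt_Cn (XC M U) s _ _) k)
  rcases xt_ag3 a b k k' with n3 | rfl
  · rcases n2 with n2 | rfl
    · rcases n1 with n1 | ⟨hx, rfl⟩
      · rcases xt_ag4 a b k k' with n4 | rfl
        · obtain ⟨y, hy⟩ := (XC M U).ne s hs
          have := mem_image_of_mem xt_rk (k hy)
          simp only [a.img, mem_insert, mem_singleton] at this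
          rcases this with r | r | r | r
          exacts [(n1 y hy r).elim, (n2 y hy r).elim, (n3 y hy r).elim, (n4 y hy r).elim]
        · exact xt_l3 n1 n2 n3 a b
      · obtain ⟨u, rfl⟩ := sm hx
        rcases xt_ag4 a b k k' with n4 | rfl
        exacts [xt_u0 h n2 n3 n4 a b, xt_mm n2 n3 a b]
    · have b' : xt_Fl M U x e f' t' := { b with bot := a.bot }
      refine xt_Cn.trans ?_ (xt_p1 n1 b' b)
      rcases xt_ag4 a b k k' with n4 | rfl
      exacts [xt_u1 h n3 n4 a b', xt_m3 n3 a b']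
  · have b' : xt_Fl M U x e f t' := { b with bot := a.bot, ef := a.ef, ce := a.ce }
    refine xt_Cn.trans ?_ (xt_p2 n1 n2 b' b)
    rcases xt_ag4 a b k k' with n4 | rfl
    exacts [xt_m4 n4 a b', xt_Cn.rfl]

end SC
end MP35
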