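import Pool.Agent.Lib.MP_35c604_gt.XT

/-! TASK XT2: consequences for the two stages. -/

namespace MP35
namespace SC

variable {V : Type} [DecidableEq V]

/-- Barycentres of the faces of `K`. -/
def Bar (K : SC V) (a : Option (Finset V)) : Prop := ∃ σ ∈ K.faces, a = some σ

theorem xt2_mem_NC {M : SC V} {U : V → Prop} {s : Finset (Option (Finset V))} :
    s ∈ (NC M U).faces ↔ XP M U s ∧ none ∉ s := by
  rw [NC, mem_del, mem_XC, Finset.singleton_subset_iff]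

theorem xt2_none {M : SC V} {U : V → Prop} {s : Finset (Option (Finset V))} {σ : Finset V}
    (hs : s ∈ (XC M U).faces) (hσ : some σ ∈ s) (hU : ∀ v ∈ σ, U v) : none ∉ s := fun hn => by
  obtain ⟨v, hv, h⟩ := ((mem_XC.1 hs).2.2.2 hn).2 σ hσ
  exact h (hU v hv)

theorem stageC_scat {M K : SC V} {U : V → Prop} (h : Loc M U) (w : Option (Finset V))
    (hw : w ≠ none) : (XC M U).SCat {w} := fun t ht t' ht' h4 h4' hs hs' =>
  XC_scat h {w} ((XC M U).down t ht _ hs (Finset.singleton_nonempty w))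
    (by rw [Finset.mem_singleton]; exact hw.symm) (by simp) t ht t' ht' h4 h4' hs hs'

theorem stageB_loc {M K : SC V} {U : V → Prop} (h : Loc M U) (hK : K.faces ⊆ M.faces)
    (hU : ∀ v ∈ K.verts, U v) : Loc (XC M U) (Bar K) := by
  refine ⟨XC_pure h, fun f hf h3 _ => XC_thin h f hf h3, ?_, ?_⟩
  · rintro e he h2 ⟨_, hv, σ, hσ, rfl⟩
    exact XC_scat h e he (xt2_none he hv fun v hv => hU v (mem_verts_of_mem hσ hv)) h2.le
  · rintro _ ⟨σ, -, rfl⟩
    exact stageC_scat (K := K) h _ (Option.some_ne_none σ)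

theorem stageB_full {M K : SC V} {U : V → Prop} (hK : K.faces ⊆ M.faces)
    (hU : ∀ v ∈ K.verts, U v) : Full (XC M U) (Bar K) (NC K U) := by
  intro s
  rw [xt2_mem_NC, mem_XC]
  constructor
  · rintro ⟨⟨h1, h2, h3, -⟩, hn⟩
    refine ⟨⟨h1, fun τ h => ⟨hK (h2 τ h).1, (h2 τ h).2⟩, h3, fun h => (hn h).elim⟩, ?_⟩
    rintro (_ | τ) hv
    · exact (hn hv).elim
    · exact ⟨τ, (h2 τ hv).1, rfl⟩
  · rintro ⟨⟨h1, h2, h3, -⟩, hb⟩
    have hn : none ∉ s := fun h => by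
      obtain ⟨σ, -, h'⟩ := hb _ h
      cases h'
    refine ⟨⟨h1, fun τ h => ⟨?_, (h2 τ h).2⟩, h3, fun h => (hn h).elim⟩, hn⟩
    obtain ⟨σ, hσ, h'⟩ := hb _ h
    cases h'
    exact hσ

/-- The number of vertices of the face with a given barycentre. -/
def xt2_rk (a : Option (Finset V)) : ℕ := (a.getD ∅).card

theorem xt2_inj {M : SC V} {U : V → Prop} {s : Finset (Option (Finset V))}
    (hs : s ∈ (NC M U).faces) : Set.InjOn xt2_rk (s : Set (Option (Finset V))) := by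
  obtain ⟨⟨-, -, h3, -⟩, hn⟩ := xt2_mem_NC.1 hs
  rintro (_ | a) ha (_ | b) hb e
  · rfl
  · exact (hn ha).elim
  · exact (hn hb).elim
  · have e' : a.card = b.card := e
    rcases h3 a b ha hb with h | h
    · rw [Finset.eq_of_subset_of_card_le h e'.ge]
    · rw [Finset.eq_of_subset_of_card_le h e'.le]

theorem xt2_maps {M : SC V} {U : V → Prop} {n : ℕ} (h : M.DimLE n)
    {s : Finset (Option (Finset V))} (hs : s ∈ (NC M U).faces) :
    s.image xt2_rk ⊆ Finset.Icc 1 (n + 1) := by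
  obtain ⟨⟨-, h2, -, -⟩, hn⟩ := xt2_mem_NC.1 hs
  intro k hk
  obtain ⟨_ | a, ha, rfl⟩ := Finset.mem_image.1 hk
  · exact (hn ha).elim
  · exact Finset.mem_Icc.2 ⟨(M.ne a (h2 a ha).1).card_pos, h a (h2 a ha).1⟩

theorem stageB_dim {K : SC V} {U : V → Prop} (h : K.DimLE 2) : (NC K U).DimLE 2 := by
  intro s hs
  have := Finset.card_le_card (xt2_maps h hs)
  rwa [Finset.card_image_of_injOn (xt2_inj hs), Nat.card_Icc] at this

theorem stageC_int {M K : SC V} {U : V → Prop} (hK : Full M U K) (w : Option (Finset V))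
    (hw : Bar K w) (s : Finset (Option (Finset V))) (hs : s ∈ (XC M U).faces) (hws : w ∈ s) :
    none ∉ s := by
  obtain ⟨σ, hσ, rfl⟩ := hw
  exact xt2_none hs hws ((hK σ).1 hσ).2

/-- A tetrahedron of the derived neighbourhood has a vertex which is a vertex of `M`. -/
theorem xt2_vertex {M : SC V} {U : V → Prop} (h : M.DimLE 3) {t : Finset (Option (Finset V))}
    (ht : t ∈ (NC M U).faces) (h4 : t.card = 4) {τ : Finset V} (hτ : some τ ∈ t) :
    ∃ u ∈ τ, U u ∧ some {u} ∈ t := by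
  have e : t.image xt2_rk = Finset.Icc 1 (3 + 1) := Finset.eq_of_subset_of_card_le (xt2_maps h ht)
    (by rw [Finset.card_image_of_injOn (xt2_inj ht), Nat.card_Icc, h4])
  have h1 : 1 ∈ t.image xt2_rk := by rw [e]; decide
  obtain ⟨⟨-, h2, h3, -⟩, hn⟩ := xt2_mem_NC.1 ht
  obtain ⟨_ | a, ha, h1⟩ := Finset.mem_image.1 h1
  · exact (hn ha).elim
  · obtain ⟨u, rfl⟩ := Finset.card_eq_one.1 (show a.card = 1 from h1)
    obtain ⟨v, hv, hU⟩ := (h2 _ ha).2
    rw [Finset.mem_singleton] at hv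
    subst hv
    refine ⟨v, ?_, hU, ha⟩
    rcases h3 _ _ ha hτ with h | h
    · exact Finset.singleton_subset_iff.1 h
    · obtain ⟨w, hw⟩ := M.ne τ (h2 τ hτ).1
      exact Finset.mem_singleton.1 (h hw) ▸ hw

open Classical in
theorem xt2_ext {M : SC V} {U : V → Prop} (h : Loc M U) {τ : Finset V} (hτ : τ ∈ M.faces) {u : V}
    (hu : u ∈ τ) (hU : U u) : ∃ t ∈ (NC M U).faces, t.card = 4 ∧ some {u} ∈ t ∧
      some (τ.filter U) ∈ t ∧ some τ ∈ t := by
  have h1 : {u} ⊆ τ.filter U := Finset.singleton_subset_iff.2 (Finset.mem_filter.2 ⟨hu, hU⟩)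
  have h2 : τ.filter U ⊆ τ := Finset.filter_subset _ _
  have hs : ({some {u}, some (τ.filter U), some τ} : Finset (Option (Finset V))) ∈
      (XC M U).faces := by
    refine mem_XC.2 ⟨Finset.insert_nonempty _ _, fun a ha => ?_, fun a b ha hb => ?_, by simp⟩
    · have h3 : {u} ⊆ a ∧ a ⊆ τ := by
        simp only [Finset.mem_insert, Option.some.injEq, Finset.mem_singleton] at ha
        rcases ha with rfl | rfl | rfl
        exacts [⟨subset_rfl, h1.trans h2⟩, ⟨h1, h2⟩, ⟨h1.trans h2, subset_rfl⟩]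
      have h4 := Finset.singleton_subset_iff.1 h3.1
      exact ⟨M.down τ hτ a h3.2 ⟨u, h4⟩, u, h4, hU⟩
    · simp only [Finset.mem_insert, Option.some.injEq, Finset.mem_singleton] at ha hb
      have h3 := h1.trans h2
      rcases ha with rfl | rfl | rfl <;> rcases hb with rfl | rfl | rfl <;>
        first
        | exact Or.inl subset_rfl
        | exact Or.inl (by assumption)
        | exact Or.inr (by assumption)
  obtain ⟨t, ht, hst, h4⟩ := (XC_pure h).2 _ hs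
  have a1 : some {u} ∈ t := hst (by simp)
  exact ⟨t, xt2_mem_NC.2 ⟨mem_XC.1 ht, xt2_none ht a1 (by simpa using hU)⟩, h4, a1, hst (by simp),
    hst (by simp)⟩

theorem stageC_HS {M K : SC V} {U : V → Prop} (h : Loc M U) (hK : Full M U K) :
    (NC M U).HS (Bar K) := by
  classical
  rintro (_ | τ) t ht t' ht' h4 h4' hv hv'
  · exact ((xt2_mem_NC.1 ht).2 hv).elim
  have hτ := ((xt2_mem_NC.1 ht).1.2.1 τ hv).1
  obtain ⟨u, hu, hU, a⟩ := xt2_vertex h.pure.1 ht h4 hv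
  obtain ⟨u', hu', hU', a'⟩ := xt2_vertex h.pure.1 ht' h4' hv'
  obtain ⟨t1, b1, b2, b3, b4, b5⟩ := xt2_ext h hτ hu hU
  obtain ⟨t2, c1, c2, c3, c4, c5⟩ := xt2_ext h hτ hu' hU'
  have k : ∀ u ∈ τ, U u → Bar K (some {u}) := fun u hu hU =>
    ⟨_, (hK _).2 ⟨mem_verts_of_mem hτ hu, by simpa using hU⟩, rfl⟩
  have k' : Bar K (some (τ.filter U)) := ⟨_, (hK _).2 ⟨M.down τ hτ _ (Finset.filter_subset _ _)
    ⟨u, Finset.mem_filter.2 ⟨hu, hU⟩⟩, fun v hv => (Finset.mem_filter.1 hv).2⟩, rfl⟩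
  exact ((Relation.ReflTransGen.single ⟨b1, b2, b5, _, Finset.mem_inter.2 ⟨a, b3⟩, k u hu hU⟩).tail
    ⟨c1, c2, c5, _, Finset.mem_inter.2 ⟨b4, c4⟩, k'⟩).tail
    ⟨ht', h4', hv', _, Finset.mem_inter.2 ⟨c3, a'⟩, k u' hu' hU'⟩

theorem stageC_tet {M K : SC V} {U : V → Prop} (h : Loc M U) (hK : Full M U K) (hd : K.DimLE 2)
    (hne : K.faces.Nonempty) : ∃ t ∈ (XC M U).faces, t.card = 4 ∧ none ∈ t := by
  obtain ⟨s, hs⟩ := hne
  obtain ⟨h1, h2⟩ := (hK s).1 hs
  obtain ⟨t, ht, hst, h4⟩ := h.pure.2 s h1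
  obtain ⟨v, hv⟩ := K.ne s hs
  have h3 : ∃ w ∈ t, ¬ U w := by
    by_contra hc
    push Not at hc
    have := hd t ((hK t).2 ⟨ht, hc⟩)
    omega
  have h5 : ({none} : Finset (Option (Finset V))) ∈ (XC M U).faces :=
    mem_XC.2 ⟨Finset.singleton_nonempty _, by simp, by simp,
      fun _ => ⟨⟨t, ht, ⟨v, hst hv, h2 v hv⟩, h3⟩, by simp⟩⟩
  obtain ⟨t', a, b, c⟩ := (XC_pure h).2 _ h5
  exact ⟨t', a, c, Finset.singleton_subset_iff.1 b⟩

end SC
end MP35
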