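import Pool.Agent.Lib.MP_35c604_gt.TorB

/-! TASK ZLEM: the four-term complex of an orthogonal matrix has square torsion. -/

namespace MP35

open Matrix

variable {T : Type} [CommRing T]

def GoodRot (M : Matrix (Fin 2) (Fin 2) T) : Prop :=
  M = 1 ∨ ∃ (a b : T) (u : Tˣ), M = !![a, -b; b, a] ∧ a ^ 2 + b ^ 2 = 1 ∧ 1 - a = (u : T) ^ 2

/-- Block diagonal matrix with blocks `R t`, columns renamed by `β`. -/
def blk {Tt F : Type} [DecidableEq Tt] (β : Tt × Fin 2 ≃ F) (R : Tt → Matrix (Fin 2) (Fin 2) T) :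
    Matrix (Tt × Fin 2) F T :=
  fun x f => if (β.symm f).1 = x.1 then R x.1 x.2 (β.symm f).2 else 0

/-- The complex `V → F → R → V` (rows are targets, columns are sources). -/
def zmat {V F R : Type} (a : Matrix F V T) (B : Matrix R F T) (η : Matrix V R T) :
    Matrix ((V ⊕ F) ⊕ (R ⊕ V)) ((V ⊕ F) ⊕ (R ⊕ V)) T :=
  fromBlocks (fromBlocks 0 0 a 0) 0 (fromBlocks 0 B 0 0) (fromBlocks 0 0 η 0)

def zpar (V F R : Type) : (V ⊕ F) ⊕ (R ⊕ V) → Bool :=
  Sum.elim (Sum.elim (fun _ => false) fun _ => true) (Sum.elim (fun _ => false) fun _ => true)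

theorem zlem_field {K : Type} [Field K] (h2 : (2 : K) ≠ 0) (n : ℕ) :
    ∀ (I : Type) [Fintype I] [DecidableEq I], Fintype.card I = n → ∀ S : Matrix I I K,
      Sᵀ = -S → IsSquare S.det := by
  induction n using Nat.strong_induction_on with
  | _ n ih =>
  intro I _ _ hn S hS
  have hanti : ∀ i j, S j i = -S i j := fun i j => congrFun (congrFun hS i) j
  have hdiag : ∀ i, S i i = 0 := fun i => by
    have h := hanti i i
    have h3 : 2 * S i i = 0 := by linear_combination h
    exact (mul_eq_zero.mp h3).resolve_left h2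
  by_cases h0 : S = 0
  · rcases isEmpty_or_nonempty I with h | h
    · rw [det_isEmpty]
      exact IsSquare.one
    · rw [h0, det_zero]
      exact IsSquare.zero
  obtain ⟨i, j, hij⟩ : ∃ i j, S i j ≠ 0 := by
    by_contra h
    push Not at h
    exact h0 (Matrix.ext h)
  have hne : i ≠ j := fun e => hij (e ▸ hdiag i)
  have hf : Function.Injective ![i, j] := by
    intro x y hxy
    fin_cases x <;> fin_cases y
    exacts [rfl, absurd hxy hne, absurd hxy hne.symm, rfl]
  classical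
  let e : Fin 2 ⊕ ((Set.range ![i, j])ᶜ : Set I) ≃ I :=
    (Equiv.sumCongr (Equiv.ofInjective _ hf) (Equiv.refl _)).trans (Equiv.Set.sumCompl _)
  have he0 : e (Sum.inl 0) = i := rfl
  have he1 : e (Sum.inl 1) = j := rfl
  set M := S.submatrix e e with hM
  have hMt : Mᵀ = -M := by
    ext x y
    exact hanti _ _
  rw [← det_submatrix_equiv_self e, ← hM, ← fromBlocks_toBlocks M]
  rw [← fromBlocks_toBlocks M, fromBlocks_transpose, fromBlocks_neg, fromBlocks_inj] at hMt
  obtain ⟨hA, hC, hB, hD⟩ := hMt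
  have hdet : (toBlocks₁₁ M).det = S i j * S i j := by
    rw [det_fin_two]
    simp only [toBlocks₁₁, hM, of_apply, submatrix_apply, he0, he1, hdiag, hanti i j]
    ring
  have hu : IsUnit (toBlocks₁₁ M).det := by
    rw [hdet]
    exact (mul_ne_zero hij hij).isUnit
  letI := invertibleOfIsUnitDet _ hu
  rw [det_fromBlocks₁₁, hdet]
  refine IsSquare.mul ⟨_, rfl⟩ (ih _ ?_ _ rfl _ ?_)
  · rw [← hn, ← Fintype.card_congr e, Fintype.card_sum, Fintype.card_fin]
    omega
  · have hi : (⅟(toBlocks₁₁ M))ᵀ = -⅟(toBlocks₁₁ M) := by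
      have h1 : (toBlocks₁₁ M)ᵀ * (⅟(toBlocks₁₁ M))ᵀ = 1 := by
        rw [← transpose_mul, invOf_mul_self, transpose_one]
      rw [hA] at h1
      calc (⅟(toBlocks₁₁ M))ᵀ = -(⅟(toBlocks₁₁ M) * (-toBlocks₁₁ M * (⅟(toBlocks₁₁ M))ᵀ)) := by
            rw [Matrix.neg_mul, Matrix.mul_neg, neg_neg, ← Matrix.mul_assoc, invOf_mul_self,
              Matrix.one_mul]
        _ = _ := by rw [h1, Matrix.mul_one]
    rw [transpose_sub, transpose_mul, transpose_mul, hD, hB, hC, hi]
    simp only [Matrix.neg_mul, Matrix.mul_neg, neg_neg, Matrix.mul_assoc]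
    abel

/-- The determinant of an alternating matrix is a square (zero in odd size). -/
theorem isSquare_det_of_alt {I : Type} [Fintype I] [DecidableEq I] (S : Matrix I I T)
    (h1 : Sᵀ = -S) (h2 : ∀ i, S i i = 0) : IsSquare S.det := by
  let R0 := MvPolynomial (I × I) ℤ
  let K := FractionRing R0
  let S0 : Matrix I I R0 := of fun i j => MvPolynomial.X (i, j) - MvPolynomial.X (j, i)
  have hinj : Function.Injective (algebraMap R0 K) := IsFractionRing.injective R0 K
  have hK : (2 : K) ≠ 0 := by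
    intro h
    have h3 : algebraMap R0 K 2 = algebraMap R0 K 0 := by rw [map_ofNat, map_zero, h]
    exact two_ne_zero (hinj h3)
  obtain ⟨y, hy⟩ := zlem_field hK _ I rfl (S0.map (algebraMap R0 K)) (by
    ext i j
    simp only [transpose_apply, map_apply, Matrix.neg_apply, S0, of_apply, map_sub, neg_sub])
  have h3 : algebraMap R0 K S0.det = y ^ 2 := by
    rw [RingHom.map_det, pow_two, ← hy]
    rfl
  obtain ⟨z, hz⟩ := IsIntegrallyClosed.exists_algebraMap_eq_of_isIntegral_pow (R := R0) (K := K)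
    (x := y) (n := 2) two_pos (h3 ▸ isIntegral_algebraMap)
  have h4 : S0.det = z * z := hinj (by rw [h3, map_mul, hz, pow_two])
  let r := Fintype.equivFin I
  let φ : R0 →+* T := MvPolynomial.eval₂Hom (Int.castRingHom T)
    fun x => if r x.1 < r x.2 then S x.1 x.2 else 0
  have h5 : φ.mapMatrix S0 = S := by
    ext i j
    have h6 : S j i = -S i j := congrFun (congrFun h1 i) j
    have h7 : ∀ x : I × I, φ (MvPolynomial.X x) = if r x.1 < r x.2 then S x.1 x.2 else 0 :=
      fun x => MvPolynomial.eval₂Hom_X' _ _ x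
    simp only [RingHom.mapMatrix_apply, map_apply, S0, of_apply, map_sub, h7]
    rcases lt_trichotomy (r i) (r j) with h | h | h
    · rw [if_pos h, if_neg h.not_gt, sub_zero]
    · obtain rfl := r.injective h
      rw [sub_self, h2]
    · rw [if_neg h.not_gt, if_pos h, h6, zero_sub, neg_neg]
  exact ⟨φ z, by rw [← h5, ← RingHom.map_det, h4, map_mul]⟩

theorem zlem_mul_one (x : SqCl T) : x * 1 = x := mul_one x

theorem zlem_one_mul (x : SqCl T) : 1 * x = x := one_mul x

/-- Cayley data of an orthogonal matrix. -/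
def ZlemD {n k : Type} [Fintype n] [DecidableEq n] [Fintype k] [DecidableEq k] (G : Matrix n n T)
    (W : Matrix n k T) (U U' : Matrix k k T) : Prop :=
  U * U' = 1 ∧ U + Uᵀ = Wᵀ * W ∧ 1 - G = W * U' * Wᵀ ∧ cls U'.det = 1

def ZlemG {n : Type} [Fintype n] [DecidableEq n] (G : Matrix n n T) : Prop :=
  ∃ (k : Type) (_ : Fintype k) (_ : DecidableEq k) (W : Matrix n k T) (U U' : Matrix k k T),
    ZlemD G W U U'

section G

variable {n m : Type} [Fintype n] [DecidableEq n] [Fintype m] [DecidableEq m]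

theorem zlem_one : ZlemG (1 : Matrix n n T) :=
  ⟨Empty, inferInstance, inferInstance, 0, 1, 1, Matrix.one_mul _, Subsingleton.elim _ _,
    by simp, by rw [det_one, cls_one]⟩

theorem zlem_mul {G H : Matrix n n T} (hG : ZlemG G) (hH : ZlemG H) : ZlemG (G * H) := by
  obtain ⟨k, _, _, W, U, U', a1, a2, a3, a4⟩ := hG
  obtain ⟨l, _, _, X, Y, Y', b1, b2, b3, b4⟩ := hH
  refine ⟨k ⊕ l, inferInstance, inferInstance, fromCols W X, fromBlocks U (Wᵀ * X) 0 Y,
    fromBlocks U' (-(U' * (Wᵀ * X) * Y')) 0 Y', ?_, ?_, ?_, ?_⟩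
  · rw [fromBlocks_multiply, ← fromBlocks_one]
    simp only [Matrix.mul_neg, ← Matrix.mul_assoc, a1, b1, Matrix.one_mul, Matrix.mul_zero,
      Matrix.zero_mul, add_zero, zero_add, neg_add_cancel, neg_zero]
  · rw [fromBlocks_transpose, fromBlocks_add, transpose_fromCols, fromRows_mul_fromCols, a2, b2]
    simp only [transpose_zero, add_zero, zero_add, transpose_mul, transpose_transpose]
  · rw [transpose_fromCols, fromCols_mul_fromBlocks, fromCols_mul_fromRows]
    have e : 1 - G * H = (1 - G) + (1 - H) - (1 - G) * (1 - H) := by noncomm_ring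
    rw [e, a3, b3]
    simp only [Matrix.mul_zero, add_zero, Matrix.add_mul, Matrix.mul_neg, Matrix.neg_mul,
      Matrix.mul_assoc]
    abel
  · rw [det_fromBlocks_zero₂₁, cls_mul (isUnit_det_of_left_inverse a1)
      (isUnit_det_of_left_inverse b1), a4, b4, zlem_mul_one]

theorem zlem_transpose {G : Matrix n n T} (hG : ZlemG G) : ZlemG Gᵀ := by
  obtain ⟨k, _, _, W, U, U', a1, a2, a3, a4⟩ := hG
  refine ⟨k, inferInstance, inferInstance, W, Uᵀ, U'ᵀ, ?_, ?_, ?_, ?_⟩
  · rw [← transpose_mul, mul_eq_one_comm.mp a1, transpose_one]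
  · rw [transpose_transpose, add_comm, a2]
  · have := congrArg transpose a3
    rw [transpose_sub, transpose_one, transpose_mul, transpose_mul, transpose_transpose] at this
    rw [this, Matrix.mul_assoc]
  · rw [det_transpose, a4]

theorem zlem_reindex {G : Matrix n n T} (hG : ZlemG G) (e : m ≃ n) : ZlemG (G.submatrix e e) := by
  obtain ⟨k, _, _, W, U, U', a1, a2, a3, a4⟩ := hG
  refine ⟨k, inferInstance, inferInstance, W.submatrix e id, U, U', a1, ?_, ?_, a4⟩
  · rw [transpose_submatrix, submatrix_mul_equiv, submatrix_id_id, a2]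
  · rw [← submatrix_one_equiv e, ← Pi.sub_apply, ← Pi.sub_apply, ← submatrix_sub, a3]
    ext i j
    simp only [submatrix_apply, mul_apply, transpose_apply, id]

theorem zlem_perm (π : Equiv.Perm n) : ZlemG ((1 : Matrix n n T).submatrix id π) := by
  induction π using Equiv.Perm.swap_induction_on with
  | one => exact zlem_one
  | swap_mul f x y hxy ih =>
    have e : (1 : Matrix n n T).submatrix id ⇑(Equiv.swap x y * f) =
        (1 : Matrix n n T).submatrix id (Equiv.swap x y) * (1 : Matrix n n T).submatrix id f := by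
      ext i j
      simp [mul_apply, one_apply]
    rw [e]
    refine zlem_mul ⟨Unit, inferInstance, inferInstance,
      of fun i _ => (if i = x then 1 else 0) - if i = y then 1 else 0, 1, 1, Matrix.one_mul _,
      ?_, ?_, by rw [det_one, cls_one]⟩ ih
    · ext i j
      simp [mul_apply, sub_mul, Finset.sum_sub_distrib, hxy, hxy.symm]
    · ext i j
      clear e ih
      simp only [Matrix.mul_one, mul_apply, Matrix.sub_apply, submatrix_apply, one_apply, id,
        Finset.univ_unique, Finset.sum_singleton, of_apply, transpose_apply, Equiv.swap_apply_def]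
      by_cases h1 : i = x <;> by_cases h2 : i = y <;> by_cases h3 : j = x <;>
        by_cases h4 : j = y <;> simp_all [eq_comm]

theorem zlem_rot [Nice T] {M : Matrix (Fin 2) (Fin 2) T} (h : GoodRot M) :
    (∃ W U U' : Matrix (Fin 2) (Fin 2) T, ZlemD M W U U') ∧ M * Mᵀ = 1 ∧ M.det = 1 := by
  rcases h with rfl | ⟨a, b, u, rfl, h1, h2⟩
  · refine ⟨⟨0, !![0, 1; -1, 0], !![0, -1; 1, 0], ?_, ?_, by simp, ?_⟩, by simp, det_one⟩
    · ext i j
      fin_cases i <;> fin_cases j <;> simp [mul_apply, Fin.sum_univ_two]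
    · ext i j
      fin_cases i <;> fin_cases j <;> simp
    · rw [det_fin_two_of]
      simpa using cls_one
  · obtain ⟨w, hw⟩ := Nice.two (T := T)
    have hc : (((w * u)⁻¹ : Tˣ) : T) ^ 2 * (2 * (1 - a)) = 1 := by
      rw [hw, h2, ← mul_pow, ← mul_pow, ← Units.val_mul, ← Units.val_mul, inv_mul_cancel,
        Units.val_one, one_pow]
    set c := (((w * u)⁻¹ : Tˣ) : T) ^ 2
    refine ⟨⟨1, !![c * (1 - a), -(c * b); c * b, c * (1 - a)], !![1 - a, b; -b, 1 - a],
      ?_, ?_, ?_, ?_⟩, ?_, ?_⟩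
    · ext i j
      fin_cases i <;> fin_cases j <;> simp [mul_apply, Fin.sum_univ_two]
      · linear_combination hc + c * h1
      · ring
      · ring
      · linear_combination hc + c * h1
    · ext i j
      fin_cases i <;> fin_cases j <;> simp
      · linear_combination hc
      · linear_combination hc
    · ext i j
      fin_cases i <;> fin_cases j <;> simp
    · rw [det_fin_two_of, ← cls_sq (w * u)]
      congr 1
      rw [Units.val_mul, mul_pow, ← hw, ← h2]
      linear_combination h1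
    · ext i j
      fin_cases i <;> fin_cases j <;> simp [mul_apply, Fin.sum_univ_two]
      · linear_combination h1
      · ring
      · ring
      · linear_combination h1
    · rw [det_fin_two_of]
      linear_combination h1

theorem zlem_diag [Nice T] {R : n → Matrix (Fin 2) (Fin 2) T} (h : ∀ t, GoodRot (R t)) :
    ZlemG (blockDiagonal R) ∧ blockDiagonal R * (blockDiagonal R)ᵀ = 1 ∧
      (blockDiagonal R).det = 1 := by
  refine ⟨?_, ?_, ?_⟩
  · choose W U U' hW using fun t => (zlem_rot (h t)).1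
    refine ⟨Fin 2 × n, inferInstance, inferInstance, blockDiagonal W, blockDiagonal U,
      blockDiagonal U', ?_, ?_, ?_, ?_⟩
    · rw [← blockDiagonal_mul, ← blockDiagonal_one]
      congr 1
      funext t
      exact (hW t).1
    · rw [blockDiagonal_transpose, blockDiagonal_transpose, ← blockDiagonal_mul,
        ← blockDiagonal_add]
      congr 1
      funext t
      exact (hW t).2.1
    · rw [blockDiagonal_transpose, ← blockDiagonal_mul, ← blockDiagonal_mul, ← blockDiagonal_one,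
        ← blockDiagonal_sub]
      congr 1
      funext t
      exact (hW t).2.2.1
    · rw [det_blockDiagonal, cls_prod _ _ fun t _ => isUnit_det_of_left_inverse (hW t).1]
      exact Finset.prod_eq_one fun t _ => (hW t).2.2.2
  · rw [blockDiagonal_transpose, ← blockDiagonal_mul, ← blockDiagonal_one]
    congr 1
    funext t
    exact (zlem_rot (h t)).2.1
  · rw [det_blockDiagonal]
    exact Finset.prod_eq_one fun t _ => (zlem_rot (h t)).2.2

theorem zlem_cls_neg_pow [Nice T] (k : ℕ) (x : T) : cls ((-1) ^ k * x) = cls x := by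
  induction k with
  | zero => rw [pow_zero, one_mul]
  | succ k ih => rw [pow_succ, mul_neg_one, neg_mul, cls_neg, ih]

/-- The bordered determinant is a square. -/
theorem zlem_border [Nice T] {G : Matrix n n T} (hG : ZlemG G) (a ν : Matrix n m T)
    (h1 : (1 - G) * a = 0) (h2 : νᵀ * a = 1) (hu : IsUnit (fromBlocks (1 - G) ν νᵀ 0).det) :
    cls (fromBlocks (1 - G) ν νᵀ 0).det = 1 := by
  obtain ⟨k, _, _, W, U, U', a1, a2, a3, a4⟩ := hG
  obtain ⟨w, hw⟩ := Nice.two (T := T)
  have hc : ((w⁻¹ : Tˣ) : T) ^ 2 * 2 = 1 := by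
    rw [hw, ← mul_pow, ← Units.val_mul, inv_mul_cancel, Units.val_one, one_pow]
  set c := ((w⁻¹ : Tˣ) : T) ^ 2
  let S : Matrix (k ⊕ (n ⊕ m)) (k ⊕ (n ⊕ m)) T :=
    fromBlocks (c • (U - Uᵀ)) (fromCols Wᵀ (c • (Wᵀ * ν))) (fromRows (-W) (-(c • (νᵀ * W))))
      (fromBlocks 0 ν (-νᵀ) 0)
  have hS : Sᵀ = -S := by
    simp only [S, fromBlocks_transpose, fromBlocks_neg, transpose_fromCols, transpose_fromRows,
      fromRows_neg, fromCols_neg, transpose_smul, transpose_sub, transpose_neg, transpose_mul,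
      transpose_transpose, transpose_zero, neg_neg, neg_zero, ← smul_neg, neg_sub]
  have hsq : IsSquare S.det := isSquare_det_of_alt S hS fun i => by
    have h : S i i = -S i i := congrFun (congrFun hS i) i
    linear_combination c * h - S i i * hc
  have hU : c • (U - Uᵀ) + c • (Wᵀ * W) = U := by
    rw [← a2, ← smul_add, show U - Uᵀ + (U + Uᵀ) = U + U by abel, ← two_smul T U, smul_smul, hc,
      one_smul]
  have e1 : fromBlocks 1 (fromCols (-(c • Wᵀ)) 0) 0 (fromBlocks 1 0 (-(c • νᵀ)) 1) * S =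
      fromBlocks U 0 (fromRows (-W) 0) 1 * fromBlocks 1 (fromCols (U' * Wᵀ) 0) 0
        (fromBlocks (1 - G) ν (-νᵀ) (-(c • (νᵀ * ν)))) := by
    simp only [S, fromBlocks_multiply, fromCols_mul_fromRows, fromCols_mul_fromBlocks,
      fromBlocks_mul_fromRows, fromRows_mul_fromCols, mul_fromCols, Matrix.one_mul,
      Matrix.mul_one, Matrix.zero_mul, Matrix.mul_zero, add_zero, zero_add, Matrix.neg_mul,
      Matrix.mul_neg, neg_neg, Matrix.smul_mul, hU, ← Matrix.mul_assoc, a1, a3, neg_zero,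
      add_neg_cancel, fromBlocks_add, neg_add_cancel]
    congr 1
    · ext i (j | j) <;> simp
    · rw [Matrix.mul_assoc (fromRows _ _), fromRows_mul]
      ext (i | i) (j | j) <;> simp [Matrix.mul_assoc]
  have e2 := congrArg det e1
  simp only [det_mul, det_fromBlocks_zero₂₁, det_fromBlocks_zero₁₂, det_one, one_mul,
    mul_one] at e2
  have e3 : fromBlocks (1 - G) ν (-νᵀ) (-(c • (νᵀ * ν))) =
      fromBlocks 1 0 0 (-1) * fromBlocks (1 - G) ν νᵀ 0 *
        fromBlocks 1 (a * (c • (νᵀ * ν))) 0 1 := by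
    simp only [fromBlocks_multiply, Matrix.one_mul, Matrix.mul_one, Matrix.zero_mul,
      Matrix.mul_zero, add_zero, zero_add, Matrix.neg_mul, ← Matrix.mul_assoc, h1, h2, neg_zero]
  rw [e3] at e2
  simp only [det_mul, det_fromBlocks_zero₂₁, det_one, one_mul, mul_one, det_neg] at e2
  have hUu : IsUnit U.det := isUnit_det_of_right_inverse a1
  have hcU : cls U.det = 1 := by
    have := cls_mul hUu (isUnit_det_of_left_inverse a1)
    rw [← det_mul, a1, det_one, cls_one, a4, zlem_mul_one] at this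
    exact this.symm
  have hu2 : IsUnit ((-1 : T) ^ Fintype.card m * (fromBlocks (1 - G) ν νᵀ 0).det) :=
    (isUnit_one.neg.pow _).mul hu
  have h3 := (cls_eq_one_iff (e2 ▸ hUu.mul hu2 : IsUnit S.det)).mpr hsq
  rw [e2, cls_mul hUu hu2, hcU, zlem_one_mul, zlem_cls_neg_pow] at h3
  exact h3

end G

section Z

variable {V F R : Type} [Fintype V] [DecidableEq V] [Fintype F] [DecidableEq F] [Fintype R]
  [DecidableEq R] {a : Matrix F V T} {B : Matrix R F T} {η : Matrix V R T}

theorem zlem_cx (h : IsCx (zpar V F R) (zmat a B η)) : B * a = 0 ∧ η * B = 0 := by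
  have h1 := h.sq
  simp only [zmat, fromBlocks_multiply, Matrix.zero_mul, Matrix.mul_zero, add_zero, zero_add,
    fromBlocks_add] at h1
  constructor
  · ext i j
    exact congrFun (congrFun h1 (Sum.inr (Sum.inl i))) (Sum.inl (Sum.inl j))
  · ext i j
    exact congrFun (congrFun h1 (Sum.inr (Sum.inr i))) (Sum.inl (Sum.inr j))

theorem zlem_con (h : Contr (zpar V F R) (zmat a B η)) :
    ∃ (μ : Matrix V F T) (σ : Matrix F R T) (ν : Matrix R V T),
      a * μ + σ * B = 1 ∧ B * σ + ν * η = 1 ∧ η * ν = 1 := by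
  obtain ⟨Γ, -, hΓ⟩ := h
  refine ⟨of fun v f => Γ (Sum.inl (Sum.inl v)) (Sum.inl (Sum.inr f)),
    of fun f r => Γ (Sum.inl (Sum.inr f)) (Sum.inr (Sum.inl r)),
    of fun r v => Γ (Sum.inr (Sum.inl r)) (Sum.inr (Sum.inr v)), ?_, ?_, ?_⟩
  · ext i j
    have := congrFun (congrFun hΓ (Sum.inl (Sum.inr i))) (Sum.inl (Sum.inr j))
    simpa [zmat, mul_apply, Fintype.sum_sum_type, one_apply] using this
  · ext i j
    have := congrFun (congrFun hΓ (Sum.inr (Sum.inl i))) (Sum.inr (Sum.inl j))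
    simpa [zmat, mul_apply, Fintype.sum_sum_type, one_apply] using this
  · ext i j
    have := congrFun (congrFun hΓ (Sum.inr (Sum.inr i))) (Sum.inr (Sum.inr j))
    simpa [zmat, mul_apply, Fintype.sum_sum_type, one_apply] using this

theorem zlem_tor [Nice T] (h : IsCx (zpar V F R) (zmat a B η)) (β : F ≃ R) {μ : Matrix V F T}
    {σ : Matrix F R T} {ν : Matrix R V T} (h0 : μ * a = 1) (h1 : a * μ + σ * B = 1)
    (h2 : B * σ + ν * η = 1) (h3 : η * ν = 1) (h4 : μ * σ = 0) (h5 : σ * ν = 0) :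
    tor (zpar V F R) (zmat a B η) =
      cls (fromBlocks (σ.submatrix id β) a (η.submatrix id β) 0).det := by
  let Γ : Matrix ((V ⊕ F) ⊕ (R ⊕ V)) ((V ⊕ F) ⊕ (R ⊕ V)) T :=
    fromBlocks (fromBlocks 0 μ 0 0) (fromBlocks 0 0 σ 0) 0 (fromBlocks 0 ν 0 0)
  have hΓ : IsOdd (zpar V F R) Γ := by
    rintro ((i | i) | (i | i)) ((j | j) | (j | j)) hij <;> first | rfl | simp [zpar] at hij
  have g1 : zmat a B η * Γ + Γ * zmat a B η = 1 := by
    simp only [zmat, Γ, fromBlocks_multiply, Matrix.zero_mul, Matrix.mul_zero, add_zero, zero_add,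
      fromBlocks_add, h0, h1, h2, h3, fromBlocks_one, fromBlocks_zero]
  have g2 : Γ * Γ = 0 := by
    simp only [Γ, fromBlocks_multiply, Matrix.zero_mul, Matrix.mul_zero, add_zero, zero_add,
      fromBlocks_add, h4, h5, fromBlocks_zero]
  let eo : F ⊕ V ≃ {i // zpar V F R i = true} := Equiv.ofBijective
    (Sum.elim (fun f => ⟨Sum.inl (Sum.inr f), rfl⟩) fun v => ⟨Sum.inr (Sum.inr v), rfl⟩) (by
      constructor
      · rintro (x | x) (y | y) hxy <;> simp_all
      · rintro ⟨(i | i) | (i | i), hi⟩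
        · simp [zpar] at hi
        · exact ⟨Sum.inl i, rfl⟩
        · simp [zpar] at hi
        · exact ⟨Sum.inr i, rfl⟩)
  let ee : F ⊕ V ≃ {i // zpar V F R i = false} := Equiv.ofBijective
    (Sum.elim (fun f => ⟨Sum.inr (Sum.inl (β f)), rfl⟩) fun v => ⟨Sum.inl (Sum.inl v), rfl⟩) (by
      constructor
      · rintro (x | x) (y | y) hxy <;> simp_all
      · rintro ⟨(i | i) | (i | i), hi⟩
        · exact ⟨Sum.inr i, rfl⟩
        · simp [zpar] at hi
        · exact ⟨Sum.inl (β.symm i), by simp⟩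
        · simp [zpar] at hi)
  rw [(tor_eq h hΓ g1 g2 (eo.symm.trans ee)).2, ← det_submatrix_equiv_self eo]
  congr 2
  ext i j
  simp only [torMat, submatrix_apply, Equiv.trans_apply, Equiv.symm_apply_apply]
  rcases i with i | i <;> rcases j with j | j <;> simp [eo, ee, zmat, Γ]

theorem zlem_main [Nice T] {Ap Am : Matrix R F T} (β : F ≃ R) (o1 : Apᵀ * Ap = 1)
    (o2 : Ap * Apᵀ = 1) (hd : (Apᵀ.submatrix id β).det = 1) (hG : ZlemG (Apᵀ * Am))
    (h : IsCx (zpar V F R) (zmat a (Ap - Am) (aᵀ * Apᵀ)))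
    (hc : Contr (zpar V F R) (zmat a (Ap - Am) (aᵀ * Apᵀ))) :
    tor (zpar V F R) (zmat a (Ap - Am) (aᵀ * Apᵀ)) = 1 := by
  obtain ⟨c1, c2⟩ := zlem_cx h
  obtain ⟨μ0, σ0, ν0, d1, d2, d3⟩ := zlem_con hc
  have hN : 1 - Apᵀ * Am = Apᵀ * (Ap - Am) := by rw [Matrix.mul_sub, o1]
  set N := 1 - Apᵀ * Am
  have hB : Ap - Am = Ap * N := by rw [hN, ← Matrix.mul_assoc, o2, Matrix.one_mul]
  obtain ⟨ν, hν⟩ : ∃ ν, ν = Apᵀ * ν0 := ⟨_, rfl⟩
  have n1 : N * a = 0 := by rw [hN, Matrix.mul_assoc, c1, Matrix.mul_zero]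
  have n2 : aᵀ * N = 0 := by rw [hN, ← Matrix.mul_assoc, c2]
  have n3 : aᵀ * ν = 1 := by rw [hν, ← Matrix.mul_assoc, d3]
  have n4 : νᵀ * a = 1 := by
    have := congrArg transpose n3
    rwa [transpose_mul, transpose_transpose, transpose_one] at this
  have n5 : σ0 * Ap * N = 1 - a * μ0 := by rw [Matrix.mul_assoc, ← hB, ← d1, add_sub_cancel_left]
  have n6 : N * (σ0 * Ap) = 1 - ν * aᵀ := by
    have := congrArg (fun X => Apᵀ * X * Ap) d2
    simp only [Matrix.mul_add, Matrix.add_mul, Matrix.mul_one, o1] at this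
    rw [← this, hN, hν]
    simp only [Matrix.mul_assoc, o1, Matrix.mul_one, add_sub_cancel_right]
  obtain ⟨p, hp⟩ : ∃ p, p = 1 - a * νᵀ := ⟨_, rfl⟩
  obtain ⟨q, hq⟩ : ∃ q, q = 1 - ν * aᵀ := ⟨_, rfl⟩
  have p1 : p * a = 0 := by
    rw [hp, Matrix.sub_mul, Matrix.mul_assoc, n4, Matrix.one_mul, Matrix.mul_one, sub_self]
  have p2 : νᵀ * p = 0 := by
    rw [hp, Matrix.mul_sub, ← Matrix.mul_assoc, n4, Matrix.one_mul, Matrix.mul_one, sub_self]
  have p3 : N * p = N := by
    rw [hp, Matrix.mul_sub, ← Matrix.mul_assoc, n1, Matrix.zero_mul, Matrix.mul_one, sub_zero]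
  have q1 : q * ν = 0 := by
    rw [hq, Matrix.sub_mul, Matrix.mul_assoc, n3, Matrix.one_mul, Matrix.mul_one, sub_self]
  have q2 : q * N = N := by
    rw [hq, Matrix.sub_mul, Matrix.mul_assoc, n2, Matrix.one_mul, Matrix.mul_zero, sub_zero]
  have q3 : q * q = q := by
    conv_lhs => rw [hq, Matrix.mul_sub, ← hq, ← Matrix.mul_assoc, q1]
    rw [Matrix.zero_mul, Matrix.mul_one, sub_zero]
  obtain ⟨σ, hσ⟩ : ∃ σ, σ = p * (σ0 * Ap) * q := ⟨_, rfl⟩
  have s1 : σ * N + a * νᵀ = 1 := by
    rw [hσ, Matrix.mul_assoc, q2, Matrix.mul_assoc, n5, Matrix.mul_sub, ← Matrix.mul_assoc, p1,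
      Matrix.zero_mul, Matrix.mul_one, sub_zero, hp, sub_add_cancel]
  have s2 : N * σ + ν * aᵀ = 1 := by
    rw [hσ, ← Matrix.mul_assoc, ← Matrix.mul_assoc, p3, n6, ← hq, q3, hq, sub_add_cancel]
  have s3 : νᵀ * σ = 0 := by
    rw [hσ, ← Matrix.mul_assoc, ← Matrix.mul_assoc, p2, Matrix.zero_mul, Matrix.zero_mul]
  have s4 : σ * ν = 0 := by rw [hσ, Matrix.mul_assoc, q1, Matrix.mul_zero]
  rw [zlem_tor h β (μ := νᵀ) (σ := σ * Apᵀ) (ν := Ap * ν) n4
    (by rw [Matrix.mul_assoc, ← hN, add_comm, s1])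
    (by
      have := congrArg (fun X => Ap * X * Apᵀ) s2
      simp only [Matrix.mul_add, Matrix.add_mul, Matrix.mul_one, o2] at this
      rw [← this, hB]
      simp only [Matrix.mul_assoc])
    (by rw [Matrix.mul_assoc, ← Matrix.mul_assoc Apᵀ, o1, Matrix.one_mul, n3])
    (by rw [← Matrix.mul_assoc, s3, Matrix.zero_mul])
    (by rw [Matrix.mul_assoc, ← Matrix.mul_assoc Apᵀ, o1, Matrix.one_mul, s4])]
  have e1 : fromBlocks ((σ * Apᵀ).submatrix id β) a ((aᵀ * Apᵀ).submatrix id β) 0 =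
      fromBlocks σ a aᵀ 0 * fromBlocks (Apᵀ.submatrix id β) 0 0 1 := by
    simp only [fromBlocks_multiply, Matrix.mul_zero, Matrix.zero_mul, add_zero, zero_add,
      Matrix.mul_one]
    rfl
  have e2 : fromBlocks σ a aᵀ 0 * fromBlocks N ν νᵀ 0 = 1 := by
    simp only [fromBlocks_multiply, Matrix.mul_zero, Matrix.zero_mul, add_zero, s1, s4, n2, n3,
      fromBlocks_one]
  rw [e1, det_mul, det_fromBlocks_zero₂₁, hd, det_one, mul_one, mul_one]
  have := cls_mul (isUnit_det_of_right_inverse e2) (isUnit_det_of_left_inverse e2)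
  rw [← det_mul, e2, det_one, cls_one,
    zlem_border hG a ν n1 n4 (isUnit_det_of_left_inverse e2), zlem_mul_one] at this
  exact this.symm

end Z

theorem zlem_blk {Tt F : Type} [DecidableEq Tt] (β : Tt × Fin 2 ≃ F)
    (R : Tt → Matrix (Fin 2) (Fin 2) T) :
    blk β R = (blockDiagonal R).submatrix (Equiv.prodComm Tt (Fin 2))
      (β.symm.trans (Equiv.prodComm Tt (Fin 2))) := by
  ext x f
  simp only [blk, submatrix_apply, blockDiagonal_apply, Equiv.trans_apply, Equiv.prodComm_apply,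
    Prod.fst_swap, Prod.snd_swap, eq_comm]

theorem zlemma [Nice T] {Tt F V : Type} [Fintype Tt] [DecidableEq Tt] [Fintype F] [DecidableEq F]
    [Fintype V] [DecidableEq V] (βp βm : Tt × Fin 2 ≃ F)
    (Rp Rm : Tt → Matrix (Fin 2) (Fin 2) T) (hp : ∀ t, GoodRot (Rp t)) (hm : ∀ t, GoodRot (Rm t))
    (a : Matrix F V T)
    (h : IsCx (zpar V F (Tt × Fin 2)) (zmat a (blk βp Rp - blk βm Rm) (aᵀ * (blk βp Rp)ᵀ)))
    (hc : Contr (zpar V F (Tt × Fin 2)) (zmat a (blk βp Rp - blk βm Rm) (aᵀ * (blk βp Rp)ᵀ))) :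
    tor (zpar V F (Tt × Fin 2)) (zmat a (blk βp Rp - blk βm Rm) (aᵀ * (blk βp Rp)ᵀ)) = 1 := by
  obtain ⟨p1, p2, p3⟩ := zlem_diag hp
  obtain ⟨m1, -, -⟩ := zlem_diag hm
  refine zlem_main βp.symm ?_ ?_ ?_ ?_ h hc
  · rw [zlem_blk, transpose_submatrix, submatrix_mul_equiv, mul_eq_one_comm.mp p2,
      submatrix_one_equiv]
  · rw [zlem_blk, transpose_submatrix, submatrix_mul_equiv, p2, submatrix_one_equiv]
  · rw [zlem_blk, transpose_submatrix, submatrix_submatrix, ← p3, ← det_transpose (blockDiagonal Rp),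
      ← det_submatrix_equiv_self (βp.symm.trans (Equiv.prodComm Tt (Fin 2)))]
    rfl
  · rw [zlem_blk, zlem_blk, transpose_submatrix, submatrix_mul_equiv]
    set γp := βp.symm.trans (Equiv.prodComm Tt (Fin 2))
    set γm := βm.symm.trans (Equiv.prodComm Tt (Fin 2))
    have e : ((blockDiagonal Rp)ᵀ * blockDiagonal Rm).submatrix γp γm =
        ((blockDiagonal Rp)ᵀ * blockDiagonal Rm).submatrix γp γp *
          (1 : Matrix F F T).submatrix id (γm.trans γp.symm) := by
      generalize (blockDiagonal Rp)ᵀ * blockDiagonal Rm = X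
      ext i j
      simp [mul_apply, one_apply]
    rw [e]
    exact zlem_mul (zlem_reindex (zlem_mul (zlem_transpose p1) m1) γp) (zlem_perm _)

end MP35
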